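import Pool.Agent.MP_20d318_ag.CH.LBase

/-! Numerical classes on the blow-up of a product: definitions and statements. -/

set_option autoImplicit false
set_option linter.unusedSectionVars false

namespace Pool.Agent.MP_20d318_ag.KK

open Pool.Agent.MP_20d318_ag.Lat hiding act actW W
open Pool.Agent.MP_20d318_ag.CH

universe u v

/-- A triple `L, L', a` is the class `L + L' - ∑ a i j • E i j`. -/
abbrev WP (V V' : Type u) (κ κ' : Type) : Type u := V × V' × (κ → κ' → ℝ)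

variable {V V' V'' : Type u} {𝒞 𝒞' 𝒞'' : Type v} {κ κ' : Type} [AddCommGroup V] [Module ℝ V]
  [AddCommGroup V'] [Module ℝ V'] [AddCommGroup V''] [Module ℝ V''] [Fintype κ] [Fintype κ']

section one

variable (N : Nd V 𝒞 κ)

/-- Half of all the divisors can be subtracted. -/
structure HF : Prop where
  cur : ∀ ν, ∀ L ∈ N.Nef, ∀ x : κ → ℝ, (∀ i, 0 ≤ x i) → (∀ i, L - x i • N.c i ∈ N.Nef) →
    0 ≤ N.d ν ((2 : ℝ) • L - ∑ i, x i • N.c i)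
  eff : ∀ L ∈ N.Nef, L ∈ N.Λ → ∀ x : κ → ℝ, (∀ i, 0 ≤ x i) → (∀ i, IZ (x i)) →
    (∀ i, L - x i • N.c i ∈ N.Nef) → (2 : ℝ) • L - ∑ i, x i • N.c i ∈ N.Ef

/-- Integral forms that are nonnegative on the nef cone. -/
def Fm (f : V →ₗ[ℝ] ℝ) : Prop := Intg N.Λ f ∧ ∀ x ∈ N.Nef, 0 ≤ f x

/-- The forms in `F` decide, for `L` in `A`, whether `L` minus the divisors is nef. -/
def Dec (A : Set V) (F : Set (V →ₗ[ℝ] ℝ)) : Prop := ∀ L ∈ A, ∀ z : κ → ℝ, (∀ i, 0 ≤ z i) →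
  (∀ f ∈ F, 0 ≤ f (L - ∑ i, z i • N.c i)) → L - ∑ i, z i • N.c i ∈ N.Nef

/-- Forms of finitely many types decide. -/
def DK : Prop := ∃ F : Set (V →ₗ[ℝ] ℝ), (∀ f ∈ F, Fm N f) ∧
  ((fun (f : V →ₗ[ℝ] ℝ) i => f (N.c i)) '' F).Finite ∧ Dec N N.Nef F

/-- The cover, with finitely many forms that decide on it. -/
def CVF : Prop := ∃ (R : Finset V) (F : Set (V →ₗ[ℝ] ℝ)), (R : Set V) ⊆ N.Λ ∧
  cone (R : Set V) ⊆ N.Nef ∩ N.Ef ∧ (∀ x ∈ N.Nef ∩ N.Ef, ∃ g ∈ N.G, g x ∈ cone (R : Set V)) ∧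
    F.Finite ∧ (∀ f ∈ F, Fm N f) ∧ Dec N (cone (R : Set V)) F

/-- What a factor has to satisfy. -/
structure Lw : Prop where
  fd : FiniteDimensional ℝ V
  ne : Nonempty κ
  cΛ : ∀ i, N.c i ∈ N.Λ
  dich : Dich N
  hf : HF N
  dk : DK N
  cv : CV N
  spn : Spn N

end one

section two

variable (N : Nd V 𝒞 κ) (N' : Nd V' 𝒞' κ')

/-- The expected nef cone. -/
def NL : Set (WP V V' κ κ') := {D | (∀ i j, 0 ≤ D.2.2 i j) ∧ D.1 ∈ N.Nef ∧ D.2.1 ∈ N'.Nef ∧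
  (∀ j, D.1 - ∑ i, D.2.2 i j • N.c i ∈ N.Nef) ∧ ∀ i, D.2.1 - ∑ j, D.2.2 i j • N'.c j ∈ N'.Nef}

/-- The integral classes. -/
def LW : AddSubgroup (WP V V' κ κ') where
  carrier := {D | D.1 ∈ N.Λ ∧ D.2.1 ∈ N'.Λ ∧ ∀ i j, IZ (D.2.2 i j)}
  add_mem' h h' := ⟨N.Λ.add_mem h.1 h'.1, N'.Λ.add_mem h.2.1 h'.2.1,
    fun i j => (h.2.2 i j).add (h'.2.2 i j)⟩
  zero_mem' := ⟨N.Λ.zero_mem, N'.Λ.zero_mem, fun _ _ => IZ.zero⟩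
  neg_mem' h := ⟨N.Λ.neg_mem h.1, N'.Λ.neg_mem h.2.1, fun i j => (h.2.2 i j).neg⟩

theorem mem_LW {D : WP V V' κ κ'} :
    D ∈ LW N N' ↔ D.1 ∈ N.Λ ∧ D.2.1 ∈ N'.Λ ∧ ∀ i j, IZ (D.2.2 i j) := Iff.rfl

open Classical in
/-- The strict transforms. -/
noncomputable def stW : κ ⊕ κ' → WP V V' κ κ' :=
  Sum.elim (fun i => (N.c i, 0, fun i' _ => if i' = i then 1 else 0))
    fun j => (0, N'.c j, fun _ j' => if j' = j then 1 else 0)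

open Classical in
/-- An exceptional divisor. -/
noncomputable def exW (i : κ) (j : κ') : WP V V' κ κ' :=
  (0, 0, fun i' j' => if i' = i ∧ j' = j then -1 else 0)

open Classical in
/-- The degrees of a curve over `ν` and `ν'`: on a strict transform, on an exceptional divisor, or
general. -/
def Ty (ν : 𝒞) (ν' : 𝒞') (ε : κ → κ' → ℝ) : Prop :=
  (∃ j, (∀ j', j' ≠ j → N'.d ν' (N'.c j') = 0) ∧
    ∀ i j', ε i j' = if j' = j then N.d ν (N.c i) else 0) ∨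
  (∃ i, (∀ i', i' ≠ i → N.d ν (N.c i') = 0) ∧
    ∀ i' j, ε i' j = if i' = i then N'.d ν' (N'.c j) else 0) ∨
  (∃ i j, (∀ i', i' ≠ i → N.d ν (N.c i') = 0) ∧ (∀ j', j' ≠ j → N'.d ν' (N'.c j') = 0) ∧
    ε i j ≤ N.d ν (N.c i) ∧ ε i j ≤ N'.d ν' (N'.c j) ∧
      ∀ i' j', ¬ (i' = i ∧ j' = j) → ε i' j' = 0) ∨
  ((∀ i j, 0 ≤ ε i j) ∧ (∀ i, ∑ j, ε i j ≤ N.d ν (N.c i)) ∧ ∀ j, ∑ i, ε i j ≤ N'.d ν' (N'.c j))

section degrees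

variable (d : 𝒞'' → V'' →ₗ[ℝ] ℝ) (Φ : WP V V' κ κ' →ₗ[ℝ] V'')

/-- The curves on the blow-up. -/
def StCur : Prop := ∀ μ, ∃ ν ν' ε, Ty N N' ν ν' ε ∧
  ∀ D, d μ (Φ D) = N.d ν D.1 + N'.d ν' D.2.1 - ∑ i, ∑ j, D.2.2 i j * ε i j

/-- The test curves. -/
structure StTest : Prop where
  tE : ∀ i j, ∃ μ, ∃ n : ℝ, 0 < n ∧ ∀ D, d μ (Φ D) = n * D.2.2 i j
  tT : ∀ ν j, ∃ μ, ∀ D, d μ (Φ D) = N.d ν (D.1 - ∑ i, D.2.2 i j • N.c i)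
  tT' : ∀ ν' i, ∃ μ, ∀ D, d μ (Φ D) = N'.d ν' (D.2.1 - ∑ j, D.2.2 i j • N'.c j)
  tB : ∀ ν i, N.d ν (N.c i) < 0 → ∃ μ, ∀ D, d μ (Φ D) = N.d ν D.1
  tB' : ∀ ν' j, N'.d ν' (N'.c j) < 0 → ∃ μ, ∀ D, d μ (Φ D) = N'.d ν' D.2.1

end degrees

variable (N'' : Nd V'' 𝒞'' (κ ⊕ κ')) (Φ : WP V V' κ κ' →ₗ[ℝ] V'')

/-- The divisors on the blow-up. -/
structure StDiv : Prop where
  lat : ∀ D ∈ LW N N', Φ D ∈ N''.Λ
  spn : Submodule.span ℝ (N''.Λ : Set V'') = ⊤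
  cc : ∀ i, N''.c i = Φ (stW N N' i)
  eL : ∀ L ∈ N.Ef, Φ (L, 0, 0) ∈ N''.Ef
  eL' : ∀ L ∈ N'.Ef, Φ (0, L, 0) ∈ N''.Ef
  eE : ∀ i j, Φ (exW i j) ∈ N''.Ef
  eC : ∀ i, N''.c i ∈ N''.Ef

/-- The classes on the blow-up. -/
structure StCls : Prop where
  cls : ∀ x ∈ N''.Λ, ∃ n : ℕ, 0 < n ∧ ∃ D ∈ LW N N', (n : ℝ) • x = Φ D
  dn : ∀ x ∈ N''.Ef, ∃ D, Φ D = x ∧ D.1 ∈ N.Ef ∧ D.2.1 ∈ N'.Ef

/-- Pairs of automorphisms lift. -/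
def StLift : Prop := ∀ g ∈ N.G, ∀ g' ∈ N'.G, ∃ γ ∈ N''.G,
  ∀ D, γ (Φ D) = Φ (g D.1, g' D.2.1, D.2.2)

/-- The hypotheses of the step. -/
structure Stp : Prop extends StTest N N' N''.d Φ, StDiv N N' N'' Φ, StCls N N' N'' Φ where
  b : Bas N
  b' : Bas N'
  b'' : Bas N''
  l : Lw N
  l' : Lw N'
  cur : StCur N N' N''.d Φ
  lift : StLift N N' N'' Φ

/-- The nef cone. -/
def NefEq : Prop := ∀ D, Φ D ∈ N''.Nef ↔ D ∈ NL N N'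

/-- Integral nef classes are effective. -/
def EfZ : Prop := ∀ D ∈ NL N N', D ∈ LW N N' → Φ D ∈ N''.Ef

end two

/-! ### Statements -/

/-- A property of one step. -/
def NRow (p : ∀ {V V' V'' : Type u} {𝒞 𝒞' 𝒞'' : Type v} {κ κ' : Type} [AddCommGroup V] [Module ℝ V]
    [AddCommGroup V'] [Module ℝ V'] [AddCommGroup V''] [Module ℝ V''] [Fintype κ] [Fintype κ'],
    Nd V 𝒞 κ → Nd V' 𝒞' κ' → Nd V'' 𝒞'' (κ ⊕ κ') → (WP V V' κ κ' →ₗ[ℝ] V'') → Prop) : Prop :=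
  ∀ (V V' V'' : Type u) (𝒞 𝒞' 𝒞'' : Type v) (κ κ' : Type) [AddCommGroup V] [Module ℝ V]
    [AddCommGroup V'] [Module ℝ V'] [AddCommGroup V''] [Module ℝ V''] [Fintype κ] [Fintype κ']
    (N : Nd V 𝒞 κ) (N' : Nd V' 𝒞' κ') (N'' : Nd V'' 𝒞'' (κ ⊕ κ')) (Φ : WP V V' κ κ' →ₗ[ℝ] V''),
    Stp N N' N'' Φ → p N N' N'' Φ

/-- PA: the nef cone. -/
def PaStmt : Prop := NRow.{u, v} fun N N' N'' Φ => NefEq N N' N'' Φ

/-- PB: effectivity and the span. -/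
def PbStmt : Prop := NRow.{u, v} fun {_ _ V'' _ _ _ _ _ _ _ _ _ _ _ _ _} N N' N'' Φ =>
  NefEq N N' N'' Φ → EfZ N N' N'' Φ ∧ Spn N'' ∧ FiniteDimensional ℝ V'' ∧ ∀ i, N''.c i ∈ N''.Λ

/-- PC: the subtraction. -/
def PcStmt : Prop := NRow.{u, v} fun N N' N'' Φ => NefEq N N' N'' Φ → EfZ N N' N'' Φ → SK N''

/-- PD: finitely many curves. -/
def PdStmt : Prop := NRow.{u, v} fun N N' N'' Φ => NefEq N N' N'' Φ → Dich N'' ∧ DL N''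

/-- PE: the cover. -/
def PeStmt : Prop := NRow.{u, v} fun N N' N'' Φ => NefEq N N' N'' Φ → EfZ N N' N'' Φ →
  CVF N → CVF N' → CV N''

/-- DKS: finitely many forms on a polyhedral cone. -/
def DksStmt : Prop := ∀ (V : Type u) (𝒞 : Type v) (κ : Type) [AddCommGroup V] [Module ℝ V]
  [Fintype κ] (N : Nd V 𝒞 κ), CV N → DK N → CVF N

/-- SML: small implications. -/
def SmlStmt : Prop := ∀ (V : Type u) (𝒞 : Type v) (κ : Type) [AddCommGroup V] [Module ℝ V]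
  [Fintype κ] (N : Nd V 𝒞 κ), Bas N → ((∀ i, N.c i ∈ N.Λ) → SK N → HF N) ∧ (DL N → DK N) ∧
    ∀ 𝓗, Lev N 𝓗 → HF N → CV N

universe u' v'

/-- TRP: transport. -/
def TrpStmt : Prop := ∀ (V : Type u) (𝒞 : Type v) (V' : Type u') (𝒞' : Type v') (κ : Type)
  [AddCommGroup V] [Module ℝ V] [AddCommGroup V'] [Module ℝ V'] [Fintype κ] (N : Nd V 𝒞 κ)
  (N' : Nd V' 𝒞' κ) (ψ : V ≃ₗ[ℝ] V'), Iso N N' ψ → (HF N → HF N') ∧ (DK N → DK N')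

open Pool.Agent.MP_20d318_ag.CB in
/-- HFC: all components have square `-4`. -/
def HfcStmt : Prop := ∀ (ι κ : Type) [Fintype ι] [Fintype κ] (Λ : Ld ι κ)
  (G : Set (Matrix ι ι ℤ)), CC.B0 Λ → CC.XN Λ → CC.KEY Λ → HF (ldN Λ G)

open Pool.Agent.MP_20d318_ag.CB in
/-- DKB: bounded types on the surface. -/
def DkbStmt : Prop := ∀ (ι κ : Type) [Fintype ι] [Fintype κ] (Λ : Ld ι κ)
  (G : Set (Matrix ι ι ℤ)), (NS Λ → L1 Λ → CT Λ → DK (ldN Λ G)) ∧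
    (CC.B0 Λ → CC.C0 Λ → DK (ldN Λ G))

/-- The rows of the step. -/
structure NMods : Prop where
  a : PaStmt.{u, v}
  b : PbStmt.{u, v}
  c : PcStmt.{u, v}
  d : PdStmt.{u, v}
  e : PeStmt.{u, v}
  dks : DksStmt.{u, v}
  sml : SmlStmt.{u, v}
  n3 : N3Stmt.{u, v}

theorem NMods.step (m : NMods.{u, v}) {N : Nd V 𝒞 κ} {N' : Nd V' 𝒞' κ'} {N'' : Nd V'' 𝒞'' (κ ⊕ κ')}
    {Φ : WP V V' κ κ' →ₗ[ℝ] V''} (h : Stp N N' N'' Φ) : Lw N'' ∧ Lev N'' Set.univ := by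
  have h1 := m.a _ _ _ _ _ _ _ _ N N' N'' Φ h
  obtain ⟨h2, h3, h4, h5⟩ := m.b _ _ _ _ _ _ _ _ N N' N'' Φ h h1
  have h6 := m.c _ _ _ _ _ _ _ _ N N' N'' Φ h h1 h2
  obtain ⟨h7, h8⟩ := m.d _ _ _ _ _ _ _ _ N N' N'' Φ h h1
  have h9 := m.e _ _ _ _ _ _ _ _ N N' N'' Φ h h1 h2 (m.dks _ _ _ N h.l.cv h.l.dk)
    (m.dks _ _ _ N' h.l'.cv h.l'.dk)
  have s := m.sml _ _ _ N'' h.b''
  have := h.l.ne
  exact ⟨⟨h4, inferInstance, h5, h7, s.1 h5 h6, s.2.1 h8, h9, h3⟩, h4, inferInstance, h5, h7,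
    h6.gk h7, hh_univ, m.n3 _ _ _ N'' h.b'' h5 h9 h8, h3⟩

end Pool.Agent.MP_20d318_ag.KK
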