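import Pool.Agent.MP_20d318_ag.KK.Ten
import Pool.Agent.MP_20d318_ag.KK.LSpec

/-! The blow-up of a product and its double cover: definitions and statements. -/

set_option autoImplicit false
set_option linter.unusedSectionVars false

open scoped TensorProduct

namespace Pool.Agent.MP_20d318_ag.KK

open Pool.Agent.MP_fd6584_ag.Fn Pool.Agent.CBk Polynomial
open Pool.Agent.MP_fd6584_ag.AG hiding deg_inv deg_congr deg_of_unit deg_mul deg_prod deg_zpow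
  deg_eq_zero deg_nonneg deg_div deg_pow
open Pool.Agent.MVg (Sc Fac)
open Pool.Agent.MP_20d318_ag.CH (Lv OkA Ok0 Ok Lf MW cb Vol Gens dt wt cl pull sX Tw Der HypStmt
  Nd cl_val pull_val n1_ext proj_deg nd_d nd_c)
open Pool.Agent.MP_20d318_ag.CH.Xdv (Loc)

section general

variable {k M M' K : Type} [Field k] [Field M] [Field M'] [Field K] [Algebra k M] [Algebra k M']
  [Algebra k K] (ι : M →ₐ[k] K) (ι' : M' →ₐ[k] K)

/-- The ring generated by the images of `R`, `R'` and by `G`. -/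
def Bq (R : Subalgebra k M) (R' : Subalgebra k M') (G : Set K) : Subalgebra k K :=
  Algebra.adjoin k (ι '' R ∪ (ι' '' R' ∪ G))

theorem Bq_comm (R : Subalgebra k M) (R' : Subalgebra k M') (G : Set K) :
    Bq ι' ι R' R G = Bq ι ι' R R' G := by
  rw [Bq, Bq, Set.union_left_comm]

theorem Bq_range (R : Subalgebra k M) (R' : Subalgebra k M') :
    (pm (ι.comp R.val) (ι'.comp R'.val)).range = Bq ι ι' R R' ∅ := by
  rw [pm_range, Bq, Set.union_empty, AlgHom.coe_comp, AlgHom.coe_comp, Set.range_comp,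
    Set.range_comp, Subalgebra.coe_val, Subalgebra.coe_val, Subtype.range_coe, Subtype.range_coe]

theorem Bq_top : (pm ι ι').range = Bq ι ι' ⊤ ⊤ ∅ := by
  rw [pm_range, Bq, Set.union_empty, Algebra.coe_top, Algebra.coe_top, Set.image_univ,
    Set.image_univ]

/-- Elements of the compositum. -/
def Rt (f : K) : Prop := ∃ a ∈ Bq ι ι' ⊤ ⊤ ∅, ∃ b ∈ Bq ι ι' ⊤ ⊤ ∅, b ≠ 0 ∧ f = a / b

/-- A local ring over a pair of local rings. -/
structure Ov (R : Subalgebra k M) (R' : Subalgebra k M') (O : Subalgebra k K) : Prop where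
  loc : IsLocalRing O
  dom : Dom R (O.comap ι)
  dom' : Dom R' (O.comap ι')

/-- A valuation ring whose centre is the smallest among those with the property `p`. -/
structure Mn (R : Subalgebra k M) (R' : Subalgebra k M') (A : K) (p : Subalgebra k K → Prop)
    (V : Subalgebra k K) : Prop where
  val : IsVal V
  ov : Ov ι ι' R R' V
  mem : A ∈ V
  min : ∀ O, Ov ι ι' R R' O → A ∈ O → p O → ∀ b ∈ Bq ι ι' R R' {A}, b ∈ mx V → b ∈ mx O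

/-- The prime divisors that dominate both factors. -/
def Hz (v : K) : Prop := ∃ Sp : Place k K → Prop, ∀ P : Place k K,
  plO P ∈ Pts (Bq ι ι' ⊤ ⊤ {v}) → ∃ f : K, f ≠ 0 ∧ P.ord f ≠ 0 ∧ ∀ P' : Place k K,
    plO P' ∈ Pts (Bq ι ι' ⊤ ⊤ {v}) → P' ≠ P → P'.ord f ≠ 0 → Sp P ∧ ¬ Sp P'

variable {ι ι'}

theorem Bq_l {R : Subalgebra k M} {R' : Subalgebra k M'} {G : Set K} {a : M} (h : a ∈ R) :
    ι a ∈ Bq ι ι' R R' G := Algebra.subset_adjoin (Or.inl ⟨a, h, rfl⟩)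

theorem Bq_r {R : Subalgebra k M} {R' : Subalgebra k M'} {G : Set K} {a : M'} (h : a ∈ R') :
    ι' a ∈ Bq ι ι' R R' G := Algebra.subset_adjoin (Or.inr (Or.inl ⟨a, h, rfl⟩))

theorem Bq_g {R : Subalgebra k M} {R' : Subalgebra k M'} {G : Set K} {a : K} (h : a ∈ G) :
    a ∈ Bq ι ι' R R' G := Algebra.subset_adjoin (Or.inr (Or.inr h))

theorem Ov.symm {R : Subalgebra k M} {R' : Subalgebra k M'} {O : Subalgebra k K}
    (h : Ov ι ι' R R' O) : Ov ι' ι R' R O := ⟨h.loc, h.dom', h.dom⟩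

theorem Ov.le {R : Subalgebra k M} {R' : Subalgebra k M'} {O : Subalgebra k K} {G : Set K}
    (h : Ov ι ι' R R' O) (hG : G ⊆ O) : Bq ι ι' R R' G ≤ O := by
  refine Algebra.adjoin_le ?_
  rintro _ (⟨a, ha, rfl⟩ | ⟨a, ha, rfl⟩ | ha)
  exacts [h.dom.1 ha, h.dom'.1 ha, hG ha]

theorem Rt.symm {f : K} (h : Rt ι ι' f) : Rt ι' ι f := by
  rwa [Rt, Bq_comm]

theorem Rt.inv {f : K} (h : Rt ι ι' f) : Rt ι ι' f⁻¹ := by
  obtain ⟨a, ha, b, hb, b0, rfl⟩ := h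
  rcases eq_or_ne a 0 with rfl | a0
  · exact ⟨0, ha, b, hb, b0, by simp⟩
  · exact ⟨b, hb, a, ha, a0, inv_div a b⟩

theorem Rt.mul {f g : K} (h : Rt ι ι' f) (h' : Rt ι ι' g) : Rt ι ι' (f * g) := by
  obtain ⟨a, ha, b, hb, b0, rfl⟩ := h
  obtain ⟨c, hc, d, hd, d0, rfl⟩ := h'
  exact ⟨_, mul_mem ha hc, _, mul_mem hb hd, mul_ne_zero b0 d0, div_mul_div_comm a b c d⟩

theorem Rt.of_mem {f : K} (h : f ∈ Bq ι ι' ⊤ ⊤ ∅) : Rt ι ι' f :=
  ⟨f, h, 1, one_mem _, one_ne_zero, (div_one f).symm⟩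

/-- The compositum for `e = 1` and its quadratic extension for `e = 2`. -/
structure Ext (φ : M) (φ' : M') (ι : M →ₐ[k] K) (ι' : M' →ₐ[k] K) (v : K) (e : ℕ) : Prop where
  he : e = 1 ∨ e = 2
  ns : ¬ IsSquare φ
  ns' : ¬ IsSquare φ'
  dj : Dj ι ι'
  eq : v ^ e * ι φ = ι' φ'
  top : IntermediateField.adjoin k (Set.range ι ∪ (Set.range ι' ∪ {v})) = ⊤

section ext

variable {φ : M} {φ' : M'} {v : K} {e : ℕ} (h : Ext φ φ' ι ι' v e)

include h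

theorem Ext.ne : φ ≠ 0 := fun q => h.ns (q ▸ IsSquare.zero)

theorem Ext.ne' : φ' ≠ 0 := fun q => h.ns' (q ▸ IsSquare.zero)

theorem Ext.e0 : e ≠ 0 := by rcases h.he with q | q <;> omega

theorem Ext.vne : v ≠ 0 := fun q => (map_ne_zero ι').2 h.ne' (by
  rw [← h.eq, q, zero_pow h.e0, zero_mul])

theorem Ext.symm : Ext φ' φ ι' ι v⁻¹ e := by
  refine ⟨h.he, h.ns', h.ns, h.dj.symm, ?_, ?_⟩
  · rw [← h.eq, inv_pow, inv_mul_cancel_left₀ (pow_ne_zero e h.vne)]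
  · rw [eq_top_iff, ← h.top, IntermediateField.adjoin_le_iff]
    rintro a (q | q | rfl)
    · exact IntermediateField.subset_adjoin _ _ (Or.inr (Or.inl q))
    · exact IntermediateField.subset_adjoin _ _ (Or.inl q)
    · exact inv_mem_iff.1 (IntermediateField.subset_adjoin _ _ (Or.inr (Or.inr rfl)))

end ext

/-- Facts on the field extension. -/
structure Fld (ι : M →ₐ[k] K) (ι' : M' →ₐ[k] K) (v : K) (e : ℕ) : Prop where
  rt : e = 1 → ∀ μ, Rt ι ι' μ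
  ns : e = 2 → ¬ Rt ι ι' v
  dec : ∀ μ, ∃ a b, Rt ι ι' a ∧ Rt ι ι' b ∧ μ = a + b * v
  nrm : ∀ θ : K ≃ₐ[k] K, (∀ m, θ (ι m) = ι m) → (∀ m, θ (ι' m) = ι' m) →
    θ v = (-1) ^ (3 - e) * v → ∀ μ, Rt ι ι' (μ * θ μ)
  ind : ∀ (I I' : Type) (y : I → M) (y' : I' → M'), AlgebraicIndependent k y →
    AlgebraicIndependent k y' →
      AlgebraicIndependent k (Sum.elim (fun i => ι (y i)) fun i => ι' (y' i))
  top : e = 1 → ∀ (G : Set M) (G' : Set M'), IntermediateField.adjoin k G = ⊤ →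
    IntermediateField.adjoin k G' = ⊤ → IntermediateField.adjoin k (ι '' G ∪ ι' '' G') = ⊤
  sep : ∀ (G : Set M) (G' : Set M'), IntermediateField.adjoin k G = ⊤ →
    IntermediateField.adjoin k G' = ⊤ →
      Algebra.IsSeparable (IntermediateField.adjoin k (ι '' G ∪ ι' '' G')) K

/-- The local equation `A ^ e S = S'`. -/
structure Lq (e : ℕ) (ι : M →ₐ[k] K) (ι' : M' →ₐ[k] K) (R : Subalgebra k M) (R' : Subalgebra k M')
    (A : K) (S : M) (S' : M') : Prop where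
  he : e = 1 ∨ e = 2
  dj : Dj ι ι'
  loc : IsLocalRing R
  loc' : IsLocalRing R'
  mS : S ∈ R
  mS' : S' ∈ R'
  nS : S ≠ 0
  nS' : S' ≠ 0
  eq : A ^ e * ι S = ι' S'
  ns : e = 2 → ¬ Rt ι ι' A

theorem Lq.ne {e : ℕ} {R : Subalgebra k M} {R' : Subalgebra k M'} {A : K} {S : M} {S' : M'}
    (h : Lq e ι ι' R R' A S S') : A ≠ 0 := fun q => (map_ne_zero ι').2 h.nS' (by
  rw [← h.eq, q, zero_pow (by rcases h.he with q | q <;> omega), zero_mul])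

theorem Lq.symm {e : ℕ} {R : Subalgebra k M} {R' : Subalgebra k M'} {A : K} {S : M} {S' : M'}
    (h : Lq e ι ι' R R' A S S') : Lq e ι' ι R' R A⁻¹ S' S :=
  ⟨h.he, h.dj.symm, h.loc', h.loc, h.mS', h.mS, h.nS', h.nS,
    by rw [← h.eq, inv_pow, inv_mul_cancel_left₀ (pow_ne_zero e h.ne)],
    fun q r => h.ns q (by simpa using r.symm.inv)⟩

/-- The ideal of relations is principal. -/
def Kq {e : ℕ} {R : Subalgebra k M} {R' : Subalgebra k M'} {A : K} {S : M} {S' : M'}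
    (h : Lq e ι ι' R R' A S S') : Prop :=
  ∀ q : (R ⊗[k] R')[X], XAlg.ev (pm (ι.comp R.val) (ι'.comp R'.val)) A q = 0 →
    C ((⟨S, h.mS⟩ : R) ⊗ₜ[k] (1 : R')) * X ^ e - C ((1 : R) ⊗ₜ[k] (⟨S', h.mS'⟩ : R')) ∣ q

/-- Generic points of the fibres. -/
structure Vq (ι : M →ₐ[k] K) (ι' : M' →ₐ[k] K) (R : Subalgebra k M) (R' : Subalgebra k M')
    (A : K) (S : M) (S' : M') : Prop where
  zero : S' ∈ mx R' → ∃ V, A ∈ mx V ∧ Mn ι ι' R R' A (fun O => A ∈ mx O) V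
  exc : S ∈ mx R → S' ∈ mx R' → ∃ V, Ind V ![A] ∧ Mn ι ι' R R' A (fun _ => True) V
  unit : IsU R S → R' = ⊤ → ¬ IsSquare S' → ∃ V, Mn ι ι' R R' A (fun _ => True) V

/-- A variety over the product of the surfaces `T i`. -/
structure Tq {a : ℕ} (T : Fin a → Set (Subalgebra k M)) (φ : Fin a → M) (X : Set (Subalgebra k K))
    (ψ : K) (G : Set K) (ι : Fin a → M →ₐ[k] K) : Prop where
  ind : ∃ x y : Fin a → M,
    AlgebraicIndependent k (Sum.elim (fun i => ι i (x i)) fun i => ι i (y i))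
  eq : ψ = ∏ i, ι i (φ i)
  top : IntermediateField.adjoin k ((⋃ i, Set.range (ι i)) ∪ G) = ⊤
  reg : ∀ O ∈ X, ∀ i, ∃ R ∈ T i, ∀ a ∈ R, ι i a ∈ O

/-- The double cover of the product of the surfaces `T i` and of `m` lines. -/
structure Tf {a m : ℕ} (T : Fin a → Set (Subalgebra k M)) (φ : Fin a → M) (l : Fin m → k)
    (X : Set (Subalgebra k K)) (w : K) (ι : Fin a → M →ₐ[k] K) (ζ : Fin m → K) : Prop where
  ind : ∃ x y : Fin a → M,
    AlgebraicIndependent k (Sum.elim (Sum.elim (fun i => ι i (x i)) fun i => ι i (y i)) ζ)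
  eq : w ^ 2 = (∏ i, ι i (φ i)) * ∏ r, cb (l r) (ζ r)
  top : IntermediateField.adjoin k ((⋃ i, Set.range (ι i)) ∪ (Set.range ζ ∪ {w})) = ⊤
  reg : ∀ O ∈ X, (∀ i, ∃ R ∈ T i, ∀ a ∈ R, ι i a ∈ O) ∧ ∀ r, ζ r ∈ O ∨ (ζ r)⁻¹ ∈ O

end general

section level

variable {k M M' K Λ Λ' κ κ' : Type} {n n' : ℕ} [Field k] [Field M] [Field M'] [Field K]
  [Algebra k M] [Algebra k M'] [Algebra k K] [Fintype κ] [Fintype κ'] (L : Lv k M Λ κ n)
  (L' : Lv k M' Λ' κ' n') (ι : M →ₐ[k] K) (ι' : M' →ₐ[k] K) (v : K) (e : ℕ)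

/-- The coordinate on the exceptional fibres over a pair of points. -/
noncomputable def A0 (R : Subalgebra k M) (R' : Subalgebra k M') : K :=
  v * (ι' (L'.jj R') / ι (L.jj R)) ^ (3 - e)

/-- The coordinate on the exceptional fibres. -/
noncomputable def AA (O : Subalgebra k K) : K := A0 L L' ι ι' v e (pr ι L.Y O) (pr ι' L'.Y O)

/-- Local equations of the exceptional divisors. -/
noncomputable def EE (i : κ) (j : κ') (O : Subalgebra k K) : K := gn {sX L ι i O, sX L' ι' j O} O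

/-- The strict transform of a component of the first factor. -/
noncomputable def sC (i : κ) (O : Subalgebra k K) : K := sX L ι i O / ∏ j, EE L L' ι ι' i j O

/-- Local equations of the strict transforms. -/
noncomputable def sN : κ ⊕ κ' → Subalgebra k K → K := Sum.elim (sC L L' ι ι') (sC L' L ι' ι)

/-- Local equations of the divisor `g + g' - ∑ a i j • E i j`. -/
noncomputable def lb (g : Subalgebra k M → M) (g' : Subalgebra k M' → M') (a : κ → κ' → ℤ)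
    (O : Subalgebra k K) : K :=
  up ι L.Y g O * up ι' L'.Y g' O * ∏ i, ∏ j, EE L L' ι ι' i j O ^ (-a i j)

theorem A0_symm (R : Subalgebra k M) (R' : Subalgebra k M') :
    A0 L' L ι' ι v⁻¹ e R' R = (A0 L L' ι ι' v e R R')⁻¹ := by
  rw [A0, A0, mul_inv, ← inv_pow, inv_div]

theorem AA_symm (O : Subalgebra k K) : AA L' L ι' ι v⁻¹ e O = (AA L L' ι ι' v e O)⁻¹ :=
  A0_symm L L' ι ι' v e _ _

theorem EE_symm (i : κ) (j : κ') : EE L' L ι' ι j i = EE L L' ι ι' i j := by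
  funext O
  rw [EE, EE, Set.pair_comm]

theorem lb_symm (g : Subalgebra k M → M) (g' : Subalgebra k M' → M') (a : κ → κ' → ℤ) :
    lb L' L ι' ι g' g (fun j i => a i j) = lb L L' ι ι' g g' a := by
  funext O
  simp only [lb, EE_symm L L' ι ι']
  rw [Finset.prod_comm, mul_comm (up ι' L'.Y g' O)]

/-- The family defining the blow-up. -/
def SI : Set K := Set.image2 (fun u u' => (ι u * ι' u') ^ (3 - e)) L.U L'.U' ∪
  Set.image2 (fun u u' => v * (ι u * ι' u') ^ (3 - e)) L.U' L'.U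

/-- The families defining the model. -/
def famX : Λ ⊕ Λ' ⊕ Unit → Set K :=
  Sum.elim (fun a => ι '' L.S a) (Sum.elim (fun a => ι' '' L'.S a) fun _ => SI L L' ι ι' v e)

/-- The blow-up for `e = 1`, its double cover for `e = 2`. -/
def XX : Set (Subalgebra k K) := mp k (famX L L' ι ι' v e)

/-- The common factor of the family defining the blow-up. -/
noncomputable def NN (O : Subalgebra k K) : K :=
  (up ι L.Y (gn L.U) O * up ι' L'.Y (fun R => gn L'.U R / L'.jj R) O) ^ (3 - e)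

/-- Generators of the field. -/
noncomputable def yy : Fin (n + 2 + n' + 2) → K :=
  Fin.append (m := n + 2) (n := n' + 2) (fun i => ι (L.y i)) fun i => ι' (L'.y i)

/-- The next level. -/
noncomputable def nx : Lv k K (Λ ⊕ Λ' ⊕ Unit) (κ ⊕ κ') (n + 2 + n') where
  S := famX L L' ι ι' v e
  y := yy L L' ι ι'
  s := sN L L' ι ι'
  φ := ι L.φ * ι' L'.φ
  jj O := up ι L.Y L.jj O * up ι' L'.Y L'.jj O / ∏ i, ∏ j, EE L L' ι ι' i j O
  U := Set.image2 (· * ·) (Set.image2 (fun a b => ι (a * b)) L.U L.U')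
    (Set.image2 (fun a b => ι' (a * b)) L'.U L'.U')
  U' := (fun a => ι L.φ * a) '' SI L L' ι ι' v e

theorem nx_Y : (nx L L' ι ι' v e).Y = XX L L' ι ι' v e := rfl

/-- Generators of the family defining the blow-up. -/
def GS : Prop := Fam k (famX L L' ι ι' v e) ∧ ∀ O ∈ XX L L' ι ι' v e,
  (AA L L' ι ι' v e O ∈ O → Gn (SI L L' ι ι' v e) O (NN L L' ι ι' e O)) ∧
    ((AA L L' ι ι' v e O)⁻¹ ∈ O →
      Gn (SI L L' ι ι' v e) O (NN L L' ι ι' e O * AA L L' ι ι' v e O))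

variable (Z : Set (Subalgebra k K))

/-- The charts. -/
structure Chs : Prop where
  fine : Fine Z
  maps : Maps ι Z L.Y
  maps' : Maps ι' Z L'.Y
  aa : ∀ O ∈ Z, AA L L' ι ι' v e O ∈ O ∨ (AA L L' ι ι' v e O)⁻¹ ∈ O
  pts : ∀ O ∈ Z, ∀ a ∈ O, a = AA L L' ι ι' v e O ∨ a = (AA L L' ι ι' v e O)⁻¹ →
    O ∈ Pts (Bq ι ι' (pr ι L.Y O) (pr ι' L'.Y O) {a})

/-- Everything local; symmetric in the two factors. -/
structure Geo : Prop extends Chs L L' ι ι' v e Z where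
  ok : Ok L
  ok' : Ok L'
  ext : Ext L.φ L'.φ ι ι' v e
  fld : Fld ι ι' v e
  fld' : Fld ι' ι v⁻¹ e

variable {L L' ι ι' v e Z}

namespace Geo

variable (h : Geo L L' ι ι' v e Z) {O : Subalgebra k K}

include h

theorem symm : Geo L' L ι' ι v⁻¹ e Z where
  fine := h.fine
  maps := h.maps'
  maps' := h.maps
  aa O hO := by rw [AA_symm, inv_inv]; exact (h.aa O hO).symm
  pts O hO a ha q := by
    rw [AA_symm, inv_inv] at q
    rw [Bq_comm]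
    exact h.pts O hO a ha q.symm
  ok := h.ok'
  ok' := h.ok
  ext := h.ext.symm
  fld := h.fld'
  fld' := by rw [inv_inv]; exact h.fld

theorem gY : Good L.Y := h.ok.nice.toGood

theorem gY' : Good L'.Y := h.ok'.nice.toGood

theorem gX : Good Z := h.fine.toGood

theorem ov (hO : O ∈ Z) : Ov ι ι' (pr ι L.Y O) (pr ι' L'.Y O) O :=
  ⟨h.gX.loc O hO, h.maps.dom hO, h.maps'.dom hO⟩

omit h in
theorem prod_sX (O : Subalgebra k K) : ∏ i, sX L ι i O = ι (∏ i, L.s i (pr ι L.Y O)) :=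
  (map_prod ι _ _).symm

/-- The local equation over a pair of points. -/
theorem lq {R : Subalgebra k M} {R' : Subalgebra k M'} (hR : R ∈ L.Y) (hR' : R' ∈ L'.Y) :
    Lq e ι ι' R R' (A0 L L' ι ι' v e R R') (∏ i, L.s i R) (∏ j, L'.s j R') := by
  have j0 : ι (L.jj R) ≠ 0 := (map_ne_zero ι).2 (h.ok.cj.ne hR)
  have j1 : ι' (L'.jj R') ≠ 0 := (map_ne_zero ι').2 (h.ok'.cj.ne hR')
  refine ⟨h.ext.he, h.ext.dj, h.gY.loc _ hR, h.gY'.loc _ hR', prod_mem fun i _ => h.ok.sm _ hR i,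
    prod_mem fun i _ => h.ok'.sm _ hR' i, Finset.prod_ne_zero_iff.2 fun i _ => (h.ok.cs i).ne hR,
    Finset.prod_ne_zero_iff.2 fun i _ => (h.ok'.cs i).ne hR', ?_, fun q r => h.fld.ns q ?_⟩
  · rw [← h.ok.eqn _ hR, ← h.ok'.eqn _ hR', A0, map_mul, map_mul, map_pow, map_pow, ← h.ext.eq]
    rcases h.ext.he with rfl | rfl <;> norm_num <;> field_simp
  · have := r.mul ((Rt.of_mem (Bq_l (ι' := ι') (a := L.jj R) trivial)).mul
      (Rt.of_mem (Bq_r (ι := ι) (a := L'.jj R') trivial)).inv)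
    subst q
    refine Eq.subst (motive := Rt ι ι') ?_ this
    rw [A0]
    norm_num
    field_simp

theorem lqO (hO : O ∈ Z) : Lq e ι ι' (pr ι L.Y O) (pr ι' L'.Y O) (AA L L' ι ι' v e O)
    (∏ i, L.s i (pr ι L.Y O)) (∏ j, L'.s j (pr ι' L'.Y O)) :=
  h.lq (h.maps.mem hO) (h.maps'.mem hO)

theorem sne (hO : O ∈ Z) (i : κ) : sX L ι i O ≠ 0 :=
  (map_ne_zero ι).2 ((h.ok.cs i).ne (h.maps.mem hO))

theorem sm (hO : O ∈ Z) (i : κ) : sX L ι i O ∈ O :=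
  h.maps.mem_up hO (h.ok.sm _ (h.maps.mem hO) i)

theorem s_mx (hO : O ∈ Z) (i : κ) :
    sX L ι i O ∈ mx O ↔ L.s i (pr ι L.Y O) ∈ mx (pr ι L.Y O) :=
  h.maps.mx_up hO (h.ok.sm _ (h.maps.mem hO) i)

theorem s1 (hO : O ∈ Z) (i i' : κ) (a : sX L ι i O ∈ mx O) (b : sX L ι i' O ∈ mx O) : i = i' :=
  h.ok.one _ (h.maps.mem hO) i i' ((h.s_mx hO i).1 a) ((h.s_mx hO i').1 b)

/-- The local equation in the form used for the divisors. -/
theorem loc (hO : O ∈ Z) :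
    Loc e O (fun i => sX L ι i O) (fun j => sX L' ι' j O) (AA L L' ι ι' v e O) :=
  ⟨h.sne hO, h.symm.sne hO, (h.lqO hO).ne, h.aa O hO,
    by rw [prod_sX, prod_sX]; exact (h.lqO hO).eq, h.sm hO, h.symm.sm hO, h.s1 hO, h.symm.s1 hO⟩

theorem gE (hO : O ∈ Z) (i : κ) (j : κ') :
    Gn {sX L ι i O, sX L' ι' j O} O (EE L L' ι ι' i j O) :=
  gn_spec ((h.loc hO).prin i j)

theorem em (hO : O ∈ Z) (i : κ) (j : κ') : EE L L' ι ι' i j O ∈ O :=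
  (h.gE hO i j).mem ((h.loc hO).pm i j)

theorem eu (hO : O ∈ Z) (i : κ) (j : κ') (q : IsU O (sX L ι i O) ∨ IsU O (sX L' ι' j O)) :
    IsU O (EE L L' ι ι' i j O) := (h.loc hO).eu (h.gE hO) i j q

theorem emx (hO : O ∈ Z) {i : κ} {j : κ'} (a : sX L ι i O ∈ mx O) (b : sX L' ι' j O ∈ mx O) :
    EE L L' ι ι' i j O ∈ mx O :=
  (h.gE hO i j).mem_mx (by rintro a (rfl | rfl); exacts [a, b])

theorem eT (hO : O ∈ Z) (i : κ) (j : κ') (a : AA L L' ι ι' v e O ∈ O)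
    (b : sX L' ι' j O ∈ mx O) : IsU O (EE L L' ι ι' i j O / sX L ι i O) :=
  (h.loc hO).eT (h.gE hO) i j a b

theorem rC (hO : O ∈ Z) (i : κ) : sC L L' ι ι' i O ∈ O ∧
    ((AA L L' ι ι' v e O)⁻¹ ∉ mx O → IsU O (sC L L' ι ι' i O)) := (h.loc hO).rC (h.gE hO) i

theorem pC (hO : O ∈ Z) (a : AA L L' ι ι' v e O ∈ O) :
    IsU O ((∏ i, sX L ι i O) / ∏ i, ∏ j, EE L L' ι ι' i j O) := (h.loc hO).pC (h.gE hO) a

theorem pT (hO : O ∈ Z) (a : (AA L L' ι ι' v e O)⁻¹ ∈ O) :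
    IsU O ((∏ j, sX L' ι' j O) / ∏ i, ∏ j, EE L L' ι ι' i j O) := (h.loc hO).pT (h.gE hO) a

theorem cartU {f : Subalgebra k M → M} (hf : IsCart L.Y f) : IsCart Z (up ι L.Y f) :=
  isCart_up h.gY h.gX h.maps hf

theorem cartS (i : κ) : IsCart Z (sX L ι i) := h.cartU (h.ok.cs i)

theorem cartA : IsCart Z (AA L L' ι ι' v e) :=
  (isCart_const h.ext.vne).mul (((h.symm.cartU h.ok'.cj).div (h.cartU h.ok.cj)).pow (3 - e))

theorem cartE (i : κ) (j : κ') : IsCart Z (EE L L' ι ι' i j) :=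
  isCart_gn_pair (h.cartS i) (h.symm.cartS j) fun _ hO => h.gE hO i j

omit h in
theorem sC_eq (i : κ) : sC L L' ι ι' i = sX L ι i / ∏ j, EE L L' ι ι' i j := by
  funext O
  simp only [sC, Pi.div_apply, Finset.prod_apply]

theorem cartC (i : κ) : IsCart Z (sC L L' ι ι' i) := by
  rw [sC_eq]
  exact (h.cartS i).div (isCart_prod fun j _ => h.cartE i j)

theorem cartN (i : κ ⊕ κ') : IsCart Z (sN L L' ι ι' i) := by
  rcases i with i | j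
  exacts [h.cartC i, h.symm.cartC j]

omit h in
theorem lb_eq (g : Subalgebra k M → M) (g' : Subalgebra k M' → M') (a : κ → κ' → ℤ) :
    lb L L' ι ι' g g' a =
      up ι L.Y g * up ι' L'.Y g' * ∏ i, ∏ j, EE L L' ι ι' i j ^ (-a i j) := by
  funext O
  simp only [lb, Pi.mul_apply, Pi.pow_apply, Finset.prod_apply]

theorem cartW {g : Subalgebra k M → M} {g' : Subalgebra k M' → M'} (hg : IsCart L.Y g)
    (hg' : IsCart L'.Y g') (a : κ → κ' → ℤ) : IsCart Z (lb L L' ι ι' g g' a) := by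
  rw [lb_eq]
  exact ((h.cartU hg).mul (h.symm.cartU hg')).mul
    (isCart_prod fun i _ => isCart_prod fun j _ => (h.cartE i j).zpow _)

/-- The point below a valuation ring with given centres. -/
theorem below {V : Subalgebra k K} {R : Subalgebra k M} {R' : Subalgebra k M'} (hR : R ∈ L.Y)
    (hR' : R' ∈ L'.Y) (hV : IsVal V) (hd : Ov ι ι' R R' V) :
    ∃ O ∈ Z, Dom O V ∧ pr ι L.Y O = R ∧ pr ι' L'.Y O = R' := by
  obtain ⟨O, hO, d⟩ := h.gX.cpl V hV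
  exact ⟨O, hO, d, (pr_dom h.gY h.maps hO hd.loc d).symm.trans (pr_eq h.gY hd.loc hR hd.dom),
    (pr_dom h.gY' h.maps' hO hd.loc d).symm.trans (pr_eq h.gY' hd.loc hR' hd.dom')⟩

/-- The image of a curve in the first factor. -/
noncomputable def pj (ν : Curve Z) : Curve L.Y := B1.proj h.gY h.gX h.maps ν

theorem pj_gen (ν : Curve Z) : (h.pj ν).gen = pr ι L.Y ν.gen := rfl

theorem pj_deg (ν : Curve Z) {f : Subalgebra k M → M} (hf : IsCart L.Y f) :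
    (h.pj ν).deg f = ν.deg (up ι L.Y f) := proj_deg _ _ _ ν hf

theorem pj_c (ν : Curve Z) (i : κ) : L.nd.d (h.pj ν) (L.nd.c i) = ν.deg (sX L ι i) := by
  rw [nd_c h.ok.toOkA, h.pj_deg ν (h.ok.cs i)]; rfl

/-- The class `L + L' - ∑ a i j • E i j`. -/
noncomputable def Phi : WP (N1 L.Y) (N1 L'.Y) κ κ' →ₗ[ℝ] N1 Z where
  toFun D := pull h.gY h.gX h.maps D.1 + pull h.gY' h.gX h.maps' D.2.1 -
    ∑ i, ∑ j, D.2.2 i j • cl _ (EE L L' ι ι' i j)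
  map_add' D E := by
    simp only [Prod.fst_add, Prod.snd_add, Pi.add_apply, map_add, add_smul, Finset.sum_add_distrib]
    abel
  map_smul' a D := by
    simp only [Prod.smul_fst, Prod.smul_snd, Pi.smul_apply, map_smul, smul_eq_mul, mul_smul,
      RingHom.id_apply, smul_sub, smul_add, Finset.smul_sum]

theorem phi_d (ν : Curve Z) (D : WP (N1 L.Y) (N1 L'.Y) κ κ') :
    ν.lin (h.Phi D) = L.nd.d (h.pj ν) D.1 + L'.nd.d (h.symm.pj ν) D.2.1 -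
      ∑ i, ∑ j, D.2.2 i j * ν.deg (EE L L' ι ι' i j) := by
  change ν.lin (_ + _ - _) = _
  simp only [map_sub, map_add, map_sum, map_smul, smul_eq_mul, cl_val (h.cartE _ _), pull_val]
  rfl

theorem phi_symm (D : WP (N1 L.Y) (N1 L'.Y) κ κ') :
    h.symm.Phi (D.2.1, D.1, fun j i => D.2.2 i j) = h.Phi D := by
  refine n1_ext fun ν => ?_
  rw [h.phi_d, h.symm.phi_d]
  simp only [EE_symm L L' ι ι']
  rw [Finset.sum_comm, add_comm]
  rfl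

variable [IsAlgClosed k]

theorem degW (ν : Curve Z) {g : Subalgebra k M → M} {g' : Subalgebra k M' → M'}
    (hg : IsCart L.Y g) (hg' : IsCart L'.Y g') (a : κ → κ' → ℤ) : ν.deg (lb L L' ι ι' g g' a) =
      ν.deg (up ι L.Y g) + ν.deg (up ι' L'.Y g') - ∑ i, ∑ j, a i j * ν.deg (EE L L' ι ι' i j) := by
  have c : ∀ i, IsCart Z (∏ j, EE L L' ι ι' i j ^ (-a i j)) := fun i =>
    isCart_prod fun j _ => (h.cartE i j).zpow _
  rw [lb_eq, deg_mul h.gX ((h.cartU hg).mul (h.symm.cartU hg')) (isCart_prod fun i _ => c i),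
    deg_mul h.gX (h.cartU hg) (h.symm.cartU hg'), deg_prod h.gX fun i _ => c i, sub_eq_add_neg,
    ← Finset.sum_neg_distrib]
  refine congrArg _ (Finset.sum_congr rfl fun i _ => ?_)
  rw [deg_prod h.gX fun j _ => (h.cartE i j).zpow _, ← Finset.sum_neg_distrib]
  exact Finset.sum_congr rfl fun j _ => by rw [deg_zpow h.gX (h.cartE i j), neg_mul]

theorem degC (ν : Curve Z) (i : κ) :
    ν.deg (sC L L' ι ι' i) = ν.deg (sX L ι i) - ∑ j, ν.deg (EE L L' ι ι' i j) := by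
  rw [sC_eq, deg_div h.gX (h.cartS i) (isCart_prod fun j _ => h.cartE i j),
    deg_prod h.gX fun j _ => h.cartE i j]

theorem phi_lb {g : Subalgebra k M → M} {g' : Subalgebra k M' → M'} (hg : IsCart L.Y g)
    (hg' : IsCart L'.Y g') (a : κ → κ' → ℤ) :
    h.Phi (cl _ g, cl _ g', fun i j => a i j) = cl _ (lb L L' ι ι' g g' a) :=
  n1_ext fun ν => (h.phi_d ν _).trans <| by
    rw [cl_val (h.cartW hg hg' a), h.degW ν hg hg' a, nd_d, nd_d, cl_val hg, cl_val hg',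
      h.pj_deg ν hg, h.symm.pj_deg ν hg']
    push_cast
    ring

end Geo

variable (L L' ι ι' v e Z)

open Classical in
/-- The degrees of curves. -/
structure XCur : Prop where
  cS : ∀ (ν : Curve Z) i, sX L ι i ν.gen ∈ mx ν.gen → ∀ i', i' ≠ i →
    ν.deg (sX L ι i') = 0 ∧ ∀ j, ν.deg (EE L L' ι ι' i' j) = 0
  cA : ∀ (ν : Curve Z) j, AA L L' ι ι' v e ν.gen ∈ mx ν.gen → sX L' ι' j ν.gen ∈ mx ν.gen →
    ∀ i, ν.deg (EE L L' ι ι' i j) = ν.deg (sX L ι i)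

/-- Points over a given pair of points. -/
structure XPt : Prop where
  pT : ∀ R ∈ L.Y, ∀ R' ∈ L'.Y, ∀ j, L'.s j R' ∈ mx R' → ∃ O ∈ Z, pr ι L.Y O = R ∧
    pr ι' L'.Y O = R' ∧ AA L L' ι ι' v e O ∈ mx O
  pE : ∀ i j, ∃ ν : Curve Z, RatPt (pr ι L.Y ν.gen) ∧ RatPt (pr ι' L'.Y ν.gen) ∧
    sX L ι i ν.gen ∈ mx ν.gen ∧ sX L' ι' j ν.gen ∈ mx ν.gen ∧ ν.deg (EE L L' ι ι' i j) < 0
  rat : ∀ j, ∃ O ∈ Z, RatPt O ∧ sC L' L ι' ι j O ∈ mx O

/-- The prime divisors. -/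
structure XPl : Prop where
  uE : ∀ (P P' : Place k K) i j, plO P ∈ Z → plO P' ∈ Z → sX L ι i (plO P) ∈ mx (plO P) →
    sX L' ι' j (plO P) ∈ mx (plO P) → sX L ι i (plO P') ∈ mx (plO P') →
    sX L' ι' j (plO P') ∈ mx (plO P') → P = P'
  eA : ∀ (P : Place k K) i j, plO P ∈ Z → sX L ι i (plO P) ∈ mx (plO P) →
    sX L' ι' j (plO P) ∈ mx (plO P) → IsU (plO P) (AA L L' ι ι' v e (plO P))
  pl : ∀ P : Place k K, plO P ∈ Z →
    (∃ i j, sX L ι i (plO P) ∈ mx (plO P) ∧ sX L' ι' j (plO P) ∈ mx (plO P)) ∨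
    (pr ι L.Y (plO P) = ⊤ ∧ pr ι' L'.Y (plO P) = ⊤) ∨
    (∃ Q : Place k M, pr ι L.Y (plO P) = plO Q ∧ pr ι' L'.Y (plO P) = ⊤) ∨
    ∃ Q : Place k M', pr ι L.Y (plO P) = ⊤ ∧ pr ι' L'.Y (plO P) = plO Q
  uV : ∀ (P P' : Place k K) (Q : Place k M), plO P ∈ Z → plO P' ∈ Z →
    pr ι L.Y (plO P) = plO Q → pr ι' L'.Y (plO P) = ⊤ → pr ι L.Y (plO P') = plO Q →
    pr ι' L'.Y (plO P') = ⊤ → P = P'

/-- The divisor class group. -/
def XCls : Prop := ∀ f, IsCart Z f → ∃ (N : ℕ) (g : Subalgebra k M → M)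
  (g' : Subalgebra k M' → M') (a : κ → κ' → ℤ) (μ : K), 0 < N ∧ IsCart L.Y g ∧ IsCart L'.Y g' ∧
    μ ≠ 0 ∧ ∀ O ∈ Z, IsU O (f O ^ N / (μ * lb L L' ι ι' g g' a O))

/-- `γ` is a lift of `g` and `g'`. -/
structure Up (g : Aut L.Y) (r : M) (g' : Aut L'.Y) (r' : M') (γ : Aut Z) : Prop where
  h1 : ∀ m, γ.1 (ι m) = ι (g.1 m)
  h2 : ∀ m, γ.1 (ι' m) = ι' (g'.1 m)
  h3 : γ.1 v = (ι' r' / ι r) ^ (3 - e) * v
  pr1 : ∀ O ∈ Z, pr ι L.Y (O.comap (γ.1 : K →ₐ[k] K)) = (pr ι L.Y O).comap (g.1 : M →ₐ[k] M)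
  pr2 : ∀ O ∈ Z,
    pr ι' L'.Y (O.comap (γ.1 : K →ₐ[k] K)) = (pr ι' L'.Y O).comap (g'.1 : M' →ₐ[k] M')
  ee : ∀ O ∈ Z, ∀ i j,
    IsU O (γ.1 (EE L L' ι ι' i j (O.comap (γ.1 : K →ₐ[k] K))) / EE L L' ι ι' i j O)

/-- Automorphisms lift. -/
def XSig : Prop := ∀ g r g' r', Lf L g r → Lf L' g' r' → ∃ γ, Up L L' ι ι' v e Z g r g' r' γ

/-- Sections in the compositum. -/
def XPol : Prop := ∀ g g' a, IsCart L.Y g → IsCart L'.Y g' → ∀ μ, μ ≠ 0 → Rt ι ι' μ →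
  Sc Z (lb L L' ι ι' g g' a) μ → ∃ m, m ≠ 0 ∧ Sc L.Y g m

/-- Effective divisors have effective images. -/
def XEff : Prop := ∀ g g' a, IsCart L.Y g → IsCart L'.Y g' → ∀ μ, μ ≠ 0 →
  Sc Z (lb L L' ι ι' g g' a) μ → ∃ m, m ≠ 0 ∧ Sc L.Y (g ^ 2) m

/-- The volume form. -/
def XVol : Prop := ∃ (j : M) (j' : M'), j ≠ 0 ∧ j' ≠ 0 ∧
  ∀ δ : Derivation k K (Fin (n + 2 + n' + 2) → K), (∀ i, δ (yy L L' ι ι' i) = Pi.single i 1) →
    ∀ O ∈ Z, ∃ c, Gens O δ c ∧ IsU O (ι j * ι' j' * wt e O (AA L L' ι ι' v e O) (∏ i, sX L ι i O) /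
      (up ι L.Y L.jj O * up ι' L'.Y L'.jj O) * dt δ c) ∧
      ∀ t ∈ mx O, t = AA L L' ι ι' v e O ∨ t = (AA L L' ι ι' v e O)⁻¹ → ∃ i, c i = t

end level

/-! ### General rows -/

/-- A property of two fields inside a third. -/
def FRow (p : ∀ {k M M' K : Type} [Field k] [Field M] [Field M'] [Field K] [Algebra k M]
    [Algebra k M'] [Algebra k K], (M →ₐ[k] K) → (M' →ₐ[k] K) → Prop) : Prop :=
  ∀ (k M M' K : Type) [Field k] [NeZero (2 : k)] [IsAlgClosed k] [Field M] [Field M'] [Field K]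
    [Algebra k M] [Algebra k M'] [Algebra k K] (ι : M →ₐ[k] K) (ι' : M' →ₐ[k] K), p ι ι'

/-- NSQ: non-squares. -/
def NsqStmt : Prop := FRow fun ι ι' => Dj ι ι' → ∀ φ c, ¬ IsSquare φ → c ≠ 0 →
  ∀ x, Rt ι ι' x → x ^ 2 ≠ ι φ * ι' c

/-- MWS: rational points after a free extension. -/
def MwsStmt : Prop := FRow fun {k _ _ K _ _ _ _ _ _ _} ι ι' => Dj ι ι' → (∀ x, Rt ι ι' x) →
  ∀ φ ψ l, (∀ c : k, c ≠ 0 → c ≠ 1 → MW φ c) → ψ ≠ 0 → l ≠ 0 → l ≠ 1 →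
    ∀ a b : K, b ^ 2 = ι φ * ι' ψ * (a * (a - 1) * (a - ι' l)) → b = 0

/-- FLD. -/
def FldStmt : Prop := NsqStmt → FRow fun ι ι' => ∀ φ φ' v e, Ext φ φ' ι ι' v e → Fld ι ι' v e

/-- HOMA: the extension exists. -/
def HomaStmt : Prop := NsqStmt → ∀ (k M M' : Type) [Field k] [NeZero (2 : k)] [IsAlgClosed k]
  [Field M] [Field M'] [Algebra k M] [Algebra k M'] (φ : M) (φ' : M') (e : ℕ), e = 1 ∨ e = 2 →
  ¬ IsSquare φ → ¬ IsSquare φ' → ∃ (K : Type) (_ : Field K) (_ : Algebra k K) (ι : M →ₐ[k] K)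
    (ι' : M' →ₐ[k] K) (v : K), Ext φ φ' ι ι' v e

/-- HOMB: automorphisms extend. -/
def HombStmt : Prop := FRow fun {k M M' K _ _ _ _ _ _ _} ι ι' => ∀ φ φ' v e (σ : M ≃ₐ[k] M)
  (σ' : M' ≃ₐ[k] M') r r', Ext φ φ' ι ι' v e → Fld ι ι' v e → r ≠ 0 → r' ≠ 0 → σ φ = φ * r ^ 2 →
  σ' φ' = φ' * r' ^ 2 → ∃ Φ : K ≃ₐ[k] K, (∀ m, Φ (ι m) = ι (σ m)) ∧ (∀ m, Φ (ι' m) = ι' (σ' m)) ∧
    Φ v = (ι' r' / ι r) ^ (3 - e) * v

/-- KQ: the ideal of relations. -/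
def KqStmt : Prop := FRow fun ι ι' => ∀ e R R' A S S' (h : Lq e ι ι' R R' A S S'), Kq h

/-- VQ: generic points. -/
def VqStmt : Prop := NsqStmt → KqStmt → FRow fun ι ι' => ∀ e R R' A S S',
  Lq e ι ι' R R' A S S' → Vq ι ι' R R' A S S'

/-- The conclusion of VQ. -/
def VqS : Prop := FRow fun ι ι' => ∀ e R R' A S S', Lq e ι ι' R R' A S S' → Vq ι ι' R R' A S S'

/-- SMO: smoothness. -/
def SmoStmt : Prop := HypStmt → KqStmt → FRow fun {k _ _ _ _ _ _ _ _ _ _} ι ι' =>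
  ∀ e R R' A S S' O, Lq e ι ι' R R' A S S' → Ov ι ι' R R' O → O ∈ Pts (Bq ι ι' R R' {A}) →
    Algebra.FormallySmooth k R → Algebra.FormallySmooth k R' → Crd R' S' →
      Algebra.FormallySmooth k O

/-- DIMQ: dimensions. -/
def DimqStmt : Prop := FRow fun ι ι' => ∀ R R' O a m m', Ov ι ι' R R' O →
  O ∈ Pts (Bq ι ι' R R' {a}) → Dim R m → Dim R' m' →
    Dim O (m + m' + 1) ∧ (AlgM O (Bq ι ι' R R' ∅) a → Dim O (m + m'))

/-- UFD: unique factorization. -/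
def UfdStmt : Prop := FRow fun {k _ M' _ _ _ _ _ _ _ _} ι ι' => Dj ι ι' → ∀ (N : ℕ) (y : Fin N → M'),
  AlgebraicIndependent k y → IntermediateField.adjoin k (Set.range y) = ⊤ →
    UniqueFactorizationMonoid (Bq ι ι' ⊤ ⊤ ∅)

/-- GA: the extension of a place. -/
def GaStmt : Prop := FRow fun {k M M' _ _ _ _ _ _ _ _} ι ι' => Dj ι ι' → ∀ P : Place k M,
  ∃ V, IsVal V ∧ Ov ι ι' (plO P) ⊤ V ∧ ∀ (I : Type) (s : Finset I) (m : I → M) (m' : I → M'),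
    LinearIndependent k m' → ∑ i ∈ s, ι (m i) * ι' (m' i) ∈ V → ∀ i ∈ s, m i ∈ plO P

/-- HZ1: the case of the blow-up. -/
def Hz1Stmt : Prop := FRow fun ι ι' => ∀ φ φ' v, Ext φ φ' ι ι' v 1 →
  UniqueFactorizationMonoid (Bq ι ι' ⊤ ⊤ ∅) → Hz ι ι' v

/-- CRQ: local coordinates. -/
def CrqStmt : Prop := ∀ (k K : Type) [Field k] [NeZero (2 : k)] [Field K] [Algebra k K] (e N : ℕ)
  (O : Subalgebra k K) (G : Set K) (A s s' : K) (δ : Derivation k K (Fin N → K)) (c : Fin N → K),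
  e = 1 ∨ e = 2 → O ∈ Pts (Algebra.adjoin k (G ∪ {A})) → (∀ i, c i ∈ O) →
  (∀ g ∈ insert s (insert s' G), g ∈ O ∧ ∃ r : Fin N → K, (∀ i, r i ∈ O) ∧
    δ g = ∑ i, r i • δ (c i)) → A ^ e * s = s' →
  (s' ∈ mx O → ∃ r : Fin N → K, (∀ i, r i ∈ O) ∧ δ s' - A ^ e • δ s = ∑ i, r i • δ (c i) ∧
    ∃ i, IsU O (r i)) →
    ∃ c' : Fin N → K, Gens O δ c' ∧ (∃ u, IsU O u ∧ A ^ (e - 1) * s * dt δ c' = u * dt δ c) ∧
      (A ∈ mx O → ∃ i, c' i = A)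

/-- TQ: the tower of fields. -/
structure TqStmt : Prop where
  base : ∀ (k M : Type) [Field k] [Field M] [Algebra k M] (T : Fin 1 → Set (Subalgebra k M))
    (φ : Fin 1 → M) (y : Fin 2 → M), AlgebraicIndependent k y →
      Tq T φ (T 0) (φ 0) ∅ fun _ => AlgHom.id k M
  step : ∀ (k M₀ M K : Type) [Field k] [Field M₀] [Field M] [Field K] [Algebra k M₀] [Algebra k M]
    [Algebra k K] (a : ℕ) (T : Fin (a + 1) → Set (Subalgebra k M₀)) (φ : Fin (a + 1) → M₀)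
    (Y : Set (Subalgebra k M)) (Z : Set (Subalgebra k K)) (ψ : M) (ι₀ : Fin a → M₀ →ₐ[k] M)
    (ι : M →ₐ[k] K) (ι' : M₀ →ₐ[k] K) (v : K) (e : ℕ) (y : Fin 2 → M₀),
    Tq (Fin.tail T) (Fin.tail φ) Y ψ ∅ ι₀ → Ext ψ (φ 0) ι ι' v e → Fld ι ι' v e →
    AlgebraicIndependent k y → Maps ι Z Y → Maps ι' Z (T 0) →
      (e = 1 → Tq T φ Z (ι ψ * ι' (φ 0)) ∅ (Fin.cons ι' fun i => ι.comp (ι₀ i))) ∧
      (e = 2 → ∀ l : Fin 0 → k, Tf T φ l Z (v * ι ψ) (Fin.cons ι' fun i => ι.comp (ι₀ i)) ![])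
  top : ∀ (k M₀ M K : Type) [Field k] [Field M₀] [Field M] [Field K] [Algebra k M₀] [Algebra k M]
    [Algebra k K] (a m : ℕ) (T : Fin a → Set (Subalgebra k M₀)) (φ : Fin a → M₀) (l : Fin m → k)
    (Y : Set (Subalgebra k M)) (Z : Set (Subalgebra k K)) (ψ : M) (ι₀ : Fin a → M₀ →ₐ[k] M)
    (ι : M →ₐ[k] K) (ζ : Fin m → K) (w : K), Tq T φ Y ψ ∅ ι₀ → Tw Y ψ l Z (w ^ 2) {w} ι ζ →
      Tf T φ l Z w (fun i => ι.comp (ι₀ i)) ζ

/-! ### Rows on one step -/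

/-- A property of one step. -/
def Row (p : ∀ {k M M' K Λ Λ' κ κ' : Type} {n n' : ℕ} [Field k] [Field M] [Field M'] [Field K]
    [Algebra k M] [Algebra k M'] [Algebra k K] [Fintype κ] [Fintype κ'] {L : Lv k M Λ κ n}
    {L' : Lv k M' Λ' κ' n'} {ι : M →ₐ[k] K} {ι' : M' →ₐ[k] K} {v : K} {e : ℕ}
    {Z : Set (Subalgebra k K)}, Geo L L' ι ι' v e Z → Prop) : Prop :=
  ∀ (k M M' K Λ Λ' κ κ' : Type) (n n' : ℕ) [Field k] [NeZero (2 : k)] [IsAlgClosed k] [Field M]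
    [Field M'] [Field K] [Algebra k M] [Algebra k M'] [Algebra k K] [Fintype κ] [Fintype κ']
    (L : Lv k M Λ κ n) (L' : Lv k M' Λ' κ' n') (ι : M →ₐ[k] K) (ι' : M' →ₐ[k] K) (v : K) (e : ℕ)
    (Z : Set (Subalgebra k K)) (h : Geo L L' ι ι' v e Z), p h

/-- A property of the explicit model. -/
def RowX (p : ∀ {k M M' K Λ Λ' κ κ' : Type} {n n' : ℕ} [Field k] [Field M] [Field M'] [Field K]
    [Algebra k M] [Algebra k M'] [Algebra k K] [Fintype κ] [Fintype κ'] {L : Lv k M Λ κ n}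
    {L' : Lv k M' Λ' κ' n'} {ι : M →ₐ[k] K} {ι' : M' →ₐ[k] K} {v : K} {e : ℕ},
    Geo L L' ι ι' v e (XX L L' ι ι' v e) → Prop) : Prop :=
  ∀ (k M M' K Λ Λ' κ κ' : Type) (n n' : ℕ) [Field k] [NeZero (2 : k)] [IsAlgClosed k] [Field M]
    [Field M'] [Field K] [Algebra k M] [Algebra k M'] [Algebra k K] [Fintype κ] [Fintype κ']
    (L : Lv k M Λ κ n) (L' : Lv k M' Λ' κ' n') (ι : M →ₐ[k] K) (ι' : M' →ₐ[k] K) (v : K) (e : ℕ)
    (h : Geo L L' ι ι' v e (XX L L' ι ι' v e)), p h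

/-- XLOC. -/
def XlocStmt : Prop := ∀ (k M M' K Λ Λ' κ κ' : Type) (n n' : ℕ) [Field k] [Field M] [Field M']
  [Field K] [Algebra k M] [Algebra k M'] [Algebra k K] [Finite Λ] [Finite Λ'] [Fintype κ]
  [Fintype κ'] (L : Lv k M Λ κ n) (L' : Lv k M' Λ' κ' n') (ι : M →ₐ[k] K) (ι' : M' →ₐ[k] K) (v : K)
  (e : ℕ), OkA L → OkA L' → Ext L.φ L'.φ ι ι' v e →
    Chs L L' ι ι' v e (XX L L' ι ι' v e) ∧ GS L L' ι ι' v e

/-- CURA. -/
def CuraStmt : Prop := Row fun {_ _ _ _ _ _ _ _ _ _ _ _ _ _ _ _ _ _ _ L L' ι ι' v e Z} _ =>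
  XCur L L' ι ι' v e Z

/-- CURB. -/
def CurbStmt : Prop := Row fun {_ _ _ _ _ _ _ _ _ _ _ _ _ _ _ _ _ _ _ L L' ι ι' v e Z} h =>
  XCur L L' ι ι' v e Z → XCur L' L ι' ι v⁻¹ e Z → StCur L.nd L'.nd Curve.lin h.Phi

/-- PT. -/
def PtStmt : Prop := VqS → DimqStmt →
  Row fun {_ _ _ _ _ _ _ _ _ _ _ _ _ _ _ _ _ _ _ L L' ι ι' v e Z} _ => XPt L L' ι ι' v e Z

/-- TEST. -/
def TestStmt : Prop := CH.LiftStmt →
  Row fun {_ _ _ _ _ _ _ _ _ _ _ _ _ _ _ _ _ _ _ L L' ι ι' v e Z} h => XCur L L' ι ι' v e Z →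
    XCur L' L ι' ι v⁻¹ e Z → XPt L L' ι ι' v e Z → XPt L' L ι' ι v⁻¹ e Z →
      StTest L.nd L'.nd Curve.lin h.Phi

/-- PL. -/
def PlStmt : Prop := VqS → DimqStmt →
  Row fun {_ _ _ _ _ _ _ _ _ _ _ _ _ _ _ _ _ _ _ L L' ι ι' v e Z} _ => XPl L L' ι ι' v e Z

/-- CLS. -/
def ClsStmt : Prop := Row fun {_ _ _ _ _ _ _ _ _ _ _ _ _ _ _ _ _ _ _ L L' ι ι' v e Z} _ =>
  XPl L L' ι ι' v e Z → XPl L' L ι' ι v⁻¹ e Z → Hz ι ι' v → Nice Z → XCls L L' ι ι' Z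

/-- SIG. -/
def SigStmt : Prop := HombStmt →
  Row fun {_ _ _ _ _ _ _ _ _ _ _ _ _ _ _ _ _ _ _ L L' ι ι' v e Z} _ => XSig L L' ι ι' v e Z

/-- POL. -/
def PolStmt : Prop := GaStmt →
  Row fun {_ _ _ _ _ _ _ _ _ _ _ _ _ _ _ _ _ _ _ L L' ι ι' _ _ Z} _ =>
    UniqueFactorizationMonoid (Bq ι ι' ⊤ ⊤ ∅) → XPol L L' ι ι' Z

/-- EFF. -/
def EffStmt : Prop := Row fun {_ _ _ _ _ _ _ _ _ _ _ _ _ _ _ _ _ _ _ L L' ι ι' v e Z} _ =>
  XSig L L' ι ι' v e Z → XPol L L' ι ι' Z → XEff L L' ι ι' Z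

/-- VOL. -/
def VolStmt : Prop := Der → CrqStmt →
  Row fun {_ _ _ _ _ _ _ _ _ _ _ _ _ _ _ _ _ _ _ L L' ι ι' v e Z} _ => XVol L L' ι ι' v e Z

/-- LFT. -/
def LftStmt : Prop := RowX fun {_ _ _ _ _ _ _ _ _ _ _ _ _ _ _ _ _ _ _ L L' ι ι' v e} h =>
  XSig L L' ι ι' v e (XX L L' ι ι' v e) → StLift L.nd L'.nd (nx L L' ι ι' v e).nd h.Phi

/-- CLN. -/
def ClnStmt : Prop := RowX fun {_ _ _ _ _ _ _ _ _ _ _ _ _ _ _ _ _ _ _ L L' ι ι' v e} h =>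
  XCls L L' ι ι' (XX L L' ι ι' v e) → XEff L L' ι ι' (XX L L' ι ι' v e) →
    XEff L' L ι' ι (XX L L' ι ι' v e) → StCls L.nd L'.nd (nx L L' ι ι' v e).nd h.Phi

/-- DV. -/
def DvStmt : Prop := RowX fun {_ _ _ _ _ _ _ _ _ _ _ _ _ _ _ _ _ _ _ L L' ι ι' v e} h =>
  StDiv L.nd L'.nd (nx L L' ι ι' v e).nd h.Phi

/-- NXA. -/
def NxaStmt : Prop := RowX fun {_ _ _ _ _ _ _ _ _ _ _ _ _ _ _ _ _ _ _ L L' ι ι' v e} _ =>
  GS L L' ι ι' v e → XPl L L' ι ι' v e (XX L L' ι ι' v e) →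
    XPl L' L ι' ι v⁻¹ e (XX L L' ι ι' v e) → e = 1 → OkA (nx L L' ι ι' v e)

/-- NXB. -/
def NxbStmt : Prop := Der → RowX fun {k _ _ K _ _ _ _ _ _ _ _ _ _ _ _ _ _ _ L L' ι ι' v e} _ =>
  (AlgebraicIndependent k (yy L L' ι ι') ∧
    Algebra.IsSeparable (IntermediateField.adjoin k (Set.range (yy L L' ι ι'))) K ∧
    (e = 1 → IntermediateField.adjoin k (Set.range (yy L L' ι ι')) = ⊤)) ∧
  (XVol L L' ι ι' v e (XX L L' ι ι' v e) →
    (e = 1 → (∀ O ∈ XX L L' ι ι' v e, Crd O (∏ i, sN L L' ι ι' i O)) ∧ ∃ j, j ≠ 0 ∧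
      Vol (XX L L' ι ι' v e) (yy L L' ι ι') fun O => j / (nx L L' ι ι' v e).jj O) ∧
    (e = 2 → ∃ j, j ≠ 0 ∧ Vol (XX L L' ι ι' v e) (yy L L' ι ι') fun _ => j))

end Pool.Agent.MP_20d318_ag.KK
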