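import Mathlib.GroupTheory.MonoidLocalization.UniqueFactorization
import Mathlib.RingTheory.Polynomial.UniqueFactorization
import Mathlib.RingTheory.TensorProduct.MvPolynomial
import Mathlib.RingTheory.UniqueFactorizationDomain.Ideal
import Pool.Agent.MP_20d318_ag.KK.Spec
import Pool.Agent.MP_20d318_ag.CH.RowsA

section PartSpz

/-! Specialization of the second factor: non-squares and rational points. -/

set_option autoImplicit false
set_option linter.unusedSectionVars false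

open scoped TensorProduct

namespace Pool.Agent.MP_20d318_ag.KK

open Pool.Agent.MP_20d318_ag.CH (MW cb)

namespace Spz

variable {k M M' K : Type} [Field k] [IsAlgClosed k] [Field M] [Field M'] [Field K] [Algebra k M]
  [Algebra k M'] [Algebra k K] {ι : M →ₐ[k] K} {ι' : M' →ₐ[k] K}

theorem left_mem {T : Subalgebra k M'} {z : T ⊗[k] M} {c : M'} (h : inc M T z = c ⊗ₜ 1) :
    c ∈ T := by
  obtain ⟨f, hf⟩ := Module.Projective.exists_dual_eq_one k (one_ne_zero (α := M))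
  have key : ∀ z : T ⊗[k] M, TensorProduct.rid k M' (f.lTensor M' (inc M T z)) ∈ T := fun z => by
    induction z with
    | zero => simp
    | tmul a b => simpa [inc] using T.smul_mem a.2 _
    | add a b ha hb => simpa using add_mem ha hb
  simpa [h, hf] using key z

theorem spec (h : Dj ι ι') {Z : Set K} (hZ : Z.Finite) (hB : ∀ z ∈ Z, z ∈ Bq ι ι' ⊤ ⊤ ∅) :
    ∃ (S : Subalgebra k K) (σ : S →ₐ[k] M), (∀ z ∈ Z, ∃ hz : z ∈ S, z ≠ 0 → σ ⟨z, hz⟩ ≠ 0) ∧
      (∀ m, ∃ hm : ι m ∈ S, σ ⟨_, hm⟩ = m) ∧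
      ∀ c (hc : ι' c ∈ S), ∃ r : k, σ ⟨_, hc⟩ = algebraMap k M r := by
  obtain ⟨T, ψ, H⟩ := exists_spec (k := k) (hZ.preimage h.symm.injOn)
  have inj : Function.Injective ((pm ι' ι).comp (inc M T)) := h.symm.comp (inc_inj T)
  let e := AlgEquiv.ofInjective _ inj
  have he : ∀ z x hx, pm ι' ι (inc M T z) = x → e.symm ⟨x, hx⟩ = z := fun z x hx q =>
    e.symm_apply_eq.2 (Subtype.ext q.symm)
  refine ⟨_, (spc M ψ).comp e.symm.toAlgHom, fun z hz => ?_, fun m => ?_, fun c hc => ?_⟩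
  · have := hB z hz
    rw [← Bq_comm, ← Bq_top] at this
    obtain ⟨y, rfl⟩ := this
    obtain ⟨y, rfl, hy⟩ := H y hz
    exact ⟨⟨y, rfl⟩, fun n => (congrArg (spc M ψ) (he y _ _ rfl)).trans_ne
      (hy fun q => n (by rw [q]; exact map_zero _))⟩
  · have q : pm ι' ι (inc M T (1 ⊗ₜ m)) = ι m := by simp [inc, pm_tmul]
    exact ⟨⟨1 ⊗ₜ m, q⟩, (congrArg (spc M ψ) (he _ _ _ q)).trans (by simp [spc])⟩
  · obtain ⟨z, hz⟩ := id hc
    have t : c ∈ T := left_mem (z := z) (h.symm (hz.trans (by simp [pm_tmul])))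
    have q : pm ι' ι (inc M T ((⟨c, t⟩ : T) ⊗ₜ 1)) = ι' c := by simp [inc, pm_tmul]
    exact ⟨ψ ⟨c, t⟩, (congrArg (spc M ψ) (he _ _ _ q)).trans (by simp [spc])⟩

end Spz

open Spz

theorem nsq_stmt : NsqStmt := by
  rintro k M M' K _ _ _ _ _ _ _ _ _ ι ι' h φ c hφ hc _ ⟨a, ha, b, hb, b0, rfl⟩ e
  obtain ⟨S, σ, h1, h2, h3⟩ := spec h (Set.toFinite {a, b, ι' c}) (by
    rintro _ (rfl | rfl | rfl)
    exacts [ha, hb, Bq_r trivial])
  obtain ⟨ma, -⟩ := h1 a (by simp)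
  obtain ⟨mb, nb⟩ := h1 b (by simp)
  obtain ⟨mc, nc⟩ := h1 (ι' c) (by simp)
  obtain ⟨mφ, eφ⟩ := h2 φ
  obtain ⟨r, hr⟩ := h3 c mc
  obtain ⟨s, rfl⟩ := IsAlgClosed.exists_eq_mul_self r
  have e1 : (⟨a, ma⟩ : S) ^ 2 = ⟨b, mb⟩ ^ 2 * ⟨_, mφ⟩ * ⟨_, mc⟩ := Subtype.ext (by
    change a ^ 2 = b ^ 2 * ι φ * ι' c
    rw [mul_assoc, ← e]
    field_simp)
  have e2 := congrArg σ e1
  have n1 := nb b0
  have n2 := nc ((map_ne_zero ι').2 hc)
  rw [hr, map_mul] at n2
  rw [map_mul, map_mul, map_pow, map_pow, eφ, hr, map_mul] at e2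
  have n3 := left_ne_zero_of_mul n2
  refine hφ ⟨σ ⟨a, ma⟩ / (σ ⟨b, mb⟩ * algebraMap k M s), ?_⟩
  field_simp
  linear_combination -e2

theorem mws_stmt : MwsStmt := by
  intro k M M' K _ _ _ _ _ _ _ _ _ ι ι' h hR φ ψ l hM ψ0 l0 l1 a b e
  obtain ⟨a₁, ha₁, a₂, ha₂, a0, rfl⟩ := hR a
  obtain ⟨b₁, hb₁, b₂, hb₂, b0, rfl⟩ := hR b
  by_contra hn
  obtain ⟨S, σ, h1, h2, h3⟩ := spec h
    (Set.toFinite {a₁, a₂, b₁, b₂, ι' ψ, ι' l, ι' (l - 1)}) (by
      rintro _ (rfl | rfl | rfl | rfl | rfl | rfl | rfl)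
      exacts [ha₁, ha₂, hb₁, hb₂, Bq_r trivial, Bq_r trivial, Bq_r trivial])
  obtain ⟨m₁, -⟩ := h1 a₁ (by simp)
  obtain ⟨m₂, n₂⟩ := h1 a₂ (by simp)
  obtain ⟨m₃, n₃⟩ := h1 b₁ (by simp)
  obtain ⟨m₄, n₄⟩ := h1 b₂ (by simp)
  obtain ⟨m₅, n₅⟩ := h1 (ι' ψ) (by simp)
  obtain ⟨m₆, n₆⟩ := h1 (ι' l) (by simp)
  obtain ⟨m₇, n₇⟩ := h1 (ι' (l - 1)) (by simp)
  obtain ⟨mφ, eφ⟩ := h2 φ
  obtain ⟨r, hr⟩ := h3 ψ m₅
  obtain ⟨c, hc⟩ := h3 l m₆
  obtain ⟨s, rfl⟩ := IsAlgClosed.exists_eq_mul_self r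
  have e1 : (⟨b₁, m₃⟩ : S) ^ 2 * ⟨a₂, m₂⟩ ^ 3 = ⟨b₂, m₄⟩ ^ 2 * (⟨_, mφ⟩ * ⟨_, m₅⟩ *
      (⟨a₁, m₁⟩ * (⟨a₁, m₁⟩ - ⟨a₂, m₂⟩) * (⟨a₁, m₁⟩ - ⟨_, m₆⟩ * ⟨a₂, m₂⟩))) := Subtype.ext (by
    change b₁ ^ 2 * a₂ ^ 3 = b₂ ^ 2 * (ι φ * ι' ψ * (a₁ * (a₁ - a₂) * (a₁ - ι' l * a₂)))
    field_simp at e
    linear_combination e)
  have e2 := congrArg σ e1
  have e3 : (⟨_, m₇⟩ : S) = ⟨_, m₆⟩ - 1 := Subtype.ext (by simp)
  have k2 := n₂ a0
  have k3 := n₃ fun q => hn (by rw [q, zero_div])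
  have k4 := n₄ b0
  have k5 := n₅ ((map_ne_zero ι').2 ψ0)
  have k6 := n₆ ((map_ne_zero ι').2 l0)
  have k7 := n₇ ((map_ne_zero ι').2 (sub_ne_zero.2 l1))
  rw [hr, map_mul] at k5
  rw [e3, map_sub, map_one, hc] at k7
  rw [hc] at k6
  simp only [map_mul, map_pow, map_sub, eφ, hr, hc] at e2
  have k8 := left_ne_zero_of_mul k5
  refine div_ne_zero k3 (mul_ne_zero k4 k8) (hM c (fun q => k6 (by simp [q]))
    (fun q => k7 (by simp [q])) (σ ⟨a₁, m₁⟩ / σ ⟨a₂, m₂⟩) _ ?_)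
  unfold cb
  field_simp
  linear_combination e2

end Pool.Agent.MP_20d318_ag.KK

end PartSpz

section PartFld

/-! Facts on the field extension. -/

set_option autoImplicit false
set_option linter.unusedSectionVars false

open scoped TensorProduct

namespace Pool.Agent.MP_20d318_ag.KK

open Pool.Agent.MP_fd6584_ag.Fn Pool.Agent.CBk Polynomial
open Pool.Agent.MP_fd6584_ag.AG hiding deg_inv deg_congr deg_of_unit deg_mul deg_prod deg_zpow
  deg_eq_zero deg_nonneg deg_div deg_pow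
open IntermediateField (adjoin)

namespace FLD

variable {k M M' K : Type} [Field k] [Field M] [Field M'] [Field K] [Algebra k M] [Algebra k M']
  [Algebra k K] {ι : M →ₐ[k] K} {ι' : M' →ₐ[k] K} {φ : M} {φ' : M'} {v : K} {e : ℕ}

theorem rt_iff {f : K} : Rt ι ι' f ↔ f ∈ adjoin k (Set.range ι ∪ Set.range ι') := by
  rw [IntermediateField.mem_adjoin_iff_div, Rt, ← Bq_top, pm_range]
  refine ⟨fun ⟨a, ha, b, hb, _, q⟩ => ⟨a, ha, b, hb, q⟩, fun ⟨a, ha, b, hb, q⟩ => ?_⟩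
  rcases eq_or_ne b 0 with rfl | b0
  · exact ⟨0, hb, 1, one_mem _, one_ne_zero, by simp [q]⟩
  · exact ⟨a, ha, b, hb, b0, q⟩

theorem pow_mem' (h : Ext φ φ' ι ι' v e) {F : IntermediateField k K} (h1 : ∀ m, ι m ∈ F)
    (h2 : ∀ m, ι' m ∈ F) : v ^ e ∈ F :=
  eq_div_of_mul_eq ((map_ne_zero ι).2 h.ne) h.eq ▸ div_mem (h2 φ') (h1 φ)

theorem eq_top (h : Ext φ φ' ι ι' v e) {F : IntermediateField k K} (h1 : ∀ m, ι m ∈ F)
    (h2 : ∀ m, ι' m ∈ F) (h3 : v ∈ F) : F = ⊤ := by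
  rw [eq_top_iff, ← h.top, IntermediateField.adjoin_le_iff]
  rintro _ (⟨b, rfl⟩ | ⟨b, rfl⟩ | rfl)
  exacts [h1 b, h2 b, h3]

theorem dec (h : Ext φ φ' ι ι' v e) {F : IntermediateField k K} (h1 : ∀ m, ι m ∈ F)
    (h2 : ∀ m, ι' m ∈ F) (h3 : v ^ 2 ∈ F) (f : K) : ∃ a ∈ F, ∃ b ∈ F, f = a + b * v := by
  have hf : f ∈ adjoin k (Set.range ι ∪ (Set.range ι' ∪ {v})) := h.top ▸ IntermediateField.mem_top
  induction hf using IntermediateField.adjoin_induction with
  | mem x hx =>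
    rcases hx with ⟨m, rfl⟩ | ⟨m, rfl⟩ | rfl
    · exact ⟨_, h1 m, 0, zero_mem _, by simp⟩
    · exact ⟨_, h2 m, 0, zero_mem _, by simp⟩
    · exact ⟨0, zero_mem _, 1, one_mem _, by simp⟩
  | algebraMap c => exact ⟨_, F.algebraMap_mem c, 0, zero_mem _, by simp⟩
  | add x y _ _ hx hy =>
    obtain ⟨a, ha, b, hb, rfl⟩ := hx
    obtain ⟨a', ha', b', hb', rfl⟩ := hy
    exact ⟨_, add_mem ha ha', _, add_mem hb hb', by ring⟩
  | inv x _ hx =>
    obtain ⟨a, ha, b, hb, rfl⟩ := hx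
    by_cases h4 : a - b * v = 0
    · refine ⟨(a + a)⁻¹, inv_mem (add_mem ha ha), 0, zero_mem _, ?_⟩
      rw [← sub_eq_zero.1 h4, zero_mul, add_zero]
    · have hn : a ^ 2 - b ^ 2 * v ^ 2 ∈ F := sub_mem (pow_mem ha 2) (mul_mem (pow_mem hb 2) h3)
      refine ⟨_, div_mem ha hn, _, div_mem (neg_mem hb) hn, ?_⟩
      rw [div_mul_eq_mul_div, ← add_div, neg_mul, ← sub_eq_add_neg, ← mul_pow, sq_sub_sq,
        div_mul_cancel_right₀ h4]
  | mul x y _ _ hx hy =>
    obtain ⟨a, ha, b, hb, rfl⟩ := hx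
    obtain ⟨a', ha', b', hb', rfl⟩ := hy
    exact ⟨_, add_mem (mul_mem ha ha') (mul_mem (mul_mem hb hb') h3), _,
      add_mem (mul_mem ha hb') (mul_mem hb ha'), by ring⟩

theorem fix {θ : K ≃ₐ[k] K} (h1 : ∀ m, θ (ι m) = ι m) (h2 : ∀ m, θ (ι' m) = ι' m) {f : K}
    (h : Rt ι ι' f) : θ f = f := by
  have key : Bq ι ι' ⊤ ⊤ ∅ ≤ AlgHom.equalizer (θ : K →ₐ[k] K) (AlgHom.id k K) := by
    refine Algebra.adjoin_le ?_
    rintro _ (⟨a, -, rfl⟩ | ⟨a, -, rfl⟩ | ⟨⟨⟩⟩)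
    exacts [h1 a, h2 a]
  obtain ⟨a, ha, b, hb, -, rfl⟩ := h
  rw [map_div₀, show θ a = a from key ha, show θ b = b from key hb]

open MvPolynomial in
theorem ind (h : Dj ι ι') {I I' : Type} {y : I → M} {y' : I' → M'} (hy : AlgebraicIndependent k y)
    (hy' : AlgebraicIndependent k y') :
    AlgebraicIndependent k (Sum.elim (fun i => ι (y i)) fun i => ι' (y' i)) := by
  have q : (MvPolynomial.aeval (Sum.elim (fun i => ι (y i)) fun i => ι' (y' i))).comp
      (tensorEquivSum k I I' k).toAlgHom = (pm ι ι').comp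
        (Algebra.TensorProduct.map (MvPolynomial.aeval y) (MvPolynomial.aeval y')) := by
    ext i <;> simp [pm_tmul]
  have j : Function.Injective (Algebra.TensorProduct.map (MvPolynomial.aeval (R := k) y)
      (MvPolynomial.aeval (R := k) y')) := TensorProduct.map_injective_of_flat_flat
    (MvPolynomial.aeval y).toLinearMap (MvPolynomial.aeval y').toLinearMap hy hy'
  refine (Function.Injective.of_comp_iff' _ (tensorEquivSum k I I' k).bijective).1 ?_
  have := Function.Injective.comp h j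
  rwa [← AlgHom.coe_comp, ← q] at this

theorem mems {G : Set M} (hG : adjoin k G = ⊤) {S : Set K} (hS : ι '' G ⊆ S) (m : M) :
    ι m ∈ adjoin k S := by
  have h5 : adjoin k G ≤ (adjoin k S).comap ι := by
    rw [IntermediateField.adjoin_le_iff]
    exact fun a ha => IntermediateField.subset_adjoin k _ (hS ⟨a, ha, rfl⟩)
  exact h5 (hG ▸ IntermediateField.mem_top)

theorem sep [NeZero (2 : k)] (h : Ext φ φ' ι ι' v e) {F : IntermediateField k K}
    (h1 : ∀ m, ι m ∈ F) (h2 : ∀ m, ι' m ∈ F) : Algebra.IsSeparable F K := by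
  have a : ∀ u ∈ F, u ∈ (separableClosure F K).restrictScalars k := fun u hu =>
    (separableClosure F K).algebraMap_mem ⟨u, hu⟩
  have mw := pow_mem' h h1 h2
  have hw : v ∈ (separableClosure F K).restrictScalars k := by
    have he : (e : F) ≠ 0 := by
      rcases h.he with rfl | rfl
      · simp
      · exact_mod_cast two_ne k F
    exact (separable_X_pow_sub_C (n := e) (⟨_, mw⟩ : F) he fun e1 =>
      pow_ne_zero e h.vne (congrArg Subtype.val e1)).of_dvd (minpoly.dvd F v (by simp))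
  exact ⟨fun f =>
    (eq_top h (fun m => a _ (h1 m)) (fun m => a _ (h2 m)) hw).ge IntermediateField.mem_top⟩

end FLD

open FLD in
theorem fld_stmt : FldStmt := by
  intro hN k M M' K _ _ _ _ _ _ _ _ _ ι ι' φ φ' v e h
  have h1 : ∀ m, ι m ∈ adjoin k (Set.range ι ∪ Set.range ι') := fun m =>
    IntermediateField.subset_adjoin _ _ (Or.inl ⟨m, rfl⟩)
  have h2 : ∀ m, ι' m ∈ adjoin k (Set.range ι ∪ Set.range ι') := fun m =>
    IntermediateField.subset_adjoin _ _ (Or.inr ⟨m, rfl⟩)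
  have one : e = 1 → ∀ F : IntermediateField k K, (∀ m, ι m ∈ F) → (∀ m, ι' m ∈ F) → F = ⊤ := by
    rintro rfl F a b
    exact eq_top h a b (pow_one v ▸ pow_mem' h a b)
  have rt : e = 1 → ∀ μ, Rt ι ι' μ := fun he μ =>
    rt_iff.2 ((one he _ h1 h2).ge IntermediateField.mem_top)
  have h3 : v ^ 2 ∈ adjoin k (Set.range ι ∪ Set.range ι') := by
    rcases h.he with rfl | rfl
    · exact rt_iff.1 (rt rfl _)
    · exact pow_mem' h h1 h2
  refine ⟨rt, ?_, fun μ => ?_, fun θ t1 t2 t3 μ => ?_, fun _ _ _ _ => ind h.dj,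
    fun he _ _ a b => one he _ (mems a Set.subset_union_left) (mems b Set.subset_union_right),
    fun _ _ a b => sep h (mems a Set.subset_union_left) (mems b Set.subset_union_right)⟩
  · rintro rfl q
    refine hN k M M' K ι ι' h.dj φ φ' h.ns h.ne' _ (q.mul (rt_iff.2 (h1 φ))) ?_
    rw [← h.eq]
    ring
  · obtain ⟨a, ha, b, hb, q⟩ := dec h h1 h2 h3 μ
    exact ⟨a, b, rt_iff.2 ha, rt_iff.2 hb, q⟩
  rcases h.he with rfl | rfl
  · exact rt rfl _
  obtain ⟨a, ha, b, hb, rfl⟩ := dec h h1 h2 h3 μ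
  rw [map_add, map_mul, fix t1 t2 (rt_iff.2 ha), fix t1 t2 (rt_iff.2 hb), t3]
  have e1 : (a + b * v) * (a + b * ((-1) ^ (3 - 2) * v)) = a ^ 2 - b ^ 2 * v ^ 2 := by ring
  exact e1 ▸ rt_iff.2 (sub_mem (pow_mem ha 2) (mul_mem (pow_mem hb 2) h3))

end Pool.Agent.MP_20d318_ag.KK

end PartFld

section PartTq

/-! Row TQ: the tower of fields. -/

set_option autoImplicit false
set_option linter.unusedSectionVars false

namespace Pool.Agent.MP_20d318_ag.KK

open Pool.Agent.MP_fd6584_ag.Fn Pool.Agent.CBk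
open Pool.Agent.MP_fd6584_ag.AG hiding deg_inv deg_congr deg_of_unit deg_mul deg_prod deg_zpow
  deg_eq_zero deg_nonneg deg_div deg_pow
open Pool.Agent.MP_20d318_ag.CH (Tw)
open IntermediateField (adjoin)

namespace TqR

variable {k M₀ M K : Type} [Field k] [Field M₀] [Field M] [Field K] [Algebra k M₀] [Algebra k M]
  [Algebra k K] {a : ℕ} {T : Fin (a + 1) → Set (Subalgebra k M₀)} {φ : Fin (a + 1) → M₀}
  {Y : Set (Subalgebra k M)} {Z : Set (Subalgebra k K)} {ψ : M} {ι₀ : Fin a → M₀ →ₐ[k] M}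
  {ι : M →ₐ[k] K} {ι' : M₀ →ₐ[k] K} {v : K} {e : ℕ}

/-- The embeddings of the next stage. -/
abbrev cs (ι₀ : Fin a → M₀ →ₐ[k] M) (ι : M →ₐ[k] K) (ι' : M₀ →ₐ[k] K) :
    Fin (a + 1) → M₀ →ₐ[k] K := Fin.cons ι' fun i => ι.comp (ι₀ i)

theorem cg {I : Type} {x y : I → K} (h : AlgebraicIndependent k x) (q : ∀ i, x i = y i) :
    AlgebraicIndependent k y := funext q ▸ h

theorem ind (h : Tq (Fin.tail T) (Fin.tail φ) Y ψ ∅ ι₀) (f : Fld ι ι' v e) {y : Fin 2 → M₀}
    (hy : AlgebraicIndependent k y) : ∃ x z : Fin (a + 1) → M₀, AlgebraicIndependent k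
      (Sum.elim (fun i => cs ι₀ ι ι' i (x i)) fun i => cs ι₀ ι ι' i (z i)) := by
  obtain ⟨x, z, h1⟩ := h.ind
  refine ⟨Fin.cons (y 0) x, Fin.cons (y 1) z, ?_⟩
  have h2 := (f.ind _ _ _ _ h1 hy).comp (Sum.elim (Fin.cons (.inr 0) fun i => .inl (.inl i))
    (Fin.cons (.inr 1) fun i => .inl (.inr i)) :
      Fin (a + 1) ⊕ Fin (a + 1) → (Fin a ⊕ Fin a) ⊕ Fin 2) (by
    rintro (i | i) (j | j) <;> cases i using Fin.cases <;> cases j using Fin.cases <;> simp)
  refine cg h2 fun i => ?_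
  rcases i with i | i <;> cases i using Fin.cases <;> rfl

theorem eq (h : Tq (Fin.tail T) (Fin.tail φ) Y ψ ∅ ι₀) :
    ι ψ * ι' (φ 0) = ∏ i, cs ι₀ ι ι' i (φ i) := by
  rw [Fin.prod_univ_succ, h.eq, map_prod, mul_comm]
  rfl

theorem mem {b : ℕ} {T : Fin b → Set (Subalgebra k M₀)} {φ : Fin b → M₀}
    {ι₀ : Fin b → M₀ →ₐ[k] M} (h : Tq T φ Y ψ ∅ ι₀) {S : Set K} (hS : ∀ i m, ι (ι₀ i m) ∈ S) :
    ∀ m, ι m ∈ adjoin k S := by
  refine FLD.mems h.top ?_
  rintro _ ⟨_, q | ⟨⟨⟩⟩, rfl⟩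
  obtain ⟨i, m, rfl⟩ := Set.mem_iUnion.1 q
  exact hS i m

theorem mems (h : Tq (Fin.tail T) (Fin.tail φ) Y ψ ∅ ι₀) (G : Set K) :
    (∀ m, ι m ∈ adjoin k ((⋃ i, Set.range (cs ι₀ ι ι' i)) ∪ G)) ∧
      ∀ m, ι' m ∈ adjoin k ((⋃ i, Set.range (cs ι₀ ι ι' i)) ∪ G) :=
  ⟨mem h fun i m => Or.inl (Set.mem_iUnion.2 ⟨i.succ, m, rfl⟩),
    fun m => IntermediateField.subset_adjoin _ _ (Or.inl (Set.mem_iUnion.2 ⟨0, m, rfl⟩))⟩

theorem reg (h : Tq (Fin.tail T) (Fin.tail φ) Y ψ ∅ ι₀) (m1 : Maps ι Z Y) (m2 : Maps ι' Z (T 0)) :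
    ∀ O ∈ Z, ∀ i, ∃ R ∈ T i, ∀ c ∈ R, cs ι₀ ι ι' i c ∈ O := fun O hO i => by
  cases i using Fin.cases with
  | zero => exact (m2 O hO).imp fun R q => ⟨q.1, fun c hc => q.2.1 hc⟩
  | succ i =>
    obtain ⟨R, hR, q⟩ := m1 O hO
    exact (h.reg R hR i).imp fun R' q' => ⟨q'.1, fun c hc => q.1 (q'.2 c hc)⟩

end TqR

open TqR in
theorem tq_stmt : TqStmt := by
  refine ⟨fun k M _ _ _ T φ y hy => ⟨⟨fun _ => y 0, fun _ => y 1, ?_⟩, by simp, ?_,
    fun O hO i => ⟨O, Fin.fin_one_eq_zero i ▸ hO, fun _ q => q⟩⟩,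
    fun k M₀ M K _ _ _ _ _ _ _ a T φ Y Z ψ ι₀ ι ι' v e y h x f hy m1 m2 => ⟨?_, ?_⟩,
    fun k M₀ M K _ _ _ _ _ _ _ a m T φ l Y Z ψ ι₀ ι ζ w h t => ⟨?_, ?_, ?_, fun O hO => ?_⟩⟩
  · have h2 := hy.comp (Sum.elim (fun _ => 0) fun _ => 1 : Fin 1 ⊕ Fin 1 → Fin 2) (by decide)
    refine cg h2 fun i => ?_
    rcases i with i | i <;> rfl
  · exact eq_top_iff.2 fun a _ =>
      IntermediateField.subset_adjoin k _ (Or.inl (Set.mem_iUnion.2 ⟨0, a, rfl⟩))
  · rintro rfl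
    obtain ⟨q1, q2⟩ := mems (ι := ι) (ι' := ι') h ∅
    exact ⟨ind h f hy, eq h, FLD.eq_top x q1 q2 (pow_one v ▸ FLD.pow_mem' x q1 q2), reg h m1 m2⟩
  · rintro rfl l
    obtain ⟨q1, q2⟩ := mems (ι := ι) (ι' := ι') h (Set.range ![] ∪ {v * ι ψ})
    obtain ⟨b, c, q⟩ := ind h f hy
    refine ⟨⟨b, c, ?_⟩, ?_, FLD.eq_top x q1 q2 ?_,
      fun O hO => ⟨reg h m1 m2 O hO, fun r => r.elim0⟩⟩
    · have h2 := q.comp _ (Equiv.sumEmpty _ (Fin 0)).injective
      refine cg h2 fun i => ?_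
      rcases i with i | i
      exacts [rfl, i.elim0]
    · rw [← eq h, ← x.eq, Fin.prod_univ_zero]
      ring
    · refine (mul_div_cancel_right₀ v ((map_ne_zero ι).2 x.ne)).subst
        (motive := (· ∈ adjoin k _)) (div_mem ?_ (q1 ψ))
      exact IntermediateField.subset_adjoin _ _ (Or.inr (Or.inr rfl))
  · obtain ⟨b, c, q⟩ := h.ind
    let _ := ι.toRingHom.toAlgebra
    have : IsScalarTower k M K := .of_algebraMap_eq fun r => (ι.commutes r).symm
    have h1 : AlgebraicIndependent M ζ := (injective_iff_map_eq_zero _).2 t.ind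
    have h2 := (q.sumElim_comp h1).comp _ (Equiv.sumComm _ _).injective
    refine ⟨b, c, cg h2 fun i => ?_⟩
    rcases i with (i | i) | i <;> rfl
  · rw [t.eq, h.eq, map_prod]
    rfl
  · rw [eq_top_iff, ← t.top, IntermediateField.adjoin_le_iff]
    rintro _ (⟨b, rfl⟩ | q)
    · refine mem h (fun i m => ?_) b
      exact Or.inl (Set.mem_iUnion.2 ⟨i, m, rfl⟩)
    · exact IntermediateField.subset_adjoin k _ (Or.inr q)
  · obtain ⟨⟨R, hR, q⟩, q'⟩ := t.reg O hO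
    exact ⟨fun i => (h.reg R hR i).imp fun R' r => ⟨r.1, fun c hc => q _ (r.2 c hc)⟩, q'⟩

end Pool.Agent.MP_20d318_ag.KK

end PartTq

section PartHoma

/-! The compositum of two fields and its quadratic extension exist. -/

set_option autoImplicit false
set_option linter.unusedSectionVars false

open scoped TensorProduct

namespace Pool.Agent.MP_20d318_ag.KK

open Polynomial

namespace Homa

variable {k M M' K K' : Type} [Field k] [Field M] [Field M'] [Field K] [Field K'] [Algebra k M]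
  [Algebra k M'] [Algebra k K] [Algebra k K']

theorem base [IsAlgClosed k] : ∃ (K : Type) (_ : Field K) (_ : Algebra k K) (ι : M →ₐ[k] K)
    (ι' : M' →ₐ[k] K), Dj ι ι' ∧ ∀ x, Rt ι ι' x := by
  have : NoZeroDivisors (M ⊗[k] M') := td
  have : IsDomain (M ⊗[k] M') := NoZeroDivisors.to_isDomain _
  let g : M ⊗[k] M' →ₐ[k] FractionRing (M ⊗[k] M') := IsScalarTower.toAlgHom k _ _
  have hg : Function.Injective g := IsFractionRing.injective (M ⊗[k] M') _
  have e : pm (g.comp Algebra.TensorProduct.includeLeft)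
      (g.comp Algebra.TensorProduct.includeRight) = g := by
    refine AlgHom.ext fun z => ?_
    induction z with
    | zero => simp
    | tmul a b =>
      rw [pm_tmul, AlgHom.comp_apply, AlgHom.comp_apply, ← map_mul]
      simp
    | add a b ha hb => rw [map_add, map_add, ha, hb]
  refine ⟨FractionRing (M ⊗[k] M'), inferInstance, inferInstance,
    g.comp Algebra.TensorProduct.includeLeft, g.comp Algebra.TensorProduct.includeRight,
    by rw [Dj, e]; exact hg, fun x => ?_⟩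
  obtain ⟨a, b, hb, rfl⟩ := IsFractionRing.div_surjective (A := M ⊗[k] M') x
  rw [Rt, ← Bq_top, e]
  exact ⟨g a, ⟨a, rfl⟩, g b, ⟨b, rfl⟩,
    (map_ne_zero_iff g hg).2 (nonZeroDivisors.ne_zero hb), rfl⟩

theorem pm_comp (ι : M →ₐ[k] K) (ι' : M' →ₐ[k] K) (j : K →ₐ[k] K') (z : M ⊗[k] M') :
    pm (j.comp ι) (j.comp ι') z = j (pm ι ι' z) := by
  induction z with
  | zero => simp
  | tmul a b => rw [pm_tmul, pm_tmul, map_mul]; rfl
  | add a b ha hb => rw [map_add, map_add, map_add, ha, hb]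

theorem mem {ι : M →ₐ[k] K} {ι' : M' →ₐ[k] K} (j : K →ₐ[k] K') (F : IntermediateField k K')
    (h : ∀ m, j (ι m) ∈ F) (h' : ∀ m, j (ι' m) ∈ F) {x : K} (hx : Rt ι ι' x) : j x ∈ F := by
  have key : ∀ z, j (pm ι ι' z) ∈ F := fun z => by
    induction z with
    | zero => simp
    | tmul a b => rw [pm_tmul, map_mul]; exact mul_mem (h a) (h' b)
    | add a b ha hb => rw [map_add, map_add]; exact add_mem ha hb
  rw [Rt, ← Bq_top] at hx
  obtain ⟨_, ⟨a, rfl⟩, _, ⟨b, rfl⟩, -, rfl⟩ := hx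
  rw [map_div₀]
  exact div_mem (key a) (key b)

end Homa

theorem homa_stmt : HomaStmt := by
  intro hn k M M' _ _ _ _ _ _ _ φ φ' e he h1 h2
  obtain ⟨K, _, _, ι, ι', hd, hr⟩ := Homa.base (k := k) (M := M) (M' := M')
  have p0 : φ ≠ 0 := fun q => h1 (q ▸ IsSquare.zero)
  have p1 : φ' ≠ 0 := fun q => h2 (q ▸ IsSquare.zero)
  have i0 : ι φ ≠ 0 := (map_ne_zero ι).2 p0
  rcases he with rfl | rfl
  · refine ⟨K, _, _, ι, ι', ι' φ' / ι φ, Or.inl rfl, h1, h2, hd,
      by rw [pow_one, div_mul_cancel₀ _ i0], eq_top_iff.2 fun x _ => ?_⟩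
    exact Homa.mem (AlgHom.id k K) _
      (fun m => IntermediateField.subset_adjoin _ _ (Or.inl ⟨m, rfl⟩))
      (fun m => IntermediateField.subset_adjoin _ _ (Or.inr (Or.inl ⟨m, rfl⟩))) (hr x)
  · have hi : Irreducible (X ^ 2 - C (ι' φ' / ι φ)) :=
      X_pow_sub_C_irreducible_of_prime Nat.prime_two fun b hb =>
        hn k M M' K ι ι' hd φ φ' h1 p1 (b * ι φ) (hr _) (by rw [mul_pow, hb]; field_simp)
    have : Fact (Irreducible (X ^ 2 - C (ι' φ' / ι φ))) := ⟨hi⟩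
    let j : K →ₐ[k] AdjoinRoot (X ^ 2 - C (ι' φ' / ι φ)) := IsScalarTower.toAlgHom k K _
    have hv : AdjoinRoot.root (X ^ 2 - C (ι' φ' / ι φ)) ^ 2 = j (ι' φ' / ι φ) := by
      have := AdjoinRoot.eval₂_root (X ^ 2 - C (ι' φ' / ι φ))
      rw [eval₂_sub, eval₂_X_pow, eval₂_C, sub_eq_zero] at this
      exact this
    refine ⟨AdjoinRoot (X ^ 2 - C (ι' φ' / ι φ)), inferInstance, inferInstance, j.comp ι,
      j.comp ι', AdjoinRoot.root _, Or.inr rfl, h1, h2, fun x y q => hd (j.injective ?_), ?_,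
      eq_top_iff.2 fun x _ => ?_⟩
    · rw [Homa.pm_comp, Homa.pm_comp] at q
      exact q
    · rw [hv, AlgHom.comp_apply, AlgHom.comp_apply, ← map_mul, div_mul_cancel₀ _ i0]
    · obtain ⟨p, rfl⟩ := AdjoinRoot.mk_surjective x
      induction p using Polynomial.induction_on' with
      | add p q hp hq => rw [map_add]; exact add_mem (hp trivial) (hq trivial)
      | monomial n a =>
        rw [← C_mul_X_pow_eq_monomial, map_mul, map_pow, AdjoinRoot.mk_X, AdjoinRoot.mk_C]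
        refine mul_mem ?_ (pow_mem ?_ n)
        swap
        · exact IntermediateField.subset_adjoin _ _ (Or.inr (Or.inr rfl))
        exact Homa.mem j _ (fun m => IntermediateField.subset_adjoin _ _ (Or.inl ⟨m, rfl⟩))
          (fun m => IntermediateField.subset_adjoin _ _ (Or.inr (Or.inl ⟨m, rfl⟩))) (hr a)

end Pool.Agent.MP_20d318_ag.KK

end PartHoma

section PartHomb

/-! Automorphisms of the two factors extend to the field of the next level. -/

set_option autoImplicit false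

open scoped TensorProduct

namespace Pool.Agent.MP_20d318_ag.KK

open Pool.Agent.CBk Pool.Agent.CBk.XAlg Polynomial

namespace HombRow

variable {k M M' K : Type} [Field k] [Field M] [Field M'] [Field K] [Algebra k M] [Algebra k M']
  [Algebra k K]

/-- An injective map whose image generates the field identifies it with the fraction field. -/
theorem frac {B : Type} [CommRing B] [IsDomain B] [Algebra k B] (π : B →ₐ[k] K)
    (hi : Function.Injective π) (ht : IntermediateField.adjoin k (Set.range π) = ⊤) :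
    ∃ α : FractionRing B ≃ₐ[k] K, ∀ b, α (algebraMap B (FractionRing B) b) = π b := by
  let j : FractionRing B →ₐ[k] K := IsFractionRing.liftAlgHom hi
  have hj : ∀ b, j (algebraMap B (FractionRing B) b) = π b := fun b =>
    IsFractionRing.lift_algebraMap (g := (π : B →+* K)) hi b
  have hle : IntermediateField.adjoin k (Set.range π) ≤ j.fieldRange := by
    rw [IntermediateField.adjoin_le_iff]
    rintro _ ⟨b, rfl⟩
    exact ⟨_, hj b⟩
  exact ⟨AlgEquiv.ofBijective j ⟨j.toRingHom.injective, fun z =>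
    hle (ht ▸ IntermediateField.mem_top)⟩, hj⟩

/-- Two generating maps with the same kernel differ by an automorphism. -/
theorem twin {B : Type} [CommRing B] [Algebra k B] (π π' : B →ₐ[k] K)
    (h : ∀ b, π b = 0 ↔ π' b = 0) (ht : IntermediateField.adjoin k (Set.range π) = ⊤)
    (ht' : IntermediateField.adjoin k (Set.range π') = ⊤) :
    ∃ Φ : K ≃ₐ[k] K, ∀ b, Φ (π b) = π' b := by
  let I : Ideal B := RingHom.ker π
  have : I.IsPrime := RingHom.ker_isPrime π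
  have key : ∀ p : B →ₐ[k] K, (∀ b, π b = 0 ↔ p b = 0) →
      IntermediateField.adjoin k (Set.range p) = ⊤ →
      ∃ α : FractionRing (B ⧸ I) ≃ₐ[k] K, ∀ b,
        α (algebraMap (B ⧸ I) (FractionRing (B ⧸ I)) (Ideal.Quotient.mk I b)) = p b := by
    intro p hp tp
    let q : (B ⧸ I) →ₐ[k] K := Ideal.Quotient.liftₐ I p fun a ha => (hp a).1 ha
    have hq : ∀ b, q (Ideal.Quotient.mk I b) = p b := fun b => rfl
    obtain ⟨α, hα⟩ := frac q ((injective_iff_map_eq_zero q).2 fun a ha => by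
      obtain ⟨b, rfl⟩ := Ideal.Quotient.mk_surjective a
      exact Ideal.Quotient.eq_zero_iff_mem.2 ((hp b).2 ha)) (by
        rw [eq_top_iff, ← tp]
        exact IntermediateField.adjoin.mono _ _ _ fun _ ⟨b, hb⟩ => ⟨_, (hq b).trans hb⟩)
    exact ⟨α, fun b => (hα _).trans (hq b)⟩
  obtain ⟨α, a1⟩ := key π (fun _ => Iff.rfl) ht
  obtain ⟨β, b1⟩ := key π' h ht'
  exact ⟨α.symm.trans β, fun b => by rw [← a1, AlgEquiv.trans_apply, α.symm_apply_apply, b1]⟩

/-- The kernel of the evaluation map. -/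
theorem ker {ι : M →ₐ[k] K} {ι' : M' →ₐ[k] K} {v : K} {e : ℕ} (he : e = 1 ∨ e = 2) (dj : Dj ι ι')
    (ns : e = 2 → ¬ Rt ι ι' v) {c : M ⊗[k] M'} (hc : v ^ e = pm ι ι' c) (q : (M ⊗[k] M')[X]) :
    ev (pm ι ι') v q = 0 ↔ X ^ e - C c ∣ q := by
  have hm : ev (pm ι ι') v (X ^ e - C c) = 0 := by
    rw [map_sub, map_pow, ev_X, ev_C, hc, sub_self]
  refine ⟨fun h => ?_, fun ⟨s, hs⟩ => by rw [hs, map_mul, hm, zero_mul]⟩
  have : Nontrivial (M ⊗[k] M') := (pm ι ι').toRingHom.domain_nontrivial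
  have e0 : e ≠ 0 := by omega
  have mo : (X ^ e - C c).Monic := monic_X_pow_sub_C c e0
  rw [← modByMonic_eq_zero_iff_dvd mo]
  have h1 : ev (pm ι ι') v (q %ₘ (X ^ e - C c)) = 0 := by
    have := congrArg (ev (pm ι ι') v) (modByMonic_add_div q (X ^ e - C c))
    rwa [map_add, map_mul, hm, zero_mul, add_zero, h] at this
  have h2 : (q %ₘ (X ^ e - C c)).degree < e := by
    have := degree_modByMonic_lt q mo
    rwa [degree_X_pow_sub_C (Nat.pos_of_ne_zero e0)] at this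
  generalize q %ₘ (X ^ e - C c) = s at h1 h2
  have z : ∀ a, pm ι ι' a = 0 → a = 0 := (injective_iff_map_eq_zero _).1 dj
  rcases he with rfl | rfl
  · rw [eq_C_of_degree_le_zero (p := s) (Nat.WithBot.lt_one_iff_le_zero.1 h2)] at h1 ⊢
    rw [ev_C] at h1
    rw [z _ h1, map_zero]
  · have h3 : s.degree ≤ 1 := by
      rw [degree_lt_iff_coeff_zero] at h2
      exact (degree_le_iff_coeff_zero s 1).2 fun m hm => h2 m (by exact_mod_cast hm)
    rw [eq_X_add_C_of_degree_le_one h3] at h1 ⊢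
    rw [map_add, map_mul, ev_C, ev_C, ev_X] at h1
    have mem : ∀ a, pm ι ι' a ∈ Bq ι ι' ⊤ ⊤ ∅ := fun a => Bq_top ι ι' ▸ ⟨a, rfl⟩
    have b0 : pm ι ι' (s.coeff 1) = 0 := by_contra fun b0 => ns rfl
      ⟨_, neg_mem (mem (s.coeff 0)), _, mem (s.coeff 1), b0, by
        rw [eq_div_iff b0]
        linear_combination h1⟩
    rw [b0, zero_mul, zero_add] at h1
    rw [z _ b0, z _ h1]
    simp

/-- The evaluation map generates the field. -/
theorem gen {ι : M →ₐ[k] K} {ι' : M' →ₐ[k] K} {v : K}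
    (h : IntermediateField.adjoin k (Set.range ι ∪ (Set.range ι' ∪ {v})) = ⊤) :
    IntermediateField.adjoin k (Set.range (ev (pm ι ι') v)) = ⊤ := by
  rw [eq_top_iff, ← h]
  refine IntermediateField.adjoin.mono _ _ _ ?_
  rintro _ (⟨a, rfl⟩ | ⟨a, rfl⟩ | rfl)
  · exact ⟨C (a ⊗ₜ[k] 1), by rw [ev_C, pm_tmul, map_one, mul_one]⟩
  · exact ⟨C (1 ⊗ₜ[k] a), by rw [ev_C, pm_tmul, map_one, one_mul]⟩
  · exact ⟨X, ev_X _ _⟩

end HombRow

open HombRow in
theorem homb_stmt : HombStmt := by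
  intro k M M' K _ _ _ _ _ _ _ _ _ ι ι' φ φ' v e σ σ' r r' h fld r0 r0' hσ hσ'
  set j := ι.comp (σ : M →ₐ[k] M) with hj
  set j' := ι'.comp (σ' : M' →ₐ[k] M') with hj'
  set t : K := (ι' r' / ι r) ^ (3 - e) with ht
  have i0 : ι r ≠ 0 := (map_ne_zero ι).2 r0
  have i0' : ι' r' ≠ 0 := (map_ne_zero ι').2 r0'
  have p0 : ι φ ≠ 0 := (map_ne_zero ι).2 h.ne
  have t0 : t ≠ 0 := pow_ne_zero _ (div_ne_zero i0' i0)
  have rg : Set.range j = Set.range ι := σ.surjective.range_comp ι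
  have rg' : Set.range j' = Set.range ι' := σ'.surjective.range_comp ι'
  have bq : Bq j j' ⊤ ⊤ ∅ = Bq ι ι' ⊤ ⊤ ∅ := by
    rw [← Bq_top, ← Bq_top, pm_range, pm_range, rg, rg']
  have dj : Dj j j' := by
    have e1 : ∀ z, pm j j' z = pm ι ι' (Algebra.TensorProduct.congr σ σ' z) := fun z => by
      induction z with
      | zero => simp
      | tmul a b => rfl
      | add a b ha hb => rw [map_add, map_add, map_add, ha, hb]
    exact fun x y q => (Algebra.TensorProduct.congr σ σ').injective (h.dj (by rw [← e1, ← e1, q]))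
  have rt : Rt ι ι' (ι' r' / ι r) :=
    ⟨_, Bq_r (a := r') trivial, _, Bq_l (a := r) trivial, i0, rfl⟩
  have ns : e = 2 → ¬ Rt j j' (t * v) := fun q w => fld.ns q (by
    have w1 : Rt ι ι' (t * v) := by rwa [Rt, bq] at w
    have w2 := rt.inv.mul w1
    rwa [ht, q, show 3 - 2 = 1 from rfl, pow_one, inv_mul_cancel_left₀ (div_ne_zero i0' i0)] at w2)
  have c1 : v ^ e = pm ι ι' (φ⁻¹ ⊗ₜ[k] φ') := by
    rw [pm_tmul, ← h.eq, map_inv₀]
    field_simp
  have c2 : (t * v) ^ e = pm j j' (φ⁻¹ ⊗ₜ[k] φ') := by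
    have e1 : j φ = ι φ * ι r ^ 2 := by rw [← map_pow, ← map_mul, ← hσ]; rfl
    have e2 : j' φ' = ι' φ' * ι' r' ^ 2 := by rw [← map_pow, ← map_mul, ← hσ']; rfl
    rw [pm_tmul, map_inv₀, e1, e2, ← h.eq, ht]
    rcases h.he with rfl | rfl <;> norm_num <;> field_simp
  have top : IntermediateField.adjoin k (Set.range j ∪ (Set.range j' ∪ {t * v})) = ⊤ := by
    rw [eq_top_iff, ← h.top, IntermediateField.adjoin_le_iff, rg, rg']
    rintro a (q | q | rfl)
    · exact IntermediateField.subset_adjoin _ _ (Or.inl q)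
    · exact IntermediateField.subset_adjoin _ _ (Or.inr (Or.inl q))
    · have m0 : ∀ F : IntermediateField k K, ι' r' ∈ F → ι r ∈ F → t ∈ F := fun F x y =>
        pow_mem (div_mem x y) _
      have m1 := m0 (IntermediateField.adjoin k (Set.range ι ∪ (Set.range ι' ∪ {t * a})))
        (IntermediateField.subset_adjoin _ _ (Or.inr (Or.inl ⟨r', rfl⟩)))
        (IntermediateField.subset_adjoin _ _ (Or.inl ⟨r, rfl⟩))
      have m2 := mul_mem (inv_mem m1)
        (IntermediateField.subset_adjoin k _ (Or.inr (Or.inr rfl)) : t * a ∈ _)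
      rwa [inv_mul_cancel_left₀ t0] at m2
  obtain ⟨Φ, hΦ⟩ := twin (ev (pm ι ι') v) (ev (pm j j') (t * v))
    (fun q => (ker h.he h.dj fld.ns c1 q).trans (ker h.he dj ns c2 q).symm) (gen h.top) (gen top)
  refine ⟨Φ, fun m => ?_, fun m => ?_, ?_⟩
  · have := hΦ (C (m ⊗ₜ[k] 1))
    rwa [ev_C, ev_C, pm_tmul, pm_tmul, map_one, map_one, mul_one, mul_one] at this
  · have := hΦ (C (1 ⊗ₜ[k] m))
    rwa [ev_C, ev_C, pm_tmul, pm_tmul, map_one, map_one, one_mul, one_mul] at this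
  · have := hΦ X
    rwa [ev_X, ev_X] at this

end Pool.Agent.MP_20d318_ag.KK

end PartHomb

section PartDimq

/-! Row DIMQ: dimensions of points of the blow-up of a product. -/

set_option autoImplicit false
set_option linter.unusedSectionVars false

namespace Pool.Agent.MP_20d318_ag.KK

open Pool.Agent.MP_fd6584_ag.Fn Pool.Agent.CBk Polynomial
open Pool.Agent.MP_fd6584_ag.AG hiding deg_inv deg_congr deg_of_unit deg_mul deg_prod deg_zpow
  deg_eq_zero deg_nonneg deg_div deg_pow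

namespace DimqAux

open Pool.Agent.CBk.DimRow

variable {k M K L : Type} [Field k] [Field M] [Field K] [Field L] [Algebra k M] [Algebra k K]
  [Algebra k L]

theorem rk_img {O : Subalgebra k K} {ρ : O →ₐ[k] L} (hρ : LocHom O ρ) (ι : M →ₐ[k] K)
    {R : Subalgebra k M} {n : ℕ} (hd : Dom R (O.comap ι)) (hRO : ι '' R ⊆ O) (hR : Dim R n) :
    (AlgebraicIndependent.matroid k L).eRk (evO O ρ '' (ι '' R)) ≤ n := by
  rw [rk_le_iff hρ hRO]
  rintro ⟨r, hr, hi⟩
  choose s hs he using hr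
  refine hR ⟨s, hs, fun p hp => ?_⟩
  have hm : MvPolynomial.aeval s p ∈ R := by rw [aeval_coe hs]; exact Subtype.prop _
  refine hd.2 _ hm ((isU_comap ι).2 ?_)
  rw [MvPolynomial.comp_aeval_apply]
  simp only [he]
  exact hi.2 p hp

end DimqAux

open DimqAux Pool.Agent.CBk.DimRow in
theorem dimq_stmt : DimqStmt := by
  intro k M M' K _ _ _ _ _ _ _ _ _ ι ι' R R' O a m m' hov hO hR hR'
  have := hO.1
  have hρ := resid_loc (O := O)
  set ρ := resid O
  set N := AlgebraicIndependent.matroid k (IsLocalRing.ResidueField O)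
  have hG : ι '' R ∪ (ι' '' R' ∪ {a}) ⊆ O := fun g hg => hO.2.1 (Algebra.subset_adjoin hg)
  have hRO : ι '' R ⊆ O := Set.subset_union_left.trans hG
  have hRO' : ι' '' R' ⊆ O := (Set.subset_union_left.trans Set.subset_union_right).trans hG
  have ha : a ∈ O := hG (by simp)
  have hG' : ι '' R ∪ (ι' '' R' ∪ ∅) ⊆ O := by
    rw [Set.union_empty]; exact Set.union_subset hRO hRO'
  have h1 : N.eRk (evO O ρ '' (ι '' R)) ≤ m := rk_img hρ ι hov.dom hRO hR
  have h1' : N.eRk (evO O ρ '' (ι' '' R')) ≤ m' := rk_img hρ ι' hov.dom' hRO' hR'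
  have h2 : N.eRk (evO O ρ '' (ι '' R ∪ (ι' '' R' ∪ ∅))) ≤ ((m + m' : ℕ) : ℕ∞) := by
    rw [Set.union_empty, Set.image_union, Nat.cast_add]
    exact (N.eRk_union_le_eRk_add_eRk _ _).trans (add_le_add h1 h1')
  have h3 : evO O ρ '' O ⊆
      N.closure (insert (evO O ρ a) (evO O ρ '' (ι '' R ∪ (ι' '' R' ∪ ∅)))) := by
    rw [← Set.image_insert_eq, ← Set.union_singleton, Set.union_empty, Set.union_assoc]
    exact pts_cl ρ hO
  refine ⟨(dim_iff hρ _).2 ?_, fun hu' => (dim_iff hρ _).2 ?_⟩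
  · refine (N.eRk_mono h3).trans ?_
    rw [Matroid.eRk_closure_eq, Nat.cast_add, Nat.cast_one]
    exact (N.eRk_insert_le_add_one _ _).trans (add_le_add_left h2 1)
  · have h4 : evO O ρ a ∈ N.closure (evO O ρ '' (ι '' R ∪ (ι' '' R' ∪ ∅))) :=
      algM_cl hρ (Algebra.adjoin_le hG') (fun b hb => ev_adjoin ρ hG' hb) ha hu'
    refine (N.eRk_mono h3).trans ?_
    rw [Matroid.closure_insert_eq_of_mem_closure h4, Matroid.eRk_closure_eq]
    exact h2

end Pool.Agent.MP_20d318_ag.KK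

end PartDimq

section PartUfd

/-! Unique factorization in the ring generated by two fields, one of them rational. -/

set_option autoImplicit false
set_option linter.unusedSectionVars false

open scoped TensorProduct

namespace Pool.Agent.MP_20d318_ag.KK

open Pool.Agent.MP_fd6584_ag.Fn Pool.Agent.CBk
open Pool.Agent.MP_fd6584_ag.AG hiding deg_inv deg_congr deg_of_unit deg_mul deg_prod deg_zpow
  deg_eq_zero deg_nonneg deg_div deg_pow

namespace Ufd

variable {k M M' K : Type} [Field k] [Field M] [Field M'] [Field K] [Algebra k M] [Algebra k M']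
  [Algebra k K]

/-- A ring of fractions of a ring with unique factorization. -/
theorem of_frac {A : Type} [CommRing A] [UniqueFactorizationMonoid A] (ρ : A →+* K)
    (hρ : Function.Injective ρ) (B : Subalgebra k K) (hB : ∀ a, ρ a ∈ B)
    (h : ∀ b ∈ B, ∃ a s, IsU B (ρ s) ∧ b * ρ s = ρ a) : UniqueFactorizationMonoid B := by
  let ρ' : A →+* B := ρ.codRestrict B hB
  let _ : Algebra A B := ρ'.toAlgebra
  have : IsLocalization ((IsUnit.submonoid B).comap ρ') B := by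
    rw [isLocalization_iff]
    refine ⟨fun s => s.2, fun b => ?_, fun {x y} e => ⟨1, ?_⟩⟩
    · obtain ⟨a, s, hs, e⟩ := h b b.2
      exact ⟨(a, ⟨s, (isU_iff_isUnit (ρ' s)).1 hs⟩), Subtype.ext e⟩
    · rw [hρ (congrArg Subtype.val e)]
  exact UniqueFactorizationMonoid.of_isLocalization ((IsUnit.submonoid B).comap ρ') B

variable (ι : M →ₐ[k] K) (ι' : M' →ₐ[k] K) {σ : Type} (y : σ → M')

/-- Evaluation of polynomials over the first field. -/
noncomputable def ev : MvPolynomial σ M →+* K :=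
  MvPolynomial.eval₂Hom (ι : M →+* K) fun i => ι' (y i)

theorem ev_C (m : M) : ev ι ι' y (MvPolynomial.C m) = ι m := MvPolynomial.eval₂Hom_C _ _ m

theorem ev_map (q : MvPolynomial σ k) :
    ev ι ι' y (MvPolynomial.map (algebraMap k M) q) = ι' (MvPolynomial.aeval y q) := by
  induction q using MvPolynomial.induction_on with
  | C c => rw [MvPolynomial.map_C, ev_C, MvPolynomial.aeval_C, ι.commutes, ι'.commutes]
  | add p q hp hq => rw [map_add, map_add, map_add, map_add, hp, hq]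
  | mul_X p i hp =>
    rw [map_mul, map_mul, map_mul, map_mul, hp, MvPolynomial.map_X, MvPolynomial.aeval_X, ev,
      MvPolynomial.eval₂Hom_X']

theorem ev_inj (h : Dj ι ι') (hy : AlgebraicIndependent k y) : Function.Injective (ev ι ι' y) := by
  have e : ∀ z, ev ι ι' y (MvPolynomial.algebraTensorAlgEquiv k M z) =
      pm ι ι' ((MvPolynomial.aeval y).toLinearMap.lTensor M z) := fun z => by
    induction z with
    | zero => simp
    | tmul a b =>
      rw [MvPolynomial.algebraTensorAlgEquiv_tmul, MvPolynomial.smul_eq_C_mul, map_mul, ev_C,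
        ev_map]
      rfl
    | add a b ha hb => rw [map_add, map_add, map_add, map_add, ha, hb]
  intro a b q
  obtain ⟨a, rfl⟩ := (MvPolynomial.algebraTensorAlgEquiv k M).surjective a
  obtain ⟨b, rfl⟩ := (MvPolynomial.algebraTensorAlgEquiv k M).surjective b
  rw [e, e] at q
  rw [Module.Flat.lTensor_preserves_injective_linearMap (M := M)
    (MvPolynomial.aeval y).toLinearMap (algebraicIndependent_iff_injective_aeval.1 hy) (h q)]

theorem ev_mem (a : MvPolynomial σ M) : ev ι ι' y a ∈ Bq ι ι' ⊤ ⊤ ∅ := by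
  induction a using MvPolynomial.induction_on with
  | C c => rw [ev_C]; exact Bq_l trivial
  | add p q hp hq => rw [map_add]; exact add_mem hp hq
  | mul_X p i hp =>
    rw [map_mul]
    refine mul_mem hp ?_
    rw [ev, MvPolynomial.eval₂Hom_X']
    exact Bq_r trivial

theorem ev_frac (hy : IntermediateField.adjoin k (Set.range y) = ⊤) {b : K}
    (hb : b ∈ Bq ι ι' ⊤ ⊤ ∅) :
    ∃ a s, IsU (Bq ι ι' ⊤ ⊤ ∅) (ev ι ι' y s) ∧ b * ev ι ι' y s = ev ι ι' y a := by
  rw [← Bq_top] at hb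
  obtain ⟨z, rfl⟩ := hb
  induction z with
  | zero => exact ⟨0, 1, by rw [map_one]; exact isU_one, by simp⟩
  | tmul m m' =>
    obtain ⟨r, s, rfl⟩ := (IntermediateField.mem_adjoin_range_iff k y m').1 (hy ▸ trivial)
    rcases eq_or_ne (MvPolynomial.aeval y s) 0 with s0 | s0
    · exact ⟨0, 1, by rw [map_one]; exact isU_one, by simp [s0]⟩
    have s1 := (map_ne_zero ι').2 s0
    refine ⟨MvPolynomial.C m * MvPolynomial.map (algebraMap k M) r,
      MvPolynomial.map (algebraMap k M) s, ?_, ?_⟩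
    · rw [ev_map]
      exact ⟨s1, Bq_r trivial, map_inv₀ ι' _ ▸ Bq_r trivial⟩
    · rw [map_mul, ev_C, ev_map, ev_map]
      change ι m * ι' _ * _ = _
      rw [map_div₀, mul_assoc, div_mul_cancel₀ _ s1]
  | add x z hx hz =>
    obtain ⟨a, s, hs, e⟩ := hx
    obtain ⟨a', s', hs', e'⟩ := hz
    refine ⟨a * s' + a' * s, s * s', by rw [map_mul]; exact hs.mul hs', ?_⟩
    rw [map_add, map_add, map_mul, map_mul, map_mul, ← e, ← e']
    ring

/-- A place of a chart with unique factorization is cut out by one function. -/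
theorem cut {B : Subalgebra k K} [UniqueFactorizationMonoid B] {P : Place k K}
    (hP : plO P ∈ Pts B) : ∃ f : K, f ≠ 0 ∧ P.ord f ≠ 0 ∧ ∀ P' : Place k K, plO P' ∈ Pts B →
      P'.ord f ≠ 0 → P' = P := by
  let I : Ideal B :=
    { carrier := {b | (b : K) ∈ mx (plO P)}
      add_mem' := fun ha hb => mx_add hP.1 ha hb
      zero_mem' := zero_mem_mx
      smul_mem' := fun c _ hb => mx_mul_left (hP.2.1 c.2) hb }
  have hI : I.IsPrime := ⟨fun e => one_not_mem_mx (show (1 : B) ∈ I from e ▸ trivial),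
    fun {a b} e => mx_or_of_mul (hP.2.1 a.2) (hP.2.1 b.2) e⟩
  have I0 : I ≠ ⊥ := by
    obtain ⟨t, ht⟩ := P.surj (WithZero.exp (-1))
    have t1 : t ∈ mx (plO P) := by
      rw [mem_mx_plO, ht, ← WithZero.exp_zero, WithZero.exp_lt_exp]
      omega
    have t0 : t ≠ 0 := fun e => by
      rw [e, map_zero] at ht
      exact WithZero.exp_ne_zero ht.symm
    obtain ⟨a, ha, b, -, hb, rfl⟩ := hP.2.2 t t1.1
    refine (Submodule.ne_bot_iff _).2 ⟨⟨a, ha⟩, ?_, fun e => t0 ?_⟩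
    · have := mx_mul_right t1 hb.2.1
      rwa [div_mul_cancel₀ _ hb.1] at this
    · rw [show a = 0 from congrArg Subtype.val e, zero_div]
  obtain ⟨f, hf, pf⟩ := hI.exists_mem_prime_of_ne_bot I0
  have f0 : (f : K) ≠ 0 := fun e => pf.ne_zero (Subtype.ext e)
  have := (Ideal.span_singleton_prime pf.ne_zero).2 pf
  obtain ⟨V, hV, h⟩ := exists_val_of B.val (Ideal.Quotient.mk (Ideal.span {f}))
    fun b e => by rw [show b = 0 from Subtype.ext e, map_zero]
  have key : ∀ Q : Place k K, plO Q ∈ Pts B → (f : K) ∈ mx (plO Q) →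
      ∀ c ∈ B, c ∈ mx V → c ∈ mx (plO Q) := fun Q hQ q c hc m => by
    obtain ⟨d, hd⟩ := Ideal.mem_span_singleton'.1
      (Ideal.Quotient.eq_zero_iff_mem.1 ((h ⟨c, hc⟩).2.1 m))
    rw [← show (d : K) * f = c from congrArg Subtype.val hd]
    exact mx_mul_left (hQ.2.1 d.2) q
  refine ⟨f, f0, ((mx_plO f0).1 hf).ne', fun P' hP' o => ?_⟩
  exact place_ext hP' hP hV.isLocalRing (fun c hc => (h ⟨c, hc⟩).1) f0
    ((h f).2.2 (Ideal.Quotient.eq_zero_iff_mem.2 (Ideal.mem_span_singleton_self f)))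
    (key P' hP' ((mx_plO f0).2 (lt_of_le_of_ne (mem_plO_ord.1 (hP'.2.1 f.2)) o.symm)))
    (key P hP hf)

end Ufd

theorem ufd_stmt : UfdStmt := fun _ _ _ _ _ _ _ _ _ _ _ _ _ ι ι' h _ y hy ht =>
  Ufd.of_frac (Ufd.ev ι ι' y) (Ufd.ev_inj ι ι' y h hy) _ (Ufd.ev_mem ι ι' y)
    fun _ hb => Ufd.ev_frac ι ι' y ht hb

theorem hz1_stmt : Hz1Stmt := fun _ _ _ _ _ _ _ _ _ _ _ _ _ ι ι' φ φ' v h hU => by
  have e : Bq ι ι' ⊤ ⊤ {v} = Bq ι ι' ⊤ ⊤ ∅ := by
    refine le_antisymm (Algebra.adjoin_le ?_) (Algebra.adjoin_mono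
      (Set.union_subset_union_right _ (Set.union_subset_union_right _ (Set.empty_subset _))))
    rintro _ (⟨a, ha, rfl⟩ | ⟨a, ha, rfl⟩ | rfl)
    · exact Bq_l ha
    · exact Bq_r ha
    · have q := h.eq
      rw [pow_one, ← eq_mul_inv_iff_mul_eq₀ ((map_ne_zero ι).2 h.ne), ← map_inv₀] at q
      rw [q]
      exact mul_mem (Bq_r trivial) (Bq_l trivial)
  refine ⟨fun _ => False, fun P hP => ?_⟩
  rw [e] at hP ⊢
  obtain ⟨f, f0, hf, H⟩ := Ufd.cut hP
  exact ⟨f, f0, hf, fun P' hP' ne o => (ne (H P' hP' o)).elim⟩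

end Pool.Agent.MP_20d318_ag.KK

end PartUfd

section PartCrq

/-! Row CRQ: local coordinates on the blow-up of a product. -/

set_option autoImplicit false
set_option linter.unusedSectionVars false

namespace Pool.Agent.MP_20d318_ag.KK

open Pool.Agent.MP_fd6584_ag.Fn Pool.Agent.CBk Polynomial
open Pool.Agent.MP_fd6584_ag.AG hiding deg_inv deg_congr deg_of_unit deg_mul deg_prod deg_zpow
  deg_eq_zero deg_nonneg deg_div deg_pow
open Pool.Agent.MP_20d318_ag.CH (Gens dt der_span gens_iff)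
open Pool.Agent.MP_20d318_ag.CH.CrdA (smem exch)

theorem crq_stmt : CrqStmt := by
  intro k K _ _ _ _ e N O G A s s' δ c hE hO hc hG hq hS
  obtain ⟨m, rfl⟩ : ∃ m, e = m + 1 := ⟨e - 1, by omega⟩
  have he : IsU O ((m + 1 : ℕ) : K) := by
    rcases hE with h | h <;> rw [h]
    · rw [Nat.cast_one]; exact isU_one
    · have := isU_const (O := O) (NeZero.ne (2 : k))
      rwa [map_ofNat] at this
  have hA : A ∈ O := hO.2.1 (Algebra.subset_adjoin (Or.inr rfl))
  have sp : ∀ T : Submodule O (Fin N → K), (∀ i, δ (c i) ∈ T) →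
      ∀ g ∈ insert s (insert s' G), δ g ∈ T := fun T h1 g hg => by
    obtain ⟨-, r, r1, r2⟩ := hG g hg
    rw [r2]
    exact T.sum_mem fun i _ => smem T (r1 i) (h1 i)
  have GG : ∀ T : Submodule O (Fin N → K), (∀ i, δ (c i) ∈ T) → δ A ∈ T → ∀ a ∈ O, δ a ∈ T :=
    fun T h1 h2 => der_span hO δ T (by
      rintro a (ha | rfl)
      exacts [sp T h1 a (Or.inr (Or.inr ha)), h2])
  have b1 : s ∈ O := (hG s (Or.inl rfl)).1
  have b2 : s' ∈ O := (hG s' (Or.inr (Or.inl rfl))).1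
  have w2 : A ^ m * s ∈ O := O.mul_mem (O.pow_mem hA m) b1
  have d : (((m + 1 : ℕ) : K) * (A ^ m * s)) • δ A = δ s' - A ^ (m + 1) • δ s := by
    rw [← hq, Derivation.leibniz, Derivation.leibniz_pow, Nat.add_sub_cancel,
      ← Nat.cast_smul_eq_nsmul K]
    module
  rw [Nat.add_sub_cancel]
  rcases isU_or_mx b2 with u1 | u1
  · rw [← hq, pow_succ', mul_assoc] at u1
    have u2 := IsU.of_mul hA w2 u1
    have u3 := IsU.of_mul w2 hA (by rwa [mul_comm])
    have h1 : ∀ i, δ (c i) ∈ Submodule.span O (Set.range fun i => δ (c i)) :=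
      fun i => Submodule.subset_span ⟨i, rfl⟩
    refine ⟨c, gens_iff.2 ⟨hc, GG _ h1 ?_⟩, ⟨_, u3, rfl⟩, fun ht => (ht.2 u2).elim⟩
    have h2 := smem _ (he.mul u3).inv_mem (Submodule.sub_mem _
      (sp _ h1 s' (Or.inr (Or.inl rfl))) (smem _ (O.pow_mem hA (m + 1)) (sp _ h1 s (Or.inl rfl))))
    rwa [← d, smul_smul, inv_mul_cancel₀ (he.mul u3).ne, one_smul] at h2
  · obtain ⟨r, r1, r2, i₀, r3⟩ := hS u1
    obtain ⟨a1, a2⟩ := exch (i₀ := i₀) hc hA w2 he r1 r3 (d.trans r2) GG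
    exact ⟨_, a1, a2, fun _ => ⟨i₀, Function.update_self ..⟩⟩

end Pool.Agent.MP_20d318_ag.KK

end PartCrq
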