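import Pool.Agent.MP_20d318_ag.KK.ESpec
import Pool.Agent.MP_20d318_ag.KK.RowsA
import Pool.Agent.MP_fd6584_ag.D.Tow

section PartHza

/-! Row HZA: the centre of a place on the base ring; places that are not split. -/

set_option autoImplicit false

namespace Pool.Agent.MP_20d318_ag.KK

open Pool.Agent.MP_fd6584_ag.Fn Pool.Agent.CBk Polynomial
open Pool.Agent.MP_fd6584_ag.AG hiding deg_inv deg_congr deg_of_unit deg_mul deg_prod deg_zpow
  deg_eq_zero deg_nonneg deg_div deg_pow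

namespace Hza

variable {k K : Type} [Field k] [Field K] [Algebra k K] {B C : Subalgebra k K} {v : K}

/-- `C = B + B v`, a direct sum. -/
structure Qd (B C : Subalgebra k K) (v : K) : Prop where
  le : B ≤ C
  mem : v ∈ C
  sq : v ^ 2 ∈ B
  dec : ∀ x ∈ C, ∃ a ∈ B, ∃ b ∈ B, x = a + b * v
  ns : ∀ a ∈ B, ∀ b ∈ B, b ≠ 0 → v ≠ a / b

theorem Qd.ind (h : Qd B C v) {a b : K} (ha : a ∈ B) (hb : b ∈ B) (e : a = b * v) :
    a = 0 ∧ b = 0 := by
  have : b = 0 := by_contra fun b0 => h.ns a ha b hb b0 (by rw [e, mul_div_cancel_left₀ _ b0])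
  exact ⟨by rw [e, this, zero_mul], this⟩

theorem pos {P : Place k K} {a : K} (h0 : a ≠ 0) (ha : a ∈ mx (plO P)) :
    ∃ n : ℕ, n ≠ 0 ∧ P.ord a = n := by
  obtain ⟨n, hn⟩ := Int.eq_ofNat_of_zero_le (mem_plO_ord.1 ha.1)
  exact ⟨n, fun e => CB.P.XCls.ord_ne h0 ha (by rw [hn, e]; rfl), hn⟩

theorem prime [UniqueFactorizationMonoid B] {O : Subalgebra k K} (hO : B ≤ O) (a : B) :
    a ≠ 0 → (a : K) ∈ mx O → ∃ f : B, Prime f ∧ (f : K) ∈ mx O := by
  induction a using UniqueFactorizationMonoid.induction_on_prime with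
  | h₁ => exact fun h => (h rfl).elim
  | h₂ x hx => exact fun _ h => (h.2 (((isU_iff_isUnit x).2 hx).mono hO)).elim
  | h₃ a p a0 hp ih =>
    exact fun _ h => (mx_or_of_mul (hO p.2) (hO a.2) h).elim (fun q => ⟨p, hp, q⟩) (ih a0)

theorem Qd.cen (h : Qd B C v) [UniqueFactorizationMonoid B] {P : Place k K}
    (hP : plO P ∈ Pts C) : ∃ f ∈ B, f ≠ 0 ∧ ∀ b ∈ B, b ∈ mx (plO P) ↔ b / f ∈ B := by
  have le : B ≤ plO P := h.le.trans hP.2.1
  have vm := hP.2.1 h.mem
  obtain ⟨g, hg⟩ : ∃ g, g ∉ plO P := by_contra fun q =>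
    plO_ne_top P (eq_top_iff.2 fun g _ => by_contra fun r => q ⟨g, r⟩)
  have g1 := (plO_isVal P).inv_mx hg
  obtain ⟨x, hx, y, -, hu, e⟩ := hP.2.2 _ g1.1
  have g0 : g⁻¹ ≠ 0 := inv_ne_zero fun q => hg (q ▸ zero_mem _)
  have x1 : x ∈ mx (plO P) := by
    rw [← div_mul_cancel₀ x hu.1, ← e]
    exact mx_mul_right g1 hu.mem
  obtain ⟨a, ha, b, hb, rfl⟩ := h.dec x hx
  have x0 : a + b * v ≠ 0 := fun q => g0 (by rw [e, q, zero_div])
  have x2 : a - b * v ≠ 0 := fun q => by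
    obtain ⟨rfl, rfl⟩ := h.ind ha hb (sub_eq_zero.1 q)
    simp at x0
  have e2 : (a + b * v) * (a - b * v) = a ^ 2 - b ^ 2 * v ^ 2 := by ring
  obtain ⟨f, fp, fm⟩ := prime le ⟨_, e2 ▸ sub_mem (pow_mem ha 2) (mul_mem (pow_mem hb 2) h.sq)⟩
    (fun q => mul_ne_zero x0 x2 (congrArg Subtype.val q))
    (mx_mul_right x1 (sub_mem (le ha) (mul_mem (le hb) vm)))
  have f0 : (f : K) ≠ 0 := fun q => fp.ne_zero (Subtype.ext q)
  refine ⟨f, f.2, f0, fun c hc => ⟨fun cm => by_contra fun hn => ?_, fun q => ?_⟩⟩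
  · have c0 : c ≠ 0 := fun q => hn (by rw [q, zero_div]; exact zero_mem _)
    obtain ⟨m, -, hm⟩ := pos f0 fm
    obtain ⟨n, n0, hn'⟩ := pos c0 cm
    obtain ⟨x, hx, y, hy, hu, e⟩ := hP.2.2 (c ^ m / f ^ n) (mem_plO_ord.2 (by
      rw [P.ord_div (pow_ne_zero _ c0) (pow_ne_zero _ f0), P.ord_pow, P.ord_pow, hm, hn', mul_comm,
        sub_self]))
    obtain ⟨x0, a0, x1, a1, rfl⟩ := h.dec x hx
    obtain ⟨y0, b0, y1, b1, rfl⟩ := h.dec y hy
    rw [div_eq_div_iff (pow_ne_zero _ f0) hu.1] at e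
    have key : ∀ x ∈ B, ∀ y ∈ B, c ^ m * y - x * f ^ n = 0 → y ∈ mx (plO P) := fun x a y b q => by
      have d : f ∣ (⟨c, hc⟩ : B) ^ m * ⟨y, b⟩ := (dvd_pow_self f n0).trans
        ⟨⟨x, a⟩, Subtype.ext (by push_cast; linear_combination q)⟩
      rcases fp.dvd_or_dvd d with d | ⟨z, d⟩
      · obtain ⟨z, d⟩ := fp.dvd_of_dvd_pow d
        refine (hn ?_).elim
        rw [show c = f * z from congrArg Subtype.val d, mul_div_cancel_left₀ _ f0]
        exact z.2
      · rw [show y = f * z from congrArg Subtype.val d]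
        exact mx_mul_right fm (le z.2)
    have s := fun x (a : x ∈ B) y (b : y ∈ B) =>
      sub_mem (mul_mem (pow_mem hc m) b) (mul_mem a (pow_mem f.2 n))
    have i := h.ind (s _ a0 _ b0) (neg_mem (s _ a1 _ b1)) (by linear_combination e)
    exact hu.not_mx (mx_add hP.1 (key _ a0 _ b0 i.1)
      (mx_mul_right (key _ a1 _ b1 (neg_eq_zero.1 i.2)) vm))
  · rw [← div_mul_cancel₀ c f0]
    exact mx_mul_left (le q) fm

end Hza

theorem hza_stmt : HzaStmt := by
  intro k M M' K _ _ _ _ _ _ _ _ _ ι ι' φ φ' v he hf hu P hP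
  have s : v ^ 2 ∈ Bq ι ι' ⊤ ⊤ ∅ := by
    rw [eq_div_of_mul_eq ((map_ne_zero ι).2 he.ne) he.eq, div_eq_mul_inv, ← map_inv₀]
    exact mul_mem (Bq_r trivial) (Bq_l trivial)
  have h : Hza.Qd (Bq ι ι' ⊤ ⊤ ∅) (Bq ι ι' ⊤ ⊤ {v}) v := by
    refine ⟨Algebra.adjoin_mono (Set.union_subset_union_right _
      (Set.union_subset_union_right _ (Set.empty_subset _))), Bq_g rfl, s, fun x hx => ?_,
      fun a ha b hb b0 e => hf.ns rfl ⟨a, ha, b, hb, b0, e⟩⟩
    induction hx using Algebra.adjoin_induction with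
    | mem x hx =>
      rcases hx with ⟨a, ha, rfl⟩ | ⟨a, ha, rfl⟩ | rfl
      · exact ⟨_, Bq_l ha, 0, zero_mem _, by simp⟩
      · exact ⟨_, Bq_r ha, 0, zero_mem _, by simp⟩
      · exact ⟨0, zero_mem _, 1, one_mem _, by simp⟩
    | algebraMap r => exact ⟨_, Subalgebra.algebraMap_mem _ r, 0, zero_mem _, by simp⟩
    | add x y _ _ p q =>
      obtain ⟨a, ha, b, hb, rfl⟩ := p
      obtain ⟨c, hc, d, hd, rfl⟩ := q
      exact ⟨_, add_mem ha hc, _, add_mem hb hd, by ring⟩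
    | mul x y _ _ p q =>
      obtain ⟨a, ha, b, hb, rfl⟩ := p
      obtain ⟨c, hc, d, hd, rfl⟩ := q
      exact ⟨_, add_mem (mul_mem ha hc) (mul_mem (mul_mem hb hd) s), _,
        add_mem (mul_mem ha hd) (mul_mem hb hc), by ring⟩
  obtain ⟨f, f1, f0, f2⟩ := h.cen hP
  refine ⟨f, ⟨f1, f0, f2⟩, fun ns P' hP' fm => plO_inj fun g hg => ?_⟩
  obtain ⟨x, hx, y, hy, u, rfl⟩ := hP'.2.2 g hg
  refine (isU_of_not_mx (hP.2.1 hy) fun ym => u.not_mx ?_).div_mem (hP.2.1 hx)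
  obtain ⟨a, ha, b, hb, rfl⟩ := h.dec y hy
  have bm : b ∈ mx (plO P) := by_contra fun q =>
    ns ⟨-a, neg_mem ha, b, hb, q, by rwa [sub_neg_eq_add, add_comm]⟩
  have am : a ∈ mx (plO P) := by
    simpa using mx_sub' hP.1 ym (mx_mul_right bm (hP.2.1 h.mem))
  have t : ∀ c ∈ Bq ι ι' ⊤ ⊤ ∅, c ∈ mx (plO P) → c ∈ mx (plO P') := fun c hc cm => by
    rw [← div_mul_cancel₀ c f0]
    exact mx_mul_left (hP'.2.1 (h.le ((f2 c hc).1 cm))) fm
  exact mx_add hP'.1 (t a ha am) (mx_mul_right (t b hb bm) (hP'.2.1 h.mem))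

end Pool.Agent.MP_20d318_ag.KK

end PartHza

section PartDja

/-! Linear disjointness passes to algebraic extensions of a factor. -/

set_option autoImplicit false
set_option linter.unusedSectionVars false

open scoped TensorProduct

namespace Pool.Agent.MP_20d318_ag.KK

open Polynomial

namespace Dja

variable {k M M' N : Type} [Field k] [Field M] [Field M'] [Field N] [Algebra k M]
  [Algebra k M'] [Algebra k N]

theorem integral (τ : M' →ₐ[k] N)
    (h : ∀ x : N, ∃ p : M'[X], p ≠ 0 ∧ p.eval₂ (τ : M' →+* N) x = 0) :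
    (Algebra.TensorProduct.map (AlgHom.id k M) τ : M ⊗[k] M' →+* M ⊗[k] N).IsIntegral := by
  intro z
  induction z with
  | zero => exact RingHom.isIntegralElem_zero _
  | add a b ha hb => exact ha.add _ hb
  | tmul a x =>
    have e : a ⊗ₜ[k] x = (Algebra.TensorProduct.map (AlgHom.id k M) τ : M ⊗[k] M' →+* M ⊗[k] N)
        (a ⊗ₜ[k] 1) * (1 ⊗ₜ[k] x) := by simp
    rw [e]
    refine (RingHom.isIntegralElem_map _).mul _ ?_
    obtain ⟨p, p0, hp⟩ := h x
    let i' : M' →+* M ⊗[k] M' := (Algebra.TensorProduct.includeRight : M' →ₐ[k] M ⊗[k] M')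
    let i : N →+* M ⊗[k] N := (Algebra.TensorProduct.includeRight : N →ₐ[k] M ⊗[k] N)
    refine ⟨(p * C p.leadingCoeff⁻¹).map i', (monic_mul_leadingCoeff_inv p0).map _, ?_⟩
    have e2 : (Algebra.TensorProduct.map (AlgHom.id k M) τ : M ⊗[k] M' →+* M ⊗[k] N).comp i' =
        i.comp (τ : M' →+* N) := RingHom.ext fun m => by simp [i, i']
    rw [eval₂_map, e2]
    change eval₂ _ (i x) _ = 0
    rw [← hom_eval₂, eval₂_mul, hp, zero_mul, map_zero]

end Dja

theorem dja_stmt : DjaStmt := by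
  intro k M N K _ _ _ _ _ _ _ _ _ ι ρ M' _ _ τ hd h
  have : NoZeroDivisors (M ⊗[k] N) := td
  have : IsDomain (M ⊗[k] N) := NoZeroDivisors.to_isDomain _
  let f : M ⊗[k] M' →+* M ⊗[k] N := Algebra.TensorProduct.map (AlgHom.id k M) τ
  have e : ∀ z, pm ι ρ (f z) = pm ι (ρ.comp τ) z := fun z => by
    induction z with
    | zero => simp
    | tmul a b => rfl
    | add a b ha hb => rw [map_add, map_add, map_add, ha, hb]
  let _ := f.toAlgebra
  have : Algebra.IsIntegral (M ⊗[k] M') (M ⊗[k] N) := ⟨Dja.integral τ h⟩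
  refine (RingHom.injective_iff_ker_eq_bot (pm ι ρ)).2
    (Ideal.eq_bot_of_comap_eq_bot (R := M ⊗[k] M') (eq_bot_iff.2 fun z hz => ?_))
  exact hd (((e z).symm.trans hz).trans (map_zero _).symm)

end Pool.Agent.MP_20d318_ag.KK

end PartDja

section PartEmb

/-! The cover by a twisted elliptic curve exists. -/

set_option autoImplicit false
set_option linter.unusedSectionVars false

open scoped TensorProduct

namespace Pool.Agent.MP_20d318_ag.KK

open Pool.Agent.MP_fd6584_ag.Fn Pool.Agent.CBk Polynomial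
open Pool.Agent.MP_fd6584_ag.AG hiding deg_inv deg_congr deg_of_unit deg_mul deg_prod deg_zpow
  deg_eq_zero deg_nonneg deg_div deg_pow
open Pool.Agent.MP_20d318_ag.CH (MW cb Der)
open IntermediateField (adjoin)

namespace EMB

section ten

variable {k B B' C K L : Type} [Field k] [CommRing B] [CommRing B'] [CommRing C] [Field K]
  [Field L] [Algebra k B] [Algebra k B'] [Algebra k C] [Algebra k K] [Algebra k L]

theorem pm_post (ι : B →ₐ[k] K) (ι' : B' →ₐ[k] K) (a : K →ₐ[k] L) (z : B ⊗[k] B') :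
    pm (a.comp ι) (a.comp ι') z = a (pm ι ι' z) := by
  induction z with
  | zero => simp
  | tmul x y => rw [pm_tmul, pm_tmul, map_mul]; rfl
  | add x y hx hy => rw [map_add, map_add, map_add, hx, hy]

theorem dj_post {ι : B →ₐ[k] K} {ι' : B' →ₐ[k] K} (a : K →ₐ[k] L) :
    Dj (a.comp ι) (a.comp ι') ↔ Dj ι ι' :=
  ⟨fun h x y e => h (by rw [pm_post, pm_post, e]),
    fun h x y e => h (a.injective (by rwa [pm_post, pm_post] at e))⟩

theorem dj_pre {ι : B →ₐ[k] K} {ι' : B' →ₐ[k] K} (h : Dj ι ι') (t : C →ₐ[k] B')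
    (ht : Function.Injective t) : Dj ι (ι'.comp t) := by
  have e : ∀ z, pm ι (ι'.comp t) z = pm ι ι' (t.toLinearMap.lTensor B z) := fun z => by
    induction z with
    | zero => simp
    | tmul a b => rfl
    | add a b ha hb => rw [map_add, map_add, map_add, ha, hb]
  exact fun x y q => Module.Flat.lTensor_preserves_injective_linearMap (M := B) t.toLinearMap ht
    (h (by rw [← e, ← e, q]))

theorem tr_ten {k₁ : Type} [Field k₁] [Algebra k k₁] [Algebra k₁ L] [IsScalarTower k k₁ L]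
    {ι : B →ₐ[k] L} {z : L} (h : Dj ι ((aeval z : k₁[X] →ₐ[k₁] L).restrictScalars k))
    (P : (B ⊗[k] k₁)[X])
    (hP : P.eval₂ (pm ι (IsScalarTower.toAlgHom k k₁ L) : B ⊗[k] k₁ →+* L) z = 0) : P = 0 := by
  have e : ∀ (i : ℕ) (c : B ⊗[k] k₁), pm ι ((aeval z : k₁[X] →ₐ[k₁] L).restrictScalars k)
      (((monomial i : k₁ →ₗ[k₁] k₁[X]).restrictScalars k).lTensor B c) =
      pm ι (IsScalarTower.toAlgHom k k₁ L) c * z ^ i := fun i c => by
    induction c with
    | zero => simp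
    | tmul a b => simp [pm_tmul, aeval_monomial, mul_assoc]
    | add a b ha hb => rw [map_add, map_add, map_add, ha, hb, add_mul]
  have e2 : ∀ (i j : ℕ) (c : B ⊗[k] k₁), ((lcoeff k₁ j).restrictScalars k).lTensor B
      (((monomial i : k₁ →ₗ[k₁] k₁[X]).restrictScalars k).lTensor B c) =
      if i = j then c else 0 := fun i j c => by
    induction c with
    | zero => simp
    | tmul a b => by_cases q : i = j <;> simp [coeff_monomial, q]
    | add a b ha hb => rw [map_add, map_add, ha, hb]; split_ifs <;> simp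
  have h0 : ∑ i ∈ P.support, ((monomial i : k₁ →ₗ[k₁] k₁[X]).restrictScalars k).lTensor B
      (P.coeff i) = 0 := h (by
    rw [map_zero, map_sum, ← hP, eval₂_eq_sum, Polynomial.sum]
    exact Finset.sum_congr rfl fun i _ => e i _)
  ext j
  have h1 := congrArg (((lcoeff k₁ j).restrictScalars k).lTensor B) h0
  rw [map_zero, map_sum, Finset.sum_congr rfl fun i _ => e2 i j _, Finset.sum_ite_eq'] at h1
  by_cases q : j ∈ P.support
  · rwa [if_pos q] at h1
  · exact notMem_support_iff.1 q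

end ten

theorem tr_ext {R F L : Type} [CommRing R] [Field F] [Field L] (π : R →+* F)
    (hπ : Function.Injective π) (ε : F →+* L) (z : L) (h1 : ∀ x, ∃ a b, x = π a / π b)
    (h2 : ∀ P : R[X], P.eval₂ (ε.comp π) z = 0 → P = 0) (p : F[X]) (hp : p.eval₂ ε z = 0) :
    p = 0 := by
  let _ := π.toAlgebra
  let _ := ε.toAlgebra
  let _ := (ε.comp π).toAlgebra
  have : IsScalarTower R F L := IsScalarTower.of_algebraMap_eq fun _ => rfl
  have : IsDomain R := hπ.isDomain π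
  have : Algebra.IsAlgebraic R F := ⟨fun x => by
    obtain ⟨a, b, rfl⟩ := h1 x
    rw [div_eq_mul_inv]
    exact (isAlgebraic_algebraMap a).mul (isAlgebraic_algebraMap b).inv⟩
  exact transcendental_iff.1 ((transcendental_iff.2 h2 : Transcendental R z).extendScalars F) p hp

theorem exists_lift {A N W : Type} [Field A] [Field N] [Field W] [IsAlgClosed W] (τ : A →+* N)
    (b : A →+* W) (h : ∀ x : N, ∃ p : A[X], p ≠ 0 ∧ p.eval₂ τ x = 0) :
    ∃ ρ : N →+* W, ∀ m, ρ (τ m) = b m := by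
  let _ := τ.toAlgebra
  let _ := b.toAlgebra
  have : Algebra.IsAlgebraic A N := ⟨h⟩
  exact ⟨(IsAlgClosed.lift : N →ₐ[A] W), fun m => (IsAlgClosed.lift : N →ₐ[A] W).commutes m⟩

variable {k k₁ M M' N K L : Type} [Field k] [Field k₁] [Field M] [Field M'] [Field N]
  [Field K] [Field L] [Algebra k k₁] [Algebra k M] [Algebra k M'] [Algebra k N]
  [Algebra k K] [Algebra k L] [Algebra k₁ N] [Algebra k₁ L] [IsScalarTower k k₁ N]
  [IsScalarTower k k₁ L] {ι : M →ₐ[k] K} {ι' : M' →ₐ[k] K} {φ : M} {φ' : M'} {v : K}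
  {τ : M' →ₐ[k] N} {s r : N} {l : k₁}

theorem alg0 (h : Ext φ φ' ι ι' v 2) : Algebra.IsAlgebraic (Bq ι ι' ⊤ ⊤ ∅) K := ⟨fun x => by
  have a1 : ∀ y ∈ Bq ι ι' ⊤ ⊤ ∅, IsAlgebraic (Bq ι ι' ⊤ ⊤ ∅) y := fun y hy =>
    isAlgebraic_algebraMap (⟨y, hy⟩ : Bq ι ι' ⊤ ⊤ ∅)
  have hx : x ∈ adjoin k (Set.range ι ∪ (Set.range ι' ∪ {v})) := h.top ▸ IntermediateField.mem_top
  induction hx using IntermediateField.adjoin_induction with
  | mem y hy =>
    rcases hy with ⟨m, rfl⟩ | ⟨m, rfl⟩ | rfl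
    · exact a1 _ (Bq_l trivial)
    · exact a1 _ (Bq_r trivial)
    · refine IsAlgebraic.of_pow two_pos ?_
      rw [eq_div_of_mul_eq ((map_ne_zero ι).2 h.ne) h.eq, div_eq_mul_inv]
      exact (a1 _ (Bq_r trivial)).mul (a1 _ (Bq_l trivial)).inv
  | algebraMap c => exact a1 _ (Subalgebra.algebraMap_mem _ c)
  | add _ _ _ _ hx hy => exact hx.add hy
  | inv _ _ hx => exact hx.inv
  | mul _ _ _ _ hx hy => exact hx.mul hy⟩

theorem alg1 (h : Ext φ φ' ι ι' v 2) (a : K →+* L)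
    (ha : ∀ x : L, ∃ p : K[X], p ≠ 0 ∧ p.eval₂ a x = 0) (x : L) :
    ∃ p : K[X], p ≠ 0 ∧ (∀ i, p.coeff i ∈ Bq ι ι' ⊤ ⊤ ∅) ∧ p.eval₂ a x = 0 := by
  let _ := a.toAlgebra
  have : Algebra.IsAlgebraic K L := ⟨ha⟩
  have := alg0 h
  obtain ⟨p, p0, hp⟩ := (Algebra.IsAlgebraic.trans (Bq ι ι' ⊤ ⊤ ∅) K L).isAlgebraic x
  refine ⟨p.map (algebraMap _ K), (Polynomial.map_ne_zero_iff Subtype.val_injective).2 p0,
    fun i => by rw [coeff_map]; exact (p.coeff i).2, ?_⟩
  rw [eval₂_map]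
  exact hp

theorem rat0 {g : k₁[X]} (q : Rf φ' τ s r g) (ρ : N →ₐ[k₁] L) (x : N) :
    ∃ p p' : k₁[X], p' ≠ 0 ∧ (x ≠ 0 → p ≠ 0) ∧ ρ x = aeval (ρ s) p / aeval (ρ s) p' ∧
      aeval (ρ s) p' ≠ 0 := by
  obtain ⟨p, p', e⟩ := (IntermediateField.mem_adjoin_simple_iff k₁ x).1
    (q.top ▸ IntermediateField.mem_top : x ∈ adjoin k₁ {s})
  by_cases h : aeval s p' = 0
  · have x0 : x = 0 := by rw [e, h, div_zero]
    exact ⟨0, 1, one_ne_zero, fun n => (n x0).elim, by simp [x0], by simp⟩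
  · refine ⟨p, p', fun n => h (by rw [n, map_zero]), fun n m => n (by simp [e, m]), ?_, ?_⟩
    · rw [e, map_div₀, aeval_algHom_apply, aeval_algHom_apply]
    · rw [aeval_algHom_apply]
      exact (map_ne_zero ρ).2 h

theorem core (h : Ext φ φ' ι ι' v 2) (q : Rf φ' τ s r (X * (X - 1) * (X - C l))) (l0 : l ≠ 0)
    (l1 : l ≠ 1) (a : K →ₐ[k] L) (ρ : N →ₐ[k₁] L) (hc : ∀ m, ρ (τ m) = a (ι' m))
    (hd : Dj (a.comp ι) (ρ.restrictScalars k))
    (ha : ∀ x : L, ∃ p : K[X], p ≠ 0 ∧ p.eval₂ (a : K →+* L) x = 0)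
    (ht : adjoin k₁ (Set.range (a.comp ι) ∪ {ρ s, a v * a (ι φ) / ρ r}) = ⊤) :
    ∃ (F : IntermediateField k₁ L) (μ : M →ₐ[k] F),
      Cov ι ι' v φ μ F.val a l (ρ s) (a v * a (ι φ) / ρ r) := by
  let F := adjoin k₁ (Set.range (a.comp ι))
  have mF : ∀ m, a (ι m) ∈ F := fun m => IntermediateField.subset_adjoin _ _ ⟨m, rfl⟩
  let μ : M →ₐ[k] F :=
    { toFun := fun m => ⟨a (ι m), mF m⟩
      map_one' := Subtype.ext (by simp)
      map_mul' := fun x y => Subtype.ext (by simp)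
      map_zero' := Subtype.ext (by simp)
      map_add' := fun x y => Subtype.ext (by simp)
      commutes' := fun c => Subtype.ext ((a.comp ι).commutes c) }
  have e1 : (F.val.restrictScalars k).comp μ = a.comp ι := rfl
  have e2 : (F.val.restrictScalars k).comp (IsScalarTower.toAlgHom k k₁ F) =
      IsScalarTower.toAlgHom k k₁ L := rfl
  have e3 : (ρ.restrictScalars k).comp (IsScalarTower.toAlgHom k k₁ N) =
      IsScalarTower.toAlgHom k k₁ L := AlgHom.ext fun c => ρ.commutes c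
  have e4 : (ρ.restrictScalars k).comp ((aeval s : k₁[X] →ₐ[k₁] N).restrictScalars k) =
      (aeval (ρ s) : k₁[X] →ₐ[k₁] L).restrictScalars k :=
    AlgHom.ext fun p => (aeval_algHom_apply ρ s p).symm
  have d1 : Dj μ (IsScalarTower.toAlgHom k k₁ F) := by
    rw [← dj_post (F.val.restrictScalars k), e1, e2, ← e3]
    exact dj_pre hd _ (algebraMap k₁ N).injective
  have rt : ∀ x, Rt μ (IsScalarTower.toAlgHom k k₁ F) x := by
    rintro ⟨x, hx⟩
    rw [FLD.rt_iff]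
    induction hx using IntermediateField.adjoin_induction with
    | mem y hy =>
      obtain ⟨m, rfl⟩ := hy
      exact IntermediateField.subset_adjoin _ _ (Or.inl ⟨m, rfl⟩)
    | algebraMap c => exact IntermediateField.subset_adjoin _ _ (Or.inr ⟨c, rfl⟩)
    | add _ _ _ _ hx hy => exact add_mem hx hy
    | inv _ _ hx => exact inv_mem hx
    | mul _ _ _ _ hx hy => exact mul_mem hx hy
  have r0 : ρ r ≠ 0 := (map_ne_zero ρ).2 q.ne
  refine ⟨F, μ, ⟨Or.inr rfl, l0, l1, (map_ne_zero μ).2 h.ne, ?_, ?_, ?_⟩, d1, rt, fun _ => rfl,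
    fun m => ?_, ?_, alg1 h _ ha, fun p => ?_⟩
  · refine tr_ext (pm μ (IsScalarTower.toAlgHom k k₁ F) : M ⊗[k] k₁ →+* F) d1 _ _ (fun x => ?_)
      fun P hP => tr_ten (ι := a.comp ι) (z := ρ s) ?_ P ?_
    · obtain ⟨b, hb, c, hc, -, e⟩ := rt x
      rw [← Bq_top] at hb hc
      obtain ⟨b, rfl⟩ := hb
      obtain ⟨c, rfl⟩ := hc
      exact ⟨b, c, e⟩
    · rw [← e4]
      exact dj_pre hd _ (transcendental_iff_injective.1 q.tr)
    · rw [← hP, ← e1, ← e2]
      exact congrArg (fun t => P.eval₂ t (ρ s)) (RingHom.ext fun z => pm_post _ _ _ z)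
  · have e5 : a v ^ 2 * a (ι φ) = ρ r ^ 2 * cb l (ρ s) := by
      rw [← map_pow, ← map_mul, h.eq, ← hc, q.eq, map_mul, map_pow, ← aeval_algHom_apply]
      simp [cb]
    show (a v * a (ι φ) / ρ r) ^ 2 = a (ι φ) ^ (2 - 1) * cb l (ρ s)
    rw [div_pow, div_eq_iff (pow_ne_zero 2 r0)]
    linear_combination a (ι φ) * e5
  · rw [eq_top_iff, ← ht]
    refine IntermediateField.adjoin.mono _ _ _ (Set.union_subset_union_left _ ?_)
    rintro _ ⟨m, rfl⟩
    exact ⟨μ m, rfl⟩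
  · obtain ⟨p, p', n, -, e, -⟩ := rat0 q ρ (τ m)
    exact ⟨p, p', n, hc m ▸ e⟩
  · obtain ⟨p, p', n, n', e, n''⟩ := rat0 q ρ r
    refine ⟨p, p', n' q.ne, n, ?_⟩
    show a v * a (ι φ) * aeval (ρ s) p' = _
    rw [← (eq_div_iff n'').1 e]
    field_simp
  · obtain ⟨t, t0, ht⟩ := q.alg (aeval s p)
    refine ⟨t, t0, ?_⟩
    have := congrArg (ρ : N →+* L) ht
    rw [map_zero, hom_eval₂] at this
    rw [aeval_algHom_apply, ← this]
    exact congrArg (fun u => t.eval₂ u (ρ (aeval s p))) (RingHom.ext fun m => (hc m).symm)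

theorem mid (h : Ext φ φ' ι ι' v 2) (q : Rf φ' τ s r (X * (X - 1) * (X - C l))) (l0 : l ≠ 0)
    (l1 : l ≠ 1) (a : K →ₐ[k] L) (ρ : N →ₐ[k₁] L) (hc : ∀ m, ρ (τ m) = a (ι' m))
    (hd : Dj (a.comp ι) (ρ.restrictScalars k))
    (ha : ∀ x : L, ∃ p : K[X], p ≠ 0 ∧ p.eval₂ (a : K →+* L) x = 0) :
    ∃ (E : IntermediateField k₁ L) (F : IntermediateField k₁ E) (μ : M →ₐ[k] F) (j : K →ₐ[k] E)
      (z w : E), Cov ι ι' v φ μ F.val j l z w := by
  let E := adjoin k₁ (Set.range (a.comp ι) ∪ {ρ s, a v * a (ι φ) / ρ r})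
  have m1 : ∀ m, a (ι m) ∈ E := fun m => IntermediateField.subset_adjoin _ _ (Or.inl ⟨m, rfl⟩)
  have m2 : ρ s ∈ E := IntermediateField.subset_adjoin _ _ (Or.inr (Or.inl rfl))
  have m3 : a v * a (ι φ) / ρ r ∈ E := IntermediateField.subset_adjoin _ _ (Or.inr (Or.inr rfl))
  have m4 : ∀ x, ρ x ∈ E := fun x => by
    have : adjoin k₁ {s} ≤ E.comap ρ := IntermediateField.adjoin_simple_le_iff.2 m2
    exact this (q.top ▸ IntermediateField.mem_top)
  have m5 : a v ∈ E := by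
    have := div_mem (mul_mem m3 (m4 r)) (m1 φ)
    rwa [div_mul_cancel₀ _ ((map_ne_zero ρ).2 q.ne),
      mul_div_cancel_right₀ _ ((map_ne_zero a).2 ((map_ne_zero ι).2 h.ne))] at this
  have m6 : ∀ x, a x ∈ E := fun x =>
    (FLD.eq_top h (F := (E.restrictScalars k).comap a) m1 (fun m => by
      have := m4 (τ m)
      rwa [hc] at this) m5).ge (IntermediateField.mem_top (x := x))
  let j : K →ₐ[k] E :=
    { toFun := fun m => ⟨a m, m6 m⟩
      map_one' := Subtype.ext (by simp)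
      map_mul' := fun x y => Subtype.ext (by simp)
      map_zero' := Subtype.ext (by simp)
      map_add' := fun x y => Subtype.ext (by simp)
      commutes' := fun c => Subtype.ext (a.commutes c) }
  let ρ' : N →ₐ[k₁] E := ρ.codRestrict E.toSubalgebra m4
  obtain ⟨F, μ, H⟩ := core h q l0 l1 j ρ' (fun m => Subtype.ext (hc m))
    ((dj_post (E.val.restrictScalars k)).1 hd) (fun x => by
      obtain ⟨p, p0, hp⟩ := ha x
      refine ⟨p, p0, Subtype.ext ?_⟩
      exact (hom_eval₂ p (j : K →+* E) (E.val : E →+* L) x).trans hp) (by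
      apply IntermediateField.lift_injective E
      rw [IntermediateField.lift_adjoin, IntermediateField.lift_top, Set.image_union,
        ← Set.range_comp, Set.image_pair]
      rfl)
  exact ⟨E, F, μ, j, _, _, H⟩

end EMB

open EMB in
theorem emb_stmt : EmbStmt := by
  intro hD k M M' K _ _ _ _ _ _ _ _ _ ι ι' φ φ' v h ⟨k₁, N, _, _, _, _, _, _, τ, s, r, l, q, l0, l1⟩
  let a := IsScalarTower.toAlgHom k K (AlgebraicClosure K)
  obtain ⟨ρ, hρ⟩ := exists_lift (τ : M' →+* N) (a.comp ι' : M' →+* AlgebraicClosure K) q.alg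
  let _ : Algebra k₁ (AlgebraicClosure K) := (ρ.comp (algebraMap k₁ N)).toAlgebra
  have : IsScalarTower k k₁ (AlgebraicClosure K) := IsScalarTower.of_algebraMap_eq fun c => by
    show _ = ρ (algebraMap k₁ N (algebraMap k k₁ c))
    rw [← IsScalarTower.algebraMap_apply, ← τ.commutes c]
    exact ((a.comp ι').commutes c).symm.trans (hρ _).symm
  let ρ' : N →ₐ[k₁] AlgebraicClosure K := ⟨ρ, fun _ => rfl⟩
  have e : (ρ'.restrictScalars k).comp τ = a.comp ι' := AlgHom.ext hρ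
  obtain ⟨E, F, μ, j, z, w, H⟩ := mid h q l0 l1 a ρ' hρ
    (hD k M N _ (a.comp ι) (ρ'.restrictScalars k) M' τ (e ▸ (dj_post a).2 h.dj) q.alg)
    fun x => Algebra.IsAlgebraic.isAlgebraic (R := K) x
  exact ⟨k₁, F, E, _, _, _, _, _, _, _, _, inferInstance, inferInstance, μ, F.val, j, l, z, w, H⟩

end Pool.Agent.MP_20d318_ag.KK

end PartEmb

section PartFv

/-! Valuation rings over split places contain the constant field of the cover. -/

set_option autoImplicit false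
set_option linter.unusedSectionVars false

namespace Pool.Agent.MP_20d318_ag.KK

open Pool.Agent.MP_fd6584_ag.Fn Pool.Agent.CBk Polynomial
open Pool.Agent.MP_fd6584_ag.AG hiding deg_inv deg_congr deg_of_unit deg_mul deg_prod deg_zpow
  deg_eq_zero deg_nonneg deg_div deg_pow
open Pool.Agent.MP_20d318_ag.CH (MW cb Der)

namespace Fvl

section val

variable {k K R : Type} [Field k] [Field K] [Algebra k K] [CommRing R] {V : Subalgebra k K}

theorem ev_mem (σ : R →+* K) {y : K} (hy : y ∈ V) {q : R[X]} (h : ∀ i, σ (q.coeff i) ∈ V) :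
    q.eval₂ σ y ∈ V := by
  rw [eval₂_eq_sum_range]
  exact sum_mem fun i _ => mul_mem (h i) (pow_mem hy i)

theorem ev_mx (hV : IsLocalRing V) (σ : R →+* K) {y : K} (hy : y ∈ V) {q : R[X]}
    (h : ∀ i, σ (q.coeff i) ∈ mx V) : q.eval₂ σ y ∈ mx V := by
  rw [eval₂_eq_sum_range]
  exact mx_sum hV fun i _ => mx_mul_right (h i) (pow_mem hy i)

theorem low (σ : R →+* K) {y : K} (hy : y ∈ mx V) (y0 : y ≠ 0) (q : R[X]) :
    q ≠ 0 → (∀ i, σ (q.coeff i) ∈ V) → q.eval₂ σ y = 0 →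
      ∃ i, q.coeff i ≠ 0 ∧ σ (q.coeff i) ∈ mx V := by
  induction q using degree_lt_wf.induction with
  | _ q ih =>
  intro q0 h e
  have h1 : ∀ i, σ (q.divX.coeff i) ∈ V := fun i => by rw [coeff_divX]; exact h _
  have h2 : q.divX.eval₂ σ y * y + σ (q.coeff 0) = 0 := by
    rw [← e]
    conv_rhs => rw [← q.divX_mul_X_add, eval₂_add, eval₂_mul, eval₂_X, eval₂_C]
  by_cases c0 : q.coeff 0 = 0
  · rw [c0, map_zero, add_zero, mul_eq_zero] at h2
    have d0 : q.divX ≠ 0 := fun d => q0 (by rw [← q.divX_mul_X_add, d, c0]; simp)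
    obtain ⟨i, i0, i1⟩ := ih _ (degree_divX_lt q0) d0 h1 (h2.resolve_right y0)
    rw [coeff_divX] at i0 i1
    exact ⟨_, i0, i1⟩
  · refine ⟨0, c0, ?_⟩
    rw [eq_neg_of_add_eq_zero_right h2]
    exact mx_neg (mx_mul_left (ev_mem σ hy.1 h1) hy)

theorem unit {N : Type} [Field N] (hV : IsVal V) (σ : N →+* K) (hσ : ∀ m, σ m ∈ V) {y : K}
    (y0 : y ≠ 0) {q : N[X]} (q0 : q ≠ 0) (e : q.eval₂ σ y = 0) : IsU V y := by
  have hy : y ∈ V := by
    refine hV.nrm y ⟨(q * C q.leadingCoeff⁻¹).map (σ.codRestrict V hσ),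
      (monic_mul_leadingCoeff_inv q0).map _, ?_⟩
    rw [eval₂_map, show (algebraMap V K).comp (σ.codRestrict V hσ) = σ from rfl, eval₂_mul, e,
      zero_mul]
  refine isU_of_not_mx hy fun m => ?_
  obtain ⟨i, i0, i1⟩ := low σ m y0 q q0 (fun _ => hσ _) e
  exact i1.2 ⟨(map_ne_zero σ).2 i0, hσ _, map_inv₀ σ _ ▸ hσ _⟩

theorem odd {κ : Type} [Field κ] {A B T : κ[X]} {c : κ} (A0 : A ≠ 0) (hT : T.natDegree = 3)
    (e : A ^ 2 * T = B ^ 2 * C c) : False := by
  have T0 : T ≠ 0 := fun h => by simp [h] at hT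
  have h0 : B ^ 2 * C c ≠ 0 := e ▸ mul_ne_zero (pow_ne_zero 2 A0) T0
  have h1 := congrArg natDegree e
  rw [natDegree_mul (pow_ne_zero 2 A0) T0, natDegree_mul (left_ne_zero_of_mul h0)
    (right_ne_zero_of_mul h0), natDegree_pow, natDegree_pow, natDegree_C, hT] at h1
  omega

end val

section cover

variable {k k₁ M M' F K K₁ : Type} [Field k] [Field k₁] [Field M] [Field M'] [Field F] [Field K]
  [Field K₁] [Algebra k k₁] [Algebra k M] [Algebra k M'] [Algebra k F] [Algebra k K] [Algebra k K₁]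
  [Algebra k₁ F] [Algebra k₁ K₁] [IsScalarTower k k₁ F] [IsScalarTower k k₁ K₁]
  {ι : M →ₐ[k] K} {ι' : M' →ₐ[k] K} {v : K} {φ : M} {μ : M →ₐ[k] F} {ε : F →ₐ[k₁] K₁}
  {j : K →ₐ[k] K₁} {l : k₁} {z w : K₁}

/-- The ring generated by both factors. -/
abbrev DD (k₁ : Type) [Field k₁] [Algebra k k₁] [Algebra k₁ F] [IsScalarTower k k₁ F]
    (μ : M →ₐ[k] F) : Subalgebra k F := Bq μ (IsScalarTower.toAlgHom k k₁ F) ⊤ ⊤ ∅

/-- The constants. -/
def dl (μ : M →ₐ[k] F) : k₁ →+* DD k₁ μ :=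
  (algebraMap k₁ F).codRestrict (DD k₁ μ) fun c =>
    Bq_r (ι' := IsScalarTower.toAlgHom k k₁ F) (a := c) Algebra.mem_top

/-- Evaluation at `z`. -/
noncomputable def pe (μ : M →ₐ[k] F) (ε : F →ₐ[k₁] K₁) (z : K₁) : (DD k₁ μ)[X] →ₐ[k] K₁ :=
  XAlg.ev ((ε.restrictScalars k).comp (DD k₁ μ).val) z

theorem pe_C (d : DD k₁ μ) : pe μ ε z (C d) = ε d := XAlg.ev_C _ _ _

theorem pe_map (q : k₁[X]) : pe μ ε z (q.map (dl μ)) = aeval z q := by
  rw [pe, XAlg.ev_eq, eval₂_map, aeval_def]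
  congr 1
  ext c
  exact ε.commutes c

theorem pe_inj (h : Tr ε z) (g : (DD k₁ μ)[X]) (e : pe μ ε z g = 0) : g = 0 := by
  refine (Polynomial.map_eq_zero_iff (f := ((DD k₁ μ).val : DD k₁ μ →+* F))
    Subtype.val_injective).1 (h _ ?_)
  rw [eval₂_map]
  exact e

theorem aeval_ne (h : Tr ε z) (μ : M →ₐ[k] F) {q : k₁[X]} (q0 : q ≠ 0) : aeval z q ≠ 0 :=
  fun e => q0 ((Polynomial.map_eq_zero_iff (dl μ).injective).1
    (pe_inj (μ := μ) h _ (by rw [pe_map, e])))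

theorem rep (h : Cov ι ι' v φ μ ε j l z w) {b : K} (hb : b ∈ Bq ι ι' ⊤ ⊤ ∅) :
    ∃ (g : (DD k₁ μ)[X]) (q : k₁[X]), q ≠ 0 ∧ j b * aeval z q = pe μ ε z g := by
  have lf : ∀ m, ∃ (g : (DD k₁ μ)[X]) (q : k₁[X]), q ≠ 0 ∧
      j (ι m) * aeval z q = pe μ ε z g := fun m =>
    ⟨C ⟨μ m, Bq_l Algebra.mem_top⟩, 1, one_ne_zero, by rw [pe_C, map_one, mul_one, h.com]⟩
  induction hb using Algebra.adjoin_induction with
  | mem x hx =>
    rcases hx with ⟨m, -, rfl⟩ | ⟨m, -, rfl⟩ | hx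
    · exact lf m
    · obtain ⟨p, q, q0, e⟩ := h.rat m
      exact ⟨p.map (dl μ), q, q0, by
        rw [pe_map, e, div_mul_cancel₀ _ (aeval_ne h.ext.tr μ q0)]⟩
    · exact hx.elim
  | algebraMap c => exact ι.commutes c ▸ lf _
  | add x y _ _ hx hy =>
    obtain ⟨g, q, q0, e⟩ := hx
    obtain ⟨g', q', q0', e'⟩ := hy
    refine ⟨g * q'.map (dl μ) + g' * q.map (dl μ), q * q', mul_ne_zero q0 q0', ?_⟩
    rw [map_add (pe μ ε z), map_mul (pe μ ε z), map_mul (pe μ ε z), pe_map, pe_map, ← e, ← e',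
      map_add, map_mul]
    ring
  | mul x y _ _ hx hy =>
    obtain ⟨g, q, q0, e⟩ := hx
    obtain ⟨g', q', q0', e'⟩ := hy
    refine ⟨g * g', q * q', mul_ne_zero q0 q0', ?_⟩
    rw [map_mul (pe μ ε z), ← e, ← e', map_mul, map_mul]
    ring

theorem cen {P : Place k K} {f : K} (hf : Cen ι ι' (plO P) f) (le : Bq ι ι' ⊤ ⊤ ∅ ≤ plO P)
    {W : Subalgebra k K₁} (h1 : ∀ b ∈ Bq ι ι' ⊤ ⊤ ∅, j b ∈ W)
    (h2 : ∀ b ∈ Bq ι ι' ⊤ ⊤ ∅, j b ∈ mx W → b ∈ mx (plO P)) (n : ℕ) :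
    ∀ b ∈ Bq ι ι' ⊤ ⊤ ∅, b ≠ 0 → P.ord b < n → j b ∈ mx W → j f ∈ mx W := by
  obtain ⟨f0, f1, f2⟩ := hf
  have f3 : P.ord f ≠ 0 :=
    CB.P.XCls.ord_ne f1 ((f2 f f0).2 (by rw [div_self f1]; exact one_mem _))
  have f4 : 0 ≤ P.ord f := mem_plO_ord.1 (le f0)
  induction n with
  | zero => exact fun b hb _ o _ => absurd (mem_plO_ord.1 (le hb)) (not_le.2 o)
  | succ n ih =>
    intro b hb b0 o m
    have h3 := (f2 b hb).1 (h2 b hb m)
    rw [← mul_div_cancel₀ b f1, map_mul] at m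
    refine (mx_or_of_mul (h1 f f0) (h1 _ h3) m).elim id
      (ih _ h3 (div_ne_zero b0 f1) ?_)
    rw [P.ord_div b0 f1]
    push_cast at o
    omega

end cover

end Fvl

open Fvl in
theorem fv_stmt : FvStmt := by
  intro k k₁ M M' F K K₁ _ _ _ _ _ _ _ _ _ _ _ _ _ _ _ _ _ _ _ ι ι' v φ φ' μ ε j l z w hE h hc
    P V hP hs hV hj
  obtain ⟨f, hf⟩ := hc P hP
  have loc := hV.isLocalRing
  have le : Bq ι ι' ⊤ ⊤ ∅ ≤ plO P := le_trans (Algebra.adjoin_mono
    (Set.union_subset_union_right _ (Set.union_subset_union_right _ (Set.empty_subset _)))) hP.2.1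
  have jV : ∀ b ∈ plO P, j b ∈ V := fun b hb => by rw [← hj] at hb; exact hb
  have u1 : ∀ p : k₁[X], p ≠ 0 → IsU V (aeval z p) := fun p p0 => by
    obtain ⟨q, q0, e⟩ := h.algN p
    exact unit hV (j.comp ι' : M' →+* K₁) (fun m => jV (ι' m) (le (Bq_r Algebra.mem_top)))
      (aeval_ne h.ext.tr μ p0) q0 e
  have zV : z ∈ V := by simpa using (u1 X X_ne_zero).mem
  have dV : ∀ d ∈ DD k₁ μ, ε d ∈ V := fun d hd => by
    refine (Algebra.adjoin_le ?_ : DD k₁ μ ≤ V.comap (ε.restrictScalars k)) hd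
    rintro _ (⟨m, -, rfl⟩ | ⟨c, -, rfl⟩ | hx)
    · exact show ε (μ m) ∈ V from h.com m ▸ jV _ (le (Bq_l Algebra.mem_top))
    · change ε (algebraMap k₁ F c) ∈ V
      rw [ε.commutes]
      rcases eq_or_ne c 0 with rfl | c0
      · rw [map_zero]; exact zero_mem _
      · simpa using (u1 (C c) (C_ne_zero.2 c0)).mem
    · exact hx.elim
  refine ⟨fun x => ?_, u1⟩
  obtain ⟨a, ha, d, hd, d0, rfl⟩ := h.rt x
  rw [map_div₀]
  refine (isU_of_not_mx (dV d hd) fun dm => ?_).div_mem (dV a ha)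
  let χ : DD k₁ μ →+* IsLocalRing.ResidueField V := (IsLocalRing.residue V).comp
    (((ε : F →+* K₁).comp (DD k₁ μ).val).codRestrict V fun a => dV a a.2)
  have hχ : ∀ a : DD k₁ μ, χ a = 0 ↔ ε a ∈ mx V := fun a =>
    (IsLocalRing.residue_eq_zero_iff _).trans (mem_mx_iff (O := V) ⟨ε a, dV a a.2⟩).symm
  obtain ⟨W, hW, w1⟩ := exists_val_of (pe μ ε z) (mapRingHom χ) fun g e => by
    rw [pe_inj h.ext.tr g e, map_zero]
  simp only [coe_mapRingHom] at w1
  have u2 : ∀ p : k₁[X], p ≠ 0 → IsU W (aeval z p) := fun p p0 => by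
    rw [← pe_map (μ := μ) (ε := ε)]
    refine isU_of_not_mx (w1 _).1 fun m => p0 ?_
    have := (w1 _).2.1 m
    rwa [Polynomial.map_map, Polynomial.map_eq_zero] at this
  have h1 : ∀ b ∈ Bq ι ι' ⊤ ⊤ ∅, j b ∈ W := fun b hb => by
    obtain ⟨g, q, q0, e⟩ := rep h hb
    rw [eq_div_of_mul_eq (u2 q q0).ne e]
    exact (u2 q q0).div_mem (w1 g).1
  have h2 : ∀ b ∈ Bq ι ι' ⊤ ⊤ ∅, j b ∈ mx W → b ∈ mx (plO P) := fun b hb m => by
    obtain ⟨g, q, q0, e⟩ := rep h hb
    have g0 := (w1 g).2.1 (e ▸ mx_mul_right m (u2 q q0).mem)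
    rw [← hj, mem_mx_comap, eq_div_of_mul_eq (u2 q q0).ne e]
    refine mx_div (ev_mx loc _ zV fun i => (hχ _).1 ?_) (u1 q q0)
    rw [← coeff_map, g0, coeff_zero]
  have dW : ε d ∈ mx W := by
    have := (w1 (C ⟨d, hd⟩)).2.2 (by rw [Polynomial.map_C, (hχ _).2 dm, C_0])
    rwa [pe_C] at this
  obtain ⟨p, p0, pc, pe0⟩ := h.alg (ε d)
  obtain ⟨i, i0, i1⟩ := low (j : K →+* K₁) dW ((map_ne_zero ε).2 d0) p p0
    (fun i => h1 _ (pc i)) pe0
  have fW := cen hf le h1 h2 ((P.ord (p.coeff i)).natAbs + 1) _ (pc i) i0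
    (by push_cast; exact lt_of_le_of_lt (le_abs_self _) (lt_add_one _)) i1
  obtain ⟨b, hb, c, hc, cm, sp⟩ := hs
  have vP : v ∈ plO P := hP.2.1 (Bq_g rfl)
  have φB : ι φ ∈ Bq ι ι' ⊤ ⊤ ∅ := Bq_l Algebra.mem_top
  have EB : c ^ 2 * ι' φ' - b ^ 2 * ι φ ∈ Bq ι ι' ⊤ ⊤ ∅ :=
    sub_mem (mul_mem (pow_mem hc 2) (Bq_r Algebra.mem_top)) (mul_mem (pow_mem hb 2) φB)
  have EW : j (c ^ 2 * ι' φ' - b ^ 2 * ι φ) ∈ mx W := by
    have h3 := (hf.2.2 _ EB).1 (by
      rw [← hE.eq, show c ^ 2 * (v ^ 2 * ι φ) - b ^ 2 * ι φ =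
        (c * v - b) * ((c * v + b) * ι φ) by ring]
      exact mx_mul_right sp (mul_mem (add_mem (mul_mem (le hc) vP) (le hb)) (le φB)))
    rw [← mul_div_cancel₀ (c ^ 2 * ι' φ' - b ^ 2 * ι φ) hf.2.1, map_mul]
    exact mx_mul_right fW (h1 _ h3)
  obtain ⟨p₁, q₁, p10, q10, e1⟩ := h.vw
  obtain ⟨gc, qc, qc0, ec⟩ := rep h hc
  obtain ⟨gb, qb, qb0, eb⟩ := rep h hb
  have ψ0 : ε (μ φ) ≠ 0 := (map_ne_zero ε).2 h.ext.φne
  have e2 : w ^ 2 = ε (μ φ) * aeval z (X * (X - C 1) * (X - C l)) := by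
    rw [h.ext.eq]; simp [cb]
  have e3 : j (ι' φ') * aeval z q₁ ^ 2 = aeval z p₁ ^ 2 * aeval z (X * (X - C 1) * (X - C l)) := by
    refine mul_left_cancel₀ ψ0 ?_
    rw [← hE.eq, map_mul, map_pow, h.com]
    linear_combination (j v * ε (μ φ) * aeval z q₁ + aeval z p₁ * w) * e1 + aeval z p₁ ^ 2 * e2
  have h4 := (w1 ((gc * (p₁ * qb).map (dl μ)) ^ 2 * (X * (X - C 1) * (X - C l)).map (dl μ) -
      (gb * (q₁ * qc).map (dl μ)) ^ 2 * C ⟨μ φ, Bq_l Algebra.mem_top⟩)).2.1 (by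
    have h5 := mx_mul_right EW (pow_mem (u2 _ (mul_ne_zero q10 (mul_ne_zero qc0 qb0))).mem 2)
    convert h5 using 1
    simp only [map_sub (pe μ ε z), map_mul (pe μ ε z), map_pow (pe μ ε z), pe_map, pe_C, ← ec,
      ← eb, map_sub j, map_mul j, map_pow j, h.com]
    rw [map_mul _ p₁, map_mul _ q₁, map_mul _ q₁, map_mul _ qc]
    linear_combination (-(j c * aeval z qc * aeval z qb) ^ 2) * e3)
  rw [Polynomial.map_sub, sub_eq_zero, Polynomial.map_mul, Polynomial.map_mul (q := C _),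
    Polynomial.map_pow, Polynomial.map_pow, Polynomial.map_C] at h4
  refine odd ?_ ?_ h4
  · refine fun e => ((isU_of_not_mx (h1 c hc) fun m => cm (h2 c hc m)).mul
      ((u2 qc qc0).mul (u2 _ (mul_ne_zero p10 qb0)))).not_mx ?_
    have := (w1 _).2.2 e
    rwa [map_mul, pe_map, ← ec, mul_assoc] at this
  · rw [Polynomial.map_map, natDegree_map, natDegree_mul (mul_ne_zero X_ne_zero
      (X_sub_C_ne_zero 1)) (X_sub_C_ne_zero l), natDegree_mul X_ne_zero (X_sub_C_ne_zero 1),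
      natDegree_X, natDegree_X_sub_C, natDegree_X_sub_C]

end Pool.Agent.MP_20d318_ag.KK

end PartFv

section PartHzb

/-! Split places: a function with a zero at one split place only. -/

set_option autoImplicit false
set_option linter.unusedSectionVars false

namespace Pool.Agent.MP_20d318_ag.KK

open Pool.Agent.MP_fd6584_ag.Fn Pool.Agent.CBk Polynomial
open Pool.Agent.MP_fd6584_ag.AG hiding deg_inv deg_congr deg_of_unit deg_mul deg_prod deg_zpow
  deg_eq_zero deg_nonneg deg_div deg_pow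
open Pool.Agent.MP_20d318_ag.CH (MW cb Der)

namespace HzbRow

section norm

variable {k K L : Type} [Field k] [Field K] [Field L] [Algebra k K] [Algebra k L] [Algebra K L]
  [IsScalarTower k K L]

theorem over_eq {A : Subalgebra k K} (hA : IsVal A) {V : Subalgebra k L}
    (h1 : ∀ a ∈ A, algebraMap K L a ∈ V) (h2 : ∀ a ∈ mx A, algebraMap K L a ∈ mx V) :
    V.comap (IsScalarTower.toAlgHom k K L) = A :=
  (hA.eq_of_dom ⟨h1, fun u hu hV => isU_of_not_mx hu fun hm =>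
    (h2 u hm).2 ((isU_comap _).1 hV)⟩).symm

theorem exists_over {A : Subalgebra k K} (hA : IsVal A) :
    ∃ V : Subalgebra k L, IsVal V ∧ V.comap (IsScalarTower.toAlgHom k K L) = A := by
  have := hA.isLocalRing
  obtain ⟨V, hV, h⟩ := exists_val_of ((IsScalarTower.toAlgHom k K L).comp A.val)
    (IsLocalRing.residue A) fun b hb => by
      have : b = 0 := Subtype.ext ((map_eq_zero (algebraMap K L)).1 hb)
      rw [this, map_zero]
  exact ⟨V, hV, over_eq hA (fun a ha => (h ⟨a, ha⟩).1) fun a ha => (h ⟨a, ha.1⟩).2.2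
    ((IsLocalRing.residue_eq_zero_iff _).2 ((mem_mx_iff ⟨a, ha.1⟩).1 ha))⟩

theorem integral [Algebra.IsAlgebraic K L] (P : Place k K) {h : L}
    (H : ∀ V : Subalgebra k L, IsVal V → V.comap (IsScalarTower.toAlgHom k K L) = plO P → h ∈ V) :
    IsIntegral (plO P) h := by
  by_contra hn
  have : IsIntegrallyClosedIn (integralClosure (plO P) L).toSubring L :=
    Subring.isIntegrallyClosedIn_iff.2 fun {x} hx =>
      isIntegral_trans (A := integralClosure (plO P) L) x hx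
  obtain ⟨W, hW, hx⟩ := Subring.exists_le_valuationSubring_of_isIntegrallyClosedIn
    (R := (integralClosure (plO P) L).toSubring) (x := h) hn
  have h1 : ∀ a ∈ plO P, algebraMap K L a ∈ W := fun a ha =>
    hW ((integralClosure (plO P) L).algebraMap_mem ⟨a, ha⟩)
  let V : Subalgebra k L :=
    { W.toSubring.toSubsemiring with
      algebraMap_mem' := fun c => by
        rw [IsScalarTower.algebraMap_apply k K L]
        exact h1 _ ((plO P).algebraMap_mem c) }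
  by_cases ht : V.comap (IsScalarTower.toAlgHom k K L) = ⊤
  · exact hx (mem_of_isIntegral (A := K) W
      (fun a => show a ∈ V.comap (IsScalarTower.toAlgHom k K L) from ht ▸ Algebra.mem_top)
      (Algebra.IsAlgebraic.isAlgebraic h).isIntegral)
  · exact hx (H V W.mem_or_inv_mem (plO_max h1 ht))

theorem norm {A : Subalgebra k K} (hA : IsVal A) {h : L} (H : IsIntegral A h) :
    (minpoly K h).coeff 0 ∈ A ∧ ((minpoly K h).coeff 0 ∈ mx A ↔
      ∃ V : Subalgebra k L, IsVal V ∧ V.comap (IsScalarTower.toAlgHom k K L) = A ∧ h ∈ mx V) := by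
  have := hA.isLocalRing
  have : IsFractionRing A K := IsFractionRing.of_field A K fun z => by
    obtain ⟨a, ha, d, hd, -, h⟩ := hA.frac z
    exact ⟨⟨a, ha⟩, ⟨d, hd⟩, h⟩
  have : IsIntegrallyClosed A := (isIntegrallyClosed_iff K).2 fun {x} hx => ⟨⟨x, hA.nrm x hx⟩, rfl⟩
  have e : (minpoly K h).coeff 0 = ((minpoly A h).coeff 0 : A) := by
    rw [minpoly.isIntegrallyClosed_eq_field_fractions' K H, coeff_map]; rfl
  rw [e]
  refine ⟨Subtype.prop _, fun hm => ?_, ?_⟩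
  · obtain ⟨V, hV, q⟩ := exists_val_of ((aeval h : A[X] →ₐ[A] L).restrictScalars k)
      ((IsLocalRing.residue A).comp constantCoeff) fun b hb => by
        obtain ⟨c, rfl⟩ := minpoly.isIntegrallyClosed_dvd H (p := b) hb
        rw [map_mul, RingHom.comp_apply, constantCoeff_apply,
          (IsLocalRing.residue_eq_zero_iff _).2 ((mem_mx_iff _).1 hm), zero_mul]
    have q1 : ∀ a : A, ((aeval h : A[X] →ₐ[A] L).restrictScalars k) (C a) = algebraMap K L a :=
      fun a => aeval_C h a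
    refine ⟨V, hV, over_eq hA (fun a ha => q1 ⟨a, ha⟩ ▸ (q _).1) fun a ha =>
      q1 ⟨a, ha.1⟩ ▸ (q _).2.2 ?_, ?_⟩
    · rw [RingHom.comp_apply, constantCoeff_apply, coeff_C_zero]
      exact (IsLocalRing.residue_eq_zero_iff _).2 ((mem_mx_iff ⟨a, ha.1⟩).1 ha)
    · have := (q X).2.2 (by simp)
      rwa [AlgHom.restrictScalars_apply, aeval_X] at this
  · rintro ⟨V, hV, rfl, hm⟩
    refine (mem_mx_comap _).2 ?_
    set m := minpoly (V.comap (IsScalarTower.toAlgHom k K L)) h with hm0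
    have h1 : aeval h m.divX ∈ V := by
      rw [aeval_eq_sum_range]
      refine sum_mem fun i _ => ?_
      rw [Algebra.smul_def]
      exact mul_mem (m.divX.coeff i).2 (pow_mem hm.1 i)
    have h2 : aeval h (X * m.divX + C (m.coeff 0)) = 0 := by
      rw [X_mul_divX_add]; exact minpoly.aeval _ h
    rw [map_add, map_mul, aeval_X, aeval_C, add_eq_zero_iff_neg_eq] at h2
    exact (show _ = IsScalarTower.toAlgHom k K L _ from h2) ▸ mx_neg (mx_mul_right hm h1)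

end norm

section geom

variable {k k₁ M M' F K K₁ : Type} [Field k] [Field k₁] [Field M] [Field M'] [Field F]
  [Field K] [Field K₁] [Algebra k k₁] [Algebra k M] [Algebra k M'] [Algebra k F]
  [Algebra k K] [Algebra k K₁] [Algebra k₁ F] [Algebra k₁ K₁] [IsScalarTower k k₁ F]
  {ι : M →ₐ[k] K} {ι' : M' →ₐ[k] K} {v : K} {φ : M} {μ : M →ₐ[k] F} {ε : F →ₐ[k₁] K₁}
  {j : K →ₐ[k] K₁} {l : k₁} {z w : K₁}

theorem centre [IsScalarTower k k₁ K₁] (c : Cov ι ι' v φ μ ε j l z w) {V : Subalgebra k K₁}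
    (hV : IsVal V) (h1 : ∀ x, ε x ∈ V) (h2 : ∀ p : k₁[X], p ≠ 0 → IsU V (aeval z p)) :
    ∃ O ∈ Pts (Algebra.adjoin k₁ (Set.range ε ∪ {z, w})), (∀ x ∈ O, x ∈ V) ∧
      (∀ x ∈ O, x ∈ mx O ↔ x ∈ mx V) ∧ (∀ b ∈ Bq ι ι' ⊤ ⊤ {v}, j b ∈ O) ∧ cb l z ∉ mx O := by
  let V₁ : Subalgebra k₁ K₁ :=
    { V.toSubsemiring with algebraMap_mem' := fun a => ε.commutes a ▸ h1 _ }
  have hV₁ : IsVal V₁ := hV
  have hz : z ∈ V := by simpa using (h2 X X_ne_zero).2.1
  have hc : IsU V (cb l z) := by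
    have := h2 (X * (X - 1) * (X - C l)) (mul_ne_zero (mul_ne_zero X_ne_zero
      (by simpa using X_sub_C_ne_zero (1 : k₁))) (X_sub_C_ne_zero l))
    simpa [cb] using this
  have hw : w ∈ V := by_contra fun hn => by
    have a1 := hV.inv_mx hn
    have w0 : w ≠ 0 := fun e => hn (e ▸ zero_mem _)
    have a2 : w ^ 2 ∈ V := by rw [c.ext.eq]; exact mul_mem (pow_mem (h1 _) _) hc.2.1
    have a3 := mx_mul_left a2 (mx_pow a1 two_ne_zero)
    rw [← mul_pow, mul_inv_cancel₀ w0, one_pow] at a3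
    exact one_not_mem_mx a3
  have le : Algebra.adjoin k₁ (Set.range ε ∪ {z, w}) ≤ V₁ := Algebra.adjoin_le (by
    rintro _ (⟨x, rfl⟩ | rfl | rfl)
    exacts [h1 x, hz, hw])
  obtain ⟨O, hO, hd⟩ := exists_ctr hV₁.isLocalRing le
  have e1 : ∀ x, ε x ∈ O := fun x => hO.2.1 (Algebra.subset_adjoin (Or.inl ⟨x, rfl⟩))
  have e2 : z ∈ O := hO.2.1 (Algebra.subset_adjoin (Or.inr (Or.inl rfl)))
  have e3 : w ∈ O := hO.2.1 (Algebra.subset_adjoin (Or.inr (Or.inr rfl)))
  have e4 : ∀ p : k₁[X], aeval z p ∈ O := fun p => by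
    rw [aeval_eq_sum_range]
    exact sum_mem fun i _ => O.smul_mem (pow_mem e2 i) _
  have e5 : ∀ p : k₁[X], p ≠ 0 → IsU O (aeval z p) := fun p hp => hd.2 _ (e4 p) (h2 p hp)
  refine ⟨O, hO, fun x hx => hd.1 hx, fun x hx => ⟨fun a => hd.mx a, fun a => mx_of_le hd.1 hx a⟩,
    fun b hb => ?_, fun a => hc.not_mx (hd.mx a)⟩
  refine (Algebra.adjoin_le (S := (O.restrictScalars k).comap j) ?_) hb
  rintro _ (⟨m, -, rfl⟩ | ⟨m, -, rfl⟩ | rfl)
  · exact show j _ ∈ O from c.com m ▸ e1 _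
  · obtain ⟨p, q, q0, e⟩ := c.rat m
    exact show j _ ∈ O from e ▸ (e5 q q0).div_mem (e4 p)
  · obtain ⟨p, q, -, q0, e⟩ := c.vw
    have u : IsU O (ε (μ φ) * aeval z q) := IsU.mul
      ⟨(map_ne_zero ε).2 c.ext.φne, e1 _, map_inv₀ ε (μ φ) ▸ e1 _⟩ (e5 q q0)
    rw [mul_assoc, ← eq_div_iff u.1] at e
    exact show j _ ∈ O from e ▸ u.div_mem (mul_mem (e4 p) e3)

end geom

end HzbRow

theorem hzb_stmt : HzbStmt := by
  intro hor k k₁ M M' F K K₁ _ _ _ _ _ _ _ _ _ _ _ _ _ _ _ _ _ _ _ ι ι' v φ φ' μ ε j l z w _ c mw fv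
    P hP sP
  let _ : Algebra K K₁ := (j : K →+* K₁).toAlgebra
  have : IsScalarTower k K K₁ := IsScalarTower.of_algebraMap_eq fun a => (j.commutes a).symm
  have ej : IsScalarTower.toAlgHom k K K₁ = j := AlgHom.ext fun _ => rfl
  have : Algebra.IsAlgebraic K K₁ := ⟨fun x => by
    obtain ⟨p, p0, -, e⟩ := c.alg x
    exact ⟨p, p0, e⟩⟩
  have ctr := fun (Q : Place k K) hQ sQ (V : Subalgebra k K₁) (hV : IsVal V)
    (e : V.comap j = plO Q) => HzbRow.centre c hV (fv Q V hQ sQ hV e).1 (fv Q V hQ sQ hV e).2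
  obtain ⟨V, hV, e⟩ := HzbRow.exists_over (L := K₁) (plO_isVal P)
  rw [ej] at e
  obtain ⟨O, hO, -, o2, o3, -⟩ := ctr P hP sP V hV e
  have o5 : ∀ b ∈ Bq ι ι' ⊤ ⊤ {v}, b ∈ mx (plO P) ↔ j b ∈ mx O := fun b hb => by
    rw [o2 _ (o3 b hb), ← e, mem_mx_comap]
  have hne : O ≠ ⊤ := fun ht => plO_ne_top P (eq_top_iff.2 fun x _ => by
    rcases plO_isVal P x with hx | hx
    · exact hx
    · rcases eq_or_ne x 0 with rfl | x0
      · exact zero_mem _
      obtain ⟨a, ha, b, hb, hu, q⟩ := hP.2.2 _ hx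
      have a0 : a ≠ 0 := fun a0 => inv_ne_zero x0 (by rw [q, a0, zero_div])
      have ua : IsU (plO P) a := isU_of_not_mx (hP.2.1 ha) fun m => a0 (by
        have := (o5 a ha).1 m
        rwa [ht, mem_mx_top, map_eq_zero] at this)
      rw [← inv_inv x, q, inv_div]
      exact ua.div_mem hu.2.1)
  obtain ⟨h, h1, h0, h2, h3⟩ := hor k₁ F K₁ (μ φ) ε l z w 2 c.ext mw O hO hne
  have int : ∀ Q : Place k K, plO Q ∈ Pts (Bq ι ι' ⊤ ⊤ {v}) → Spl ι ι' v (plO Q) →
      IsIntegral (plO Q) h := fun Q hQ sQ => HzbRow.integral Q fun W hW q => by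
    obtain ⟨O', hO', a, -⟩ := ctr Q hQ sQ W hW (ej ▸ q)
    exact a h (hO'.2.1 h1)
  refine ⟨(minpoly K h).coeff 0, minpoly.coeff_zero_ne_zero
    (Algebra.IsAlgebraic.isAlgebraic h).isIntegral h0,
    (HzbRow.norm (plO_isVal P) (int P hP sP)).2.2 ⟨V, hV, ej ▸ e, (o2 h h2.1).1 h2⟩,
    fun Q hQ sQ hn => ?_⟩
  obtain ⟨n1, n2⟩ := HzbRow.norm (plO_isVal Q) (int Q hQ sQ)
  refine isU_of_not_mx n1 fun m => hn ?_
  obtain ⟨W, hW, q, hm⟩ := n2.1 m
  rw [ej] at q
  obtain ⟨O', hO', -, a2, a3, a4⟩ := ctr Q hQ sQ W hW q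
  obtain rfl := (h3 O' hO' ((a2 h (hO'.2.1 h1)).2 hm)).resolve_right a4
  refine plO_inj (See.Pts_ext hQ hP fun b hb => ?_).le
  rw [o5 b hb, a2 _ (a3 b hb), ← q, mem_mx_comap]

end Pool.Agent.MP_20d318_ag.KK

end PartHzb

section PartEcq

/-! Row ECQ: the Legendre form. -/

set_option autoImplicit false
set_option linter.unusedSectionVars false

namespace Pool.Agent.MP_20d318_ag.KK

open Polynomial

namespace Ecq

variable {k₁ N : Type} [Field k₁] [Field N] [Algebra k₁ N]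

theorem mv {s s' : N} (hs : Transcendental k₁ s) (top : IntermediateField.adjoin k₁ {s} = ⊤)
    (h : s ∈ IntermediateField.adjoin k₁ {s'}) :
    Transcendental k₁ s' ∧ IntermediateField.adjoin k₁ {s'} = ⊤ := by
  refine ⟨fun h' => hs ?_, ?_⟩
  · have := IntermediateField.isAlgebraic_adjoin_simple h'.isIntegral
    exact IntermediateField.isAlgebraic_iff.1 (this.isAlgebraic ⟨s, h⟩)
  · rw [eq_top_iff, ← top]
    exact IntermediateField.adjoin_simple_le_iff.2 h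

/-- The conclusion. -/
def Leg (k₁ : Type) {N : Type} [Field k₁] [Field N] [Algebra k₁ N] (ψ : N) : Prop :=
  ∃ (z r : N) (l : k₁), Transcendental k₁ z ∧ IntermediateField.adjoin k₁ {z} = ⊤ ∧ r ≠ 0 ∧
    ψ = r ^ 2 * aeval z (X * (X - 1) * (X - C l)) ∧ l ≠ 0 ∧ l ≠ 1

theorem three [IsAlgClosed k₁] {ψ s r : N} {c a₁ a₂ a₃ : k₁} (hs : Transcendental k₁ s)
    (top : IntermediateField.adjoin k₁ {s} = ⊤) (hr : r ≠ 0) (hc : c ≠ 0) (h12 : a₁ ≠ a₂)
    (h13 : a₁ ≠ a₃) (h23 : a₂ ≠ a₃) (h : ψ = r ^ 2 * (algebraMap k₁ N c *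
      ((s - algebraMap k₁ N a₁) * (s - algebraMap k₁ N a₂) * (s - algebraMap k₁ N a₃)))) :
    Leg k₁ ψ := by
  have e0 : a₂ - a₁ ≠ 0 := sub_ne_zero.2 h12.symm
  have e1 : algebraMap k₁ N a₂ - algebraMap k₁ N a₁ ≠ 0 := by
    rw [← map_sub]; exact (_root_.map_ne_zero _).2 e0
  obtain ⟨q, hq⟩ := IsAlgClosed.exists_eq_mul_self (c * (a₂ - a₁) ^ 3)
  have q0 : q ≠ 0 := by
    rintro rfl
    exact mul_ne_zero hc (pow_ne_zero 3 e0) (by rw [hq, mul_zero])
  have hq' := congrArg (algebraMap k₁ N) hq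
  rw [map_mul, map_mul, map_pow, map_sub] at hq'
  obtain ⟨z, hz⟩ : ∃ z, z = (s - algebraMap k₁ N a₁) / (algebraMap k₁ N a₂ - algebraMap k₁ N a₁) :=
    ⟨_, rfl⟩
  have hsz : s = algebraMap k₁ N (a₂ - a₁) * z + algebraMap k₁ N a₁ := by
    rw [hz, map_sub]; field_simp; ring
  have m := mv (s' := z) hs top (by
    rw [hsz]
    exact add_mem (mul_mem (IntermediateField.algebraMap_mem _ _)
      (IntermediateField.mem_adjoin_simple_self _ _)) (IntermediateField.algebraMap_mem _ _))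
  refine ⟨z, r * algebraMap k₁ N q, (a₃ - a₁) / (a₂ - a₁), m.1, m.2,
    mul_ne_zero hr ((_root_.map_ne_zero _).2 q0), ?_, div_ne_zero (sub_ne_zero.2 h13.symm) e0, ?_⟩
  · rw [h, mul_pow, pow_two (algebraMap k₁ N q), ← hq', hsz]
    simp only [map_mul, map_sub, aeval_X, aeval_C, map_one, map_div₀]
    field_simp
    ring
  · rw [Ne, div_eq_one_iff_eq e0, sub_left_inj]
    exact h23.symm

theorem four [IsAlgClosed k₁] {ψ s r : N} {c a₁ a₂ a₃ a₄ : k₁} (hs : Transcendental k₁ s)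
    (top : IntermediateField.adjoin k₁ {s} = ⊤) (hr : r ≠ 0) (hc : c ≠ 0) (h12 : a₁ ≠ a₂)
    (h13 : a₁ ≠ a₃) (h23 : a₂ ≠ a₃) (h14 : a₁ ≠ a₄) (h24 : a₂ ≠ a₄) (h34 : a₃ ≠ a₄)
    (h : ψ = r ^ 2 * (algebraMap k₁ N c * ((s - algebraMap k₁ N a₁) * (s - algebraMap k₁ N a₂) *
      (s - algebraMap k₁ N a₃) * (s - algebraMap k₁ N a₄)))) : Leg k₁ ψ := by
  have s0 : s - algebraMap k₁ N a₄ ≠ 0 := fun e =>
    hs (sub_eq_zero.1 e ▸ isAlgebraic_algebraMap a₄)
  have ne : ∀ {a b : k₁}, a ≠ b → algebraMap k₁ N a - algebraMap k₁ N b ≠ 0 := fun e => by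
    rw [← map_sub]; exact (_root_.map_ne_zero _).2 (sub_ne_zero.2 e)
  have m := mv (s' := (s - algebraMap k₁ N a₄)⁻¹) hs top (by
    have : s = (s - algebraMap k₁ N a₄)⁻¹⁻¹ + algebraMap k₁ N a₄ := by simp
    conv_rhs => rw [this]
    exact add_mem (inv_mem (IntermediateField.mem_adjoin_simple_self _ _))
      (IntermediateField.algebraMap_mem _ _))
  have inj : ∀ {a b : k₁}, a ≠ b → (a - a₄)⁻¹ ≠ (b - a₄)⁻¹ := fun e k =>
    e (sub_left_inj.1 (inv_inj.1 k))
  refine three (r := r * (s - algebraMap k₁ N a₄) ^ 2)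
    (c := c * ((a₄ - a₁) * (a₄ - a₂) * (a₄ - a₃))) m.1 m.2 (mul_ne_zero hr (pow_ne_zero 2 s0))
    (mul_ne_zero hc (mul_ne_zero (mul_ne_zero (sub_ne_zero.2 h14.symm) (sub_ne_zero.2 h24.symm))
      (sub_ne_zero.2 h34.symm))) (inj h12) (inj h13) (inj h23) ?_
  have n1 := ne h14
  have n2 := ne h24
  have n3 := ne h34
  rw [h]
  simp only [map_mul, map_sub, map_inv₀]
  field_simp
  ring

theorem leg [IsAlgClosed k₁] {ψ s r : N} {g : k₁[X]} (hs : Transcendental k₁ s)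
    (top : IntermediateField.adjoin k₁ {s} = ⊤) (hr : r ≠ 0) (h : ψ = r ^ 2 * aeval s g)
    (hg : g.Separable) (hd : g.natDegree = 3 ∨ g.natDegree = 4) : Leg k₁ ψ := by
  have c0 : g.leadingCoeff ≠ 0 := leadingCoeff_ne_zero.2 hg.ne_zero
  have hc : Multiset.card g.roots = g.natDegree := IsAlgClosed.card_roots_eq_natDegree
  have e := C_leadingCoeff_mul_prod_multiset_X_sub_C hc
  have nd := nodup_roots hg
  rw [← e] at h
  rcases hd with d | d
  · obtain ⟨a₁, a₂, a₃, k⟩ := Multiset.card_eq_three.1 (hc.trans d)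
    rw [k] at h nd
    simp only [Multiset.insert_eq_cons, Multiset.nodup_cons, Multiset.mem_cons,
      Multiset.mem_singleton, not_or] at nd
    refine three hs top hr c0 nd.1.1 nd.1.2 nd.2.1 (h.trans ?_)
    simp [mul_assoc]
  · obtain ⟨a₁, a₂, a₃, a₄, k⟩ := Multiset.card_eq_four.1 (hc.trans d)
    rw [k] at h nd
    simp only [Multiset.insert_eq_cons, Multiset.nodup_cons, Multiset.mem_cons,
      Multiset.mem_singleton, not_or] at nd
    refine four hs top hr c0 nd.1.1 nd.1.2.1 nd.2.1.1 nd.1.2.2 nd.2.1.2 nd.2.2.1 (h.trans ?_)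
    simp [mul_assoc]

end Ecq

theorem ecq_stmt : EcqStmt := by
  rintro k M _ _ _ φ ⟨k₁, N, _, _, _, _, _, _, _, τ, s, r, g, h, hg, hd⟩
  obtain ⟨z, r', l, h1, h2, h3, h4, h5, h6⟩ := Ecq.leg h.tr h.top h.ne h.eq hg hd
  exact ⟨k₁, N, _, _, _, _, _, inferInstance, τ, z, r', l, ⟨h1, h2, h3, h4, h.alg⟩, h5, h6⟩

end Pool.Agent.MP_20d318_ag.KK

end PartEcq

section PartEcs

/-! Row ECS: the constant extension. -/

set_option autoImplicit false
set_option linter.unusedSectionVars false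

namespace Pool.Agent.MP_20d318_ag.KK

open Polynomial

namespace EcsA

theorem core {k k₀ M W : Type} [Field k] [Field k₀] [Field M] [Field W] [IsAlgClosed W]
    [Algebra k k₀] [Algebra k M] [Algebra k₀ M] [Algebra k W] [Algebra k₀ W] [Algebra M W]
    [IsScalarTower k k₀ W] [IsScalarTower k M W] [IsScalarTower k₀ M W] [Algebra.IsAlgebraic M W]
    {φ z J : M} {g : k₀[X]} (hz : Transcendental k₀ z)
    (top : IntermediateField.adjoin k₀ {z} = ⊤) (hJ : J ≠ 0) (sep : g.Separable)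
    (dg : g.natDegree = 3 ∨ g.natDegree = 4) (eq : φ * J ^ 2 = aeval z g) : EQ k φ := by
  let k₁ := algebraicClosure k₀ W
  have : IsScalarTower k k₁ W := IsScalarTower.of_algebraMap_eq fun _ => rfl
  let N := IntermediateField.adjoin k₁ {algebraMap M W z}
  have hm : ∀ m : M, algebraMap M W m ∈ N := fun m => by
    have : m ∈ IntermediateField.adjoin k₀ {z} := top ▸ IntermediateField.mem_top
    induction this using IntermediateField.adjoin_induction with
    | mem x hx => exact IntermediateField.subset_adjoin _ _ (congrArg _ hx)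
    | algebraMap c =>
      rw [← IsScalarTower.algebraMap_apply, IsScalarTower.algebraMap_apply k₀ k₁ W]
      exact N.algebraMap_mem _
    | add x y _ _ a b => rw [map_add]; exact add_mem a b
    | inv x _ a => rw [map_inv₀]; exact inv_mem a
    | mul x y _ _ a b => rw [map_mul]; exact mul_mem a b
  let τ : M →ₐ[k] N :=
    { toFun m := ⟨algebraMap M W m, hm m⟩
      map_one' := Subtype.ext (map_one _)
      map_mul' a b := Subtype.ext (map_mul _ a b)
      map_zero' := Subtype.ext (map_zero _)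
      map_add' a b := Subtype.ext (map_add _ a b)
      commutes' c := Subtype.ext (IsScalarTower.algebraMap_apply k M W c).symm }
  have hτ : ∀ m, (τ m : W) = algebraMap M W m := fun _ => rfl
  have t1 : Transcendental k₁ (algebraMap M W z) :=
    ((transcendental_algebraMap_iff (algebraMap M W).injective).2 hz).extendScalars _
  refine ⟨k₁, N, inferInstance, IsAlgClosure.isAlgClosed k₀, inferInstance, inferInstance,
    inferInstance, inferInstance, inferInstance, τ, τ z, (τ J)⁻¹, g.map (algebraMap k₀ k₁),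
    ⟨?_, ?_, inv_ne_zero ((map_ne_zero τ).2 hJ), ?_, fun x => ?_⟩, sep.map,
    by rwa [natDegree_map]⟩
  · exact (transcendental_algebraMap_iff (algebraMap N W).injective).1 t1
  · apply IntermediateField.lift_injective
    rw [IntermediateField.lift_adjoin_simple, IntermediateField.lift_top]
    rfl
  · have e : (aeval (τ z) (g.map (algebraMap k₀ k₁)) : N) = τ (aeval z g) := by
      apply (algebraMap N W).injective
      rw [← aeval_algebraMap_apply, aeval_map_algebraMap]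
      exact aeval_algebraMap_apply W z g
    rw [e, ← eq, map_mul, map_pow, inv_pow, mul_comm (τ φ),
      inv_mul_cancel_left₀ (pow_ne_zero 2 ((map_ne_zero τ).2 hJ))]
  · obtain ⟨p, p0, hp⟩ := Algebra.IsAlgebraic.isAlgebraic (R := M) (x : W)
    refine ⟨p, p0, (algebraMap N W).injective ?_⟩
    rw [hom_eval₂, map_zero]
    exact hp

end EcsA

theorem ecs_stmt : EcsStmt := by
  rintro k M _ _ _ φ t z ⟨ind, top⟩ ⟨J, g, hJ, sep, dg, eq⟩
  refine EcsA.core (k₀ := IntermediateField.adjoin k {t}) (W := AlgebraicClosure M) (z := z)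
    ?_ ?_ hJ sep dg eq
  · rw [IntermediateField.transcendental_adjoin_iff]
    have := ind.transcendental_adjoin (s := {0}) (i := 1) (by simp)
    rwa [Set.image_singleton] at this
  · apply IntermediateField.restrictScalars_injective k
    rw [IntermediateField.adjoin_simple_adjoin_simple, top, IntermediateField.restrictScalars_top]

end Pool.Agent.MP_20d318_ag.KK

end PartEcs

section PartDic

/-! A surface of the tower is the plane or carries a ruling. -/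

set_option autoImplicit false
set_option linter.unusedSectionVars false

namespace Pool.Agent.MP_20d318_ag.KK

open Pool.Agent.MP_fd6584_ag.Fn Pool.Agent.CBk Polynomial
open Pool.Agent.MP_fd6584_ag.AG hiding deg_inv deg_congr deg_of_unit deg_mul deg_prod deg_zpow
  deg_eq_zero deg_nonneg deg_div deg_pow

namespace Dic

open CB.P.BlB

variable {k M : Type} [Field k] [Field M] [Algebra k M] {O O' R : Subalgebra k M} {a b p q : M}
  {α β : k}

theorem gen (h : RS.Gen k a b) (ha : a ∈ IntermediateField.adjoin k {p, q})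
    (hb : b ∈ IntermediateField.adjoin k {p, q}) : RS.Gen k p q := by
  have e : IntermediateField.adjoin k {p, q} = ⊤ :=
    top_unique (h.2 ▸ IntermediateField.adjoin_le_iff.2 (Set.pair_subset ha hb))
  exact ⟨trd_stmt k M (Fin 2) ![a, b] ![p, q] h.1 fun _ => (Pln.alg e).isAlgebraic _, e⟩

theorem f1 : p ∈ IntermediateField.adjoin k {p, q} := IntermediateField.subset_adjoin _ _ (by simp)
theorem f2 : q ∈ IntermediateField.adjoin k {p, q} := IntermediateField.subset_adjoin _ _ (by simp)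

theorem both (hp : p ∈ O) (hq : q ∈ O) (h1 : p / q ∉ O) (h2 : (p / q)⁻¹ ∉ O) :
    p ∈ mx O ∧ q ∈ mx O :=
  ⟨⟨hp, fun h => h2 (by rw [inv_div]; exact h.div_mem hq)⟩, ⟨hq, fun h => h1 (h.div_mem hp)⟩⟩

theorem shift : Algebra.adjoin k {a, b} =
    Algebra.adjoin k {a - algebraMap k M α, b - algebraMap k M β} :=
  have s : ∀ {c : k} {f : M} {S : Subalgebra k M}, f - algebraMap k M c ∈ S → f ∈ S :=
    fun {c _ S} h => by simpa using add_mem h (S.algebraMap_mem c)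
  le_antisymm (adj_le (s m1) (s m2))
    (adj_le (sub_mem m1 (Subalgebra.algebraMap_mem _ α))
      (sub_mem m2 (Subalgebra.algebraMap_mem _ β)))

theorem oth (hO : O ∈ Pts (Algebra.adjoin k {a, b})) (hu : a - algebraMap k M α ∈ mx O)
    (hv : b - algebraMap k M β ∈ mx O) (hO' : O' ∈ Pts (Algebra.adjoin k {b / a, a⁻¹}))
    (a0 : a ≠ 0) (h1 : (b - algebraMap k M β) / (a - algebraMap k M α) ∉ O')
    (h2 : ((b - algebraMap k M β) / (a - algebraMap k M α))⁻¹ ∉ O') : O' = O := by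
  have i1 : a⁻¹ ∈ O' := hO'.2.1 m2
  have e1 : (a - algebraMap k M α) / a = 1 - algebraMap k M α * a⁻¹ := by field_simp
  have e2 : (b - algebraMap k M β) / a = b / a - algebraMap k M β * a⁻¹ := by field_simp
  rw [← div_div_div_cancel_right₀ a0] at h1 h2
  obtain ⟨h3, h4⟩ := both (e2 ▸ sub_mem (hO'.2.1 m1) (mul_mem (O'.algebraMap_mem β) i1))
    (e1 ▸ sub_mem (one_mem _) (mul_mem (O'.algebraMap_mem α) i1)) h1 h2
  have h5 : IsU O' a⁻¹ := isU_of_not_mx i1 fun h => one_not_mem_mx (O := O') (by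
    simpa [e1] using mx_add hO'.1 h4 (mx_mul_left (O'.algebraMap_mem α) h))
  have h6 : IsU O' a := by simpa using h5.inv
  have d : Dom O O' := dom (by rwa [← shift]) hu hv hO'.1
    (by simpa [a0] using mx_mul_right h4 h6.mem) (by simpa [a0] using mx_mul_right h3 h6.mem)
  have h7 := d.2 a (hO.2.1 m1) h6
  exact le_antisymm (Pts_le hO' (adj_le (h7.div_mem (hO.2.1 m2)) h7.inv_mem) le_rfl d) d.1

theorem key {T : Set (Subalgebra k M)} (h : RS.Gen k a b)
    (hT : ∀ O' ∈ T, O' ∈ Pts (Algebra.adjoin k {a, b}) ∨ O' ∈ Pts (Algebra.adjoin k {b / a, a⁻¹}) ∨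
      O' ∈ Pts (Algebra.adjoin k {a / b, b⁻¹})) (hO : O ∈ Pts (Algebra.adjoin k {a, b}))
    (hr : ∀ f ∈ O, ∃ c : k, f - algebraMap k M c ∈ mx O) :
    ∃ t z, RS.Gen k t z ∧ ∀ O' ∈ RS.blowUp T O, t ∈ O' ∨ t⁻¹ ∈ O' := by
  obtain ⟨α, hu⟩ := hr a (hO.2.1 m1)
  obtain ⟨β, hv⟩ := hr b (hO.2.1 m2)
  have g : GenP k a b := ⟨h.1, h.2⟩
  have hO₁ := hO
  rw [shift (α := α) (β := β)] at hO₁
  refine ⟨(b - algebraMap k M β) / (a - algebraMap k M α), a, gen h f2 ?_, fun O' hO' => ?_⟩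
  · have := add_mem (mul_mem (f1 (k := k) (p := (b - algebraMap k M β) / (a - algebraMap k M α))
      (q := a)) (sub_mem f2 (IntermediateField.algebraMap_mem _ α)))
      (IntermediateField.algebraMap_mem _ β)
    rwa [div_mul_cancel₀ _ (g.x_ne α), sub_add_cancel] at this
  by_contra hn
  obtain ⟨h1, h2⟩ := not_or.1 hn
  rcases hO' with ⟨h3, h4⟩ | h3
  · refine h4 ?_
    rcases hT O' h3 with h5 | h5 | h5
    · rw [shift (α := α) (β := β)] at h5
      obtain ⟨h6, h7⟩ := both (h5.2.1 m2) (h5.2.1 m1) h1 h2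
      exact le_antisymm (dom h5 h7 h6 hO.1 hu hv).1 (dom hO₁ hu hv h5.1 h7 h6).1
    · exact oth hO hu hv h5 (ne0 g.swap) h1 h2
    · exact oth (Set.pair_comm a b ▸ hO) hv hu h5 (ne0 g) (by rwa [inv_div] at h2)
        (by rwa [inv_div])
  · simp only [Set.mem_iUnion] at h3
    obtain ⟨w, ⟨hw, w0⟩, h3⟩ := h3
    have w0 : w ≠ 0 := w0
    have l : O ≤ O' := fun f hf => h3.2.1 (Algebra.subset_adjoin (Or.inl hf))
    have m : ∀ f ∈ mx O, f / w ∈ O' := fun f hf =>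
      h3.2.1 (Algebra.subset_adjoin (Or.inr ⟨f, hf, rfl⟩))
    rw [← div_div_div_cancel_right₀ w0] at h1 h2
    obtain ⟨h6, h7⟩ := both (m _ hv) (m _ hu) h1 h2
    obtain ⟨r, hr, s, hs, e⟩ := span hO₁ hu hv hw
    refine one_not_mem_mx (O := O') ?_
    rw [← div_self w0]
    nth_rewrite 1 [e]
    rw [add_div, mul_div_assoc, mul_div_assoc]
    exact lin h3.1 h7 h6 (l hr) (l hs)

end Dic

open Dic CB.P.BlB in
theorem dic_stmt : DicStmt := by
  intro k M _ _ _ T hT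
  induction hT with
  | plane x y h => exact Or.inl ⟨x, y, h, rfl⟩
  | hirz n x y h =>
    refine Or.inr ⟨x, y, h, fun O hO => ?_⟩
    simp only [RS.planes, Set.mem_iUnion, Set.mem_insert_iff, Set.mem_singleton_iff] at hO
    obtain ⟨_, rfl | rfl | rfl | rfl, hO⟩ := hO
    exacts [Or.inl (hO.2.1 m1), Or.inl (hO.2.1 m1), Or.inr (hO.2.1 m1), Or.inr (hO.2.1 m1)]
  | blow T O _ hO hr ih =>
    refine Or.inr ?_
    rcases ih with ⟨x, y, h, rfl⟩ | ⟨t, z, h, ih⟩
    · have g : GenP k x y := ⟨h.1, h.2⟩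
      have x0 := ne0 g.swap
      have y0 := ne0 g
      have c : ∀ O' ∈ RS.planes k {(x, y), (y / x, x⁻¹), (x / y, y⁻¹)},
          O' ∈ Pts (Algebra.adjoin k {x, y}) ∨ O' ∈ Pts (Algebra.adjoin k {y / x, x⁻¹}) ∨
            O' ∈ Pts (Algebra.adjoin k {x / y, y⁻¹}) := fun O' hO' => by
        simp only [RS.planes, Set.mem_iUnion, Set.mem_insert_iff, Set.mem_singleton_iff] at hO'
        obtain ⟨_, rfl | rfl | rfl, hO'⟩ := hO'
        exacts [Or.inl hO', Or.inr (Or.inl hO'), Or.inr (Or.inr hO')]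
      rcases c O hO with h1 | h1 | h1
      · exact key h c h1 hr
      · refine key (gen h (by simpa using inv_mem (f2 (p := y / x) (q := x⁻¹)))
          (by simpa [x0] using div_mem (f1 (p := y / x) (q := x⁻¹)) f2)) (fun O' hO' => ?_) h1 hr
        rw [show x⁻¹ / (y / x) = y⁻¹ by field_simp, inv_div, show y / x / x⁻¹ = y by field_simp,
          inv_inv, Set.pair_comm y⁻¹, Set.pair_comm y]
        have := c O' hO'
        tauto
      · refine key (gen h (by simpa [y0] using div_mem (f1 (p := x / y) (q := y⁻¹)) f2)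
          (by simpa using inv_mem (f2 (p := x / y) (q := y⁻¹)))) (fun O' hO' => ?_) h1 hr
        rw [show y⁻¹ / (x / y) = x⁻¹ by field_simp, inv_div, show x / y / y⁻¹ = x by field_simp,
          inv_inv, Set.pair_comm x⁻¹]
        have := c O' hO'
        tauto
    · refine ⟨t, z, h, fun O' hO' => ?_⟩
      rcases hO' with h3 | h3
      · exact ih O' h3.1
      · simp only [Set.mem_iUnion] at h3
        obtain ⟨w, -, h3⟩ := h3
        have l : O ≤ O' := fun f hf => h3.2.1 (Algebra.subset_adjoin (Or.inl hf))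
        exact (ih O hO).imp (@l _) (@l _)

end Pool.Agent.MP_20d318_ag.KK

end PartDic
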