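import Pool.Agent.MP_20d318_ag.KK.Asm
import Pool.Agent.MP_20d318_ag.CB.Stmt0

/-! The class group of the double cover of a product: definitions and statements. -/

set_option autoImplicit false
set_option linter.unusedSectionVars false

namespace Pool.Agent.MP_20d318_ag.KK

open Pool.Agent.MP_fd6584_ag.Fn Pool.Agent.CBk Polynomial
open Pool.Agent.MP_fd6584_ag.AG hiding deg_inv deg_congr deg_of_unit deg_mul deg_prod deg_zpow
  deg_eq_zero deg_nonneg deg_div deg_pow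
open Pool.Agent.MP_20d318_ag.CH (MW cb Der)

section defs

variable {k k₁ M M' N F K K₁ : Type} [Field k] [Field k₁] [Field M] [Field M'] [Field N] [Field F]
  [Field K] [Field K₁] [Algebra k k₁] [Algebra k M] [Algebra k M'] [Algebra k N] [Algebra k F]
  [Algebra k K] [Algebra k K₁] [Algebra k₁ N] [Algebra k₁ F] [Algebra k₁ K₁]

/-- An algebraic extension `N = k₁(s)` in which `φ` is a square times `g(s)`. -/
structure Rf (φ : M') (τ : M' →ₐ[k] N) (s r : N) (g : k₁[X]) : Prop where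
  tr : Transcendental k₁ s
  top : IntermediateField.adjoin k₁ {s} = ⊤
  ne : r ≠ 0
  eq : τ φ = r ^ 2 * aeval s g
  alg : ∀ x : N, ∃ p : M'[X], p ≠ 0 ∧ p.eval₂ (τ : M' →+* N) x = 0

variable (k) in
/-- A covering family of curves of genus one. -/
def EQ (φ : M') : Prop := ∃ (k₁ N : Type) (_ : Field k₁) (_ : IsAlgClosed k₁) (_ : Field N)
  (_ : Algebra k k₁) (_ : Algebra k N) (_ : Algebra k₁ N) (_ : IsScalarTower k k₁ N)
  (τ : M' →ₐ[k] N) (s r : N) (g : k₁[X]), Rf φ τ s r g ∧ g.Separable ∧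
    (g.natDegree = 3 ∨ g.natDegree = 4)

variable (k) in
/-- The same in Legendre form. -/
def EC (φ : M') : Prop := ∃ (k₁ N : Type) (_ : Field k₁) (_ : Field N)
  (_ : Algebra k k₁) (_ : Algebra k N) (_ : Algebra k₁ N) (_ : IsScalarTower k k₁ N)
  (τ : M' →ₐ[k] N) (s r : N) (l : k₁), Rf φ τ s r (X * (X - 1) * (X - C l)) ∧ l ≠ 0 ∧ l ≠ 1

variable (ι : M →ₐ[k] K) (ι' : M' →ₐ[k] K)

/-- The centre of `O` is generated by `f`. -/
def Cen (O : Subalgebra k K) (f : K) : Prop := f ∈ Bq ι ι' ⊤ ⊤ ∅ ∧ f ≠ 0 ∧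
  ∀ b ∈ Bq ι ι' ⊤ ⊤ ∅, b ∈ mx O ↔ b / f ∈ Bq ι ι' ⊤ ⊤ ∅

/-- Split points. -/
def Spl (v : K) (O : Subalgebra k K) : Prop :=
  ∃ b ∈ Bq ι ι' ⊤ ⊤ ∅, ∃ c ∈ Bq ι ι' ⊤ ⊤ ∅, c ∉ mx O ∧ c * v - b ∈ mx O

/-- The twisted elliptic curve over `F` whose function field is algebraic over `K`. -/
structure Cov [IsScalarTower k k₁ F] (v : K) (φ : M) (μ : M →ₐ[k] F) (ε : F →ₐ[k₁] K₁)
    (j : K →ₐ[k] K₁) (l : k₁) (z w : K₁) : Prop where
  ext : CH.Ext (μ φ) ε l z w 2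
  dj : Dj μ (IsScalarTower.toAlgHom k k₁ F)
  rt : ∀ x, Rt μ (IsScalarTower.toAlgHom k k₁ F) x
  com : ∀ m, j (ι m) = ε (μ m)
  rat : ∀ m, ∃ p q : k₁[X], q ≠ 0 ∧ j (ι' m) = aeval z p / aeval z q
  vw : ∃ p q : k₁[X], p ≠ 0 ∧ q ≠ 0 ∧ j v * ε (μ φ) * aeval z q = aeval z p * w
  alg : ∀ x : K₁, ∃ p : K[X], p ≠ 0 ∧ (∀ i, p.coeff i ∈ Bq ι ι' ⊤ ⊤ ∅) ∧
    p.eval₂ (j : K →+* K₁) x = 0
  algN : ∀ p : k₁[X], ∃ q : M'[X], q ≠ 0 ∧ q.eval₂ (j.comp ι' : M' →+* K₁) (aeval z p) = 0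

/-- Valuation rings over split places contain `F`. -/
def Fv (v : K) (ε : F →ₐ[k₁] K₁) (j : K →ₐ[k] K₁) (z : K₁) : Prop := ∀ (P : Place k K)
  (V : Subalgebra k K₁), plO P ∈ Pts (Bq ι ι' ⊤ ⊤ {v}) → Spl ι ι' v (plO P) → IsVal V →
    V.comap j = plO P → (∀ x, ε x ∈ V) ∧ ∀ p : k₁[X], p ≠ 0 → IsU V (aeval z p)

/-- A smooth plane sextic. -/
def SmF (G : MvPolynomial (Fin 3) k) : Prop := G.IsHomogeneous 6 ∧
  ∀ (L : Type) [Field L] [Algebra k L] (p : Fin 3 → L), p ≠ 0 → MvPolynomial.aeval p G = 0 →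
    ∃ i, MvPolynomial.aeval p (MvPolynomial.pderiv i G) ≠ 0

/-- The generic point of the sextic. -/
structure Tn (G : MvPolynomial (Fin 3) k) (d : Derivation k k₁ k₁) (t u : k₁) : Prop where
  sm : SmF G
  dt : d t = 1
  on : MvPolynomial.aeval ![t, u, 1] G = 0
  alg : Algebra.IsAlgebraic (Algebra.adjoin k {t}) k₁

/-- The restriction of the sextic to the tangent line. -/
noncomputable def tl (G : MvPolynomial (Fin 3) k) (d : Derivation k k₁ k₁) (t u : k₁) : k₁[X] :=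
  MvPolynomial.aeval ![1 + C t * X, C (d u) + C u * X, X] G

end defs

/-! ### Rows -/

/-- HZA: places that are not split. -/
def HzaStmt : Prop := FRow fun {k _ _ K _ _ _ _ _ _ _} ι ι' => ∀ φ φ' v, Ext φ φ' ι ι' v 2 →
  Fld ι ι' v 2 → UniqueFactorizationMonoid (Bq ι ι' ⊤ ⊤ ∅) → ∀ P : Place k K,
    plO P ∈ Pts (Bq ι ι' ⊤ ⊤ {v}) → ∃ f, Cen ι ι' (plO P) f ∧ (¬ Spl ι ι' v (plO P) →
      ∀ P' : Place k K, plO P' ∈ Pts (Bq ι ι' ⊤ ⊤ {v}) → f ∈ mx (plO P') → P' = P)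

/-- DJA: algebraic extensions of a factor. -/
def DjaStmt : Prop := FRow fun {k _ N _ _ _ _ _ _ _ _} ι ρ => ∀ (M' : Type) [Field M'] [Algebra k M']
  (τ : M' →ₐ[k] N), Dj ι (ρ.comp τ) →
    (∀ x : N, ∃ p : M'[X], p ≠ 0 ∧ p.eval₂ (τ : M' →+* N) x = 0) → Dj ι ρ

/-- EMB: the cover exists. -/
def EmbStmt : Prop := DjaStmt → FRow fun {k M _ K _ _ _ _ _ _ _} ι ι' => ∀ φ φ' v,
  Ext φ φ' ι ι' v 2 → EC k φ' → ∃ (k₁ F K₁ : Type) (_ : Field k₁) (_ : Field F) (_ : Field K₁)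
    (_ : Algebra k k₁) (_ : Algebra k F) (_ : Algebra k K₁) (_ : Algebra k₁ F) (_ : Algebra k₁ K₁)
    (_ : IsScalarTower k k₁ F) (_ : IsScalarTower k k₁ K₁) (μ : M →ₐ[k] F) (ε : F →ₐ[k₁] K₁)
    (j : K →ₐ[k] K₁) (l : k₁) (z w : K₁), Cov ι ι' v φ μ ε j l z w

/-- A property of the cover. -/
def CRow (p : ∀ {k k₁ M M' F K K₁ : Type} [Field k] [Field k₁] [Field M] [Field M'] [Field F]
    [Field K] [Field K₁] [Algebra k M] [Algebra k M'] [Algebra k K] [Algebra k K₁] [Algebra k₁ F]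
    [Algebra k₁ K₁] [Algebra k F], (M →ₐ[k] K) → (M' →ₐ[k] K) → K → F → (F →ₐ[k₁] K₁) →
    (K →ₐ[k] K₁) → k₁ → K₁ → Prop) : Prop :=
  ∀ (k k₁ M M' F K K₁ : Type) [Field k] [NeZero (2 : k)] [IsAlgClosed k] [Field k₁] [Field M]
    [Field M'] [Field F] [Field K] [Field K₁] [Algebra k k₁] [Algebra k M] [Algebra k M']
    [Algebra k F] [Algebra k K] [Algebra k K₁] [Algebra k₁ F] [Algebra k₁ K₁]
    [IsScalarTower k k₁ F] [IsScalarTower k k₁ K₁] (ι : M →ₐ[k] K) (ι' : M' →ₐ[k] K) (v : K)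
    (φ : M) (φ' : M') (μ : M →ₐ[k] F) (ε : F →ₐ[k₁] K₁) (j : K →ₐ[k] K₁) (l : k₁) (z w : K₁),
    Ext φ φ' ι ι' v 2 → Cov ι ι' v φ μ ε j l z w → p ι ι' v (μ φ) ε j l z

/-- FV. -/
def FvStmt : Prop := CRow fun {k _ _ _ _ K _ _ _ _ _ _ _ _ _ _ _ _ _ _ _} ι ι' v _ ε j _ z =>
  (∀ P : Place k K, plO P ∈ Pts (Bq ι ι' ⊤ ⊤ {v}) → ∃ f, Cen ι ι' (plO P) f) → Fv ι ι' v ε j z

/-- HZB: split places. -/
def HzbStmt : Prop := CH.HorStmt →
  CRow fun {k _ _ _ _ K _ _ _ _ _ _ _ _ _ _ _ _ _ _ _} ι ι' v ψ ε j l z => MW ψ l →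
    Fv ι ι' v ε j z → ∀ P : Place k K, plO P ∈ Pts (Bq ι ι' ⊤ ⊤ {v}) → Spl ι ι' v (plO P) →
      ∃ f : K, f ≠ 0 ∧ f ∈ mx (plO P) ∧ ∀ P' : Place k K, plO P' ∈ Pts (Bq ι ι' ⊤ ⊤ {v}) →
        Spl ι ι' v (plO P') → P' ≠ P → IsU (plO P') f

/-- A property of a function on a surface. -/
def SRow (p : ∀ {k M : Type} [Field k] [Field M] [Algebra k M], Derivation k M M →
    Derivation k M M → M → Prop) : Prop :=
  ∀ (k M : Type) [Field k] [CharZero k] [IsAlgClosed k] [Field M] [Algebra k M]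
    (D₁ D₂ : Derivation k M M) (φ : M), p D₁ D₂ φ

/-- ECQ: the Legendre form. -/
def EcqStmt : Prop := ∀ (k M : Type) [Field k] [Field M] [Algebra k M] (φ : M), EQ k φ → EC k φ

/-- A quartic in `z` over `k(t)`. -/
def QR (k : Type) {M : Type} [Field k] [Field M] [Algebra k M] (φ t z : M) : Prop :=
  ∃ (J : M) (g : (IntermediateField.adjoin k {t})[X]), J ≠ 0 ∧ g.Separable ∧
    (g.natDegree = 3 ∨ g.natDegree = 4) ∧ φ * J ^ 2 = aeval z g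

/-- ECR: ruled surfaces. -/
def EcrStmt : Prop := Der → SRow fun {k M _ _ _} D₁ D₂ φ => ∀ (T : Set (Subalgebra k M)) (t z : M),
  Good T → (∀ R ∈ T, ¬ Dim R 0 → R = ⊤ ∨ ∃ P : Place k M, R = plO P) → RS.BiAnti T D₁ D₂ φ →
  RS.SmoothZero T D₁ D₂ φ → RS.Gen k t z → (∀ O ∈ T, t ∈ O ∨ t⁻¹ ∈ O) → QR k φ t z

/-- ECS: the constant extension. -/
def EcsStmt : Prop := ∀ (k M : Type) [Field k] [Field M] [Algebra k M] (φ t z : M),
  RS.Gen k t z → QR k φ t z → EQ k φ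

/-- PLF: the equation of the sextic. -/
def PlfStmt : Prop := Der → SRow fun {k M _ _ _} D₁ D₂ φ => ∀ x y : M, RS.Gen k x y →
  RS.BiAnti (RS.planes k {(x, y), (y / x, x⁻¹), (x / y, y⁻¹)}) D₁ D₂ φ →
  RS.SmoothZero (RS.planes k {(x, y), (y / x, x⁻¹), (x / y, y⁻¹)}) D₁ D₂ φ →
    ∃ (G : MvPolynomial (Fin 3) k) (J : M), SmF G ∧ J ≠ 0 ∧
      φ * J ^ 2 = MvPolynomial.aeval ![x, y, 1] G

/-- GPT: the generic point. -/
def GptStmt : Prop := ∀ (k : Type) [Field k] [CharZero k] [IsAlgClosed k]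
  (G : MvPolynomial (Fin 3) k), SmF G → ∃ (k₁ : Type) (_ : Field k₁) (_ : IsAlgClosed k₁)
    (_ : Algebra k k₁) (d : Derivation k k₁ k₁) (t u : k₁), Tn G d t u

/-- A property of the generic point. -/
def TRow (p : ∀ {k k₁ : Type} [Field k] [Field k₁] [Algebra k k₁], MvPolynomial (Fin 3) k →
    Derivation k k₁ k₁ → k₁ → k₁ → Prop) : Prop :=
  ∀ (k k₁ : Type) [Field k] [CharZero k] [IsAlgClosed k] [Field k₁] [IsAlgClosed k₁] [Algebra k k₁]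
    (G : MvPolynomial (Fin 3) k) (d : Derivation k k₁ k₁) (t u : k₁), Tn G d t u → p G d t u

/-- NFL: the curve is not a line. -/
def NflStmt : Prop := TRow fun _ d _ u => d (d u) ≠ 0

/-- QUA: the generic tangent is simple. -/
def QuaStmt : Prop := TRow fun G d t u => d (d u) ≠ 0 →
  (tl G d t u).natDegree = 4 ∧ (tl G d t u).Separable

/-- JAC: the jacobian criterion for independence. -/
def JacStmt : Prop := ∀ (k R : Type) [Field k] [CharZero k] [CommRing R] [IsDomain R] [Algebra k R]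
  (D₁ D₂ : Derivation k R R) (x y : R), D₁ x * D₂ y ≠ D₂ x * D₁ y → AlgebraicIndependent k ![x, y]

/-- ECT: tangent lines cover the plane. -/
def EctStmt : Prop := JacStmt → TRow fun {k _ _ _ _} G d t u => d (d u) ≠ 0 →
  (tl G d t u).natDegree = 4 → (tl G d t u).Separable → ∀ (M : Type) [Field M] [Algebra k M]
    (φ x y J : M), RS.Gen k x y → J ≠ 0 → φ * J ^ 2 = MvPolynomial.aeval ![x, y, 1] G → EQ k φ

/-- DIC: the plane or a ruled surface. -/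
def DicStmt : Prop := ∀ (k M : Type) [Field k] [Field M] [Algebra k M]
  (T : Set (Subalgebra k M)), RS.Tower T →
    (∃ x y, RS.Gen k x y ∧ T = RS.planes k {(x, y), (y / x, x⁻¹), (x / y, y⁻¹)}) ∨
    ∃ t z, RS.Gen k t z ∧ ∀ O ∈ T, t ∈ O ∨ t⁻¹ ∈ O

/-- The rows on the class group of the double cover. -/
structure EMods : Prop where
  hza : HzaStmt
  dja : DjaStmt
  emb : EmbStmt
  fv : FvStmt
  hzb : HzbStmt
  ecq : EcqStmt
  ecr : EcrStmt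
  ecs : EcsStmt
  plf : PlfStmt
  gpt : GptStmt
  nfl : NflStmt
  qua : QuaStmt
  jac : JacStmt
  ect : EctStmt
  dic : DicStmt

variable {k M' : Type} [Field k] [IsAlgClosed k] [Field M'] [Algebra k M'] {φ' : M'}

theorem EMods.hz [NeZero (2 : k)] (x : EMods) (m : Mods) (h : EC k φ') : HZ k φ' := by
  intro M K _ _ _ _ φ ι ι' v a b c d
  obtain ⟨k₁, F, K₁, _, _, _, _, _, _, _, _, _, _, μ, ε, j, l, z, w, q⟩ :=
    x.emb x.dja k M M' K ι ι' φ φ' v a h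
  have h1 := x.hza k M M' K ι ι' φ φ' v a b d
  have h2 := x.hzb m.c.hor k k₁ M M' F K K₁ ι ι' v φ φ' μ ε j l z w a q
    (fun s t e => m.mws k M k₁ F μ _ q.dj q.rt φ 1 l c one_ne_zero q.ext.l0 q.ext.l1 s t
      (by rw [map_one, mul_one]; exact e))
    (x.fv k k₁ M M' F K K₁ ι ι' v φ φ' μ ε j l z w a q fun P hP => (h1 P hP).imp fun _ r => r.1)
  have le : Bq ι ι' ⊤ ⊤ ∅ ≤ Bq ι ι' ⊤ ⊤ {v} := Algebra.adjoin_mono
    (Set.union_subset_union_right _ (Set.union_subset_union_right _ (Set.empty_subset _)))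
  refine ⟨fun P => Spl ι ι' v (plO P), fun P hP => ?_⟩
  by_cases s : Spl ι ι' v (plO P)
  · obtain ⟨f, f0, f1, f2⟩ := h2 P hP s
    exact ⟨f, f0, CB.P.XCls.ord_ne f0 f1, fun P' hP' n o =>
      ⟨s, fun s' => o ((isU_plO' _).1 (f2 P' hP' s' n)).2⟩⟩
  · obtain ⟨f, ⟨f0, f1, f2⟩, f3⟩ := h1 P hP
    exact ⟨f, f1, CB.P.XCls.ord_ne f1 ((f2 f f0).2 (by rw [div_self f1]; exact one_mem _)),
      fun P' hP' n o => (n (f3 s P' hP' (CB.P.XCls.mx_of_ord (hP'.2.1 (le f0)) o))).elim⟩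

theorem EMods.ec [CharZero k] (x : EMods) (d : Der) {T : Set (Subalgebra k M')}
    {D₁ D₂ : Derivation k M' M'} (hT : RS.Tower T) (h1 : RS.BiAnti T D₁ D₂ φ')
    (h2 : RS.SmoothZero T D₁ D₂ φ') (g : Good T)
    (tri : ∀ R ∈ T, ¬ Dim R 0 → R = ⊤ ∨ ∃ P : Place k M', R = plO P) : EC k φ' := by
  refine x.ecq k M' φ' ?_
  rcases x.dic k M' T hT with ⟨a, b, h3, rfl⟩ | ⟨t, z, h3, h4⟩
  · obtain ⟨G, J, g1, g2, g3⟩ := x.plf d k M' D₁ D₂ φ' a b h3 h1 h2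
    obtain ⟨k₁, _, _, _, δ, t, u, h5⟩ := x.gpt k G g1
    have h6 := x.nfl k k₁ G δ t u h5
    have h7 := x.qua k k₁ G δ t u h5 h6
    exact x.ect x.jac k k₁ G δ t u h5 h6 h7.1 h7.2 M' φ' a b J h3 g2 g3
  · exact x.ecs k M' φ' t z h3 (x.ecr d k M' D₁ D₂ φ' T t z g tri h1 h2 h3 h4)

end Pool.Agent.MP_20d318_ag.KK
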