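import Mathlib.FieldTheory.RatFunc.IntermediateField
import Pool.Agent.MP_20d318_ag.KK.ESpec
import Pool.Agent.MP_20d318_ag.KK.RowsA

section PartEcr

/-! The branch curve on a ruled surface is a quartic over the base. -/

set_option autoImplicit false
set_option linter.unusedSectionVars false

namespace Pool.Agent.MP_20d318_ag.KK

open Pool.Agent.MP_fd6584_ag.Fn Pool.Agent.CBk Polynomial
open Pool.Agent.MP_fd6584_ag.AG hiding deg_inv deg_congr deg_of_unit deg_mul deg_prod deg_zpow
  deg_eq_zero deg_nonneg deg_div deg_pow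
open Pool.Agent.MP_20d318_ag.CH (MW cb Der)

namespace Ecr

section loc

variable {k F M : Type} [Field k] [Field F] [Field M] [Algebra k F] [Algebra k M] [Algebra F M]
  [IsScalarTower k F M] {w : M} {π : F[X]}

variable (k) in
/-- The local ring of `F[w]` at the prime `π`. -/
def loc (w : M) (hπ : Prime π) : Subalgebra k M where
  carrier := {f | ∃ A B : F[X], ¬ π ∣ B ∧ f * aeval w B = aeval w A}
  mul_mem' := by
    rintro f f' ⟨A, B, h, e⟩ ⟨A', B', h', e'⟩
    exact ⟨A * A', B * B', hπ.not_dvd_mul h h', by rw [map_mul, map_mul, ← e, ← e']; ring⟩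
  add_mem' := by
    rintro f f' ⟨A, B, h, e⟩ ⟨A', B', h', e'⟩
    exact ⟨A * B' + A' * B, B * B', hπ.not_dvd_mul h h', by
      rw [map_add, map_mul, map_mul, map_mul, ← e, ← e']; ring⟩
  algebraMap_mem' c := ⟨C (algebraMap k F c), 1, hπ.not_dvd_one, by
    rw [map_one, mul_one, aeval_C, ← IsScalarTower.algebraMap_apply]⟩

theorem poly_mem (hπ : Prime π) (A : F[X]) : aeval w A ∈ loc k w hπ :=
  ⟨A, 1, hπ.not_dvd_one, by rw [map_one, mul_one]⟩

theorem ne0 (tr : Transcendental F w) {B : F[X]} (h : B ≠ 0) : aeval w B ≠ 0 :=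
  fun e => h (transcendental_iff.1 tr B e)

theorem unit (tr : Transcendental F w) (hπ : Prime π) {B : F[X]} (h : ¬ π ∣ B) :
    IsU (loc k w hπ) (aeval w B) := by
  have h0 : aeval w B ≠ 0 := ne0 tr fun e => h (e ▸ dvd_zero π)
  exact ⟨h0, poly_mem hπ B, 1, B, h, by rw [map_one, inv_mul_cancel₀ h0]⟩

theorem pi_mx (tr : Transcendental F w) (hπ : Prime π) : aeval w π ∈ mx (loc k w hπ) := by
  refine ⟨poly_mem hπ π, fun ⟨h0, _, A, B, h, e⟩ => h ⟨A, transcendental_iff_injective.1 tr ?_⟩⟩
  change aeval w B = aeval w (π * A)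
  rw [map_mul, ← e, mul_inv_cancel_left₀ h0]

theorem red (tr : Transcendental F w) (top : IntermediateField.adjoin F {w} = ⊤) (f : M) :
    ∃ a b : F[X], IsRelPrime a b ∧ b ≠ 0 ∧ f * aeval w b = aeval w a := by
  obtain ⟨A, B, e⟩ := (IntermediateField.mem_adjoin_simple_iff F (α := w) f).1
    (by rw [top]; trivial)
  rcases eq_or_ne B 0 with rfl | hB
  · exact ⟨0, 1, isRelPrime_one_right, one_ne_zero, by simp [e]⟩
  obtain ⟨a, b, c, h, rfl, rfl⟩ := UniqueFactorizationMonoid.exists_reduced_factors' A B hB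
  have h1 := ne0 tr (left_ne_zero_of_mul hB)
  have h2 := ne0 tr (right_ne_zero_of_mul hB)
  refine ⟨a, b, h, right_ne_zero_of_mul hB, ?_⟩
  rw [e, map_mul, map_mul, mul_div_mul_left _ _ h1, div_mul_cancel₀ _ h2]

theorem isVal (tr : Transcendental F w) (top : IntermediateField.adjoin F {w} = ⊤) (hπ : Prime π) :
    IsVal (loc k w hπ) := fun f => by
  obtain ⟨a, b, h, -, e⟩ := red tr top f
  by_cases hb : π ∣ b
  · have ha : ¬ π ∣ a := fun ha => hπ.not_isUnit (h ha hb)
    have h0 : f ≠ 0 := fun h0 => (unit (k := k) tr hπ ha).1 (by rw [← e, h0, zero_mul])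
    exact Or.inr ⟨b, a, ha, by rw [← e, inv_mul_cancel_left₀ h0]⟩
  · exact Or.inl ⟨a, b, hb, e⟩

theorem poly (tr : Transcendental F w) (top : IntermediateField.adjoin F {w} = ⊤) {f : M}
    (hf : ∀ (π : F[X]) (hπ : Prime π), f ∈ loc k w hπ) : ∃ g : F[X], f = aeval w g := by
  obtain ⟨a, b, h, hb, e⟩ := red tr top f
  have hu : IsUnit b := by
    by_contra hn
    obtain ⟨π, h1, h2⟩ := WfDvdMonoid.exists_irreducible_factor hn hb
    obtain ⟨A, B, h3, e'⟩ := hf π h1.prime
    have h4 : a * B = A * b := transcendental_iff_injective.1 tr (by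
      change aeval w (a * B) = aeval w (A * b)
      rw [map_mul, map_mul, ← e, ← e']; ring)
    exact h1.not_isUnit (h ((h1.prime.dvd_or_dvd (h4 ▸ h2.mul_left A)).resolve_right h3) h2)
  obtain ⟨c, hc⟩ := hu.exists_right_inv
  exact ⟨a * c, by rw [map_mul, ← e, mul_assoc, ← map_mul, hc, map_one, mul_one]⟩

theorem stable (tr : Transcendental F w) (hπ : Prime π) (δ : Derivation k M M)
    (hF : ∀ c : F, ∃ c' : F, δ (algebraMap F M c) = algebraMap F M c') (hw : δ w ∈ loc k w hπ)
    {a : M} (ha : a ∈ loc k w hπ) : δ a ∈ loc k w hπ := by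
  have h1 : ∀ A : F[X], δ (aeval w A) ∈ loc k w hπ := fun A => by
    induction A using Polynomial.induction_on with
    | C c =>
      obtain ⟨c', e⟩ := hF c
      rw [aeval_C, e, ← aeval_C w]
      exact poly_mem hπ _
    | add p q hp hq => rw [map_add, map_add]; exact add_mem hp hq
    | monomial n c h =>
      rw [pow_succ, ← mul_assoc, map_mul, aeval_X, Derivation.leibniz, smul_eq_mul, smul_eq_mul]
      exact add_mem (mul_mem (poly_mem hπ _) hw)
        (mul_mem (by simpa using poly_mem (k := k) (w := w) hπ X) h)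
  obtain ⟨A, B, h, e⟩ := id ha
  have h2 := unit (k := k) tr hπ h
  have h3 : δ a = (δ (aeval w A) - a * δ (aeval w B)) / aeval w B := by
    rw [eq_div_iff h2.1, ← e, Derivation.leibniz, smul_eq_mul, smul_eq_mul]; ring
  rw [h3]
  exact h2.div_mem (sub_mem (h1 A) (mul_mem ha (h1 B)))

end loc

variable {k M : Type} [Field k] [Field M] [Algebra k M] {T : Set (Subalgebra k M)} {t w φ : M}
  {D₁ D₂ : Derivation k M M}

theorem base (δ : Derivation k M M) (h : δ t ∈ IntermediateField.adjoin k {t})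
    (c : IntermediateField.adjoin k {t}) : ∃ c' : IntermediateField.adjoin k {t},
      δ (algebraMap _ M c) = algebraMap _ M c' := by
  suffices H : ∀ x ∈ IntermediateField.adjoin k {t}, δ x ∈ IntermediateField.adjoin k {t} from
    ⟨⟨_, H c c.2⟩, rfl⟩
  intro x hx
  induction hx using IntermediateField.adjoin_induction with
  | mem x hx => exact hx ▸ h
  | algebraMap r => rw [Derivation.map_algebraMap]; exact zero_mem _
  | add x y _ _ hx hy => rw [map_add]; exact add_mem hx hy
  | inv x a hx =>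
    rw [Derivation.leibniz_inv, smul_eq_mul]
    exact mul_mem (neg_mem (pow_mem (inv_mem a) 2)) hx
  | mul x y a b hx hy =>
    rw [Derivation.leibniz, smul_eq_mul, smul_eq_mul]
    exact add_mem (mul_mem a hy) (mul_mem b hx)

/-- Valuation rings that contain the base field are points of the surface. -/
theorem mem_T (hT : Good T) (tri : ∀ R ∈ T, ¬ Dim R 0 → R = ⊤ ∨ ∃ P : Place k M, R = plO P)
    (ht : Transcendental k t) (h : ∀ O ∈ T, t ∈ O ∨ t⁻¹ ∈ O) {V : Subalgebra k M} (hV : IsVal V)
    (hn : V ≠ ⊤) (hb : ∀ x ∈ IntermediateField.adjoin k {t}, x ∈ V) : V ∈ T := by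
  obtain ⟨O, hO, hd⟩ := hT.cpl V hV
  have key : ∀ s ∈ O, s ∈ IntermediateField.adjoin k {t} → Transcendental k s → ¬ Dim O 0 := by
    intro s hs hs' tr hD
    have h1 : AlgebraicIndependent k fun _ : Fin 1 => s :=
      algebraicIndependent_unique_type_iff.2 tr
    refine hD ⟨fun _ => s, fun _ => hs, fun p hp => ?_⟩
    have h2 : ∀ S : Subalgebra k M, s ∈ S → MvPolynomial.aeval (fun _ : Fin (0 + 1) => s) p ∈ S :=
      fun S hS => Algebra.adjoin_le (S := S) (s := Set.range fun _ : Fin (0 + 1) => s)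
        (by rintro _ ⟨i, rfl⟩; exact hS)
        (by rw [Algebra.adjoin_range_eq_range_aeval]; exact ⟨p, rfl⟩)
    have h3 := h2 (IntermediateField.adjoin k {t}).toSubalgebra hs'
    exact hd.2 _ (h2 O hs) ⟨fun e => hp (h1.eq_zero_of_aeval_eq_zero p e), hb _ h3,
      hb _ (inv_mem h3)⟩
  have ht' := IntermediateField.mem_adjoin_simple_self k t
  have hD : ¬ Dim O 0 := (h O hO).elim (fun h1 => key t h1 ht' ht)
    fun h1 => key t⁻¹ h1 (inv_mem ht') fun h2 => ht (IsAlgebraic.inv_iff.1 h2)
  rcases tri O hO hD with rfl | ⟨P, rfl⟩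
  · exact absurd (top_le_iff.1 hd.1) hn
  · exact IsVal.eq_of_dom (plO_isVal P) hd ▸ hO

theorem core (hT : ∀ V : Subalgebra k M, IsVal V → V ≠ ⊤ →
      (∀ x ∈ IntermediateField.adjoin k {t}, x ∈ V) → V ∈ T)
    (h1 : RS.BiAnti T D₁ D₂ φ) (h2 : RS.SmoothZero T D₁ D₂ φ)
    (tr : Transcendental (IntermediateField.adjoin k {t}) w)
    (top : IntermediateField.adjoin (IntermediateField.adjoin k {t}) {w} = ⊤)
    (δ₀ δ₁ : Derivation k M M) (a0 : δ₀ t = 1) (b0 : δ₀ w = 0) (a1 : δ₁ t = 0) (b1 : δ₁ w = 1)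
    (hj : ∀ a b, RS.jac D₁ D₂ a b = (δ₀ a * δ₁ b - δ₁ a * δ₀ b) * RS.jac D₁ D₂ t w) :
    ∃ g : (IntermediateField.adjoin k {t})[X], Squarefree g ∧
      φ * RS.jac D₁ D₂ t w ^ 2 = aeval w g := by
  have hb : ∀ (π : (IntermediateField.adjoin k {t})[X]) (hπ : Prime π),
      ∀ x ∈ IntermediateField.adjoin k {t}, x ∈ loc k w hπ := fun π hπ x hx => by
    simpa using poly_mem (k := k) (w := w) hπ (C ⟨x, hx⟩)
  have hm : ∀ (π : (IntermediateField.adjoin k {t})[X]) (hπ : Prime π), loc k w hπ ∈ T :=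
    fun π hπ => hT _ (isVal tr top hπ) (fun e => (pi_mx (k := k) tr hπ).2
      (e ▸ isU_top.2 (ne0 tr hπ.ne_zero))) (hb π hπ)
  obtain ⟨g, e⟩ := poly (k := k) tr top (f := φ * RS.jac D₁ D₂ t w ^ 2) fun π hπ =>
    h1 _ (hm π hπ) t (hb π hπ t (IntermediateField.mem_adjoin_simple_self k t)) w
      (by simpa using poly_mem (k := k) (w := w) hπ X)
  refine ⟨g, (squarefree_iff_irreducible_sq_not_dvd_of_exists_irreducible
    ⟨X, irreducible_X⟩).2 fun π hπ ⟨q, hq⟩ => ?_, e⟩
  obtain ⟨a, ha, b, hb', hn⟩ := h2 _ (hm π hπ.prime)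
  have s0 := fun x hx => stable tr hπ.prime δ₀ (base δ₀ (a0 ▸ one_mem _)) (b0 ▸ zero_mem _) (a := x) hx
  have s1 := fun x hx => stable tr hπ.prime δ₁ (base δ₁ (a1 ▸ zero_mem _)) (b1 ▸ one_mem _) (a := x) hx
  have hu := pow_mem (sub_mem (mul_mem (s0 a ha) (s1 b hb')) (mul_mem (s1 a ha) (s0 b hb'))) 2
  refine hn (AddSubmonoid.subset_closure ⟨_, pi_mx tr hπ.prime, _,
    mx_mul_right (mx_mul_right (pi_mx tr hπ.prime) (poly_mem hπ.prime q)) hu, ?_⟩)
  rw [hj a b, mul_pow, mul_left_comm, e, hq, map_mul, map_mul]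
  ring

end Ecr

theorem ecr_stmt : EcrStmt := by
  intro d k M _ _ _ _ _ D₁ D₂ φ T t z hT tri h1 h2 hG h3
  have er : Set.range ![t, z] = {t, z} := by
    simp [Matrix.range_cons, Matrix.range_empty, Set.pair_comm]
  obtain ⟨δ, hδ⟩ := d.ex k M 2 ![t, z] hG.1 (er ▸ hG.2)
  have ch : ∀ (D : Derivation k M M) a, D a = δ a 0 * D t + δ a 1 * D z := fun D a => by
    simpa using d.chain k M M M 2 ![t, z] δ (AlgHom.id k M) D (er ▸ hG.2) hδ a
  let δ₀ : Derivation k M M := (LinearMap.proj (R := M) (φ := fun _ : Fin 2 => M) 0).compDer δ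
  let δ₁ : Derivation k M M := (LinearMap.proj (R := M) (φ := fun _ : Fin 2 => M) 1).compDer δ
  have a0 : δ₀ t = 1 := congrFun (hδ 0) 0
  have b0 : δ₀ z = 0 := congrFun (hδ 1) 0
  have a1 : δ₁ t = 0 := congrFun (hδ 0) 1
  have b1 : δ₁ z = 1 := congrFun (hδ 1) 1
  have hj : ∀ a b, RS.jac D₁ D₂ a b = (δ₀ a * δ₁ b - δ₁ a * δ₀ b) * RS.jac D₁ D₂ t z := fun a b => by
    change _ = (δ a 0 * δ b 1 - δ a 1 * δ b 0) * _
    unfold RS.jac
    rw [ch D₁ a, ch D₂ a, ch D₁ b, ch D₂ b]
    ring
  have hm := fun V => Ecr.mem_T (t := t) hT tri (hG.1.transcendental 0) h3 (V := V)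
  have tr : Transcendental (IntermediateField.adjoin k {t}) z := by
    have := hG.1.transcendental_adjoin (s := {0}) (i := 1) (by simp)
    rw [Set.image_singleton] at this
    exact IntermediateField.transcendental_adjoin_iff.2 this
  have top : IntermediateField.adjoin (IntermediateField.adjoin k {t}) {z} = ⊤ :=
    IntermediateField.restrictScalars_injective k
      ((IntermediateField.adjoin_simple_adjoin_simple k t z).trans hG.2)
  have z0 : z ≠ 0 := fun e => tr (e ▸ isAlgebraic_zero)
  obtain ⟨g, g1, g2⟩ := Ecr.core hm h1 h2 tr top δ₀ δ₁ a0 b0 a1 b1 hj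
  have ej : RS.jac D₁ D₂ t z⁻¹ = -z⁻¹ ^ 2 * RS.jac D₁ D₂ t z := by
    unfold RS.jac
    rw [Derivation.leibniz_inv, Derivation.leibniz_inv, smul_eq_mul, smul_eq_mul]
    ring
  obtain ⟨g', g3, g4⟩ := Ecr.core (w := z⁻¹) hm h1 h2 (fun h => tr (IsAlgebraic.inv_iff.1 h))
    (eq_top_iff.2 (top.ge.trans (IntermediateField.adjoin_simple_le_iff.2 (by
      simpa using inv_mem (IntermediateField.mem_adjoin_simple_self _ z⁻¹))))) δ₀ ((-z ^ 2) • δ₁) a0
    (by rw [Derivation.leibniz_inv, b0, smul_zero]) (by rw [Derivation.smul_apply, a1, smul_zero])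
    (by
      rw [Derivation.smul_apply, Derivation.leibniz_inv, b1, smul_eq_mul, smul_eq_mul]
      field_simp)
    fun a b => by
      rw [hj a b, ej, Derivation.smul_apply, Derivation.smul_apply, smul_eq_mul, smul_eq_mul]
      field_simp
      ring
  refine ⟨_, g, fun e => Ecr.ne0 tr g1.ne_zero (by rw [← g2, e]; simp),
    PerfectField.separable_iff_squarefree.2 g1, ?_, g2⟩
  have e1 : g * X ^ g'.natDegree = X ^ 4 * g'.reverse := transcendental_iff_injective.1 tr (by
    have : Invertible z⁻¹ := invertibleOfNonzero (inv_ne_zero z0)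
    have e2 := eval₂_reverse_mul_pow (algebraMap (IntermediateField.adjoin k {t}) M) z⁻¹ g'
    rw [invOf_eq_inv, inv_inv, ← aeval_def, ← aeval_def, ← g4, ej] at e2
    change aeval z (g * X ^ g'.natDegree) = aeval z (X ^ 4 * g'.reverse)
    rw [map_mul, map_mul, map_pow, map_pow, aeval_X, ← g2,
      eq_div_of_mul_eq (pow_ne_zero _ (inv_ne_zero z0)) e2, inv_pow z g'.natDegree]
    field_simp)
  have e3 := congrArg natDegree e1
  rw [natDegree_mul_X_pow _ g1.ne_zero, natDegree_X_pow_mul _ (reverse_eq_zero.not.2 g3.ne_zero)]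
    at e3
  have e4 := natDegree_eq_reverse_natDegree_add_natTrailingDegree g'
  have e5 : g'.natTrailingDegree < 2 := by
    by_contra hn
    refine not_isUnit_X (g3 X ?_)
    rw [← pow_two, X_pow_dvd_iff]
    exact fun n h => coeff_eq_zero_of_lt_natTrailingDegree (by omega)
  omega

end Pool.Agent.MP_20d318_ag.KK

end PartEcr

section PartPlf

/-! The equation of the branch curve of a double plane is a smooth sextic. -/

set_option autoImplicit false
set_option linter.unusedSectionVars false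

namespace Pool.Agent.MP_20d318_ag.KK

open Pool.Agent.MP_fd6584_ag.Fn Pool.Agent.CBk Polynomial
open Pool.Agent.MP_fd6584_ag.AG hiding deg_inv deg_congr deg_of_unit deg_mul deg_prod deg_zpow
  deg_eq_zero deg_nonneg deg_div deg_pow
open Pool.Agent.MP_20d318_ag.CH (MW cb Der)

namespace PLF

variable {k M : Type} [Field k] [Field M] [Algebra k M] {a b x y : M} {O : Subalgebra k M}

/-- A function that is regular at all points of an affine scheme is regular. -/
theorem mem_all {R : Subalgebra k M} {f : M} (h : ∀ O ∈ Pts R, f ∈ O) : f ∈ R := by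
  let I : Ideal R :=
    { carrier := {r | (r : M) * f ∈ R}
      add_mem' := fun {r s} hr hs => by
        simpa [add_mul] using R.add_mem hr hs
      zero_mem' := by simp
      smul_mem' := fun c r hr => by
        simpa [mul_assoc] using R.mul_mem c.2 hr }
  by_contra hn
  obtain ⟨m, hm, hI⟩ := Ideal.exists_le_maximal I fun e => hn (by
    have : (1 : R) ∈ I := e ▸ trivial
    simpa [I] using this)
  let _ := Ideal.Quotient.field m
  obtain ⟨O, hO, ρ, -, h2⟩ := exists_ext (Ideal.Quotient.mkₐ k m)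
  obtain ⟨s, hs, t, ht, hu, e⟩ := hO.2.2 f (h O hO)
  have h3 := evO_ne ρ hu
  rw [h2 t ht, evO_of_mem _ ht] at h3
  refine h3 (Ideal.Quotient.eq_zero_iff_mem.2 (hI ?_))
  change t * f ∈ R
  rwa [e, mul_div_cancel₀ _ hu.1]

/-- The rational points of the plane. -/
theorem ex_pt (h : GenP k a b) (q : Fin 2 → k) : ∃ O ∈ Pts (Algebra.adjoin k {a, b}),
    ∀ i, ![a, b] i - algebraMap k M (q i) ∈ mx O := by
  rw [← Pln.range_eq]
  obtain ⟨O, hO, ρ, h1, h2⟩ :=
    exists_ext ((MvPolynomial.aeval q).comp h.ind.aevalEquiv.symm.toAlgHom)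
  refine ⟨O, hO, fun i => ?_⟩
  have hi : ![a, b] i ∈ Algebra.adjoin k (Set.range ![a, b]) := Algebra.subset_adjoin ⟨i, rfl⟩
  have e : h.ind.aevalEquiv.symm ⟨_, hi⟩ = MvPolynomial.X i := by
    rw [AlgEquiv.symm_apply_eq]
    ext
    simp
  rw [← h1.eq_zero_iff (sub_mem (hO.2.1 hi) (O.algebraMap_mem _)),
    evO_sub ρ (hO.2.1 hi) (O.algebraMap_mem _), evO_const, h2 _ hi, evO_of_mem _ hi]
  simp [e]

/-- The chain rule. -/
theorem jac_mem (D₁ D₂ : Derivation k M M) (hO : O ∈ Pts (Algebra.adjoin k {a, b})) {c d : M}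
    (hc : c ∈ O) (hd : d ∈ O) : ∃ u ∈ O, RS.jac D₁ D₂ c d = u * RS.jac D₁ D₂ a b := by
  let S : Submodule O M := Submodule.span O {RS.jac D₁ D₂ a b}
  have hJ : RS.jac D₁ D₂ a b ∈ S := Submodule.mem_span_singleton_self _
  have sw : ∀ c d, RS.jac D₁ D₂ c d = -RS.jac D₁ D₂ d c := fun c d => by
    simp only [RS.jac]; ring
  have z : ∀ c, RS.jac D₁ D₂ c c ∈ S := fun c => by
    rw [show RS.jac D₁ D₂ c c = 0 by simp only [RS.jac]; ring]; exact zero_mem _
  have key : ∀ c, RS.jac D₁ D₂ c a ∈ S → RS.jac D₁ D₂ c b ∈ S → ∀ d ∈ O, RS.jac D₁ D₂ c d ∈ S :=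
    fun c h1 h2 => CH.der_span hO (D₁ c • D₂ - D₂ c • D₁) S (by rintro g (rfl | rfl) <;> assumption)
  have h1 := key a (z a) hJ c hc
  have h2 := key b (by rw [sw]; exact neg_mem hJ) (z b) c hc
  obtain ⟨u, hu⟩ := Submodule.mem_span_singleton.1
    (key c (by rw [sw]; exact neg_mem h1) (by rw [sw]; exact neg_mem h2) d hd)
  exact ⟨u, u.2, hu.symm⟩

/-- The square of the maximal ideal. -/
def mx2 (O : Subalgebra k M) : AddSubmonoid M :=
  AddSubmonoid.closure (Set.image2 (· * ·) (mx O) (mx O))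

theorem of_eq {S : AddSubmonoid M} (h : a ∈ S) (e : b = a) : b ∈ S := e ▸ h

theorem mx2_mul (ha : a ∈ O) (hb : b ∈ mx2 O) : a * b ∈ mx2 O := by
  induction hb using AddSubmonoid.closure_induction with
  | mem z hz =>
    obtain ⟨u, hu, v, hv, rfl⟩ := hz
    exact AddSubmonoid.subset_closure ⟨a * u, mx_mul_left ha hu, v, hv, mul_assoc a u v⟩
  | zero => rw [mul_zero]; exact zero_mem _
  | add u v _ _ hu hv => rw [mul_add]; exact add_mem hu hv

/-- The formula of Taylor to the first order. -/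
theorem tay1 (hO : IsLocalRing O) {c : Fin 3 → M} {q : Fin 3 → k}
    (hc : ∀ i, c i - algebraMap k M (q i) ∈ mx O) (G : MvPolynomial (Fin 3) k) :
    MvPolynomial.aeval c G - algebraMap k M (MvPolynomial.aeval q G) -
      ∑ i, algebraMap k M (MvPolynomial.aeval q (MvPolynomial.pderiv i G)) *
        (c i - algebraMap k M (q i)) ∈ mx2 O := by
  induction G using MvPolynomial.induction_on with
  | C r => simp
  | add p r hp hr =>
    refine of_eq (add_mem hp hr) ?_
    simp only [map_add, add_mul, Finset.sum_add_distrib]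
    ring
  | mul_X p i hp =>
    have h1 : c i ∈ O := by simpa using O.add_mem (hc i).1 (O.algebraMap_mem (q i))
    have h2 : (∑ j, algebraMap k M (MvPolynomial.aeval q (MvPolynomial.pderiv j p)) *
        (c j - algebraMap k M (q j))) * (c i - algebraMap k M (q i)) ∈ mx2 O :=
      AddSubmonoid.subset_closure
        ⟨_, mx_sum hO fun j _ => mx_mul_left (O.algebraMap_mem _) (hc j), _, hc i, rfl⟩
    refine of_eq (add_mem (mx2_mul h1 hp) h2) ?_
    fin_cases i <;> simp [Fin.sum_univ_three, MvPolynomial.pderiv_X] <;> ring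

/-- Functions on the chart at infinity. -/
theorem at_inf (h0 : x ≠ 0) {w : M} (hw : w ∈ Algebra.adjoin k {y / x, x⁻¹}) :
    ∃ (N : ℕ) (h : MvPolynomial (Fin 2) k), h.totalDegree ≤ N ∧
      MvPolynomial.aeval ![x, y] h = x ^ N * w := by
  have hX : ∀ n, ((MvPolynomial.X 0 : MvPolynomial (Fin 2) k) ^ n).totalDegree = n :=
    MvPolynomial.totalDegree_X_pow 0
  induction hw using Algebra.adjoin_induction with
  | mem z hz =>
    rcases hz with rfl | rfl
    · exact ⟨1, MvPolynomial.X 1, by simp, by simp [mul_div_cancel₀ _ h0]⟩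
    · exact ⟨1, 1, by simp, by simp [h0]⟩
  | algebraMap r => exact ⟨0, MvPolynomial.C r, by simp, by simp⟩
  | add u v _ _ hu hv =>
    obtain ⟨N, f, f1, f2⟩ := hu
    obtain ⟨N', g, g1, g2⟩ := hv
    refine ⟨N + N', MvPolynomial.X 0 ^ N' * f + MvPolynomial.X 0 ^ N * g,
      (MvPolynomial.totalDegree_add _ _).trans (max_le ?_ ?_), ?_⟩
    · exact (MvPolynomial.totalDegree_mul _ _).trans (by rw [hX]; omega)
    · exact (MvPolynomial.totalDegree_mul _ _).trans (by rw [hX]; omega)
    · simp only [map_add, map_mul, map_pow, MvPolynomial.aeval_X, f2, g2, Matrix.cons_val_zero]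
      ring
  | mul u v _ _ hu hv =>
    obtain ⟨N, f, f1, f2⟩ := hu
    obtain ⟨N', g, g1, g2⟩ := hv
    refine ⟨N + N', f * g, (MvPolynomial.totalDegree_mul _ _).trans (by omega), ?_⟩
    rw [map_mul, f2, g2]
    ring

theorem deg_le (h : GenP k x y) {f : MvPolynomial (Fin 2) k} {n : ℕ}
    (hf : MvPolynomial.aeval ![x, y] f / x ^ n ∈ Algebra.adjoin k {y / x, x⁻¹}) :
    f.totalDegree ≤ n := by
  have h0 : x ≠ 0 := by simpa using h.x_ne 0
  obtain ⟨N, g, g1, g2⟩ := at_inf h0 hf
  by_cases f0 : f = 0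
  · simp [f0]
  have e : MvPolynomial.X 0 ^ N * f = MvPolynomial.X 0 ^ n * g := Pln.inj h (by
    simp only [map_mul, map_pow, MvPolynomial.aeval_X, g2, Matrix.cons_val_zero]
    field_simp)
  have h1 := MvPolynomial.totalDegree_mul_of_isDomain
    (pow_ne_zero N (MvPolynomial.X_ne_zero (R := k) (0 : Fin 2))) f0
  have h2 := MvPolynomial.totalDegree_mul ((MvPolynomial.X 0 : MvPolynomial (Fin 2) k) ^ n) g
  rw [e] at h1
  rw [h1, MvPolynomial.totalDegree_X_pow, MvPolynomial.totalDegree_X_pow] at h2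
  omega

/-- Homogenization. -/
theorem homog {f : MvPolynomial (Fin 2) k} {n : ℕ} (hf : f.totalDegree ≤ n) :
    ∃ G : MvPolynomial (Fin 3) k, G.IsHomogeneous n ∧
      MvPolynomial.aeval ![x, y, 1] G = MvPolynomial.aeval ![x, y] f := by
  refine ⟨∑ j ∈ Finset.range (f.totalDegree + 1), MvPolynomial.X 2 ^ (n - j) *
    MvPolynomial.rename Fin.castSucc (MvPolynomial.homogeneousComponent j f),
    MvPolynomial.IsHomogeneous.sum _ _ _ fun j hj => ?_, ?_⟩
  · have := (MvPolynomial.isHomogeneous_X_pow (R := k) (2 : Fin 3) (n - j)).mul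
      ((MvPolynomial.homogeneousComponent_isHomogeneous j f).rename_isHomogeneous
        (f := Fin.castSucc))
    rwa [Nat.sub_add_cancel ((Nat.lt_succ_iff.1 (Finset.mem_range.1 hj)).trans hf)] at this
  · conv_rhs => rw [← MvPolynomial.sum_homogeneousComponent f]
    rw [map_sum, map_sum]
    refine Finset.sum_congr rfl fun j _ => ?_
    have e : (![x, y, 1] : Fin 3 → M) ∘ Fin.castSucc = ![x, y] := by
      ext i; fin_cases i <;> rfl
    simp [MvPolynomial.aeval_rename, e]

/-- The local criterion in one chart. -/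
theorem chart {D₁ D₂ : Derivation k M M} {φ : M} {G : MvPolynomial (Fin 3) k} (h : GenP k a b)
    (hs : ∀ O ∈ Pts (Algebra.adjoin k {a, b}), ∃ c ∈ O, ∃ d ∈ O, φ * RS.jac D₁ D₂ c d ^ 2 ∉ mx2 O)
    (hG : G.IsHomogeneous 6) {v : Fin 3 → M} (e : φ * RS.jac D₁ D₂ a b ^ 2 = MvPolynomial.aeval v G)
    {q : Fin 3 → k} {i : Fin 3} (hq : q i ≠ 0) (s : Fin 2 → Fin 3) (hv : v i = 1)
    (hs' : ∀ j, v (s j) = ![a, b] j) (hc : ∀ l, l = i ∨ ∃ j, s j = l)
    (h0 : MvPolynomial.aeval q G = 0) :
    ∃ l, MvPolynomial.aeval q (MvPolynomial.pderiv l G) ≠ 0 := by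
  by_contra hn
  push Not at hn
  obtain ⟨O, hO, hm⟩ := ex_pt h fun j => q (s j) / q i
  obtain ⟨c, c1, d, d1, h1⟩ := hs O hO
  obtain ⟨u, u1, u2⟩ := jac_mem D₁ D₂ hO c1 d1
  have t0 : algebraMap k M (q i) ≠ 0 := (isU_const (O := O) hq).1
  have h2 := tay1 hO.1 (c := algebraMap k M (q i) • v) (q := q) (fun l => by
    rcases hc l with rfl | ⟨j, rfl⟩
    · simpa [hv] using zero_mem_mx
    · have := mx_mul_left (O.algebraMap_mem (q i)) (hm j)
      rwa [mul_sub, map_div₀, mul_div_cancel₀ _ t0, ← hs'] at this) G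
  simp only [h0, hn, map_zero, zero_mul, Finset.sum_const_zero, sub_zero,
    CBk.aeval_smul hG] at h2
  have h3 := mx2_mul (O.mul_mem (O.pow_mem u1 2) (O.pow_mem (isU_const hq).inv_mem 6)) h2
  refine h1 (of_eq h3 ?_)
  rw [u2, mul_pow, mul_left_comm φ, e]
  field_simp

/-- Reduction to rational points. -/
theorem smf [IsAlgClosed k] {G : MvPolynomial (Fin 3) k} (hG : G.IsHomogeneous 6)
    (h : ∀ (q : Fin 3 → k) (i : Fin 3), q i ≠ 0 → MvPolynomial.aeval q G = 0 →
      ∃ l, MvPolynomial.aeval q (MvPolynomial.pderiv l G) ≠ 0) : SmF G := by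
  refine ⟨hG, fun L _ _ p hp h0 => ?_⟩
  obtain ⟨T, ψ, hT⟩ := exists_pt (k := k) (Set.finite_range p)
  choose h1 h2 using fun i => hT (p i) ⟨i, rfl⟩
  have key : ∀ F : MvPolynomial (Fin 3) k, MvPolynomial.aeval p F = 0 →
      MvPolynomial.aeval (fun i => ψ ⟨p i, h1 i⟩) F = 0 := fun F hF => by
    have e : MvPolynomial.aeval (fun i => (⟨p i, h1 i⟩ : T)) F = 0 := Subtype.ext (by
      have := MvPolynomial.comp_aeval_apply (f := fun i => (⟨p i, h1 i⟩ : T)) T.val F
      exact this.trans hF)
    rw [← MvPolynomial.comp_aeval_apply, e, map_zero]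
  obtain ⟨i, hi⟩ := Function.ne_iff.1 hp
  obtain ⟨l, hl⟩ := h _ i (h2 i hi) (key G h0)
  exact ⟨l, fun e => hl (key _ e)⟩

theorem top_of {x' y' : M} (h : IntermediateField.adjoin k {x, y} = ⊤)
    (hx : x ∈ IntermediateField.adjoin k {x', y'}) (hy : y ∈ IntermediateField.adjoin k {x', y'}) :
    IntermediateField.adjoin k {x', y'} = ⊤ := by
  rw [← top_le_iff, ← h, IntermediateField.adjoin_le_iff]
  rintro g (rfl | rfl) <;> assumption

theorem gen2 [IsAlgClosed k] (h : GenP k x y) : GenP k (y / x) x⁻¹ := by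
  have h0 : x ≠ 0 := by simpa using h.x_ne 0
  have h1 : y / x ∈ IntermediateField.adjoin k {y / x, x⁻¹} :=
    IntermediateField.subset_adjoin _ _ (Or.inl rfl)
  have h2 : x⁻¹ ∈ IntermediateField.adjoin k {y / x, x⁻¹} :=
    IntermediateField.subset_adjoin _ _ (Or.inr rfl)
  exact (plane_stmt k M x y h).top _ _
    (top_of h.top (by simpa using inv_mem h2) (by simpa [h0] using div_mem h1 h2))

theorem jac2 (D₁ D₂ : Derivation k M M) (h0 : x ≠ 0) :
    RS.jac D₁ D₂ (y / x) x⁻¹ = RS.jac D₁ D₂ x y / x ^ 3 := by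
  simp only [RS.jac, Derivation.leibniz_div, Derivation.leibniz_inv, smul_eq_mul]
  field_simp
  ring

end PLF

open PLF in
theorem plf_stmt : PlfStmt := by
  intro _ k M _ _ _ _ _ D₁ D₂ φ x y hg hb hs
  have h : GenP k x y := ⟨hg.1, hg.2⟩
  have x0 : x ≠ 0 := by simpa using h.x_ne 0
  have y0 : y ≠ 0 := by simpa using h.y_ne 0
  have sub : ∀ c ∈ ({(x, y), (y / x, x⁻¹), (x / y, y⁻¹)} : Set (M × M)),
      ∀ O ∈ Pts (Algebra.adjoin k {c.1, c.2}),
        O ∈ RS.planes k {(x, y), (y / x, x⁻¹), (x / y, y⁻¹)} :=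
    fun c hc O hO => Set.mem_biUnion hc hO
  have reg : ∀ c ∈ ({(x, y), (y / x, x⁻¹), (x / y, y⁻¹)} : Set (M × M)),
      φ * RS.jac D₁ D₂ c.1 c.2 ^ 2 ∈ Algebra.adjoin k {c.1, c.2} := fun c hc =>
    mem_all fun O hO => hb O (sub c hc O hO) _ (hO.2.1 (Algebra.subset_adjoin (Or.inl rfl))) _
      (hO.2.1 (Algebra.subset_adjoin (Or.inr rfl)))
  obtain ⟨f, hf⟩ := Pln.mem_R.1 (reg (x, y) (Or.inl rfl))
  have e2 : φ * RS.jac D₁ D₂ (y / x) x⁻¹ ^ 2 = MvPolynomial.aeval ![x, y] f / x ^ 6 := by
    rw [jac2 D₁ D₂ x0, hf]; field_simp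
  have e3 : φ * RS.jac D₁ D₂ (x / y) y⁻¹ ^ 2 = MvPolynomial.aeval ![x, y] f / y ^ 6 := by
    rw [jac2 D₁ D₂ y0, hf]; simp only [RS.jac]; field_simp; ring
  obtain ⟨G, g1, g2⟩ := homog (x := x) (y := y)
    (deg_le h (e2 ▸ reg (y / x, x⁻¹) (Or.inr (Or.inl rfl))))
  refine ⟨G, RS.jac D₁ D₂ x y, smf g1 fun q i hq h0 => ?_, fun e => ?_, by rw [g2, hf]⟩
  · fin_cases i
    · refine chart (gen2 h) (fun O hO => hs O (sub (y / x, x⁻¹) (Or.inr (Or.inl rfl)) O hO)) g1
        (v := x⁻¹ • ![x, y, 1]) ?_ hq ![1, 2] (by simp [x0]) (fun j => ?_) (by decide) h0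
      · rw [e2, CBk.aeval_smul g1, g2]; field_simp
      · fin_cases j <;> simp [div_eq_inv_mul]
    · refine chart (gen2 h.swap) (fun O hO => hs O (sub (x / y, y⁻¹) (Or.inr (Or.inr rfl)) O hO))
        g1 (v := y⁻¹ • ![x, y, 1]) ?_ hq ![0, 2] (by simp [y0]) (fun j => ?_) (by decide) h0
      · rw [e3, CBk.aeval_smul g1, g2]; field_simp
      · fin_cases j <;> simp [div_eq_inv_mul]
    · refine chart h (fun O hO => hs O (sub (x, y) (Or.inl rfl) O hO)) g1 (v := ![x, y, 1])
        (by rw [g2, hf]) hq ![0, 1] rfl (fun j => ?_) (by decide) h0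
      fin_cases j <;> rfl
  · obtain ⟨O, hO, -⟩ := ex_pt h 0
    obtain ⟨c, c1, d, d1, h1⟩ := hs O (sub (x, y) (Or.inl rfl) O hO)
    obtain ⟨u, -, u2⟩ := jac_mem D₁ D₂ hO c1 d1
    rw [u2, e] at h1
    exact h1 (by simp)

end Pool.Agent.MP_20d318_ag.KK

end PartPlf

section PartGpt

/-! Row GPT: the generic point of a smooth plane sextic. -/

set_option autoImplicit false

namespace Pool.Agent.MP_20d318_ag.KK

open Polynomial

namespace Gpt

open MvPolynomial (pderiv)

variable {k : Type} [Field k]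

theorem scal {H : MvPolynomial (Fin 3) k} {n : ℕ} (h : H.IsHomogeneous n) (z : k) (p : Fin 3 → k) :
    MvPolynomial.eval (fun i => z * p i) H = z ^ n * MvPolynomial.eval p H := by
  rw [MvPolynomial.eval_eq', MvPolynomial.eval_eq', Finset.mul_sum]
  refine Finset.sum_congr rfl fun m hm => ?_
  have : ∑ i, m i = n := by
    rw [← Finsupp.degree_eq_sum]
    by_contra e
    exact MvPolynomial.mem_support_iff.1 hm (h.coeff_eq_zero e)
  simp only [mul_pow, Finset.prod_mul_distrib, Finset.prod_pow_eq_pow_sum, this]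
  ring

theorem pcomm (i j : Fin 3) (G : MvPolynomial (Fin 3) k) :
    pderiv i (pderiv j G) = pderiv j (pderiv i G) := by
  induction G using MvPolynomial.induction_on with
  | C a => simp
  | add p q hp hq => simp [hp, hq]
  | mul_X p l hp =>
    have e : ∀ a b : Fin 3, pderiv a (pderiv b (MvPolynomial.X l : MvPolynomial (Fin 3) k)) = 0 :=
      fun a b => by
        rw [MvPolynomial.pderiv_X, Pi.single_apply]; split_ifs <;> simp
    simp only [Derivation.leibniz, map_add, smul_eq_mul, e, hp]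
    ring

theorem chain {L : Type} [Field L] [Algebra k L] (t : L) (G : MvPolynomial (Fin 3) k) :
    derivative (MvPolynomial.aeval ![C t, X, 1] G) =
      MvPolynomial.aeval ![C t, X, 1] (pderiv 1 G) := by
  induction G using MvPolynomial.induction_on with
  | C a => simp
  | add p q hp hq => simp [hp, hq]
  | mul_X p l hp =>
    simp only [Derivation.leibniz, map_add, map_mul, smul_eq_mul, derivative_mul, hp]
    fin_cases l <;> simp [MvPolynomial.pderiv_X, add_comm, mul_comm]

theorem van [Infinite k] {L : Type} [Field L] [Algebra k L] {t : L} (ht : Transcendental k t)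
    {H : MvPolynomial (Fin 3) k} {n : ℕ} (h : H.IsHomogeneous n)
    (h0 : MvPolynomial.aeval ![C t, X, 1] H = 0) : H = 0 := by
  have h1 : MvPolynomial.aeval ![C X, X, (1 : k[X][X])] H = 0 := by
    apply map_injective (aeval t : k[X] →ₐ[k] L).toRingHom (transcendental_iff_injective.1 ht)
    rw [Polynomial.map_zero, ← h0]
    refine (MvPolynomial.comp_aeval_apply _ (mapAlgHom (aeval t : k[X] →ₐ[k] L)) H).trans ?_
    congr 2
    funext i
    fin_cases i <;> simp
  have h2 : ∀ x y : k, MvPolynomial.eval ![x, y, 1] H = 0 := fun x y => by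
    have := congrArg (aevalAeval (R := k) x y) h1
    rw [map_zero, MvPolynomial.comp_aeval_apply] at this
    rw [← this, ← MvPolynomial.aeval_eq_eval]
    congr 2
    funext i
    fin_cases i <;> simp
  refine (mul_eq_zero.1 (MvPolynomial.funext fun p => ?_)).resolve_left (MvPolynomial.X_ne_zero 2)
  rw [map_mul, MvPolynomial.eval_X, map_zero, mul_eq_zero, or_iff_not_imp_left]
  intro z
  have := scal h (p 2) ![p 0 / p 2, p 1 / p 2, 1]
  rw [h2, mul_zero] at this
  rw [← this]
  congr 2
  funext i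
  fin_cases i <;> simp [mul_div_cancel₀ _ z]

theorem top [CharZero k] {H : MvPolynomial (Fin 3) k} {n : ℕ} (h : H.IsHomogeneous (n + 1))
    (h0 : pderiv 1 H = 0) : MvPolynomial.aeval ![(0 : k), 1, 0] H = 0 := by
  have := congrArg (MvPolynomial.aeval ![(0 : k), 1, 0]) h.sum_X_mul_pderiv
  simpa [Fin.sum_univ_three, h0, Nat.cast_add_one_ne_zero] using this

theorem der (L : Type) [Field L] [Algebra k L] [Algebra k[X] L] [IsScalarTower k k[X] L]
    [Algebra.FormallyEtale k[X] L] : ∃ d : Derivation k L L, d (algebraMap k[X] L X) = 1 := by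
  have h := KaehlerDifferential.isBaseChange_of_formallyEtale k k[X] L
  refine ⟨(h.lift (Algebra.linearMap k[X] L ∘ₗ (KaehlerDifferential.polynomialEquiv k).toLinearMap)
    ).compDer (KaehlerDifferential.D k L), ?_⟩
  change h.lift _ (KaehlerDifferential.D k L _) = 1
  rw [← KaehlerDifferential.map_D k k k[X] L, h.lift_eq]
  simp

end Gpt

open Gpt in
theorem gpt_stmt : GptStmt := by
  intro k _ _ _ G hG
  let L := AlgebraicClosure (FractionRing k[X])
  have : Algebra.FormallyEtale k[X] (FractionRing k[X]) :=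
    .of_isLocalization (nonZeroDivisors k[X])
  have : Algebra.FormallyEtale (FractionRing k[X]) L := .of_isSeparable _ _
  have : Algebra.FormallyEtale k[X] L := .comp _ (FractionRing k[X]) _
  obtain ⟨d, hd⟩ := der (k := k) L
  have e : ∀ p : k[X], aeval (algebraMap k[X] L X) p = algebraMap k[X] L p := fun p => by
    rw [aeval_algebraMap_apply, aeval_X_left_apply]
  have inj : Function.Injective (algebraMap k[X] L) := by
    rw [IsScalarTower.algebraMap_eq k[X] (FractionRing k[X]) L]
    exact (algebraMap (FractionRing k[X]) L).injective.comp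
      (IsFractionRing.injective k[X] (FractionRing k[X]))
  have ht : Transcendental k (algebraMap k[X] L X) := transcendental_iff_injective.2 fun p q h =>
    inj ((e p).symm.trans (h.trans (e q)))
  have ha : Algebra.IsAlgebraic k[X] L :=
    (IsFractionRing.comap_isAlgebraic_iff (K := FractionRing k[X])).2 inferInstance
  generalize hT : algebraMap k[X] L X = t at *
  have hP : (MvPolynomial.aeval ![C t, X, 1] G).degree ≠ 0 := fun z => by
    have h1 : MvPolynomial.pderiv 1 G = 0 := van ht hG.1.pderiv (by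
      rw [← chain, eq_C_of_degree_eq_zero z, derivative_C])
    obtain ⟨i, hi⟩ := hG.2 k ![0, 1, 0] (fun y => by simpa using congrFun y 1) (top hG.1 h1)
    exact hi (top (n := 4) hG.1.pderiv (by rw [pcomm, h1, map_zero]))
  obtain ⟨u, hu⟩ := IsAlgClosed.exists_root _ hP
  refine ⟨L, _, inferInstance, _, d, t, u, hG, hd, ?_, ⟨fun x => ?_⟩⟩
  · rw [← hu.eq_zero, ← coe_aeval_eq_eval]
    refine Eq.trans ?_ (MvPolynomial.comp_aeval_apply _ ((aeval u).restrictScalars k) G).symm
    congr 2
    funext i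
    fin_cases i <;> simp
  · obtain ⟨p, p0, p1⟩ := ha.1 x
    let φ : k[X] →ₐ[k] Algebra.adjoin k {t} := aeval ⟨t, Algebra.subset_adjoin rfl⟩
    have e2 : (algebraMap (Algebra.adjoin k {t}) L).comp φ.toRingHom = algebraMap k[X] L :=
      RingHom.ext fun q => (aeval_algebraMap_apply L
        (⟨t, Algebra.subset_adjoin rfl⟩ : Algebra.adjoin k {t}) q).symm.trans (e q)
    refine ⟨p.map φ.toRingHom, (Polynomial.map_ne_zero_iff (Function.Injective.of_comp
      (f := algebraMap _ L) (by rw [← RingHom.coe_comp, e2]; exact inj))).2 p0, ?_⟩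
    rw [aeval_def, eval₂_map, e2]
    exact p1

end Pool.Agent.MP_20d318_ag.KK

end PartGpt

section PartNfl

/-! Row NFL: a smooth plane sextic does not contain a line. -/

set_option autoImplicit false
set_option linter.unusedSectionVars false

namespace Pool.Agent.MP_20d318_ag.KK

open Polynomial

namespace Nfl

variable {k k₁ : Type} [Field k] [Field k₁] [Algebra k k₁]

/-- The chain rule. -/
theorem chain (d : Derivation k k₁ k₁) (f : Fin 3 → k₁) (G : MvPolynomial (Fin 3) k) :
    d (MvPolynomial.aeval f G) =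
      ∑ i, MvPolynomial.aeval f (MvPolynomial.pderiv i G) * d (f i) := by
  induction G using MvPolynomial.induction_on with
  | C a => simp
  | add p q hp hq => simp [hp, hq, add_mul, Finset.sum_add_distrib]
  | mul_X p i hp =>
    simp only [map_mul, MvPolynomial.aeval_X, Derivation.leibniz, hp, smul_eq_mul, map_add,
      add_mul, Finset.sum_add_distrib, Finset.mul_sum, MvPolynomial.pderiv_X]
    congr 1
    · rw [Finset.sum_eq_single i]
      · simp
      · intro j _ hj
        simp [Ne.symm hj]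
      · simp
    · exact Finset.sum_congr rfl fun j _ => by ring

/-- A polynomial with constant coefficients that vanishes at `t` is zero. -/
theorem cst_poly [CharZero k₁] (d : Derivation k k₁ k₁) {t : k₁} (ht : d t = 1) (n : ℕ) :
    ∀ P : k₁[X], P.natDegree ≤ n → (∀ i, d (P.coeff i) = 0) → P.eval t = 0 → P = 0 := by
  induction n with
  | zero =>
    intro P h _ e
    rw [eq_C_of_natDegree_le_zero h] at e ⊢
    rw [eval_C] at e
    rw [e, C_0]
  | succ n ih =>
    intro P h c e
    have h1 : d (P.eval t) = (derivative P).eval t := by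
      rw [eval_eq_sum_range, map_sum, derivative_eval, Polynomial.sum_over_range _ (by simp)]
      refine Finset.sum_congr rfl fun i _ => ?_
      rw [Derivation.leibniz, c, Derivation.leibniz_pow, ht]
      simp [mul_assoc]
    have h2 : derivative P = 0 := by
      refine ih _ ((natDegree_derivative_le P).trans (by omega)) (fun i => ?_) ?_
      · rw [coeff_derivative, Derivation.leibniz, c]
        have : d ((i : k₁) + 1) = 0 := by
          rw [map_add, Derivation.map_natCast, d.map_one_eq_zero, add_zero]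
        simp [this]
      · rw [← h1, e, map_zero]
    have h3 := Polynomial.derivative_eq_zero.1 h2
    rw [eq_C_of_natDegree_eq_zero h3] at e ⊢
    rw [eval_C] at e
    rw [e, C_0]

theorem inj [CharZero k₁] (d : Derivation k k₁ k₁) {t : k₁} (ht : d t = 1) (p : k[X])
    (e : aeval t p = 0) : p = 0 := by
  have := cst_poly d ht _ (p.map (algebraMap k k₁)) le_rfl
    (fun i => by rw [coeff_map, Derivation.map_algebraMap]) (by rw [eval_map_algebraMap, e])
  exact (Polynomial.map_eq_zero_iff (algebraMap k k₁).injective).1 this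

/-- The constants lie in the ground field. -/
theorem cst [CharZero k₁] [IsAlgClosed k] (d : Derivation k k₁ k₁) {t : k₁} (ht : d t = 1)
    (alg : Algebra.IsAlgebraic (Algebra.adjoin k {t}) k₁) {c : k₁} (hc : d c = 0) :
    ∃ a : k, algebraMap k k₁ a = c := by
  obtain ⟨P, P0, hP⟩ := alg.isAlgebraic c
  have hp : ∀ i, ∃ p : k[X], aeval t p = (P.coeff i : k₁) := fun i => by
    exact (Algebra.adjoin_singleton_eq_range_aeval k t).le (P.coeff i).2
  choose p hp using hp
  have hQ : (∑ i ∈ P.support, C (c ^ i) * (p i).map (algebraMap k k₁)) = 0 := by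
    refine cst_poly d ht _ _ le_rfl (fun j => ?_) ?_
    · rw [finsetSum_coeff, map_sum]
      refine Finset.sum_eq_zero fun i _ => ?_
      rw [coeff_C_mul, coeff_map, Derivation.leibniz, Derivation.map_algebraMap,
        Derivation.leibniz_pow, hc]
      simp
    · rw [eval_finsetSum, ← hP, aeval_def, eval₂_eq_sum, Polynomial.sum_def]
      refine Finset.sum_congr rfl fun i _ => ?_
      rw [eval_mul, eval_C, eval_map_algebraMap, hp, mul_comm]
      rfl
  obtain ⟨i, hi⟩ := Polynomial.support_nonempty.2 P0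
  have pi : p i ≠ 0 := fun e => by
    have := hp i
    rw [e, map_zero] at this
    exact mem_support_iff.1 hi (Subtype.ext this.symm)
  obtain ⟨j, hj⟩ := Polynomial.support_nonempty.2 pi
  have ha : IsAlgebraic k c := by
    refine ⟨∑ l ∈ P.support, monomial l ((p l).coeff j), fun e => ?_, ?_⟩
    · have := congrArg (fun q => coeff q i) e
      simp only [finsetSum_coeff, coeff_monomial, Finset.sum_ite_eq', hi, if_true,
        coeff_zero] at this
      exact mem_support_iff.1 hj this
    · have := congrArg (fun q => coeff q j) hQ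
      simp only [finsetSum_coeff, coeff_C_mul, coeff_map, coeff_zero] at this
      rw [map_sum, ← this]
      exact Finset.sum_congr rfl fun l _ => by rw [aeval_monomial, mul_comm]
  exact minpoly.mem_range_of_degree_eq_one k c
    (IsAlgClosed.degree_eq_one_of_irreducible k (minpoly.irreducible ha.isIntegral))

/-- Scaling of a form. -/
theorem scale {F : MvPolynomial (Fin 3) k} {n : ℕ} (h : F.IsHomogeneous n) (y : k)
    (p : Fin 3 → k) : MvPolynomial.aeval (fun i => y * p i) F = y ^ n * MvPolynomial.aeval p F := by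
  rw [MvPolynomial.aeval_def, MvPolynomial.aeval_def, MvPolynomial.eval₂_eq,
    MvPolynomial.eval₂_eq, Finset.mul_sum]
  refine Finset.sum_congr rfl fun s hs => ?_
  simp only [mul_pow, Finset.prod_mul_distrib, Finset.prod_pow_eq_pow_sum]
  rw [← h.degree_eq_sum_deg_support hs]
  ring

/-- The restriction to the line. -/
noncomputable def r (a b : k) : MvPolynomial (Fin 3) k →ₐ[k] k[X] :=
  MvPolynomial.aeval ![X, C a * X + C b, 1]

theorem aeval_r {L : Type} [Field L] [Algebra k L] (a b : k) (x : L) (F : MvPolynomial (Fin 3) k) :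
    aeval x (r a b F) =
      MvPolynomial.aeval ![x, algebraMap k L a * x + algebraMap k L b, 1] F := by
  rw [r, ← AlgHom.comp_apply, MvPolynomial.comp_aeval]
  congr 2
  funext i
  fin_cases i <;> simp

/-- The value at the point at infinity of the line. -/
theorem inf [Infinite k] {F : MvPolynomial (Fin 3) k} {n : ℕ} (h : F.IsHomogeneous (n + 1))
    {a b c : k} (e : r a b F = C c) : MvPolynomial.aeval ![1, a, 0] F = 0 := by
  have ev : ∀ y : k, eval y (MvPolynomial.aeval ![1, C a + C b * X, X] F : k[X]) =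
      MvPolynomial.aeval ![1, a + b * y, y] F := fun y => by
    rw [← coe_aeval_eq_eval]
    change aeval y _ = _
    rw [← AlgHom.comp_apply, MvPolynomial.comp_aeval]
    congr 2
    funext i
    fin_cases i <;> simp
  have h1 : (MvPolynomial.aeval ![1, C a + C b * X, X] F : k[X]) = C c * X ^ (n + 1) := by
    refine Polynomial.eq_of_infinite_eval_eq _ _ ?_
    refine ((Set.finite_singleton (0 : k)).infinite_compl).mono fun y hy => ?_
    have y0 : y ≠ 0 := hy
    have h2 := aeval_r a b y⁻¹ F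
    rw [e, aeval_C] at h2
    have h3 := scale h y ![y⁻¹, a * y⁻¹ + b, 1]
    have h4 : (fun i => y * ![y⁻¹, a * y⁻¹ + b, 1] i) = ![1, a + b * y, y] := by
      funext i
      fin_cases i <;> simp <;> field_simp
    rw [h4] at h3
    change eval y _ = eval y _
    rw [ev, h3]
    simp only [Algebra.algebraMap_self, RingHom.id_apply] at h2
    rw [← h2, eval_mul, eval_C, eval_pow, eval_X, mul_comm]
  have := ev 0
  rw [h1] at this
  simpa using this.symm

end Nfl

theorem nfl_stmt : NflStmt := by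
  intro k k₁ _ _ _ _ _ _ G d t u h h0
  have : CharZero k₁ := charZero_of_injective_algebraMap (algebraMap k k₁).injective
  obtain ⟨a, ha⟩ := Nfl.cst d h.dt h.alg h0
  obtain ⟨b, hb⟩ := Nfl.cst d h.dt h.alg (c := u - algebraMap k k₁ a * t) (by
    rw [map_sub, Derivation.leibniz, Derivation.map_algebraMap, h.dt, ha]; simp)
  have hu : algebraMap k k₁ a * t + algebraMap k k₁ b = u := by rw [hb]; ring
  have ev : ∀ F, aeval t (Nfl.r a b F) = MvPolynomial.aeval ![t, u, 1] F := fun F => by
    rw [Nfl.aeval_r, hu]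
  have g0 : Nfl.r a b G = 0 := Nfl.inj d h.dt _ (by rw [ev, h.on])
  have g1 : Nfl.r a b (MvPolynomial.pderiv 0 G) = C (-a) * Nfl.r a b (MvPolynomial.pderiv 1 G) := by
    refine sub_eq_zero.1 (Nfl.inj d h.dt _ ?_)
    have := Nfl.chain d ![t, u, 1] G
    rw [h.on, map_zero, Fin.sum_univ_three] at this
    simp only [Matrix.cons_val_zero, Matrix.cons_val_one, Matrix.cons_val, h.dt, ← ha,
      d.map_one_eq_zero] at this
    rw [map_sub, map_mul, aeval_C, ev, ev, map_neg]
    linear_combination -this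
  have g2 : Nfl.r a b (MvPolynomial.pderiv 2 G) = C (-b) * Nfl.r a b (MvPolynomial.pderiv 1 G) := by
    have := congrArg (Nfl.r a b) h.sm.1.sum_X_mul_pderiv
    rw [Fin.sum_univ_three, map_nsmul, g0, map_add, map_add, map_mul, map_mul, map_mul, g1] at this
    have e0 : Nfl.r a b (MvPolynomial.X 0) = X := by simp [Nfl.r]
    have e1 : Nfl.r a b (MvPolynomial.X 1) = C a * X + C b := by simp [Nfl.r]
    have e2 : Nfl.r a b (MvPolynomial.X 2) = 1 := by simp [Nfl.r]
    rw [e0, e1, e2, smul_zero, map_neg] at this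
    rw [map_neg]
    linear_combination this
  by_cases hd : (Nfl.r a b (MvPolynomial.pderiv 1 G)).degree = 0
  · have e := eq_C_of_degree_eq_zero hd
    have hom : ∀ i, (MvPolynomial.pderiv i G).IsHomogeneous (4 + 1) := fun i => h.sm.1.pderiv
    obtain ⟨i, hi⟩ := h.sm.2 k ![1, a, 0] (fun e => by simpa using congrFun e 0)
      (Nfl.inf (n := 5) h.sm.1 (g0.trans C_0.symm))
    apply hi
    fin_cases i
    · exact Nfl.inf (hom 0) (g1.trans (by rw [e, ← C_mul]))
    · exact Nfl.inf (hom 1) e
    · exact Nfl.inf (hom 2) (g2.trans (by rw [e, ← C_mul]))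
  · obtain ⟨x, hx⟩ := IsAlgClosed.exists_root _ hd
    have hx' : aeval x (Nfl.r a b (MvPolynomial.pderiv 1 G)) = 0 := by
      rw [coe_aeval_eq_eval]; exact hx
    obtain ⟨i, hi⟩ := h.sm.2 k ![x, algebraMap k k a * x + algebraMap k k b, 1]
      (fun e => by simpa using congrFun e 2) (by rw [← Nfl.aeval_r, g0, map_zero])
    apply hi
    rw [← Nfl.aeval_r]
    fin_cases i
    · change aeval x (Nfl.r a b (MvPolynomial.pderiv 0 G)) = 0
      rw [g1, map_mul, hx', mul_zero]
    · exact hx'
    · change aeval x (Nfl.r a b (MvPolynomial.pderiv 2 G)) = 0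
      rw [g2, map_mul, hx', mul_zero]

end Pool.Agent.MP_20d318_ag.KK

end PartNfl

section PartQua

/-! The generic tangent line of a smooth plane sextic is a simple tangent. -/

set_option autoImplicit false
set_option linter.unusedSectionVars false

namespace Pool.Agent.MP_20d318_ag.KK

open Polynomial

namespace Qua

variable {k k₁ A : Type} [Field k] [Field k₁] [Algebra k k₁] [CommRing A] [Algebra k A]

theorem chain (D : Derivation k A A) (x : Fin 3 → A) (F : MvPolynomial (Fin 3) k) :
    D (MvPolynomial.aeval x F) =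
      ∑ i, MvPolynomial.aeval x (MvPolynomial.pderiv i F) * D (x i) := by
  induction F using MvPolynomial.induction_on with
  | C a => simp
  | add p q hp hq => simp only [map_add, hp, hq, add_mul, Finset.sum_add_distrib]
  | mul_X p j hp =>
    simp only [map_mul, MvPolynomial.aeval_X, Derivation.leibniz, smul_eq_mul, hp, map_add,
      add_mul, Finset.sum_add_distrib, Finset.mul_sum, mul_assoc, MvPolynomial.pderiv_X]
    congr 1
    rw [Finset.sum_eq_single j (fun i _ h => by simp [Pi.single_eq_of_ne' h]) (by simp)]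
    simp

theorem chain' (x : Fin 3 → k₁[X]) (F : MvPolynomial (Fin 3) k) :
    derivative (MvPolynomial.aeval x F) =
      ∑ i, MvPolynomial.aeval x (MvPolynomial.pderiv i F) * derivative (x i) :=
  chain (Polynomial.derivative'.restrictScalars k) x F

theorem ev (s : k₁) (x : Fin 3 → k₁[X]) (F : MvPolynomial (Fin 3) k) :
    (MvPolynomial.aeval x F).eval s = MvPolynomial.aeval (fun i => (x i).eval s) F := by
  induction F using MvPolynomial.induction_on with
  | C a => simp [Polynomial.algebraMap_apply]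
  | add p q hp hq => simp only [map_add, eval_add, hp, hq]
  | mul_X p j hp => simp only [map_mul, eval_mul, hp, MvPolynomial.aeval_X]

theorem euler {G : MvPolynomial (Fin 3) k} {n : ℕ} (h : G.IsHomogeneous n) (x : Fin 3 → A)
    (h0 : MvPolynomial.aeval x G = 0) :
    ∑ i, x i * MvPolynomial.aeval x (MvPolynomial.pderiv i G) = 0 := by
  have := congrArg (MvPolynomial.aeval x) h.sum_X_mul_pderiv
  simpa [h0] using this

theorem hom {G : MvPolynomial (Fin 3) k} {n : ℕ} (h : G.IsHomogeneous n) (c : A) (x : Fin 3 → A) :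
    MvPolynomial.aeval (fun i => c * x i) G = c ^ n * MvPolynomial.aeval x G := by
  rw [MvPolynomial.aeval_def, MvPolynomial.aeval_def, MvPolynomial.eval₂_eq',
    MvPolynomial.eval₂_eq', Finset.mul_sum]
  refine Finset.sum_congr rfl fun d hd => ?_
  have e : ∑ i, d i = n := by
    rw [← h (MvPolynomial.mem_support_iff.1 hd), Finsupp.weight_apply, Finsupp.sum_fintype] <;> simp
  simp only [mul_pow, Finset.prod_mul_distrib, Finset.prod_pow_eq_pow_sum, e]
  ring

variable {G : MvPolynomial (Fin 3) k} {d : Derivation k k₁ k₁} {t u : k₁}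

theorem sep [IsAlgClosed k₁] (h : Tn G d t u) (h2 : d (d u) ≠ 0) : (tl G d t u).Separable := by
  refine (isCoprime_iff_aeval_ne_zero_of_isAlgClosed k₁ k₁ _ _).2 fun s => ?_
  by_contra hc
  rw [not_or, not_not, not_not, coe_aeval_eq_eval, tl, chain', eval_finsetSum, ev] at hc
  obtain ⟨a, b⟩ := hc
  simp only [eval_mul, ev] at b
  have e : (fun i => eval s (![1 + C t * X, C (d u) + C u * X, X] i)) =
      ![1 + t * s, d u + u * s, s] := by
    funext i
    fin_cases i <;> simp
  rw [e] at a b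
  have c := euler h.sm.1 _ a
  have c' := chain d ![1 + t * s, d u + u * s, s] G
  rw [a, map_zero] at c'
  obtain ⟨i, hi⟩ := h.sm.2 k₁ _ (fun q => by
    have q0 := congrFun q 0
    have q2 := congrFun q 2
    simp at q0 q2
    simp [q2] at q0) a
  have m : ∀ i, MvPolynomial.aeval ![1 + t * s, d u + u * s, s] (MvPolynomial.pderiv i G) = 0 := by
    simp only [Fin.sum_univ_three] at b c c'
    simp [h.dt] at b c c'
    generalize hm : (fun i => MvPolynomial.aeval ![1 + t * s, d u + u * s, s]
      (MvPolynomial.pderiv i G)) = m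
    have hm' := congrFun hm
    simp only [hm'] at b c c' ⊢
    have m1 : m 1 = 0 := (mul_eq_zero.1 (show m 1 * d (d u) = 0 by
      linear_combination -c' - d s * b - s * c + s ^ 2 * b)).resolve_right h2
    have m0 : m 0 = 0 := by linear_combination c - s * b - d u * m1
    have m2 : m 2 = 0 := by linear_combination b - t * m0 - u * m1
    intro i
    fin_cases i
    exacts [m0, m1, m2]
  exact hi (m i)

variable (G d t u) in
/-- The restriction to the tangent line in the coordinate at the point of contact. -/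
noncomputable def hl (F : MvPolynomial (Fin 3) k) : k₁[X] :=
  MvPolynomial.aeval ![C t + X, C u + C (d u) * X, 1] F

theorem hl0 (F : MvPolynomial (Fin 3) k) :
    (hl d t u F).eval 0 = MvPolynomial.aeval ![t, u, 1] F := by
  rw [hl, ev]
  congr 2
  funext i
  fin_cases i <;> simp

theorem hl_der (F : MvPolynomial (Fin 3) k) : derivative (hl d t u F) =
    hl d t u (MvPolynomial.pderiv 0 F) + hl d t u (MvPolynomial.pderiv 1 F) * C (d u) := by
  rw [hl, chain', Fin.sum_univ_three]
  simp [hl]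

theorem hl1 (h : d t = 1) (F : MvPolynomial (Fin 3) k) :
    (derivative (hl d t u F)).eval 0 = d (MvPolynomial.aeval ![t, u, 1] F) := by
  rw [hl_der, chain, Fin.sum_univ_three, eval_add, eval_mul, hl0, hl0]
  simp [h]

theorem hl_deg (h : G.IsHomogeneous 6) : (hl d t u G).natDegree ≤ 6 := by
  rw [hl, ← MvPolynomial.aeval_map_algebraMap k₁]
  refine (MvPolynomial.aeval_natDegree_le (m := 6) (n := 1) _ (h.map _).totalDegree_le _
    fun i => ?_).trans le_rfl
  fin_cases i
  · simp
  · simp; compute_degree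
  · simp

theorem tl_eq [IsAlgClosed k₁] (h : G.IsHomogeneous 6) : tl G d t u = reflect 6 (hl d t u G) := by
  refine eq_of_infinite_eval_eq _ _ (Set.Infinite.mono (s := {0}ᶜ) (fun s hs => ?_)
    (Set.finite_singleton (0 : k₁)).infinite_compl)
  have s0 : s ≠ 0 := hs
  let : Invertible s⁻¹ := invertibleOfNonzero (inv_ne_zero s0)
  have e := eval₂_reflect_mul_pow (RingHom.id k₁) s⁻¹ 6 _ (hl_deg (d := d) (t := t) (u := u) h)
  rw [invOf_eq_inv, inv_inv, eval₂_id, eval₂_id, inv_pow, mul_inv_eq_iff_eq_mul₀ (pow_ne_zero _ s0),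
    mul_comm] at e
  show eval s _ = eval s _
  rw [e, tl, hl, ev, ev, ← hom h]
  congr 2
  funext i
  fin_cases i <;> simp <;> field_simp <;> ring

theorem deg [CharZero k] [IsAlgClosed k₁] (h : Tn G d t u) (h2 : d (d u) ≠ 0) :
    (tl G d t u).natDegree = 4 := by
  have c0 : (hl d t u G).coeff 0 = 0 := by rw [coeff_zero_eq_eval_zero, hl0, h.on]
  have e1 : (derivative (hl d t u G)).eval 0 = 0 := by rw [hl1 h.dt, h.on, map_zero]
  have c1 : (hl d t u G).coeff 1 = 0 := by
    rw [← coeff_zero_eq_eval_zero, coeff_derivative] at e1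
    simpa using e1
  have c2 : (hl d t u G).coeff 2 ≠ 0 := fun q => by
    have e2 : (derivative (derivative (hl d t u G))).eval 0 = 0 := by
      rw [← coeff_zero_eq_eval_zero, coeff_derivative, coeff_derivative, q]
      simp
    rw [hl_der, eval_add, eval_mul, hl0, hl0, eval_C] at e1
    rw [hl_der, derivative_add, derivative_mul, derivative_C, mul_zero, add_zero, eval_add,
      eval_mul, hl1 h.dt, hl1 h.dt, eval_C] at e2
    have e3 := congrArg d e1
    have e4 := euler h.sm.1 _ h.on
    obtain ⟨i, hi⟩ := h.sm.2 k₁ _ (fun q => by simpa using congrFun q 2) h.on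
    generalize hm : (fun i => MvPolynomial.aeval ![t, u, 1] (MvPolynomial.pderiv i G)) = m
    have hm' := congrFun hm
    simp only [hm', Fin.sum_univ_three] at e1 e2 e3 e4 hi
    simp at e3 e4
    have m1 : m 1 = 0 := (mul_eq_zero.1 (show m 1 * d (d u) = 0 by
      linear_combination e3 - e2)).resolve_right h2
    have m0 : m 0 = 0 := by linear_combination e1 - d u * m1
    have m2 : m 2 = 0 := by linear_combination e4 - t * m0 - u * m1
    fin_cases i
    exacts [hi m0, hi m1, hi m2]
  rw [tl_eq h.sm.1]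
  refine natDegree_eq_of_le_of_coeff_ne_zero (natDegree_le_iff_coeff_eq_zero.2 fun N hN => ?_) ?_
  · rw [coeff_reflect]
    rcases lt_or_ge 6 N with q | q
    · rw [revAt_eq_self_of_lt q]
      exact coeff_eq_zero_of_natDegree_lt ((hl_deg h.sm.1).trans_lt q)
    · rw [revAt_le q]
      interval_cases N
      exacts [c1, c0]
  · rwa [coeff_reflect, revAt_le (by norm_num)]

end Qua

theorem qua_stmt : QuaStmt := fun _ _ _ _ _ _ _ _ _ _ _ _ h h2 => ⟨Qua.deg h h2, Qua.sep h h2⟩

end Pool.Agent.MP_20d318_ag.KK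

end PartQua

section PartJac

/-! The jacobian criterion for the independence of two elements. -/

set_option autoImplicit false

namespace Pool.Agent.MP_20d318_ag.KK

namespace Jac

open MvPolynomial

variable {k R : Type} [Field k] [CommRing R] [Algebra k R]

theorem chain (D : Derivation k R R) (v : Fin 2 → R) (p : MvPolynomial (Fin 2) k) :
    D (aeval v p) = aeval v (pderiv 0 p) * D (v 0) + aeval v (pderiv 1 p) * D (v 1) := by
  induction p using MvPolynomial.induction_on with
  | C a => simp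
  | add p q hp hq => simp only [map_add, hp, hq]; ring
  | mul_X p i hp =>
    simp only [map_mul, aeval_X, Derivation.leibniz, hp, smul_eq_mul, map_add]
    fin_cases i <;> simp [pderiv_X] <;> ring

theorem coeff_pd (i : Fin 2) (p : MvPolynomial (Fin 2) k) (m : Fin 2 →₀ ℕ) :
    coeff m (pderiv i p) = coeff (m + Finsupp.single i 1) p * ((m i + 1 : ℕ) : k) := by
  induction p using MvPolynomial.induction_on' with
  | monomial u a =>
    rw [pderiv_monomial, coeff_monomial, coeff_monomial]
    by_cases h : u = m + Finsupp.single i 1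
    · subst h
      simp
    · rw [if_neg h, zero_mul]
      split_ifs with h2
      · by_cases h3 : u i = 0
        · simp [h3]
        · exfalso
          apply h
          rw [← h2]
          ext j
          by_cases h4 : j = i
          · subst h4
            simp only [Finsupp.coe_add, Finsupp.coe_tsub, Pi.add_apply, Pi.sub_apply,
              Finsupp.single_eq_same]
            omega
          · simp [Finsupp.single_eq_of_ne h4]
      · rfl
  | add p q hp hq => simp only [map_add, coeff_add, hp, hq]; ring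

theorem deg_pd (i : Fin 2) (p : MvPolynomial (Fin 2) k) (n : ℕ) (h : p.totalDegree ≤ n + 1) :
    (pderiv i p).totalDegree ≤ n := by
  rw [totalDegree, Finset.sup_le_iff]
  intro m hm
  rw [mem_support_iff, coeff_pd] at hm
  have h1 : m + Finsupp.single i 1 ∈ p.support := mem_support_iff.2 (left_ne_zero_of_mul hm)
  have h2 := (le_totalDegree h1).trans h
  rw [Finsupp.sum_add_index' (fun _ => rfl) (fun _ _ _ => rfl), Finsupp.sum_single_index rfl] at h2
  omega

theorem const [CharZero k] (p : MvPolynomial (Fin 2) k) (h : ∀ i, pderiv i p = 0) :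
    p = C (coeff 0 p) := by
  ext m
  rw [coeff_C]
  split_ifs with h0
  · rw [h0]
  · obtain ⟨i, hi⟩ : ∃ i, m i ≠ 0 := by
      by_contra hc
      exact h0 (by ext i; by_contra h1; exact hc ⟨i, fun h2 => h1 (by simp [h2])⟩)
    have h1 := coeff_pd i p (m - Finsupp.single i 1)
    rw [h i, coeff_zero] at h1
    have h2 : m - Finsupp.single i 1 + Finsupp.single i 1 = m :=
      tsub_add_cancel_of_le (Finsupp.single_le_iff.2 (by omega))
    rw [h2] at h1
    exact (mul_eq_zero.1 h1.symm).resolve_right (Nat.cast_ne_zero.2 (by omega))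

end Jac

open MvPolynomial in
theorem jac_stmt : JacStmt := by
  intro k R _ _ _ _ _ D₁ D₂ x y hJ
  rw [algebraicIndependent_iff]
  have key : ∀ (n : ℕ) (p : MvPolynomial (Fin 2) k), p.totalDegree ≤ n → aeval ![x, y] p = 0 →
      p = 0 := by
    have base : ∀ p : MvPolynomial (Fin 2) k, p = C (coeff 0 p) → aeval ![x, y] p = 0 → p = 0 := by
      intro p h1 h2
      rw [h1, aeval_C] at h2
      rw [h1, (map_eq_zero_iff _ (algebraMap k R).injective).1 h2, C_0]
    intro n
    induction n with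
    | zero =>
      intro p h1 h2
      exact base p (totalDegree_eq_zero_iff_eq_C.1 (by omega)) h2
    | succ n ih =>
      intro p h1 h2
      have e1 := Jac.chain D₁ ![x, y] p
      have e2 := Jac.chain D₂ ![x, y] p
      rw [h2, map_zero] at e1 e2
      simp only [Matrix.cons_val_zero, Matrix.cons_val_one] at e1 e2
      have hd : D₁ x * D₂ y - D₂ x * D₁ y ≠ 0 := sub_ne_zero.2 hJ
      have a0 : aeval ![x, y] (pderiv 0 p) = 0 := by
        refine (mul_eq_zero.1 ?_).resolve_right hd
        linear_combination (-D₂ y) * e1 + D₁ y * e2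
      have a1 : aeval ![x, y] (pderiv 1 p) = 0 := by
        refine (mul_eq_zero.1 ?_).resolve_right hd
        linear_combination D₂ x * e1 - D₁ x * e2
      refine base p (Jac.const p fun i => ?_) h2
      fin_cases i
      · exact ih _ (Jac.deg_pd 0 p n h1) a0
      · exact ih _ (Jac.deg_pd 1 p n h1) a1
  exact fun p => key _ p le_rfl

end Pool.Agent.MP_20d318_ag.KK

end PartJac

section PartEct

/-! The tangent lines of a plane sextic cover the plane. -/

set_option autoImplicit false

namespace Pool.Agent.MP_20d318_ag.KK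

open Pool.Agent.CBk Polynomial

namespace EctRow

variable {k k₁ M N : Type} [Field k] [Field k₁] [Field M] [Field N] [Algebra k k₁] [Algebra k M]
  [Algebra k N]

/-- Scaling the arguments of a form. -/
theorem hom {σ : Type} {G : MvPolynomial σ k} {n : ℕ} (h : G.IsHomogeneous n) (s : N) (v : σ → N) :
    MvPolynomial.aeval (fun i => s * v i) G = s ^ n * MvPolynomial.aeval v G := by
  rw [MvPolynomial.aeval_def, MvPolynomial.aeval_def, MvPolynomial.eval₂_eq,
    MvPolynomial.eval₂_eq, Finset.mul_sum]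
  refine Finset.sum_congr rfl fun d hd => ?_
  have e : ∑ i ∈ d.support, d i = n := by
    have := h (MvPolynomial.mem_support_iff.1 hd)
    rw [← this, Finsupp.weight_apply, Finsupp.sum]
    simp
  simp only [mul_pow]
  rw [Finset.prod_mul_distrib, Finset.prod_pow_eq_pow_sum, e]
  ring

/-- Extension of an injective map to the fraction field. -/
theorem lift {B : Type} [CommRing B] [IsDomain B] [Algebra k B] (π : B →ₐ[k] M) (π' : B →ₐ[k] N)
    (hi : Function.Injective π) (ht : IntermediateField.adjoin k (Set.range π) = ⊤)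
    (hi' : Function.Injective π') : ∃ τ : M →ₐ[k] N, ∀ b, τ (π b) = π' b := by
  obtain ⟨α, hα⟩ := HombRow.frac π hi ht
  let j : FractionRing B →ₐ[k] N := IsFractionRing.liftAlgHom hi'
  have hj : ∀ b, j (algebraMap B (FractionRing B) b) = π' b := fun b =>
    IsFractionRing.lift_algebraMap (g := (π' : B →+* N)) hi' b
  exact ⟨j.comp α.symm.toAlgHom, fun b => by
    rw [← hα, ← hj]
    exact congrArg j (α.symm_apply_apply _)⟩

/-- An embedding of the rational function field in two variables. -/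
theorem emb {x y : M} (h : RS.Gen k x y) {a b : N} (i : AlgebraicIndependent k ![a, b]) :
    ∃ τ : M →ₐ[k] N, τ x = a ∧ τ y = b := by
  obtain ⟨τ, hτ⟩ := lift (MvPolynomial.aeval ![x, y] : MvPolynomial (Fin 2) k →ₐ[k] M)
    (MvPolynomial.aeval ![a, b]) h.1 (by
      rw [eq_top_iff, ← h.2]
      refine IntermediateField.adjoin.mono _ _ _ ?_
      rintro _ (rfl | rfl)
      · exact ⟨MvPolynomial.X 0, MvPolynomial.aeval_X _ _⟩
      · exact ⟨MvPolynomial.X 1, MvPolynomial.aeval_X _ _⟩) i
  have h0 := hτ (MvPolynomial.X 0)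
  have h1 := hτ (MvPolynomial.X 1)
  rw [MvPolynomial.aeval_X, MvPolynomial.aeval_X] at h0 h1
  exact ⟨τ, h0, h1⟩

/-- Algebraicity over the image. -/
theorem alg (τ : M →ₐ[k] N) {x y : M} (i : AlgebraicIndependent k ![τ x, τ y])
    (h : Algebra.trdeg k N ≤ 2) (z : N) : ∃ p : M[X], p ≠ 0 ∧ p.eval₂ (τ : M →+* N) z = 0 := by
  have tb := i.isTranscendenceBasis_of_trdeg_le_of_finite (by simpa using h)
  obtain ⟨p, p0, hp⟩ := tb.isAlgebraic.isAlgebraic z
  have le : Algebra.adjoin k (Set.range ![τ x, τ y]) ≤ τ.range := by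
    refine Algebra.adjoin_le ?_
    rintro _ ⟨n, rfl⟩
    fin_cases n
    exacts [⟨x, rfl⟩, ⟨y, rfl⟩]
  let e := AlgEquiv.ofInjective τ τ.toRingHom.injective
  let ρ : Algebra.adjoin k (Set.range ![τ x, τ y]) →+* M :=
    (e.symm.toAlgHom.comp (Subalgebra.inclusion le)).toRingHom
  have hρ : ∀ c, τ (ρ c) = c := fun c =>
    congrArg Subtype.val (e.apply_symm_apply (Subalgebra.inclusion le c))
  refine ⟨p.map ρ, (Polynomial.map_ne_zero_iff fun c c' q => Subtype.ext ?_).2 p0, ?_⟩
  · rw [← hρ, ← hρ, q]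
  · rw [eval₂_map, ← hp, aeval_def]
    congr 1
    exact RingHom.ext hρ

theorem trd {t : k₁} (h : Algebra.IsAlgebraic (Algebra.adjoin k {t}) k₁) :
    Algebra.trdeg k (RatFunc k₁) ≤ 2 := by
  have h1 : Algebra.trdeg k k₁ ≤ 1 := by
    simpa using Algebra.IsAlgebraic.trdeg_le_cardinalMk k ({t} : Set k₁)
  have h2 : Algebra.trdeg k₁ (RatFunc k₁) = 1 := by
    have := IsLocalization.isAlgebraic (RatFunc k₁) (nonZeroDivisors k₁[X])
    rw [← trdeg_add_eq k₁ k₁[X], Polynomial.trdeg_of_isDomain, trdeg_eq_zero, add_zero]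
  rw [← trdeg_add_eq k k₁, h2, ← one_add_one_eq_two]
  exact add_le_add_left h1 1

theorem ind [CharZero k] (jac : JacStmt) (d : Derivation k k₁ k₁) {t u : k₁} (dt : d t = 1)
    (h : d (d u) ≠ 0) : AlgebraicIndependent k ![C t + X, C u + C (d u) * X] := by
  let D₁ : Derivation k k₁[X] k₁[X] := PolynomialModule.equivPolynomialSelf.compDer d.mapCoeffs
  let D₂ : Derivation k k₁[X] k₁[X] := (Polynomial.derivative' (R := k₁)).restrictScalars k
  have a1 : ∀ c, D₁ (C c) = C (d c) := fun c => by simp [D₁]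
  have a2 : D₁ X = 0 := by simp [D₁]
  have b1 : ∀ p, D₂ p = derivative p := fun p => rfl
  refine jac k k₁[X] D₁ D₂ _ _ fun e => ?_
  rw [map_add, map_add D₁, Derivation.leibniz, a1, a1, a1, a2, dt, b1, b1] at e
  simp [h] at e

end EctRow

open EctRow in
theorem ect_stmt : EctStmt := by
  intro jac k k₁ _ _ _ _ _ _ G d t u tn h deg sep M _ _ φ x y J gen J0 hφ
  let g : k₁[X] →ₐ[k] RatFunc k₁ := IsScalarTower.toAlgHom k k₁[X] (RatFunc k₁)
  have hg : Function.Injective g := IsFractionRing.injective k₁[X] (RatFunc k₁)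
  have gC : ∀ c, g (C c) = algebraMap k₁ (RatFunc k₁) c := fun c => rfl
  have gX : g X = RatFunc.X := rfl
  have X0 : (RatFunc.X : RatFunc k₁) ≠ 0 := RatFunc.X_ne_zero
  have i : AlgebraicIndependent k ![g (C t + X), g (C u + C (d u) * X)] := by
    have := (ind jac d tn.dt h).map' hg
    convert this using 1
    funext n
    fin_cases n <;> rfl
  obtain ⟨τ, hx, hy⟩ := emb gen i
  have J1 : τ J ≠ 0 := (map_ne_zero τ).2 J0
  refine ⟨k₁, RatFunc k₁, inferInstance, inferInstance, inferInstance, inferInstance, inferInstance,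
    inferInstance, inferInstance, τ, RatFunc.X⁻¹, RatFunc.X ^ 3 / τ J, tl G d t u,
    ⟨fun q => RatFunc.transcendental_X (IsAlgebraic.inv_iff.1 q), ?_,
      div_ne_zero (pow_ne_zero _ X0) J1, ?_, alg τ (x := x) (y := y) (by rwa [hx, hy]) (trd tn.alg)⟩,
    sep, Or.inr deg⟩
  · rw [eq_top_iff, ← RatFunc.adjoin_X, IntermediateField.adjoin_le_iff]
    rintro _ rfl
    exact inv_mem_iff.1 (IntermediateField.subset_adjoin _ _ rfl)
  · have e1 : τ φ * τ J ^ 2 = MvPolynomial.aeval ![τ x, τ y, 1] G := by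
      rw [← map_pow, ← map_mul, hφ, MvPolynomial.comp_aeval_apply]
      congr 2
      funext n
      fin_cases n <;> simp
    have e2 : aeval (RatFunc.X⁻¹ : RatFunc k₁) (tl G d t u) =
        MvPolynomial.aeval (fun n => RatFunc.X⁻¹ * ![τ x, τ y, 1] n) G := by
      have := MvPolynomial.comp_aeval_apply ![1 + C t * X, C (d u) + C u * X, X]
        ((aeval (RatFunc.X⁻¹ : RatFunc k₁) : k₁[X] →ₐ[k₁] _).restrictScalars k) G
      refine this.trans ?_
      congr 2
      funext n
      rw [hx, hy, map_add, map_add, map_mul, gC, gC, gC, gX]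
      fin_cases n
      · simp
        field_simp
        ring
      · simp
        field_simp
        ring
      · simp
    rw [e2, hom tn.sm.1, ← e1]
    field_simp

end Pool.Agent.MP_20d318_ag.KK

end PartEct
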