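import Pool.Agent.MP_20d318_ag.KK.Main
import Pool.Agent.MP_20d318_ag.KK.RowsE
import Pool.Agent.MP_20d318_ag.KK.RowsF

/-! The rows on the class group hold. -/

set_option autoImplicit false

namespace Pool.Agent.MP_20d318_ag.KK

theorem emods : EMods := ⟨hza_stmt, dja_stmt, emb_stmt, fv_stmt, hzb_stmt, ecq_stmt, ecr_stmt,
  ecs_stmt, plf_stmt, gpt_stmt, nfl_stmt, qua_stmt, jac_stmt, ect_stmt, dic_stmt⟩

end Pool.Agent.MP_20d318_ag.KK
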