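import Pool.Agent.MP_20d318_ag.KK.Spec
import Pool.Agent.MP_20d318_ag.CH.RowsY

section PartSig

/-! Row SIG: pairs of automorphisms of the factors lift. -/

set_option autoImplicit false
set_option linter.unusedSectionVars false

namespace Pool.Agent.MP_20d318_ag.KK

open Pool.Agent.MP_fd6584_ag.Fn Pool.Agent.CBk
open Pool.Agent.MP_fd6584_ag.AG hiding deg_inv deg_congr deg_of_unit deg_mul deg_prod deg_zpow
  deg_eq_zero deg_nonneg deg_div deg_pow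
open Pool.Agent.MP_20d318_ag.CH (Lv OkA Ok sX)
open Pool.Agent.MP_20d318_ag.CB.P.SigX (sq_unit cc comap_comap)

namespace Sig

variable {k M M' K Λ Λ' κ κ' : Type} {n n' : ℕ} [Field k] [Field M] [Field M'] [Field K]
  [Algebra k M] [Algebra k M'] [Algebra k K] [Fintype κ] [Fintype κ'] {L : Lv k M Λ κ n}
  {L' : Lv k M' Λ' κ' n'} {ι : M →ₐ[k] K} {ι' : M' →ₐ[k] K} {v : K} {e : ℕ}
  {Z : Set (Subalgebra k K)} {O : Subalgebra k K} {σ : M ≃ₐ[k] M} {σ' : M' ≃ₐ[k] M'}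
  {Φ : K ≃ₐ[k] K} {r : M} {r' : M'}

variable (L ι σ Φ r) in
/-- A lift of `σ` to the field. -/
structure S1 : Prop where
  h1 : ∀ m, Φ (ι m) = ι (σ m)
  ne : r ≠ 0
  sq : σ L.φ = L.φ * r ^ 2
  inv : ∀ R, R ∈ L.Y ↔ R.comap (σ : M →ₐ[k] M) ∈ L.Y
  st : ∀ i, ∀ R ∈ L.Y, IsU R (σ (L.s i (R.comap (σ : M →ₐ[k] M))) / L.s i R)

theorem S1.symm (h : S1 L ι σ Φ r) : S1 L ι σ.symm Φ.symm (σ.symm r)⁻¹ := by
  have h1 : ∀ m, Φ.symm (ι m) = ι (σ.symm m) := fun m => by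
    rw [Φ.symm_apply_eq, h.h1, σ.apply_symm_apply]
  have h0 : σ.symm r ≠ 0 := (map_ne_zero _).2 h.ne
  have hi : ∀ R, R ∈ L.Y ↔ R.comap (σ.symm : M →ₐ[k] M) ∈ L.Y := fun R => by
    rw [h.inv (R.comap _), cc]
  refine ⟨h1, inv_ne_zero h0, ?_, hi, fun i R hR => ?_⟩
  · rw [σ.symm_apply_eq, map_mul, h.sq, map_pow, map_inv₀, σ.apply_symm_apply]
    have := h.ne
    field_simp
  · have h2 := (isU_comap (σ.symm : M →ₐ[k] M)).1 (h.st i _ ((hi R).1 hR)).inv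
    rw [cc, inv_div, map_div₀] at h2
    simpa using h2

theorem v_symm (a : S1 L ι σ Φ r) (b : S1 L' ι' σ' Φ r') (c : Φ v = (ι' r' / ι r) ^ (3 - e) * v) :
    Φ.symm v = (ι' (σ'.symm r')⁻¹ / ι (σ.symm r)⁻¹) ^ (3 - e) * v := by
  have n1 : ι r ≠ 0 := (map_ne_zero ι).2 a.ne
  have n2 : ι' r' ≠ 0 := (map_ne_zero ι').2 b.ne
  rw [Φ.symm_apply_eq, map_mul, map_pow, map_div₀, a.h1, b.h1, c, map_inv₀ σ, map_inv₀ σ',
    σ.apply_symm_apply, σ'.apply_symm_apply, map_inv₀, map_inv₀, ← mul_assoc, ← mul_pow,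
    show (ι' r')⁻¹ / (ι r)⁻¹ * (ι' r' / ι r) = 1 by field_simp, one_pow, one_mul]

theorem jj_unit (h : Ok L) (hL : S1 L ι σ Φ r) {R : Subalgebra k M} (hR : R ∈ L.Y) :
    IsU R (r * σ (L.jj (R.comap (σ : M →ₐ[k] M))) / L.jj R) := by
  refine sq_unit (h.nice.nrm R hR) ?_
  have u : IsU R (∏ i, σ (L.s i (R.comap (σ : M →ₐ[k] M))) / L.s i R) :=
    isU_prod fun i _ => hL.st i R hR
  rw [Finset.prod_div_distrib, ← map_prod, ← h.eqn _ hR, ← h.eqn _ ((hL.inv R).1 hR), map_mul,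
    map_pow, hL.sq, mul_assoc, mul_div_mul_left _ _ h.φne, ← mul_pow, ← div_pow] at u
  exact u

variable (h : Geo L L' ι ι' v e Z)

include h

theorem mem0 {R : Subalgebra k M} {R' : Subalgebra k M'} (hR : R ∈ L.Y) (hR' : R' ∈ L'.Y)
    (ho : Ov ι ι' R R' O) {a : K}
    (ha : a = A0 L L' ι ι' v e R R' ∨ a = (A0 L L' ι ι' v e R R')⁻¹)
    (hp : O ∈ Pts (Bq ι ι' R R' {a})) : O ∈ Z := by
  obtain ⟨V, hV, d⟩ := exists_val ho.loc
  obtain ⟨O₁, h1, d1, e1, e2⟩ := h.below hR hR' hV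
    ⟨hV.isLocalRing, ho.dom.trans (d.comap ι), ho.dom'.trans (d.comap ι')⟩
  have eA : AA L L' ι ι' v e O₁ = A0 L L' ι ι' v e R R' := by rw [AA, e1, e2]
  have a0 : a ≠ 0 := by
    have := (h.lq hR hR').ne
    rcases ha with rfl | rfl
    exacts [this, inv_ne_zero this]
  have aV : a ∈ V := d.1 (hp.2.1 (Bq_g rfl))
  have a1 : a ∈ O₁ := by
    have q : a ∈ O₁ ∨ a⁻¹ ∈ O₁ := by
      have := h.aa O₁ h1
      rw [eA] at this
      rcases ha with rfl | rfl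
      · exact this
      · rw [inv_inv]; exact this.symm
    refine q.elim id fun q => ?_
    simpa using (d1.2 _ q ⟨inv_ne_zero a0, d1.1 q, by rwa [inv_inv]⟩).inv_mem
  have p1 := h.pts O₁ h1 a a1 (by rwa [eA])
  rw [e1, e2] at p1
  rw [Pts_eq hp p1 p1.2.1 hp.2.1 d d1]
  exact h1

theorem dom_comap (hL : S1 L ι σ Φ r) (hO : O ∈ Z) :
    Dom ((pr ι L.Y O).comap (σ : M →ₐ[k] M)) ((O.comap (Φ : K →ₐ[k] K)).comap ι) := by
  rw [comap_comap hL.h1]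
  exact (h.maps.dom hO).comap _

theorem pr_comap (hL : S1 L ι σ Φ r) (hO : O ∈ Z) :
    pr ι L.Y (O.comap (Φ : K →ₐ[k] K)) = (pr ι L.Y O).comap (σ : M →ₐ[k] M) :=
  pr_eq h.gY (isLocalRing_comap _ (h.gX.loc O hO)) ((hL.inv _).1 (h.maps.mem hO))
    (dom_comap h hL hO)

theorem s_unit (hL : S1 L ι σ Φ r) (hO : O ∈ Z) (i : κ) :
    IsU O (sX L ι i O / Φ (sX L ι i (O.comap (Φ : K →ₐ[k] K)))) := by
  have u := (h.maps.isU_up hO (hL.st i _ (h.maps.mem hO))).inv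
  rw [map_div₀, inv_div, ← hL.h1, ← pr_comap h hL hO] at u
  exact u

theorem ov (a : S1 L ι σ Φ r) (b : S1 L' ι' σ' Φ r') (hO : O ∈ Z) :
    Ov ι ι' ((pr ι L.Y O).comap (σ : M →ₐ[k] M)) ((pr ι' L'.Y O).comap (σ' : M' →ₐ[k] M'))
      (O.comap (Φ : K →ₐ[k] K)) :=
  ⟨isLocalRing_comap _ (h.gX.loc O hO), dom_comap h a hO, dom_comap h.symm b hO⟩

theorem chart (a : S1 L ι σ Φ r) (b : S1 L' ι' σ' Φ r') (hO : O ∈ Z) {x y : K} {c : M} {c' : M'}
    (uc : IsU (pr ι L.Y O) c) (uc' : IsU (pr ι' L'.Y O) c') (q : Φ y = ι c * ι' c' * x)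
    (p : O ∈ Pts (Bq ι ι' (pr ι L.Y O) (pr ι' L'.Y O) {x})) :
    O.comap (Φ : K →ₐ[k] K) ∈ Pts (Bq ι ι' ((pr ι L.Y O).comap (σ : M →ₐ[k] M))
      ((pr ι' L'.Y O).comap (σ' : M' →ₐ[k] M')) {y}) := by
  have m1 : ∀ m ∈ pr ι L.Y O, ι m ∈ (Bq ι ι' ((pr ι L.Y O).comap (σ : M →ₐ[k] M))
      ((pr ι' L'.Y O).comap (σ' : M' →ₐ[k] M')) {y}).map (Φ : K →ₐ[k] K) := fun m hm =>
    ⟨ι (σ.symm m), Bq_l (by simpa using hm), (a.h1 _).trans (by rw [σ.apply_symm_apply])⟩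
  have m2 : ∀ m ∈ pr ι' L'.Y O, ι' m ∈ (Bq ι ι' ((pr ι L.Y O).comap (σ : M →ₐ[k] M))
      ((pr ι' L'.Y O).comap (σ' : M' →ₐ[k] M')) {y}).map (Φ : K →ₐ[k] K) := fun m hm =>
    ⟨ι' (σ'.symm m), Bq_r (by simpa using hm), (b.h1 _).trans (by rw [σ'.apply_symm_apply])⟩
  refine (B1.Pts_comap Φ _).1 (Pts_of_le p (Algebra.adjoin_le ?_)
    (Subalgebra.map_le.2 ((ov h a b hO).le ?_)))
  · rintro _ (⟨m, hm, rfl⟩ | ⟨m, hm, rfl⟩ | rfl)
    · exact m1 m hm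
    · exact m2 m hm
    · have n1 : ι c ≠ 0 := (map_ne_zero ι).2 uc.ne
      have n2 : ι' c' ≠ 0 := (map_ne_zero ι').2 uc'.ne
      have := mul_mem (mul_mem (m1 _ uc.inv_mem) (m2 _ uc'.inv_mem))
        (Subalgebra.mem_map.2 ⟨y, Bq_g rfl, q⟩)
      rw [map_inv₀, map_inv₀] at this
      refine Eq.subst (motive := fun z => z ∈ _) ?_ this
      field_simp
  · rintro _ rfl
    show Φ _ ∈ O
    rw [q]
    exact mul_mem (mul_mem (h.maps.mem_up hO uc.mem) (h.maps'.mem_up hO uc'.mem))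
      (p.2.1 (Bq_g rfl))

theorem mem (a : S1 L ι σ Φ r) (b : S1 L' ι' σ' Φ r') (c : Φ v = (ι' r' / ι r) ^ (3 - e) * v)
    (hO : O ∈ Z) : O.comap (Φ : K →ₐ[k] K) ∈ Z := by
  have hR := h.maps.mem hO
  have hR' := h.maps'.mem hO
  have u := (jj_unit h.ok a hR).pow (3 - e)
  have u' := (jj_unit h.ok' b hR').pow (3 - e)
  have n1 : ι r ≠ 0 := (map_ne_zero ι).2 a.ne
  have n2 : ι (L.jj (pr ι L.Y O)) ≠ 0 := (map_ne_zero ι).2 (h.ok.cj.ne hR)
  have n3 : ι' (L'.jj (pr ι' L'.Y O)) ≠ 0 := (map_ne_zero ι').2 (h.ok'.cj.ne hR')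
  have n4 : ι (σ (L.jj ((pr ι L.Y O).comap (σ : M →ₐ[k] M)))) ≠ 0 :=
    (map_ne_zero ι).2 ((map_ne_zero σ).2 (h.ok.cj.ne ((a.inv _).1 hR)))
  have q : Φ (A0 L L' ι ι' v e ((pr ι L.Y O).comap (σ : M →ₐ[k] M))
      ((pr ι' L'.Y O).comap (σ' : M' →ₐ[k] M'))) =
      ι ((r * σ (L.jj ((pr ι L.Y O).comap (σ : M →ₐ[k] M))) / L.jj (pr ι L.Y O)) ^ (3 - e))⁻¹ *
        ι' ((r' * σ' (L'.jj ((pr ι' L'.Y O).comap (σ' : M' →ₐ[k] M'))) /
          L'.jj (pr ι' L'.Y O)) ^ (3 - e)) * AA L L' ι ι' v e O := by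
    rw [AA, A0, A0, map_mul, map_pow, map_div₀, c, a.h1, b.h1, map_inv₀, map_pow, map_pow,
      ← inv_pow, ← mul_pow, mul_left_comm, ← mul_pow, mul_right_comm, ← mul_pow, mul_comm]
    congr 2
    simp only [map_div₀, map_mul]
    field_simp
  refine (h.aa O hO).elim (fun ha => ?_) fun ha => ?_
  · exact mem0 h ((a.inv _).1 hR) ((b.inv _).1 hR') (ov h a b hO) (Or.inl rfl)
      (chart h a b hO u.inv u' q (h.pts O hO _ ha (Or.inl rfl)))
  · refine mem0 h ((a.inv _).1 hR) ((b.inv _).1 hR') (ov h a b hO) (Or.inr rfl)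
      (chart h a b hO u.inv.inv u'.inv ?_ (h.pts O hO _ ha (Or.inr rfl)))
    rw [map_inv₀, q, mul_inv, mul_inv, ← map_inv₀, ← map_inv₀]

theorem ee_unit (a : S1 L ι σ Φ r) (b : S1 L' ι' σ' Φ r')
    (c : Φ v = (ι' r' / ι r) ^ (3 - e) * v) (hO : O ∈ Z) (i : κ) (j : κ') :
    IsU O (Φ (EE L L' ι ι' i j (O.comap (Φ : K →ₐ[k] K))) / EE L L' ι ι' i j O) := by
  have g1 := (gn_map (Φ : K →ₐ[k] K)).2 (h.gE (mem h a b c hO) i j)
  rw [Set.image_pair] at g1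
  exact (g1.pair_unit (s_unit h a hO i) (s_unit h.symm b hO j)).unit (h.gE hO i j)

end Sig

open Sig in
theorem sig_stmt : SigStmt := by
  intro hH k M M' K Λ Λ' κ κ' n n' _ _ _ _ _ _ _ _ _ _ _ L L' ι ι' v e Z h g r g' r' hg hg'
  obtain ⟨Φ, h1, h2, h3⟩ := hH k M M' K ι ι' L.φ L'.φ v e g.1 g'.1 r r' h.ext h.fld hg.ne hg'.ne
    hg.sq hg'.sq
  have a : S1 L ι g.1 Φ r := ⟨h1, hg.ne, hg.sq, g.2, hg.st⟩
  have b : S1 L' ι' g'.1 Φ r' := ⟨h2, hg'.ne, hg'.sq, g'.2, hg'.st⟩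
  have hX : ∀ O, O ∈ Z ↔ O.comap (Φ : K →ₐ[k] K) ∈ Z := fun O =>
    ⟨mem h a b h3, fun hO => by
      have := mem h a.symm b.symm (v_symm a b h3) hO
      rwa [show (O.comap (Φ : K →ₐ[k] K)).comap (Φ.symm : K →ₐ[k] K) = O from cc Φ.symm O]
        at this⟩
  exact ⟨⟨Φ, hX⟩, h1, h2, h3, fun O hO => pr_comap h a hO, fun O hO => pr_comap h.symm b hO,
    fun O hO i j => ee_unit h a b h3 hO i j⟩

end Pool.Agent.MP_20d318_ag.KK

end PartSig

section PartPol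

/-! Sections in the compositum; effective divisors have effective images. -/

set_option autoImplicit false
set_option linter.unusedSectionVars false

open scoped TensorProduct

namespace Pool.Agent.MP_20d318_ag.KK

open Pool.Agent.MP_fd6584_ag.Fn Pool.Agent.CBk Polynomial
open Pool.Agent.MP_fd6584_ag.AG hiding deg_inv deg_congr deg_of_unit deg_mul deg_prod deg_zpow
  deg_eq_zero deg_nonneg deg_div deg_pow
open Pool.Agent.MVg (Sc Fac)
open Pool.Agent.MP_20d318_ag.CH (Lv Lf sX)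

namespace PolR

variable {k M M' K Λ Λ' κ κ' : Type} {n n' : ℕ} [Field k] [Field M] [Field M'] [Field K]
  [Algebra k M] [Algebra k M'] [Algebra k K] {ι : M →ₐ[k] K} {ι' : M' →ₐ[k] K}

/-- A valuation ring over a prime element of the compositum ring. -/
theorem exists_val {π : Bq ι ι' ⊤ ⊤ ∅} (hπ : Prime π) :
    ∃ V : Subalgebra k K, IsVal V ∧ Ov ι ι' ⊤ ⊤ V ∧ ∀ b : Bq ι ι' ⊤ ⊤ ∅,
      ((b : K) ∈ mx V ↔ π ∣ b) := by
  have : (Ideal.span {π}).IsPrime := (Ideal.span_singleton_prime hπ.ne_zero).2 hπ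
  obtain ⟨V, hV, h⟩ := exists_val_of (Bq ι ι' ⊤ ⊤ ∅).val (Ideal.Quotient.mk (Ideal.span {π}))
    (fun b hb => by rw [show b = 0 from Subtype.ext hb, map_zero])
  refine ⟨V, hV, ⟨hV.isLocalRing,
    ⟨fun m _ => (h ⟨_, Bq_l (a := m) trivial⟩).1, fun _ _ q => isU_top.2 q.1⟩,
    ⟨fun m _ => (h ⟨_, Bq_r (a := m) trivial⟩).1, fun _ _ q => isU_top.2 q.1⟩⟩, fun b => ?_⟩
  rw [← Ideal.mem_span_singleton, ← Ideal.Quotient.eq_zero_iff_mem]
  exact (h b).2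

/-- The expansion in a basis of the second factor. -/
theorem expand {μ : K} (hμ : μ ∈ Bq ι ι' ⊤ ⊤ ∅) : ∃ (I : Type) (s : Finset I) (m : I → M)
    (m' : I → M'), LinearIndependent k m' ∧ μ = ∑ i ∈ s, ι (m i) * ι' (m' i) := by
  rw [← Bq_top] at hμ
  obtain ⟨z, rfl⟩ := hμ
  let ε := Module.Basis.ofVectorSpace k M'
  let β := Algebra.TensorProduct.basis M ε
  refine ⟨_, (β.repr z).support, β.repr z, ε, ε.linearIndependent, ?_⟩
  conv_lhs => rw [← β.linearCombination_repr z, Finsupp.linearCombination_apply, Finsupp.sum]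
  change pm ι ι' _ = _
  rw [map_sum]
  refine Finset.sum_congr rfl fun i _ => ?_
  rw [← pm_tmul]
  simp [β, TensorProduct.smul_tmul']

variable [Fintype κ] [Fintype κ'] {L : Lv k M Λ κ n} {L' : Lv k M' Λ' κ' n'} {v : K} {e : ℕ}
  {Z : Set (Subalgebra k K)} {g : Subalgebra k M → M} {g' : Subalgebra k M' → M'}
  {a : κ → κ' → ℤ} {O : Subalgebra k K}

/-- Removing the factors that are units over the generic point of the second factor. -/
theorem strip (h : Geo L L' ι ι' v e Z) (hg' : IsCart L'.Y g') (hO : O ∈ Z)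
    (hR : pr ι' L'.Y O = ⊤) {f : K} (hf : f * lb L L' ι ι' g g' a O ∈ O) :
    f * ι (g (pr ι L.Y O)) ∈ O := by
  have hU : ∀ m, m ≠ 0 → IsU O (ι' m) := fun m hm =>
    h.maps'.isU_up hO (by rw [hR]; exact isU_top.2 hm)
  have u : IsU O (∏ i, ∏ j, EE L L' ι ι' i j O ^ (-a i j)) :=
    isU_prod fun i _ => isU_prod fun j _ =>
      (h.eu hO i j (Or.inr (hU _ ((h.ok'.cs j).ne (h.maps'.mem hO))))).zpow _
  have u' : IsU O (up ι' L'.Y g' O) := hU _ (hg'.ne (h.maps'.mem hO))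
  have := u'.div_mem (u.div_mem hf)
  rwa [lb, ← mul_assoc, mul_div_cancel_right₀ _ u.1, ← mul_assoc,
    mul_div_cancel_right₀ _ u'.1] at this

/-- A section in the compositum has no denominator. -/
theorem poly (h : Geo L L' ι ι' v e Z) [UniqueFactorizationMonoid (Bq ι ι' ⊤ ⊤ ∅)]
    (hg : IsCart L.Y g) (hg' : IsCart L'.Y g') (A B : Bq ι ι' ⊤ ⊤ ∅) (hB : B ≠ 0)
    (hs : Sc Z (lb L L' ι ι' g g' a) ((A : K) / B)) : (A : K) / B ∈ Bq ι ι' ⊤ ⊤ ∅ := by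
  obtain ⟨A', B', c, hc, rfl, rfl⟩ := UniqueFactorizationMonoid.exists_reduced_factors' A B hB
  have hc0 : (c : K) ≠ 0 := fun e => left_ne_zero_of_mul hB (Subtype.ext e)
  have hB0 : (B' : K) ≠ 0 := fun e => right_ne_zero_of_mul hB (Subtype.ext e)
  rw [MulMemClass.coe_mul, MulMemClass.coe_mul, mul_div_mul_left _ _ hc0] at hs ⊢
  by_cases hu : IsUnit B'
  · obtain ⟨G, hG⟩ := hu.dvd (a := A')
    rw [hG, MulMemClass.coe_mul, mul_div_cancel_left₀ _ hB0]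
    exact G.2
  obtain ⟨π, hπ, hd⟩ := WfDvdMonoid.exists_irreducible_factor hu (right_ne_zero_of_mul hB)
  obtain ⟨V, hV, hT, hm⟩ := exists_val hπ.prime
  obtain ⟨O, hO, hOV, hR, hR'⟩ := h.below h.ok.nice.toFine.top h.ok'.nice.toFine.top hV hT
  have h1 := strip h hg' hO hR' (hs O hO)
  have hl : IsU O (ι (g (pr ι L.Y O))) :=
    h.maps.isU_up hO (by rw [hR]; exact isU_top.2 (hR ▸ hg.ne (h.maps.mem hO)))
  have h2 := hl.div_mem h1
  rw [mul_div_cancel_right₀ _ hl.ne] at h2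
  have hA := mx_mul_left (hOV.1 h2) ((hm B').2 hd)
  rw [div_mul_cancel₀ _ hB0] at hA
  exact absurd (hc ((hm A').1 hA) hd) hπ.not_isUnit

/-- The coefficients of a section. -/
theorem coeff_sc [NeZero (2 : k)] [IsAlgClosed k] (hG : GaStmt) (h : Geo L L' ι ι' v e Z)
    (hg : IsCart L.Y g) (hg' : IsCart L'.Y g') {I : Type} {s : Finset I} {m : I → M} {m' : I → M'}
    (hm : LinearIndependent k m')
    (hs : Sc Z (lb L L' ι ι' g g' a) (∑ i ∈ s, ι (m i) * ι' (m' i))) {i : I} (hi : i ∈ s) :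
    Sc L.Y g (m i) := by
  refine MVg.sc_of_places h.ok.nice hg fun P hP => ?_
  obtain ⟨V, hV, hd, hc⟩ := hG k M M' K ι ι' h.ext.dj P
  obtain ⟨O, hO, d, e, e'⟩ := h.below hP h.ok'.nice.toFine.top hV hd
  have b := strip h hg' hO e' (hs O hO)
  rw [e, Finset.sum_mul] at b
  refine hc I s (fun i => m i * g (plO P)) m' hm ?_ i hi
  simpa only [map_mul, mul_right_comm] using d.1 b

theorem comap_one (R : Subalgebra k M) : R.comap ((1 : M ≃ₐ[k] M) : M →ₐ[k] M) = R := by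
  ext x; simp

theorem lf_one (h : Geo L L' ι ι' v e Z) {r : M} (hr : r = 1 ∨ r = -1) : Lf L Aut.one r := by
  refine ⟨by rcases hr with rfl | rfl <;> simp, by rcases hr with rfl | rfl <;> simp [Aut.one],
    fun i R hR => ?_⟩
  have e1 : R.comap (((Aut.one : Aut L.Y).1 : M ≃ₐ[k] M) : M →ₐ[k] M) = R := comap_one R
  have e2 : (Aut.one : Aut L.Y).1 (L.s i R) = L.s i R := rfl
  rw [e1, e2, div_self ((h.ok.cs i).ne hR)]
  exact isU_one

theorem lb_sq (g : Subalgebra k M → M) (g' : Subalgebra k M' → M') (a : κ → κ' → ℤ)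
    (O : Subalgebra k K) : lb L L' ι ι' (g ^ 2) (g' ^ 2) (fun i j => a i j * 2) O =
      lb L L' ι ι' g g' a O * lb L L' ι ι' g g' a O := by
  have e1 : ∀ (x : K) (s : ℤ), x ^ (-(s * 2)) = (x ^ (-s)) ^ 2 := fun x s => by
    rw [← neg_mul, zpow_mul, zpow_ofNat]
  unfold lb up
  simp only [e1, Finset.prod_pow, Pi.pow_apply, map_pow]
  ring

theorem lb_up (h : Geo L L' ι ι' v e Z) (hg : IsCart L.Y g) (hg' : IsCart L'.Y g') {θ : Aut Z}
    (hθ : Up L L' ι ι' v e Z Aut.one 1 Aut.one (-1) θ) (a : κ → κ' → ℤ) (hO : O ∈ Z) :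
    IsU O (θ.1 (lb L L' ι ι' g g' a (O.comap (θ.1 : K →ₐ[k] K))) / lb L L' ι ι' g g' a O) := by
  have e1 : θ.1 (up ι L.Y g (O.comap (θ.1 : K →ₐ[k] K))) = up ι L.Y g O := by
    unfold up
    rw [hθ.h1, hθ.pr1 O hO]
    exact congrArg (fun R => ι (g R)) (comap_one _)
  have e2 : θ.1 (up ι' L'.Y g' (O.comap (θ.1 : K →ₐ[k] K))) = up ι' L'.Y g' O := by
    unfold up
    rw [hθ.h2, hθ.pr2 O hO]
    exact congrArg (fun R => ι' (g' R)) (comap_one _)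
  have n1 : up ι L.Y g O * up ι' L'.Y g' O ≠ 0 :=
    mul_ne_zero ((h.cartU hg).ne hO) ((h.symm.cartU hg').ne hO)
  unfold lb
  rw [map_mul, map_mul, e1, e2, mul_div_mul_left _ _ n1, map_prod, ← Finset.prod_div_distrib]
  refine isU_prod fun i _ => ?_
  rw [map_prod, ← Finset.prod_div_distrib]
  refine isU_prod fun j _ => ?_
  rw [map_zpow₀, ← div_zpow]
  exact (hθ.ee O hO i j).zpow _

end PolR

theorem pol_stmt : PolStmt := by
  intro hG k M M' K Λ Λ' κ κ' n n' _ _ _ _ _ _ _ _ _ _ _ L L' ι ι' v e Z h hU g g' a hg hg' μ h0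
    ⟨A, hA, B, hB, B0, hμ⟩ hs
  subst hμ
  obtain ⟨I, s, m, m', hm, q⟩ := PolR.expand
    (PolR.poly h hg hg' ⟨A, hA⟩ ⟨B, hB⟩ (fun e => B0 (congrArg Subtype.val e)) hs)
  replace q : A / B = _ := q
  rw [q] at hs h0
  obtain ⟨i, hi, ne⟩ := Finset.exists_ne_zero_of_sum_ne_zero h0
  exact ⟨m i, fun e => ne (by rw [e, map_zero, zero_mul]), PolR.coeff_sc hG h hg hg' hm hs hi⟩

theorem eff_stmt : EffStmt := by
  intro k M M' K Λ Λ' κ κ' n n' _ _ _ _ _ _ _ _ _ _ _ L L' ι ι' v e Z h hS hP g g' a hg hg' μ hμ s1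
  obtain ⟨θ, hθ⟩ := hS _ _ _ _ (PolR.lf_one h (Or.inl rfl)) (PolR.lf_one h.symm (Or.inr rfl))
  have s2 : Sc Z (lb L L' ι ι' g g' a) (θ.1 μ) := fun O hO => by
    have h1 : θ.1 (μ * lb L L' ι ι' g g' a (O.comap (θ.1 : K →ₐ[k] K))) ∈ O :=
      s1 _ ((θ.2 O).1 hO)
    have h2 := PolR.lb_up h hg hg' hθ a hO
    have h3 := O.mul_mem h1 h2.inv_mem
    rwa [map_mul, inv_div, mul_assoc, mul_div_cancel₀ _ (div_ne_zero_iff.1 h2.1).1] at h3
  refine hP (g ^ 2) (g' ^ 2) (fun i j => a i j * 2) (hg.pow 2) (hg'.pow 2) (μ * θ.1 μ)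
    (mul_ne_zero hμ ((map_ne_zero θ.1).2 hμ))
    (h.fld.nrm θ.1 hθ.h1 hθ.h2 (by simpa using hθ.h3) μ) fun O hO => ?_
  rw [PolR.lb_sq, mul_mul_mul_comm]
  exact O.mul_mem (s1 O hO) (s2 O hO)

end Pool.Agent.MP_20d318_ag.KK

end PartPol

section PartVol

/-! Row VOL: the volume form on the next level. -/

set_option autoImplicit false
set_option linter.unusedSectionVars false

open scoped TensorProduct

namespace Pool.Agent.MP_20d318_ag.KK

open Pool.Agent.MP_fd6584_ag.Fn Pool.Agent.CBk Polynomial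
open Pool.Agent.MP_fd6584_ag.AG hiding deg_inv deg_congr deg_of_unit deg_mul deg_prod deg_zpow
  deg_eq_zero deg_nonneg deg_div deg_pow
open Pool.Agent.MVg (Sc Fac)
open Pool.Agent.MP_20d318_ag.CH (Lv OkA Ok0 Ok Lf MW cb Vol Gens dt wt cl pull sX Tw Der HypStmt
  Nd cl_val pull_val n1_ext proj_deg nd_d nd_c)

namespace VolAux

variable {k M M' K : Type} [Field k] [Field M] [Field M'] [Field K] [Algebra k M] [Algebra k M']
  [Algebra k K] {N N' : ℕ} {ι : M →ₐ[k] K} {ι' : M' →ₐ[k] K} {δ₀ : Derivation k M (Fin N → M)}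
  {δ₁ : Derivation k M' (Fin N' → M')} {δ : Derivation k K (Fin (N + N') → K)}

theorem lin (ch : ∀ a, δ (ι a) = Fin.append (fun i => ι (δ₀ a i)) 0) {c r : Fin N → M} {a : M}
    (h : δ₀ a = ∑ i, r i • δ₀ (c i)) : δ (ι a) = ∑ i, ι (r i) • δ (ι (c i)) := by
  funext i
  rw [ch, h, Finset.sum_apply]
  refine Fin.addCases (fun i => ?_) (fun i => ?_) i <;> simp [ch]

theorem lin' (ch : ∀ a, δ (ι' a) = Fin.append 0 (fun i => ι' (δ₁ a i))) {c r : Fin N' → M'}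
    {a : M'} (h : δ₁ a = ∑ i, r i • δ₁ (c i)) : δ (ι' a) = ∑ i, ι' (r i) • δ (ι' (c i)) := by
  funext i
  rw [ch, h, Finset.sum_apply]
  refine Fin.addCases (fun i => ?_) (fun i => ?_) i <;> simp [ch]

theorem det (ch : ∀ a, δ (ι a) = Fin.append (fun i => ι (δ₀ a i)) 0)
    (ch' : ∀ a, δ (ι' a) = Fin.append 0 (fun i => ι' (δ₁ a i))) (c : Fin N → M)
    (c' : Fin N' → M') :
    dt δ (Fin.append (fun i => ι (c i)) fun i => ι' (c' i)) = ι (dt δ₀ c) * ι' (dt δ₁ c') := by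
  unfold dt
  rw [← Matrix.det_submatrix_equiv_self finSumFinEquiv, AlgHom.map_det, AlgHom.map_det,
    ← Matrix.det_fromBlocks_zero₂₁ _ 0]
  congr 1
  ext (i | i) (j | j) <;> simp [ch, ch']

theorem comb {O : Subalgebra k K} (c : Fin N → K) (c' : Fin N' → K) (r : Fin N → K)
    (r' : Fin N' → K) (h : ∀ i, r i ∈ O) (h' : ∀ i, r' i ∈ O) :
    (∀ i, Fin.append r r' i ∈ O) ∧ ∑ i, Fin.append r r' i • δ (Fin.append c c' i) =
      ∑ i, r i • δ (c i) + ∑ i, r' i • δ (c' i) :=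
  ⟨fun i => Fin.addCases (fun i => by simpa using h i) (fun i => by simpa using h' i) i,
    by simp [Fin.sum_univ_add]⟩

theorem unit (hD : Der) {y c : Fin N → M} (top : IntermediateField.adjoin k (Set.range y) = ⊤)
    (h0 : ∀ i, δ₀ (y i) = Pi.single i 1) {R : Subalgebra k M} (hR : IsLocalRing R)
    (g : Gens R δ₀ c) {S : M} (hc : Crd R S) (hS : S ∈ mx R) {r : Fin N → M} (r1 : ∀ i, r i ∈ R)
    (r2 : δ₀ S = ∑ i, r i • δ₀ (c i)) : ∃ i, IsU R (r i) := by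
  by_contra hn
  obtain ⟨D, d1, d2⟩ := hc hS
  have e : ∀ a, D a = ∑ i, δ₀ a i * D (y i) := hD.chain k M M M _ y δ₀ (AlgHom.id k M) D top h0
  have e' : D S = ∑ i, r i * D (c i) := by
    rw [e, r2]
    simp only [e (c _), Finset.sum_apply, Pi.smul_apply, smul_eq_mul, Finset.sum_mul,
      Finset.mul_sum, mul_assoc]
    exact Finset.sum_comm
  rw [e'] at d2
  exact (mx_sum hR fun i _ => mx_mul_right ⟨r1 i, fun hi => hn ⟨i, hi⟩⟩ (d1 _ (g.1 i))).2 d2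

end VolAux

open VolAux in
theorem vol_stmt : VolStmt := by
  intro hD hC k M M' K Λ Λ' κ κ' n n' _ _ _ _ _ _ _ _ _ _ _ L L' ι ι' v e Z h
  obtain ⟨j, j0, hv⟩ := h.ok.vol
  obtain ⟨j', j0', hv'⟩ := h.ok'.vol
  obtain ⟨δ₀, h0⟩ := hD.ex k M (n + 2) L.y h.ok.ind h.ok.top
  obtain ⟨δ₁, h1⟩ := hD.ex k M' (n' + 2) L'.y h.ok'.ind h.ok'.top
  refine ⟨j, j', j0, j0', fun (δ : Derivation k K (Fin (n + 2 + (n' + 2)) → K)) hδ O hO => ?_⟩
  have hR := h.maps.mem hO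
  have hR' := h.maps'.mem hO
  obtain ⟨c, cg, cu⟩ := hv δ₀ h0 _ hR
  obtain ⟨c', cg', cu'⟩ := hv' δ₁ h1 _ hR'
  have hy : ∀ i, δ (ι (L.y i)) = Pi.single (Fin.castAdd (n' + 2) i) 1 := fun i => by
    have := hδ (Fin.castAdd (n' + 2) i)
    rwa [yy, Fin.append_left] at this
  have hy' : ∀ i, δ (ι' (L'.y i)) = Pi.single (Fin.natAdd (n + 2) i) 1 := fun i => by
    have := hδ (Fin.natAdd (n + 2) i)
    rwa [yy, Fin.append_right] at this
  have ne : ∀ (a : Fin (n + 2)) (b : Fin (n' + 2)),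
      Fin.castAdd (n' + 2) a ≠ Fin.natAdd (n + 2) b := fun a b q => by
    have := congrArg Fin.val q
    simp only [Fin.val_castAdd, Fin.val_natAdd] at this
    omega
  have ch : ∀ a, δ (ι a) = Fin.append (fun i => ι (δ₀ a i)) 0 := fun a => by
    rw [hD.chain k M K _ _ L.y δ₀ ι δ h.ok.top h0 a]
    funext i
    refine Fin.addCases (fun i => ?_) (fun i => ?_) i <;>
      simp [hy, Pi.single_apply, fun a b => (ne a b).symm]
  have ch' : ∀ a, δ (ι' a) = Fin.append 0 (fun i => ι' (δ₁ a i)) := fun a => by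
    rw [hD.chain k M' K _ _ L'.y δ₁ ι' δ h.ok'.top h1 a]
    funext i
    refine Fin.addCases (fun i => ?_) (fun i => ?_) i <;> simp [hy', Pi.single_apply, ne]
  have lq := h.lqO hO
  set A := AA L L' ι ι' v e O with hA
  set S := ∏ i, L.s i (pr ι L.Y O) with hS
  set S' := ∏ i, L'.s i (pr ι' L'.Y O) with hS'
  set cc : Fin (n + 2 + (n' + 2)) → K := Fin.append (fun i => ι (c i)) fun i => ι' (c' i) with hcc
  have up1 : ∀ a ∈ pr ι L.Y O, ι a ∈ O := fun a ha => h.maps.mem_up hO ha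
  have up2 : ∀ a ∈ pr ι' L'.Y O, ι' a ∈ O := fun a ha => h.maps'.mem_up hO ha
  have cm : ∀ i, cc i ∈ O :=
    (comb (δ := δ) 0 0 _ _ (fun i => up1 _ (cg.1 i)) fun i => up2 _ (cg'.1 i)).1
  have g1 : ∀ a ∈ pr ι L.Y O, ι a ∈ O ∧ ∃ r : Fin (n + 2 + (n' + 2)) → K, (∀ i, r i ∈ O) ∧
      δ (ι a) = ∑ i, r i • δ (cc i) := fun a ha => by
    obtain ⟨r, r1, r2⟩ := cg.2 a ha
    have := comb (δ := δ) (fun i => ι (c i)) (fun i => ι' (c' i)) (fun i => ι (r i)) 0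
      (fun i => up1 _ (r1 i)) fun _ => zero_mem O
    exact ⟨up1 a ha, _, this.1, by rw [this.2, lin ch r2]; simp⟩
  have g2 : ∀ a ∈ pr ι' L'.Y O, ι' a ∈ O ∧ ∃ r : Fin (n + 2 + (n' + 2)) → K, (∀ i, r i ∈ O) ∧
      δ (ι' a) = ∑ i, r i • δ (cc i) := fun a ha => by
    obtain ⟨r, r1, r2⟩ := cg'.2 a ha
    have := comb (δ := δ) (fun i => ι (c i)) (fun i => ι' (c' i)) 0 (fun i => ι' (r i))
      (fun _ => zero_mem O) fun i => up2 _ (r1 i)
    exact ⟨up2 a ha, _, this.1, by rw [this.2, lin' ch' r2]; simp⟩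
  have gG : ∀ g ∈ ι '' (pr ι L.Y O : Set M) ∪ ι' '' (pr ι' L'.Y O : Set M'), g ∈ O ∧
      ∃ r : Fin (n + 2 + (n' + 2)) → K, (∀ i, r i ∈ O) ∧ δ g = ∑ i, r i • δ (cc i) := by
    rintro _ (⟨a, ha, rfl⟩ | ⟨a, ha, rfl⟩)
    exacts [g1 a ha, g2 a ha]
  obtain ⟨r, r1, r2⟩ := cg.2 S lq.mS
  obtain ⟨r', r1', r2'⟩ := cg'.2 S' lq.mS'
  have hu0 := (h.maps.isU_up hO cu).mul (h.maps'.isU_up hO cu')
  have fin : ∀ d : Fin (n + 2 + (n' + 2)) → K, (∃ u, IsU O u ∧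
      wt e O A (ι S) * dt δ d = u * dt δ cc) → IsU O (ι j * ι' j' * wt e O A (∏ i, sX L ι i O) /
        (up ι L.Y L.jj O * up ι' L'.Y L'.jj O) * dt δ d) := by
    rintro d ⟨u, hu, q⟩
    rw [hcc, det ch ch'] at q
    refine Eq.subst ?_ (hu.mul hu0)
    rw [Geo.prod_sX, ← hS, map_mul, map_mul, map_div₀, map_div₀, up, up]
    linear_combination (-(ι j / ι (L.jj (pr ι L.Y O)) * (ι' j' / ι' (L'.jj (pr ι' L'.Y O))))) * q
  by_cases hm : A ∈ O
  · have hp := h.pts O hO A hm (Or.inl rfl)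
    rw [Bq, ← Set.union_assoc] at hp
    obtain ⟨d, d1, d2, d3⟩ := hC k K e _ O _ A (ι S) (ι' S') δ cc lq.he hp cm (by
      rintro _ (rfl | rfl | q)
      exacts [g1 _ lq.mS, g2 _ lq.mS', gG _ q]) lq.eq (fun hs => by
      obtain ⟨i, hi⟩ := unit hD h.ok'.top h1 lq.loc' cg' (h.ok'.crd _ hR')
        ((h.maps'.mx_up hO lq.mS').1 hs) r1' r2'
      have := comb (δ := δ) (fun i => ι (c i)) (fun i => ι' (c' i)) (fun i => -A ^ e * ι (r i))
        (fun i => ι' (r' i)) (fun i => mul_mem (neg_mem (pow_mem hm e)) (up1 _ (r1 i)))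
        fun i => up2 _ (r1' i)
      refine ⟨_, this.1, ?_, Fin.natAdd _ i, by simpa using h.maps'.isU_up hO hi⟩
      rw [this.2, lin ch r2, lin' ch' r2', Finset.smul_sum]
      simp only [mul_smul, neg_smul, Finset.sum_neg_distrib]
      abel)
    refine ⟨d, d1, fin d (by rwa [wt, if_pos hm]), ?_⟩
    rintro t ht (rfl | rfl)
    · exact d3 ht
    · exact absurd (mx_mul_left hm ht) (by rw [mul_inv_cancel₀ lq.ne]; exact one_not_mem_mx)
  · have hm' : A⁻¹ ∈ O := (h.aa O hO).resolve_left hm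
    have hp := h.pts O hO A⁻¹ hm' (Or.inr rfl)
    rw [Bq, ← Set.union_assoc] at hp
    obtain ⟨d, d1, d2, d3⟩ := hC k K e _ O _ A⁻¹ (ι' S') (ι S) δ cc lq.he hp cm (by
      rintro _ (rfl | rfl | q)
      exacts [g2 _ lq.mS', g1 _ lq.mS, gG _ q]) lq.symm.eq (fun hs => by
      obtain ⟨i, hi⟩ := unit hD h.ok.top h0 lq.loc cg (h.ok.crd _ hR)
        ((h.maps.mx_up hO lq.mS).1 hs) r1 r2
      have := comb (δ := δ) (fun i => ι (c i)) (fun i => ι' (c' i)) (fun i => ι (r i))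
        (fun i => -A⁻¹ ^ e * ι' (r' i)) (fun i => up1 _ (r1 i))
        fun i => mul_mem (neg_mem (pow_mem hm' e)) (up2 _ (r1' i))
      refine ⟨_, this.1, ?_, Fin.castAdd _ i, by simpa using h.maps.isU_up hO hi⟩
      rw [this.2, lin ch r2, lin' ch' r2', Finset.smul_sum]
      simp only [mul_smul, neg_smul, Finset.sum_neg_distrib]
      abel)
    have e1 : A⁻¹ ^ (e - 1) * ι' S' = A * ι S := by
      have := lq.ne
      rw [← lq.eq]
      rcases lq.he with q | q <;> rw [q] <;> norm_num <;> field_simp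
    refine ⟨d, d1, fin d (by rwa [wt, if_neg hm, ← e1]), ?_⟩
    rintro t ht (rfl | rfl)
    · exact absurd ht.1 hm
    · exact d3 ht

end Pool.Agent.MP_20d318_ag.KK

end PartVol

section PartDv

/-! The lifted automorphisms and the classes of the divisors on the blow-up of a product. -/

set_option autoImplicit false
set_option linter.unusedSectionVars false

namespace Pool.Agent.MP_20d318_ag.KK

open Pool.Agent.MP_fd6584_ag.Fn Pool.Agent.CBk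
open Pool.Agent.MP_fd6584_ag.AG hiding deg_inv deg_congr deg_of_unit deg_mul deg_prod deg_zpow
  deg_eq_zero deg_nonneg deg_div deg_pow
open Pool.Agent.MP_20d318_ag.CH (Lv Lf cl pull sX cl_val n1_ext lin_ext pull_cl cl_mem cl_eff
  span_cl n1_eq)
open Pool.Agent.MP_20d318_ag.CH.Lft

namespace DvR

variable {k M M' K Λ Λ' κ κ' : Type} {n n' : ℕ} [Field k] [Field M] [Field M'] [Field K]
  [Algebra k M] [Algebra k M'] [Algebra k K] [IsAlgClosed k] [Fintype κ] [Fintype κ']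
  {L : Lv k M Λ κ n} {L' : Lv k M' Λ' κ' n'} {ι : M →ₐ[k] K} {ι' : M' →ₐ[k] K} {v : K} {e : ℕ}
  {Z : Set (Subalgebra k K)} (h : Geo L L' ι ι' v e Z)

include h

section lift

variable {g : Aut L.Y} {γ : Aut Z} (h1 : ∀ m, γ.1 (ι m) = ι (g.1 m))
  (p1 : ∀ O ∈ Z, pr ι L.Y (O.comap (γ.1 : K →ₐ[k] K)) = (pr ι L.Y O).comap (g.1 : M →ₐ[k] M))

include h1 p1

omit h in
theorem mv_up (f : Subalgebra k M → M) {O : Subalgebra k K} (hO : O ∈ Z) :
    mv γ (up ι L.Y f) O = up ι L.Y (mv g f) O := by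
  unfold mv up
  rw [h1, p1 O hO]

theorem mv_sC {r : M} (hg : Lf L g r) (i : κ) {O : Subalgebra k K} (hO : O ∈ Z)
    (hE : ∀ j, IsU O (mv γ (EE L L' ι ι' i j) O / EE L L' ι ι' i j O)) :
    IsU O (mv γ (sC L L' ι ι' i) O / sC L L' ι ι' i O) := by
  have h0 : IsU O (mv γ (sX L ι i) O / sX L ι i O) := by
    have h2 := (isU_comap ι).1 ((hg.st i _ (h.maps.mem hO)).mono (h.maps.dom hO).1)
    rw [map_div₀] at h2
    rw [sX, mv_up h1 p1 _ hO]
    exact h2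
  have h3 := h0.div (isU_prod (s := Finset.univ) fun j _ => hE j)
  rw [Finset.prod_div_distrib, div_div_div_comm] at h3
  change IsU O (γ.1 (_ / ∏ j, _) / (_ / ∏ j, _))
  rw [map_div₀, map_prod]
  exact h3

theorem n1_pull (x : N1 L.Y) :
    γ.n1 (pull h.gY h.gX h.maps x) = pull h.gY h.gX h.maps (g.n1 x) :=
  LinearMap.congr_fun (f := γ.n1 ∘ₗ pull h.gY h.gX h.maps) (g := pull h.gY h.gX h.maps ∘ₗ g.n1)
    (lin_ext fun f hf => by
      rw [LinearMap.comp_apply, LinearMap.comp_apply, pull_cl _ _ _ hf, n1_cl g hf,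
        pull_cl _ _ _ (mv_cart g hf), n1_cl γ (h.cartU hf)]
      exact cl_same h.gX (mv_cart γ (h.cartU hf)) (h.cartU (mv_cart g hf))
        fun O hO => mv_up h1 p1 f hO) x

end lift

theorem pull_mem {x : N1 L.Y} (hx : x ∈ AddSubgroup.closure (Set.range Cartier.n1)) :
    pull h.gY h.gX h.maps x ∈ AddSubgroup.closure (Set.range Cartier.n1) := by
  induction hx using AddSubgroup.closure_induction with
  | mem x hx =>
    obtain ⟨D, rfl⟩ := hx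
    rw [n1_eq, pull_cl _ _ _ D.isCart]
    exact cl_mem (h.cartU D.isCart)
  | zero => rw [map_zero]; exact zero_mem _
  | add x y _ _ a b => rw [map_add]; exact add_mem a b
  | neg x _ a => rw [map_neg]; exact neg_mem a

open Classical in
theorem cC (i : κ) :
    cl Z (sC L L' ι ι' i) = h.Phi (L.nd.c i, 0, fun i' _ => if i' = i then 1 else 0) := by
  refine n1_ext fun ν => Eq.trans ?_ (h.phi_d ν _).symm
  rw [cl_val (h.cartC _), h.degC]
  simp only [h.pj_c, map_zero, add_zero, ite_mul, one_mul, zero_mul]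
  rw [Finset.sum_eq_single i (fun b _ hb => by simp [hb]) (by simp)]
  simp

theorem cE (i : κ) (j : κ') : h.Phi (exW i j) = cl Z (EE L L' ι ι' i j) := by
  classical
  refine n1_ext fun ν => (h.phi_d ν _).trans ?_
  rw [cl_val (h.cartE i j)]
  simp only [exW, map_zero, add_zero, zero_sub]
  rw [Finset.sum_eq_single i (fun b _ hb => by simp [hb]) (by simp),
    Finset.sum_eq_single j (fun b _ hb => by simp [hb]) (by simp)]
  simp

theorem eL {x : N1 L.Y} (hx : x ∈ Glue.Ef L.Y) : h.Phi (x, 0, 0) ∈ Glue.Ef Z := by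
  rw [show h.Phi (x, 0, 0) = pull h.gY h.gX h.maps x by simp [Geo.Phi]]
  refine ((Lat.isCone_cone _).preimage (pull h.gY h.gX h.maps)).cone_subset ?_ hx
  rintro _ ⟨D, hD, rfl⟩
  rw [Set.mem_preimage, n1_eq, pull_cl _ _ _ D.isCart]
  exact cl_eff (h.cartU D.isCart) fun O hO => (h.maps.dom hO).1 (hD _ (h.maps.mem hO))

end DvR

open DvR

theorem lft_stmt : LftStmt := by
  intro k M M' K Λ Λ' κ κ' n n' _ _ _ _ _ _ _ _ _ _ _ L L' ι ι' v e h hs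
  rintro _ ⟨g, r, hg, rfl⟩ _ ⟨g', r', hg', rfl⟩
  obtain ⟨γ, u⟩ := hs g r g' r' hg hg'
  refine ⟨γ.n1, ⟨γ, ι r * ι' r', ⟨mul_ne_zero ((_root_.map_ne_zero ι).2 hg.ne)
    ((_root_.map_ne_zero ι').2 hg'.ne), ?_, ?_⟩, rfl⟩, fun D => ?_⟩
  · change γ.1 (ι L.φ * ι' L'.φ) = ι L.φ * ι' L'.φ * (ι r * ι' r') ^ 2
    rw [map_mul, u.h1, u.h2, hg.sq, hg'.sq, map_mul, map_mul, map_pow, map_pow]
    ring
  · rintro (i | j) O hO
    · exact mv_sC h u.h1 u.pr1 hg i hO (u.ee O hO i)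
    · exact mv_sC h.symm u.h2 u.pr2 hg' j hO fun i => by
        rw [EE_symm]
        exact u.ee O hO i j
  · have e3 : ∀ i j, γ.n1 (cl _ (EE L L' ι ι' i j)) = cl _ (EE L L' ι ι' i j) := fun i j =>
      (n1_cl γ (h.cartE i j)).trans
        (cl_congr h.gX (mv_cart γ (h.cartE i j)) (h.cartE i j) fun O hO => u.ee O hO i j)
    have e4 : γ.n1 (pull h.gY' h.gX h.maps' D.2.1) = pull h.gY' h.gX h.maps' (g'.n1 D.2.1) :=
      n1_pull h.symm u.h2 u.pr2 _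
    change γ.n1 (pull h.gY h.gX h.maps D.1 + pull h.gY' h.gX h.maps' D.2.1 -
      ∑ i, ∑ j, D.2.2 i j • cl _ (EE L L' ι ι' i j)) =
      pull h.gY h.gX h.maps (g.n1 D.1) + pull h.gY' h.gX h.maps' (g'.n1 D.2.1) -
      ∑ i, ∑ j, D.2.2 i j • cl _ (EE L L' ι ι' i j)
    simp only [map_sub, map_add, map_sum, map_smul, e3, e4, n1_pull h u.h1 u.pr1]

theorem dv_stmt : DvStmt := by
  intro k M M' K Λ Λ' κ κ' n n' _ _ _ _ _ _ _ _ _ _ _ L L' ι ι' v e h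
  refine ⟨fun D hD => ?_, ?_, ?_, fun x hx => eL h hx,
    fun x hx => Set.mem_of_eq_of_mem (h.phi_symm (0, x, 0)).symm (eL h.symm hx), fun i j => ?_,
    fun i => ?_⟩
  · exact sub_mem (add_mem (pull_mem h hD.1) (pull_mem h.symm hD.2.1))
      (sum_mem fun i _ => sum_mem fun j _ => (hD.2.2 i j).smul_mem (cl_mem (h.cartE i j)))
  · exact eq_top_iff.2 (span_cl.ge.trans (Submodule.span_mono AddSubgroup.subset_closure))
  · rintro (i | j)
    exacts [cC h i, (cC h.symm j).trans (h.phi_symm (stW L.nd L'.nd (.inr j)))]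
  · exact Set.mem_of_eq_of_mem (cE h i j) (cl_eff (h.cartE i j) fun O hO => h.em hO i j)
  · refine cl_eff (h.cartN i) fun O hO => ?_
    rcases i with i | j
    exacts [(h.rC hO i).1, (h.symm.rC hO j).1]

end Pool.Agent.MP_20d318_ag.KK

end PartDv

section PartCln

/-! Integral and effective classes on the blow-up of a product. -/

set_option autoImplicit false
set_option linter.unusedSectionVars false

namespace Pool.Agent.MP_20d318_ag.KK

open Pool.Agent.MP_fd6584_ag.Fn Pool.Agent.CBk Polynomial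
open Pool.Agent.MP_fd6584_ag.AG hiding deg_inv deg_congr deg_of_unit deg_mul deg_prod deg_zpow
  deg_eq_zero deg_nonneg deg_div deg_pow
open Pool.Agent.MVg (Sc Fac)
open Pool.Agent.MP_20d318_ag.CH (Lv cl IZ cl_mem n1_eq)
open Pool.Agent.MP_20d318_ag.CH.Cln (cl_pow cl_ef)

namespace Cln

variable {k M M' K Λ Λ' κ κ' : Type} {n n' : ℕ} [Field k] [IsAlgClosed k] [Field M] [Field M']
  [Field K] [Algebra k M] [Algebra k M'] [Algebra k K] [Fintype κ] [Fintype κ']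
  {L : Lv k M Λ κ n} {L' : Lv k M' Λ' κ' n'} {ι : M →ₐ[k] K} {ι' : M' →ₐ[k] K} {v : K} {e : ℕ}
  {Z : Set (Subalgebra k K)}

theorem gen (h : Geo L L' ι ι' v e Z) (hc : XCls L L' ι ι' Z) {f : Subalgebra k K → K}
    (hf : IsCart Z f) : ∃ (N : ℕ) (g : Subalgebra k M → M) (g' : Subalgebra k M' → M')
      (a : κ → κ' → ℤ) (μ : K), 0 < N ∧ IsCart L.Y g ∧ IsCart L'.Y g' ∧ μ ≠ 0 ∧
      (∀ O ∈ Z, IsU O (f O ^ N / (μ * lb L L' ι ι' g g' a O))) ∧
      (N : ℝ) • cl _ f = h.Phi (cl _ g, cl _ g', fun i j => a i j) := by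
  obtain ⟨N, g, g', a, μ, h1, h2, h2', h3, h4⟩ := hc f hf
  exact ⟨N, g, g', a, μ, h1, h2, h2', h3, h4,
    (cl_pow h.gX hf (h.cartW h2 h2' a) N h3 h4).trans (h.phi_lb h2 h2' a).symm⟩

theorem cls (h : Geo L L' ι ι' v e Z) (hc : XCls L L' ι ι' Z) (x : N1 Z)
    (hx : x ∈ AddSubgroup.closure (Set.range Cartier.n1)) :
    ∃ N : ℕ, 0 < N ∧ ∃ D ∈ LW L.nd L'.nd, (N : ℝ) • x = h.Phi D := by
  induction hx using AddSubgroup.closure_induction with
  | mem x hx =>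
    obtain ⟨D, rfl⟩ := hx
    obtain ⟨N, g, g', a, μ, h1, h2, h2', -, -, h5⟩ := gen h hc D.isCart
    exact ⟨N, h1, (cl _ g, cl _ g', fun i j => a i j),
      (mem_LW _ _).2 ⟨cl_mem h2, cl_mem h2', fun i j => ⟨a i j, rfl⟩⟩, by rw [n1_eq, h5]⟩
  | zero => exact ⟨1, one_pos, 0, zero_mem _, by rw [smul_zero, map_zero]⟩
  | add x y _ _ hx hy =>
    obtain ⟨N, h1, D, h2, h3⟩ := hx
    obtain ⟨N', h1', D', h2', h3'⟩ := hy
    refine ⟨N * N', Nat.mul_pos h1 h1', (N' : ℝ) • D + (N : ℝ) • D',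
      add_mem ((IZ.nat N').smul_mem h2) ((IZ.nat N).smul_mem h2'), ?_⟩
    rw [map_add, map_smul, map_smul, ← h3, ← h3', smul_smul, smul_smul, smul_add, Nat.cast_mul,
      mul_comm (N' : ℝ)]
  | neg x _ hx =>
    obtain ⟨N, h1, D, h2, h3⟩ := hx
    exact ⟨N, h1, -D, neg_mem h2, by rw [smul_neg, map_neg, h3]⟩

theorem dn (h : Geo L L' ι ι' v e Z) (hc : XCls L L' ι ι' Z) (he : XEff L L' ι ι' Z)
    (he' : XEff L' L ι' ι Z) :
    Glue.Ef Z ⊆ h.Phi '' ((LinearMap.fst ℝ _ _ ⁻¹' Glue.Ef L.Y) ∩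
      ((LinearMap.fst ℝ _ _).comp (LinearMap.snd ℝ _ _) ⁻¹' Glue.Ef L'.Y)) := by
  refine ((((Lat.isCone_cone _).preimage _).inter
    ((Lat.isCone_cone _).preimage _)).image _).cone_subset ?_
  rintro _ ⟨D, hD, rfl⟩
  obtain ⟨N, g, g', a, μ, h1, h2, h2', h3, h4, h5⟩ := gen h hc D.isCart
  have hs : Sc Z (lb L L' ι ι' g g' a) μ := fun O hO => by
    have h6 := (h4 O hO).div_mem (O.pow_mem (hD O hO) N)
    rwa [div_div_cancel₀ (div_ne_zero_iff.1 (h4 O hO).1).1] at h6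
  obtain ⟨m, hm, h7⟩ := he g g' a h2 h2' μ h3 hs
  obtain ⟨m', hm', h7'⟩ := he' g' g (fun j i => a i j) h2' h2 μ h3 (by rw [lb_symm]; exact hs)
  have hN : (N : ℝ) ≠ 0 := Nat.cast_ne_zero.2 h1.ne'
  refine ⟨(N : ℝ)⁻¹ • ((cl _ g, cl _ g', fun i j => a i j) : WP (N1 L.Y) (N1 L'.Y) κ κ'),
    ⟨?_, ?_⟩, ?_⟩
  · exact (Lat.isCone_cone _).smul _ (inv_nonneg.2 (Nat.cast_nonneg N)) _ (cl_ef h.gY h2 hm h7)
  · exact (Lat.isCone_cone _).smul _ (inv_nonneg.2 (Nat.cast_nonneg N)) _ (cl_ef h.gY' h2' hm' h7')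
  · rw [map_smul, ← h5, smul_smul, inv_mul_cancel₀ hN, one_smul, n1_eq]

end Cln

/-- CLN. -/
theorem cln_stmt : ClnStmt := by
  intro k M M' K Λ Λ' κ κ' n n' _ _ _ _ _ _ _ _ _ _ _ L L' ι ι' v e h hc he he'
  refine ⟨Cln.cls h hc, fun _ hx => ?_⟩
  obtain ⟨D, h1, h2⟩ := Cln.dn h hc he he' hx
  exact ⟨D, h2, h1.1, h1.2⟩

end Pool.Agent.MP_20d318_ag.KK

end PartCln

section PartNxa

/-! Row NXA: the algebraic part of the induction hypothesis passes to the blow-up. -/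

set_option autoImplicit false
set_option linter.unusedSectionVars false

namespace Pool.Agent.MP_20d318_ag.KK

open Pool.Agent.MP_fd6584_ag.Fn Pool.Agent.CBk
open Pool.Agent.MP_fd6584_ag.AG hiding deg_inv deg_congr deg_of_unit deg_mul deg_prod deg_zpow
  deg_eq_zero deg_nonneg deg_div deg_pow
open Pool.Agent.MP_20d318_ag.CH (Lv OkA sX)

namespace Nxa

variable {k M M' K Λ Λ' κ κ' : Type} {n n' : ℕ} [Field k] [Field M] [Field M'] [Field K]
  [Algebra k M] [Algebra k M'] [Algebra k K] [Fintype κ] [Fintype κ'] {L : Lv k M Λ κ n}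
  {L' : Lv k M' Λ' κ' n'} {ι : M →ₐ[k] K} {ι' : M' →ₐ[k] K} {v : K} {e : ℕ}
  {Z : Set (Subalgebra k K)} {O : Subalgebra k K}

theorem gn_mul {S S' : Set K} {a b : K} (g : Gn S O a) (g' : Gn S' O b) :
    Gn (Set.image2 (· * ·) S S') O (a * b) := by
  refine ⟨?_, ?_⟩
  · rintro _ ⟨x, hx, y, hy, rfl⟩
    rw [mul_div_mul_comm]
    exact O.mul_mem (g.1 x hx) (g'.1 y hy)
  · obtain ⟨x, hx, u⟩ := g.2
    obtain ⟨y, hy, u'⟩ := g'.2
    exact ⟨x * y, ⟨x, hx, y, hy, rfl⟩, by rw [mul_div_mul_comm]; exact u.mul u'⟩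

variable (h : Geo L L' ι ι' v e Z)

include h

theorem of_inl (hO : O ∈ Z) {i : κ} (hm : sC L L' ι ι' i O ∈ mx O) :
    (AA L L' ι ι' v e O)⁻¹ ∈ mx O ∧ sX L ι i O ∈ mx O := by
  refine ⟨by_contra fun hn => hm.2 ((h.rC hO i).2 hn), ?_⟩
  have h1 := mx_mul_right hm (prod_mem fun j (_ : j ∈ Finset.univ) => h.em hO i j)
  have h2 : (∏ j, EE L L' ι ι' i j O) ≠ 0 :=
    Finset.prod_ne_zero_iff.2 fun j _ => (h.gE hO i j).ne
  exact (div_mul_cancel₀ (sX L ι i O) h2) ▸ h1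

theorem not_both (hO : O ∈ Z) {i : κ} {j : κ'} (h1 : sC L L' ι ι' i O ∈ mx O)
    (h2 : sC L' L ι' ι j O ∈ mx O) : False := by
  have a := (of_inl h hO h1).1
  have b := (of_inl h.symm hO h2).1
  rw [AA_symm, inv_inv] at b
  exact b.2 ⟨(h.lqO hO).ne, b.1, a.1⟩

theorem one (hO : O ∈ Z) (i i' : κ ⊕ κ') (h1 : sN L L' ι ι' i O ∈ mx O)
    (h2 : sN L L' ι ι' i' O ∈ mx O) : i = i' := by
  rcases i with i | j <;> rcases i' with i' | j'
  · rw [h.s1 hO i i' (of_inl h hO h1).2 (of_inl h hO h2).2]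
  · exact (not_both h hO h1 h2).elim
  · exact (not_both h hO h2 h1).elim
  · rw [h.symm.s1 hO j j' (of_inl h.symm hO h1).2 (of_inl h.symm hO h2).2]

theorem pl_inl (hp : XPl L L' ι ι' v e Z) {P : Place k K} (hP : plO P ∈ Z) {i : κ}
    (hm : sC L L' ι ι' i (plO P) ∈ mx (plO P)) :
    ∃ Q : Place k M, pr ι L.Y (plO P) = plO Q ∧ pr ι' L'.Y (plO P) = ⊤ ∧
      plO Q ∈ L.Y ∧ L.s i (plO Q) ∈ mx (plO Q) := by
  obtain ⟨h1, h2⟩ := of_inl h hP hm
  have hR := h.maps.mem hP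
  have h3 := (h.s_mx hP i).1 h2
  have nt : pr ι L.Y (plO P) ≠ ⊤ := fun h4 => by
    have h5 := (h.ok.cs i).ne hR
    rw [h4] at h3 h5
    exact h5 (mem_mx_top.1 h3)
  rcases hp.pl P hP with ⟨i', j, a, b⟩ | h4 | ⟨Q, h4, h5⟩ | ⟨Q, h4, -⟩
  · exact (h1.2 (hp.eA P i' j hP a b).inv).elim
  · exact (nt h4.1).elim
  · exact ⟨Q, h4, h5, h4 ▸ hR, h4 ▸ h3⟩
  · exact (nt h4).elim

theorem uniq (hp : XPl L L' ι ι' v e Z) (i : κ) (P P' : Place k K) (hP : plO P ∈ Z)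
    (hP' : plO P' ∈ Z) (h1 : sC L L' ι ι' i (plO P) ∈ mx (plO P))
    (h2 : sC L L' ι ι' i (plO P') ∈ mx (plO P')) : P = P' := by
  obtain ⟨Q, a1, a2, a3, a4⟩ := pl_inl h hp hP h1
  obtain ⟨Q', b1, b2, b3, b4⟩ := pl_inl h hp hP' h2
  obtain rfl := h.ok.uniq i Q Q' a3 b3 a4 b4
  exact hp.uV P P' Q hP hP' a1 a2 b1 b2

theorem prod_s (hO : O ∈ Z) : ∏ i, sX L ι i O = ι L.φ * ι (L.jj (pr ι L.Y O)) ^ 2 := by
  rw [Geo.prod_sX, ← h.ok.eqn _ (h.maps.mem hO), map_mul, map_pow]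

theorem eqn (hO : O ∈ Z) : ι L.φ * ι' L'.φ *
    (up ι L.Y L.jj O * up ι' L'.Y L'.jj O / ∏ i, ∏ j, EE L L' ι ι' i j O) ^ 2 =
      ∏ i, sN L L' ι ι' i O := by
  rw [Fintype.prod_sum_type]
  simp only [sN, sC, Sum.elim_inl, Sum.elim_inr, Finset.prod_div_distrib, EE_symm L L' ι ι']
  rw [prod_s h hO, prod_s h.symm hO, Finset.prod_comm (f := fun j i => EE L L' ι ι' i j O)]
  unfold up
  ring

theorem gen1 (hO : O ∈ Z) : Gn (Set.image2 (fun a b => ι (a * b)) L.U L.U') O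
    (ι (gn L.U (pr ι L.Y O) * (gn L.U (pr ι L.Y O) / L.jj (pr ι L.Y O)))) := by
  have hR := h.maps.mem hO
  have := (gn_mul (h.ok.gU _ hR) (h.ok.gU' _ hR)).up ι (h.maps.dom hO).1
  rwa [Set.image_image2] at this

theorem nz : ∀ a ∈ Set.image2 (fun a b => ι (a * b)) L.U L.U', a ≠ 0 := by
  rintro _ ⟨u, hu, w, hw, rfl⟩
  exact (map_ne_zero ι).2 (mul_ne_zero (h.ok.nU u hu) (h.ok.nU' w hw))

end Nxa

open Nxa in
theorem nxa_stmt : NxaStmt := by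
  intro k M M' K Λ Λ' κ κ' n n' _ _ _ _ _ _ _ _ _ _ _ L L' ι ι' v e h hg hp hp' he
  subst he
  have hw : v * ι L.φ = ι' L'.φ := by simpa using h.ext.eq
  have hφ : ι L.φ ≠ 0 := (map_ne_zero ι).2 h.ext.ne
  have hφ' : ι' L'.φ ≠ 0 := (map_ne_zero ι').2 h.ext.ne'
  have fS : (SI L L' ι ι' v 1).Finite := hg.1.fin (Sum.inr (Sum.inr ()))
  have nS : ∀ a ∈ SI L L' ι ι' v 1, a ≠ 0 := hg.1.nz (Sum.inr (Sum.inr ()))
  have gU : ∀ O ∈ XX L L' ι ι' v 1, Gn (nx L L' ι ι' v 1).U O _ := fun O hO =>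
    gn_mul (gen1 h hO) (gen1 h.symm hO)
  refine ⟨h.ok.ne.map Sum.inl, hg.1, mul_ne_zero hφ hφ', h.cartN, ?_,
    fun O hO => eqn h hO, ?_, fun O hO => one h hO, ?_,
    (h.ok.fU.image2 _ h.ok.fU').image2 _ (h.ok'.fU.image2 _ h.ok'.fU'), fS.image _, ?_, ?_,
    fun O hO => gn_spec (gU O hO).prin, fun O hO => ?_⟩
  · have h1 := ((h.cartU h.ok.cj).mul (h.symm.cartU h.ok'.cj)).div
      (isCart_prod (s := Finset.univ) fun i _ => isCart_prod (s := Finset.univ) fun j _ =>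
        h.cartE i j)
    have h2 : (nx L L' ι ι' v 1).jj =
        up ι L.Y L.jj * up ι' L'.Y L'.jj / ∏ i, ∏ j, EE L L' ι ι' i j := by
      funext O
      simp only [nx, Pi.div_apply, Pi.mul_apply, Finset.prod_apply]
    exact h2 ▸ h1
  · rintro O hO (i | j)
    exacts [(h.rC hO i).1, (h.symm.rC hO j).1]
  · rintro (i | j)
    exacts [uniq h hp i, uniq h.symm hp' j]
  · rintro _ ⟨a, ha, b, hb, rfl⟩
    exact mul_ne_zero (nz h a ha) (nz h.symm b hb)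
  · rintro _ ⟨a, ha, rfl⟩
    exact mul_ne_zero hφ (nS a ha)
  · have hR := h.maps.mem hO
    have hR' := h.maps'.mem hO
    have u1 := (gn_spec (gU O hO).prin).unit (gU O hO)
    have n1 : ι (gn L.U (pr ι L.Y O)) ≠ 0 := (map_ne_zero ι).2 (h.ok.gU _ hR).ne
    have n2 : ι (L.jj (pr ι L.Y O)) ≠ 0 := (map_ne_zero ι).2 (h.ok.cj.ne hR)
    have n1' : ι' (gn L'.U (pr ι' L'.Y O)) ≠ 0 := (map_ne_zero ι').2 (h.ok'.gU _ hR').ne
    have n2' : ι' (L'.jj (pr ι' L'.Y O)) ≠ 0 := (map_ne_zero ι').2 (h.ok'.cj.ne hR')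
    have n4 : (∏ i, ∏ j, EE L L' ι ι' i j O) ≠ 0 :=
      Finset.prod_ne_zero_iff.2 fun i _ => Finset.prod_ne_zero_iff.2 fun j _ => (h.gE hO i j).ne
    have n5 := h.ext.vne
    rcases h.aa O hO with ha | ha
    · refine (((hg.2 O hO).1 ha).smul hφ).of_unit ?_
      have u2 := u1.div (h.pC hO ha)
      rw [prod_s h hO] at u2
      refine Eq.subst (motive := IsU O) ?_ u2
      generalize gn (nx L L' ι ι' v 1).U O = γ
      simp only [nx, NN, up, map_mul, map_div₀, Nat.reduceSub]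
      field_simp
    · refine (((hg.2 O hO).2 ha).smul hφ).of_unit ?_
      have u2 := u1.div (h.pT hO ha)
      rw [prod_s h.symm hO, ← hw] at u2
      refine Eq.subst (motive := IsU O) ?_ u2
      generalize gn (nx L L' ι ι' v 1).U O = γ
      simp only [nx, NN, AA, A0, up, map_mul, map_div₀, Nat.reduceSub]
      field_simp

end Pool.Agent.MP_20d318_ag.KK

end PartNxa

section PartNxb

/-! The volume form and the coordinates of the next level. -/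

set_option autoImplicit false
set_option linter.unusedSectionVars false

namespace Pool.Agent.MP_20d318_ag.KK

open Pool.Agent.MP_fd6584_ag.Fn Pool.Agent.CBk
open Pool.Agent.MP_fd6584_ag.AG hiding deg_inv deg_congr deg_of_unit deg_mul deg_prod deg_zpow
  deg_eq_zero deg_nonneg deg_div deg_pow
open Pool.Agent.MP_20d318_ag.CH (Lv Vol Gens dt wt sX Der)

namespace NxbR

variable {k M M' K Λ Λ' κ κ' : Type} {n n' : ℕ} [Field k] [Field M] [Field M'] [Field K]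
  [Algebra k M] [Algebra k M'] [Algebra k K] [Fintype κ] [Fintype κ'] {L : Lv k M Λ κ n}
  {L' : Lv k M' Λ' κ' n'} {ι : M →ₐ[k] K} {ι' : M' →ₐ[k] K} {v : K} {e : ℕ}
  {Z : Set (Subalgebra k K)}

theorem yy_eq : yy L L' ι ι' =
    Sum.elim (fun i => ι (L.y i)) (fun i => ι' (L'.y i)) ∘ finSumFinEquiv.symm := by
  funext i
  change Fin.append (m := n + 2) (n := n' + 2) _ _ i = _
  induction i using Fin.addCases (m := n + 2) (n := n' + 2) <;> simp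

theorem range_yy : Set.range (yy L L' ι ι') = ι '' Set.range L.y ∪ ι' '' Set.range L'.y := by
  rw [yy_eq, (finSumFinEquiv (m := n + 2) (n := n' + 2)).symm.surjective.range_comp,
    Set.Sum.elim_range, ← Set.range_comp, ← Set.range_comp]
  rfl

theorem ind (h : Geo L L' ι ι' v e Z) : AlgebraicIndependent k (yy L L' ι ι') := by
  rw [yy_eq]
  exact (h.fld.ind _ _ _ _ h.ok.ind h.ok'.ind).comp _
    (finSumFinEquiv (m := n + 2) (n := n' + 2)).symm.injective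

theorem top (h : Geo L L' ι ι' v e Z) (q : e = 1) :
    IntermediateField.adjoin k (Set.range (yy L L' ι ι')) = ⊤ := by
  rw [range_yy]
  exact h.fld.top q _ _ h.ok.top h.ok'.top

theorem sep (h : Geo L L' ι ι' v e Z) :
    Algebra.IsSeparable (IntermediateField.adjoin k (Set.range (yy L L' ι ι'))) K := by
  rw [range_yy]
  exact h.fld.sep _ _ h.ok.top h.ok'.top

theorem prod_sN (O : Subalgebra k K) : ∏ i, sN L L' ι ι' i O =
    (∏ i, sX L ι i O) / (∏ i, ∏ j, EE L L' ι ι' i j O) *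
      ((∏ j, sX L' ι' j O) / ∏ i, ∏ j, EE L L' ι ι' i j O) := by
  rw [Fintype.prod_sum_type]
  simp only [sN, sC, Sum.elim_inl, Sum.elim_inr, Finset.prod_div_distrib, EE_symm L L' ι ι']
  rw [Finset.prod_comm (s := (Finset.univ : Finset κ'))]

theorem eqn (h : Geo L L' ι ι' v e Z) {O : Subalgebra k K} (hO : O ∈ Z) :
    AA L L' ι ι' v e O ^ e * ∏ i, sX L ι i O = ∏ j, sX L' ι' j O := by
  rw [Geo.prod_sX, Geo.prod_sX]
  exact (h.lqO hO).eq

theorem wt_unit (h : Geo L L' ι ι' v 1 Z) {O : Subalgebra k K} (hO : O ∈ Z) :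
    IsU O (wt 1 O (AA L L' ι ι' v 1 O) (∏ i, sX L ι i O) / ∏ i, ∏ j, EE L L' ι ι' i j O) := by
  unfold wt
  split_ifs with q
  · rw [Nat.sub_self, pow_zero, one_mul]
    exact h.pC hO q
  · have e := eqn h hO
    rw [pow_one] at e
    rw [e]
    exact h.pT hO ((h.aa O hO).resolve_left q)

theorem one (hD : Der) (h : Geo L L' ι ι' v 1 Z) (hv : XVol L L' ι ι' v 1 Z) :
    (∀ O ∈ Z, Crd O (∏ i, sN L L' ι ι' i O)) ∧ ∃ j, j ≠ 0 ∧
      Vol Z (yy L L' ι ι') fun O => j / (nx L L' ι ι' v 1).jj O := by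
  obtain ⟨j, j', hj, hj', hv⟩ := hv
  refine ⟨fun O hO => ?_, ι j * ι' j', mul_ne_zero ((map_ne_zero ι).2 hj) ((map_ne_zero ι').2 hj'),
    fun δ hδ O hO => ?_⟩
  · obtain ⟨δ, hδ⟩ := hD.ex k K _ (yy L L' ι ι') (ind h) (top h rfl)
    obtain ⟨c, h1, h2, h3⟩ := hv δ hδ O hO
    have h4 : ∀ t, t = AA L L' ι ι' v 1 O ∨ t = (AA L L' ι ι' v 1 O)⁻¹ → Crd O t :=
      fun t ht hm => by
        obtain ⟨i, rfl⟩ := h3 t hm ht
        exact hD.dual k K _ O δ c h1 (right_ne_zero_of_mul h2.ne) i hm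
    have e := eqn h hO
    have h0 := (h.lqO hO).ne
    rw [pow_one] at e
    rw [prod_sN]
    rcases h.aa O hO with q | q
    · have h5 := (h4 _ (.inl rfl)).of_unit (h.gX.loc O hO) q ((h.pC hO q).pow 2)
      rw [← e]
      refine Eq.subst (motive := Crd O) ?_ h5
      ring
    · have h5 := (h4 _ (.inr rfl)).of_unit (h.gX.loc O hO) q ((h.pT hO q).pow 2)
      rw [← e] at h5 ⊢
      refine Eq.subst (motive := Crd O) ?_ h5
      field_simp
  · obtain ⟨c, h1, h2, -⟩ := hv δ hδ O hO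
    have h3 := wt_unit h hO
    refine ⟨c, h1, Eq.subst (motive := IsU O) ?_ (h2.div h3)⟩
    obtain ⟨h4, h5⟩ := div_ne_zero_iff.1 h3.ne
    obtain ⟨h6, h7⟩ := mul_ne_zero_iff.1 (div_ne_zero_iff.1 (left_ne_zero_of_mul h2.ne)).2
    change _ = ι j * ι' j' / (up ι L.Y L.jj O * up ι' L'.Y L'.jj O /
      ∏ i, ∏ j, EE L L' ι ι' i j O) * dt δ c
    field_simp

theorem two (h : Geo L L' ι ι' v 2 Z) (hv : XVol L L' ι ι' v 2 Z) :
    ∃ j, j ≠ 0 ∧ Vol Z (yy L L' ι ι') fun _ => j := by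
  obtain ⟨j, j', hj, hj', hv⟩ := hv
  refine ⟨ι j * ι' j' * (v * ι L.φ), mul_ne_zero (mul_ne_zero ((map_ne_zero ι).2 hj)
    ((map_ne_zero ι').2 hj')) (mul_ne_zero h.ext.vne ((map_ne_zero ι).2 h.ext.ne)),
    fun δ hδ O hO => ?_⟩
  obtain ⟨c, h1, h2, -⟩ := hv δ hδ O hO
  refine ⟨c, h1, Eq.subst (motive := IsU O) (congrArg (· * dt δ c) ?_) h2⟩
  have e1 : wt 2 O (AA L L' ι ι' v 2 O) (∏ i, sX L ι i O) =
      AA L L' ι ι' v 2 O * ∏ i, sX L ι i O := by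
    unfold wt
    split_ifs
    · rw [pow_one]
    · rfl
  have e2 : AA L L' ι ι' v 2 O =
    v * (ι' (L'.jj (pr ι' L'.Y O)) / ι (L.jj (pr ι L.Y O))) ^ 1 := rfl
  have e3 : up ι L.Y L.jj O = ι (L.jj (pr ι L.Y O)) := rfl
  have e4 : up ι' L'.Y L'.jj O = ι' (L'.jj (pr ι' L'.Y O)) := rfl
  obtain ⟨h6, h7⟩ := mul_ne_zero_iff.1 (div_ne_zero_iff.1 (left_ne_zero_of_mul h2.ne)).2
  rw [e3] at h6
  rw [e4] at h7
  rw [e1, Geo.prod_sX, ← h.ok.eqn _ (h.maps.mem hO), e3, e4, e2, map_mul, map_pow]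
  field_simp

end NxbR

theorem nxb_stmt : NxbStmt := fun hD _ _ _ _ _ _ _ _ _ _ _ _ _ _ _ _ _ _ _ _ _ _ _ _ _ _ _ h =>
  ⟨⟨NxbR.ind h, NxbR.sep h, NxbR.top h⟩, fun hv =>
    ⟨by rintro rfl; exact NxbR.one hD h hv, by rintro rfl; exact NxbR.two h hv⟩⟩

end Pool.Agent.MP_20d318_ag.KK

end PartNxb
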