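import Pool.Agent.MP_20d318_ag.KK.Spec
import Pool.Agent.MP_20d318_ag.CH.Asm

/-! The induction on the number of surfaces. -/

set_option autoImplicit false
set_option linter.unusedSectionVars false

namespace Pool.Agent.MP_20d318_ag.KK

open Pool.Agent.MP_fd6584_ag.Fn Pool.Agent.CBk
open Pool.Agent.MP_fd6584_ag.AG hiding deg_inv deg_congr deg_of_unit deg_mul deg_prod deg_zpow
  deg_eq_zero deg_nonneg deg_div deg_pow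
open Pool.Agent.MP_20d318_ag.CH (Lv OkA Ok0 Ok MW cb Vol Tw TH Lev CV WW bas_nd cone_of)

/-- All the rows. -/
structure Mods : Prop where
  c : CH.Mods
  n : NMods.{1, 1}
  nsq : NsqStmt
  mws : MwsStmt
  fld : FldStmt
  homa : HomaStmt
  homb : HombStmt
  kq : KqStmt
  vq : VqStmt
  smo : SmoStmt
  dimq : DimqStmt
  ufd : UfdStmt
  ga : GaStmt
  hz1 : Hz1Stmt
  crq : CrqStmt
  tq : TqStmt
  xloc : XlocStmt
  cura : CuraStmt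
  curb : CurbStmt
  pt : PtStmt
  test : TestStmt
  pl : PlStmt
  cls : ClsStmt
  sig : SigStmt
  pol : PolStmt
  eff : EffStmt
  vol : VolStmt
  lft : LftStmt
  cln : ClnStmt
  dv : DvStmt
  nxa : NxaStmt
  nxb : NxbStmt

variable {k M M' K Λ Λ' κ κ' : Type} {n n' : ℕ} [Field k] [NeZero (2 : k)] [IsAlgClosed k] [Field M]
  [Field M'] [Field K] [Algebra k M] [Algebra k M'] [Algebra k K] [Finite Λ] [Finite Λ'] [Fintype κ]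
  [Fintype κ'] {L : Lv k M Λ κ n} {L' : Lv k M' Λ' κ' n'} {ι : M →ₐ[k] K} {ι' : M' →ₐ[k] K} {v : K}
  {e : ℕ} {Z : Set (Subalgebra k K)}

theorem not_sq {φ : M} (h0 : φ ≠ 0) (h : ∀ l : k, l ≠ 0 → l ≠ 1 → MW φ l) : ¬ IsSquare φ := by
  classical
  rintro ⟨r, rfl⟩
  obtain ⟨l, hl⟩ := Infinite.exists_notMem_finset ({0, 1} : Finset k)
  obtain ⟨a, ha⟩ := Infinite.exists_notMem_finset ({0, 1, l} : Finset k)
  simp only [Finset.mem_insert, Finset.mem_singleton, not_or] at hl ha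
  obtain ⟨c, hc⟩ := IsAlgClosed.exists_eq_mul_self (a * (a - 1) * (a - l))
  have c0 : c ≠ 0 := fun q => mul_ne_zero (mul_ne_zero ha.1 (sub_ne_zero.2 ha.2.1))
    (sub_ne_zero.2 ha.2.2) (by rw [hc, q, mul_zero])
  refine mul_ne_zero (left_ne_zero_of_mul h0) ((map_ne_zero (algebraMap k M)).2 c0)
    (h l hl.1 hl.2 (algebraMap k M a) _ ?_)
  have := congrArg (algebraMap k M) hc
  simp only [map_mul, map_sub, map_one] at this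
  rw [cb, this]
  ring

theorem Mods.geo (m : Mods) (h : Ok L) (h' : Ok L') (he : e = 1 ∨ e = 2) :
    ∃ (K : Type) (_ : Field K) (_ : Algebra k K) (ι : M →ₐ[k] K) (ι' : M' →ₐ[k] K) (v : K),
      Geo L L' ι ι' v e (XX L L' ι ι' v e) ∧ GS L L' ι ι' v e := by
  obtain ⟨K, _, _, ι, ι', v, x⟩ := m.homa m.nsq k M M' L.φ L'.φ e he (not_sq h.φne h.mw)
    (not_sq h'.φne h'.mw)
  obtain ⟨a, b⟩ := m.xloc k M M' K Λ Λ' κ κ' n n' L L' ι ι' v e h.toOkA h'.toOkA x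
  exact ⟨K, _, _, ι, ι', v, ⟨a, h, h', x, m.fld m.nsq k M M' K ι ι' _ _ v e x,
    m.fld m.nsq k M' M K ι' ι _ _ _ e x.symm⟩, b⟩

omit [Finite Λ] [Finite Λ']

theorem Mods.sm (m : Mods) (h : Geo L L' ι ι' v e Z) : ∀ O ∈ Z, Algebra.FormallySmooth k O := by
  intro O hO
  have a := h.maps.mem hO
  have b := h.maps'.mem hO
  rcases h.aa O hO with q | q
  · exact m.smo m.c.hyp m.kq k M M' K ι ι' e _ _ _ _ _ O (h.lqO hO) (h.ov hO)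
      (h.pts O hO _ q (Or.inl rfl)) (h.ok.smo _ a) (h.ok'.smo _ b) (h.ok'.crd _ b)
  · exact m.smo m.c.hyp m.kq k M' M K ι' ι e _ _ _ _ _ O (h.lqO hO).symm (h.ov hO).symm
      (by rw [Bq_comm]; exact h.pts O hO _ q (Or.inr rfl)) (h.ok'.smo _ b) (h.ok.smo _ a)
      (h.ok.crd _ a)

theorem Mods.xpl (m : Mods) (h : Geo L L' ι ι' v e Z) : XPl L L' ι ι' v e Z :=
  m.pl (m.vq m.nsq m.kq) m.dimq _ _ _ _ _ _ _ _ _ _ L L' ι ι' v e Z h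

theorem Mods.xpt (m : Mods) (h : Geo L L' ι ι' v e Z) : XPt L L' ι ι' v e Z :=
  m.pt (m.vq m.nsq m.kq) m.dimq _ _ _ _ _ _ _ _ _ _ L L' ι ι' v e Z h

theorem Mods.xsig (m : Mods) (h : Geo L L' ι ι' v e Z) : XSig L L' ι ι' v e Z :=
  m.sig m.homb _ _ _ _ _ _ _ _ _ _ L L' ι ι' v e Z h

theorem Mods.uf (m : Mods) (h : Geo L L' ι ι' v e Z) :
    UniqueFactorizationMonoid (Bq ι ι' ⊤ ⊤ ∅) :=
  m.ufd k M M' K ι ι' h.ext.dj _ L'.y h.ok'.ind h.ok'.top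

theorem Mods.xeff (m : Mods) (h : Geo L L' ι ι' v e Z) : XEff L L' ι ι' Z :=
  m.eff _ _ _ _ _ _ _ _ _ _ L L' ι ι' v e Z h (m.xsig h)
    (m.pol m.ga _ _ _ _ _ _ _ _ _ _ L L' ι ι' v e Z h (m.uf h))

theorem Mods.step (m : Mods) (h : Geo L L' ι ι' v e (XX L L' ι ι' v e)) (a : Lw L.nd)
    (b : Lw L'.nd) (z : Hz ι ι' v) :
    Lw (nx L L' ι ι' v e).nd ∧ Lev (nx L L' ι ι' v e).nd Set.univ := by
  have c1 := m.cura _ _ _ _ _ _ _ _ _ _ L L' ι ι' v e _ h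
  have c2 := m.cura _ _ _ _ _ _ _ _ _ _ L' L ι' ι _ e _ h.symm
  exact m.n.step ⟨m.test m.c.lift _ _ _ _ _ _ _ _ _ _ L L' ι ι' v e _ h c1 c2 (m.xpt h)
      (m.xpt h.symm), m.dv _ _ _ _ _ _ _ _ _ _ L L' ι ι' v e h,
    m.cln _ _ _ _ _ _ _ _ _ _ L L' ι ι' v e h (m.cls _ _ _ _ _ _ _ _ _ _ L L' ι ι' v e _ h (m.xpl h)
      (m.xpl h.symm) z (m.c.nice k K _ h.fine (m.sm h)).1) (m.xeff h) (m.xeff h.symm),
    bas_nd, bas_nd, bas_nd, a, b, m.curb _ _ _ _ _ _ _ _ _ _ L L' ι ι' v e _ h c1 c2,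
    m.lft _ _ _ _ _ _ _ _ _ _ L L' ι ι' v e h (m.xsig h)⟩

theorem Mods.next [Finite Λ] [Finite Λ'] (m : Mods) (h : Geo L L' ι ι' v 1 (XX L L' ι ι' v 1))
    (g : GS L L' ι ι' v 1) : Ok (nx L L' ι ι' v 1) := by
  obtain ⟨⟨a1, -, a2⟩, a3⟩ := m.nxb m.c.der _ _ _ _ _ _ _ _ _ _ L L' ι ι' v 1 h
  have a4 := (a3 (m.vol m.c.der m.crq _ _ _ _ _ _ _ _ _ _ L L' ι ι' v 1 _ h)).1 rfl
  refine m.c.ok ⟨m.nxa _ _ _ _ _ _ _ _ _ _ L L' ι ι' v 1 h g (m.xpl h) (m.xpl h.symm) rfl, a1,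
    a2 rfl, ?_, fun l l0 l1 a b q => m.mws k M M' K ι ι' h.ext.dj (h.fld.rt rfl) L.φ L'.φ
      (algebraMap k M' l) h.ok.mw h.ext.ne' (by simpa using l0) (by simpa using l1) a b
      (by rwa [AlgHom.commutes]), m.sm h, a4.1, a4.2⟩
  rintro (i | j)
  exacts [(m.xpt h.symm).rat i, (m.xpt h).rat j]

variable {M₀ : Type} [Field M₀] [Algebra k M₀]

/-- A surface as a level. -/
def P1 (T : Set (Subalgebra k M₀)) (φ : M₀) : Prop :=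
  ∃ (Λ κ : Type) (_ : Finite Λ) (_ : Fintype κ) (L : Lv k M₀ Λ κ 0) (𝓗 : Set (WW (N1 L.Y) κ)),
    L.Y = T ∧ L.φ = φ ∧ Ok L ∧ Lw L.nd ∧ Lev L.nd 𝓗 ∧ TH L 𝓗

/-- A level over a product of surfaces. -/
def Pq {a : ℕ} (T : Fin a → Set (Subalgebra k M₀)) (φ : Fin a → M₀) : Prop :=
  ∃ (M Λ κ : Type) (n : ℕ) (_ : Field M) (_ : Algebra k M) (_ : Finite Λ) (_ : Fintype κ)
    (L : Lv k M Λ κ n) (𝓗 : Set (WW (N1 L.Y) κ)) (ι : Fin a → M₀ →ₐ[k] M),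
      Ok L ∧ Lw L.nd ∧ Lev L.nd 𝓗 ∧ TH L 𝓗 ∧ Tq T φ L.Y L.φ ∅ ι

theorem Mods.pq (m : Mods) (a : ℕ) (T : Fin (a + 1) → Set (Subalgebra k M₀))
    (φ : Fin (a + 1) → M₀) (h : ∀ i, P1 (T i) (φ i)) : Pq T φ := by
  induction a with
  | zero =>
    obtain ⟨Λ, κ, _, _, L, 𝓗, e1, e2, h1, h2, h3, h4⟩ := h 0
    exact ⟨M₀, Λ, κ, 0, _, _, inferInstance, _, L, 𝓗, _, h1, h2, h3, h4,
      e1 ▸ e2 ▸ m.tq.base k M₀ T φ L.y h1.ind⟩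
  | succ a ih =>
    obtain ⟨M, Λ, κ, n, _, _, _, _, L, 𝓗, ι₀, h1, h2, -, -, h5⟩ :=
      ih (Fin.tail T) (Fin.tail φ) fun i => h i.succ
    obtain ⟨Λ', κ', _, _, L', 𝓗', e1, e2, g1, g2, -, -⟩ := h 0
    obtain ⟨K, _, _, ι, ι', v, x, y⟩ := m.geo h1 g1 (Or.inl rfl)
    obtain ⟨s1, s2⟩ := m.step x h2 g2 (m.hz1 k M M₀ K ι ι' _ _ v x.ext (m.uf x))
    have t := (m.tq.step k M₀ M K _ T φ _ _ _ ι₀ ι ι' v 1 L'.y h5 (e2 ▸ x.ext) x.fld g1.ind x.maps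
      (e1 ▸ x.maps')).1 rfl
    rw [← e2] at t
    exact ⟨K, _, _, _, _, _, inferInstance, _, nx L L' ι ι' v 1, Set.univ, _, m.next x y, s1, s2,
      fun _ _ _ _ _ _ _ _ _ _ _ => trivial, t⟩

/-- The final variety. -/
def Top {a r : ℕ} (T : Fin a → Set (Subalgebra k M₀)) (φ : Fin a → M₀) (l : Fin r → k) : Prop :=
  ∃ (K Λ : Type) (_ : Field K) (_ : Algebra k K) (_ : Finite Λ) (S : Λ → Set K) (n : ℕ)
    (y : Fin (n + 1) → K) (j w : K) (ι : Fin a → M₀ →ₐ[k] K) (ζ : Fin r → K), Fam k S ∧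
      (∀ O ∈ mp k S, Algebra.FormallySmooth k O) ∧ AlgebraicIndependent k y ∧
      Algebra.IsSeparable (IntermediateField.adjoin k (Set.range y)) K ∧ j ≠ 0 ∧
      Vol (mp k S) y (fun _ => j) ∧ Tf T φ l (mp k S) w ι ζ ∧ ConeStatement (mp k S)

theorem Mods.top1 (m : Mods) {a : ℕ} {T : Fin (a + 1) → Set (Subalgebra k M₀)}
    {φ : Fin (a + 1) → M₀} (h : ∀ i, P1 (T i) (φ i)) (r : ℕ) (l : Fin (r + 1) → k)
    (hl : ∀ i, l i ≠ 0 ∧ l i ≠ 1) : Top T φ l := by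
  obtain ⟨M, Λ, κ, n, _, _, _, _, L, 𝓗, ι₀, h1, -, h3, h4, h5⟩ := m.pq a T φ h
  obtain ⟨K, Λ', _, _, _, S, n', y, j, w, ι, ζ, a1, a2, a3, a4, a5, a6, a7, a8⟩ :=
    m.c.top (T := L.Y) (φ := L.φ) (fun l => ⟨M, Λ, κ, n, _, _, inferInstance, _, L, 𝓗, _, _, h1,
      h3, h4, (m.c.tw k M _ _).1 l⟩) r l hl
  exact ⟨K, Λ', _, _, inferInstance, S, n', y, j, w, _, ζ, a1, a2, a3, a4, a5, a6,
    m.tq.top k M₀ M K _ _ T φ l _ _ _ ι₀ ι ζ w h5 a7, a8⟩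

/-- The prime divisors of every double cover with the last factor `φ'` are under control. -/
def HZ (k : Type) {M' : Type} [Field k] [Field M'] [Algebra k M'] (φ' : M') : Prop :=
  ∀ (M K : Type) [Field M] [Field K] [Algebra k M] [Algebra k K] (φ : M) (ι : M →ₐ[k] K)
    (ι' : M' →ₐ[k] K) (v : K), Ext φ φ' ι ι' v 2 → Fld ι ι' v 2 →
    (∀ l : k, l ≠ 0 → l ≠ 1 → MW φ l) → UniqueFactorizationMonoid (Bq ι ι' ⊤ ⊤ ∅) → Hz ι ι' v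

theorem Mods.top0 (m : Mods) {a : ℕ} {T : Fin (a + 2) → Set (Subalgebra k M₀)}
    {φ : Fin (a + 2) → M₀} (h : ∀ i, P1 (T i) (φ i)) (hz : HZ k (φ 0)) (l : Fin 0 → k) :
    Top T φ l := by
  obtain ⟨M, Λ, κ, n, _, _, _, _, L, 𝓗, ι₀, h1, h2, -, -, h5⟩ :=
    m.pq a (Fin.tail T) (Fin.tail φ) fun i => h i.succ
  obtain ⟨Λ', κ', _, _, L', 𝓗', e1, e2, g1, g2, -, -⟩ := h 0
  obtain ⟨K, _, _, ι, ι', v, x, y⟩ := m.geo h1 g1 (Or.inr rfl)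
  obtain ⟨s1, -⟩ := m.step x h2 g2 (hz M K _ ι ι' v (e2 ▸ x.ext) x.fld h1.mw (m.uf x))
  obtain ⟨⟨a1, a2, -⟩, a3⟩ := m.nxb m.c.der _ _ _ _ _ _ _ _ _ _ L L' ι ι' v 2 x
  obtain ⟨j, j0, hj⟩ := (a3 (m.vol m.c.der m.crq _ _ _ _ _ _ _ _ _ _ L L' ι ι' v 2 _ x)).2 rfl
  exact ⟨K, _, _, _, inferInstance, famX L L' ι ι' v 2, n + 2 + 0 + 1, yy L L' ι ι', j, _, _, _,
    y.1, m.sm x, a1, a2, j0, hj, (m.tq.step k M₀ M K _ T φ _ _ _ ι₀ ι ι' v 2 L'.y h5 (e2 ▸ x.ext)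
      x.fld g1.ind x.maps (e1 ▸ x.maps')).2 rfl l, cone_of s1.cv s1.spn s1.fd⟩

end Pool.Agent.MP_20d318_ag.KK
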