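import Pool.Agent.MP_20d318_ag.KK.Spec
import Pool.Agent.MP_20d318_ag.CH.Cln

/-! Integral and effective classes on the blow-up of a product. -/

set_option autoImplicit false
set_option linter.unusedSectionVars false

namespace Pool.Agent.MP_20d318_ag.KK

open Pool.Agent.MP_fd6584_ag.Fn Pool.Agent.CBk Polynomial
open Pool.Agent.MP_fd6584_ag.AG hiding deg_inv deg_congr deg_of_unit deg_mul deg_prod deg_zpow
  deg_eq_zero deg_nonneg deg_div deg_pow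
open Pool.Agent.MVg (Sc Fac)
open Pool.Agent.MP_20d318_ag.CH (Lv cl IZ cl_mem n1_eq)
open Pool.Agent.MP_20d318_ag.CH.Cln (cl_pow cl_ef)

namespace Cln

variable {k M M' K Λ Λ' κ κ' : Type} {n n' : ℕ} [Field k] [IsAlgClosed k] [Field M] [Field M']
  [Field K] [Algebra k M] [Algebra k M'] [Algebra k K] [Fintype κ] [Fintype κ']
  {L : Lv k M Λ κ n} {L' : Lv k M' Λ' κ' n'} {ι : M →ₐ[k] K} {ι' : M' →ₐ[k] K} {v : K} {e : ℕ}
  {Z : Set (Subalgebra k K)}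

theorem gen (h : Geo L L' ι ι' v e Z) (hc : XCls L L' ι ι' Z) {f : Subalgebra k K → K}
    (hf : IsCart Z f) : ∃ (N : ℕ) (g : Subalgebra k M → M) (g' : Subalgebra k M' → M')
      (a : κ → κ' → ℤ) (μ : K), 0 < N ∧ IsCart L.Y g ∧ IsCart L'.Y g' ∧ μ ≠ 0 ∧
      (∀ O ∈ Z, IsU O (f O ^ N / (μ * lb L L' ι ι' g g' a O))) ∧
      (N : ℝ) • cl _ f = h.Phi (cl _ g, cl _ g', fun i j => a i j) := by
  obtain ⟨N, g, g', a, μ, h1, h2, h2', h3, h4⟩ := hc f hf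
  exact ⟨N, g, g', a, μ, h1, h2, h2', h3, h4,
    (cl_pow h.gX hf (h.cartW h2 h2' a) N h3 h4).trans (h.phi_lb h2 h2' a).symm⟩

theorem cls (h : Geo L L' ι ι' v e Z) (hc : XCls L L' ι ι' Z) (x : N1 Z)
    (hx : x ∈ AddSubgroup.closure (Set.range Cartier.n1)) :
    ∃ N : ℕ, 0 < N ∧ ∃ D ∈ LW L.nd L'.nd, (N : ℝ) • x = h.Phi D := by
  induction hx using AddSubgroup.closure_induction with
  | mem x hx =>
    obtain ⟨D, rfl⟩ := hx
    obtain ⟨N, g, g', a, μ, h1, h2, h2', -, -, h5⟩ := gen h hc D.isCart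
    exact ⟨N, h1, (cl _ g, cl _ g', fun i j => a i j),
      (mem_LW _ _).2 ⟨cl_mem h2, cl_mem h2', fun i j => ⟨a i j, rfl⟩⟩, by rw [n1_eq, h5]⟩
  | zero => exact ⟨1, one_pos, 0, zero_mem _, by rw [smul_zero, map_zero]⟩
  | add x y _ _ hx hy =>
    obtain ⟨N, h1, D, h2, h3⟩ := hx
    obtain ⟨N', h1', D', h2', h3'⟩ := hy
    refine ⟨N * N', Nat.mul_pos h1 h1', (N' : ℝ) • D + (N : ℝ) • D',
      add_mem ((IZ.nat N').smul_mem h2) ((IZ.nat N).smul_mem h2'), ?_⟩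
    rw [map_add, map_smul, map_smul, ← h3, ← h3', smul_smul, smul_smul, smul_add, Nat.cast_mul,
      mul_comm (N' : ℝ)]
  | neg x _ hx =>
    obtain ⟨N, h1, D, h2, h3⟩ := hx
    exact ⟨N, h1, -D, neg_mem h2, by rw [smul_neg, map_neg, h3]⟩

theorem dn (h : Geo L L' ι ι' v e Z) (hc : XCls L L' ι ι' Z) (he : XEff L L' ι ι' Z)
    (he' : XEff L' L ι' ι Z) :
    Glue.Ef Z ⊆ h.Phi '' ((LinearMap.fst ℝ _ _ ⁻¹' Glue.Ef L.Y) ∩
      ((LinearMap.fst ℝ _ _).comp (LinearMap.snd ℝ _ _) ⁻¹' Glue.Ef L'.Y)) := by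
  refine ((((Lat.isCone_cone _).preimage _).inter
    ((Lat.isCone_cone _).preimage _)).image _).cone_subset ?_
  rintro _ ⟨D, hD, rfl⟩
  obtain ⟨N, g, g', a, μ, h1, h2, h2', h3, h4, h5⟩ := gen h hc D.isCart
  have hs : Sc Z (lb L L' ι ι' g g' a) μ := fun O hO => by
    have h6 := (h4 O hO).div_mem (O.pow_mem (hD O hO) N)
    rwa [div_div_cancel₀ (div_ne_zero_iff.1 (h4 O hO).1).1] at h6
  obtain ⟨m, hm, h7⟩ := he g g' a h2 h2' μ h3 hs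
  obtain ⟨m', hm', h7'⟩ := he' g' g (fun j i => a i j) h2' h2 μ h3 (by rw [lb_symm]; exact hs)
  have hN : (N : ℝ) ≠ 0 := Nat.cast_ne_zero.2 h1.ne'
  refine ⟨(N : ℝ)⁻¹ • ((cl _ g, cl _ g', fun i j => a i j) : WP (N1 L.Y) (N1 L'.Y) κ κ'),
    ⟨?_, ?_⟩, ?_⟩
  · exact (Lat.isCone_cone _).smul _ (inv_nonneg.2 (Nat.cast_nonneg N)) _ (cl_ef h.gY h2 hm h7)
  · exact (Lat.isCone_cone _).smul _ (inv_nonneg.2 (Nat.cast_nonneg N)) _ (cl_ef h.gY' h2' hm' h7')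
  · rw [map_smul, ← h5, smul_smul, inv_mul_cancel₀ hN, one_smul, n1_eq]

end Cln

/-- CLN. -/
theorem cln_stmt : ClnStmt := by
  intro k M M' K Λ Λ' κ κ' n n' _ _ _ _ _ _ _ _ _ _ _ L L' ι ι' v e h hc he he'
  refine ⟨Cln.cls h hc, fun _ hx => ?_⟩
  obtain ⟨D, h1, h2⟩ := Cln.dn h hc he he' hx
  exact ⟨D, h2, h1.1, h1.2⟩

end Pool.Agent.MP_20d318_ag.KK
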