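import Pool.Agent.MP_20d318_ag.KK.Spec

/-! CLS: the divisor class group of the blow-up of the product. -/

set_option autoImplicit false
set_option linter.unusedSectionVars false

namespace Pool.Agent.MP_20d318_ag.KK

open Pool.Agent.MP_fd6584_ag.Fn Pool.Agent.CBk
open Pool.Agent.MP_fd6584_ag.AG hiding deg_inv deg_congr deg_of_unit deg_mul deg_prod deg_zpow
  deg_eq_zero deg_nonneg deg_div deg_pow
open Pool.Agent.MP_20d318_ag.CH (Lv sX)
open Pool.Agent.MP_20d318_ag.CB.P.XCls (mx_of_ord ord_ne)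

namespace ClsA

variable {k M M' K Λ Λ' κ κ' : Type} {n n' : ℕ} [Field k] [Field M] [Field M'] [Field K]
  [Algebra k M] [Algebra k M'] [Algebra k K] [Fintype κ] [Fintype κ'] {L : Lv k M Λ κ n}
  {L' : Lv k M' Λ' κ' n'} {ι : M →ₐ[k] K} {ι' : M' →ₐ[k] K} {v : K} {e : ℕ}
  {Z : Set (Subalgebra k K)}

open Classical in
theorem lb_E (i : κ) (j : κ') (O : Subalgebra k K) :
    lb L L' ι ι' 1 1 (fun i' j' => if i' = i ∧ j' = j then -1 else 0) O = EE L L' ι ι' i j O := by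
  have h : ∀ i' j', EE L L' ι ι' i' j' O ^ (-(if i' = i ∧ j' = j then -1 else 0 : ℤ)) =
      if j' = j then if i' = i then EE L L' ι ι' i' j' O else 1 else 1 := fun i' j' => by
    by_cases a : i' = i <;> by_cases b : j' = j <;> simp [a, b]
  simp only [lb, h]
  simp [up]

theorem lb_add (h : Geo L L' ι ι' v e Z) {O : Subalgebra k K} (hO : O ∈ Z)
    (g₁ g₂ : Subalgebra k M → M) (g₁' g₂' : Subalgebra k M' → M') (a a' : κ → κ' → ℤ) :
    lb L L' ι ι' (g₁ * g₂) (g₁' * g₂') (a + a') O =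
      lb L L' ι ι' g₁ g₁' a O * lb L L' ι ι' g₂ g₂' a' O := by
  simp only [lb, up, Pi.mul_apply, Pi.add_apply, map_mul, neg_add,
    zpow_add₀ ((h.cartE _ _).ne hO), Finset.prod_mul_distrib]
  ring

theorem lb_zpow (O : Subalgebra k K) (g : Subalgebra k M → M) (g' : Subalgebra k M' → M')
    (a : κ → κ' → ℤ) (m : ℤ) :
    lb L L' ι ι' (g ^ m) (g' ^ m) (fun i j => a i j * m) O = lb L L' ι ι' g g' a O ^ m := by
  simp only [lb, up, Pi.pow_apply, map_zpow₀, mul_zpow, ← Finset.prod_zpow, ← zpow_mul, neg_mul]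

/-- A place that dominates both factors lies in the affine chart. -/
theorem gen_pts (h : Geo L L' ι ι' v e Z) {P : Place k K} (hP : plO P ∈ Z)
    (ht : pr ι L.Y (plO P) = ⊤) (ht' : pr ι' L'.Y (plO P) = ⊤) :
    plO P ∈ Pts (Bq ι ι' ⊤ ⊤ {v}) := by
  have hmu : ∀ m, m ≠ 0 → IsU (plO P) (ι m) := fun m h0 =>
    h.maps.isU_up hP (by rw [ht]; exact isU_top.2 h0)
  have hmu' : ∀ m, m ≠ 0 → IsU (plO P) (ι' m) := fun m h0 =>
    h.maps'.isU_up hP (by rw [ht']; exact isU_top.2 h0)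
  have q := h.lqO hP
  have h2 : IsU (plO P) (AA L L' ι ι' v e (plO P) ^ e) := by
    have h3 := (hmu' _ q.nS').div (hmu _ q.nS)
    rwa [← q.eq, mul_div_cancel_right₀ _ (hmu _ q.nS).ne] at h3
  have hA : AA L L' ι ι' v e (plO P) ∈ plO P := by
    rcases h.aa _ hP with a | a
    · exact a
    · have h3 : IsU (plO P) ((AA L L' ι ι' v e (plO P))⁻¹ ^ e) := by
        rw [inv_pow]; exact h2.inv
      simpa using (IsU.of_pow a h.ext.e0 h3).inv_mem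
  have hu := ((hmu' _ (h.ok'.cj.ne (h.maps'.mem hP))).div
    (hmu _ (h.ok.cj.ne (h.maps.mem hP)))).pow (3 - e)
  have hv : v ∈ plO P := by
    have h3 := hu.div_mem hA
    rwa [AA, A0, mul_div_cancel_right₀ _ hu.ne] at h3
  have h4 := h.pts _ hP _ hA (Or.inl rfl)
  have h5 := h.ov hP
  rw [ht, ht'] at h4 h5
  refine Pts_of_le h4 (Algebra.adjoin_le ?_) (h5.le (Set.singleton_subset_iff.2 hv))
  rintro a (⟨b, -, rfl⟩ | ⟨b, -, rfl⟩ | rfl)
  · exact Bq_l trivial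
  · exact Bq_r trivial
  · rw [AA, A0, div_eq_mul_inv, ← map_inv₀]
    exact mul_mem (Bq_g rfl) (pow_mem (mul_mem (Bq_r Algebra.mem_top) (Bq_l Algebra.mem_top)) _)

/-- A place over a place of the first factor. -/
theorem vert (h : Geo L L' ι ι' v e Z) (hP : XPl L L' ι ι' v e Z) {P : Place k K} (hm : plO P ∈ Z)
    {Q : Place k M} (ht : pr ι L.Y (plO P) = plO Q) (ht' : pr ι' L'.Y (plO P) = ⊤) :
    ∃ g, IsCart L.Y g ∧ P.ord (up ι L.Y g (plO P)) ≠ 0 ∧ ∀ P' : Place k K, plO P' ∈ Z → P' ≠ P →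
      P'.ord (up ι L.Y g (plO P')) ≠ 0 →
        ∃ i j, sX L ι i (plO P') ∈ mx (plO P') ∧ sX L' ι' j (plO P') ∈ mx (plO P') := by
  have hm0 : plO Q ∈ L.Y := ht ▸ h.maps.mem hm
  obtain ⟨g, hg, o1, o2⟩ := h.ok.fac Q hm0
  have m1 : g (plO Q) ∈ mx (plO Q) := (mx_plO (hg.ne hm0)).2 (by rw [o1]; norm_num)
  rw [← ht] at m1
  refine ⟨g, hg, ord_ne ((h.cartU hg).ne hm) ((h.maps.mx_up hm m1.1).2 m1),
    fun P' hm' hne ho => ?_⟩
  have n1 := hg.ne (h.maps.mem hm')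
  have h2 : ¬ IsU (pr ι L.Y (plO P')) (g (pr ι L.Y (plO P'))) := fun q =>
    ho ((isU_plO' _).1 (h.maps.isU_up hm' q)).2
  have h3 : pr ι L.Y (plO P') ≠ ⊤ := fun q => h2 (by rw [q] at n1 ⊢; exact isU_top.2 n1)
  rcases hP.pl P' hm' with q | q | ⟨P₁, h4, h5⟩ | ⟨_, q, -⟩
  · exact q
  · exact absurd q.1 h3
  · obtain rfl : P₁ = Q := by_contra fun q => h2 (by
      rw [h4] at n1 ⊢
      exact (isU_plO' _).2 ⟨n1, o2 P₁ (h4 ▸ h.maps.mem hm') q⟩)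
    exact absurd (hP.uV P' P P₁ hm' hm h4 h5 ht ht') hne
  · exact absurd q h3

variable (L L' ι ι') in
open Classical in
/-- The order in which the places are treated. -/
noncomputable def lev (Sp : Place k K → Prop) (P : Place k K) : ℕ :=
  if ∃ i j, sX L ι i (plO P) ∈ mx (plO P) ∧ sX L' ι' j (plO P) ∈ mx (plO P) then 0
  else if pr ι L.Y (plO P) = ⊤ ∧ pr ι' L'.Y (plO P) = ⊤ then if Sp P then 3 else 2 else 1

variable (L L' ι ι' Z) in
/-- Divisors that are linearly equivalent to a divisor of the lattice. -/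
def Gw (f : Subalgebra k K → K) : Prop := IsCart Z f ∧
  ∃ (g : Subalgebra k M → M) (g' : Subalgebra k M' → M') (a : κ → κ' → ℤ) (μ : K),
    IsCart L.Y g ∧ IsCart L'.Y g' ∧ μ ≠ 0 ∧ ∀ O ∈ Z, IsU O (f O / (μ * lb L L' ι ι' g g' a O))

theorem gw_of (h : Geo L L' ι ι' v e Z) {f : Subalgebra k K → K} {g : Subalgebra k M → M}
    {g' : Subalgebra k M' → M'} (hg : IsCart L.Y g) (hg' : IsCart L'.Y g') (a : κ → κ' → ℤ) {μ : K}
    (hμ : μ ≠ 0) (q : ∀ O, f O = μ * lb L L' ι ι' g g' a O) : Gw L L' ι ι' Z f := by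
  obtain rfl : f = (fun _ => μ) * lb L L' ι ι' g g' a := funext q
  refine ⟨(isCart_const hμ).mul (h.cartW hg hg' a), g, g', a, μ, hg, hg', hμ, fun O hO => ?_⟩
  rw [Pi.mul_apply, div_self (mul_ne_zero hμ ((h.cartW hg hg' a).ne hO))]
  exact isU_one

theorem gw_const (h : Geo L L' ι ι' v e Z) {μ : K} (hμ : μ ≠ 0) : Gw L L' ι ι' Z fun _ => μ :=
  gw_of h (g := 1) (g' := 1) (isCart_const one_ne_zero) (isCart_const one_ne_zero) 0 hμ
    fun O => by simp [lb, up]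

theorem gw_mul (h : Geo L L' ι ι' v e Z) (f f' : Subalgebra k K → K) (hf : Gw L L' ι ι' Z f)
    (hf' : Gw L L' ι ι' Z f') : Gw L L' ι ι' Z (f * f') := by
  obtain ⟨hf, g, t, a, μ, c, d, h0, hD⟩ := hf
  obtain ⟨hf', g', t', a', ν, c', d', h1, hE⟩ := hf'
  refine ⟨hf.mul hf', g * g', t * t', a + a', μ * ν, c.mul c', d.mul d', mul_ne_zero h0 h1,
    fun O hO => ?_⟩
  have := (hD O hO).mul (hE O hO)
  rwa [div_mul_div_comm, mul_mul_mul_comm, ← lb_add h hO] at this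

theorem gw_zpow (f : Subalgebra k K → K) (m : ℤ) (hf : Gw L L' ι ι' Z f) :
    Gw L L' ι ι' Z (f ^ m) := by
  obtain ⟨hf, g, t, a, μ, c, d, h0, hD⟩ := hf
  refine ⟨hf.zpow m, g ^ m, t ^ m, fun i j => a i j * m, μ ^ m, c.zpow m, d.zpow m,
    zpow_ne_zero m h0, fun O hO => ?_⟩
  have := (hD O hO).zpow m
  rwa [div_zpow, mul_zpow, ← lb_zpow] at this

theorem step (h : Geo L L' ι ι' v e Z) (hP : XPl L L' ι ι' v e Z) (hP' : XPl L' L ι' ι v⁻¹ e Z)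
    {Sp : Place k K → Prop} (hH : ∀ P : Place k K, plO P ∈ Pts (Bq ι ι' ⊤ ⊤ {v}) →
      ∃ f : K, f ≠ 0 ∧ P.ord f ≠ 0 ∧ ∀ P' : Place k K, plO P' ∈ Pts (Bq ι ι' ⊤ ⊤ {v}) → P' ≠ P →
        P'.ord f ≠ 0 → Sp P ∧ ¬ Sp P') (P : Place k K) (hm : plO P ∈ Z) :
    ∃ g, Gw L L' ι ι' Z g ∧ P.ord (g (plO P)) ≠ 0 ∧ ∀ P' : Place k K,
      plO P' ∈ Z → P' ≠ P → P'.ord (g (plO P')) ≠ 0 → lev L L' ι ι' Sp P' < lev L L' ι ι' Sp P := by
  have c1 : IsCart L.Y 1 := isCart_const one_ne_zero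
  have c2 : IsCart L'.Y 1 := isCart_const one_ne_zero
  by_cases h0 : ∃ i j, sX L ι i (plO P) ∈ mx (plO P) ∧ sX L' ι' j (plO P) ∈ mx (plO P)
  · obtain ⟨i, j, h1, h2⟩ := h0
    refine ⟨EE L L' ι ι' i j, gw_of h c1 c2 _ one_ne_zero fun O => by rw [lb_E i j, one_mul],
      ord_ne ((h.cartE i j).ne hm) (h.emx hm h1 h2), fun P' hm' hne ho => ?_⟩
    have h3 : ¬ IsU (plO P') (EE L L' ι ι' i j (plO P')) := fun h => ho ((isU_plO' _).1 h).2
    exact absurd (hP.uE P' P i j hm' hm ⟨h.sm hm' i, fun q => h3 (h.eu hm' i j (Or.inl q))⟩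
      ⟨h.symm.sm hm' j, fun q => h3 (h.eu hm' i j (Or.inr q))⟩ h1 h2) hne
  have hpos : 0 < lev L L' ι ι' Sp P := by
    rw [lev, if_neg h0]; split_ifs <;> norm_num
  rcases (hP.pl P hm).resolve_left h0 with ht | ⟨Q, ht, ht'⟩ | ⟨Q, ht, ht'⟩
  · obtain ⟨f, f0, hf, H⟩ := hH P (gen_pts h hm ht.1 ht.2)
    refine ⟨fun _ => f, gw_const h f0, hf, fun P' hm' hne ho => ?_⟩
    rw [lev.eq_1 L L' ι ι' Sp P, if_neg h0, if_pos ht, lev]
    by_cases e2 : pr ι L.Y (plO P') = ⊤ ∧ pr ι' L'.Y (plO P') = ⊤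
    · have q := H P' (gen_pts h hm' e2.1 e2.2) hne ho
      rw [if_pos q.1, if_neg q.2]
      split_ifs <;> norm_num
    · rw [if_neg e2]
      split_ifs <;> norm_num
  · obtain ⟨g, hg, o, H⟩ := vert h hP hm ht ht'
    exact ⟨_, gw_of h hg c2 0 one_ne_zero fun O => by simp [lb, up], o,
      fun P' hm' hne ho => by rwa [lev, if_pos (H P' hm' hne ho)]⟩
  · obtain ⟨g, hg, o, H⟩ := vert h.symm hP' hm ht' ht
    refine ⟨_, gw_of h c1 hg 0 one_ne_zero fun O => by simp [lb, up], o, fun P' hm' hne ho => ?_⟩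
    obtain ⟨j, i, a, b⟩ := H P' hm' hne ho
    rwa [lev, if_pos ⟨i, j, b, a⟩]

end ClsA

open ClsA in
theorem cls_stmt : ClsStmt := by
  intro k M M' K Λ Λ' κ κ' n n' _ _ _ _ _ _ _ _ _ _ _ L L' ι ι' v e Z h hP hP' ⟨Sp, hH⟩ hN f hf
  obtain ⟨N, g, h0, hg, hu⟩ := clsGen_stmt k K Z (Gw L L' ι ι' Z) (lev L L' ι ι' Sp) hN
    (fun _ h => h.1) (gw_mul h) gw_zpow (gw_const h one_ne_zero) (step h hP hP' hH) f hf
  obtain ⟨-, g', t, a, μ, c, d, h1, hD⟩ := gw_zpow g N hg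
  refine ⟨N.natAbs ^ 2, g', t, a, μ, pow_pos (Int.natAbs_pos.2 h0) 2, c, d, h1, fun O hO => ?_⟩
  have := ((hu O hO).zpow N).mul (hD O hO)
  rwa [div_zpow, Pi.pow_apply, div_mul_div_cancel₀ (zpow_ne_zero N (hg.1.ne hO)), ← zpow_mul,
    ← Int.natAbs_mul_self, zpow_natCast, ← sq] at this

end Pool.Agent.MP_20d318_ag.KK
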