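import Pool.Agent.MP_20d318_ag.KK.Spec
import Pool.Agent.MP_20d318_ag.CH.Crd

/-! Row CRQ: local coordinates on the blow-up of a product. -/

set_option autoImplicit false
set_option linter.unusedSectionVars false

namespace Pool.Agent.MP_20d318_ag.KK

open Pool.Agent.MP_fd6584_ag.Fn Pool.Agent.CBk Polynomial
open Pool.Agent.MP_fd6584_ag.AG hiding deg_inv deg_congr deg_of_unit deg_mul deg_prod deg_zpow
  deg_eq_zero deg_nonneg deg_div deg_pow
open Pool.Agent.MP_20d318_ag.CH (Gens dt der_span gens_iff)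
open Pool.Agent.MP_20d318_ag.CH.CrdA (smem exch)

theorem crq_stmt : CrqStmt := by
  intro k K _ _ _ _ e N O G A s s' δ c hE hO hc hG hq hS
  obtain ⟨m, rfl⟩ : ∃ m, e = m + 1 := ⟨e - 1, by omega⟩
  have he : IsU O ((m + 1 : ℕ) : K) := by
    rcases hE with h | h <;> rw [h]
    · rw [Nat.cast_one]; exact isU_one
    · have := isU_const (O := O) (NeZero.ne (2 : k))
      rwa [map_ofNat] at this
  have hA : A ∈ O := hO.2.1 (Algebra.subset_adjoin (Or.inr rfl))
  have sp : ∀ T : Submodule O (Fin N → K), (∀ i, δ (c i) ∈ T) →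
      ∀ g ∈ insert s (insert s' G), δ g ∈ T := fun T h1 g hg => by
    obtain ⟨-, r, r1, r2⟩ := hG g hg
    rw [r2]
    exact T.sum_mem fun i _ => smem T (r1 i) (h1 i)
  have GG : ∀ T : Submodule O (Fin N → K), (∀ i, δ (c i) ∈ T) → δ A ∈ T → ∀ a ∈ O, δ a ∈ T :=
    fun T h1 h2 => der_span hO δ T (by
      rintro a (ha | rfl)
      exacts [sp T h1 a (Or.inr (Or.inr ha)), h2])
  have b1 : s ∈ O := (hG s (Or.inl rfl)).1
  have b2 : s' ∈ O := (hG s' (Or.inr (Or.inl rfl))).1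
  have w2 : A ^ m * s ∈ O := O.mul_mem (O.pow_mem hA m) b1
  have d : (((m + 1 : ℕ) : K) * (A ^ m * s)) • δ A = δ s' - A ^ (m + 1) • δ s := by
    rw [← hq, Derivation.leibniz, Derivation.leibniz_pow, Nat.add_sub_cancel,
      ← Nat.cast_smul_eq_nsmul K]
    module
  rw [Nat.add_sub_cancel]
  rcases isU_or_mx b2 with u1 | u1
  · rw [← hq, pow_succ', mul_assoc] at u1
    have u2 := IsU.of_mul hA w2 u1
    have u3 := IsU.of_mul w2 hA (by rwa [mul_comm])
    have h1 : ∀ i, δ (c i) ∈ Submodule.span O (Set.range fun i => δ (c i)) :=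
      fun i => Submodule.subset_span ⟨i, rfl⟩
    refine ⟨c, gens_iff.2 ⟨hc, GG _ h1 ?_⟩, ⟨_, u3, rfl⟩, fun ht => (ht.2 u2).elim⟩
    have h2 := smem _ (he.mul u3).inv_mem (Submodule.sub_mem _
      (sp _ h1 s' (Or.inr (Or.inl rfl))) (smem _ (O.pow_mem hA (m + 1)) (sp _ h1 s (Or.inl rfl))))
    rwa [← d, smul_smul, inv_mul_cancel₀ (he.mul u3).ne, one_smul] at h2
  · obtain ⟨r, r1, r2, i₀, r3⟩ := hS u1
    obtain ⟨a1, a2⟩ := exch (i₀ := i₀) hc hA w2 he r1 r3 (d.trans r2) GG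
    exact ⟨_, a1, a2, fun _ => ⟨i₀, Function.update_self ..⟩⟩

end Pool.Agent.MP_20d318_ag.KK
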