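import Pool.Agent.MP_20d318_ag.KK.Spec

/-! The degrees of curves on the blow-up of a product and on its double cover. -/

set_option autoImplicit false
set_option linter.unusedSectionVars false

namespace Pool.Agent.MP_20d318_ag.KK

open Pool.Agent.MP_fd6584_ag.Fn Pool.Agent.CBk
open Pool.Agent.MP_fd6584_ag.AG hiding deg_inv deg_congr deg_of_unit deg_mul deg_prod deg_zpow
  deg_eq_zero deg_nonneg deg_div deg_pow
open Pool.Agent.MP_20d318_ag.CH (Lv sX)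
open Pool.Agent.MP_20d318_ag.CB.P.XCurA (ptmx mx_prod)

namespace CurR

variable {k M M' K Λ Λ' κ κ' : Type} {n n' : ℕ} [Field k] [Field M] [Field M'] [Field K]
  [Algebra k M] [Algebra k M'] [Algebra k K] [IsAlgClosed k] [Fintype κ] [Fintype κ']
  {L : Lv k M Λ κ n} {L' : Lv k M' Λ' κ' n'} {ι : M →ₐ[k] K} {ι' : M' →ₐ[k] K} {v : K} {e : ℕ}
  {Z : Set (Subalgebra k K)} (h : Geo L L' ι ι' v e Z) (ν : Curve Z)

include h

theorem cS (i : κ) (hs : sX L ι i ν.gen ∈ mx ν.gen) (i' : κ) (hi : i' ≠ i) :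
    ν.deg (sX L ι i') = 0 ∧ ∀ j, ν.deg (EE L L' ι ι' i' j) = 0 := by
  have u : ∀ P, IsU (ν.pt P) (sX L ι i' (ν.pt P)) := fun P =>
    isU_of_not_mx (h.sm (ν.pt_mem P) i') fun q => hi (h.s1 (ν.pt_mem P) i' i q
      (ptmx (h.cartS i) (fun O hO => .inl (h.sm hO i)) ν hs P))
  exact ⟨deg_zero_of h.gX (h.cartS i') ν u, fun j => deg_zero_of h.gX (h.cartE i' j) ν fun P =>
    h.eu (ν.pt_mem P) i' j (.inl (u P))⟩

theorem cA (j : κ') (ha : AA L L' ι ι' v e ν.gen ∈ mx ν.gen) (ht : sX L' ι' j ν.gen ∈ mx ν.gen)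
    (i : κ) : ν.deg (EE L L' ι ι' i j) = ν.deg (sX L ι i) :=
  degc h.gX (h.cartE i j) (h.cartS i) ν fun P =>
    h.eT (ν.pt_mem P) i j (ptmx h.cartA h.aa ν ha P).1
      (ptmx (h.symm.cartS j) (fun _ hO => .inl (h.symm.sm hO j)) ν ht P)

theorem zS {i : κ} (hs : sX L ι i ν.gen ∈ mx ν.gen) (i' : κ) (hi : i' ≠ i) :
    L.nd.d (h.pj ν) (L.nd.c i') = 0 := by
  rw [h.pj_c, (cS h ν i hs i' hi).1, Int.cast_zero]

theorem sumC (i : κ) (ha : (AA L L' ι ι' v e ν.gen)⁻¹ ∉ mx ν.gen) :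
    ∑ j, ν.deg (EE L L' ι ι' i j) ≤ ν.deg (sX L ι i) := by
  have h1 := deg_nonneg h.gX (h.cartC i) (fun O hO => (h.rC hO i).1) ν ((h.rC ν.gen_mem i).2 ha)
  rw [h.degC] at h1
  exact sub_nonneg.1 h1

open Classical in
theorem one (ha : AA L L' ι ι' v e ν.gen ∈ mx ν.gen) :
    ∃ j, (∀ j', j' ≠ j → L'.nd.d (h.symm.pj ν) (L'.nd.c j') = 0) ∧ ∀ i j',
      (ν.deg (EE L L' ι ι' i j') : ℝ) = if j' = j then L.nd.d (h.pj ν) (L.nd.c i) else 0 := by
  have hO := ν.gen_mem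
  obtain ⟨j, hj⟩ := mx_prod (h.symm.sm hO) ((h.loc hO).eqn ▸ mx_mul_right (mx_pow ha h.ext.e0)
    (prod_mem fun i _ => h.sm hO i))
  refine ⟨j, zS h.symm ν hj, fun i j' => ?_⟩
  split_ifs with q
  · rw [q, cA h ν j ha hj, h.pj_c]
  · rw [← EE_symm, (cS h.symm ν j hj j' q).2, Int.cast_zero]

theorem ty : Ty L.nd L'.nd (h.pj ν) (h.symm.pj ν) fun i j => ν.deg (EE L L' ι ι' i j) := by
  classical
  have hO := ν.gen_mem
  by_cases ha : AA L L' ι ι' v e ν.gen ∈ mx ν.gen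
  · exact .inl (one h ν ha)
  by_cases hb : (AA L L' ι ι' v e ν.gen)⁻¹ ∈ mx ν.gen
  · obtain ⟨i, h1, h2⟩ := one h.symm ν (by rwa [AA_symm])
    refine .inr (.inl ⟨i, h1, fun i' j => ?_⟩)
    rw [← h2 j i', EE_symm]
  have hu : IsU ν.gen (AA L L' ι ι' v e ν.gen) := (h.aa _ hO).elim (isU_of_not_mx · ha)
    fun q => by simpa using (isU_of_not_mx q hb).inv
  have s1 := fun i => sumC h ν i hb
  have s2 := fun j => sumC h.symm ν j (by rwa [AA_symm, inv_inv])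
  simp only [EE_symm L L' ι ι'] at s2
  by_cases ht : ∃ j, sX L' ι' j ν.gen ∈ mx ν.gen
  · obtain ⟨j, hj⟩ := ht
    obtain ⟨i, hi⟩ := mx_prod (h.sm hO) (by
      refine (mx_or_of_mul (hu.pow e).mem (prod_mem fun i _ => h.sm hO i) ?_).resolve_left
        (hu.pow e).not_mx
      rw [(h.loc hO).eqn, ← Finset.mul_prod_erase _ _ (Finset.mem_univ j)]
      exact mx_mul_right hj (prod_mem fun j _ => h.symm.sm hO j))
    have h2 : ∀ i' j', ¬ (i' = i ∧ j' = j) → ν.deg (EE L L' ι ι' i' j') = 0 := fun i' j' q =>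
      (not_and_or.1 q).elim (fun q => (cS h ν i hi i' q).2 j') fun q => by
        rw [← EE_symm, (cS h.symm ν j hj j' q).2]
    have h3 := s2 j
    have h4 := s1 i
    rw [Finset.sum_eq_single i (fun i' _ q => h2 i' j fun q' => q q'.1) (by simp)] at h3
    rw [Finset.sum_eq_single j (fun j' _ q => h2 i j' fun q' => q q'.2) (by simp)] at h4
    refine .inr (.inr (.inl ⟨i, j, zS h ν hi, zS h.symm ν hj, ?_, ?_, fun i' j' q => ?_⟩))
    · rw [h.pj_c]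
      dsimp only
      exact_mod_cast h4
    · rw [h.symm.pj_c]
      dsimp only
      exact_mod_cast h3
    · simp [h2 i' j' q]
  · push Not at ht
    refine .inr (.inr (.inr ⟨fun i j => Int.cast_nonneg (deg_nonneg h.gX (h.cartE i j)
      (fun O hO => h.em hO i j) ν (h.eu hO i j
        (.inr (isU_of_not_mx (h.symm.sm hO j) (ht j))))), fun i => ?_, fun j => ?_⟩))
    · rw [h.pj_c]
      dsimp only
      exact_mod_cast s1 i
    · rw [h.symm.pj_c]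
      dsimp only
      exact_mod_cast s2 j

end CurR

theorem cura_stmt : CuraStmt :=
  fun _ _ _ _ _ _ _ _ _ _ _ _ _ _ _ _ _ _ _ _ _ _ _ _ _ _ _ _ h => ⟨CurR.cS h, CurR.cA h⟩

theorem curb_stmt : CurbStmt :=
  fun _ _ _ _ _ _ _ _ _ _ _ _ _ _ _ _ _ _ _ _ _ _ _ _ _ _ _ _ h _ _ ν =>
    ⟨h.pj ν, h.symm.pj ν, _, CurR.ty h ν, h.phi_d ν⟩

end Pool.Agent.MP_20d318_ag.KK
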