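import Pool.Agent.MP_20d318_ag.KK.ESpec
import Pool.Agent.MP_fd6584_ag.D.Tow

/-! A surface of the tower is the plane or carries a ruling. -/

set_option autoImplicit false
set_option linter.unusedSectionVars false

namespace Pool.Agent.MP_20d318_ag.KK

open Pool.Agent.MP_fd6584_ag.Fn Pool.Agent.CBk Polynomial
open Pool.Agent.MP_fd6584_ag.AG hiding deg_inv deg_congr deg_of_unit deg_mul deg_prod deg_zpow
  deg_eq_zero deg_nonneg deg_div deg_pow

namespace Dic

open CB.P.BlB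

variable {k M : Type} [Field k] [Field M] [Algebra k M] {O O' R : Subalgebra k M} {a b p q : M}
  {α β : k}

theorem gen (h : RS.Gen k a b) (ha : a ∈ IntermediateField.adjoin k {p, q})
    (hb : b ∈ IntermediateField.adjoin k {p, q}) : RS.Gen k p q := by
  have e : IntermediateField.adjoin k {p, q} = ⊤ :=
    top_unique (h.2 ▸ IntermediateField.adjoin_le_iff.2 (Set.pair_subset ha hb))
  exact ⟨trd_stmt k M (Fin 2) ![a, b] ![p, q] h.1 fun _ => (Pln.alg e).isAlgebraic _, e⟩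

theorem f1 : p ∈ IntermediateField.adjoin k {p, q} := IntermediateField.subset_adjoin _ _ (by simp)
theorem f2 : q ∈ IntermediateField.adjoin k {p, q} := IntermediateField.subset_adjoin _ _ (by simp)

theorem both (hp : p ∈ O) (hq : q ∈ O) (h1 : p / q ∉ O) (h2 : (p / q)⁻¹ ∉ O) :
    p ∈ mx O ∧ q ∈ mx O :=
  ⟨⟨hp, fun h => h2 (by rw [inv_div]; exact h.div_mem hq)⟩, ⟨hq, fun h => h1 (h.div_mem hp)⟩⟩

theorem shift : Algebra.adjoin k {a, b} =
    Algebra.adjoin k {a - algebraMap k M α, b - algebraMap k M β} :=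
  have s : ∀ {c : k} {f : M} {S : Subalgebra k M}, f - algebraMap k M c ∈ S → f ∈ S :=
    fun {c _ S} h => by simpa using add_mem h (S.algebraMap_mem c)
  le_antisymm (adj_le (s m1) (s m2))
    (adj_le (sub_mem m1 (Subalgebra.algebraMap_mem _ α))
      (sub_mem m2 (Subalgebra.algebraMap_mem _ β)))

theorem oth (hO : O ∈ Pts (Algebra.adjoin k {a, b})) (hu : a - algebraMap k M α ∈ mx O)
    (hv : b - algebraMap k M β ∈ mx O) (hO' : O' ∈ Pts (Algebra.adjoin k {b / a, a⁻¹}))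
    (a0 : a ≠ 0) (h1 : (b - algebraMap k M β) / (a - algebraMap k M α) ∉ O')
    (h2 : ((b - algebraMap k M β) / (a - algebraMap k M α))⁻¹ ∉ O') : O' = O := by
  have i1 : a⁻¹ ∈ O' := hO'.2.1 m2
  have e1 : (a - algebraMap k M α) / a = 1 - algebraMap k M α * a⁻¹ := by field_simp
  have e2 : (b - algebraMap k M β) / a = b / a - algebraMap k M β * a⁻¹ := by field_simp
  rw [← div_div_div_cancel_right₀ a0] at h1 h2
  obtain ⟨h3, h4⟩ := both (e2 ▸ sub_mem (hO'.2.1 m1) (mul_mem (O'.algebraMap_mem β) i1))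
    (e1 ▸ sub_mem (one_mem _) (mul_mem (O'.algebraMap_mem α) i1)) h1 h2
  have h5 : IsU O' a⁻¹ := isU_of_not_mx i1 fun h => one_not_mem_mx (O := O') (by
    simpa [e1] using mx_add hO'.1 h4 (mx_mul_left (O'.algebraMap_mem α) h))
  have h6 : IsU O' a := by simpa using h5.inv
  have d : Dom O O' := dom (by rwa [← shift]) hu hv hO'.1
    (by simpa [a0] using mx_mul_right h4 h6.mem) (by simpa [a0] using mx_mul_right h3 h6.mem)
  have h7 := d.2 a (hO.2.1 m1) h6
  exact le_antisymm (Pts_le hO' (adj_le (h7.div_mem (hO.2.1 m2)) h7.inv_mem) le_rfl d) d.1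

theorem key {T : Set (Subalgebra k M)} (h : RS.Gen k a b)
    (hT : ∀ O' ∈ T, O' ∈ Pts (Algebra.adjoin k {a, b}) ∨ O' ∈ Pts (Algebra.adjoin k {b / a, a⁻¹}) ∨
      O' ∈ Pts (Algebra.adjoin k {a / b, b⁻¹})) (hO : O ∈ Pts (Algebra.adjoin k {a, b}))
    (hr : ∀ f ∈ O, ∃ c : k, f - algebraMap k M c ∈ mx O) :
    ∃ t z, RS.Gen k t z ∧ ∀ O' ∈ RS.blowUp T O, t ∈ O' ∨ t⁻¹ ∈ O' := by
  obtain ⟨α, hu⟩ := hr a (hO.2.1 m1)
  obtain ⟨β, hv⟩ := hr b (hO.2.1 m2)
  have g : GenP k a b := ⟨h.1, h.2⟩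
  have hO₁ := hO
  rw [shift (α := α) (β := β)] at hO₁
  refine ⟨(b - algebraMap k M β) / (a - algebraMap k M α), a, gen h f2 ?_, fun O' hO' => ?_⟩
  · have := add_mem (mul_mem (f1 (k := k) (p := (b - algebraMap k M β) / (a - algebraMap k M α))
      (q := a)) (sub_mem f2 (IntermediateField.algebraMap_mem _ α)))
      (IntermediateField.algebraMap_mem _ β)
    rwa [div_mul_cancel₀ _ (g.x_ne α), sub_add_cancel] at this
  by_contra hn
  obtain ⟨h1, h2⟩ := not_or.1 hn
  rcases hO' with ⟨h3, h4⟩ | h3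
  · refine h4 ?_
    rcases hT O' h3 with h5 | h5 | h5
    · rw [shift (α := α) (β := β)] at h5
      obtain ⟨h6, h7⟩ := both (h5.2.1 m2) (h5.2.1 m1) h1 h2
      exact le_antisymm (dom h5 h7 h6 hO.1 hu hv).1 (dom hO₁ hu hv h5.1 h7 h6).1
    · exact oth hO hu hv h5 (ne0 g.swap) h1 h2
    · exact oth (Set.pair_comm a b ▸ hO) hv hu h5 (ne0 g) (by rwa [inv_div] at h2)
        (by rwa [inv_div])
  · simp only [Set.mem_iUnion] at h3
    obtain ⟨w, ⟨hw, w0⟩, h3⟩ := h3
    have w0 : w ≠ 0 := w0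
    have l : O ≤ O' := fun f hf => h3.2.1 (Algebra.subset_adjoin (Or.inl hf))
    have m : ∀ f ∈ mx O, f / w ∈ O' := fun f hf =>
      h3.2.1 (Algebra.subset_adjoin (Or.inr ⟨f, hf, rfl⟩))
    rw [← div_div_div_cancel_right₀ w0] at h1 h2
    obtain ⟨h6, h7⟩ := both (m _ hv) (m _ hu) h1 h2
    obtain ⟨r, hr, s, hs, e⟩ := span hO₁ hu hv hw
    refine one_not_mem_mx (O := O') ?_
    rw [← div_self w0]
    nth_rewrite 1 [e]
    rw [add_div, mul_div_assoc, mul_div_assoc]
    exact lin h3.1 h7 h6 (l hr) (l hs)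

end Dic

open Dic CB.P.BlB in
theorem dic_stmt : DicStmt := by
  intro k M _ _ _ T hT
  induction hT with
  | plane x y h => exact Or.inl ⟨x, y, h, rfl⟩
  | hirz n x y h =>
    refine Or.inr ⟨x, y, h, fun O hO => ?_⟩
    simp only [RS.planes, Set.mem_iUnion, Set.mem_insert_iff, Set.mem_singleton_iff] at hO
    obtain ⟨_, rfl | rfl | rfl | rfl, hO⟩ := hO
    exacts [Or.inl (hO.2.1 m1), Or.inl (hO.2.1 m1), Or.inr (hO.2.1 m1), Or.inr (hO.2.1 m1)]
  | blow T O _ hO hr ih =>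
    refine Or.inr ?_
    rcases ih with ⟨x, y, h, rfl⟩ | ⟨t, z, h, ih⟩
    · have g : GenP k x y := ⟨h.1, h.2⟩
      have x0 := ne0 g.swap
      have y0 := ne0 g
      have c : ∀ O' ∈ RS.planes k {(x, y), (y / x, x⁻¹), (x / y, y⁻¹)},
          O' ∈ Pts (Algebra.adjoin k {x, y}) ∨ O' ∈ Pts (Algebra.adjoin k {y / x, x⁻¹}) ∨
            O' ∈ Pts (Algebra.adjoin k {x / y, y⁻¹}) := fun O' hO' => by
        simp only [RS.planes, Set.mem_iUnion, Set.mem_insert_iff, Set.mem_singleton_iff] at hO'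
        obtain ⟨_, rfl | rfl | rfl, hO'⟩ := hO'
        exacts [Or.inl hO', Or.inr (Or.inl hO'), Or.inr (Or.inr hO')]
      rcases c O hO with h1 | h1 | h1
      · exact key h c h1 hr
      · refine key (gen h (by simpa using inv_mem (f2 (p := y / x) (q := x⁻¹)))
          (by simpa [x0] using div_mem (f1 (p := y / x) (q := x⁻¹)) f2)) (fun O' hO' => ?_) h1 hr
        rw [show x⁻¹ / (y / x) = y⁻¹ by field_simp, inv_div, show y / x / x⁻¹ = y by field_simp,
          inv_inv, Set.pair_comm y⁻¹, Set.pair_comm y]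
        have := c O' hO'
        tauto
      · refine key (gen h (by simpa [y0] using div_mem (f1 (p := x / y) (q := y⁻¹)) f2)
          (by simpa using inv_mem (f2 (p := x / y) (q := y⁻¹)))) (fun O' hO' => ?_) h1 hr
        rw [show y⁻¹ / (x / y) = x⁻¹ by field_simp, inv_div, show x / y / y⁻¹ = x by field_simp,
          inv_inv, Set.pair_comm x⁻¹]
        have := c O' hO'
        tauto
    · refine ⟨t, z, h, fun O' hO' => ?_⟩
      rcases hO' with h3 | h3
      · exact ih O' h3.1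
      · simp only [Set.mem_iUnion] at h3
        obtain ⟨w, -, h3⟩ := h3
        have l : O ≤ O' := fun f hf => h3.2.1 (Algebra.subset_adjoin (Or.inl hf))
        exact (ih O hO).imp (@l _) (@l _)

end Pool.Agent.MP_20d318_ag.KK
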