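import Pool.Agent.MP_20d318_ag.KK.Spec

/-! Row DIMQ: dimensions of points of the blow-up of a product. -/

set_option autoImplicit false
set_option linter.unusedSectionVars false

namespace Pool.Agent.MP_20d318_ag.KK

open Pool.Agent.MP_fd6584_ag.Fn Pool.Agent.CBk Polynomial
open Pool.Agent.MP_fd6584_ag.AG hiding deg_inv deg_congr deg_of_unit deg_mul deg_prod deg_zpow
  deg_eq_zero deg_nonneg deg_div deg_pow

namespace DimqAux

open Pool.Agent.CBk.DimRow

variable {k M K L : Type} [Field k] [Field M] [Field K] [Field L] [Algebra k M] [Algebra k K]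
  [Algebra k L]

theorem rk_img {O : Subalgebra k K} {ρ : O →ₐ[k] L} (hρ : LocHom O ρ) (ι : M →ₐ[k] K)
    {R : Subalgebra k M} {n : ℕ} (hd : Dom R (O.comap ι)) (hRO : ι '' R ⊆ O) (hR : Dim R n) :
    (AlgebraicIndependent.matroid k L).eRk (evO O ρ '' (ι '' R)) ≤ n := by
  rw [rk_le_iff hρ hRO]
  rintro ⟨r, hr, hi⟩
  choose s hs he using hr
  refine hR ⟨s, hs, fun p hp => ?_⟩
  have hm : MvPolynomial.aeval s p ∈ R := by rw [aeval_coe hs]; exact Subtype.prop _
  refine hd.2 _ hm ((isU_comap ι).2 ?_)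
  rw [MvPolynomial.comp_aeval_apply]
  simp only [he]
  exact hi.2 p hp

end DimqAux

open DimqAux Pool.Agent.CBk.DimRow in
theorem dimq_stmt : DimqStmt := by
  intro k M M' K _ _ _ _ _ _ _ _ _ ι ι' R R' O a m m' hov hO hR hR'
  have := hO.1
  have hρ := resid_loc (O := O)
  set ρ := resid O
  set N := AlgebraicIndependent.matroid k (IsLocalRing.ResidueField O)
  have hG : ι '' R ∪ (ι' '' R' ∪ {a}) ⊆ O := fun g hg => hO.2.1 (Algebra.subset_adjoin hg)
  have hRO : ι '' R ⊆ O := Set.subset_union_left.trans hG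
  have hRO' : ι' '' R' ⊆ O := (Set.subset_union_left.trans Set.subset_union_right).trans hG
  have ha : a ∈ O := hG (by simp)
  have hG' : ι '' R ∪ (ι' '' R' ∪ ∅) ⊆ O := by
    rw [Set.union_empty]; exact Set.union_subset hRO hRO'
  have h1 : N.eRk (evO O ρ '' (ι '' R)) ≤ m := rk_img hρ ι hov.dom hRO hR
  have h1' : N.eRk (evO O ρ '' (ι' '' R')) ≤ m' := rk_img hρ ι' hov.dom' hRO' hR'
  have h2 : N.eRk (evO O ρ '' (ι '' R ∪ (ι' '' R' ∪ ∅))) ≤ ((m + m' : ℕ) : ℕ∞) := by
    rw [Set.union_empty, Set.image_union, Nat.cast_add]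
    exact (N.eRk_union_le_eRk_add_eRk _ _).trans (add_le_add h1 h1')
  have h3 : evO O ρ '' O ⊆
      N.closure (insert (evO O ρ a) (evO O ρ '' (ι '' R ∪ (ι' '' R' ∪ ∅)))) := by
    rw [← Set.image_insert_eq, ← Set.union_singleton, Set.union_empty, Set.union_assoc]
    exact pts_cl ρ hO
  refine ⟨(dim_iff hρ _).2 ?_, fun hu' => (dim_iff hρ _).2 ?_⟩
  · refine (N.eRk_mono h3).trans ?_
    rw [Matroid.eRk_closure_eq, Nat.cast_add, Nat.cast_one]
    exact (N.eRk_insert_le_add_one _ _).trans (add_le_add_left h2 1)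
  · have h4 : evO O ρ a ∈ N.closure (evO O ρ '' (ι '' R ∪ (ι' '' R' ∪ ∅))) :=
      algM_cl hρ (Algebra.adjoin_le hG') (fun b hb => ev_adjoin ρ hG' hb) ha hu'
    refine (N.eRk_mono h3).trans ?_
    rw [Matroid.closure_insert_eq_of_mem_closure h4, Matroid.eRk_closure_eq]
    exact h2

end Pool.Agent.MP_20d318_ag.KK
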