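import Pool.Agent.MP_20d318_ag.KK.ESpec

/-! Linear disjointness passes to algebraic extensions of a factor. -/

set_option autoImplicit false
set_option linter.unusedSectionVars false

open scoped TensorProduct

namespace Pool.Agent.MP_20d318_ag.KK

open Polynomial

namespace Dja

variable {k M M' N : Type} [Field k] [Field M] [Field M'] [Field N] [Algebra k M]
  [Algebra k M'] [Algebra k N]

theorem integral (τ : M' →ₐ[k] N)
    (h : ∀ x : N, ∃ p : M'[X], p ≠ 0 ∧ p.eval₂ (τ : M' →+* N) x = 0) :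
    (Algebra.TensorProduct.map (AlgHom.id k M) τ : M ⊗[k] M' →+* M ⊗[k] N).IsIntegral := by
  intro z
  induction z with
  | zero => exact RingHom.isIntegralElem_zero _
  | add a b ha hb => exact ha.add _ hb
  | tmul a x =>
    have e : a ⊗ₜ[k] x = (Algebra.TensorProduct.map (AlgHom.id k M) τ : M ⊗[k] M' →+* M ⊗[k] N)
        (a ⊗ₜ[k] 1) * (1 ⊗ₜ[k] x) := by simp
    rw [e]
    refine (RingHom.isIntegralElem_map _).mul _ ?_
    obtain ⟨p, p0, hp⟩ := h x
    let i' : M' →+* M ⊗[k] M' := (Algebra.TensorProduct.includeRight : M' →ₐ[k] M ⊗[k] M')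
    let i : N →+* M ⊗[k] N := (Algebra.TensorProduct.includeRight : N →ₐ[k] M ⊗[k] N)
    refine ⟨(p * C p.leadingCoeff⁻¹).map i', (monic_mul_leadingCoeff_inv p0).map _, ?_⟩
    have e2 : (Algebra.TensorProduct.map (AlgHom.id k M) τ : M ⊗[k] M' →+* M ⊗[k] N).comp i' =
        i.comp (τ : M' →+* N) := RingHom.ext fun m => by simp [i, i']
    rw [eval₂_map, e2]
    change eval₂ _ (i x) _ = 0
    rw [← hom_eval₂, eval₂_mul, hp, zero_mul, map_zero]

end Dja

theorem dja_stmt : DjaStmt := by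
  intro k M N K _ _ _ _ _ _ _ _ _ ι ρ M' _ _ τ hd h
  have : NoZeroDivisors (M ⊗[k] N) := td
  have : IsDomain (M ⊗[k] N) := NoZeroDivisors.to_isDomain _
  let f : M ⊗[k] M' →+* M ⊗[k] N := Algebra.TensorProduct.map (AlgHom.id k M) τ
  have e : ∀ z, pm ι ρ (f z) = pm ι (ρ.comp τ) z := fun z => by
    induction z with
    | zero => simp
    | tmul a b => rfl
    | add a b ha hb => rw [map_add, map_add, map_add, ha, hb]
  let _ := f.toAlgebra
  have : Algebra.IsIntegral (M ⊗[k] M') (M ⊗[k] N) := ⟨Dja.integral τ h⟩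
  refine (RingHom.injective_iff_ker_eq_bot (pm ι ρ)).2
    (Ideal.eq_bot_of_comap_eq_bot (R := M ⊗[k] M') (eq_bot_iff.2 fun z hz => ?_))
  exact hd (((e z).symm.trans hz).trans (map_zero _).symm)

end Pool.Agent.MP_20d318_ag.KK
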