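import Pool.Agent.MP_20d318_ag.KK.LSpec

/-! Row DKB: the curves that cut out the nef cone of the surface are of finitely many types. -/

set_option autoImplicit false

namespace Pool.Agent.MP_20d318_ag.KK

open Pool.Agent.MP_20d318_ag.Lat hiding act actW W
open Pool.Agent.MP_20d318_ag.CH Pool.Agent.MP_20d318_ag.CB

namespace Dkb

theorem core {ι κ : Type} [Fintype ι] [Fintype κ] {Λ : Ld ι κ} (G : Set (Matrix ι ι ℤ))
    (S : Set (ι → ℤ)) (hS : S ⊆ Λ.P)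
    (ct : ∀ L : ι → ℝ, (∀ c ∈ S, 0 ≤ ip Λ.B L (toR c)) → L ∈ Λ.NT)
    (Cc : ∀ c ∈ Λ.P, c ∉ Set.range Λ.C → ∀ k, 0 ≤ ip Λ.B (Λ.C k) c)
    (sumK : ∀ c, ∑ k, ip Λ.B (Λ.C k) c = -2 * ip Λ.B Λ.K c)
    (hK : ∀ c ∈ S, c ∉ Set.range Λ.C → -2 ≤ ip Λ.B Λ.K c) : DK (ldN Λ G) := by
  refine ⟨ipL Λ.B '' S, ?_, ?_, fun L _ z _ h => ld_nef.superset (ct _ fun c hc => h _ ⟨c, hc, rfl⟩)⟩
  · rintro _ ⟨c, hc, rfl⟩
    refine ⟨?_, fun x hx => hx ⟨c, hS hc⟩⟩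
    rintro _ ⟨a, rfl⟩
    exact ⟨_, ip_toR _ _ _⟩
  · refine ((Set.finite_range fun l i => ipL Λ.B (Λ.C l) (toR (Λ.C i))).union
      (Set.Finite.pi' fun _ : κ => (Set.finite_Icc (0 : ℤ) 4).image (Int.cast : ℤ → ℝ))).subset ?_
    rintro _ ⟨_, ⟨c, hc, rfl⟩, rfl⟩
    by_cases h : c ∈ Set.range Λ.C
    · obtain ⟨l, rfl⟩ := h
      exact Or.inl ⟨l, rfl⟩
    · refine Or.inr fun i => ⟨_, ⟨Cc c (hS hc) h i, ?_⟩, (ip_toR _ _ _).symm⟩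
      have h1 := Finset.single_le_sum (fun k _ => Cc c (hS hc) h k) (Finset.mem_univ i)
      have h2 := hK c hc h
      rw [sumK] at h1
      omega

end Dkb

theorem dkb_stmt : DkbStmt := by
  intro ι κ _ _ Λ G
  refine ⟨fun N L C => Dkb.core G Λ.GEN ?_ C L.Cc L.sumK ?_,
    fun B C => Dkb.core G {c | c ∈ Λ.P ∧ ip Λ.B c c < 0} (fun _ h => h.1)
      (fun x h => C.ct x fun c a b => h c ⟨a, b⟩) B.lb.Cc B.lb.sumK fun c hc h => ?_⟩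
  · rintro c ((h | ⟨k, rfl⟩) | h)
    exacts [h.1, N.memC k, h.1]
  · rintro c ((hc | hc) | hc) h
    · rcases L.neg c hc.1 hc.2 with ⟨k, -, e, -⟩ | ⟨-, -, e⟩ | ⟨-, -, e, -⟩
      · exact absurd ⟨k, e.symm⟩ h
      all_goals omega
    · exact absurd hc h
    · exact hc.2.2.1.ge
  · rcases B.lb.neg c hc.1 hc.2 with ⟨k, e⟩ | ⟨-, -, e⟩ | ⟨-, -, e, -⟩
    · exact absurd ⟨k, e.symm⟩ h
    all_goals omega

end Pool.Agent.MP_20d318_ag.KK
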