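import Pool.Agent.MP_20d318_ag.KK.Spec
import Pool.Agent.MP_20d318_ag.CH.Lft

/-! The lifted automorphisms and the classes of the divisors on the blow-up of a product. -/

set_option autoImplicit false
set_option linter.unusedSectionVars false

namespace Pool.Agent.MP_20d318_ag.KK

open Pool.Agent.MP_fd6584_ag.Fn Pool.Agent.CBk
open Pool.Agent.MP_fd6584_ag.AG hiding deg_inv deg_congr deg_of_unit deg_mul deg_prod deg_zpow
  deg_eq_zero deg_nonneg deg_div deg_pow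
open Pool.Agent.MP_20d318_ag.CH (Lv Lf cl pull sX cl_val n1_ext lin_ext pull_cl cl_mem cl_eff
  span_cl n1_eq)
open Pool.Agent.MP_20d318_ag.CH.Lft

namespace DvR

variable {k M M' K Λ Λ' κ κ' : Type} {n n' : ℕ} [Field k] [Field M] [Field M'] [Field K]
  [Algebra k M] [Algebra k M'] [Algebra k K] [IsAlgClosed k] [Fintype κ] [Fintype κ']
  {L : Lv k M Λ κ n} {L' : Lv k M' Λ' κ' n'} {ι : M →ₐ[k] K} {ι' : M' →ₐ[k] K} {v : K} {e : ℕ}
  {Z : Set (Subalgebra k K)} (h : Geo L L' ι ι' v e Z)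

include h

section lift

variable {g : Aut L.Y} {γ : Aut Z} (h1 : ∀ m, γ.1 (ι m) = ι (g.1 m))
  (p1 : ∀ O ∈ Z, pr ι L.Y (O.comap (γ.1 : K →ₐ[k] K)) = (pr ι L.Y O).comap (g.1 : M →ₐ[k] M))

include h1 p1

omit h in
theorem mv_up (f : Subalgebra k M → M) {O : Subalgebra k K} (hO : O ∈ Z) :
    mv γ (up ι L.Y f) O = up ι L.Y (mv g f) O := by
  unfold mv up
  rw [h1, p1 O hO]

theorem mv_sC {r : M} (hg : Lf L g r) (i : κ) {O : Subalgebra k K} (hO : O ∈ Z)
    (hE : ∀ j, IsU O (mv γ (EE L L' ι ι' i j) O / EE L L' ι ι' i j O)) :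
    IsU O (mv γ (sC L L' ι ι' i) O / sC L L' ι ι' i O) := by
  have h0 : IsU O (mv γ (sX L ι i) O / sX L ι i O) := by
    have h2 := (isU_comap ι).1 ((hg.st i _ (h.maps.mem hO)).mono (h.maps.dom hO).1)
    rw [map_div₀] at h2
    rw [sX, mv_up h1 p1 _ hO]
    exact h2
  have h3 := h0.div (isU_prod (s := Finset.univ) fun j _ => hE j)
  rw [Finset.prod_div_distrib, div_div_div_comm] at h3
  change IsU O (γ.1 (_ / ∏ j, _) / (_ / ∏ j, _))
  rw [map_div₀, map_prod]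
  exact h3

theorem n1_pull (x : N1 L.Y) :
    γ.n1 (pull h.gY h.gX h.maps x) = pull h.gY h.gX h.maps (g.n1 x) :=
  LinearMap.congr_fun (f := γ.n1 ∘ₗ pull h.gY h.gX h.maps) (g := pull h.gY h.gX h.maps ∘ₗ g.n1)
    (lin_ext fun f hf => by
      rw [LinearMap.comp_apply, LinearMap.comp_apply, pull_cl _ _ _ hf, n1_cl g hf,
        pull_cl _ _ _ (mv_cart g hf), n1_cl γ (h.cartU hf)]
      exact cl_same h.gX (mv_cart γ (h.cartU hf)) (h.cartU (mv_cart g hf))
        fun O hO => mv_up h1 p1 f hO) x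

end lift

theorem pull_mem {x : N1 L.Y} (hx : x ∈ AddSubgroup.closure (Set.range Cartier.n1)) :
    pull h.gY h.gX h.maps x ∈ AddSubgroup.closure (Set.range Cartier.n1) := by
  induction hx using AddSubgroup.closure_induction with
  | mem x hx =>
    obtain ⟨D, rfl⟩ := hx
    rw [n1_eq, pull_cl _ _ _ D.isCart]
    exact cl_mem (h.cartU D.isCart)
  | zero => rw [map_zero]; exact zero_mem _
  | add x y _ _ a b => rw [map_add]; exact add_mem a b
  | neg x _ a => rw [map_neg]; exact neg_mem a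

open Classical in
theorem cC (i : κ) :
    cl Z (sC L L' ι ι' i) = h.Phi (L.nd.c i, 0, fun i' _ => if i' = i then 1 else 0) := by
  refine n1_ext fun ν => Eq.trans ?_ (h.phi_d ν _).symm
  rw [cl_val (h.cartC _), h.degC]
  simp only [h.pj_c, map_zero, add_zero, ite_mul, one_mul, zero_mul]
  rw [Finset.sum_eq_single i (fun b _ hb => by simp [hb]) (by simp)]
  simp

theorem cE (i : κ) (j : κ') : h.Phi (exW i j) = cl Z (EE L L' ι ι' i j) := by
  classical
  refine n1_ext fun ν => (h.phi_d ν _).trans ?_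
  rw [cl_val (h.cartE i j)]
  simp only [exW, map_zero, add_zero, zero_sub]
  rw [Finset.sum_eq_single i (fun b _ hb => by simp [hb]) (by simp),
    Finset.sum_eq_single j (fun b _ hb => by simp [hb]) (by simp)]
  simp

theorem eL {x : N1 L.Y} (hx : x ∈ Glue.Ef L.Y) : h.Phi (x, 0, 0) ∈ Glue.Ef Z := by
  rw [show h.Phi (x, 0, 0) = pull h.gY h.gX h.maps x by simp [Geo.Phi]]
  refine ((Lat.isCone_cone _).preimage (pull h.gY h.gX h.maps)).cone_subset ?_ hx
  rintro _ ⟨D, hD, rfl⟩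
  rw [Set.mem_preimage, n1_eq, pull_cl _ _ _ D.isCart]
  exact cl_eff (h.cartU D.isCart) fun O hO => (h.maps.dom hO).1 (hD _ (h.maps.mem hO))

end DvR

open DvR

theorem lft_stmt : LftStmt := by
  intro k M M' K Λ Λ' κ κ' n n' _ _ _ _ _ _ _ _ _ _ _ L L' ι ι' v e h hs
  rintro _ ⟨g, r, hg, rfl⟩ _ ⟨g', r', hg', rfl⟩
  obtain ⟨γ, u⟩ := hs g r g' r' hg hg'
  refine ⟨γ.n1, ⟨γ, ι r * ι' r', ⟨mul_ne_zero ((_root_.map_ne_zero ι).2 hg.ne)
    ((_root_.map_ne_zero ι').2 hg'.ne), ?_, ?_⟩, rfl⟩, fun D => ?_⟩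
  · change γ.1 (ι L.φ * ι' L'.φ) = ι L.φ * ι' L'.φ * (ι r * ι' r') ^ 2
    rw [map_mul, u.h1, u.h2, hg.sq, hg'.sq, map_mul, map_mul, map_pow, map_pow]
    ring
  · rintro (i | j) O hO
    · exact mv_sC h u.h1 u.pr1 hg i hO (u.ee O hO i)
    · exact mv_sC h.symm u.h2 u.pr2 hg' j hO fun i => by
        rw [EE_symm]
        exact u.ee O hO i j
  · have e3 : ∀ i j, γ.n1 (cl _ (EE L L' ι ι' i j)) = cl _ (EE L L' ι ι' i j) := fun i j =>
      (n1_cl γ (h.cartE i j)).trans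
        (cl_congr h.gX (mv_cart γ (h.cartE i j)) (h.cartE i j) fun O hO => u.ee O hO i j)
    have e4 : γ.n1 (pull h.gY' h.gX h.maps' D.2.1) = pull h.gY' h.gX h.maps' (g'.n1 D.2.1) :=
      n1_pull h.symm u.h2 u.pr2 _
    change γ.n1 (pull h.gY h.gX h.maps D.1 + pull h.gY' h.gX h.maps' D.2.1 -
      ∑ i, ∑ j, D.2.2 i j • cl _ (EE L L' ι ι' i j)) =
      pull h.gY h.gX h.maps (g.n1 D.1) + pull h.gY' h.gX h.maps' (g'.n1 D.2.1) -
      ∑ i, ∑ j, D.2.2 i j • cl _ (EE L L' ι ι' i j)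
    simp only [map_sub, map_add, map_sum, map_smul, e3, e4, n1_pull h u.h1 u.pr1]

theorem dv_stmt : DvStmt := by
  intro k M M' K Λ Λ' κ κ' n n' _ _ _ _ _ _ _ _ _ _ _ L L' ι ι' v e h
  refine ⟨fun D hD => ?_, ?_, ?_, fun x hx => eL h hx,
    fun x hx => Set.mem_of_eq_of_mem (h.phi_symm (0, x, 0)).symm (eL h.symm hx), fun i j => ?_,
    fun i => ?_⟩
  · exact sub_mem (add_mem (pull_mem h hD.1) (pull_mem h.symm hD.2.1))
      (sum_mem fun i _ => sum_mem fun j _ => (hD.2.2 i j).smul_mem (cl_mem (h.cartE i j)))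
  · exact eq_top_iff.2 (span_cl.ge.trans (Submodule.span_mono AddSubgroup.subset_closure))
  · rintro (i | j)
    exacts [cC h i, (cC h.symm j).trans (h.phi_symm (stW L.nd L'.nd (.inr j)))]
  · exact Set.mem_of_eq_of_mem (cE h i j) (cl_eff (h.cartE i j) fun O hO => h.em hO i j)
  · refine cl_eff (h.cartN i) fun O hO => ?_
    rcases i with i | j
    exacts [(h.rC hO i).1, (h.symm.rC hO j).1]

end Pool.Agent.MP_20d318_ag.KK
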