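import Pool.Agent.MP_20d318_ag.KK.ESpec

/-! Row ECQ: the Legendre form. -/

set_option autoImplicit false
set_option linter.unusedSectionVars false

namespace Pool.Agent.MP_20d318_ag.KK

open Polynomial

namespace Ecq

variable {k₁ N : Type} [Field k₁] [Field N] [Algebra k₁ N]

theorem mv {s s' : N} (hs : Transcendental k₁ s) (top : IntermediateField.adjoin k₁ {s} = ⊤)
    (h : s ∈ IntermediateField.adjoin k₁ {s'}) :
    Transcendental k₁ s' ∧ IntermediateField.adjoin k₁ {s'} = ⊤ := by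
  refine ⟨fun h' => hs ?_, ?_⟩
  · have := IntermediateField.isAlgebraic_adjoin_simple h'.isIntegral
    exact IntermediateField.isAlgebraic_iff.1 (this.isAlgebraic ⟨s, h⟩)
  · rw [eq_top_iff, ← top]
    exact IntermediateField.adjoin_simple_le_iff.2 h

/-- The conclusion. -/
def Leg (k₁ : Type) {N : Type} [Field k₁] [Field N] [Algebra k₁ N] (ψ : N) : Prop :=
  ∃ (z r : N) (l : k₁), Transcendental k₁ z ∧ IntermediateField.adjoin k₁ {z} = ⊤ ∧ r ≠ 0 ∧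
    ψ = r ^ 2 * aeval z (X * (X - 1) * (X - C l)) ∧ l ≠ 0 ∧ l ≠ 1

theorem three [IsAlgClosed k₁] {ψ s r : N} {c a₁ a₂ a₃ : k₁} (hs : Transcendental k₁ s)
    (top : IntermediateField.adjoin k₁ {s} = ⊤) (hr : r ≠ 0) (hc : c ≠ 0) (h12 : a₁ ≠ a₂)
    (h13 : a₁ ≠ a₃) (h23 : a₂ ≠ a₃) (h : ψ = r ^ 2 * (algebraMap k₁ N c *
      ((s - algebraMap k₁ N a₁) * (s - algebraMap k₁ N a₂) * (s - algebraMap k₁ N a₃)))) :
    Leg k₁ ψ := by
  have e0 : a₂ - a₁ ≠ 0 := sub_ne_zero.2 h12.symm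
  have e1 : algebraMap k₁ N a₂ - algebraMap k₁ N a₁ ≠ 0 := by
    rw [← map_sub]; exact (_root_.map_ne_zero _).2 e0
  obtain ⟨q, hq⟩ := IsAlgClosed.exists_eq_mul_self (c * (a₂ - a₁) ^ 3)
  have q0 : q ≠ 0 := by
    rintro rfl
    exact mul_ne_zero hc (pow_ne_zero 3 e0) (by rw [hq, mul_zero])
  have hq' := congrArg (algebraMap k₁ N) hq
  rw [map_mul, map_mul, map_pow, map_sub] at hq'
  obtain ⟨z, hz⟩ : ∃ z, z = (s - algebraMap k₁ N a₁) / (algebraMap k₁ N a₂ - algebraMap k₁ N a₁) :=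
    ⟨_, rfl⟩
  have hsz : s = algebraMap k₁ N (a₂ - a₁) * z + algebraMap k₁ N a₁ := by
    rw [hz, map_sub]; field_simp; ring
  have m := mv (s' := z) hs top (by
    rw [hsz]
    exact add_mem (mul_mem (IntermediateField.algebraMap_mem _ _)
      (IntermediateField.mem_adjoin_simple_self _ _)) (IntermediateField.algebraMap_mem _ _))
  refine ⟨z, r * algebraMap k₁ N q, (a₃ - a₁) / (a₂ - a₁), m.1, m.2,
    mul_ne_zero hr ((_root_.map_ne_zero _).2 q0), ?_, div_ne_zero (sub_ne_zero.2 h13.symm) e0, ?_⟩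
  · rw [h, mul_pow, pow_two (algebraMap k₁ N q), ← hq', hsz]
    simp only [map_mul, map_sub, aeval_X, aeval_C, map_one, map_div₀]
    field_simp
    ring
  · rw [Ne, div_eq_one_iff_eq e0, sub_left_inj]
    exact h23.symm

theorem four [IsAlgClosed k₁] {ψ s r : N} {c a₁ a₂ a₃ a₄ : k₁} (hs : Transcendental k₁ s)
    (top : IntermediateField.adjoin k₁ {s} = ⊤) (hr : r ≠ 0) (hc : c ≠ 0) (h12 : a₁ ≠ a₂)
    (h13 : a₁ ≠ a₃) (h23 : a₂ ≠ a₃) (h14 : a₁ ≠ a₄) (h24 : a₂ ≠ a₄) (h34 : a₃ ≠ a₄)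
    (h : ψ = r ^ 2 * (algebraMap k₁ N c * ((s - algebraMap k₁ N a₁) * (s - algebraMap k₁ N a₂) *
      (s - algebraMap k₁ N a₃) * (s - algebraMap k₁ N a₄)))) : Leg k₁ ψ := by
  have s0 : s - algebraMap k₁ N a₄ ≠ 0 := fun e =>
    hs (sub_eq_zero.1 e ▸ isAlgebraic_algebraMap a₄)
  have ne : ∀ {a b : k₁}, a ≠ b → algebraMap k₁ N a - algebraMap k₁ N b ≠ 0 := fun e => by
    rw [← map_sub]; exact (_root_.map_ne_zero _).2 (sub_ne_zero.2 e)
  have m := mv (s' := (s - algebraMap k₁ N a₄)⁻¹) hs top (by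
    have : s = (s - algebraMap k₁ N a₄)⁻¹⁻¹ + algebraMap k₁ N a₄ := by simp
    conv_rhs => rw [this]
    exact add_mem (inv_mem (IntermediateField.mem_adjoin_simple_self _ _))
      (IntermediateField.algebraMap_mem _ _))
  have inj : ∀ {a b : k₁}, a ≠ b → (a - a₄)⁻¹ ≠ (b - a₄)⁻¹ := fun e k =>
    e (sub_left_inj.1 (inv_inj.1 k))
  refine three (r := r * (s - algebraMap k₁ N a₄) ^ 2)
    (c := c * ((a₄ - a₁) * (a₄ - a₂) * (a₄ - a₃))) m.1 m.2 (mul_ne_zero hr (pow_ne_zero 2 s0))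
    (mul_ne_zero hc (mul_ne_zero (mul_ne_zero (sub_ne_zero.2 h14.symm) (sub_ne_zero.2 h24.symm))
      (sub_ne_zero.2 h34.symm))) (inj h12) (inj h13) (inj h23) ?_
  have n1 := ne h14
  have n2 := ne h24
  have n3 := ne h34
  rw [h]
  simp only [map_mul, map_sub, map_inv₀]
  field_simp
  ring

theorem leg [IsAlgClosed k₁] {ψ s r : N} {g : k₁[X]} (hs : Transcendental k₁ s)
    (top : IntermediateField.adjoin k₁ {s} = ⊤) (hr : r ≠ 0) (h : ψ = r ^ 2 * aeval s g)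
    (hg : g.Separable) (hd : g.natDegree = 3 ∨ g.natDegree = 4) : Leg k₁ ψ := by
  have c0 : g.leadingCoeff ≠ 0 := leadingCoeff_ne_zero.2 hg.ne_zero
  have hc : Multiset.card g.roots = g.natDegree := IsAlgClosed.card_roots_eq_natDegree
  have e := C_leadingCoeff_mul_prod_multiset_X_sub_C hc
  have nd := nodup_roots hg
  rw [← e] at h
  rcases hd with d | d
  · obtain ⟨a₁, a₂, a₃, k⟩ := Multiset.card_eq_three.1 (hc.trans d)
    rw [k] at h nd
    simp only [Multiset.insert_eq_cons, Multiset.nodup_cons, Multiset.mem_cons,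
      Multiset.mem_singleton, not_or] at nd
    refine three hs top hr c0 nd.1.1 nd.1.2 nd.2.1 (h.trans ?_)
    simp [mul_assoc]
  · obtain ⟨a₁, a₂, a₃, a₄, k⟩ := Multiset.card_eq_four.1 (hc.trans d)
    rw [k] at h nd
    simp only [Multiset.insert_eq_cons, Multiset.nodup_cons, Multiset.mem_cons,
      Multiset.mem_singleton, not_or] at nd
    refine four hs top hr c0 nd.1.1 nd.1.2.1 nd.2.1.1 nd.1.2.2 nd.2.1.2 nd.2.2.1 (h.trans ?_)
    simp [mul_assoc]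

end Ecq

theorem ecq_stmt : EcqStmt := by
  rintro k M _ _ _ φ ⟨k₁, N, _, _, _, _, _, _, _, τ, s, r, g, h, hg, hd⟩
  obtain ⟨z, r', l, h1, h2, h3, h4, h5, h6⟩ := Ecq.leg h.tr h.top h.ne h.eq hg hd
  exact ⟨k₁, N, _, _, _, _, _, inferInstance, τ, z, r', l, ⟨h1, h2, h3, h4, h.alg⟩, h5, h6⟩

end Pool.Agent.MP_20d318_ag.KK
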