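import Pool.Agent.MP_20d318_ag.KK.ESpec

/-! The branch curve on a ruled surface is a quartic over the base. -/

set_option autoImplicit false
set_option linter.unusedSectionVars false

namespace Pool.Agent.MP_20d318_ag.KK

open Pool.Agent.MP_fd6584_ag.Fn Pool.Agent.CBk Polynomial
open Pool.Agent.MP_fd6584_ag.AG hiding deg_inv deg_congr deg_of_unit deg_mul deg_prod deg_zpow
  deg_eq_zero deg_nonneg deg_div deg_pow
open Pool.Agent.MP_20d318_ag.CH (MW cb Der)

namespace Ecr

section loc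

variable {k F M : Type} [Field k] [Field F] [Field M] [Algebra k F] [Algebra k M] [Algebra F M]
  [IsScalarTower k F M] {w : M} {π : F[X]}

variable (k) in
/-- The local ring of `F[w]` at the prime `π`. -/
def loc (w : M) (hπ : Prime π) : Subalgebra k M where
  carrier := {f | ∃ A B : F[X], ¬ π ∣ B ∧ f * aeval w B = aeval w A}
  mul_mem' := by
    rintro f f' ⟨A, B, h, e⟩ ⟨A', B', h', e'⟩
    exact ⟨A * A', B * B', hπ.not_dvd_mul h h', by rw [map_mul, map_mul, ← e, ← e']; ring⟩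
  add_mem' := by
    rintro f f' ⟨A, B, h, e⟩ ⟨A', B', h', e'⟩
    exact ⟨A * B' + A' * B, B * B', hπ.not_dvd_mul h h', by
      rw [map_add, map_mul, map_mul, map_mul, ← e, ← e']; ring⟩
  algebraMap_mem' c := ⟨C (algebraMap k F c), 1, hπ.not_dvd_one, by
    rw [map_one, mul_one, aeval_C, ← IsScalarTower.algebraMap_apply]⟩

theorem poly_mem (hπ : Prime π) (A : F[X]) : aeval w A ∈ loc k w hπ :=
  ⟨A, 1, hπ.not_dvd_one, by rw [map_one, mul_one]⟩

theorem ne0 (tr : Transcendental F w) {B : F[X]} (h : B ≠ 0) : aeval w B ≠ 0 :=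
  fun e => h (transcendental_iff.1 tr B e)

theorem unit (tr : Transcendental F w) (hπ : Prime π) {B : F[X]} (h : ¬ π ∣ B) :
    IsU (loc k w hπ) (aeval w B) := by
  have h0 : aeval w B ≠ 0 := ne0 tr fun e => h (e ▸ dvd_zero π)
  exact ⟨h0, poly_mem hπ B, 1, B, h, by rw [map_one, inv_mul_cancel₀ h0]⟩

theorem pi_mx (tr : Transcendental F w) (hπ : Prime π) : aeval w π ∈ mx (loc k w hπ) := by
  refine ⟨poly_mem hπ π, fun ⟨h0, _, A, B, h, e⟩ => h ⟨A, transcendental_iff_injective.1 tr ?_⟩⟩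
  change aeval w B = aeval w (π * A)
  rw [map_mul, ← e, mul_inv_cancel_left₀ h0]

theorem red (tr : Transcendental F w) (top : IntermediateField.adjoin F {w} = ⊤) (f : M) :
    ∃ a b : F[X], IsRelPrime a b ∧ b ≠ 0 ∧ f * aeval w b = aeval w a := by
  obtain ⟨A, B, e⟩ := (IntermediateField.mem_adjoin_simple_iff F (α := w) f).1
    (by rw [top]; trivial)
  rcases eq_or_ne B 0 with rfl | hB
  · exact ⟨0, 1, isRelPrime_one_right, one_ne_zero, by simp [e]⟩
  obtain ⟨a, b, c, h, rfl, rfl⟩ := UniqueFactorizationMonoid.exists_reduced_factors' A B hB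
  have h1 := ne0 tr (left_ne_zero_of_mul hB)
  have h2 := ne0 tr (right_ne_zero_of_mul hB)
  refine ⟨a, b, h, right_ne_zero_of_mul hB, ?_⟩
  rw [e, map_mul, map_mul, mul_div_mul_left _ _ h1, div_mul_cancel₀ _ h2]

theorem isVal (tr : Transcendental F w) (top : IntermediateField.adjoin F {w} = ⊤) (hπ : Prime π) :
    IsVal (loc k w hπ) := fun f => by
  obtain ⟨a, b, h, -, e⟩ := red tr top f
  by_cases hb : π ∣ b
  · have ha : ¬ π ∣ a := fun ha => hπ.not_isUnit (h ha hb)
    have h0 : f ≠ 0 := fun h0 => (unit (k := k) tr hπ ha).1 (by rw [← e, h0, zero_mul])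
    exact Or.inr ⟨b, a, ha, by rw [← e, inv_mul_cancel_left₀ h0]⟩
  · exact Or.inl ⟨a, b, hb, e⟩

theorem poly (tr : Transcendental F w) (top : IntermediateField.adjoin F {w} = ⊤) {f : M}
    (hf : ∀ (π : F[X]) (hπ : Prime π), f ∈ loc k w hπ) : ∃ g : F[X], f = aeval w g := by
  obtain ⟨a, b, h, hb, e⟩ := red tr top f
  have hu : IsUnit b := by
    by_contra hn
    obtain ⟨π, h1, h2⟩ := WfDvdMonoid.exists_irreducible_factor hn hb
    obtain ⟨A, B, h3, e'⟩ := hf π h1.prime
    have h4 : a * B = A * b := transcendental_iff_injective.1 tr (by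
      change aeval w (a * B) = aeval w (A * b)
      rw [map_mul, map_mul, ← e, ← e']; ring)
    exact h1.not_isUnit (h ((h1.prime.dvd_or_dvd (h4 ▸ h2.mul_left A)).resolve_right h3) h2)
  obtain ⟨c, hc⟩ := hu.exists_right_inv
  exact ⟨a * c, by rw [map_mul, ← e, mul_assoc, ← map_mul, hc, map_one, mul_one]⟩

theorem stable (tr : Transcendental F w) (hπ : Prime π) (δ : Derivation k M M)
    (hF : ∀ c : F, ∃ c' : F, δ (algebraMap F M c) = algebraMap F M c') (hw : δ w ∈ loc k w hπ)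
    {a : M} (ha : a ∈ loc k w hπ) : δ a ∈ loc k w hπ := by
  have h1 : ∀ A : F[X], δ (aeval w A) ∈ loc k w hπ := fun A => by
    induction A using Polynomial.induction_on with
    | C c =>
      obtain ⟨c', e⟩ := hF c
      rw [aeval_C, e, ← aeval_C w]
      exact poly_mem hπ _
    | add p q hp hq => rw [map_add, map_add]; exact add_mem hp hq
    | monomial n c h =>
      rw [pow_succ, ← mul_assoc, map_mul, aeval_X, Derivation.leibniz, smul_eq_mul, smul_eq_mul]
      exact add_mem (mul_mem (poly_mem hπ _) hw)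
        (mul_mem (by simpa using poly_mem (k := k) (w := w) hπ X) h)
  obtain ⟨A, B, h, e⟩ := id ha
  have h2 := unit (k := k) tr hπ h
  have h3 : δ a = (δ (aeval w A) - a * δ (aeval w B)) / aeval w B := by
    rw [eq_div_iff h2.1, ← e, Derivation.leibniz, smul_eq_mul, smul_eq_mul]; ring
  rw [h3]
  exact h2.div_mem (sub_mem (h1 A) (mul_mem ha (h1 B)))

end loc

variable {k M : Type} [Field k] [Field M] [Algebra k M] {T : Set (Subalgebra k M)} {t w φ : M}
  {D₁ D₂ : Derivation k M M}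

theorem base (δ : Derivation k M M) (h : δ t ∈ IntermediateField.adjoin k {t})
    (c : IntermediateField.adjoin k {t}) : ∃ c' : IntermediateField.adjoin k {t},
      δ (algebraMap _ M c) = algebraMap _ M c' := by
  suffices H : ∀ x ∈ IntermediateField.adjoin k {t}, δ x ∈ IntermediateField.adjoin k {t} from
    ⟨⟨_, H c c.2⟩, rfl⟩
  intro x hx
  induction hx using IntermediateField.adjoin_induction with
  | mem x hx => exact hx ▸ h
  | algebraMap r => rw [Derivation.map_algebraMap]; exact zero_mem _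
  | add x y _ _ hx hy => rw [map_add]; exact add_mem hx hy
  | inv x a hx =>
    rw [Derivation.leibniz_inv, smul_eq_mul]
    exact mul_mem (neg_mem (pow_mem (inv_mem a) 2)) hx
  | mul x y a b hx hy =>
    rw [Derivation.leibniz, smul_eq_mul, smul_eq_mul]
    exact add_mem (mul_mem a hy) (mul_mem b hx)

/-- Valuation rings that contain the base field are points of the surface. -/
theorem mem_T (hT : Good T) (tri : ∀ R ∈ T, ¬ Dim R 0 → R = ⊤ ∨ ∃ P : Place k M, R = plO P)
    (ht : Transcendental k t) (h : ∀ O ∈ T, t ∈ O ∨ t⁻¹ ∈ O) {V : Subalgebra k M} (hV : IsVal V)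
    (hn : V ≠ ⊤) (hb : ∀ x ∈ IntermediateField.adjoin k {t}, x ∈ V) : V ∈ T := by
  obtain ⟨O, hO, hd⟩ := hT.cpl V hV
  have key : ∀ s ∈ O, s ∈ IntermediateField.adjoin k {t} → Transcendental k s → ¬ Dim O 0 := by
    intro s hs hs' tr hD
    have h1 : AlgebraicIndependent k fun _ : Fin 1 => s :=
      algebraicIndependent_unique_type_iff.2 tr
    refine hD ⟨fun _ => s, fun _ => hs, fun p hp => ?_⟩
    have h2 : ∀ S : Subalgebra k M, s ∈ S → MvPolynomial.aeval (fun _ : Fin (0 + 1) => s) p ∈ S :=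
      fun S hS => Algebra.adjoin_le (S := S) (s := Set.range fun _ : Fin (0 + 1) => s)
        (by rintro _ ⟨i, rfl⟩; exact hS)
        (by rw [Algebra.adjoin_range_eq_range_aeval]; exact ⟨p, rfl⟩)
    have h3 := h2 (IntermediateField.adjoin k {t}).toSubalgebra hs'
    exact hd.2 _ (h2 O hs) ⟨fun e => hp (h1.eq_zero_of_aeval_eq_zero p e), hb _ h3,
      hb _ (inv_mem h3)⟩
  have ht' := IntermediateField.mem_adjoin_simple_self k t
  have hD : ¬ Dim O 0 := (h O hO).elim (fun h1 => key t h1 ht' ht)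
    fun h1 => key t⁻¹ h1 (inv_mem ht') fun h2 => ht (IsAlgebraic.inv_iff.1 h2)
  rcases tri O hO hD with rfl | ⟨P, rfl⟩
  · exact absurd (top_le_iff.1 hd.1) hn
  · exact IsVal.eq_of_dom (plO_isVal P) hd ▸ hO

theorem core (hT : ∀ V : Subalgebra k M, IsVal V → V ≠ ⊤ →
      (∀ x ∈ IntermediateField.adjoin k {t}, x ∈ V) → V ∈ T)
    (h1 : RS.BiAnti T D₁ D₂ φ) (h2 : RS.SmoothZero T D₁ D₂ φ)
    (tr : Transcendental (IntermediateField.adjoin k {t}) w)
    (top : IntermediateField.adjoin (IntermediateField.adjoin k {t}) {w} = ⊤)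
    (δ₀ δ₁ : Derivation k M M) (a0 : δ₀ t = 1) (b0 : δ₀ w = 0) (a1 : δ₁ t = 0) (b1 : δ₁ w = 1)
    (hj : ∀ a b, RS.jac D₁ D₂ a b = (δ₀ a * δ₁ b - δ₁ a * δ₀ b) * RS.jac D₁ D₂ t w) :
    ∃ g : (IntermediateField.adjoin k {t})[X], Squarefree g ∧
      φ * RS.jac D₁ D₂ t w ^ 2 = aeval w g := by
  have hb : ∀ (π : (IntermediateField.adjoin k {t})[X]) (hπ : Prime π),
      ∀ x ∈ IntermediateField.adjoin k {t}, x ∈ loc k w hπ := fun π hπ x hx => by
    simpa using poly_mem (k := k) (w := w) hπ (C ⟨x, hx⟩)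
  have hm : ∀ (π : (IntermediateField.adjoin k {t})[X]) (hπ : Prime π), loc k w hπ ∈ T :=
    fun π hπ => hT _ (isVal tr top hπ) (fun e => (pi_mx (k := k) tr hπ).2
      (e ▸ isU_top.2 (ne0 tr hπ.ne_zero))) (hb π hπ)
  obtain ⟨g, e⟩ := poly (k := k) tr top (f := φ * RS.jac D₁ D₂ t w ^ 2) fun π hπ =>
    h1 _ (hm π hπ) t (hb π hπ t (IntermediateField.mem_adjoin_simple_self k t)) w
      (by simpa using poly_mem (k := k) (w := w) hπ X)
  refine ⟨g, (squarefree_iff_irreducible_sq_not_dvd_of_exists_irreducible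
    ⟨X, irreducible_X⟩).2 fun π hπ ⟨q, hq⟩ => ?_, e⟩
  obtain ⟨a, ha, b, hb', hn⟩ := h2 _ (hm π hπ.prime)
  have s0 := fun x hx => stable tr hπ.prime δ₀ (base δ₀ (a0 ▸ one_mem _)) (b0 ▸ zero_mem _) (a := x) hx
  have s1 := fun x hx => stable tr hπ.prime δ₁ (base δ₁ (a1 ▸ zero_mem _)) (b1 ▸ one_mem _) (a := x) hx
  have hu := pow_mem (sub_mem (mul_mem (s0 a ha) (s1 b hb')) (mul_mem (s1 a ha) (s0 b hb'))) 2
  refine hn (AddSubmonoid.subset_closure ⟨_, pi_mx tr hπ.prime, _,
    mx_mul_right (mx_mul_right (pi_mx tr hπ.prime) (poly_mem hπ.prime q)) hu, ?_⟩)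
  rw [hj a b, mul_pow, mul_left_comm, e, hq, map_mul, map_mul]
  ring

end Ecr

theorem ecr_stmt : EcrStmt := by
  intro d k M _ _ _ _ _ D₁ D₂ φ T t z hT tri h1 h2 hG h3
  have er : Set.range ![t, z] = {t, z} := by
    simp [Matrix.range_cons, Matrix.range_empty, Set.pair_comm]
  obtain ⟨δ, hδ⟩ := d.ex k M 2 ![t, z] hG.1 (er ▸ hG.2)
  have ch : ∀ (D : Derivation k M M) a, D a = δ a 0 * D t + δ a 1 * D z := fun D a => by
    simpa using d.chain k M M M 2 ![t, z] δ (AlgHom.id k M) D (er ▸ hG.2) hδ a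
  let δ₀ : Derivation k M M := (LinearMap.proj (R := M) (φ := fun _ : Fin 2 => M) 0).compDer δ
  let δ₁ : Derivation k M M := (LinearMap.proj (R := M) (φ := fun _ : Fin 2 => M) 1).compDer δ
  have a0 : δ₀ t = 1 := congrFun (hδ 0) 0
  have b0 : δ₀ z = 0 := congrFun (hδ 1) 0
  have a1 : δ₁ t = 0 := congrFun (hδ 0) 1
  have b1 : δ₁ z = 1 := congrFun (hδ 1) 1
  have hj : ∀ a b, RS.jac D₁ D₂ a b = (δ₀ a * δ₁ b - δ₁ a * δ₀ b) * RS.jac D₁ D₂ t z := fun a b => by
    change _ = (δ a 0 * δ b 1 - δ a 1 * δ b 0) * _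
    unfold RS.jac
    rw [ch D₁ a, ch D₂ a, ch D₁ b, ch D₂ b]
    ring
  have hm := fun V => Ecr.mem_T (t := t) hT tri (hG.1.transcendental 0) h3 (V := V)
  have tr : Transcendental (IntermediateField.adjoin k {t}) z := by
    have := hG.1.transcendental_adjoin (s := {0}) (i := 1) (by simp)
    rw [Set.image_singleton] at this
    exact IntermediateField.transcendental_adjoin_iff.2 this
  have top : IntermediateField.adjoin (IntermediateField.adjoin k {t}) {z} = ⊤ :=
    IntermediateField.restrictScalars_injective k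
      ((IntermediateField.adjoin_simple_adjoin_simple k t z).trans hG.2)
  have z0 : z ≠ 0 := fun e => tr (e ▸ isAlgebraic_zero)
  obtain ⟨g, g1, g2⟩ := Ecr.core hm h1 h2 tr top δ₀ δ₁ a0 b0 a1 b1 hj
  have ej : RS.jac D₁ D₂ t z⁻¹ = -z⁻¹ ^ 2 * RS.jac D₁ D₂ t z := by
    unfold RS.jac
    rw [Derivation.leibniz_inv, Derivation.leibniz_inv, smul_eq_mul, smul_eq_mul]
    ring
  obtain ⟨g', g3, g4⟩ := Ecr.core (w := z⁻¹) hm h1 h2 (fun h => tr (IsAlgebraic.inv_iff.1 h))
    (eq_top_iff.2 (top.ge.trans (IntermediateField.adjoin_simple_le_iff.2 (by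
      simpa using inv_mem (IntermediateField.mem_adjoin_simple_self _ z⁻¹))))) δ₀ ((-z ^ 2) • δ₁) a0
    (by rw [Derivation.leibniz_inv, b0, smul_zero]) (by rw [Derivation.smul_apply, a1, smul_zero])
    (by
      rw [Derivation.smul_apply, Derivation.leibniz_inv, b1, smul_eq_mul, smul_eq_mul]
      field_simp)
    fun a b => by
      rw [hj a b, ej, Derivation.smul_apply, Derivation.smul_apply, smul_eq_mul, smul_eq_mul]
      field_simp
      ring
  refine ⟨_, g, fun e => Ecr.ne0 tr g1.ne_zero (by rw [← g2, e]; simp),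
    PerfectField.separable_iff_squarefree.2 g1, ?_, g2⟩
  have e1 : g * X ^ g'.natDegree = X ^ 4 * g'.reverse := transcendental_iff_injective.1 tr (by
    have : Invertible z⁻¹ := invertibleOfNonzero (inv_ne_zero z0)
    have e2 := eval₂_reverse_mul_pow (algebraMap (IntermediateField.adjoin k {t}) M) z⁻¹ g'
    rw [invOf_eq_inv, inv_inv, ← aeval_def, ← aeval_def, ← g4, ej] at e2
    change aeval z (g * X ^ g'.natDegree) = aeval z (X ^ 4 * g'.reverse)
    rw [map_mul, map_mul, map_pow, map_pow, aeval_X, ← g2,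
      eq_div_of_mul_eq (pow_ne_zero _ (inv_ne_zero z0)) e2, inv_pow z g'.natDegree]
    field_simp)
  have e3 := congrArg natDegree e1
  rw [natDegree_mul_X_pow _ g1.ne_zero, natDegree_X_pow_mul _ (reverse_eq_zero.not.2 g3.ne_zero)]
    at e3
  have e4 := natDegree_eq_reverse_natDegree_add_natTrailingDegree g'
  have e5 : g'.natTrailingDegree < 2 := by
    by_contra hn
    refine not_isUnit_X (g3 X ?_)
    rw [← pow_two, X_pow_dvd_iff]
    exact fun n h => coeff_eq_zero_of_lt_natTrailingDegree (by omega)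
  omega

end Pool.Agent.MP_20d318_ag.KK
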