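import Pool.Agent.MP_20d318_ag.KK.ESpec

/-! Row ECS: the constant extension. -/

set_option autoImplicit false
set_option linter.unusedSectionVars false

namespace Pool.Agent.MP_20d318_ag.KK

open Polynomial

namespace EcsA

theorem core {k k₀ M W : Type} [Field k] [Field k₀] [Field M] [Field W] [IsAlgClosed W]
    [Algebra k k₀] [Algebra k M] [Algebra k₀ M] [Algebra k W] [Algebra k₀ W] [Algebra M W]
    [IsScalarTower k k₀ W] [IsScalarTower k M W] [IsScalarTower k₀ M W] [Algebra.IsAlgebraic M W]
    {φ z J : M} {g : k₀[X]} (hz : Transcendental k₀ z)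
    (top : IntermediateField.adjoin k₀ {z} = ⊤) (hJ : J ≠ 0) (sep : g.Separable)
    (dg : g.natDegree = 3 ∨ g.natDegree = 4) (eq : φ * J ^ 2 = aeval z g) : EQ k φ := by
  let k₁ := algebraicClosure k₀ W
  have : IsScalarTower k k₁ W := IsScalarTower.of_algebraMap_eq fun _ => rfl
  let N := IntermediateField.adjoin k₁ {algebraMap M W z}
  have hm : ∀ m : M, algebraMap M W m ∈ N := fun m => by
    have : m ∈ IntermediateField.adjoin k₀ {z} := top ▸ IntermediateField.mem_top
    induction this using IntermediateField.adjoin_induction with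
    | mem x hx => exact IntermediateField.subset_adjoin _ _ (congrArg _ hx)
    | algebraMap c =>
      rw [← IsScalarTower.algebraMap_apply, IsScalarTower.algebraMap_apply k₀ k₁ W]
      exact N.algebraMap_mem _
    | add x y _ _ a b => rw [map_add]; exact add_mem a b
    | inv x _ a => rw [map_inv₀]; exact inv_mem a
    | mul x y _ _ a b => rw [map_mul]; exact mul_mem a b
  let τ : M →ₐ[k] N :=
    { toFun m := ⟨algebraMap M W m, hm m⟩
      map_one' := Subtype.ext (map_one _)
      map_mul' a b := Subtype.ext (map_mul _ a b)
      map_zero' := Subtype.ext (map_zero _)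
      map_add' a b := Subtype.ext (map_add _ a b)
      commutes' c := Subtype.ext (IsScalarTower.algebraMap_apply k M W c).symm }
  have hτ : ∀ m, (τ m : W) = algebraMap M W m := fun _ => rfl
  have t1 : Transcendental k₁ (algebraMap M W z) :=
    ((transcendental_algebraMap_iff (algebraMap M W).injective).2 hz).extendScalars _
  refine ⟨k₁, N, inferInstance, IsAlgClosure.isAlgClosed k₀, inferInstance, inferInstance,
    inferInstance, inferInstance, inferInstance, τ, τ z, (τ J)⁻¹, g.map (algebraMap k₀ k₁),
    ⟨?_, ?_, inv_ne_zero ((map_ne_zero τ).2 hJ), ?_, fun x => ?_⟩, sep.map,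
    by rwa [natDegree_map]⟩
  · exact (transcendental_algebraMap_iff (algebraMap N W).injective).1 t1
  · apply IntermediateField.lift_injective
    rw [IntermediateField.lift_adjoin_simple, IntermediateField.lift_top]
    rfl
  · have e : (aeval (τ z) (g.map (algebraMap k₀ k₁)) : N) = τ (aeval z g) := by
      apply (algebraMap N W).injective
      rw [← aeval_algebraMap_apply, aeval_map_algebraMap]
      exact aeval_algebraMap_apply W z g
    rw [e, ← eq, map_mul, map_pow, inv_pow, mul_comm (τ φ),
      inv_mul_cancel_left₀ (pow_ne_zero 2 ((map_ne_zero τ).2 hJ))]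
  · obtain ⟨p, p0, hp⟩ := Algebra.IsAlgebraic.isAlgebraic (R := M) (x : W)
    refine ⟨p, p0, (algebraMap N W).injective ?_⟩
    rw [hom_eval₂, map_zero]
    exact hp

end EcsA

theorem ecs_stmt : EcsStmt := by
  rintro k M _ _ _ φ t z ⟨ind, top⟩ ⟨J, g, hJ, sep, dg, eq⟩
  refine EcsA.core (k₀ := IntermediateField.adjoin k {t}) (W := AlgebraicClosure M) (z := z)
    ?_ ?_ hJ sep dg eq
  · rw [IntermediateField.transcendental_adjoin_iff]
    have := ind.transcendental_adjoin (s := {0}) (i := 1) (by simp)
    rwa [Set.image_singleton] at this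
  · apply IntermediateField.restrictScalars_injective k
    rw [IntermediateField.adjoin_simple_adjoin_simple, top, IntermediateField.restrictScalars_top]

end Pool.Agent.MP_20d318_ag.KK
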