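import Pool.Agent.MP_20d318_ag.KK.Spec

/-! Automorphisms of the two factors extend to the field of the next level. -/

set_option autoImplicit false

open scoped TensorProduct

namespace Pool.Agent.MP_20d318_ag.KK

open Pool.Agent.CBk Pool.Agent.CBk.XAlg Polynomial

namespace HombRow

variable {k M M' K : Type} [Field k] [Field M] [Field M'] [Field K] [Algebra k M] [Algebra k M']
  [Algebra k K]

/-- An injective map whose image generates the field identifies it with the fraction field. -/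
theorem frac {B : Type} [CommRing B] [IsDomain B] [Algebra k B] (π : B →ₐ[k] K)
    (hi : Function.Injective π) (ht : IntermediateField.adjoin k (Set.range π) = ⊤) :
    ∃ α : FractionRing B ≃ₐ[k] K, ∀ b, α (algebraMap B (FractionRing B) b) = π b := by
  let j : FractionRing B →ₐ[k] K := IsFractionRing.liftAlgHom hi
  have hj : ∀ b, j (algebraMap B (FractionRing B) b) = π b := fun b =>
    IsFractionRing.lift_algebraMap (g := (π : B →+* K)) hi b
  have hle : IntermediateField.adjoin k (Set.range π) ≤ j.fieldRange := by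
    rw [IntermediateField.adjoin_le_iff]
    rintro _ ⟨b, rfl⟩
    exact ⟨_, hj b⟩
  exact ⟨AlgEquiv.ofBijective j ⟨j.toRingHom.injective, fun z =>
    hle (ht ▸ IntermediateField.mem_top)⟩, hj⟩

/-- Two generating maps with the same kernel differ by an automorphism. -/
theorem twin {B : Type} [CommRing B] [Algebra k B] (π π' : B →ₐ[k] K)
    (h : ∀ b, π b = 0 ↔ π' b = 0) (ht : IntermediateField.adjoin k (Set.range π) = ⊤)
    (ht' : IntermediateField.adjoin k (Set.range π') = ⊤) :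
    ∃ Φ : K ≃ₐ[k] K, ∀ b, Φ (π b) = π' b := by
  let I : Ideal B := RingHom.ker π
  have : I.IsPrime := RingHom.ker_isPrime π
  have key : ∀ p : B →ₐ[k] K, (∀ b, π b = 0 ↔ p b = 0) →
      IntermediateField.adjoin k (Set.range p) = ⊤ →
      ∃ α : FractionRing (B ⧸ I) ≃ₐ[k] K, ∀ b,
        α (algebraMap (B ⧸ I) (FractionRing (B ⧸ I)) (Ideal.Quotient.mk I b)) = p b := by
    intro p hp tp
    let q : (B ⧸ I) →ₐ[k] K := Ideal.Quotient.liftₐ I p fun a ha => (hp a).1 ha
    have hq : ∀ b, q (Ideal.Quotient.mk I b) = p b := fun b => rfl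
    obtain ⟨α, hα⟩ := frac q ((injective_iff_map_eq_zero q).2 fun a ha => by
      obtain ⟨b, rfl⟩ := Ideal.Quotient.mk_surjective a
      exact Ideal.Quotient.eq_zero_iff_mem.2 ((hp b).2 ha)) (by
        rw [eq_top_iff, ← tp]
        exact IntermediateField.adjoin.mono _ _ _ fun _ ⟨b, hb⟩ => ⟨_, (hq b).trans hb⟩)
    exact ⟨α, fun b => (hα _).trans (hq b)⟩
  obtain ⟨α, a1⟩ := key π (fun _ => Iff.rfl) ht
  obtain ⟨β, b1⟩ := key π' h ht'
  exact ⟨α.symm.trans β, fun b => by rw [← a1, AlgEquiv.trans_apply, α.symm_apply_apply, b1]⟩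

/-- The kernel of the evaluation map. -/
theorem ker {ι : M →ₐ[k] K} {ι' : M' →ₐ[k] K} {v : K} {e : ℕ} (he : e = 1 ∨ e = 2) (dj : Dj ι ι')
    (ns : e = 2 → ¬ Rt ι ι' v) {c : M ⊗[k] M'} (hc : v ^ e = pm ι ι' c) (q : (M ⊗[k] M')[X]) :
    ev (pm ι ι') v q = 0 ↔ X ^ e - C c ∣ q := by
  have hm : ev (pm ι ι') v (X ^ e - C c) = 0 := by
    rw [map_sub, map_pow, ev_X, ev_C, hc, sub_self]
  refine ⟨fun h => ?_, fun ⟨s, hs⟩ => by rw [hs, map_mul, hm, zero_mul]⟩
  have : Nontrivial (M ⊗[k] M') := (pm ι ι').toRingHom.domain_nontrivial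
  have e0 : e ≠ 0 := by omega
  have mo : (X ^ e - C c).Monic := monic_X_pow_sub_C c e0
  rw [← modByMonic_eq_zero_iff_dvd mo]
  have h1 : ev (pm ι ι') v (q %ₘ (X ^ e - C c)) = 0 := by
    have := congrArg (ev (pm ι ι') v) (modByMonic_add_div q (X ^ e - C c))
    rwa [map_add, map_mul, hm, zero_mul, add_zero, h] at this
  have h2 : (q %ₘ (X ^ e - C c)).degree < e := by
    have := degree_modByMonic_lt q mo
    rwa [degree_X_pow_sub_C (Nat.pos_of_ne_zero e0)] at this
  generalize q %ₘ (X ^ e - C c) = s at h1 h2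
  have z : ∀ a, pm ι ι' a = 0 → a = 0 := (injective_iff_map_eq_zero _).1 dj
  rcases he with rfl | rfl
  · rw [eq_C_of_degree_le_zero (p := s) (Nat.WithBot.lt_one_iff_le_zero.1 h2)] at h1 ⊢
    rw [ev_C] at h1
    rw [z _ h1, map_zero]
  · have h3 : s.degree ≤ 1 := by
      rw [degree_lt_iff_coeff_zero] at h2
      exact (degree_le_iff_coeff_zero s 1).2 fun m hm => h2 m (by exact_mod_cast hm)
    rw [eq_X_add_C_of_degree_le_one h3] at h1 ⊢
    rw [map_add, map_mul, ev_C, ev_C, ev_X] at h1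
    have mem : ∀ a, pm ι ι' a ∈ Bq ι ι' ⊤ ⊤ ∅ := fun a => Bq_top ι ι' ▸ ⟨a, rfl⟩
    have b0 : pm ι ι' (s.coeff 1) = 0 := by_contra fun b0 => ns rfl
      ⟨_, neg_mem (mem (s.coeff 0)), _, mem (s.coeff 1), b0, by
        rw [eq_div_iff b0]
        linear_combination h1⟩
    rw [b0, zero_mul, zero_add] at h1
    rw [z _ b0, z _ h1]
    simp

/-- The evaluation map generates the field. -/
theorem gen {ι : M →ₐ[k] K} {ι' : M' →ₐ[k] K} {v : K}
    (h : IntermediateField.adjoin k (Set.range ι ∪ (Set.range ι' ∪ {v})) = ⊤) :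
    IntermediateField.adjoin k (Set.range (ev (pm ι ι') v)) = ⊤ := by
  rw [eq_top_iff, ← h]
  refine IntermediateField.adjoin.mono _ _ _ ?_
  rintro _ (⟨a, rfl⟩ | ⟨a, rfl⟩ | rfl)
  · exact ⟨C (a ⊗ₜ[k] 1), by rw [ev_C, pm_tmul, map_one, mul_one]⟩
  · exact ⟨C (1 ⊗ₜ[k] a), by rw [ev_C, pm_tmul, map_one, one_mul]⟩
  · exact ⟨X, ev_X _ _⟩

end HombRow

open HombRow in
theorem homb_stmt : HombStmt := by
  intro k M M' K _ _ _ _ _ _ _ _ _ ι ι' φ φ' v e σ σ' r r' h fld r0 r0' hσ hσ'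
  set j := ι.comp (σ : M →ₐ[k] M) with hj
  set j' := ι'.comp (σ' : M' →ₐ[k] M') with hj'
  set t : K := (ι' r' / ι r) ^ (3 - e) with ht
  have i0 : ι r ≠ 0 := (map_ne_zero ι).2 r0
  have i0' : ι' r' ≠ 0 := (map_ne_zero ι').2 r0'
  have p0 : ι φ ≠ 0 := (map_ne_zero ι).2 h.ne
  have t0 : t ≠ 0 := pow_ne_zero _ (div_ne_zero i0' i0)
  have rg : Set.range j = Set.range ι := σ.surjective.range_comp ι
  have rg' : Set.range j' = Set.range ι' := σ'.surjective.range_comp ι'
  have bq : Bq j j' ⊤ ⊤ ∅ = Bq ι ι' ⊤ ⊤ ∅ := by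
    rw [← Bq_top, ← Bq_top, pm_range, pm_range, rg, rg']
  have dj : Dj j j' := by
    have e1 : ∀ z, pm j j' z = pm ι ι' (Algebra.TensorProduct.congr σ σ' z) := fun z => by
      induction z with
      | zero => simp
      | tmul a b => rfl
      | add a b ha hb => rw [map_add, map_add, map_add, ha, hb]
    exact fun x y q => (Algebra.TensorProduct.congr σ σ').injective (h.dj (by rw [← e1, ← e1, q]))
  have rt : Rt ι ι' (ι' r' / ι r) :=
    ⟨_, Bq_r (a := r') trivial, _, Bq_l (a := r) trivial, i0, rfl⟩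
  have ns : e = 2 → ¬ Rt j j' (t * v) := fun q w => fld.ns q (by
    have w1 : Rt ι ι' (t * v) := by rwa [Rt, bq] at w
    have w2 := rt.inv.mul w1
    rwa [ht, q, show 3 - 2 = 1 from rfl, pow_one, inv_mul_cancel_left₀ (div_ne_zero i0' i0)] at w2)
  have c1 : v ^ e = pm ι ι' (φ⁻¹ ⊗ₜ[k] φ') := by
    rw [pm_tmul, ← h.eq, map_inv₀]
    field_simp
  have c2 : (t * v) ^ e = pm j j' (φ⁻¹ ⊗ₜ[k] φ') := by
    have e1 : j φ = ι φ * ι r ^ 2 := by rw [← map_pow, ← map_mul, ← hσ]; rfl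
    have e2 : j' φ' = ι' φ' * ι' r' ^ 2 := by rw [← map_pow, ← map_mul, ← hσ']; rfl
    rw [pm_tmul, map_inv₀, e1, e2, ← h.eq, ht]
    rcases h.he with rfl | rfl <;> norm_num <;> field_simp
  have top : IntermediateField.adjoin k (Set.range j ∪ (Set.range j' ∪ {t * v})) = ⊤ := by
    rw [eq_top_iff, ← h.top, IntermediateField.adjoin_le_iff, rg, rg']
    rintro a (q | q | rfl)
    · exact IntermediateField.subset_adjoin _ _ (Or.inl q)
    · exact IntermediateField.subset_adjoin _ _ (Or.inr (Or.inl q))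
    · have m0 : ∀ F : IntermediateField k K, ι' r' ∈ F → ι r ∈ F → t ∈ F := fun F x y =>
        pow_mem (div_mem x y) _
      have m1 := m0 (IntermediateField.adjoin k (Set.range ι ∪ (Set.range ι' ∪ {t * a})))
        (IntermediateField.subset_adjoin _ _ (Or.inr (Or.inl ⟨r', rfl⟩)))
        (IntermediateField.subset_adjoin _ _ (Or.inl ⟨r, rfl⟩))
      have m2 := mul_mem (inv_mem m1)
        (IntermediateField.subset_adjoin k _ (Or.inr (Or.inr rfl)) : t * a ∈ _)
      rwa [inv_mul_cancel_left₀ t0] at m2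
  obtain ⟨Φ, hΦ⟩ := twin (ev (pm ι ι') v) (ev (pm j j') (t * v))
    (fun q => (ker h.he h.dj fld.ns c1 q).trans (ker h.he dj ns c2 q).symm) (gen h.top) (gen top)
  refine ⟨Φ, fun m => ?_, fun m => ?_, ?_⟩
  · have := hΦ (C (m ⊗ₜ[k] 1))
    rwa [ev_C, ev_C, pm_tmul, pm_tmul, map_one, map_one, mul_one, mul_one] at this
  · have := hΦ (C (1 ⊗ₜ[k] m))
    rwa [ev_C, ev_C, pm_tmul, pm_tmul, map_one, map_one, one_mul, one_mul] at this
  · have := hΦ X
    rwa [ev_X, ev_X] at this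

end Pool.Agent.MP_20d318_ag.KK
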