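import Pool.Agent.MP_20d318_ag.KK.ESpec
import Pool.Agent.MP_20d318_ag.KK.Homb
import Mathlib.FieldTheory.RatFunc.IntermediateField

/-! The tangent lines of a plane sextic cover the plane. -/

set_option autoImplicit false

namespace Pool.Agent.MP_20d318_ag.KK

open Pool.Agent.CBk Polynomial

namespace EctRow

variable {k k₁ M N : Type} [Field k] [Field k₁] [Field M] [Field N] [Algebra k k₁] [Algebra k M]
  [Algebra k N]

/-- Scaling the arguments of a form. -/
theorem hom {σ : Type} {G : MvPolynomial σ k} {n : ℕ} (h : G.IsHomogeneous n) (s : N) (v : σ → N) :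
    MvPolynomial.aeval (fun i => s * v i) G = s ^ n * MvPolynomial.aeval v G := by
  rw [MvPolynomial.aeval_def, MvPolynomial.aeval_def, MvPolynomial.eval₂_eq,
    MvPolynomial.eval₂_eq, Finset.mul_sum]
  refine Finset.sum_congr rfl fun d hd => ?_
  have e : ∑ i ∈ d.support, d i = n := by
    have := h (MvPolynomial.mem_support_iff.1 hd)
    rw [← this, Finsupp.weight_apply, Finsupp.sum]
    simp
  simp only [mul_pow]
  rw [Finset.prod_mul_distrib, Finset.prod_pow_eq_pow_sum, e]
  ring

/-- Extension of an injective map to the fraction field. -/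
theorem lift {B : Type} [CommRing B] [IsDomain B] [Algebra k B] (π : B →ₐ[k] M) (π' : B →ₐ[k] N)
    (hi : Function.Injective π) (ht : IntermediateField.adjoin k (Set.range π) = ⊤)
    (hi' : Function.Injective π') : ∃ τ : M →ₐ[k] N, ∀ b, τ (π b) = π' b := by
  obtain ⟨α, hα⟩ := HombRow.frac π hi ht
  let j : FractionRing B →ₐ[k] N := IsFractionRing.liftAlgHom hi'
  have hj : ∀ b, j (algebraMap B (FractionRing B) b) = π' b := fun b =>
    IsFractionRing.lift_algebraMap (g := (π' : B →+* N)) hi' b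
  exact ⟨j.comp α.symm.toAlgHom, fun b => by
    rw [← hα, ← hj]
    exact congrArg j (α.symm_apply_apply _)⟩

/-- An embedding of the rational function field in two variables. -/
theorem emb {x y : M} (h : RS.Gen k x y) {a b : N} (i : AlgebraicIndependent k ![a, b]) :
    ∃ τ : M →ₐ[k] N, τ x = a ∧ τ y = b := by
  obtain ⟨τ, hτ⟩ := lift (MvPolynomial.aeval ![x, y] : MvPolynomial (Fin 2) k →ₐ[k] M)
    (MvPolynomial.aeval ![a, b]) h.1 (by
      rw [eq_top_iff, ← h.2]
      refine IntermediateField.adjoin.mono _ _ _ ?_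
      rintro _ (rfl | rfl)
      · exact ⟨MvPolynomial.X 0, MvPolynomial.aeval_X _ _⟩
      · exact ⟨MvPolynomial.X 1, MvPolynomial.aeval_X _ _⟩) i
  have h0 := hτ (MvPolynomial.X 0)
  have h1 := hτ (MvPolynomial.X 1)
  rw [MvPolynomial.aeval_X, MvPolynomial.aeval_X] at h0 h1
  exact ⟨τ, h0, h1⟩

/-- Algebraicity over the image. -/
theorem alg (τ : M →ₐ[k] N) {x y : M} (i : AlgebraicIndependent k ![τ x, τ y])
    (h : Algebra.trdeg k N ≤ 2) (z : N) : ∃ p : M[X], p ≠ 0 ∧ p.eval₂ (τ : M →+* N) z = 0 := by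
  have tb := i.isTranscendenceBasis_of_trdeg_le_of_finite (by simpa using h)
  obtain ⟨p, p0, hp⟩ := tb.isAlgebraic.isAlgebraic z
  have le : Algebra.adjoin k (Set.range ![τ x, τ y]) ≤ τ.range := by
    refine Algebra.adjoin_le ?_
    rintro _ ⟨n, rfl⟩
    fin_cases n
    exacts [⟨x, rfl⟩, ⟨y, rfl⟩]
  let e := AlgEquiv.ofInjective τ τ.toRingHom.injective
  let ρ : Algebra.adjoin k (Set.range ![τ x, τ y]) →+* M :=
    (e.symm.toAlgHom.comp (Subalgebra.inclusion le)).toRingHom
  have hρ : ∀ c, τ (ρ c) = c := fun c =>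
    congrArg Subtype.val (e.apply_symm_apply (Subalgebra.inclusion le c))
  refine ⟨p.map ρ, (Polynomial.map_ne_zero_iff fun c c' q => Subtype.ext ?_).2 p0, ?_⟩
  · rw [← hρ, ← hρ, q]
  · rw [eval₂_map, ← hp, aeval_def]
    congr 1
    exact RingHom.ext hρ

theorem trd {t : k₁} (h : Algebra.IsAlgebraic (Algebra.adjoin k {t}) k₁) :
    Algebra.trdeg k (RatFunc k₁) ≤ 2 := by
  have h1 : Algebra.trdeg k k₁ ≤ 1 := by
    simpa using Algebra.IsAlgebraic.trdeg_le_cardinalMk k ({t} : Set k₁)
  have h2 : Algebra.trdeg k₁ (RatFunc k₁) = 1 := by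
    have := IsLocalization.isAlgebraic (RatFunc k₁) (nonZeroDivisors k₁[X])
    rw [← trdeg_add_eq k₁ k₁[X], Polynomial.trdeg_of_isDomain, trdeg_eq_zero, add_zero]
  rw [← trdeg_add_eq k k₁, h2, ← one_add_one_eq_two]
  exact add_le_add_left h1 1

theorem ind [CharZero k] (jac : JacStmt) (d : Derivation k k₁ k₁) {t u : k₁} (dt : d t = 1)
    (h : d (d u) ≠ 0) : AlgebraicIndependent k ![C t + X, C u + C (d u) * X] := by
  let D₁ : Derivation k k₁[X] k₁[X] := PolynomialModule.equivPolynomialSelf.compDer d.mapCoeffs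
  let D₂ : Derivation k k₁[X] k₁[X] := (Polynomial.derivative' (R := k₁)).restrictScalars k
  have a1 : ∀ c, D₁ (C c) = C (d c) := fun c => by simp [D₁]
  have a2 : D₁ X = 0 := by simp [D₁]
  have b1 : ∀ p, D₂ p = derivative p := fun p => rfl
  refine jac k k₁[X] D₁ D₂ _ _ fun e => ?_
  rw [map_add, map_add D₁, Derivation.leibniz, a1, a1, a1, a2, dt, b1, b1] at e
  simp [h] at e

end EctRow

open EctRow in
theorem ect_stmt : EctStmt := by
  intro jac k k₁ _ _ _ _ _ _ G d t u tn h deg sep M _ _ φ x y J gen J0 hφ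
  let g : k₁[X] →ₐ[k] RatFunc k₁ := IsScalarTower.toAlgHom k k₁[X] (RatFunc k₁)
  have hg : Function.Injective g := IsFractionRing.injective k₁[X] (RatFunc k₁)
  have gC : ∀ c, g (C c) = algebraMap k₁ (RatFunc k₁) c := fun c => rfl
  have gX : g X = RatFunc.X := rfl
  have X0 : (RatFunc.X : RatFunc k₁) ≠ 0 := RatFunc.X_ne_zero
  have i : AlgebraicIndependent k ![g (C t + X), g (C u + C (d u) * X)] := by
    have := (ind jac d tn.dt h).map' hg
    convert this using 1
    funext n
    fin_cases n <;> rfl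
  obtain ⟨τ, hx, hy⟩ := emb gen i
  have J1 : τ J ≠ 0 := (map_ne_zero τ).2 J0
  refine ⟨k₁, RatFunc k₁, inferInstance, inferInstance, inferInstance, inferInstance, inferInstance,
    inferInstance, inferInstance, τ, RatFunc.X⁻¹, RatFunc.X ^ 3 / τ J, tl G d t u,
    ⟨fun q => RatFunc.transcendental_X (IsAlgebraic.inv_iff.1 q), ?_,
      div_ne_zero (pow_ne_zero _ X0) J1, ?_, alg τ (x := x) (y := y) (by rwa [hx, hy]) (trd tn.alg)⟩,
    sep, Or.inr deg⟩
  · rw [eq_top_iff, ← RatFunc.adjoin_X, IntermediateField.adjoin_le_iff]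
    rintro _ rfl
    exact inv_mem_iff.1 (IntermediateField.subset_adjoin _ _ rfl)
  · have e1 : τ φ * τ J ^ 2 = MvPolynomial.aeval ![τ x, τ y, 1] G := by
      rw [← map_pow, ← map_mul, hφ, MvPolynomial.comp_aeval_apply]
      congr 2
      funext n
      fin_cases n <;> simp
    have e2 : aeval (RatFunc.X⁻¹ : RatFunc k₁) (tl G d t u) =
        MvPolynomial.aeval (fun n => RatFunc.X⁻¹ * ![τ x, τ y, 1] n) G := by
      have := MvPolynomial.comp_aeval_apply ![1 + C t * X, C (d u) + C u * X, X]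
        ((aeval (RatFunc.X⁻¹ : RatFunc k₁) : k₁[X] →ₐ[k₁] _).restrictScalars k) G
      refine this.trans ?_
      congr 2
      funext n
      rw [hx, hy, map_add, map_add, map_mul, gC, gC, gC, gX]
      fin_cases n
      · simp
        field_simp
        ring
      · simp
        field_simp
        ring
      · simp
    rw [e2, hom tn.sm.1, ← e1]
    field_simp

end Pool.Agent.MP_20d318_ag.KK
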