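import Pool.Agent.MP_20d318_ag.KK.Spec

/-! Facts on the field extension. -/

set_option autoImplicit false
set_option linter.unusedSectionVars false

open scoped TensorProduct

namespace Pool.Agent.MP_20d318_ag.KK

open Pool.Agent.MP_fd6584_ag.Fn Pool.Agent.CBk Polynomial
open Pool.Agent.MP_fd6584_ag.AG hiding deg_inv deg_congr deg_of_unit deg_mul deg_prod deg_zpow
  deg_eq_zero deg_nonneg deg_div deg_pow
open IntermediateField (adjoin)

namespace FLD

variable {k M M' K : Type} [Field k] [Field M] [Field M'] [Field K] [Algebra k M] [Algebra k M']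
  [Algebra k K] {ι : M →ₐ[k] K} {ι' : M' →ₐ[k] K} {φ : M} {φ' : M'} {v : K} {e : ℕ}

theorem rt_iff {f : K} : Rt ι ι' f ↔ f ∈ adjoin k (Set.range ι ∪ Set.range ι') := by
  rw [IntermediateField.mem_adjoin_iff_div, Rt, ← Bq_top, pm_range]
  refine ⟨fun ⟨a, ha, b, hb, _, q⟩ => ⟨a, ha, b, hb, q⟩, fun ⟨a, ha, b, hb, q⟩ => ?_⟩
  rcases eq_or_ne b 0 with rfl | b0
  · exact ⟨0, hb, 1, one_mem _, one_ne_zero, by simp [q]⟩
  · exact ⟨a, ha, b, hb, b0, q⟩

theorem pow_mem' (h : Ext φ φ' ι ι' v e) {F : IntermediateField k K} (h1 : ∀ m, ι m ∈ F)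
    (h2 : ∀ m, ι' m ∈ F) : v ^ e ∈ F :=
  eq_div_of_mul_eq ((map_ne_zero ι).2 h.ne) h.eq ▸ div_mem (h2 φ') (h1 φ)

theorem eq_top (h : Ext φ φ' ι ι' v e) {F : IntermediateField k K} (h1 : ∀ m, ι m ∈ F)
    (h2 : ∀ m, ι' m ∈ F) (h3 : v ∈ F) : F = ⊤ := by
  rw [eq_top_iff, ← h.top, IntermediateField.adjoin_le_iff]
  rintro _ (⟨b, rfl⟩ | ⟨b, rfl⟩ | rfl)
  exacts [h1 b, h2 b, h3]

theorem dec (h : Ext φ φ' ι ι' v e) {F : IntermediateField k K} (h1 : ∀ m, ι m ∈ F)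
    (h2 : ∀ m, ι' m ∈ F) (h3 : v ^ 2 ∈ F) (f : K) : ∃ a ∈ F, ∃ b ∈ F, f = a + b * v := by
  have hf : f ∈ adjoin k (Set.range ι ∪ (Set.range ι' ∪ {v})) := h.top ▸ IntermediateField.mem_top
  induction hf using IntermediateField.adjoin_induction with
  | mem x hx =>
    rcases hx with ⟨m, rfl⟩ | ⟨m, rfl⟩ | rfl
    · exact ⟨_, h1 m, 0, zero_mem _, by simp⟩
    · exact ⟨_, h2 m, 0, zero_mem _, by simp⟩
    · exact ⟨0, zero_mem _, 1, one_mem _, by simp⟩
  | algebraMap c => exact ⟨_, F.algebraMap_mem c, 0, zero_mem _, by simp⟩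
  | add x y _ _ hx hy =>
    obtain ⟨a, ha, b, hb, rfl⟩ := hx
    obtain ⟨a', ha', b', hb', rfl⟩ := hy
    exact ⟨_, add_mem ha ha', _, add_mem hb hb', by ring⟩
  | inv x _ hx =>
    obtain ⟨a, ha, b, hb, rfl⟩ := hx
    by_cases h4 : a - b * v = 0
    · refine ⟨(a + a)⁻¹, inv_mem (add_mem ha ha), 0, zero_mem _, ?_⟩
      rw [← sub_eq_zero.1 h4, zero_mul, add_zero]
    · have hn : a ^ 2 - b ^ 2 * v ^ 2 ∈ F := sub_mem (pow_mem ha 2) (mul_mem (pow_mem hb 2) h3)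
      refine ⟨_, div_mem ha hn, _, div_mem (neg_mem hb) hn, ?_⟩
      rw [div_mul_eq_mul_div, ← add_div, neg_mul, ← sub_eq_add_neg, ← mul_pow, sq_sub_sq,
        div_mul_cancel_right₀ h4]
  | mul x y _ _ hx hy =>
    obtain ⟨a, ha, b, hb, rfl⟩ := hx
    obtain ⟨a', ha', b', hb', rfl⟩ := hy
    exact ⟨_, add_mem (mul_mem ha ha') (mul_mem (mul_mem hb hb') h3), _,
      add_mem (mul_mem ha hb') (mul_mem hb ha'), by ring⟩

theorem fix {θ : K ≃ₐ[k] K} (h1 : ∀ m, θ (ι m) = ι m) (h2 : ∀ m, θ (ι' m) = ι' m) {f : K}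
    (h : Rt ι ι' f) : θ f = f := by
  have key : Bq ι ι' ⊤ ⊤ ∅ ≤ AlgHom.equalizer (θ : K →ₐ[k] K) (AlgHom.id k K) := by
    refine Algebra.adjoin_le ?_
    rintro _ (⟨a, -, rfl⟩ | ⟨a, -, rfl⟩ | ⟨⟨⟩⟩)
    exacts [h1 a, h2 a]
  obtain ⟨a, ha, b, hb, -, rfl⟩ := h
  rw [map_div₀, show θ a = a from key ha, show θ b = b from key hb]

open MvPolynomial in
theorem ind (h : Dj ι ι') {I I' : Type} {y : I → M} {y' : I' → M'} (hy : AlgebraicIndependent k y)
    (hy' : AlgebraicIndependent k y') :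
    AlgebraicIndependent k (Sum.elim (fun i => ι (y i)) fun i => ι' (y' i)) := by
  have q : (MvPolynomial.aeval (Sum.elim (fun i => ι (y i)) fun i => ι' (y' i))).comp
      (tensorEquivSum k I I' k).toAlgHom = (pm ι ι').comp
        (Algebra.TensorProduct.map (MvPolynomial.aeval y) (MvPolynomial.aeval y')) := by
    ext i <;> simp [pm_tmul]
  have j : Function.Injective (Algebra.TensorProduct.map (MvPolynomial.aeval (R := k) y)
      (MvPolynomial.aeval (R := k) y')) := TensorProduct.map_injective_of_flat_flat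
    (MvPolynomial.aeval y).toLinearMap (MvPolynomial.aeval y').toLinearMap hy hy'
  refine (Function.Injective.of_comp_iff' _ (tensorEquivSum k I I' k).bijective).1 ?_
  have := Function.Injective.comp h j
  rwa [← AlgHom.coe_comp, ← q] at this

theorem mems {G : Set M} (hG : adjoin k G = ⊤) {S : Set K} (hS : ι '' G ⊆ S) (m : M) :
    ι m ∈ adjoin k S := by
  have h5 : adjoin k G ≤ (adjoin k S).comap ι := by
    rw [IntermediateField.adjoin_le_iff]
    exact fun a ha => IntermediateField.subset_adjoin k _ (hS ⟨a, ha, rfl⟩)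
  exact h5 (hG ▸ IntermediateField.mem_top)

theorem sep [NeZero (2 : k)] (h : Ext φ φ' ι ι' v e) {F : IntermediateField k K}
    (h1 : ∀ m, ι m ∈ F) (h2 : ∀ m, ι' m ∈ F) : Algebra.IsSeparable F K := by
  have a : ∀ u ∈ F, u ∈ (separableClosure F K).restrictScalars k := fun u hu =>
    (separableClosure F K).algebraMap_mem ⟨u, hu⟩
  have mw := pow_mem' h h1 h2
  have hw : v ∈ (separableClosure F K).restrictScalars k := by
    have he : (e : F) ≠ 0 := by
      rcases h.he with rfl | rfl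
      · simp
      · exact_mod_cast two_ne k F
    exact (separable_X_pow_sub_C (n := e) (⟨_, mw⟩ : F) he fun e1 =>
      pow_ne_zero e h.vne (congrArg Subtype.val e1)).of_dvd (minpoly.dvd F v (by simp))
  exact ⟨fun f =>
    (eq_top h (fun m => a _ (h1 m)) (fun m => a _ (h2 m)) hw).ge IntermediateField.mem_top⟩

end FLD

open FLD in
theorem fld_stmt : FldStmt := by
  intro hN k M M' K _ _ _ _ _ _ _ _ _ ι ι' φ φ' v e h
  have h1 : ∀ m, ι m ∈ adjoin k (Set.range ι ∪ Set.range ι') := fun m =>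
    IntermediateField.subset_adjoin _ _ (Or.inl ⟨m, rfl⟩)
  have h2 : ∀ m, ι' m ∈ adjoin k (Set.range ι ∪ Set.range ι') := fun m =>
    IntermediateField.subset_adjoin _ _ (Or.inr ⟨m, rfl⟩)
  have one : e = 1 → ∀ F : IntermediateField k K, (∀ m, ι m ∈ F) → (∀ m, ι' m ∈ F) → F = ⊤ := by
    rintro rfl F a b
    exact eq_top h a b (pow_one v ▸ pow_mem' h a b)
  have rt : e = 1 → ∀ μ, Rt ι ι' μ := fun he μ =>
    rt_iff.2 ((one he _ h1 h2).ge IntermediateField.mem_top)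
  have h3 : v ^ 2 ∈ adjoin k (Set.range ι ∪ Set.range ι') := by
    rcases h.he with rfl | rfl
    · exact rt_iff.1 (rt rfl _)
    · exact pow_mem' h h1 h2
  refine ⟨rt, ?_, fun μ => ?_, fun θ t1 t2 t3 μ => ?_, fun _ _ _ _ => ind h.dj,
    fun he _ _ a b => one he _ (mems a Set.subset_union_left) (mems b Set.subset_union_right),
    fun _ _ a b => sep h (mems a Set.subset_union_left) (mems b Set.subset_union_right)⟩
  · rintro rfl q
    refine hN k M M' K ι ι' h.dj φ φ' h.ns h.ne' _ (q.mul (rt_iff.2 (h1 φ))) ?_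
    rw [← h.eq]
    ring
  · obtain ⟨a, ha, b, hb, q⟩ := dec h h1 h2 h3 μ
    exact ⟨a, b, rt_iff.2 ha, rt_iff.2 hb, q⟩
  rcases h.he with rfl | rfl
  · exact rt rfl _
  obtain ⟨a, ha, b, hb, rfl⟩ := dec h h1 h2 h3 μ
  rw [map_add, map_mul, fix t1 t2 (rt_iff.2 ha), fix t1 t2 (rt_iff.2 hb), t3]
  have e1 : (a + b * v) * (a + b * ((-1) ^ (3 - 2) * v)) = a ^ 2 - b ^ 2 * v ^ 2 := by ring
  exact e1 ▸ rt_iff.2 (sub_mem (pow_mem ha 2) (mul_mem (pow_mem hb 2) h3))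

end Pool.Agent.MP_20d318_ag.KK
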