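import Pool.Agent.MP_20d318_ag.KK.ESpec
import Pool.Agent.MP_20d318_ag.KK.Fld

/-! The cover by a twisted elliptic curve exists. -/

set_option autoImplicit false
set_option linter.unusedSectionVars false

open scoped TensorProduct

namespace Pool.Agent.MP_20d318_ag.KK

open Pool.Agent.MP_fd6584_ag.Fn Pool.Agent.CBk Polynomial
open Pool.Agent.MP_fd6584_ag.AG hiding deg_inv deg_congr deg_of_unit deg_mul deg_prod deg_zpow
  deg_eq_zero deg_nonneg deg_div deg_pow
open Pool.Agent.MP_20d318_ag.CH (MW cb Der)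
open IntermediateField (adjoin)

namespace EMB

section ten

variable {k B B' C K L : Type} [Field k] [CommRing B] [CommRing B'] [CommRing C] [Field K]
  [Field L] [Algebra k B] [Algebra k B'] [Algebra k C] [Algebra k K] [Algebra k L]

theorem pm_post (ι : B →ₐ[k] K) (ι' : B' →ₐ[k] K) (a : K →ₐ[k] L) (z : B ⊗[k] B') :
    pm (a.comp ι) (a.comp ι') z = a (pm ι ι' z) := by
  induction z with
  | zero => simp
  | tmul x y => rw [pm_tmul, pm_tmul, map_mul]; rfl
  | add x y hx hy => rw [map_add, map_add, map_add, hx, hy]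

theorem dj_post {ι : B →ₐ[k] K} {ι' : B' →ₐ[k] K} (a : K →ₐ[k] L) :
    Dj (a.comp ι) (a.comp ι') ↔ Dj ι ι' :=
  ⟨fun h x y e => h (by rw [pm_post, pm_post, e]),
    fun h x y e => h (a.injective (by rwa [pm_post, pm_post] at e))⟩

theorem dj_pre {ι : B →ₐ[k] K} {ι' : B' →ₐ[k] K} (h : Dj ι ι') (t : C →ₐ[k] B')
    (ht : Function.Injective t) : Dj ι (ι'.comp t) := by
  have e : ∀ z, pm ι (ι'.comp t) z = pm ι ι' (t.toLinearMap.lTensor B z) := fun z => by
    induction z with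
    | zero => simp
    | tmul a b => rfl
    | add a b ha hb => rw [map_add, map_add, map_add, ha, hb]
  exact fun x y q => Module.Flat.lTensor_preserves_injective_linearMap (M := B) t.toLinearMap ht
    (h (by rw [← e, ← e, q]))

theorem tr_ten {k₁ : Type} [Field k₁] [Algebra k k₁] [Algebra k₁ L] [IsScalarTower k k₁ L]
    {ι : B →ₐ[k] L} {z : L} (h : Dj ι ((aeval z : k₁[X] →ₐ[k₁] L).restrictScalars k))
    (P : (B ⊗[k] k₁)[X])
    (hP : P.eval₂ (pm ι (IsScalarTower.toAlgHom k k₁ L) : B ⊗[k] k₁ →+* L) z = 0) : P = 0 := by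
  have e : ∀ (i : ℕ) (c : B ⊗[k] k₁), pm ι ((aeval z : k₁[X] →ₐ[k₁] L).restrictScalars k)
      (((monomial i : k₁ →ₗ[k₁] k₁[X]).restrictScalars k).lTensor B c) =
      pm ι (IsScalarTower.toAlgHom k k₁ L) c * z ^ i := fun i c => by
    induction c with
    | zero => simp
    | tmul a b => simp [pm_tmul, aeval_monomial, mul_assoc]
    | add a b ha hb => rw [map_add, map_add, map_add, ha, hb, add_mul]
  have e2 : ∀ (i j : ℕ) (c : B ⊗[k] k₁), ((lcoeff k₁ j).restrictScalars k).lTensor B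
      (((monomial i : k₁ →ₗ[k₁] k₁[X]).restrictScalars k).lTensor B c) =
      if i = j then c else 0 := fun i j c => by
    induction c with
    | zero => simp
    | tmul a b => by_cases q : i = j <;> simp [coeff_monomial, q]
    | add a b ha hb => rw [map_add, map_add, ha, hb]; split_ifs <;> simp
  have h0 : ∑ i ∈ P.support, ((monomial i : k₁ →ₗ[k₁] k₁[X]).restrictScalars k).lTensor B
      (P.coeff i) = 0 := h (by
    rw [map_zero, map_sum, ← hP, eval₂_eq_sum, Polynomial.sum]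
    exact Finset.sum_congr rfl fun i _ => e i _)
  ext j
  have h1 := congrArg (((lcoeff k₁ j).restrictScalars k).lTensor B) h0
  rw [map_zero, map_sum, Finset.sum_congr rfl fun i _ => e2 i j _, Finset.sum_ite_eq'] at h1
  by_cases q : j ∈ P.support
  · rwa [if_pos q] at h1
  · exact notMem_support_iff.1 q

end ten

theorem tr_ext {R F L : Type} [CommRing R] [Field F] [Field L] (π : R →+* F)
    (hπ : Function.Injective π) (ε : F →+* L) (z : L) (h1 : ∀ x, ∃ a b, x = π a / π b)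
    (h2 : ∀ P : R[X], P.eval₂ (ε.comp π) z = 0 → P = 0) (p : F[X]) (hp : p.eval₂ ε z = 0) :
    p = 0 := by
  let _ := π.toAlgebra
  let _ := ε.toAlgebra
  let _ := (ε.comp π).toAlgebra
  have : IsScalarTower R F L := IsScalarTower.of_algebraMap_eq fun _ => rfl
  have : IsDomain R := hπ.isDomain π
  have : Algebra.IsAlgebraic R F := ⟨fun x => by
    obtain ⟨a, b, rfl⟩ := h1 x
    rw [div_eq_mul_inv]
    exact (isAlgebraic_algebraMap a).mul (isAlgebraic_algebraMap b).inv⟩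
  exact transcendental_iff.1 ((transcendental_iff.2 h2 : Transcendental R z).extendScalars F) p hp

theorem exists_lift {A N W : Type} [Field A] [Field N] [Field W] [IsAlgClosed W] (τ : A →+* N)
    (b : A →+* W) (h : ∀ x : N, ∃ p : A[X], p ≠ 0 ∧ p.eval₂ τ x = 0) :
    ∃ ρ : N →+* W, ∀ m, ρ (τ m) = b m := by
  let _ := τ.toAlgebra
  let _ := b.toAlgebra
  have : Algebra.IsAlgebraic A N := ⟨h⟩
  exact ⟨(IsAlgClosed.lift : N →ₐ[A] W), fun m => (IsAlgClosed.lift : N →ₐ[A] W).commutes m⟩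

variable {k k₁ M M' N K L : Type} [Field k] [Field k₁] [Field M] [Field M'] [Field N]
  [Field K] [Field L] [Algebra k k₁] [Algebra k M] [Algebra k M'] [Algebra k N]
  [Algebra k K] [Algebra k L] [Algebra k₁ N] [Algebra k₁ L] [IsScalarTower k k₁ N]
  [IsScalarTower k k₁ L] {ι : M →ₐ[k] K} {ι' : M' →ₐ[k] K} {φ : M} {φ' : M'} {v : K}
  {τ : M' →ₐ[k] N} {s r : N} {l : k₁}

theorem alg0 (h : Ext φ φ' ι ι' v 2) : Algebra.IsAlgebraic (Bq ι ι' ⊤ ⊤ ∅) K := ⟨fun x => by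
  have a1 : ∀ y ∈ Bq ι ι' ⊤ ⊤ ∅, IsAlgebraic (Bq ι ι' ⊤ ⊤ ∅) y := fun y hy =>
    isAlgebraic_algebraMap (⟨y, hy⟩ : Bq ι ι' ⊤ ⊤ ∅)
  have hx : x ∈ adjoin k (Set.range ι ∪ (Set.range ι' ∪ {v})) := h.top ▸ IntermediateField.mem_top
  induction hx using IntermediateField.adjoin_induction with
  | mem y hy =>
    rcases hy with ⟨m, rfl⟩ | ⟨m, rfl⟩ | rfl
    · exact a1 _ (Bq_l trivial)
    · exact a1 _ (Bq_r trivial)
    · refine IsAlgebraic.of_pow two_pos ?_
      rw [eq_div_of_mul_eq ((map_ne_zero ι).2 h.ne) h.eq, div_eq_mul_inv]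
      exact (a1 _ (Bq_r trivial)).mul (a1 _ (Bq_l trivial)).inv
  | algebraMap c => exact a1 _ (Subalgebra.algebraMap_mem _ c)
  | add _ _ _ _ hx hy => exact hx.add hy
  | inv _ _ hx => exact hx.inv
  | mul _ _ _ _ hx hy => exact hx.mul hy⟩

theorem alg1 (h : Ext φ φ' ι ι' v 2) (a : K →+* L)
    (ha : ∀ x : L, ∃ p : K[X], p ≠ 0 ∧ p.eval₂ a x = 0) (x : L) :
    ∃ p : K[X], p ≠ 0 ∧ (∀ i, p.coeff i ∈ Bq ι ι' ⊤ ⊤ ∅) ∧ p.eval₂ a x = 0 := by
  let _ := a.toAlgebra
  have : Algebra.IsAlgebraic K L := ⟨ha⟩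
  have := alg0 h
  obtain ⟨p, p0, hp⟩ := (Algebra.IsAlgebraic.trans (Bq ι ι' ⊤ ⊤ ∅) K L).isAlgebraic x
  refine ⟨p.map (algebraMap _ K), (Polynomial.map_ne_zero_iff Subtype.val_injective).2 p0,
    fun i => by rw [coeff_map]; exact (p.coeff i).2, ?_⟩
  rw [eval₂_map]
  exact hp

theorem rat0 {g : k₁[X]} (q : Rf φ' τ s r g) (ρ : N →ₐ[k₁] L) (x : N) :
    ∃ p p' : k₁[X], p' ≠ 0 ∧ (x ≠ 0 → p ≠ 0) ∧ ρ x = aeval (ρ s) p / aeval (ρ s) p' ∧
      aeval (ρ s) p' ≠ 0 := by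
  obtain ⟨p, p', e⟩ := (IntermediateField.mem_adjoin_simple_iff k₁ x).1
    (q.top ▸ IntermediateField.mem_top : x ∈ adjoin k₁ {s})
  by_cases h : aeval s p' = 0
  · have x0 : x = 0 := by rw [e, h, div_zero]
    exact ⟨0, 1, one_ne_zero, fun n => (n x0).elim, by simp [x0], by simp⟩
  · refine ⟨p, p', fun n => h (by rw [n, map_zero]), fun n m => n (by simp [e, m]), ?_, ?_⟩
    · rw [e, map_div₀, aeval_algHom_apply, aeval_algHom_apply]
    · rw [aeval_algHom_apply]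
      exact (map_ne_zero ρ).2 h

theorem core (h : Ext φ φ' ι ι' v 2) (q : Rf φ' τ s r (X * (X - 1) * (X - C l))) (l0 : l ≠ 0)
    (l1 : l ≠ 1) (a : K →ₐ[k] L) (ρ : N →ₐ[k₁] L) (hc : ∀ m, ρ (τ m) = a (ι' m))
    (hd : Dj (a.comp ι) (ρ.restrictScalars k))
    (ha : ∀ x : L, ∃ p : K[X], p ≠ 0 ∧ p.eval₂ (a : K →+* L) x = 0)
    (ht : adjoin k₁ (Set.range (a.comp ι) ∪ {ρ s, a v * a (ι φ) / ρ r}) = ⊤) :
    ∃ (F : IntermediateField k₁ L) (μ : M →ₐ[k] F),
      Cov ι ι' v φ μ F.val a l (ρ s) (a v * a (ι φ) / ρ r) := by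
  let F := adjoin k₁ (Set.range (a.comp ι))
  have mF : ∀ m, a (ι m) ∈ F := fun m => IntermediateField.subset_adjoin _ _ ⟨m, rfl⟩
  let μ : M →ₐ[k] F :=
    { toFun := fun m => ⟨a (ι m), mF m⟩
      map_one' := Subtype.ext (by simp)
      map_mul' := fun x y => Subtype.ext (by simp)
      map_zero' := Subtype.ext (by simp)
      map_add' := fun x y => Subtype.ext (by simp)
      commutes' := fun c => Subtype.ext ((a.comp ι).commutes c) }
  have e1 : (F.val.restrictScalars k).comp μ = a.comp ι := rfl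
  have e2 : (F.val.restrictScalars k).comp (IsScalarTower.toAlgHom k k₁ F) =
      IsScalarTower.toAlgHom k k₁ L := rfl
  have e3 : (ρ.restrictScalars k).comp (IsScalarTower.toAlgHom k k₁ N) =
      IsScalarTower.toAlgHom k k₁ L := AlgHom.ext fun c => ρ.commutes c
  have e4 : (ρ.restrictScalars k).comp ((aeval s : k₁[X] →ₐ[k₁] N).restrictScalars k) =
      (aeval (ρ s) : k₁[X] →ₐ[k₁] L).restrictScalars k :=
    AlgHom.ext fun p => (aeval_algHom_apply ρ s p).symm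
  have d1 : Dj μ (IsScalarTower.toAlgHom k k₁ F) := by
    rw [← dj_post (F.val.restrictScalars k), e1, e2, ← e3]
    exact dj_pre hd _ (algebraMap k₁ N).injective
  have rt : ∀ x, Rt μ (IsScalarTower.toAlgHom k k₁ F) x := by
    rintro ⟨x, hx⟩
    rw [FLD.rt_iff]
    induction hx using IntermediateField.adjoin_induction with
    | mem y hy =>
      obtain ⟨m, rfl⟩ := hy
      exact IntermediateField.subset_adjoin _ _ (Or.inl ⟨m, rfl⟩)
    | algebraMap c => exact IntermediateField.subset_adjoin _ _ (Or.inr ⟨c, rfl⟩)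
    | add _ _ _ _ hx hy => exact add_mem hx hy
    | inv _ _ hx => exact inv_mem hx
    | mul _ _ _ _ hx hy => exact mul_mem hx hy
  have r0 : ρ r ≠ 0 := (map_ne_zero ρ).2 q.ne
  refine ⟨F, μ, ⟨Or.inr rfl, l0, l1, (map_ne_zero μ).2 h.ne, ?_, ?_, ?_⟩, d1, rt, fun _ => rfl,
    fun m => ?_, ?_, alg1 h _ ha, fun p => ?_⟩
  · refine tr_ext (pm μ (IsScalarTower.toAlgHom k k₁ F) : M ⊗[k] k₁ →+* F) d1 _ _ (fun x => ?_)
      fun P hP => tr_ten (ι := a.comp ι) (z := ρ s) ?_ P ?_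
    · obtain ⟨b, hb, c, hc, -, e⟩ := rt x
      rw [← Bq_top] at hb hc
      obtain ⟨b, rfl⟩ := hb
      obtain ⟨c, rfl⟩ := hc
      exact ⟨b, c, e⟩
    · rw [← e4]
      exact dj_pre hd _ (transcendental_iff_injective.1 q.tr)
    · rw [← hP, ← e1, ← e2]
      exact congrArg (fun t => P.eval₂ t (ρ s)) (RingHom.ext fun z => pm_post _ _ _ z)
  · have e5 : a v ^ 2 * a (ι φ) = ρ r ^ 2 * cb l (ρ s) := by
      rw [← map_pow, ← map_mul, h.eq, ← hc, q.eq, map_mul, map_pow, ← aeval_algHom_apply]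
      simp [cb]
    show (a v * a (ι φ) / ρ r) ^ 2 = a (ι φ) ^ (2 - 1) * cb l (ρ s)
    rw [div_pow, div_eq_iff (pow_ne_zero 2 r0)]
    linear_combination a (ι φ) * e5
  · rw [eq_top_iff, ← ht]
    refine IntermediateField.adjoin.mono _ _ _ (Set.union_subset_union_left _ ?_)
    rintro _ ⟨m, rfl⟩
    exact ⟨μ m, rfl⟩
  · obtain ⟨p, p', n, -, e, -⟩ := rat0 q ρ (τ m)
    exact ⟨p, p', n, hc m ▸ e⟩
  · obtain ⟨p, p', n, n', e, n''⟩ := rat0 q ρ r
    refine ⟨p, p', n' q.ne, n, ?_⟩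
    show a v * a (ι φ) * aeval (ρ s) p' = _
    rw [← (eq_div_iff n'').1 e]
    field_simp
  · obtain ⟨t, t0, ht⟩ := q.alg (aeval s p)
    refine ⟨t, t0, ?_⟩
    have := congrArg (ρ : N →+* L) ht
    rw [map_zero, hom_eval₂] at this
    rw [aeval_algHom_apply, ← this]
    exact congrArg (fun u => t.eval₂ u (ρ (aeval s p))) (RingHom.ext fun m => (hc m).symm)

theorem mid (h : Ext φ φ' ι ι' v 2) (q : Rf φ' τ s r (X * (X - 1) * (X - C l))) (l0 : l ≠ 0)
    (l1 : l ≠ 1) (a : K →ₐ[k] L) (ρ : N →ₐ[k₁] L) (hc : ∀ m, ρ (τ m) = a (ι' m))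
    (hd : Dj (a.comp ι) (ρ.restrictScalars k))
    (ha : ∀ x : L, ∃ p : K[X], p ≠ 0 ∧ p.eval₂ (a : K →+* L) x = 0) :
    ∃ (E : IntermediateField k₁ L) (F : IntermediateField k₁ E) (μ : M →ₐ[k] F) (j : K →ₐ[k] E)
      (z w : E), Cov ι ι' v φ μ F.val j l z w := by
  let E := adjoin k₁ (Set.range (a.comp ι) ∪ {ρ s, a v * a (ι φ) / ρ r})
  have m1 : ∀ m, a (ι m) ∈ E := fun m => IntermediateField.subset_adjoin _ _ (Or.inl ⟨m, rfl⟩)
  have m2 : ρ s ∈ E := IntermediateField.subset_adjoin _ _ (Or.inr (Or.inl rfl))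
  have m3 : a v * a (ι φ) / ρ r ∈ E := IntermediateField.subset_adjoin _ _ (Or.inr (Or.inr rfl))
  have m4 : ∀ x, ρ x ∈ E := fun x => by
    have : adjoin k₁ {s} ≤ E.comap ρ := IntermediateField.adjoin_simple_le_iff.2 m2
    exact this (q.top ▸ IntermediateField.mem_top)
  have m5 : a v ∈ E := by
    have := div_mem (mul_mem m3 (m4 r)) (m1 φ)
    rwa [div_mul_cancel₀ _ ((map_ne_zero ρ).2 q.ne),
      mul_div_cancel_right₀ _ ((map_ne_zero a).2 ((map_ne_zero ι).2 h.ne))] at this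
  have m6 : ∀ x, a x ∈ E := fun x =>
    (FLD.eq_top h (F := (E.restrictScalars k).comap a) m1 (fun m => by
      have := m4 (τ m)
      rwa [hc] at this) m5).ge (IntermediateField.mem_top (x := x))
  let j : K →ₐ[k] E :=
    { toFun := fun m => ⟨a m, m6 m⟩
      map_one' := Subtype.ext (by simp)
      map_mul' := fun x y => Subtype.ext (by simp)
      map_zero' := Subtype.ext (by simp)
      map_add' := fun x y => Subtype.ext (by simp)
      commutes' := fun c => Subtype.ext (a.commutes c) }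
  let ρ' : N →ₐ[k₁] E := ρ.codRestrict E.toSubalgebra m4
  obtain ⟨F, μ, H⟩ := core h q l0 l1 j ρ' (fun m => Subtype.ext (hc m))
    ((dj_post (E.val.restrictScalars k)).1 hd) (fun x => by
      obtain ⟨p, p0, hp⟩ := ha x
      refine ⟨p, p0, Subtype.ext ?_⟩
      exact (hom_eval₂ p (j : K →+* E) (E.val : E →+* L) x).trans hp) (by
      apply IntermediateField.lift_injective E
      rw [IntermediateField.lift_adjoin, IntermediateField.lift_top, Set.image_union,
        ← Set.range_comp, Set.image_pair]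
      rfl)
  exact ⟨E, F, μ, j, _, _, H⟩

end EMB

open EMB in
theorem emb_stmt : EmbStmt := by
  intro hD k M M' K _ _ _ _ _ _ _ _ _ ι ι' φ φ' v h ⟨k₁, N, _, _, _, _, _, _, τ, s, r, l, q, l0, l1⟩
  let a := IsScalarTower.toAlgHom k K (AlgebraicClosure K)
  obtain ⟨ρ, hρ⟩ := exists_lift (τ : M' →+* N) (a.comp ι' : M' →+* AlgebraicClosure K) q.alg
  let _ : Algebra k₁ (AlgebraicClosure K) := (ρ.comp (algebraMap k₁ N)).toAlgebra
  have : IsScalarTower k k₁ (AlgebraicClosure K) := IsScalarTower.of_algebraMap_eq fun c => by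
    show _ = ρ (algebraMap k₁ N (algebraMap k k₁ c))
    rw [← IsScalarTower.algebraMap_apply, ← τ.commutes c]
    exact ((a.comp ι').commutes c).symm.trans (hρ _).symm
  let ρ' : N →ₐ[k₁] AlgebraicClosure K := ⟨ρ, fun _ => rfl⟩
  have e : (ρ'.restrictScalars k).comp τ = a.comp ι' := AlgHom.ext hρ
  obtain ⟨E, F, μ, j, z, w, H⟩ := mid h q l0 l1 a ρ' hρ
    (hD k M N _ (a.comp ι) (ρ'.restrictScalars k) M' τ (e ▸ (dj_post a).2 h.dj) q.alg)
    fun x => Algebra.IsAlgebraic.isAlgebraic (R := K) x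
  exact ⟨k₁, F, E, _, _, _, _, _, _, _, _, inferInstance, inferInstance, μ, F.val, j, l, z, w, H⟩

end Pool.Agent.MP_20d318_ag.KK
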