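import Pool.Agent.MP_20d318_ag.CC.Stmt

/-! Double covers of the product of several surfaces and several projective lines. -/

set_option autoImplicit false

open AlgebraicGeometry CategoryTheory

namespace Pool.Agent.MP_20d318_ag.KK

open Pool.Agent.MP_fd6584_ag Pool.Agent.MP_fd6584_ag.Pj

variable {k M : Type} [Field k] [Field M] [Algebra k M] {X : Scheme.{0}} [IsIntegral X]

/-- The function field of `X` is generated by `a` copies `ι i M` of `M`, by `ζ 0, …, ζ (m - 1)` and
by `w`; there are `x i, y i` in `M` such that all `ι i (x i)`, `ι i (y i)`, `ζ r` are algebraically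
independent; `w² = ∏ ι i (φ i) · ∏ ζ r (ζ r - 1) (ζ r - l r)`; and the rational maps from `X` to the
surfaces with local rings `T i` and to the lines with coordinates `ζ r` are morphisms. -/
def ProdCover (s : X ⟶ Spec (CommRingCat.of k)) {a : ℕ} (T : Fin a → Set (Subalgebra k M))
    (φ : Fin a → M) {m : ℕ} (l : Fin m → k) : Prop :=
  letI : Algebra k X.functionField := (const s).toAlgebra
  ∃ (ι : Fin a → M →ₐ[k] X.functionField) (ζ : Fin m → X.functionField) (w : X.functionField)
    (x y : Fin a → M),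
    AlgebraicIndependent k (Sum.elim (Sum.elim (fun i => ι i (x i)) fun i => ι i (y i)) ζ) ∧
    w ^ 2 = (∏ i, ι i (φ i)) * ∏ r, ζ r * (ζ r - 1) * (ζ r - const s (l r)) ∧
    IntermediateField.adjoin k ((⋃ i, Set.range (ι i)) ∪ (Set.range ζ ∪ {w})) = ⊤ ∧
    ∀ p : X, (∀ i, ∃ O ∈ T i, ∀ f ∈ O, RegAt p (ι i f)) ∧ ∀ r, RegAt p (ζ r) ∨ RegAt p (ζ r)⁻¹

end Pool.Agent.MP_20d318_ag.KK
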