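import Pool.Agent.MP_20d318_ag.KK.ESpec
import Pool.Agent.MP_20d318_ag.KK.Stmt
import Pool.Agent.MP_20d318_ag.CH.Fin

/-! The surfaces and the scheme. -/

set_option autoImplicit false
set_option linter.unusedSectionVars false
set_option linter.style.haveILetI false

open AlgebraicGeometry CategoryTheory

namespace Pool.Agent.MP_20d318_ag.KK

open Pool.Agent.MP_fd6584_ag Pool.Agent.MP_fd6584_ag.Pj Pool.Agent.CBk
open Pool.Agent.MP_fd6584_ag.AG hiding deg_inv deg_congr deg_of_unit deg_mul deg_prod deg_zpow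
  deg_eq_zero deg_nonneg deg_div deg_pow
open Pool.Agent.MP_20d318_ag.CB (ip toR ip_toR Ld NS)
open Pool.Agent.MP_20d318_ag.CB.P (Pd Pair0 Pair)
open Pool.Agent.MP_20d318_ag.CH (Bas ldN lv0 cb bas_nd)

/-- The rows on the surfaces. -/
structure BMods : Prop where
  b : CH.BMods
  trp : TrpStmt.{0, 0, 1, 1}
  sml : SmlStmt.{0, 0}
  hfc : HfcStmt
  dkb : DkbStmt

theorem bas_ld {ι κ : Type} [Fintype ι] [Fintype κ] (Λ : Ld ι κ) : Bas (ldN Λ ∅) :=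
  ⟨by
    rintro c _ ⟨y, rfl⟩
    exact ⟨_, ip_toR Λ.B y c⟩, Lat.isCone_cone _, by rintro _ ⟨_, ⟨⟩, -⟩⟩

theorem BMods.ns (b : BMods) {ι κ : Type} [Fintype ι] [Fintype κ] {Λ : Ld ι κ} (h : NS Λ) :
    HF (ldN Λ ∅) ∧ DK (ldN Λ ∅) := by
  have l1 := CB.l1_stmt ι κ Λ h (CB.hg_stmt ι Λ.B h.sym h.hodge)
  have ct := CB.ct_stmt ι κ Λ h l1
  have key := CB.keyC_stmt ι κ Λ h l1 ct fun h4 =>
    (CB.keyA_stmt ι κ Λ h l1 h4).imp fun J hJ => ⟨hJ, CB.keyB_stmt ι κ Λ J h l1 h4 hJ⟩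
  exact ⟨(b.sml _ _ _ _ (bas_ld Λ)).1 (fun i => ⟨_, rfl⟩) (b.b.skb ι κ Λ ∅ h l1 key),
    (b.dkb ι κ Λ ∅).1 h l1 ct⟩

variable {k M I κ : Type} [Field k] [NeZero (2 : k)] [IsAlgClosed k] [Field M] [Algebra k M]
  [Fintype I] [Fintype κ] {p : Pd k M I κ}

theorem BMods.tp (b : BMods) (h : Pair0 p) (q : HF (ldN p.ld ∅) ∧ DK (ldN p.ld ∅)) :
    HF (lv0 p).nd ∧ DK (lv0 p).nd := by
  obtain ⟨ψ, h1, -⟩ := b.b.iso k M I κ p ∅ h fun _ h => h.elim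
  exact q.imp (b.trp _ _ _ _ _ _ _ ψ h1).1 (b.trp _ _ _ _ _ _ _ ψ h1).2

theorem BMods.hd (b : BMods) (h : Pair0 p) : HF (lv0 p).nd ∧ DK (lv0 p).nd := by
  rcases b.b.g.pcx k M I κ p h with ⟨i, hi⟩ | h4
  · exact (b.tp hi.toPair0 (b.ns hi.ns) :)
  have c := (b.b.g.cob b.b.l h h4).b0
  have c0 := b.b.l.c0' c
  exact b.tp h ⟨b.hfc I κ p.ld ∅ c (b.b.l.xn I κ p.ld c)
    (b.b.l.kc b.b.l.rb b.b.l.rc b.b.l.ka b.b.l.kb I κ p.ld c c0), (b.dkb I κ p.ld ∅).2 c c0⟩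

theorem BMods.p1 (b : BMods) (m : Mods) {T : Set (Subalgebra k M)} {D₁ D₂ : Derivation k M M}
    {φ : M} (hT : RS.Tower T) (h1 : RS.BiAnti T D₁ D₂ φ) (h2 : RS.SmoothZero T D₁ D₂ φ) :
    P1 T φ := by
  obtain ⟨I, κ, _, _, p, n, ε₀, rfl, rfl, hp, st⟩ := b.b.g.pair hT h1 h2
  obtain ⟨𝓗, a1, a2⟩ := b.b.lev hp st
  obtain ⟨a3, a4⟩ := b.hd hp
  exact ⟨_, κ, inferInstance, _, lv0 p, 𝓗, rfl, rfl,
    m.c.ok (b.b.bs0 m.c.der k M I κ p hp (b.b.g.ta k M I _ hp.all)),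
    ⟨a1.fd, a1.ne, a1.cΛ, a1.dich, a3, a4, (m.n.sml _ _ _ _ bas_nd).2.2 _ a1 a3, a1.spn⟩, a1, a2⟩

theorem Top.scheme (m : Mods) {a r : ℕ} {T : Fin a → Set (Subalgebra k M)} {φ : Fin a → M}
    {l : Fin r → k} (h : Top T φ l) :
    ∃ (X : Scheme.{0}) (_ : IsIntegral X) (s : X ⟶ Spec (CommRingCat.of k)),
      IsProjective s ∧ Smooth s ∧ TrivialCanonical s ∧ ProdCover s T φ l ∧ ConeConj s ∧
        CC.NefConj s := by
  obtain ⟨K, Λ, _, _, _, S, n, y, j, w, ι, ζ, fam, sm, ind, sep, j0, vol, tw, hc⟩ := h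
  obtain ⟨J, _, 𝒞, hC, hB⟩ := chart_of fam
  obtain ⟨N⟩ := exists_model 𝒞
  have hO : ∀ q, Sch.OA N q ∈ mp k S := fun q => hC ▸ Sch.OA_mem q
  refine ⟨N.X, N.integral, N.s, N.proj, N.smooth fun j => ?_,
    m.c.triv k K J 𝒞 N n y j ind sep j0 (hC ▸ vol), ?_, (Sch.bridge k K J 𝒞 N
      (hC ▸ ⟨hc, addv (fine_mp fam).toGood⟩)).2, CC.bridge N (hC ▸ hc)⟩
  · obtain ⟨G, g1, g2⟩ := hB j
    rw [g2]
    exact smG_stmt k K G g1 fun O g3 => sm O (hC ▸ Set.mem_iUnion.2 ⟨j, g2 ▸ g3⟩)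
  · letI : Algebra k N.X.functionField := (const N.s).toAlgebra
    let ε : N.X.functionField ≃ₐ[k] K := AlgEquiv.ofRingEquiv (f := N.e) N.e_const
    have reg : ∀ q, ∀ f ∈ Sch.OA N q, RegAt q (ε.symm f) := fun q f ⟨u, hu⟩ =>
      ⟨u, ε.eq_symm_apply.2 hu⟩
    obtain ⟨x, y, hxy⟩ := tw.ind
    refine ⟨fun i => ε.symm.toAlgHom.comp (ι i), fun i => ε.symm (ζ i), ε.symm w, x, y, ?_, ?_,
      ?_, fun q => ⟨fun i => ?_, fun i => ?_⟩⟩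
    · have := hxy.map' (f := ε.symm.toAlgHom) ε.symm.injective
      rw [Sum.comp_elim, Sum.comp_elim] at this
      exact this
    · have := congrArg ε.symm tw.eq
      simp only [cb, map_pow, map_mul, map_prod, map_sub, map_one, AlgEquiv.commutes] at this
      exact this
    · have := congrArg (IntermediateField.map ε.symm.toAlgHom) tw.top
      rw [IntermediateField.adjoin_map, Set.image_union, Set.image_union, Set.image_iUnion,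
        ← Set.range_comp, Set.image_singleton, ← AlgHom.fieldRange_eq_map,
        AlgHom.fieldRange_eq_top.2 ε.symm.surjective] at this
      simp only [← Set.range_comp] at this
      exact this
    · obtain ⟨R, hR, hd⟩ := (tw.reg _ (hO q)).1 i
      exact ⟨R, hR, fun a ha => reg q _ (hd a ha)⟩
    · rw [← map_inv₀]
      exact ((tw.reg _ (hO q)).2 i).imp (reg q _) (reg q _)

variable {a r : ℕ} {T : Fin a → Set (Subalgebra k M)} {D₁ D₂ : Fin a → Derivation k M M}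
  {φ : Fin a → M} {l : Fin r → k}

theorem top1 (m : Mods) (b : BMods) (hT : ∀ i, RS.Tower (T i))
    (h1 : ∀ i, RS.BiAnti (T i) (D₁ i) (D₂ i) (φ i))
    (h2 : ∀ i, RS.SmoothZero (T i) (D₁ i) (D₂ i) (φ i)) (ha : 0 < a) (hr : 0 < r)
    (hl : ∀ i, l i ≠ 0 ∧ l i ≠ 1) : Top T φ l := by
  obtain ⟨a, rfl⟩ := Nat.exists_eq_succ_of_ne_zero ha.ne'
  obtain ⟨r, rfl⟩ := Nat.exists_eq_succ_of_ne_zero hr.ne'
  exact m.top1 (fun i => b.p1 m (hT i) (h1 i) (h2 i)) r l hl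

theorem top [CharZero k] (m : Mods) (b : BMods) (x : EMods) (hT : ∀ i, RS.Tower (T i))
    (h1 : ∀ i, RS.BiAnti (T i) (D₁ i) (D₂ i) (φ i))
    (h2 : ∀ i, RS.SmoothZero (T i) (D₁ i) (D₂ i) (φ i)) (ha : 0 < a) (hr : 2 ≤ a + r)
    (hl : ∀ i, l i ≠ 0 ∧ l i ≠ 1) : Top T φ l := by
  rcases r.eq_zero_or_pos with rfl | h0
  · obtain ⟨a, rfl⟩ := Nat.exists_eq_add_of_le' hr
    have h := fun i => b.p1 m (hT i) (h1 i) (h2 i)
    obtain ⟨_, _, _, _, L, _, e, -, o, -⟩ := h 0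
    exact m.top0 h (x.hz m (x.ec m.c.der (hT 0) (h1 0) (h2 0) (e ▸ o.nice.toGood) (e ▸ o.tri))) l
  · exact top1 m b hT h1 h2 ha h0 hl

end Pool.Agent.MP_20d318_ag.KK
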