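import Pool.Agent.MP_20d318_ag.KK.ESpec

/-! Valuation rings over split places contain the constant field of the cover. -/

set_option autoImplicit false
set_option linter.unusedSectionVars false

namespace Pool.Agent.MP_20d318_ag.KK

open Pool.Agent.MP_fd6584_ag.Fn Pool.Agent.CBk Polynomial
open Pool.Agent.MP_fd6584_ag.AG hiding deg_inv deg_congr deg_of_unit deg_mul deg_prod deg_zpow
  deg_eq_zero deg_nonneg deg_div deg_pow
open Pool.Agent.MP_20d318_ag.CH (MW cb Der)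

namespace Fvl

section val

variable {k K R : Type} [Field k] [Field K] [Algebra k K] [CommRing R] {V : Subalgebra k K}

theorem ev_mem (σ : R →+* K) {y : K} (hy : y ∈ V) {q : R[X]} (h : ∀ i, σ (q.coeff i) ∈ V) :
    q.eval₂ σ y ∈ V := by
  rw [eval₂_eq_sum_range]
  exact sum_mem fun i _ => mul_mem (h i) (pow_mem hy i)

theorem ev_mx (hV : IsLocalRing V) (σ : R →+* K) {y : K} (hy : y ∈ V) {q : R[X]}
    (h : ∀ i, σ (q.coeff i) ∈ mx V) : q.eval₂ σ y ∈ mx V := by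
  rw [eval₂_eq_sum_range]
  exact mx_sum hV fun i _ => mx_mul_right (h i) (pow_mem hy i)

theorem low (σ : R →+* K) {y : K} (hy : y ∈ mx V) (y0 : y ≠ 0) (q : R[X]) :
    q ≠ 0 → (∀ i, σ (q.coeff i) ∈ V) → q.eval₂ σ y = 0 →
      ∃ i, q.coeff i ≠ 0 ∧ σ (q.coeff i) ∈ mx V := by
  induction q using degree_lt_wf.induction with
  | _ q ih =>
  intro q0 h e
  have h1 : ∀ i, σ (q.divX.coeff i) ∈ V := fun i => by rw [coeff_divX]; exact h _
  have h2 : q.divX.eval₂ σ y * y + σ (q.coeff 0) = 0 := by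
    rw [← e]
    conv_rhs => rw [← q.divX_mul_X_add, eval₂_add, eval₂_mul, eval₂_X, eval₂_C]
  by_cases c0 : q.coeff 0 = 0
  · rw [c0, map_zero, add_zero, mul_eq_zero] at h2
    have d0 : q.divX ≠ 0 := fun d => q0 (by rw [← q.divX_mul_X_add, d, c0]; simp)
    obtain ⟨i, i0, i1⟩ := ih _ (degree_divX_lt q0) d0 h1 (h2.resolve_right y0)
    rw [coeff_divX] at i0 i1
    exact ⟨_, i0, i1⟩
  · refine ⟨0, c0, ?_⟩
    rw [eq_neg_of_add_eq_zero_right h2]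
    exact mx_neg (mx_mul_left (ev_mem σ hy.1 h1) hy)

theorem unit {N : Type} [Field N] (hV : IsVal V) (σ : N →+* K) (hσ : ∀ m, σ m ∈ V) {y : K}
    (y0 : y ≠ 0) {q : N[X]} (q0 : q ≠ 0) (e : q.eval₂ σ y = 0) : IsU V y := by
  have hy : y ∈ V := by
    refine hV.nrm y ⟨(q * C q.leadingCoeff⁻¹).map (σ.codRestrict V hσ),
      (monic_mul_leadingCoeff_inv q0).map _, ?_⟩
    rw [eval₂_map, show (algebraMap V K).comp (σ.codRestrict V hσ) = σ from rfl, eval₂_mul, e,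
      zero_mul]
  refine isU_of_not_mx hy fun m => ?_
  obtain ⟨i, i0, i1⟩ := low σ m y0 q q0 (fun _ => hσ _) e
  exact i1.2 ⟨(map_ne_zero σ).2 i0, hσ _, map_inv₀ σ _ ▸ hσ _⟩

theorem odd {κ : Type} [Field κ] {A B T : κ[X]} {c : κ} (A0 : A ≠ 0) (hT : T.natDegree = 3)
    (e : A ^ 2 * T = B ^ 2 * C c) : False := by
  have T0 : T ≠ 0 := fun h => by simp [h] at hT
  have h0 : B ^ 2 * C c ≠ 0 := e ▸ mul_ne_zero (pow_ne_zero 2 A0) T0
  have h1 := congrArg natDegree e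
  rw [natDegree_mul (pow_ne_zero 2 A0) T0, natDegree_mul (left_ne_zero_of_mul h0)
    (right_ne_zero_of_mul h0), natDegree_pow, natDegree_pow, natDegree_C, hT] at h1
  omega

end val

section cover

variable {k k₁ M M' F K K₁ : Type} [Field k] [Field k₁] [Field M] [Field M'] [Field F] [Field K]
  [Field K₁] [Algebra k k₁] [Algebra k M] [Algebra k M'] [Algebra k F] [Algebra k K] [Algebra k K₁]
  [Algebra k₁ F] [Algebra k₁ K₁] [IsScalarTower k k₁ F] [IsScalarTower k k₁ K₁]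
  {ι : M →ₐ[k] K} {ι' : M' →ₐ[k] K} {v : K} {φ : M} {μ : M →ₐ[k] F} {ε : F →ₐ[k₁] K₁}
  {j : K →ₐ[k] K₁} {l : k₁} {z w : K₁}

/-- The ring generated by both factors. -/
abbrev DD (k₁ : Type) [Field k₁] [Algebra k k₁] [Algebra k₁ F] [IsScalarTower k k₁ F]
    (μ : M →ₐ[k] F) : Subalgebra k F := Bq μ (IsScalarTower.toAlgHom k k₁ F) ⊤ ⊤ ∅

/-- The constants. -/
def dl (μ : M →ₐ[k] F) : k₁ →+* DD k₁ μ :=
  (algebraMap k₁ F).codRestrict (DD k₁ μ) fun c =>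
    Bq_r (ι' := IsScalarTower.toAlgHom k k₁ F) (a := c) Algebra.mem_top

/-- Evaluation at `z`. -/
noncomputable def pe (μ : M →ₐ[k] F) (ε : F →ₐ[k₁] K₁) (z : K₁) : (DD k₁ μ)[X] →ₐ[k] K₁ :=
  XAlg.ev ((ε.restrictScalars k).comp (DD k₁ μ).val) z

theorem pe_C (d : DD k₁ μ) : pe μ ε z (C d) = ε d := XAlg.ev_C _ _ _

theorem pe_map (q : k₁[X]) : pe μ ε z (q.map (dl μ)) = aeval z q := by
  rw [pe, XAlg.ev_eq, eval₂_map, aeval_def]
  congr 1
  ext c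
  exact ε.commutes c

theorem pe_inj (h : Tr ε z) (g : (DD k₁ μ)[X]) (e : pe μ ε z g = 0) : g = 0 := by
  refine (Polynomial.map_eq_zero_iff (f := ((DD k₁ μ).val : DD k₁ μ →+* F))
    Subtype.val_injective).1 (h _ ?_)
  rw [eval₂_map]
  exact e

theorem aeval_ne (h : Tr ε z) (μ : M →ₐ[k] F) {q : k₁[X]} (q0 : q ≠ 0) : aeval z q ≠ 0 :=
  fun e => q0 ((Polynomial.map_eq_zero_iff (dl μ).injective).1
    (pe_inj (μ := μ) h _ (by rw [pe_map, e])))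

theorem rep (h : Cov ι ι' v φ μ ε j l z w) {b : K} (hb : b ∈ Bq ι ι' ⊤ ⊤ ∅) :
    ∃ (g : (DD k₁ μ)[X]) (q : k₁[X]), q ≠ 0 ∧ j b * aeval z q = pe μ ε z g := by
  have lf : ∀ m, ∃ (g : (DD k₁ μ)[X]) (q : k₁[X]), q ≠ 0 ∧
      j (ι m) * aeval z q = pe μ ε z g := fun m =>
    ⟨C ⟨μ m, Bq_l Algebra.mem_top⟩, 1, one_ne_zero, by rw [pe_C, map_one, mul_one, h.com]⟩
  induction hb using Algebra.adjoin_induction with
  | mem x hx =>
    rcases hx with ⟨m, -, rfl⟩ | ⟨m, -, rfl⟩ | hx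
    · exact lf m
    · obtain ⟨p, q, q0, e⟩ := h.rat m
      exact ⟨p.map (dl μ), q, q0, by
        rw [pe_map, e, div_mul_cancel₀ _ (aeval_ne h.ext.tr μ q0)]⟩
    · exact hx.elim
  | algebraMap c => exact ι.commutes c ▸ lf _
  | add x y _ _ hx hy =>
    obtain ⟨g, q, q0, e⟩ := hx
    obtain ⟨g', q', q0', e'⟩ := hy
    refine ⟨g * q'.map (dl μ) + g' * q.map (dl μ), q * q', mul_ne_zero q0 q0', ?_⟩
    rw [map_add (pe μ ε z), map_mul (pe μ ε z), map_mul (pe μ ε z), pe_map, pe_map, ← e, ← e',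
      map_add, map_mul]
    ring
  | mul x y _ _ hx hy =>
    obtain ⟨g, q, q0, e⟩ := hx
    obtain ⟨g', q', q0', e'⟩ := hy
    refine ⟨g * g', q * q', mul_ne_zero q0 q0', ?_⟩
    rw [map_mul (pe μ ε z), ← e, ← e', map_mul, map_mul]
    ring

theorem cen {P : Place k K} {f : K} (hf : Cen ι ι' (plO P) f) (le : Bq ι ι' ⊤ ⊤ ∅ ≤ plO P)
    {W : Subalgebra k K₁} (h1 : ∀ b ∈ Bq ι ι' ⊤ ⊤ ∅, j b ∈ W)
    (h2 : ∀ b ∈ Bq ι ι' ⊤ ⊤ ∅, j b ∈ mx W → b ∈ mx (plO P)) (n : ℕ) :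
    ∀ b ∈ Bq ι ι' ⊤ ⊤ ∅, b ≠ 0 → P.ord b < n → j b ∈ mx W → j f ∈ mx W := by
  obtain ⟨f0, f1, f2⟩ := hf
  have f3 : P.ord f ≠ 0 :=
    CB.P.XCls.ord_ne f1 ((f2 f f0).2 (by rw [div_self f1]; exact one_mem _))
  have f4 : 0 ≤ P.ord f := mem_plO_ord.1 (le f0)
  induction n with
  | zero => exact fun b hb _ o _ => absurd (mem_plO_ord.1 (le hb)) (not_le.2 o)
  | succ n ih =>
    intro b hb b0 o m
    have h3 := (f2 b hb).1 (h2 b hb m)
    rw [← mul_div_cancel₀ b f1, map_mul] at m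
    refine (mx_or_of_mul (h1 f f0) (h1 _ h3) m).elim id
      (ih _ h3 (div_ne_zero b0 f1) ?_)
    rw [P.ord_div b0 f1]
    push_cast at o
    omega

end cover

end Fvl

open Fvl in
theorem fv_stmt : FvStmt := by
  intro k k₁ M M' F K K₁ _ _ _ _ _ _ _ _ _ _ _ _ _ _ _ _ _ _ _ ι ι' v φ φ' μ ε j l z w hE h hc
    P V hP hs hV hj
  obtain ⟨f, hf⟩ := hc P hP
  have loc := hV.isLocalRing
  have le : Bq ι ι' ⊤ ⊤ ∅ ≤ plO P := le_trans (Algebra.adjoin_mono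
    (Set.union_subset_union_right _ (Set.union_subset_union_right _ (Set.empty_subset _)))) hP.2.1
  have jV : ∀ b ∈ plO P, j b ∈ V := fun b hb => by rw [← hj] at hb; exact hb
  have u1 : ∀ p : k₁[X], p ≠ 0 → IsU V (aeval z p) := fun p p0 => by
    obtain ⟨q, q0, e⟩ := h.algN p
    exact unit hV (j.comp ι' : M' →+* K₁) (fun m => jV (ι' m) (le (Bq_r Algebra.mem_top)))
      (aeval_ne h.ext.tr μ p0) q0 e
  have zV : z ∈ V := by simpa using (u1 X X_ne_zero).mem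
  have dV : ∀ d ∈ DD k₁ μ, ε d ∈ V := fun d hd => by
    refine (Algebra.adjoin_le ?_ : DD k₁ μ ≤ V.comap (ε.restrictScalars k)) hd
    rintro _ (⟨m, -, rfl⟩ | ⟨c, -, rfl⟩ | hx)
    · exact show ε (μ m) ∈ V from h.com m ▸ jV _ (le (Bq_l Algebra.mem_top))
    · change ε (algebraMap k₁ F c) ∈ V
      rw [ε.commutes]
      rcases eq_or_ne c 0 with rfl | c0
      · rw [map_zero]; exact zero_mem _
      · simpa using (u1 (C c) (C_ne_zero.2 c0)).mem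
    · exact hx.elim
  refine ⟨fun x => ?_, u1⟩
  obtain ⟨a, ha, d, hd, d0, rfl⟩ := h.rt x
  rw [map_div₀]
  refine (isU_of_not_mx (dV d hd) fun dm => ?_).div_mem (dV a ha)
  let χ : DD k₁ μ →+* IsLocalRing.ResidueField V := (IsLocalRing.residue V).comp
    (((ε : F →+* K₁).comp (DD k₁ μ).val).codRestrict V fun a => dV a a.2)
  have hχ : ∀ a : DD k₁ μ, χ a = 0 ↔ ε a ∈ mx V := fun a =>
    (IsLocalRing.residue_eq_zero_iff _).trans (mem_mx_iff (O := V) ⟨ε a, dV a a.2⟩).symm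
  obtain ⟨W, hW, w1⟩ := exists_val_of (pe μ ε z) (mapRingHom χ) fun g e => by
    rw [pe_inj h.ext.tr g e, map_zero]
  simp only [coe_mapRingHom] at w1
  have u2 : ∀ p : k₁[X], p ≠ 0 → IsU W (aeval z p) := fun p p0 => by
    rw [← pe_map (μ := μ) (ε := ε)]
    refine isU_of_not_mx (w1 _).1 fun m => p0 ?_
    have := (w1 _).2.1 m
    rwa [Polynomial.map_map, Polynomial.map_eq_zero] at this
  have h1 : ∀ b ∈ Bq ι ι' ⊤ ⊤ ∅, j b ∈ W := fun b hb => by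
    obtain ⟨g, q, q0, e⟩ := rep h hb
    rw [eq_div_of_mul_eq (u2 q q0).ne e]
    exact (u2 q q0).div_mem (w1 g).1
  have h2 : ∀ b ∈ Bq ι ι' ⊤ ⊤ ∅, j b ∈ mx W → b ∈ mx (plO P) := fun b hb m => by
    obtain ⟨g, q, q0, e⟩ := rep h hb
    have g0 := (w1 g).2.1 (e ▸ mx_mul_right m (u2 q q0).mem)
    rw [← hj, mem_mx_comap, eq_div_of_mul_eq (u2 q q0).ne e]
    refine mx_div (ev_mx loc _ zV fun i => (hχ _).1 ?_) (u1 q q0)
    rw [← coeff_map, g0, coeff_zero]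
  have dW : ε d ∈ mx W := by
    have := (w1 (C ⟨d, hd⟩)).2.2 (by rw [Polynomial.map_C, (hχ _).2 dm, C_0])
    rwa [pe_C] at this
  obtain ⟨p, p0, pc, pe0⟩ := h.alg (ε d)
  obtain ⟨i, i0, i1⟩ := low (j : K →+* K₁) dW ((map_ne_zero ε).2 d0) p p0
    (fun i => h1 _ (pc i)) pe0
  have fW := cen hf le h1 h2 ((P.ord (p.coeff i)).natAbs + 1) _ (pc i) i0
    (by push_cast; exact lt_of_le_of_lt (le_abs_self _) (lt_add_one _)) i1
  obtain ⟨b, hb, c, hc, cm, sp⟩ := hs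
  have vP : v ∈ plO P := hP.2.1 (Bq_g rfl)
  have φB : ι φ ∈ Bq ι ι' ⊤ ⊤ ∅ := Bq_l Algebra.mem_top
  have EB : c ^ 2 * ι' φ' - b ^ 2 * ι φ ∈ Bq ι ι' ⊤ ⊤ ∅ :=
    sub_mem (mul_mem (pow_mem hc 2) (Bq_r Algebra.mem_top)) (mul_mem (pow_mem hb 2) φB)
  have EW : j (c ^ 2 * ι' φ' - b ^ 2 * ι φ) ∈ mx W := by
    have h3 := (hf.2.2 _ EB).1 (by
      rw [← hE.eq, show c ^ 2 * (v ^ 2 * ι φ) - b ^ 2 * ι φ =
        (c * v - b) * ((c * v + b) * ι φ) by ring]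
      exact mx_mul_right sp (mul_mem (add_mem (mul_mem (le hc) vP) (le hb)) (le φB)))
    rw [← mul_div_cancel₀ (c ^ 2 * ι' φ' - b ^ 2 * ι φ) hf.2.1, map_mul]
    exact mx_mul_right fW (h1 _ h3)
  obtain ⟨p₁, q₁, p10, q10, e1⟩ := h.vw
  obtain ⟨gc, qc, qc0, ec⟩ := rep h hc
  obtain ⟨gb, qb, qb0, eb⟩ := rep h hb
  have ψ0 : ε (μ φ) ≠ 0 := (map_ne_zero ε).2 h.ext.φne
  have e2 : w ^ 2 = ε (μ φ) * aeval z (X * (X - C 1) * (X - C l)) := by
    rw [h.ext.eq]; simp [cb]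
  have e3 : j (ι' φ') * aeval z q₁ ^ 2 = aeval z p₁ ^ 2 * aeval z (X * (X - C 1) * (X - C l)) := by
    refine mul_left_cancel₀ ψ0 ?_
    rw [← hE.eq, map_mul, map_pow, h.com]
    linear_combination (j v * ε (μ φ) * aeval z q₁ + aeval z p₁ * w) * e1 + aeval z p₁ ^ 2 * e2
  have h4 := (w1 ((gc * (p₁ * qb).map (dl μ)) ^ 2 * (X * (X - C 1) * (X - C l)).map (dl μ) -
      (gb * (q₁ * qc).map (dl μ)) ^ 2 * C ⟨μ φ, Bq_l Algebra.mem_top⟩)).2.1 (by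
    have h5 := mx_mul_right EW (pow_mem (u2 _ (mul_ne_zero q10 (mul_ne_zero qc0 qb0))).mem 2)
    convert h5 using 1
    simp only [map_sub (pe μ ε z), map_mul (pe μ ε z), map_pow (pe μ ε z), pe_map, pe_C, ← ec,
      ← eb, map_sub j, map_mul j, map_pow j, h.com]
    rw [map_mul _ p₁, map_mul _ q₁, map_mul _ q₁, map_mul _ qc]
    linear_combination (-(j c * aeval z qc * aeval z qb) ^ 2) * e3)
  rw [Polynomial.map_sub, sub_eq_zero, Polynomial.map_mul, Polynomial.map_mul (q := C _),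
    Polynomial.map_pow, Polynomial.map_pow, Polynomial.map_C] at h4
  refine odd ?_ ?_ h4
  · refine fun e => ((isU_of_not_mx (h1 c hc) fun m => cm (h2 c hc m)).mul
      ((u2 qc qc0).mul (u2 _ (mul_ne_zero p10 qb0)))).not_mx ?_
    have := (w1 _).2.2 e
    rwa [map_mul, pe_map, ← ec, mul_assoc] at this
  · rw [Polynomial.map_map, natDegree_map, natDegree_mul (mul_ne_zero X_ne_zero
      (X_sub_C_ne_zero 1)) (X_sub_C_ne_zero l), natDegree_mul X_ne_zero (X_sub_C_ne_zero 1),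
      natDegree_X, natDegree_X_sub_C, natDegree_X_sub_C]

end Pool.Agent.MP_20d318_ag.KK
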