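import Pool.Agent.MP_20d318_ag.KK.Spec

/-! Row GA: the extension of a place to the compositum. -/

set_option autoImplicit false

open scoped TensorProduct

namespace Pool.Agent.MP_20d318_ag.KK

open Pool.Agent.MP_fd6584_ag.Fn Pool.Agent.CBk
open Pool.Agent.MP_fd6584_ag.AG hiding deg_inv deg_congr deg_of_unit deg_mul deg_prod deg_zpow
  deg_eq_zero deg_nonneg deg_div deg_pow

theorem ga_stmt : GaStmt := by
  intro k M M' K _ _ _ _ _ _ _ _ _ ι ι' hd P
  classical
  have hO := plO_isVal P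
  have := hO.isLocalRing
  have := td (k := k) (L := IsLocalRing.ResidueField (plO P)) (K := M')
  have e : ∀ z, pm (ι.comp (plO P).val) ι' z = pm ι ι' (inc M' (plO P) z) := fun z => by
    induction z with
    | zero => simp
    | tmul a b => rfl
    | add a b ha hb => rw [map_add, map_add, map_add, ha, hb]
  obtain ⟨V, hV, h⟩ := exists_val_of (pm (ι.comp (plO P).val) ι')
    (Algebra.TensorProduct.map (resid (plO P)) (AlgHom.id k M')).toRingHom fun b hb => by
      rw [inc_inj _ (a₁ := b) (a₂ := 0) (hd (by rw [← e, hb, map_zero, map_zero])), map_zero]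
  have e1 : ∀ a : plO P, pm (ι.comp (plO P).val) ι' (a ⊗ₜ 1) = ι a := fun a => by simp [pm_tmul]
  have d : Dom (plO P) (V.comap ι) := by
    refine ⟨fun a ha => ?_, fun u hu q => resid_loc ⟨u, hu⟩ fun z => ?_⟩
    · exact (e1 ⟨a, ha⟩ ▸ (h _).1 : ι a ∈ V)
    · refine ((isU_comap ι).1 q).not_mx (e1 ⟨u, hu⟩ ▸ (h _).2.2 ?_)
      simp [z]
  refine ⟨V, hV, ⟨hV.isLocalRing, d, fun a _ => ?_, fun u _ q => isU_top.2 q.1⟩,
    fun I s m m' hm hS i hi => by_contra fun hn => ?_⟩
  · simpa [pm_tmul] using (h (1 ⊗ₜ a)).1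
  obtain ⟨j, hj, hx⟩ := s.exists_max_image (fun i => P.v (m i)) ⟨i, hi⟩
  have n1 : m j ∉ plO P := fun q => hn ((hx i hi).trans q)
  have n0 : m j ≠ 0 := fun q => n1 (q ▸ zero_mem _)
  have hc : ∀ i ∈ s, m i / m j ∈ plO P := fun i hi => by
    rw [mem_plO, map_div₀]
    exact div_le_one_of_le₀ (hx i hi) zero_le
  let c : I → plO P := fun i => if q : i ∈ s then ⟨_, hc i q⟩ else 0
  have e2 : pm (ι.comp (plO P).val) ι' (∑ i ∈ s, c i ⊗ₜ m' i) =
      (∑ i ∈ s, ι (m i) * ι' (m' i)) * ι (m j)⁻¹ := by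
    rw [map_sum, Finset.sum_mul]
    refine Finset.sum_congr rfl fun i hi => ?_
    simp only [c, dif_pos hi, pm_tmul, AlgHom.comp_apply, Subalgebra.val_apply, div_eq_mul_inv,
      map_mul]
    ring
  have e3 := (h _).2.1 (e2 ▸ mx_mul_left hS ((mem_mx_comap ι).1 (d.mx (hO.inv_mx n1))))
  have e4 := linearIndependent_iff'.1 (Module.Flat.linearIndependent_one_tmul
    (S := IsLocalRing.ResidueField (plO P)) hm) s (fun i => resid (plO P) (c i)) (by
      rw [← e3, map_sum]
      exact Finset.sum_congr rfl fun i _ => by simp [TensorProduct.smul_tmul']) j hj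
  have e5 : c j = 1 := Subtype.ext (by simp [c, hj, n0])
  simp [e5] at e4

end Pool.Agent.MP_20d318_ag.KK
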