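import Pool.Agent.MP_20d318_ag.KK.ESpec

/-! Row GPT: the generic point of a smooth plane sextic. -/

set_option autoImplicit false

namespace Pool.Agent.MP_20d318_ag.KK

open Polynomial

namespace Gpt

open MvPolynomial (pderiv)

variable {k : Type} [Field k]

theorem scal {H : MvPolynomial (Fin 3) k} {n : ℕ} (h : H.IsHomogeneous n) (z : k) (p : Fin 3 → k) :
    MvPolynomial.eval (fun i => z * p i) H = z ^ n * MvPolynomial.eval p H := by
  rw [MvPolynomial.eval_eq', MvPolynomial.eval_eq', Finset.mul_sum]
  refine Finset.sum_congr rfl fun m hm => ?_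
  have : ∑ i, m i = n := by
    rw [← Finsupp.degree_eq_sum]
    by_contra e
    exact MvPolynomial.mem_support_iff.1 hm (h.coeff_eq_zero e)
  simp only [mul_pow, Finset.prod_mul_distrib, Finset.prod_pow_eq_pow_sum, this]
  ring

theorem pcomm (i j : Fin 3) (G : MvPolynomial (Fin 3) k) :
    pderiv i (pderiv j G) = pderiv j (pderiv i G) := by
  induction G using MvPolynomial.induction_on with
  | C a => simp
  | add p q hp hq => simp [hp, hq]
  | mul_X p l hp =>
    have e : ∀ a b : Fin 3, pderiv a (pderiv b (MvPolynomial.X l : MvPolynomial (Fin 3) k)) = 0 :=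
      fun a b => by
        rw [MvPolynomial.pderiv_X, Pi.single_apply]; split_ifs <;> simp
    simp only [Derivation.leibniz, map_add, smul_eq_mul, e, hp]
    ring

theorem chain {L : Type} [Field L] [Algebra k L] (t : L) (G : MvPolynomial (Fin 3) k) :
    derivative (MvPolynomial.aeval ![C t, X, 1] G) =
      MvPolynomial.aeval ![C t, X, 1] (pderiv 1 G) := by
  induction G using MvPolynomial.induction_on with
  | C a => simp
  | add p q hp hq => simp [hp, hq]
  | mul_X p l hp =>
    simp only [Derivation.leibniz, map_add, map_mul, smul_eq_mul, derivative_mul, hp]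
    fin_cases l <;> simp [MvPolynomial.pderiv_X, add_comm, mul_comm]

theorem van [Infinite k] {L : Type} [Field L] [Algebra k L] {t : L} (ht : Transcendental k t)
    {H : MvPolynomial (Fin 3) k} {n : ℕ} (h : H.IsHomogeneous n)
    (h0 : MvPolynomial.aeval ![C t, X, 1] H = 0) : H = 0 := by
  have h1 : MvPolynomial.aeval ![C X, X, (1 : k[X][X])] H = 0 := by
    apply map_injective (aeval t : k[X] →ₐ[k] L).toRingHom (transcendental_iff_injective.1 ht)
    rw [Polynomial.map_zero, ← h0]
    refine (MvPolynomial.comp_aeval_apply _ (mapAlgHom (aeval t : k[X] →ₐ[k] L)) H).trans ?_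
    congr 2
    funext i
    fin_cases i <;> simp
  have h2 : ∀ x y : k, MvPolynomial.eval ![x, y, 1] H = 0 := fun x y => by
    have := congrArg (aevalAeval (R := k) x y) h1
    rw [map_zero, MvPolynomial.comp_aeval_apply] at this
    rw [← this, ← MvPolynomial.aeval_eq_eval]
    congr 2
    funext i
    fin_cases i <;> simp
  refine (mul_eq_zero.1 (MvPolynomial.funext fun p => ?_)).resolve_left (MvPolynomial.X_ne_zero 2)
  rw [map_mul, MvPolynomial.eval_X, map_zero, mul_eq_zero, or_iff_not_imp_left]
  intro z
  have := scal h (p 2) ![p 0 / p 2, p 1 / p 2, 1]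
  rw [h2, mul_zero] at this
  rw [← this]
  congr 2
  funext i
  fin_cases i <;> simp [mul_div_cancel₀ _ z]

theorem top [CharZero k] {H : MvPolynomial (Fin 3) k} {n : ℕ} (h : H.IsHomogeneous (n + 1))
    (h0 : pderiv 1 H = 0) : MvPolynomial.aeval ![(0 : k), 1, 0] H = 0 := by
  have := congrArg (MvPolynomial.aeval ![(0 : k), 1, 0]) h.sum_X_mul_pderiv
  simpa [Fin.sum_univ_three, h0, Nat.cast_add_one_ne_zero] using this

theorem der (L : Type) [Field L] [Algebra k L] [Algebra k[X] L] [IsScalarTower k k[X] L]
    [Algebra.FormallyEtale k[X] L] : ∃ d : Derivation k L L, d (algebraMap k[X] L X) = 1 := by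
  have h := KaehlerDifferential.isBaseChange_of_formallyEtale k k[X] L
  refine ⟨(h.lift (Algebra.linearMap k[X] L ∘ₗ (KaehlerDifferential.polynomialEquiv k).toLinearMap)
    ).compDer (KaehlerDifferential.D k L), ?_⟩
  change h.lift _ (KaehlerDifferential.D k L _) = 1
  rw [← KaehlerDifferential.map_D k k k[X] L, h.lift_eq]
  simp

end Gpt

open Gpt in
theorem gpt_stmt : GptStmt := by
  intro k _ _ _ G hG
  let L := AlgebraicClosure (FractionRing k[X])
  have : Algebra.FormallyEtale k[X] (FractionRing k[X]) :=
    .of_isLocalization (nonZeroDivisors k[X])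
  have : Algebra.FormallyEtale (FractionRing k[X]) L := .of_isSeparable _ _
  have : Algebra.FormallyEtale k[X] L := .comp _ (FractionRing k[X]) _
  obtain ⟨d, hd⟩ := der (k := k) L
  have e : ∀ p : k[X], aeval (algebraMap k[X] L X) p = algebraMap k[X] L p := fun p => by
    rw [aeval_algebraMap_apply, aeval_X_left_apply]
  have inj : Function.Injective (algebraMap k[X] L) := by
    rw [IsScalarTower.algebraMap_eq k[X] (FractionRing k[X]) L]
    exact (algebraMap (FractionRing k[X]) L).injective.comp
      (IsFractionRing.injective k[X] (FractionRing k[X]))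
  have ht : Transcendental k (algebraMap k[X] L X) := transcendental_iff_injective.2 fun p q h =>
    inj ((e p).symm.trans (h.trans (e q)))
  have ha : Algebra.IsAlgebraic k[X] L :=
    (IsFractionRing.comap_isAlgebraic_iff (K := FractionRing k[X])).2 inferInstance
  generalize hT : algebraMap k[X] L X = t at *
  have hP : (MvPolynomial.aeval ![C t, X, 1] G).degree ≠ 0 := fun z => by
    have h1 : MvPolynomial.pderiv 1 G = 0 := van ht hG.1.pderiv (by
      rw [← chain, eq_C_of_degree_eq_zero z, derivative_C])
    obtain ⟨i, hi⟩ := hG.2 k ![0, 1, 0] (fun y => by simpa using congrFun y 1) (top hG.1 h1)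
    exact hi (top (n := 4) hG.1.pderiv (by rw [pcomm, h1, map_zero]))
  obtain ⟨u, hu⟩ := IsAlgClosed.exists_root _ hP
  refine ⟨L, _, inferInstance, _, d, t, u, hG, hd, ?_, ⟨fun x => ?_⟩⟩
  · rw [← hu.eq_zero, ← coe_aeval_eq_eval]
    refine Eq.trans ?_ (MvPolynomial.comp_aeval_apply _ ((aeval u).restrictScalars k) G).symm
    congr 2
    funext i
    fin_cases i <;> simp
  · obtain ⟨p, p0, p1⟩ := ha.1 x
    let φ : k[X] →ₐ[k] Algebra.adjoin k {t} := aeval ⟨t, Algebra.subset_adjoin rfl⟩
    have e2 : (algebraMap (Algebra.adjoin k {t}) L).comp φ.toRingHom = algebraMap k[X] L :=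
      RingHom.ext fun q => (aeval_algebraMap_apply L
        (⟨t, Algebra.subset_adjoin rfl⟩ : Algebra.adjoin k {t}) q).symm.trans (e q)
    refine ⟨p.map φ.toRingHom, (Polynomial.map_ne_zero_iff (Function.Injective.of_comp
      (f := algebraMap _ L) (by rw [← RingHom.coe_comp, e2]; exact inj))).2 p0, ?_⟩
    rw [aeval_def, eval₂_map, e2]
    exact p1

end Pool.Agent.MP_20d318_ag.KK
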