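import Pool.Agent.MP_20d318_ag.KK.LSpec
import Pool.Agent.MP_20d318_ag.CH.Gkc

/-! Row HFC: half of the components can be subtracted when all have square `-4`. -/

set_option autoImplicit false
set_option linter.unusedSectionVars false

namespace Pool.Agent.MP_20d318_ag.KK

open Pool.Agent.MP_20d318_ag.Lat hiding act actW W
open Pool.Agent.MP_20d318_ag.CH
open Pool.Agent.MP_20d318_ag.CB

namespace Hfc

variable {ι κ : Type} [Fintype ι] [Fintype κ] {Λ : Ld ι κ} {G : Set (Matrix ι ι ℤ)}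
  {L : ι → ℝ} {x : κ → ℝ}

theorem half (xn : CC.XN Λ) (hL : L ∈ Λ.NT) (x0 : ∀ i, 0 ≤ x i)
    (hx : ∀ i, L - x i • toR (Λ.C i) ∈ Λ.NT) {b : ι → ℤ} (hb : b ∈ CC.HC Λ) :
    ∑ i, x i ≤ 2 * ip Λ.B L (toR b) := by
  classical
  obtain ⟨e⟩ := xn.four b hb
  have a0 : ∀ i k : κ, 0 ≤ if i = k then x i else 0 := fun i k => by
    split_ifs
    exacts [x0 i, le_rfl]
  have key := fun f : Fin 4 → κ => xn.s2
    (L, ∑ i, ∑ j, if i = f j then x i else 0, fun i j => if i = f j then x i else 0)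
    ⟨fun i j => a0 _ _, fun k => Finset.single_le_sum
      (f := fun i => ∑ j, if i = f j then x i else 0)
      (fun i _ => Finset.sum_nonneg fun j _ => a0 _ _) (Finset.mem_univ k), hL, fun j => by
        simpa only [ite_smul, zero_smul, Finset.sum_ite_eq', Finset.mem_univ, if_true]
          using hx (f j)⟩ b hb e 0 1
  have h1 := key ![e 0, e 2, e 0, e 0]
  have h2 := key ![e 1, e 3, e 0, e 0]
  change ite (e 0 = e 0) _ _ + ite (e 1 = e 0) _ _ + ite (e 2 = e 2) _ _ + ite (e 3 = e 2) _ _ ≤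
    ip Λ.B L (toR b) at h1
  change ite (e 0 = e 1) _ _ + ite (e 1 = e 1) _ _ + ite (e 2 = e 3) _ _ + ite (e 3 = e 3) _ _ ≤
    ip Λ.B L (toR b) at h2
  rw [if_pos rfl, if_pos rfl] at h1 h2
  rw [← Equiv.sum_comp e x, Fin.sum_univ_four]
  split_ifs at h1 h2 <;> linarith [x0 (e 0), x0 (e 1), x0 (e 2), x0 (e 3)]

open Classical in
theorem dec (h : CC.B0 Λ) (xn : CC.XN Λ) (hL : L ∈ Λ.NT) (x0 : ∀ i, 0 ≤ x i)
    (hx : ∀ i, L - x i • toR (Λ.C i) ∈ Λ.NT) :
    (∃ N y, CC.KH Λ L N x y ∧ (2 : ℝ) • N = (2 : ℝ) • L - ∑ i, x i • toR (Λ.C i)) ∨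
      ∃ N y m, CC.KH Λ L N x y ∧
        N = (2 : ℝ) • L - ∑ i, x i • toR (Λ.C i) - (L - x m • toR (Λ.C m)) := by
  by_cases c : ∀ k, 2 * x k ≤ ∑ i, x i
  · refine .inl ⟨_, fun k => x k / 2, ⟨hL, hx, fun k => by linarith [x0 k],
      fun k => by linarith [x0 k], fun k => ?_, fun b hb => ?_, rfl⟩, ?_⟩
    · rw [← Finset.sum_div]
      linarith [c k]
    · rw [← Finset.sum_div]
      linarith [half xn hL x0 hx hb]
    · rw [smul_sub, Finset.smul_sum]
      exact congrArg _ (Finset.sum_congr rfl fun k _ => by rw [smul_smul, mul_div_cancel₀ _ two_ne_zero])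
  · obtain ⟨m, hm⟩ := not_forall.1 c
    have y0 : ∀ k, 0 ≤ Function.update x m 0 k := fun k => by
      rcases eq_or_ne k m with rfl | e
      · rw [Function.update_self]
      · rw [Function.update_of_ne e]; exact x0 k
    have s : ∑ k, Function.update x m 0 k + x m = ∑ k, x k := by
      rw [Finset.sum_update_of_mem (Finset.mem_univ m), zero_add,
        Finset.sum_eq_sum_sdiff_singleton_add (Finset.mem_univ m) x]
    refine .inr ⟨_, Function.update x m 0, m, ⟨hL, hx, y0, fun k => ?_, fun k => ?_,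
      fun b hb => ?_, rfl⟩, ?_⟩
    · rcases eq_or_ne k m with rfl | e
      · rw [Function.update_self]; exact x0 k
      · rw [Function.update_of_ne e]
    · rcases eq_or_ne k m with rfl | e
      · exact s.le
      · have := Finset.single_le_sum (fun i _ => y0 i) (Finset.mem_univ k)
        rw [Function.update_of_ne e] at this
        linarith
    · have := h.lb.efr _ (hx m) b (h.lb.ne b hb.1).2
      rw [ip_sub_left, ip_smul_left, ip_toR, hb.2.2.2 m, Int.cast_one] at this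
      linarith
    · rw [Finset.sum_eq_sum_sdiff_singleton_add (Finset.mem_univ m),
        Finset.sum_eq_sum_sdiff_singleton_add (Finset.mem_univ m) fun i => x i • toR (Λ.C i),
        Function.update_self, zero_smul, two_smul, Finset.sum_congr rfl fun k hk => by
          rw [Function.update_of_ne (by simpa using hk)]]
      abel

theorem ef (h : CC.B0 Λ) (key : CC.KEY Λ) {N : ι → ℝ} {y : κ → ℝ} (k : CC.KH Λ L N x y) {n : ℕ}
    (hn : 0 < n) {c : ι → ℤ} (e0 : (n : ℝ) • N = toR c) : N ∈ (ldN Λ G).Ef := by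
  obtain ⟨T, hT, n1⟩ := key L N x y k
  have n2 := Gkc.rat (G := G) h hn (c := c + ∑ e ∈ T, ip Λ.B c e • e) (by
    simp only [toR_add, toR_sum (s := T), toR_zsmul, ← ip_toR, ← e0, ip_smul_left, smul_add,
      Finset.smul_sum, smul_smul]) n1
  have C := isCone_cone (toR '' Λ.P)
  have n3 := C.add _ n2 _ (C.sum_mem T (fun e => (-ip Λ.B N (toR e)) • toR e)
    fun e he => C.smul _ (neg_nonneg.2 (hT e he).2.le) _ (ld_ef (G := G) (hT e he).1))
  simp only [neg_smul, Finset.sum_neg_distrib, add_neg_cancel_right] at n3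
  exact n3

theorem cur (h : CC.B0 Λ) (xn : CC.XN Λ) (key : CC.KEY Λ) (hL : L ∈ Λ.NT) (x0 : ∀ i, 0 ≤ x i)
    (hx : ∀ i, L - x i • toR (Λ.C i) ∈ Λ.NT) {c : ι → ℤ} (hc : c ∈ Λ.P) :
    0 ≤ ip Λ.B ((2 : ℝ) • L - ∑ i, x i • toR (Λ.C i)) (toR c) := by
  classical
  rcases le_or_gt 0 (ip Λ.B c c) with hcc | hcc
  · rcases dec h xn hL x0 hx with ⟨N, y, k, e⟩ | ⟨N, y, m, k, e⟩
    · rw [← e, ip_smul_left]
      exact mul_nonneg zero_le_two (CC.LcA.nefc h key k hc hcc)
    · have := CC.LcA.nefc h key k hc hcc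
      rw [e, ip_sub_left] at this
      linarith [hx m c hc]
  · obtain ⟨a, b, hab⟩ := Gkc.two h hc hcc
    have h0 := hL c hc
    have h1 := hx a c hc
    have h2 := hx b c hc
    simp only [ip_sub_left, ip_smul_left, ip_sum_left] at h1 h2 ⊢
    rw [← Finset.sum_subset (Finset.subset_univ {a, b}) fun i _ hi => by
      rw [Finset.mem_insert, Finset.mem_singleton, not_or] at hi
      rw [ip_toR, hab i hi.1 hi.2, Int.cast_zero, mul_zero]]
    rcases eq_or_ne a b with rfl | e
    · rw [Finset.pair_eq_singleton, Finset.sum_singleton]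
      linarith
    · rw [Finset.sum_pair e]
      linarith

end Hfc

open Hfc in
theorem hfc_stmt : HfcStmt := by
  intro ι κ _ _ Λ G h xn key
  refine ⟨fun c L hL x x0 hx => ?_, fun L hL hΛ x x0 xz hx => ?_⟩ <;> rw [ld_nef] at hL hx
  · exact cur h xn key hL x0 hx c.2
  · obtain ⟨l, rfl⟩ := hΛ
    choose z hz using xz
    have e1 : (2 : ℝ) • toR l - ∑ i, x i • toR (Λ.C i) = toR (l + l - ∑ i, z i • Λ.C i) := by
      simp only [toR_sub, toR_add, toR_sum, toR_zsmul, two_smul, hz]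
    have e2 : ∀ m, toR l - x m • toR (Λ.C m) = toR (l - z m • Λ.C m) := fun m => by
      simp only [toR_sub, toR_zsmul, hz]
    have C := isCone_cone (toR '' Λ.P)
    simp only [ld_c] at hx ⊢
    rcases dec h xn hL x0 hx with ⟨N, y, k, e⟩ | ⟨N, y, m, k, e⟩
    · rw [← e]
      exact C.smul _ zero_le_two _ (ef (G := G) h key k two_pos (by exact_mod_cast e.trans e1))
    · rw [← eq_sub_iff_add_eq.1 e]
      refine C.add _ (ef (G := G) h key k one_pos (c := l + l - ∑ i, z i • Λ.C i - (l - z m • Λ.C m))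
        ?_) _ (Gkc.rat (G := G) h one_pos (c := l - z m • Λ.C m) ?_ (hx m))
      · rw [Nat.cast_one, one_smul, e, e1, e2, ← toR_sub]
      · rw [Nat.cast_one, one_smul, e2]

end Pool.Agent.MP_20d318_ag.KK
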