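import Pool.Agent.MP_20d318_ag.KK.Spec

/-! The compositum of two fields and its quadratic extension exist. -/

set_option autoImplicit false
set_option linter.unusedSectionVars false

open scoped TensorProduct

namespace Pool.Agent.MP_20d318_ag.KK

open Polynomial

namespace Homa

variable {k M M' K K' : Type} [Field k] [Field M] [Field M'] [Field K] [Field K'] [Algebra k M]
  [Algebra k M'] [Algebra k K] [Algebra k K']

theorem base [IsAlgClosed k] : ∃ (K : Type) (_ : Field K) (_ : Algebra k K) (ι : M →ₐ[k] K)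
    (ι' : M' →ₐ[k] K), Dj ι ι' ∧ ∀ x, Rt ι ι' x := by
  have : NoZeroDivisors (M ⊗[k] M') := td
  have : IsDomain (M ⊗[k] M') := NoZeroDivisors.to_isDomain _
  let g : M ⊗[k] M' →ₐ[k] FractionRing (M ⊗[k] M') := IsScalarTower.toAlgHom k _ _
  have hg : Function.Injective g := IsFractionRing.injective (M ⊗[k] M') _
  have e : pm (g.comp Algebra.TensorProduct.includeLeft)
      (g.comp Algebra.TensorProduct.includeRight) = g := by
    refine AlgHom.ext fun z => ?_
    induction z with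
    | zero => simp
    | tmul a b =>
      rw [pm_tmul, AlgHom.comp_apply, AlgHom.comp_apply, ← map_mul]
      simp
    | add a b ha hb => rw [map_add, map_add, ha, hb]
  refine ⟨FractionRing (M ⊗[k] M'), inferInstance, inferInstance,
    g.comp Algebra.TensorProduct.includeLeft, g.comp Algebra.TensorProduct.includeRight,
    by rw [Dj, e]; exact hg, fun x => ?_⟩
  obtain ⟨a, b, hb, rfl⟩ := IsFractionRing.div_surjective (A := M ⊗[k] M') x
  rw [Rt, ← Bq_top, e]
  exact ⟨g a, ⟨a, rfl⟩, g b, ⟨b, rfl⟩,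
    (map_ne_zero_iff g hg).2 (nonZeroDivisors.ne_zero hb), rfl⟩

theorem pm_comp (ι : M →ₐ[k] K) (ι' : M' →ₐ[k] K) (j : K →ₐ[k] K') (z : M ⊗[k] M') :
    pm (j.comp ι) (j.comp ι') z = j (pm ι ι' z) := by
  induction z with
  | zero => simp
  | tmul a b => rw [pm_tmul, pm_tmul, map_mul]; rfl
  | add a b ha hb => rw [map_add, map_add, map_add, ha, hb]

theorem mem {ι : M →ₐ[k] K} {ι' : M' →ₐ[k] K} (j : K →ₐ[k] K') (F : IntermediateField k K')
    (h : ∀ m, j (ι m) ∈ F) (h' : ∀ m, j (ι' m) ∈ F) {x : K} (hx : Rt ι ι' x) : j x ∈ F := by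
  have key : ∀ z, j (pm ι ι' z) ∈ F := fun z => by
    induction z with
    | zero => simp
    | tmul a b => rw [pm_tmul, map_mul]; exact mul_mem (h a) (h' b)
    | add a b ha hb => rw [map_add, map_add]; exact add_mem ha hb
  rw [Rt, ← Bq_top] at hx
  obtain ⟨_, ⟨a, rfl⟩, _, ⟨b, rfl⟩, -, rfl⟩ := hx
  rw [map_div₀]
  exact div_mem (key a) (key b)

end Homa

theorem homa_stmt : HomaStmt := by
  intro hn k M M' _ _ _ _ _ _ _ φ φ' e he h1 h2
  obtain ⟨K, _, _, ι, ι', hd, hr⟩ := Homa.base (k := k) (M := M) (M' := M')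
  have p0 : φ ≠ 0 := fun q => h1 (q ▸ IsSquare.zero)
  have p1 : φ' ≠ 0 := fun q => h2 (q ▸ IsSquare.zero)
  have i0 : ι φ ≠ 0 := (map_ne_zero ι).2 p0
  rcases he with rfl | rfl
  · refine ⟨K, _, _, ι, ι', ι' φ' / ι φ, Or.inl rfl, h1, h2, hd,
      by rw [pow_one, div_mul_cancel₀ _ i0], eq_top_iff.2 fun x _ => ?_⟩
    exact Homa.mem (AlgHom.id k K) _
      (fun m => IntermediateField.subset_adjoin _ _ (Or.inl ⟨m, rfl⟩))
      (fun m => IntermediateField.subset_adjoin _ _ (Or.inr (Or.inl ⟨m, rfl⟩))) (hr x)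
  · have hi : Irreducible (X ^ 2 - C (ι' φ' / ι φ)) :=
      X_pow_sub_C_irreducible_of_prime Nat.prime_two fun b hb =>
        hn k M M' K ι ι' hd φ φ' h1 p1 (b * ι φ) (hr _) (by rw [mul_pow, hb]; field_simp)
    have : Fact (Irreducible (X ^ 2 - C (ι' φ' / ι φ))) := ⟨hi⟩
    let j : K →ₐ[k] AdjoinRoot (X ^ 2 - C (ι' φ' / ι φ)) := IsScalarTower.toAlgHom k K _
    have hv : AdjoinRoot.root (X ^ 2 - C (ι' φ' / ι φ)) ^ 2 = j (ι' φ' / ι φ) := by
      have := AdjoinRoot.eval₂_root (X ^ 2 - C (ι' φ' / ι φ))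
      rw [eval₂_sub, eval₂_X_pow, eval₂_C, sub_eq_zero] at this
      exact this
    refine ⟨AdjoinRoot (X ^ 2 - C (ι' φ' / ι φ)), inferInstance, inferInstance, j.comp ι,
      j.comp ι', AdjoinRoot.root _, Or.inr rfl, h1, h2, fun x y q => hd (j.injective ?_), ?_,
      eq_top_iff.2 fun x _ => ?_⟩
    · rw [Homa.pm_comp, Homa.pm_comp] at q
      exact q
    · rw [hv, AlgHom.comp_apply, AlgHom.comp_apply, ← map_mul, div_mul_cancel₀ _ i0]
    · obtain ⟨p, rfl⟩ := AdjoinRoot.mk_surjective x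
      induction p using Polynomial.induction_on' with
      | add p q hp hq => rw [map_add]; exact add_mem (hp trivial) (hq trivial)
      | monomial n a =>
        rw [← C_mul_X_pow_eq_monomial, map_mul, map_pow, AdjoinRoot.mk_X, AdjoinRoot.mk_C]
        refine mul_mem ?_ (pow_mem ?_ n)
        swap
        · exact IntermediateField.subset_adjoin _ _ (Or.inr (Or.inr rfl))
        exact Homa.mem j _ (fun m => IntermediateField.subset_adjoin _ _ (Or.inl ⟨m, rfl⟩))
          (fun m => IntermediateField.subset_adjoin _ _ (Or.inr (Or.inl ⟨m, rfl⟩))) (hr a)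

end Pool.Agent.MP_20d318_ag.KK
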