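import Pool.Agent.MP_20d318_ag.KK.ESpec

/-! Row HZA: the centre of a place on the base ring; places that are not split. -/

set_option autoImplicit false

namespace Pool.Agent.MP_20d318_ag.KK

open Pool.Agent.MP_fd6584_ag.Fn Pool.Agent.CBk Polynomial
open Pool.Agent.MP_fd6584_ag.AG hiding deg_inv deg_congr deg_of_unit deg_mul deg_prod deg_zpow
  deg_eq_zero deg_nonneg deg_div deg_pow

namespace Hza

variable {k K : Type} [Field k] [Field K] [Algebra k K] {B C : Subalgebra k K} {v : K}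

/-- `C = B + B v`, a direct sum. -/
structure Qd (B C : Subalgebra k K) (v : K) : Prop where
  le : B ≤ C
  mem : v ∈ C
  sq : v ^ 2 ∈ B
  dec : ∀ x ∈ C, ∃ a ∈ B, ∃ b ∈ B, x = a + b * v
  ns : ∀ a ∈ B, ∀ b ∈ B, b ≠ 0 → v ≠ a / b

theorem Qd.ind (h : Qd B C v) {a b : K} (ha : a ∈ B) (hb : b ∈ B) (e : a = b * v) :
    a = 0 ∧ b = 0 := by
  have : b = 0 := by_contra fun b0 => h.ns a ha b hb b0 (by rw [e, mul_div_cancel_left₀ _ b0])
  exact ⟨by rw [e, this, zero_mul], this⟩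

theorem pos {P : Place k K} {a : K} (h0 : a ≠ 0) (ha : a ∈ mx (plO P)) :
    ∃ n : ℕ, n ≠ 0 ∧ P.ord a = n := by
  obtain ⟨n, hn⟩ := Int.eq_ofNat_of_zero_le (mem_plO_ord.1 ha.1)
  exact ⟨n, fun e => CB.P.XCls.ord_ne h0 ha (by rw [hn, e]; rfl), hn⟩

theorem prime [UniqueFactorizationMonoid B] {O : Subalgebra k K} (hO : B ≤ O) (a : B) :
    a ≠ 0 → (a : K) ∈ mx O → ∃ f : B, Prime f ∧ (f : K) ∈ mx O := by
  induction a using UniqueFactorizationMonoid.induction_on_prime with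
  | h₁ => exact fun h => (h rfl).elim
  | h₂ x hx => exact fun _ h => (h.2 (((isU_iff_isUnit x).2 hx).mono hO)).elim
  | h₃ a p a0 hp ih =>
    exact fun _ h => (mx_or_of_mul (hO p.2) (hO a.2) h).elim (fun q => ⟨p, hp, q⟩) (ih a0)

theorem Qd.cen (h : Qd B C v) [UniqueFactorizationMonoid B] {P : Place k K}
    (hP : plO P ∈ Pts C) : ∃ f ∈ B, f ≠ 0 ∧ ∀ b ∈ B, b ∈ mx (plO P) ↔ b / f ∈ B := by
  have le : B ≤ plO P := h.le.trans hP.2.1
  have vm := hP.2.1 h.mem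
  obtain ⟨g, hg⟩ : ∃ g, g ∉ plO P := by_contra fun q =>
    plO_ne_top P (eq_top_iff.2 fun g _ => by_contra fun r => q ⟨g, r⟩)
  have g1 := (plO_isVal P).inv_mx hg
  obtain ⟨x, hx, y, -, hu, e⟩ := hP.2.2 _ g1.1
  have g0 : g⁻¹ ≠ 0 := inv_ne_zero fun q => hg (q ▸ zero_mem _)
  have x1 : x ∈ mx (plO P) := by
    rw [← div_mul_cancel₀ x hu.1, ← e]
    exact mx_mul_right g1 hu.mem
  obtain ⟨a, ha, b, hb, rfl⟩ := h.dec x hx
  have x0 : a + b * v ≠ 0 := fun q => g0 (by rw [e, q, zero_div])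
  have x2 : a - b * v ≠ 0 := fun q => by
    obtain ⟨rfl, rfl⟩ := h.ind ha hb (sub_eq_zero.1 q)
    simp at x0
  have e2 : (a + b * v) * (a - b * v) = a ^ 2 - b ^ 2 * v ^ 2 := by ring
  obtain ⟨f, fp, fm⟩ := prime le ⟨_, e2 ▸ sub_mem (pow_mem ha 2) (mul_mem (pow_mem hb 2) h.sq)⟩
    (fun q => mul_ne_zero x0 x2 (congrArg Subtype.val q))
    (mx_mul_right x1 (sub_mem (le ha) (mul_mem (le hb) vm)))
  have f0 : (f : K) ≠ 0 := fun q => fp.ne_zero (Subtype.ext q)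
  refine ⟨f, f.2, f0, fun c hc => ⟨fun cm => by_contra fun hn => ?_, fun q => ?_⟩⟩
  · have c0 : c ≠ 0 := fun q => hn (by rw [q, zero_div]; exact zero_mem _)
    obtain ⟨m, -, hm⟩ := pos f0 fm
    obtain ⟨n, n0, hn'⟩ := pos c0 cm
    obtain ⟨x, hx, y, hy, hu, e⟩ := hP.2.2 (c ^ m / f ^ n) (mem_plO_ord.2 (by
      rw [P.ord_div (pow_ne_zero _ c0) (pow_ne_zero _ f0), P.ord_pow, P.ord_pow, hm, hn', mul_comm,
        sub_self]))
    obtain ⟨x0, a0, x1, a1, rfl⟩ := h.dec x hx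
    obtain ⟨y0, b0, y1, b1, rfl⟩ := h.dec y hy
    rw [div_eq_div_iff (pow_ne_zero _ f0) hu.1] at e
    have key : ∀ x ∈ B, ∀ y ∈ B, c ^ m * y - x * f ^ n = 0 → y ∈ mx (plO P) := fun x a y b q => by
      have d : f ∣ (⟨c, hc⟩ : B) ^ m * ⟨y, b⟩ := (dvd_pow_self f n0).trans
        ⟨⟨x, a⟩, Subtype.ext (by push_cast; linear_combination q)⟩
      rcases fp.dvd_or_dvd d with d | ⟨z, d⟩
      · obtain ⟨z, d⟩ := fp.dvd_of_dvd_pow d
        refine (hn ?_).elim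
        rw [show c = f * z from congrArg Subtype.val d, mul_div_cancel_left₀ _ f0]
        exact z.2
      · rw [show y = f * z from congrArg Subtype.val d]
        exact mx_mul_right fm (le z.2)
    have s := fun x (a : x ∈ B) y (b : y ∈ B) =>
      sub_mem (mul_mem (pow_mem hc m) b) (mul_mem a (pow_mem f.2 n))
    have i := h.ind (s _ a0 _ b0) (neg_mem (s _ a1 _ b1)) (by linear_combination e)
    exact hu.not_mx (mx_add hP.1 (key _ a0 _ b0 i.1)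
      (mx_mul_right (key _ a1 _ b1 (neg_eq_zero.1 i.2)) vm))
  · rw [← div_mul_cancel₀ c f0]
    exact mx_mul_left (le q) fm

end Hza

theorem hza_stmt : HzaStmt := by
  intro k M M' K _ _ _ _ _ _ _ _ _ ι ι' φ φ' v he hf hu P hP
  have s : v ^ 2 ∈ Bq ι ι' ⊤ ⊤ ∅ := by
    rw [eq_div_of_mul_eq ((map_ne_zero ι).2 he.ne) he.eq, div_eq_mul_inv, ← map_inv₀]
    exact mul_mem (Bq_r trivial) (Bq_l trivial)
  have h : Hza.Qd (Bq ι ι' ⊤ ⊤ ∅) (Bq ι ι' ⊤ ⊤ {v}) v := by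
    refine ⟨Algebra.adjoin_mono (Set.union_subset_union_right _
      (Set.union_subset_union_right _ (Set.empty_subset _))), Bq_g rfl, s, fun x hx => ?_,
      fun a ha b hb b0 e => hf.ns rfl ⟨a, ha, b, hb, b0, e⟩⟩
    induction hx using Algebra.adjoin_induction with
    | mem x hx =>
      rcases hx with ⟨a, ha, rfl⟩ | ⟨a, ha, rfl⟩ | rfl
      · exact ⟨_, Bq_l ha, 0, zero_mem _, by simp⟩
      · exact ⟨_, Bq_r ha, 0, zero_mem _, by simp⟩
      · exact ⟨0, zero_mem _, 1, one_mem _, by simp⟩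
    | algebraMap r => exact ⟨_, Subalgebra.algebraMap_mem _ r, 0, zero_mem _, by simp⟩
    | add x y _ _ p q =>
      obtain ⟨a, ha, b, hb, rfl⟩ := p
      obtain ⟨c, hc, d, hd, rfl⟩ := q
      exact ⟨_, add_mem ha hc, _, add_mem hb hd, by ring⟩
    | mul x y _ _ p q =>
      obtain ⟨a, ha, b, hb, rfl⟩ := p
      obtain ⟨c, hc, d, hd, rfl⟩ := q
      exact ⟨_, add_mem (mul_mem ha hc) (mul_mem (mul_mem hb hd) s), _,
        add_mem (mul_mem ha hd) (mul_mem hb hc), by ring⟩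
  obtain ⟨f, f1, f0, f2⟩ := h.cen hP
  refine ⟨f, ⟨f1, f0, f2⟩, fun ns P' hP' fm => plO_inj fun g hg => ?_⟩
  obtain ⟨x, hx, y, hy, u, rfl⟩ := hP'.2.2 g hg
  refine (isU_of_not_mx (hP.2.1 hy) fun ym => u.not_mx ?_).div_mem (hP.2.1 hx)
  obtain ⟨a, ha, b, hb, rfl⟩ := h.dec y hy
  have bm : b ∈ mx (plO P) := by_contra fun q =>
    ns ⟨-a, neg_mem ha, b, hb, q, by rwa [sub_neg_eq_add, add_comm]⟩
  have am : a ∈ mx (plO P) := by
    simpa using mx_sub' hP.1 ym (mx_mul_right bm (hP.2.1 h.mem))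
  have t : ∀ c ∈ Bq ι ι' ⊤ ⊤ ∅, c ∈ mx (plO P) → c ∈ mx (plO P') := fun c hc cm => by
    rw [← div_mul_cancel₀ c f0]
    exact mx_mul_left (hP'.2.1 (h.le ((f2 c hc).1 cm))) fm
  exact mx_add hP'.1 (t a ha am) (mx_mul_right (t b hb bm) (hP'.2.1 h.mem))

end Pool.Agent.MP_20d318_ag.KK
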