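import Pool.Agent.MP_20d318_ag.KK.ESpec

/-! Split places: a function with a zero at one split place only. -/

set_option autoImplicit false
set_option linter.unusedSectionVars false

namespace Pool.Agent.MP_20d318_ag.KK

open Pool.Agent.MP_fd6584_ag.Fn Pool.Agent.CBk Polynomial
open Pool.Agent.MP_fd6584_ag.AG hiding deg_inv deg_congr deg_of_unit deg_mul deg_prod deg_zpow
  deg_eq_zero deg_nonneg deg_div deg_pow
open Pool.Agent.MP_20d318_ag.CH (MW cb Der)

namespace HzbRow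

section norm

variable {k K L : Type} [Field k] [Field K] [Field L] [Algebra k K] [Algebra k L] [Algebra K L]
  [IsScalarTower k K L]

theorem over_eq {A : Subalgebra k K} (hA : IsVal A) {V : Subalgebra k L}
    (h1 : ∀ a ∈ A, algebraMap K L a ∈ V) (h2 : ∀ a ∈ mx A, algebraMap K L a ∈ mx V) :
    V.comap (IsScalarTower.toAlgHom k K L) = A :=
  (hA.eq_of_dom ⟨h1, fun u hu hV => isU_of_not_mx hu fun hm =>
    (h2 u hm).2 ((isU_comap _).1 hV)⟩).symm

theorem exists_over {A : Subalgebra k K} (hA : IsVal A) :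
    ∃ V : Subalgebra k L, IsVal V ∧ V.comap (IsScalarTower.toAlgHom k K L) = A := by
  have := hA.isLocalRing
  obtain ⟨V, hV, h⟩ := exists_val_of ((IsScalarTower.toAlgHom k K L).comp A.val)
    (IsLocalRing.residue A) fun b hb => by
      have : b = 0 := Subtype.ext ((map_eq_zero (algebraMap K L)).1 hb)
      rw [this, map_zero]
  exact ⟨V, hV, over_eq hA (fun a ha => (h ⟨a, ha⟩).1) fun a ha => (h ⟨a, ha.1⟩).2.2
    ((IsLocalRing.residue_eq_zero_iff _).2 ((mem_mx_iff ⟨a, ha.1⟩).1 ha))⟩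

theorem integral [Algebra.IsAlgebraic K L] (P : Place k K) {h : L}
    (H : ∀ V : Subalgebra k L, IsVal V → V.comap (IsScalarTower.toAlgHom k K L) = plO P → h ∈ V) :
    IsIntegral (plO P) h := by
  by_contra hn
  have : IsIntegrallyClosedIn (integralClosure (plO P) L).toSubring L :=
    Subring.isIntegrallyClosedIn_iff.2 fun {x} hx =>
      isIntegral_trans (A := integralClosure (plO P) L) x hx
  obtain ⟨W, hW, hx⟩ := Subring.exists_le_valuationSubring_of_isIntegrallyClosedIn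
    (R := (integralClosure (plO P) L).toSubring) (x := h) hn
  have h1 : ∀ a ∈ plO P, algebraMap K L a ∈ W := fun a ha =>
    hW ((integralClosure (plO P) L).algebraMap_mem ⟨a, ha⟩)
  let V : Subalgebra k L :=
    { W.toSubring.toSubsemiring with
      algebraMap_mem' := fun c => by
        rw [IsScalarTower.algebraMap_apply k K L]
        exact h1 _ ((plO P).algebraMap_mem c) }
  by_cases ht : V.comap (IsScalarTower.toAlgHom k K L) = ⊤
  · exact hx (mem_of_isIntegral (A := K) W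
      (fun a => show a ∈ V.comap (IsScalarTower.toAlgHom k K L) from ht ▸ Algebra.mem_top)
      (Algebra.IsAlgebraic.isAlgebraic h).isIntegral)
  · exact hx (H V W.mem_or_inv_mem (plO_max h1 ht))

theorem norm {A : Subalgebra k K} (hA : IsVal A) {h : L} (H : IsIntegral A h) :
    (minpoly K h).coeff 0 ∈ A ∧ ((minpoly K h).coeff 0 ∈ mx A ↔
      ∃ V : Subalgebra k L, IsVal V ∧ V.comap (IsScalarTower.toAlgHom k K L) = A ∧ h ∈ mx V) := by
  have := hA.isLocalRing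
  have : IsFractionRing A K := IsFractionRing.of_field A K fun z => by
    obtain ⟨a, ha, d, hd, -, h⟩ := hA.frac z
    exact ⟨⟨a, ha⟩, ⟨d, hd⟩, h⟩
  have : IsIntegrallyClosed A := (isIntegrallyClosed_iff K).2 fun {x} hx => ⟨⟨x, hA.nrm x hx⟩, rfl⟩
  have e : (minpoly K h).coeff 0 = ((minpoly A h).coeff 0 : A) := by
    rw [minpoly.isIntegrallyClosed_eq_field_fractions' K H, coeff_map]; rfl
  rw [e]
  refine ⟨Subtype.prop _, fun hm => ?_, ?_⟩
  · obtain ⟨V, hV, q⟩ := exists_val_of ((aeval h : A[X] →ₐ[A] L).restrictScalars k)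
      ((IsLocalRing.residue A).comp constantCoeff) fun b hb => by
        obtain ⟨c, rfl⟩ := minpoly.isIntegrallyClosed_dvd H (p := b) hb
        rw [map_mul, RingHom.comp_apply, constantCoeff_apply,
          (IsLocalRing.residue_eq_zero_iff _).2 ((mem_mx_iff _).1 hm), zero_mul]
    have q1 : ∀ a : A, ((aeval h : A[X] →ₐ[A] L).restrictScalars k) (C a) = algebraMap K L a :=
      fun a => aeval_C h a
    refine ⟨V, hV, over_eq hA (fun a ha => q1 ⟨a, ha⟩ ▸ (q _).1) fun a ha =>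
      q1 ⟨a, ha.1⟩ ▸ (q _).2.2 ?_, ?_⟩
    · rw [RingHom.comp_apply, constantCoeff_apply, coeff_C_zero]
      exact (IsLocalRing.residue_eq_zero_iff _).2 ((mem_mx_iff ⟨a, ha.1⟩).1 ha)
    · have := (q X).2.2 (by simp)
      rwa [AlgHom.restrictScalars_apply, aeval_X] at this
  · rintro ⟨V, hV, rfl, hm⟩
    refine (mem_mx_comap _).2 ?_
    set m := minpoly (V.comap (IsScalarTower.toAlgHom k K L)) h with hm0
    have h1 : aeval h m.divX ∈ V := by
      rw [aeval_eq_sum_range]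
      refine sum_mem fun i _ => ?_
      rw [Algebra.smul_def]
      exact mul_mem (m.divX.coeff i).2 (pow_mem hm.1 i)
    have h2 : aeval h (X * m.divX + C (m.coeff 0)) = 0 := by
      rw [X_mul_divX_add]; exact minpoly.aeval _ h
    rw [map_add, map_mul, aeval_X, aeval_C, add_eq_zero_iff_neg_eq] at h2
    exact (show _ = IsScalarTower.toAlgHom k K L _ from h2) ▸ mx_neg (mx_mul_right hm h1)

end norm

section geom

variable {k k₁ M M' F K K₁ : Type} [Field k] [Field k₁] [Field M] [Field M'] [Field F]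
  [Field K] [Field K₁] [Algebra k k₁] [Algebra k M] [Algebra k M'] [Algebra k F]
  [Algebra k K] [Algebra k K₁] [Algebra k₁ F] [Algebra k₁ K₁] [IsScalarTower k k₁ F]
  {ι : M →ₐ[k] K} {ι' : M' →ₐ[k] K} {v : K} {φ : M} {μ : M →ₐ[k] F} {ε : F →ₐ[k₁] K₁}
  {j : K →ₐ[k] K₁} {l : k₁} {z w : K₁}

theorem centre [IsScalarTower k k₁ K₁] (c : Cov ι ι' v φ μ ε j l z w) {V : Subalgebra k K₁}
    (hV : IsVal V) (h1 : ∀ x, ε x ∈ V) (h2 : ∀ p : k₁[X], p ≠ 0 → IsU V (aeval z p)) :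
    ∃ O ∈ Pts (Algebra.adjoin k₁ (Set.range ε ∪ {z, w})), (∀ x ∈ O, x ∈ V) ∧
      (∀ x ∈ O, x ∈ mx O ↔ x ∈ mx V) ∧ (∀ b ∈ Bq ι ι' ⊤ ⊤ {v}, j b ∈ O) ∧ cb l z ∉ mx O := by
  let V₁ : Subalgebra k₁ K₁ :=
    { V.toSubsemiring with algebraMap_mem' := fun a => ε.commutes a ▸ h1 _ }
  have hV₁ : IsVal V₁ := hV
  have hz : z ∈ V := by simpa using (h2 X X_ne_zero).2.1
  have hc : IsU V (cb l z) := by
    have := h2 (X * (X - 1) * (X - C l)) (mul_ne_zero (mul_ne_zero X_ne_zero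
      (by simpa using X_sub_C_ne_zero (1 : k₁))) (X_sub_C_ne_zero l))
    simpa [cb] using this
  have hw : w ∈ V := by_contra fun hn => by
    have a1 := hV.inv_mx hn
    have w0 : w ≠ 0 := fun e => hn (e ▸ zero_mem _)
    have a2 : w ^ 2 ∈ V := by rw [c.ext.eq]; exact mul_mem (pow_mem (h1 _) _) hc.2.1
    have a3 := mx_mul_left a2 (mx_pow a1 two_ne_zero)
    rw [← mul_pow, mul_inv_cancel₀ w0, one_pow] at a3
    exact one_not_mem_mx a3
  have le : Algebra.adjoin k₁ (Set.range ε ∪ {z, w}) ≤ V₁ := Algebra.adjoin_le (by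
    rintro _ (⟨x, rfl⟩ | rfl | rfl)
    exacts [h1 x, hz, hw])
  obtain ⟨O, hO, hd⟩ := exists_ctr hV₁.isLocalRing le
  have e1 : ∀ x, ε x ∈ O := fun x => hO.2.1 (Algebra.subset_adjoin (Or.inl ⟨x, rfl⟩))
  have e2 : z ∈ O := hO.2.1 (Algebra.subset_adjoin (Or.inr (Or.inl rfl)))
  have e3 : w ∈ O := hO.2.1 (Algebra.subset_adjoin (Or.inr (Or.inr rfl)))
  have e4 : ∀ p : k₁[X], aeval z p ∈ O := fun p => by
    rw [aeval_eq_sum_range]
    exact sum_mem fun i _ => O.smul_mem (pow_mem e2 i) _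
  have e5 : ∀ p : k₁[X], p ≠ 0 → IsU O (aeval z p) := fun p hp => hd.2 _ (e4 p) (h2 p hp)
  refine ⟨O, hO, fun x hx => hd.1 hx, fun x hx => ⟨fun a => hd.mx a, fun a => mx_of_le hd.1 hx a⟩,
    fun b hb => ?_, fun a => hc.not_mx (hd.mx a)⟩
  refine (Algebra.adjoin_le (S := (O.restrictScalars k).comap j) ?_) hb
  rintro _ (⟨m, -, rfl⟩ | ⟨m, -, rfl⟩ | rfl)
  · exact show j _ ∈ O from c.com m ▸ e1 _
  · obtain ⟨p, q, q0, e⟩ := c.rat m
    exact show j _ ∈ O from e ▸ (e5 q q0).div_mem (e4 p)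
  · obtain ⟨p, q, -, q0, e⟩ := c.vw
    have u : IsU O (ε (μ φ) * aeval z q) := IsU.mul
      ⟨(map_ne_zero ε).2 c.ext.φne, e1 _, map_inv₀ ε (μ φ) ▸ e1 _⟩ (e5 q q0)
    rw [mul_assoc, ← eq_div_iff u.1] at e
    exact show j _ ∈ O from e ▸ u.div_mem (mul_mem (e4 p) e3)

end geom

end HzbRow

theorem hzb_stmt : HzbStmt := by
  intro hor k k₁ M M' F K K₁ _ _ _ _ _ _ _ _ _ _ _ _ _ _ _ _ _ _ _ ι ι' v φ φ' μ ε j l z w _ c mw fv
    P hP sP
  let _ : Algebra K K₁ := (j : K →+* K₁).toAlgebra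
  have : IsScalarTower k K K₁ := IsScalarTower.of_algebraMap_eq fun a => (j.commutes a).symm
  have ej : IsScalarTower.toAlgHom k K K₁ = j := AlgHom.ext fun _ => rfl
  have : Algebra.IsAlgebraic K K₁ := ⟨fun x => by
    obtain ⟨p, p0, -, e⟩ := c.alg x
    exact ⟨p, p0, e⟩⟩
  have ctr := fun (Q : Place k K) hQ sQ (V : Subalgebra k K₁) (hV : IsVal V)
    (e : V.comap j = plO Q) => HzbRow.centre c hV (fv Q V hQ sQ hV e).1 (fv Q V hQ sQ hV e).2
  obtain ⟨V, hV, e⟩ := HzbRow.exists_over (L := K₁) (plO_isVal P)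
  rw [ej] at e
  obtain ⟨O, hO, -, o2, o3, -⟩ := ctr P hP sP V hV e
  have o5 : ∀ b ∈ Bq ι ι' ⊤ ⊤ {v}, b ∈ mx (plO P) ↔ j b ∈ mx O := fun b hb => by
    rw [o2 _ (o3 b hb), ← e, mem_mx_comap]
  have hne : O ≠ ⊤ := fun ht => plO_ne_top P (eq_top_iff.2 fun x _ => by
    rcases plO_isVal P x with hx | hx
    · exact hx
    · rcases eq_or_ne x 0 with rfl | x0
      · exact zero_mem _
      obtain ⟨a, ha, b, hb, hu, q⟩ := hP.2.2 _ hx
      have a0 : a ≠ 0 := fun a0 => inv_ne_zero x0 (by rw [q, a0, zero_div])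
      have ua : IsU (plO P) a := isU_of_not_mx (hP.2.1 ha) fun m => a0 (by
        have := (o5 a ha).1 m
        rwa [ht, mem_mx_top, map_eq_zero] at this)
      rw [← inv_inv x, q, inv_div]
      exact ua.div_mem hu.2.1)
  obtain ⟨h, h1, h0, h2, h3⟩ := hor k₁ F K₁ (μ φ) ε l z w 2 c.ext mw O hO hne
  have int : ∀ Q : Place k K, plO Q ∈ Pts (Bq ι ι' ⊤ ⊤ {v}) → Spl ι ι' v (plO Q) →
      IsIntegral (plO Q) h := fun Q hQ sQ => HzbRow.integral Q fun W hW q => by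
    obtain ⟨O', hO', a, -⟩ := ctr Q hQ sQ W hW (ej ▸ q)
    exact a h (hO'.2.1 h1)
  refine ⟨(minpoly K h).coeff 0, minpoly.coeff_zero_ne_zero
    (Algebra.IsAlgebraic.isAlgebraic h).isIntegral h0,
    (HzbRow.norm (plO_isVal P) (int P hP sP)).2.2 ⟨V, hV, ej ▸ e, (o2 h h2.1).1 h2⟩,
    fun Q hQ sQ hn => ?_⟩
  obtain ⟨n1, n2⟩ := HzbRow.norm (plO_isVal Q) (int Q hQ sQ)
  refine isU_of_not_mx n1 fun m => hn ?_
  obtain ⟨W, hW, q, hm⟩ := n2.1 m
  rw [ej] at q
  obtain ⟨O', hO', -, a2, a3, a4⟩ := ctr Q hQ sQ W hW q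
  obtain rfl := (h3 O' hO' ((a2 h (hO'.2.1 h1)).2 hm)).resolve_right a4
  refine plO_inj (See.Pts_ext hQ hP fun b hb => ?_).le
  rw [o5 b hb, a2 _ (a3 b hb), ← q, mem_mx_comap]

end Pool.Agent.MP_20d318_ag.KK
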