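import Pool.Agent.MP_20d318_ag.KK.ESpec

/-! The jacobian criterion for the independence of two elements. -/

set_option autoImplicit false

namespace Pool.Agent.MP_20d318_ag.KK

namespace Jac

open MvPolynomial

variable {k R : Type} [Field k] [CommRing R] [Algebra k R]

theorem chain (D : Derivation k R R) (v : Fin 2 → R) (p : MvPolynomial (Fin 2) k) :
    D (aeval v p) = aeval v (pderiv 0 p) * D (v 0) + aeval v (pderiv 1 p) * D (v 1) := by
  induction p using MvPolynomial.induction_on with
  | C a => simp
  | add p q hp hq => simp only [map_add, hp, hq]; ring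
  | mul_X p i hp =>
    simp only [map_mul, aeval_X, Derivation.leibniz, hp, smul_eq_mul, map_add]
    fin_cases i <;> simp [pderiv_X] <;> ring

theorem coeff_pd (i : Fin 2) (p : MvPolynomial (Fin 2) k) (m : Fin 2 →₀ ℕ) :
    coeff m (pderiv i p) = coeff (m + Finsupp.single i 1) p * ((m i + 1 : ℕ) : k) := by
  induction p using MvPolynomial.induction_on' with
  | monomial u a =>
    rw [pderiv_monomial, coeff_monomial, coeff_monomial]
    by_cases h : u = m + Finsupp.single i 1
    · subst h
      simp
    · rw [if_neg h, zero_mul]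
      split_ifs with h2
      · by_cases h3 : u i = 0
        · simp [h3]
        · exfalso
          apply h
          rw [← h2]
          ext j
          by_cases h4 : j = i
          · subst h4
            simp only [Finsupp.coe_add, Finsupp.coe_tsub, Pi.add_apply, Pi.sub_apply,
              Finsupp.single_eq_same]
            omega
          · simp [Finsupp.single_eq_of_ne h4]
      · rfl
  | add p q hp hq => simp only [map_add, coeff_add, hp, hq]; ring

theorem deg_pd (i : Fin 2) (p : MvPolynomial (Fin 2) k) (n : ℕ) (h : p.totalDegree ≤ n + 1) :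
    (pderiv i p).totalDegree ≤ n := by
  rw [totalDegree, Finset.sup_le_iff]
  intro m hm
  rw [mem_support_iff, coeff_pd] at hm
  have h1 : m + Finsupp.single i 1 ∈ p.support := mem_support_iff.2 (left_ne_zero_of_mul hm)
  have h2 := (le_totalDegree h1).trans h
  rw [Finsupp.sum_add_index' (fun _ => rfl) (fun _ _ _ => rfl), Finsupp.sum_single_index rfl] at h2
  omega

theorem const [CharZero k] (p : MvPolynomial (Fin 2) k) (h : ∀ i, pderiv i p = 0) :
    p = C (coeff 0 p) := by
  ext m
  rw [coeff_C]
  split_ifs with h0
  · rw [h0]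
  · obtain ⟨i, hi⟩ : ∃ i, m i ≠ 0 := by
      by_contra hc
      exact h0 (by ext i; by_contra h1; exact hc ⟨i, fun h2 => h1 (by simp [h2])⟩)
    have h1 := coeff_pd i p (m - Finsupp.single i 1)
    rw [h i, coeff_zero] at h1
    have h2 : m - Finsupp.single i 1 + Finsupp.single i 1 = m :=
      tsub_add_cancel_of_le (Finsupp.single_le_iff.2 (by omega))
    rw [h2] at h1
    exact (mul_eq_zero.1 h1.symm).resolve_right (Nat.cast_ne_zero.2 (by omega))

end Jac

open MvPolynomial in
theorem jac_stmt : JacStmt := by
  intro k R _ _ _ _ _ D₁ D₂ x y hJ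
  rw [algebraicIndependent_iff]
  have key : ∀ (n : ℕ) (p : MvPolynomial (Fin 2) k), p.totalDegree ≤ n → aeval ![x, y] p = 0 →
      p = 0 := by
    have base : ∀ p : MvPolynomial (Fin 2) k, p = C (coeff 0 p) → aeval ![x, y] p = 0 → p = 0 := by
      intro p h1 h2
      rw [h1, aeval_C] at h2
      rw [h1, (map_eq_zero_iff _ (algebraMap k R).injective).1 h2, C_0]
    intro n
    induction n with
    | zero =>
      intro p h1 h2
      exact base p (totalDegree_eq_zero_iff_eq_C.1 (by omega)) h2
    | succ n ih =>
      intro p h1 h2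
      have e1 := Jac.chain D₁ ![x, y] p
      have e2 := Jac.chain D₂ ![x, y] p
      rw [h2, map_zero] at e1 e2
      simp only [Matrix.cons_val_zero, Matrix.cons_val_one] at e1 e2
      have hd : D₁ x * D₂ y - D₂ x * D₁ y ≠ 0 := sub_ne_zero.2 hJ
      have a0 : aeval ![x, y] (pderiv 0 p) = 0 := by
        refine (mul_eq_zero.1 ?_).resolve_right hd
        linear_combination (-D₂ y) * e1 + D₁ y * e2
      have a1 : aeval ![x, y] (pderiv 1 p) = 0 := by
        refine (mul_eq_zero.1 ?_).resolve_right hd
        linear_combination D₂ x * e1 - D₁ x * e2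
      refine base p (Jac.const p fun i => ?_) h2
      fin_cases i
      · exact ih _ (Jac.deg_pd 0 p n h1) a0
      · exact ih _ (Jac.deg_pd 1 p n h1) a1
  exact fun p => key _ p le_rfl

end Pool.Agent.MP_20d318_ag.KK
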