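import Pool.Agent.MP_20d318_ag.KK.Spec
import Pool.Agent.MP_20d318_ag.CH.Ker

/-! Row KQ: the ideal of relations of the local equation is principal. -/

set_option autoImplicit false

open scoped TensorProduct

namespace Pool.Agent.MP_20d318_ag.KK

open Pool.Agent.MP_fd6584_ag.Fn Pool.Agent.CBk Polynomial

namespace KqL

theorem dvd {k R R' : Type} [Field k] [CommRing R] [CommRing R'] [IsDomain R'] [Algebra k R]
    [Algebra k R'] (S : R) {S' : R'} (h : S' ≠ 0) (b : R ⊗[k] R')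
    (hb : S ⊗ₜ[k] (1 : R') ∣ (1 : R) ⊗ₜ[k] S' * b) : S ⊗ₜ[k] (1 : R') ∣ b := by
  let π := Algebra.TensorProduct.map (Ideal.Quotient.mkₐ k (Ideal.span {S})) (AlgHom.id k R')
  have e : ∀ c, π c = 0 ↔ S ⊗ₜ[k] (1 : R') ∣ c := fun c => by
    rw [← RingHom.mem_ker, Algebra.TensorProduct.rTensor_ker _ (Ideal.Quotient.mkₐ_surjective _ _),
      show RingHom.ker (Ideal.Quotient.mkₐ k (Ideal.span {S})) = _ from Ideal.mk_ker,
      Ideal.map_span, Set.image_singleton, Ideal.mem_span_singleton]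
    rfl
  have m : ∀ c : (R ⧸ Ideal.span {S}) ⊗[k] R',
      (LinearMap.mulLeft k S').lTensor _ c = (1 ⊗ₜ[k] S') * c := fun c => by
    induction c with
    | zero => simp
    | tmul a b => simp
    | add a b ha hb => rw [map_add, mul_add, ha, hb]
  rw [← e] at hb ⊢
  refine Module.Flat.lTensor_preserves_injective_linearMap (M := R ⧸ Ideal.span {S})
    (LinearMap.mulLeft k S') (mul_right_injective₀ h) ?_
  rw [m, map_zero, ← hb, map_mul]
  rfl

theorem ker {B K : Type} [CommRing B] [Field K] (φ : B →+* K) (hφ : Function.Injective φ) (t : K)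
    (a b : B) (e : ℕ) (he : e = 1 ∨ e = 2) (ha : a ≠ 0) (hab : ∀ c, a ∣ b * c → a ∣ c)
    (hsq : e = 2 → ∀ r0 r1, φ r1 ≠ 0 → t ≠ φ r0 / φ r1) (ht : t ^ e * φ a = φ b) (q : B[X])
    (hq : eval₂ φ t q = 0) : C a * X ^ e - C b ∣ q := by
  have := hφ.isDomain φ
  obtain ⟨N, h, r0, r1, h1, h2⟩ := CH.KerL.pseudo a b e he q
  have h3 := congrArg (eval₂RingHom φ t) h1
  simp only [map_add, map_mul, map_sub, map_pow, coe_eval₂RingHom, eval₂_C, eval₂_X, hq] at h3
  have h4 : φ r0 + φ r1 * t = 0 := by linear_combination (-1 : K) * h3 - eval₂ φ t h * ht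
  have h5 : r1 = 0 := by
    rcases he with he | he
    · exact h2 he
    · by_contra h0
      have h6 : φ r1 ≠ 0 := (map_ne_zero_iff φ hφ).2 h0
      exact hsq he (-r0) r1 h6 (by rw [eq_div_iff h6, map_neg]; linear_combination h4)
  subst h5
  have h6 : r0 = 0 := hφ (by simpa using h4)
  subst h6
  exact CH.KerL.descend a b e ha hab q N h (by simpa using h1)

end KqL

theorem kq_stmt : KqStmt := by
  intro k M M' K _ _ _ _ _ _ _ _ _ ι ι' e R R' A S S' h q hq
  have hi := h.dj.sub R R'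
  have e1 := pm_tmul (ι.comp R.val) (ι'.comp R'.val) ⟨S, h.mS⟩ 1
  have e2 := pm_tmul (ι.comp R.val) (ι'.comp R'.val) 1 ⟨S', h.mS'⟩
  rw [map_one, mul_one] at e1
  rw [map_one, one_mul] at e2
  have m : ∀ c, pm (ι.comp R.val) (ι'.comp R'.val) c ∈ Bq ι ι' ⊤ ⊤ ∅ := fun c =>
    Algebra.adjoin_mono (Set.union_subset_union (Set.image_mono (Set.subset_univ _))
      (Set.union_subset_union_left _ (Set.image_mono (Set.subset_univ _))))
      (show _ ∈ Bq ι ι' R R' ∅ from Bq_range ι ι' R R' ▸ ⟨c, rfl⟩)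
  refine KqL.ker (pm (ι.comp R.val) (ι'.comp R'.val) : R ⊗[k] R' →+* K) hi A _ _ e h.he
    (fun z => (map_ne_zero ι).2 h.nS (e1.symm.trans ?_))
    (KqL.dvd _ fun z => h.nS' (congrArg Subtype.val z))
    (fun he r0 r1 h1 h2 => h.ns he ⟨_, m r0, _, m r1, h1, h2⟩) ?_ q hq
  · rw [z, map_zero]
  · exact (congrArg (A ^ e * ·) e1).trans (h.eq.trans e2.symm)

end Pool.Agent.MP_20d318_ag.KK
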