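import Pool.Agent.MP_20d318_ag.KK.LSpec
import Pool.Agent.MP_20d318_ag.CH.RowsL
import Pool.Agent.MP_20d318_ag.CH.RowsB

section PartPa

/-! The nef cone of the blow-up of a product. -/

set_option autoImplicit false

namespace Pool.Agent.MP_20d318_ag.KK

open Pool.Agent.MP_20d318_ag.Lat hiding act actW W
open Pool.Agent.MP_20d318_ag.CH

universe u v

namespace Pa

variable {V : Type u} {𝒞 : Type v} {κ κ' : Type} [AddCommGroup V] [Module ℝ V] [Fintype κ]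
  {N : Nd V 𝒞 κ}

/-- One divisor can be subtracted alone. -/
theorem one (h : Dich N) {L : V} {a : κ → ℝ} (hL : L ∈ N.Nef)
    (ha : L - ∑ i, a i • N.c i ∈ N.Nef) (a0 : ∀ i, 0 ≤ a i) (i : κ) : L - a i • N.c i ∈ N.Nef := by
  classical
  have := h.mid hL ha (b := fun i' => if i' = i then a i else 0)
    (fun i' => by split_ifs; exacts [a0 i, le_rfl])
    fun i' => by split_ifs with e; exacts [e ▸ le_rfl, a0 i']
  simpa using this

/-- The class itself is nef. -/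
theorem nef {L : V} {a : κ → ℝ} (a0 : ∀ i, 0 ≤ a i) (ha : L - ∑ i, a i • N.c i ∈ N.Nef)
    (hb : ∀ ν i, N.d ν (N.c i) < 0 → 0 ≤ N.d ν L) : L ∈ N.Nef := fun ν => by
  by_cases hc : ∃ i, N.d ν (N.c i) < 0
  · obtain ⟨i, hi⟩ := hc
    exact hb ν i hi
  · push Not at hc
    have h1 := ha ν
    rw [d_sub] at h1
    have := Finset.sum_nonneg fun i (_ : i ∈ Finset.univ) => mul_nonneg (a0 i) (hc i)
    linarith

/-- Half of the maxima of the rows. -/
theorem half [Fintype κ'] [Nonempty κ'] (l : Lw N) {L : V} {a ε : κ → κ' → ℝ} (hL : L ∈ N.Nef)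
    (a0 : ∀ i j, 0 ≤ a i j) (ha : ∀ j, L - ∑ i, a i j • N.c i ∈ N.Nef) {ν : 𝒞}
    (e1 : ∀ i, ∑ j, ε i j ≤ N.d ν (N.c i)) :
    ∃ x : κ → ℝ, (∀ i j, a i j ≤ x i) ∧ ∑ i, ∑ j, x i * ε i j ≤ 2 * N.d ν L := by
  choose m hm using fun i => Finite.exists_max (a i)
  refine ⟨fun i => a i (m i), hm, ?_⟩
  have h1 := l.hf.cur ν L hL (fun i => a i (m i)) (fun i => a0 i _) fun i =>
    one l.dich hL (ha (m i)) (fun i' => a0 i' _) i
  rw [d_sub, map_smul, smul_eq_mul] at h1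
  refine le_trans (Finset.sum_le_sum fun i _ => ?_) (sub_nonneg.1 h1)
  rw [← Finset.mul_sum]
  exact mul_le_mul_of_nonneg_left (e1 i) (a0 i _)

end Pa

theorem pa_stmt : PaStmt.{u, v} := by
  classical
  intro V V' V'' 𝒞 𝒞' 𝒞'' κ κ' _ _ _ _ _ _ _ _ N N' N'' Φ h D
  obtain ⟨i₀⟩ := h.l.ne
  obtain ⟨j₀⟩ := h.l'.ne
  refine ⟨fun hD => ?_, fun hD μ => ?_⟩
  · have a0 : ∀ i j, 0 ≤ D.2.2 i j := fun i j => by
      obtain ⟨μ, n, hn, e⟩ := h.tE i j
      exact (mul_nonneg_iff_of_pos_left hn).1 (e D ▸ hD μ)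
    have c0 : ∀ j, D.1 - ∑ i, D.2.2 i j • N.c i ∈ N.Nef := fun j ν => by
      obtain ⟨μ, e⟩ := h.tT ν j
      exact e D ▸ hD μ
    have c1 : ∀ i, D.2.1 - ∑ j, D.2.2 i j • N'.c j ∈ N'.Nef := fun i ν => by
      obtain ⟨μ, e⟩ := h.tT' ν i
      exact e D ▸ hD μ
    refine ⟨a0, Pa.nef (a0 · j₀) (c0 j₀) fun ν i hi => ?_,
      Pa.nef (a0 i₀) (c1 i₀) fun ν j hj => ?_, c0, c1⟩
    · obtain ⟨μ, e⟩ := h.tB ν i hi
      exact e D ▸ hD μ
    · obtain ⟨μ, e⟩ := h.tB' ν j hj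
      exact e D ▸ hD μ
  · obtain ⟨ν, ν', ε, ty, e⟩ := h.cur μ
    obtain ⟨a0, l0, l0', c0, c1⟩ := hD
    have l1 := l0 ν
    have l1' := l0' ν'
    rw [e D]
    rcases ty with ⟨j, -, he⟩ | ⟨i, -, he⟩ | ⟨i, j, -, -, e0, -, he⟩ | ⟨e0, e1, e2⟩
    · have h1 := c0 j ν
      rw [d_sub] at h1
      have h2 : ∑ i, ∑ j', D.2.2 i j' * ε i j' = ∑ i, D.2.2 i j * N.d ν (N.c i) := by simp [he]
      linarith
    · have h1 := c1 i ν'
      rw [d_sub] at h1
      have h2 : ∑ i', ∑ j, D.2.2 i' j * ε i' j = ∑ j, D.2.2 i j * N'.d ν' (N'.c j) := by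
        rw [Finset.sum_comm]; simp [he]
      linarith
    · have h1 := Pa.one h.l.dich l0 (c0 j) (a0 · j) i ν
      rw [map_sub, map_smul, smul_eq_mul] at h1
      have h2 : ∑ i', ∑ j', D.2.2 i' j' * ε i' j' = D.2.2 i j * ε i j := by
        rw [Finset.sum_eq_single i (fun i' _ hi => Finset.sum_eq_zero fun j' _ => by
          rw [he i' j' fun k => hi k.1, mul_zero]) (by simp),
          Finset.sum_eq_single j (fun j' _ hj => by rw [he i j' fun k => hj k.2, mul_zero])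
            (by simp)]
      have := mul_le_mul_of_nonneg_left e0 (a0 i j)
      linarith
    · have : Nonempty κ := ⟨i₀⟩
      have : Nonempty κ' := ⟨j₀⟩
      obtain ⟨x, x1, x2⟩ := Pa.half h.l l0 a0 c0 e1
      obtain ⟨y, y1, y2⟩ := Pa.half (a := fun j i => D.2.2 i j) (ε := fun j i => ε i j) h.l' l0'
        (fun j i => a0 i j) c1 e2
      rw [Finset.sum_comm] at y2
      have h2 : ∑ i, ∑ j, 2 * (D.2.2 i j * ε i j) ≤ ∑ i, ∑ j, (x i * ε i j + y j * ε i j) :=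
        Finset.sum_le_sum fun i _ => Finset.sum_le_sum fun j _ => by
          have := mul_le_mul_of_nonneg_right (x1 i j) (e0 i j)
          have := mul_le_mul_of_nonneg_right (y1 j i) (e0 i j)
          linarith
      simp only [Finset.sum_add_distrib, ← Finset.mul_sum] at h2 x2
      linarith

end Pool.Agent.MP_20d318_ag.KK

end PartPa

section PartPb

/-! Effectivity and the span on the blow-up of a product. -/

set_option autoImplicit false
set_option linter.unusedSectionVars false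

namespace Pool.Agent.MP_20d318_ag.KK

open Pool.Agent.MP_20d318_ag.Lat hiding act actW W
open Pool.Agent.MP_20d318_ag.CH

universe u v

namespace Pb

variable {V V' V'' : Type u} {𝒞 𝒞' 𝒞'' : Type v} {κ κ' : Type} [AddCommGroup V] [Module ℝ V]
  [AddCommGroup V'] [Module ℝ V'] [AddCommGroup V''] [Module ℝ V''] [Fintype κ] [Fintype κ']
  {N : Nd V 𝒞 κ} {N' : Nd V' 𝒞' κ'} {N'' : Nd V'' 𝒞'' (κ ⊕ κ')} {Φ : WP V V' κ κ' →ₗ[ℝ] V''}

theorem ident (N : Nd V 𝒞 κ) (N' : Nd V' 𝒞' κ') (D : WP V V' κ κ') (x : κ → ℝ) (y : κ' → ℝ) :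
    D = (D.1 - ∑ i, x i • N.c i, 0, 0) + (0, D.2.1 - ∑ j, y j • N'.c j, 0) +
      ∑ i, x i • stW N N' (Sum.inl i) + ∑ j, y j • stW N N' (Sum.inr j) +
      ∑ i, ∑ j, (x i + y j - D.2.2 i j) • exW i j := by
  classical
  refine Prod.ext ?_ (Prod.ext ?_ (funext₂ fun i j => ?_))
  · simp [Prod.fst_sum, stW, exW]
  · simp [Prod.fst_sum, Prod.snd_sum, stW, exW]
  · simp [Prod.snd_sum, stW, exW, Finset.sum_apply, ite_and]

theorem eff (h : Stp N N' N'' Φ) {D : WP V V' κ κ'} {x : κ → ℝ} {y : κ' → ℝ} (x0 : ∀ i, 0 ≤ x i)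
    (y0 : ∀ j, 0 ≤ y j) (xy : ∀ i j, D.2.2 i j ≤ x i + y j)
    (hx : D.1 - ∑ i, x i • N.c i ∈ N.Ef) (hy : D.2.1 - ∑ j, y j • N'.c j ∈ N'.Ef) :
    Φ D ∈ N''.Ef := by
  have c := h.b''.cone
  rw [ident N N' D x y]
  simp only [map_add, map_sum, map_smul]
  exact c.add _ (c.add _ (c.add _ (c.add _ (h.eL _ hx) _ (h.eL' _ hy)) _
    (c.sum_mem _ _ fun i _ => c.smul _ (x0 i) _ (h.cc _ ▸ h.eC _))) _
    (c.sum_mem _ _ fun j _ => c.smul _ (y0 j) _ (h.cc _ ▸ h.eC _))) _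
    (c.sum_mem _ _ fun i _ => c.sum_mem _ _ fun j _ =>
      c.smul _ (sub_nonneg.2 (xy i j)) _ (h.eE i j))

theorem one (h : Dich N) {L : V} {a : κ → ℝ} (hL : L ∈ N.Nef) (a0 : ∀ i, 0 ≤ a i)
    (ha : L - ∑ i, a i • N.c i ∈ N.Nef) (i : κ) : L - a i • N.c i ∈ N.Nef := by
  classical
  have := h.mid hL ha (b := fun i' => if i' = i then a i else 0)
    (fun i' => by split_ifs; exacts [a0 i, le_rfl])
    (fun i' => by
      split_ifs with e
      exacts [e ▸ le_rfl, a0 i'])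
  simpa only [ite_smul, zero_smul, Finset.sum_ite_eq', Finset.mem_univ, if_true] using this

/-- the maxima of the rows -/
theorem half {α : Type} [Fintype α] [Nonempty α] (l : Lw N) {L : V} {a : κ → α → ℝ}
    (hL : L ∈ N.Nef) (hΛ : L ∈ N.Λ) (a0 : ∀ i j, 0 ≤ a i j) (aZ : ∀ i j, IZ (a i j))
    (ha : ∀ j, L - ∑ i, a i j • N.c i ∈ N.Nef) : ∃ x : κ → ℝ, (∀ i, 0 ≤ x i) ∧
      (∀ i j, a i j ≤ x i) ∧ (2 : ℝ) • L - ∑ i, x i • N.c i ∈ N.Ef := by
  choose m hm using fun i => Finite.exists_max (a i)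
  exact ⟨fun i => a i (m i), fun i => a0 i _, hm, l.hf.eff L hL hΛ _ (fun i => a0 i _)
    (fun i => aZ i _) fun i => one l.dich hL (fun i' => a0 i' _) (ha (m i)) i⟩

theorem efz (h : Stp N N' N'' Φ) : EfZ N N' N'' Φ := by
  intro D hD hW
  have := h.l.ne
  have := h.l'.ne
  obtain ⟨x, x0, xa, hx⟩ := half h.l hD.2.1 hW.1 hD.1 hW.2.2 hD.2.2.2.1
  obtain ⟨y, y0, ya, hy⟩ := half (a := fun j i => D.2.2 i j) h.l' hD.2.2.1 hW.2.1
    (fun j i => hD.1 i j) (fun j i => hW.2.2 i j) hD.2.2.2.2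
  have h2 := eff h (D := (2 : ℝ) • D) x0 y0 (fun i j => by
    have e : ((2 : ℝ) • D).2.2 i j = 2 * D.2.2 i j := rfl
    rw [e]
    linarith [xa i j, ya j i]) hx hy
  have h3 := h.b''.cone.smul (1 / 2) (by norm_num) _ h2
  rwa [map_smul, smul_smul, show (1 / 2 : ℝ) * 2 = 1 by norm_num, one_smul] at h3

theorem surj (h : Stp N N' N'' Φ) : Function.Surjective Φ := by
  rw [← LinearMap.range_eq_top, eq_top_iff, ← h.spn, Submodule.span_le]
  intro x hx
  obtain ⟨n, hn, D, -, e⟩ := h.cls x hx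
  have : (n : ℝ) ≠ 0 := by exact_mod_cast hn.ne'
  exact ⟨(n : ℝ)⁻¹ • D, by rw [map_smul, ← e, smul_smul, inv_mul_cancel₀ this, one_smul]⟩

theorem spn (h : Stp N N' N'' Φ) (hn : NefEq N N' N'' Φ) : Spn N'' := by
  classical
  set S := Submodule.span ℝ (N''.Nef ∩ N''.Ef)
  have z := N.isCone_nef.zero
  have z' := N'.isCone_nef.zero
  have s1 : ∀ L : V, Φ (L, 0, 0) ∈ S := fun L => by
    have : (⊤ : Submodule ℝ V) ≤ S.comap (Φ.comp (LinearMap.inl ℝ V _)) := by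
      rw [← show _ = ⊤ from h.l.spn, Submodule.span_le]
      exact fun L hL => Submodule.subset_span ⟨(hn (L, 0, 0)).2
        ⟨fun _ _ => le_rfl, hL.1, z', by simpa using fun _ => hL.1, by simpa using fun _ => z'⟩,
        h.eL L hL.2⟩
    exact this (x := L) trivial
  have s2 : ∀ L : V', Φ (0, L, 0) ∈ S := fun L => by
    have : (⊤ : Submodule ℝ V') ≤
        S.comap (Φ.comp ((LinearMap.inr ℝ V _).comp (LinearMap.inl ℝ V' _))) := by
      rw [← show _ = ⊤ from h.l'.spn, Submodule.span_le]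
      exact fun L hL => Submodule.subset_span ⟨(hn (0, L, 0)).2
        ⟨fun _ _ => le_rfl, z, hL.1, by simpa using fun _ => z, by simpa using fun _ => hL.1⟩,
        h.eL' L hL.2⟩
    exact this (x := L) trivial
  have s3 : ∀ i j, Φ (exW i j) ∈ S := fun i j => by
    obtain ⟨A, hA, B, hB, e⟩ := N1b.diff (N.isCone_nef.inter h.b.cone) (w := N.c i)
      (by rw [show _ = ⊤ from h.l.spn]; trivial)
    obtain ⟨A', hA', B', hB', e'⟩ := N1b.diff (N'.isCone_nef.inter h.b'.cone) (w := N'.c j)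
      (by rw [show _ = ⊤ from h.l'.spn]; trivial)
    have eB : A - N.c i = B := by rw [e, sub_sub_cancel]
    have eB' : A' - N'.c j = B' := by rw [e', sub_sub_cancel]
    let D : WP V V' κ κ' := (A, A', fun i' j' => if i' = i ∧ j' = j then 1 else 0)
    have a0 : ∀ i' j', 0 ≤ D.2.2 i' j' := fun i' j' => by
      simp only [D]
      split_ifs <;> norm_num
    have m : Φ D ∈ S := Submodule.subset_span ⟨(hn D).2 ⟨a0, hA.1, hA'.1, fun j' => ?_, fun i' => ?_⟩,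
      eff h (x := fun i' => if i' = i then 1 else 0) (y := 0) (fun i' => ?_) (fun _ => le_rfl)
        (fun i' j' => ?_) (by simpa [D, ite_smul, eB] using hB.2) (by simpa [D] using hA'.2)⟩
    · have e2 : exW i j = (A, 0, 0) + (0, A', 0) - D := by
        refine Prod.ext (by simp [exW, D]) (Prod.ext (by simp [exW, D]) (funext₂ fun i' j' => ?_))
        simp only [exW, D, Prod.snd_sub, Prod.snd_add, Pi.sub_apply, Pi.add_apply, Pi.zero_apply]
        split_ifs <;> norm_num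
      rw [e2, map_sub, map_add]
      exact S.sub_mem (S.add_mem (s1 A) (s2 A')) m
    · by_cases hj : j' = j
      · simpa [D, hj, ite_smul, eB] using hB.1
      · simpa [D, hj] using hA.1
    · by_cases hi : i' = i
      · simpa [D, hi, ite_smul, eB'] using hB'.1
      · simpa [D, hi] using hA'.1
    · split_ifs <;> norm_num
    · by_cases hi : i' = i <;> by_cases hj : j' = j <;> simp [D, hi, hj]
  refine eq_top_iff.2 fun w _ => ?_
  obtain ⟨D, rfl⟩ := surj h w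
  rw [ident N N' D 0 0]
  simp only [map_add, map_sum, map_smul, Pi.zero_apply, zero_smul, Finset.sum_const_zero, add_zero]
  exact S.add_mem (S.add_mem (s1 _) (s2 _))
    (S.sum_mem fun i _ => S.sum_mem fun j _ => S.smul_mem _ (s3 i j))

end Pb

theorem pb_stmt : PbStmt.{u, v} := by
  classical
  intro V V' V'' 𝒞 𝒞' 𝒞'' κ κ' _ _ _ _ _ _ _ _ N N' N'' Φ h hn
  have := h.l.fd
  have := h.l'.fd
  refine ⟨Pb.efz h, Pb.spn h hn, Module.Finite.of_surjective Φ (Pb.surj h), ?_⟩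
  rintro (i | j)
  · rw [h.cc]
    exact h.lat _ ⟨h.l.cΛ i, N'.Λ.zero_mem, fun _ _ => IZ.ite IZ.one IZ.zero⟩
  · rw [h.cc]
    exact h.lat _ ⟨N.Λ.zero_mem, h.l'.cΛ j, fun _ _ => IZ.ite IZ.one IZ.zero⟩

end Pool.Agent.MP_20d318_ag.KK

end PartPb

section PartPc

/-! Row PC: the subtraction on the blow-up of a product. -/

set_option autoImplicit false
set_option linter.unusedSectionVars false

namespace Pool.Agent.MP_20d318_ag.KK

open Pool.Agent.MP_20d318_ag.Lat hiding act actW W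
open Pool.Agent.MP_20d318_ag.CH

universe u v

namespace Pc

variable {V V' V'' : Type u} {𝒞 𝒞' 𝒞'' : Type v} {κ κ' : Type} [AddCommGroup V] [Module ℝ V]
  [AddCommGroup V'] [Module ℝ V'] [AddCommGroup V''] [Module ℝ V''] [Fintype κ] [Fintype κ']
  {N : Nd V 𝒞 κ} {N' : Nd V' 𝒞' κ'} {N'' : Nd V'' 𝒞'' (κ ⊕ κ')} {Φ : WP V V' κ κ' →ₗ[ℝ] V''}

variable (N N') in
/-- The class that remains. -/
noncomputable def rem (D : WP V V' κ κ') (x : κ ⊕ κ' → ℝ) : WP V V' κ κ' :=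
  (D.1 - ∑ i, x (.inl i) • N.c i, D.2.1 - ∑ j, x (.inr j) • N'.c j,
    fun i j => max (D.2.2 i j - x (.inl i) - x (.inr j)) 0)

theorem ident (D : WP V V' κ κ') (x : κ ⊕ κ' → ℝ) :
    D = rem N N' D x + ∑ k, x k • stW N N' k +
      ∑ i, ∑ j, ((rem N N' D x).2.2 i j - (D.2.2 i j - x (.inl i) - x (.inr j))) •
        (exW i j : WP V V' κ κ') := by
  classical
  rw [Fintype.sum_sum_type]
  refine Prod.ext ?_ (Prod.ext ?_ ?_)
  · simp [Prod.fst_sum, stW, exW, rem]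
  · simp [Prod.fst_sum, Prod.snd_sum, stW, exW, rem]
  · funext i j
    simp [Prod.snd_sum, Finset.sum_apply, stW, exW, ite_and]
    ring

theorem key (h : Stp N N' N'' Φ) {Q : Set V''} (hQ : IsCone Q) (h3 : ∀ i j, Φ (exW i j) ∈ Q)
    (h4 : ∀ k, N''.c k ∈ Q) {D : WP V V' κ κ'} {x : κ ⊕ κ' → ℝ} (x0 : ∀ k, 0 ≤ x k)
    (h1 : Φ (rem N N' D x) ∈ Q) : SKc N'' Q (Φ D) x := by
  classical
  obtain ⟨i₀⟩ := h.l.ne
  refine ⟨.inl i₀, ?_⟩
  have e := congrArg Φ (ident (N := N) (N' := N') D x)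
  simp only [map_add, map_sum, map_smul, ← h.cc] at e
  have e1 : ∀ (inst : DecidableEq (κ ⊕ κ')),
      Φ D - ∑ k ∈ @Finset.erase _ inst Finset.univ (.inl i₀), x k • N''.c k =
      Φ (rem N N' D x) + x (.inl i₀) • N''.c (.inl i₀) +
        ∑ i, ∑ j, ((rem N N' D x).2.2 i j - (D.2.2 i j - x (.inl i) - x (.inr j))) •
          Φ (exW i j) := by
    intro inst
    rw [Finset.sum_erase_eq_sub (Finset.mem_univ _)]
    conv_lhs => rw [e]
    abel
  rw [e1]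
  exact hQ.add _ (hQ.add _ h1 _ (hQ.smul _ (x0 _) _ (h4 _))) _
    (hQ.sum_mem _ _ fun i _ => hQ.sum_mem _ _ fun j _ =>
      hQ.smul _ (sub_nonneg.2 (le_max_left _ _)) _ (h3 i j))

theorem rem_nl (h : Stp N N' N'' Φ) (hne : NefEq N N' N'' Φ) {D : WP V V' κ κ'}
    (hD : D ∈ NL N N') {x : κ ⊕ κ' → ℝ} (x0 : ∀ k, 0 ≤ x k)
    (hx : ∀ k, Φ D - x k • N''.c k ∈ N''.Nef) : rem N N' D x ∈ NL N N' := by
  have a1 : ∀ i j, x (.inl i) ≤ D.2.2 i j := fun i j => by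
    have t := hx (.inl i)
    rw [h.cc, ← map_smul, ← map_sub, hne] at t
    simpa [stW] using t.1 i j
  have a2 : ∀ i j, x (.inr j) ≤ D.2.2 i j := fun i j => by
    have t := hx (.inr j)
    rw [h.cc, ← map_smul, ← map_sub, hne] at t
    simpa [stW] using t.1 i j
  obtain ⟨i₀⟩ := h.l.ne
  obtain ⟨j₀⟩ := h.l'.ne
  refine ⟨fun i j => le_max_right _ _,
    h.l.dich.mid hD.2.1 (hD.2.2.2.1 j₀) (fun i => x0 _) fun i => a1 i j₀,
    h.l'.dich.mid hD.2.2.1 (hD.2.2.2.2 i₀) (fun j => x0 _) fun j => a2 i₀ j, fun j => ?_,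
    fun i => ?_⟩
  · have t := h.l.dich.mid hD.2.1 (hD.2.2.2.1 j)
      (b := fun i => x (.inl i) + (rem N N' D x).2.2 i j)
      (fun i => add_nonneg (x0 _) (le_max_right _ _)) fun i => by
        have := max_le (a := D.2.2 i j - x (.inl i) - x (.inr j)) (b := 0)
          (c := D.2.2 i j - x (.inl i)) (sub_le_self _ (x0 _)) (sub_nonneg.2 (a1 i j))
        exact le_sub_iff_add_le'.1 this
    simp only [add_smul, Finset.sum_add_distrib, ← sub_sub] at t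
    exact t
  · have t := h.l'.dich.mid hD.2.2.1 (hD.2.2.2.2 i)
      (b := fun j => x (.inr j) + (rem N N' D x).2.2 i j)
      (fun j => add_nonneg (x0 _) (le_max_right _ _)) fun j => by
        have := max_le (a := D.2.2 i j - x (.inl i) - x (.inr j)) (b := 0)
          (c := D.2.2 i j - x (.inr j)) (sub_le_sub_right (sub_le_self _ (x0 _)) _)
          (sub_nonneg.2 (a2 i j))
        exact le_sub_iff_add_le'.1 this
    simp only [add_smul, Finset.sum_add_distrib, ← sub_sub] at t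
    exact t

theorem rem_lw (h : Stp N N' N'' Φ) {D : WP V V' κ κ'} (hD : D ∈ LW N N') {x : κ ⊕ κ' → ℝ}
    (xz : ∀ k, IZ (x k)) : rem N N' D x ∈ LW N N' := by
  refine ⟨N.Λ.sub_mem hD.1 (N.Λ.sum_mem fun i _ => (xz _).smul_mem (h.l.cΛ i)),
    N'.Λ.sub_mem hD.2.1 (N'.Λ.sum_mem fun j _ => (xz _).smul_mem (h.l'.cΛ j)), fun i j => ?_⟩
  rcases max_choice (D.2.2 i j - x (.inl i) - x (.inr j)) 0 with e | e
  · exact Eq.subst (motive := IZ) e.symm (((hD.2.2 i j).sub (xz _)).sub (xz _))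
  · exact Eq.subst (motive := IZ) e.symm IZ.zero

/-- The types of curves. -/
theorem types (h : Stp N N' N'' Φ) (μ : 𝒞'') :
    (∃ a b, ∀ k, k ≠ a → k ≠ b → N''.d μ (N''.c k) = 0) ∨
      (∀ k, 0 ≤ N''.d μ (N''.c k)) ∧ ∀ i j, 0 ≤ N''.d μ (Φ (exW i j)) := by
  classical
  obtain ⟨ν, ν', ε, ht, hd⟩ := h.cur μ
  have d1 : ∀ i, N''.d μ (N''.c (.inl i)) = N.d ν (N.c i) - ∑ j, ε i j := fun i => by
    rw [h.cc, hd]
    simp [stW]
  have d2 : ∀ j, N''.d μ (N''.c (.inr j)) = N'.d ν' (N'.c j) - ∑ i, ε i j := fun j => by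
    rw [h.cc, hd]
    simp [stW]
  have d3 : ∀ i j, N''.d μ (Φ (exW i j)) = ε i j := fun i j => by
    rw [hd]
    simp [exW, ite_and]
  rcases ht with ⟨j, hj, he⟩ | ⟨i, hi, he⟩ | ⟨i, j, hi, hj, -, -, he⟩ | ⟨e0, e1, e2⟩
  · refine Or.inl ⟨.inr j, .inr j, ?_⟩
    rintro (i | j') hk -
    · simp [d1, he]
    · have : j' ≠ j := fun e => hk (by rw [e])
      simp [d2, he, hj j' this, this]
  · refine Or.inl ⟨.inl i, .inl i, ?_⟩
    rintro (i' | j) hk -
    · have : i' ≠ i := fun e => hk (by rw [e])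
      simp [d1, he, hi i' this, this]
    · simp [d2, he]
  · refine Or.inl ⟨.inl i, .inr j, ?_⟩
    rintro (i' | j') ha hb
    · have : i' ≠ i := fun e => ha (by rw [e])
      rw [d1, hi i' this, Finset.sum_eq_zero fun j' _ => he i' j' fun e => this e.1, sub_zero]
    · have : j' ≠ j := fun e => hb (by rw [e])
      rw [d2, hj j' this, Finset.sum_eq_zero fun i' _ => he i' j' fun e => this e.2, sub_zero]
  · refine Or.inr ⟨?_, fun i j => by rw [d3]; exact e0 i j⟩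
    rintro (i | j)
    · rw [d1]
      exact sub_nonneg.2 (e1 i)
    · rw [d2]
      exact sub_nonneg.2 (e2 j)

theorem surj (h : Stp N N' N'' Φ) : Function.Surjective Φ := by
  rw [← LinearMap.range_eq_top, eq_top_iff, ← h.spn, Submodule.span_le]
  intro x hx
  obtain ⟨n, hn, D, -, e⟩ := h.cls x hx
  exact ⟨(n : ℝ)⁻¹ • D, by
    rw [map_smul, ← e, smul_smul, inv_mul_cancel₀ (Nat.cast_pos.2 hn).ne', one_smul]⟩

end Pc

theorem pc_stmt : PcStmt.{u, v} := by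
  intro V V' V'' 𝒞 𝒞' 𝒞'' κ κ' _ _ _ _ _ _ _ _ N N' N'' Φ h hne hef
  refine ⟨fun μ L hL x x0 hx => ?_, fun L hL hΛ x x0 xz hx => ?_⟩
  · rcases Pc.types h μ with ⟨a, b, hab⟩ | ⟨h1, h2⟩
    · exact skc_few hL hx hab
    · obtain ⟨D, rfl⟩ := Pc.surj h L
      refine Pc.key h ⟨by simp, fun a ha b hb => ?_, fun c hc a ha => ?_⟩ h2 h1 x0
        ((hne _).2 (Pc.rem_nl h hne ((hne D).1 hL) x0 hx) μ)
      · change 0 ≤ N''.d μ _
        rw [map_add]
        exact add_nonneg ha hb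
      · change 0 ≤ N''.d μ _
        rw [map_smul]
        exact mul_nonneg hc ha
  · obtain ⟨n, hn, D, hD, e⟩ := h.cls L hΛ
    have n0 : (0 : ℝ) < n := Nat.cast_pos.2 hn
    have hx' : ∀ k, Φ D - ((n : ℝ) * x k) • N''.c k ∈ N''.Nef := fun k => by
      rw [← e, mul_smul, ← smul_sub]
      exact N''.isCone_nef.smul _ n0.le _ (hx k)
    have hD' : Φ D ∈ N''.Nef := e ▸ N''.isCone_nef.smul _ n0.le _ hL
    have y0 : ∀ k, 0 ≤ (n : ℝ) * x k := fun k => mul_nonneg n0.le (x0 k)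
    obtain ⟨i₀, hi⟩ := Pc.key h (x := fun k => (n : ℝ) * x k) h.b''.cone h.eE h.eC y0
      (hef _ (Pc.rem_nl h hne ((hne D).1 hD') y0 hx')
        (Pc.rem_lw h hD fun k => (IZ.nat n).mul (xz k)))
    refine ⟨i₀, ?_⟩
    have := h.b''.cone.smul _ (inv_nonneg.2 n0.le) _ hi
    simp only [← e, mul_smul, ← Finset.smul_sum, ← smul_sub] at this
    rwa [smul_smul, inv_mul_cancel₀ n0.ne', one_smul] at this

end Pool.Agent.MP_20d318_ag.KK

end PartPc

section PartPd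

/-! Row PD: the dichotomy and finitely many curves on the blow-up of a product. -/

set_option autoImplicit false
set_option linter.unusedSectionVars false

namespace Pool.Agent.MP_20d318_ag.KK

open Pool.Agent.MP_20d318_ag.Lat hiding act actW W
open Pool.Agent.MP_20d318_ag.CH

universe u v

namespace Pd

variable {V V' V'' : Type u} {𝒞 𝒞' 𝒞'' : Type v} {κ κ' : Type} [AddCommGroup V] [Module ℝ V]
  [AddCommGroup V'] [Module ℝ V'] [AddCommGroup V''] [Module ℝ V''] [Fintype κ] [Fintype κ']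
  {N : Nd V 𝒞 κ} {N' : Nd V' 𝒞' κ'} {N'' : Nd V'' 𝒞'' (κ ⊕ κ')} {Φ : WP V V' κ κ' →ₗ[ℝ] V''}

theorem surj (h : Stp N N' N'' Φ) : Function.Surjective Φ := by
  rw [← LinearMap.range_eq_top, eq_top_iff, ← h.spn, Submodule.span_le]
  intro x hx
  obtain ⟨n, hn, D, -, e⟩ := h.cls x hx
  exact ⟨(n : ℝ)⁻¹ • D, by
    rw [map_smul, ← e, smul_smul, inv_mul_cancel₀ (Nat.cast_pos.2 hn).ne', one_smul]⟩

theorem ident (N : Nd V 𝒞 κ) (N' : Nd V' 𝒞' κ') (D : WP V V' κ κ') (z : κ ⊕ κ' → ℝ) :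
    D - ∑ k, z k • stW N N' k = (D.1 - ∑ i, z (.inl i) • N.c i, D.2.1 - ∑ j, z (.inr j) • N'.c j,
      fun i j => D.2.2 i j - z (.inl i) - z (.inr j)) := by
  classical
  rw [Fintype.sum_sum_type]
  refine Prod.ext ?_ (Prod.ext ?_ ?_)
  · simp [Prod.fst_sum, stW]
  · simp [Prod.fst_sum, Prod.snd_sum, stW]
  · funext i j
    simp [Prod.snd_sum, Finset.sum_apply, stW, sub_sub]

theorem dich (h : Stp N N' N'' Φ) : Dich N'' := by
  classical
  intro μ
  obtain ⟨ν, ν', ε, ht, hd⟩ := h.cur μ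
  have d1 : ∀ i, N''.d μ (N''.c (.inl i)) = N.d ν (N.c i) - ∑ j, ε i j := fun i => by
    rw [h.cc, hd]
    simp [stW]
  have d2 : ∀ j, N''.d μ (N''.c (.inr j)) = N'.d ν' (N'.c j) - ∑ i, ε i j := fun j => by
    rw [h.cc, hd]
    simp [stW]
  rcases ht with ⟨j, hτ, he⟩ | ⟨i, hi, he⟩ | ⟨i, j, hi, hj, e0, e1, he⟩ | ⟨e0, e1, e2⟩
  · refine Or.inr ⟨.inr j, ?_⟩
    rintro (i | j') hk
    · simp [d1, he]
    · have : j' ≠ j := fun e => hk (by rw [e])
      simp [d2, he, hτ j' this, this]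
  · refine Or.inr ⟨.inl i, ?_⟩
    rintro (i' | j) hk
    · have : i' ≠ i := fun e => hk (by rw [e])
      simp [d1, he, hi i' this, this]
    · simp [d2, he]
  · have r1 : ∑ j', ε i j' = ε i j :=
      Finset.sum_eq_single j (fun j' _ hj => he i j' fun e => hj e.2) (by simp)
    have r2 : ∑ i', ε i' j = ε i j :=
      Finset.sum_eq_single i (fun i' _ hi' => he i' j fun e => hi' e.1) (by simp)
    refine Or.inl ?_
    rintro (i' | j')
    · by_cases e : i' = i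
      · rw [e, d1, r1]
        exact sub_nonneg.2 e0
      · rw [d1, hi i' e, Finset.sum_eq_zero fun j' _ => he i' j' fun k => e k.1, sub_zero]
    · by_cases e : j' = j
      · rw [e, d2, r2]
        exact sub_nonneg.2 e1
      · rw [d2, hj j' e, Finset.sum_eq_zero fun i' _ => he i' j' fun k => e k.2, sub_zero]
  · refine Or.inl ?_
    rintro (i | j)
    · rw [d1]
      exact sub_nonneg.2 (e1 i)
    · rw [d2]
      exact sub_nonneg.2 (e2 j)

end Pd

theorem pd_stmt : PdStmt.{u, v} := by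
  intro V V' V'' 𝒞 𝒞' 𝒞'' κ κ' _ _ _ _ _ _ _ _ N N' N'' Φ h hne
  refine ⟨Pd.dich h, ?_⟩
  choose νE nE nE0 hE using h.tE
  refine ⟨Set.range fun p : κ × κ' => νE p.1 p.2, Set.finite_range _, fun L hL z z0 hz => ?_⟩
  obtain ⟨D, rfl⟩ := Pd.surj h L
  obtain ⟨-, a1, a2, a3, a4⟩ := (hne D).1 hL
  have e : Φ D - ∑ k, z k • N''.c k = Φ (D.1 - ∑ i, z (.inl i) • N.c i,
      D.2.1 - ∑ j, z (.inr j) • N'.c j, fun i j => D.2.2 i j - z (.inl i) - z (.inr j)) := by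
    rw [← Pd.ident]
    simp only [map_sub, map_sum, map_smul, h.cc]
  rw [e] at hz ⊢
  have h1 : ∀ i j, 0 ≤ D.2.2 i j - z (.inl i) - z (.inr j) := fun i j => by
    have := hz _ ⟨(i, j), rfl⟩
    rw [hE] at this
    exact nonneg_of_mul_nonneg_right this (nE0 i j)
  obtain ⟨i₀⟩ := h.l.ne
  obtain ⟨j₀⟩ := h.l'.ne
  refine (hne _).2 ⟨h1, ?_, ?_, fun j => ?_, fun i => ?_⟩
  · exact h.l.dich.mid a1 (a3 j₀) (fun i => z0 _) fun i => by linarith [h1 i j₀, z0 (.inr j₀)]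
  · exact h.l'.dich.mid a2 (a4 i₀) (fun j => z0 _) fun j => by linarith [h1 i₀ j, z0 (.inl i₀)]
  · have := h.l.dich.mid a1 (a3 j) (b := fun i => D.2.2 i j - z (.inr j))
      (fun i => by linarith [h1 i j, z0 (.inl i)]) fun i => by linarith [z0 (.inr j)]
    have e2 : D.1 - ∑ i, z (.inl i) • N.c i -
        ∑ i, (D.2.2 i j - z (.inl i) - z (.inr j)) • N.c i =
        D.1 - ∑ i, (D.2.2 i j - z (.inr j)) • N.c i := by
      simp only [sub_smul, Finset.sum_sub_distrib]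
      abel
    exact e2 ▸ this
  · have := h.l'.dich.mid a2 (a4 i) (b := fun j => D.2.2 i j - z (.inl i))
      (fun j => by linarith [h1 i j, z0 (.inr j)]) fun j => by linarith [z0 (.inl i)]
    have e2 : D.2.1 - ∑ j, z (.inr j) • N'.c j -
        ∑ j, (D.2.2 i j - z (.inl i) - z (.inr j)) • N'.c j =
        D.2.1 - ∑ j, (D.2.2 i j - z (.inl i)) • N'.c j := by
      simp only [sub_smul, Finset.sum_sub_distrib]
      abel
    exact e2 ▸ this

end Pool.Agent.MP_20d318_ag.KK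

end PartPd

section PartPe

/-! Row PE: the cover on the blow-up of a product. -/

set_option autoImplicit false
set_option linter.unusedSectionVars false

namespace Pool.Agent.MP_20d318_ag.KK

open Pool.Agent.MP_20d318_ag.Lat hiding act actW W
open Pool.Agent.MP_20d318_ag.CH

universe u v

namespace Pe

variable {V V' : Type u} {𝒞 𝒞' : Type v} {κ κ' : Type} [AddCommGroup V] [Module ℝ V]
  [AddCommGroup V'] [Module ℝ V'] [Fintype κ] [Fintype κ']

theorem ident (D : WP V V' κ κ') : D = ((D.1, 0, 0) : WP V V' κ κ') + (0, D.2.1, 0) +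
    ∑ i, ∑ j, D.2.2 i j • (-exW i j : WP V V' κ κ') := by
  classical
  refine Prod.ext ?_ (Prod.ext ?_ ?_)
  · simp [Prod.fst_sum, exW]
  · simp [Prod.fst_sum, Prod.snd_sum, exW]
  · funext i j
    simp [Prod.snd_sum, Finset.sum_apply, exW, ite_and]

/-- The class of a column. -/
def colL (N : Nd V 𝒞 κ) (j : κ') : WP V V' κ κ' →ₗ[ℝ] V where
  toFun D := D.1 - ∑ i, D.2.2 i j • N.c i
  map_add' D D' := by
    simp only [Prod.snd_add, Prod.fst_add, Pi.add_apply, add_smul, Finset.sum_add_distrib]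
    abel
  map_smul' c D := by
    simp only [Prod.smul_snd, Prod.smul_fst, Pi.smul_apply, smul_eq_mul, RingHom.id_apply,
      mul_smul, ← Finset.smul_sum, smul_sub]

/-- The class of a row. -/
def rowL (N' : Nd V' 𝒞' κ') (i : κ) : WP V V' κ κ' →ₗ[ℝ] V' where
  toFun D := D.2.1 - ∑ j, D.2.2 i j • N'.c j
  map_add' D D' := by
    simp only [Prod.snd_add, Prod.fst_add, Pi.add_apply, add_smul, Finset.sum_add_distrib]
    abel
  map_smul' c D := by
    simp only [Prod.smul_snd, Prod.smul_fst, Pi.smul_apply, smul_eq_mul, RingHom.id_apply,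
      mul_smul, ← Finset.smul_sum, smul_sub]

theorem rp0 (N : Nd V 𝒞 κ) (N' : Nd V' 𝒞' κ') {R : Finset V} {R' : Finset V'}
    (hR : (R : Set V) ⊆ N.Λ) (hR' : (R' : Set V') ⊆ N'.Λ) :
    RP (LW N N') {D : WP V V' κ κ' | D.1 ∈ cone (R : Set V) ∧ D.2.1 ∈ cone (R' : Set V') ∧
      ∀ i j, 0 ≤ D.2.2 i j} := by
  classical
  have hc := isCone_cone (R : Set V)
  have hc' := isCone_cone (R' : Set V')
  let G : Finset (WP V V' κ κ') := R.image (fun r => (r, 0, 0)) ∪ R'.image (fun r => (0, r, 0)) ∪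
    Finset.univ.image fun p : κ × κ' => -exW p.1 p.2
  have hG : ∀ D : WP V V' κ κ', D ∈ (G : Set (WP V V' κ κ')) ↔
      ((∃ r ∈ R, (r, 0, 0) = D) ∨ ∃ r ∈ R', (0, r, 0) = D) ∨
      ∃ p : κ × κ', -exW p.1 p.2 = D := fun D => by
    simp only [G, Finset.mem_coe, Finset.mem_union, Finset.mem_image, Finset.mem_univ, true_and]
  refine ⟨G, fun D hD => ?_, Set.Subset.antisymm (IsCone.cone_subset ⟨⟨hc.zero, hc'.zero,
    fun _ _ => le_rfl⟩, fun x hx y hy => ⟨hc.add _ hx.1 _ hy.1, hc'.add _ hx.2.1 _ hy.2.1,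
      fun i j => add_nonneg (hx.2.2 i j) (hy.2.2 i j)⟩, fun c h0 x hx => ⟨hc.smul _ h0 _ hx.1,
        hc'.smul _ h0 _ hx.2.1, fun i j => mul_nonneg h0 (hx.2.2 i j)⟩⟩ fun D hD => ?_)
    fun D hD => ?_⟩
  · rcases (hG D).1 hD with (⟨r, hr, rfl⟩ | ⟨r, hr, rfl⟩) | ⟨p, rfl⟩
    · exact ⟨hR hr, N'.Λ.zero_mem, fun _ _ => IZ.zero⟩
    · exact ⟨N.Λ.zero_mem, hR' hr, fun _ _ => IZ.zero⟩
    · exact (LW N N').neg_mem
        ⟨N.Λ.zero_mem, N'.Λ.zero_mem, fun _ _ => IZ.ite IZ.one.neg IZ.zero⟩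
  · rcases (hG D).1 hD with (⟨r, hr, rfl⟩ | ⟨r, hr, rfl⟩) | ⟨p, rfl⟩
    · exact ⟨subset_cone _ hr, hc'.zero, fun _ _ => le_rfl⟩
    · exact ⟨hc.zero, subset_cone _ hr, fun _ _ => le_rfl⟩
    · refine ⟨by simp only [exW, Prod.fst_neg, neg_zero]; exact hc.zero,
        by simp only [exW, Prod.snd_neg, Prod.fst_neg, neg_zero]; exact hc'.zero, fun i j => ?_⟩
      simp only [exW, Prod.snd_neg, Pi.neg_apply]
      split_ifs <;> simp
  · have hcG := isCone_cone (G : Set (WP V V' κ κ'))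
    rw [ident D]
    refine hcG.add _ (hcG.add _ ?_ _ ?_) _ (hcG.sum_mem _ _ fun i _ => hcG.sum_mem _ _ fun j _ =>
        hcG.smul _ (hD.2.2 i j) _ (subset_cone _ ((hG _).2 (Or.inr ⟨(i, j), rfl⟩))))
    · exact (hcG.preimage (LinearMap.inl ℝ V (V' × (κ → κ' → ℝ)))).cone_subset
        (fun r hr => subset_cone _ ((hG _).2 (Or.inl (Or.inl ⟨r, hr, rfl⟩)))) hD.1
    · exact (hcG.preimage ((LinearMap.inr ℝ V (V' × (κ → κ' → ℝ))).comp
        (LinearMap.inl ℝ V' (κ → κ' → ℝ)))).cone_subset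
        (fun r hr => subset_cone _ ((hG _).2 (Or.inl (Or.inr ⟨r, hr, rfl⟩)))) hD.2.1

end Pe

theorem pe_stmt : PeStmt.{u, v} := by
  classical
  intro V V' V'' 𝒞 𝒞' 𝒞'' κ κ' _ _ _ _ _ _ _ _ N N' N'' Φ h hn he ⟨R, F, r1, r2, r3, f1, f2, f3⟩
    ⟨R', F', r1', r2', r3', f1', f2', f3'⟩
  obtain ⟨P, h1, h2⟩ := (Pe.rp0 N N' r1 r1').inter_fin
    (T := (fun p : (V →ₗ[ℝ] ℝ) × κ' => p.1.comp (Pe.colL N p.2)) '' (F ×ˢ Set.univ) ∪
      (fun p : (V' →ₗ[ℝ] ℝ) × κ => p.1.comp (Pe.rowL N' p.2)) '' (F' ×ˢ Set.univ))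
    (((f1.prod Set.finite_univ).image _).union ((f1'.prod Set.finite_univ).image _)) (by
      rintro _ (⟨p, hp, rfl⟩ | ⟨p, hp, rfl⟩) D hD
      · exact (f2 _ hp.1).1 _ (N.Λ.sub_mem hD.1
          (N.Λ.sum_mem fun i _ => (hD.2.2 i _).smul_mem (h.l.cΛ i)))
      · exact (f2' _ hp.1).1 _ (N'.Λ.sub_mem hD.2.1
          (N'.Λ.sum_mem fun j _ => (hD.2.2 _ j).smul_mem (h.l'.cΛ j))))
  refine ⟨P.image Φ, ?_, ?_, fun x hx => ?_⟩
  · rw [Finset.coe_image]
    rintro _ ⟨D, hD, rfl⟩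
    exact h.lat D (h1 hD)
  · refine (N''.isCone_nef.inter h.b''.cone).cone_subset ?_
    rw [Finset.coe_image]
    rintro _ ⟨D, hD, rfl⟩
    obtain ⟨⟨d1, d2, d3⟩, d4⟩ := h2.subset (subset_cone _ hD)
    have k : D ∈ NL N N' := ⟨d3, (r2 d1).1, (r2' d2).1,
      fun j => f3 _ d1 _ (fun i => d3 i j) fun f hf => d4 _ (Or.inl ⟨(f, j), ⟨hf, trivial⟩, rfl⟩),
      fun i => f3' _ d2 _ (d3 i) fun f hf => d4 _ (Or.inr ⟨(f, i), ⟨hf, trivial⟩, rfl⟩)⟩
    exact ⟨(hn D).2 k, he D k (h1 hD)⟩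
  · obtain ⟨D, rfl, e1, e2⟩ := h.dn x hx.2
    have k := (hn D).1 hx.1
    obtain ⟨g, hg, g1⟩ := r3 _ ⟨k.2.1, e1⟩
    obtain ⟨g', hg', g2⟩ := r3' _ ⟨k.2.2.1, e2⟩
    obtain ⟨γ, hγ, e⟩ := h.lift g hg g' hg'
    have k' := (hn _).1 (e D ▸ h.b''.gN γ hγ _ hx.1)
    refine ⟨γ, hγ, ?_⟩
    rw [Finset.coe_image, cone_map, e]
    refine ⟨(g D.1, g' D.2.1, D.2.2), h2.superset ⟨⟨g1, g2, k.1⟩, ?_⟩, rfl⟩
    rintro _ (⟨p, hp, rfl⟩ | ⟨p, hp, rfl⟩)
    · exact (f2 _ hp.1).2 _ (k'.2.2.2.1 p.2)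
    · exact (f2' _ hp.1).2 _ (k'.2.2.2.2 p.2)

end Pool.Agent.MP_20d318_ag.KK

end PartPe

section PartSml

/-! Rows DKS and SML. -/

set_option autoImplicit false

namespace Pool.Agent.MP_20d318_ag.KK

open Pool.Agent.MP_20d318_ag.Lat hiding act actW W
open Pool.Agent.MP_20d318_ag.CH

universe u v

theorem dks_stmt : DksStmt.{u, v} := by
  rintro V 𝒞 κ _ _ _ N ⟨R, h1, h2, h3⟩ ⟨F, k1, k2, k3⟩
  choose T t1 t2 t3 using fun τ : κ → ℝ =>
    dickson R {f ∈ F | (fun i => f (N.c i)) = τ} id fun f hf r hr => by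
      obtain ⟨z, hz⟩ := (k1 f hf.1).1 r (h1 hr)
      have := (k1 f hf.1).2 r (h2 (subset_cone _ hr)).1
      rw [hz] at this
      exact ⟨z.toNat, hz.trans
        (by exact_mod_cast (Int.toNat_of_nonneg (by exact_mod_cast this)).symm)⟩
  refine ⟨R, _, h1, h2, h3, k2.biUnion fun τ _ => t2 τ, fun f hf => ?_, fun L hL z hz h =>
    k3 L (h2 hL).1 z hz fun f hf => ?_⟩
  · obtain ⟨τ, -, hf⟩ := Set.mem_iUnion₂.1 hf
    exact k1 f (t1 τ hf).1
  · obtain ⟨g, hg, e⟩ := t3 _ f ⟨hf, rfl⟩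
    have a := h g (Set.mem_iUnion₂.2 ⟨_, ⟨f, hf, rfl⟩, hg⟩)
    have b : g L ≤ f L := e L hL
    simp only [map_sub, map_sum, map_smul, fun i => congrFun (t1 _ hg).2 i] at a ⊢
    linarith

theorem sml_stmt : SmlStmt.{u, v} := by
  classical
  intro V 𝒞 κ _ _ _ N b
  have e : ∀ (L : V) (x : κ → ℝ) i, (2 : ℝ) • L - ∑ i, x i • N.c i =
      (L - ∑ j ∈ Finset.univ.erase i, x j • N.c j) + (L - x i • N.c i) := fun L x i => by
    rw [← Finset.add_sum_erase _ _ (Finset.mem_univ i), two_smul]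
    abel
  refine ⟨fun hc h => ⟨fun ν L hL x h0 h1 => ?_, fun L hL hΛ x h0 hz h1 => ?_⟩, ?_, ?_⟩
  · obtain ⟨i, hi⟩ := h.cur ν L hL x h0 h1
    rw [e L x i, map_add]
    exact add_nonneg hi (h1 i ν)
  · obtain ⟨i, hi⟩ := h.eff L hL hΛ x h0 hz h1
    obtain ⟨j, hj⟩ := h.eff _ (h1 i) (N.Λ.sub_mem hΛ ((hz i).smul_mem (hc i))) 0 (fun _ => le_rfl)
      (fun _ => IZ.zero) fun _ => by simpa using h1 i
    rw [e L x i]
    exact b.cone.add _ hi _ (by simpa using hj)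
  · rintro ⟨F, h1, h2⟩
    refine ⟨N.d '' F, ?_, (h1.image _).image _, fun L hL z hz h =>
      h2 L hL z hz fun ν hν => h _ ⟨ν, hν, rfl⟩⟩
    rintro _ ⟨ν, -, rfl⟩
    exact ⟨b.int ν, fun x hx => hx ν⟩
  · rintro 𝓗 ⟨-, -, -, -, -, hh, ⟨R, h1, h2, h3⟩, -⟩ hf
    have lo : ∀ x ∈ N.Nef, ((x, 0, 0) : WW V κ) ∈ N.NL ∩ 𝓗 := fun x hx =>
      ⟨⟨fun _ _ => le_rfl, by simp, hx, by simpa using hx⟩,
        hh.low _ hx (fun _ _ => le_rfl) (by simp)⟩
    refine ⟨R.image (LinearMap.fst ℝ _ _), ?_, ?_, fun x hx => ?_⟩ <;> rw [Finset.coe_image]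
    · rintro _ ⟨r, hr, rfl⟩
      exact (h1 hr).1
    · refine (N.isCone_nef.inter b.cone).cone_subset ?_
      rintro _ ⟨r, hr, rfl⟩
      have k := (h2 (subset_cone _ hr)).1.2.2.1
      have := b.cone.smul (1 / 2) (by norm_num) _ (hf.eff _ k (h1 hr).1 0 (fun _ => le_rfl)
        (fun _ => IZ.zero) fun _ => by simpa using k)
      exact ⟨k, by simpa [smul_smul] using this⟩
    · obtain ⟨g, hg, k⟩ := h3 _ (lo x hx.1) hx.2
      rw [cone_map]
      exact ⟨g, hg, _, k (lo _ (b.gN g hg x hx.1)), rfl⟩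

end Pool.Agent.MP_20d318_ag.KK

end PartSml

section PartTrp

/-! Numerical classes on the blow-up of a product: transport along an isomorphism. -/

set_option autoImplicit false
set_option linter.unusedSectionVars false

namespace Pool.Agent.MP_20d318_ag.KK

open Pool.Agent.MP_20d318_ag.Lat hiding act actW W
open Pool.Agent.MP_20d318_ag.CH

universe u v u' v'

namespace Trp

variable {V : Type u} {𝒞 : Type v} {V' : Type u'} {𝒞' : Type v'} {κ : Type} [AddCommGroup V]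
  [Module ℝ V] [AddCommGroup V'] [Module ℝ V'] [Fintype κ] {N : Nd V 𝒞 κ} {N' : Nd V' 𝒞' κ}
  {ψ : V ≃ₗ[ℝ] V'}

theorem one (h : Iso N N' ψ) {L : V} {x : κ → ℝ} (k : ∀ i, ψ L - x i • N'.c i ∈ N'.Nef) (i : κ) :
    L - x i • N.c i ∈ N.Nef := by
  rw [← TrA.nef h, map_sub, map_smul, h.c]
  exact k i

theorem hf (h : Iso N N' ψ) (l : HF N) : HF N' := by
  refine ⟨fun ν' y hy x h0 k => ?_, fun y hy hL x h0 hz k => ?_⟩ <;>
    obtain ⟨L, rfl⟩ := ψ.surjective y <;> rw [← map_smul, TrA.sub h]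
  · rcases h.dn ν' with e | ⟨ν, r, hr, e⟩
    · exact (e _).ge
    · rw [e]
      exact mul_nonneg hr.le (l.cur ν L ((TrA.nef h).1 hy) x h0 (one h k))
  · exact (h.Ef _).2 (l.eff L ((TrA.nef h).1 hy) ((h.Λ L).1 hL) x h0 hz (one h k))

theorem dk (h : Iso N N' ψ) (l : DK N) : DK N' := by
  obtain ⟨F, h1, h2, h3⟩ := l
  refine ⟨(fun f : V →ₗ[ℝ] ℝ => f ∘ₗ ψ.symm.toLinearMap) '' F, ?_, h2.subset ?_,
    fun y hy z h0 k => ?_⟩
  · rintro _ ⟨f, hf, rfl⟩
    refine ⟨fun y hy => ?_, fun y hy => ?_⟩ <;> obtain ⟨x, rfl⟩ := ψ.surjective y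
    · simpa using (h1 f hf).1 x ((h.Λ x).1 hy)
    · simpa using (h1 f hf).2 x ((TrA.nef h).1 hy)
  · rintro _ ⟨_, ⟨f, hf, rfl⟩, rfl⟩
    exact ⟨f, hf, funext fun i => by simp [← h.c]⟩
  · obtain ⟨L, rfl⟩ := ψ.surjective y
    rw [TrA.sub h] at k ⊢
    refine (TrA.nef h).2 (h3 L ((TrA.nef h).1 hy) z h0 fun f hf => ?_)
    have := k _ ⟨f, hf, rfl⟩
    rwa [LinearMap.comp_apply, LinearEquiv.coe_coe, ψ.symm_apply_apply] at this

end Trp

theorem trp_stmt : TrpStmt.{u, v, u', v'} :=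
  fun _ _ _ _ _ _ _ _ _ _ _ _ _ h => ⟨Trp.hf h, Trp.dk h⟩

end Pool.Agent.MP_20d318_ag.KK

end PartTrp

section PartHfc

/-! Row HFC: half of the components can be subtracted when all have square `-4`. -/

set_option autoImplicit false
set_option linter.unusedSectionVars false

namespace Pool.Agent.MP_20d318_ag.KK

open Pool.Agent.MP_20d318_ag.Lat hiding act actW W
open Pool.Agent.MP_20d318_ag.CH
open Pool.Agent.MP_20d318_ag.CB

namespace Hfc

variable {ι κ : Type} [Fintype ι] [Fintype κ] {Λ : Ld ι κ} {G : Set (Matrix ι ι ℤ)}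
  {L : ι → ℝ} {x : κ → ℝ}

theorem half (xn : CC.XN Λ) (hL : L ∈ Λ.NT) (x0 : ∀ i, 0 ≤ x i)
    (hx : ∀ i, L - x i • toR (Λ.C i) ∈ Λ.NT) {b : ι → ℤ} (hb : b ∈ CC.HC Λ) :
    ∑ i, x i ≤ 2 * ip Λ.B L (toR b) := by
  classical
  obtain ⟨e⟩ := xn.four b hb
  have a0 : ∀ i k : κ, 0 ≤ if i = k then x i else 0 := fun i k => by
    split_ifs
    exacts [x0 i, le_rfl]
  have key := fun f : Fin 4 → κ => xn.s2
    (L, ∑ i, ∑ j, if i = f j then x i else 0, fun i j => if i = f j then x i else 0)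
    ⟨fun i j => a0 _ _, fun k => Finset.single_le_sum
      (f := fun i => ∑ j, if i = f j then x i else 0)
      (fun i _ => Finset.sum_nonneg fun j _ => a0 _ _) (Finset.mem_univ k), hL, fun j => by
        simpa only [ite_smul, zero_smul, Finset.sum_ite_eq', Finset.mem_univ, if_true]
          using hx (f j)⟩ b hb e 0 1
  have h1 := key ![e 0, e 2, e 0, e 0]
  have h2 := key ![e 1, e 3, e 0, e 0]
  change ite (e 0 = e 0) _ _ + ite (e 1 = e 0) _ _ + ite (e 2 = e 2) _ _ + ite (e 3 = e 2) _ _ ≤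
    ip Λ.B L (toR b) at h1
  change ite (e 0 = e 1) _ _ + ite (e 1 = e 1) _ _ + ite (e 2 = e 3) _ _ + ite (e 3 = e 3) _ _ ≤
    ip Λ.B L (toR b) at h2
  rw [if_pos rfl, if_pos rfl] at h1 h2
  rw [← Equiv.sum_comp e x, Fin.sum_univ_four]
  split_ifs at h1 h2 <;> linarith [x0 (e 0), x0 (e 1), x0 (e 2), x0 (e 3)]

open Classical in
theorem dec (h : CC.B0 Λ) (xn : CC.XN Λ) (hL : L ∈ Λ.NT) (x0 : ∀ i, 0 ≤ x i)
    (hx : ∀ i, L - x i • toR (Λ.C i) ∈ Λ.NT) :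
    (∃ N y, CC.KH Λ L N x y ∧ (2 : ℝ) • N = (2 : ℝ) • L - ∑ i, x i • toR (Λ.C i)) ∨
      ∃ N y m, CC.KH Λ L N x y ∧
        N = (2 : ℝ) • L - ∑ i, x i • toR (Λ.C i) - (L - x m • toR (Λ.C m)) := by
  by_cases c : ∀ k, 2 * x k ≤ ∑ i, x i
  · refine .inl ⟨_, fun k => x k / 2, ⟨hL, hx, fun k => by linarith [x0 k],
      fun k => by linarith [x0 k], fun k => ?_, fun b hb => ?_, rfl⟩, ?_⟩
    · rw [← Finset.sum_div]
      linarith [c k]
    · rw [← Finset.sum_div]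
      linarith [half xn hL x0 hx hb]
    · rw [smul_sub, Finset.smul_sum]
      exact congrArg _ (Finset.sum_congr rfl fun k _ => by rw [smul_smul, mul_div_cancel₀ _ two_ne_zero])
  · obtain ⟨m, hm⟩ := not_forall.1 c
    have y0 : ∀ k, 0 ≤ Function.update x m 0 k := fun k => by
      rcases eq_or_ne k m with rfl | e
      · rw [Function.update_self]
      · rw [Function.update_of_ne e]; exact x0 k
    have s : ∑ k, Function.update x m 0 k + x m = ∑ k, x k := by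
      rw [Finset.sum_update_of_mem (Finset.mem_univ m), zero_add,
        Finset.sum_eq_sum_sdiff_singleton_add (Finset.mem_univ m) x]
    refine .inr ⟨_, Function.update x m 0, m, ⟨hL, hx, y0, fun k => ?_, fun k => ?_,
      fun b hb => ?_, rfl⟩, ?_⟩
    · rcases eq_or_ne k m with rfl | e
      · rw [Function.update_self]; exact x0 k
      · rw [Function.update_of_ne e]
    · rcases eq_or_ne k m with rfl | e
      · exact s.le
      · have := Finset.single_le_sum (fun i _ => y0 i) (Finset.mem_univ k)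
        rw [Function.update_of_ne e] at this
        linarith
    · have := h.lb.efr _ (hx m) b (h.lb.ne b hb.1).2
      rw [ip_sub_left, ip_smul_left, ip_toR, hb.2.2.2 m, Int.cast_one] at this
      linarith
    · rw [Finset.sum_eq_sum_sdiff_singleton_add (Finset.mem_univ m),
        Finset.sum_eq_sum_sdiff_singleton_add (Finset.mem_univ m) fun i => x i • toR (Λ.C i),
        Function.update_self, zero_smul, two_smul, Finset.sum_congr rfl fun k hk => by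
          rw [Function.update_of_ne (by simpa using hk)]]
      abel

theorem ef (h : CC.B0 Λ) (key : CC.KEY Λ) {N : ι → ℝ} {y : κ → ℝ} (k : CC.KH Λ L N x y) {n : ℕ}
    (hn : 0 < n) {c : ι → ℤ} (e0 : (n : ℝ) • N = toR c) : N ∈ (ldN Λ G).Ef := by
  obtain ⟨T, hT, n1⟩ := key L N x y k
  have n2 := Gkc.rat (G := G) h hn (c := c + ∑ e ∈ T, ip Λ.B c e • e) (by
    simp only [toR_add, toR_sum (s := T), toR_zsmul, ← ip_toR, ← e0, ip_smul_left, smul_add,
      Finset.smul_sum, smul_smul]) n1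
  have C := isCone_cone (toR '' Λ.P)
  have n3 := C.add _ n2 _ (C.sum_mem T (fun e => (-ip Λ.B N (toR e)) • toR e)
    fun e he => C.smul _ (neg_nonneg.2 (hT e he).2.le) _ (ld_ef (G := G) (hT e he).1))
  simp only [neg_smul, Finset.sum_neg_distrib, add_neg_cancel_right] at n3
  exact n3

theorem cur (h : CC.B0 Λ) (xn : CC.XN Λ) (key : CC.KEY Λ) (hL : L ∈ Λ.NT) (x0 : ∀ i, 0 ≤ x i)
    (hx : ∀ i, L - x i • toR (Λ.C i) ∈ Λ.NT) {c : ι → ℤ} (hc : c ∈ Λ.P) :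
    0 ≤ ip Λ.B ((2 : ℝ) • L - ∑ i, x i • toR (Λ.C i)) (toR c) := by
  classical
  rcases le_or_gt 0 (ip Λ.B c c) with hcc | hcc
  · rcases dec h xn hL x0 hx with ⟨N, y, k, e⟩ | ⟨N, y, m, k, e⟩
    · rw [← e, ip_smul_left]
      exact mul_nonneg zero_le_two (CC.LcA.nefc h key k hc hcc)
    · have := CC.LcA.nefc h key k hc hcc
      rw [e, ip_sub_left] at this
      linarith [hx m c hc]
  · obtain ⟨a, b, hab⟩ := Gkc.two h hc hcc
    have h0 := hL c hc
    have h1 := hx a c hc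
    have h2 := hx b c hc
    simp only [ip_sub_left, ip_smul_left, ip_sum_left] at h1 h2 ⊢
    rw [← Finset.sum_subset (Finset.subset_univ {a, b}) fun i _ hi => by
      rw [Finset.mem_insert, Finset.mem_singleton, not_or] at hi
      rw [ip_toR, hab i hi.1 hi.2, Int.cast_zero, mul_zero]]
    rcases eq_or_ne a b with rfl | e
    · rw [Finset.pair_eq_singleton, Finset.sum_singleton]
      linarith
    · rw [Finset.sum_pair e]
      linarith

end Hfc

open Hfc in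
theorem hfc_stmt : HfcStmt := by
  intro ι κ _ _ Λ G h xn key
  refine ⟨fun c L hL x x0 hx => ?_, fun L hL hΛ x x0 xz hx => ?_⟩ <;> rw [ld_nef] at hL hx
  · exact cur h xn key hL x0 hx c.2
  · obtain ⟨l, rfl⟩ := hΛ
    choose z hz using xz
    have e1 : (2 : ℝ) • toR l - ∑ i, x i • toR (Λ.C i) = toR (l + l - ∑ i, z i • Λ.C i) := by
      simp only [toR_sub, toR_add, toR_sum, toR_zsmul, two_smul, hz]
    have e2 : ∀ m, toR l - x m • toR (Λ.C m) = toR (l - z m • Λ.C m) := fun m => by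
      simp only [toR_sub, toR_zsmul, hz]
    have C := isCone_cone (toR '' Λ.P)
    simp only [ld_c] at hx ⊢
    rcases dec h xn hL x0 hx with ⟨N, y, k, e⟩ | ⟨N, y, m, k, e⟩
    · rw [← e]
      exact C.smul _ zero_le_two _ (ef (G := G) h key k two_pos (by exact_mod_cast e.trans e1))
    · rw [← eq_sub_iff_add_eq.1 e]
      refine C.add _ (ef (G := G) h key k one_pos (c := l + l - ∑ i, z i • Λ.C i - (l - z m • Λ.C m))
        ?_) _ (Gkc.rat (G := G) h one_pos (c := l - z m • Λ.C m) ?_ (hx m))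
      · rw [Nat.cast_one, one_smul, e, e1, e2, ← toR_sub]
      · rw [Nat.cast_one, one_smul, e2]

end Pool.Agent.MP_20d318_ag.KK

end PartHfc

section PartDkb

/-! Row DKB: the curves that cut out the nef cone of the surface are of finitely many types. -/

set_option autoImplicit false

namespace Pool.Agent.MP_20d318_ag.KK

open Pool.Agent.MP_20d318_ag.Lat hiding act actW W
open Pool.Agent.MP_20d318_ag.CH Pool.Agent.MP_20d318_ag.CB

namespace Dkb

theorem core {ι κ : Type} [Fintype ι] [Fintype κ] {Λ : Ld ι κ} (G : Set (Matrix ι ι ℤ))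
    (S : Set (ι → ℤ)) (hS : S ⊆ Λ.P)
    (ct : ∀ L : ι → ℝ, (∀ c ∈ S, 0 ≤ ip Λ.B L (toR c)) → L ∈ Λ.NT)
    (Cc : ∀ c ∈ Λ.P, c ∉ Set.range Λ.C → ∀ k, 0 ≤ ip Λ.B (Λ.C k) c)
    (sumK : ∀ c, ∑ k, ip Λ.B (Λ.C k) c = -2 * ip Λ.B Λ.K c)
    (hK : ∀ c ∈ S, c ∉ Set.range Λ.C → -2 ≤ ip Λ.B Λ.K c) : DK (ldN Λ G) := by
  refine ⟨ipL Λ.B '' S, ?_, ?_, fun L _ z _ h => ld_nef.superset (ct _ fun c hc => h _ ⟨c, hc, rfl⟩)⟩
  · rintro _ ⟨c, hc, rfl⟩
    refine ⟨?_, fun x hx => hx ⟨c, hS hc⟩⟩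
    rintro _ ⟨a, rfl⟩
    exact ⟨_, ip_toR _ _ _⟩
  · refine ((Set.finite_range fun l i => ipL Λ.B (Λ.C l) (toR (Λ.C i))).union
      (Set.Finite.pi' fun _ : κ => (Set.finite_Icc (0 : ℤ) 4).image (Int.cast : ℤ → ℝ))).subset ?_
    rintro _ ⟨_, ⟨c, hc, rfl⟩, rfl⟩
    by_cases h : c ∈ Set.range Λ.C
    · obtain ⟨l, rfl⟩ := h
      exact Or.inl ⟨l, rfl⟩
    · refine Or.inr fun i => ⟨_, ⟨Cc c (hS hc) h i, ?_⟩, (ip_toR _ _ _).symm⟩
      have h1 := Finset.single_le_sum (fun k _ => Cc c (hS hc) h k) (Finset.mem_univ i)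
      have h2 := hK c hc h
      rw [sumK] at h1
      omega

end Dkb

theorem dkb_stmt : DkbStmt := by
  intro ι κ _ _ Λ G
  refine ⟨fun N L C => Dkb.core G Λ.GEN ?_ C L.Cc L.sumK ?_,
    fun B C => Dkb.core G {c | c ∈ Λ.P ∧ ip Λ.B c c < 0} (fun _ h => h.1)
      (fun x h => C.ct x fun c a b => h c ⟨a, b⟩) B.lb.Cc B.lb.sumK fun c hc h => ?_⟩
  · rintro c ((h | ⟨k, rfl⟩) | h)
    exacts [h.1, N.memC k, h.1]
  · rintro c ((hc | hc) | hc) h
    · rcases L.neg c hc.1 hc.2 with ⟨k, -, e, -⟩ | ⟨-, -, e⟩ | ⟨-, -, e, -⟩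
      · exact absurd ⟨k, e.symm⟩ h
      all_goals omega
    · exact absurd hc h
    · exact hc.2.2.1.ge
  · rcases B.lb.neg c hc.1 hc.2 with ⟨k, e⟩ | ⟨-, -, e⟩ | ⟨-, -, e, -⟩
    · exact absurd ⟨k, e.symm⟩ h
    all_goals omega

end Pool.Agent.MP_20d318_ag.KK

end PartDkb
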