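import Pool.Agent.MP_20d318_ag.KK.Spec
import Pool.Agent.MP_20d318_ag.CH.RowsA

section PartXloc

/-! XLOC: the charts of the blow-up of a product and of its double cover. -/

set_option autoImplicit false
set_option linter.unusedSectionVars false

namespace Pool.Agent.MP_20d318_ag.KK

open Pool.Agent.MP_fd6584_ag.Fn Pool.Agent.CBk Polynomial
open Pool.Agent.MP_fd6584_ag.AG hiding deg_inv deg_congr deg_of_unit deg_mul deg_prod deg_zpow
  deg_eq_zero deg_nonneg deg_div deg_pow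
open Pool.Agent.MP_20d318_ag.CH (Lv OkA)

namespace XlocR

variable {k M M' K Λ Λ' κ κ' : Type} {n n' : ℕ} [Field k] [Field M] [Field M'] [Field K]
  [Algebra k M] [Algebra k M'] [Algebra k K] [Finite Λ] [Finite Λ'] [Fintype κ] [Fintype κ']
  {L : Lv k M Λ κ n} {L' : Lv k M' Λ' κ' n'} {ι : M →ₐ[k] K} {ι' : M' →ₐ[k] K} {v : K} {e : ℕ}
  {O B : Subalgebra k K}

theorem isU_B {R : Subalgebra k M} (hB : ∀ a ∈ R, ι a ∈ B) {u : M} (hu : IsU R u) :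
    IsU B (ι u) :=
  ⟨(map_ne_zero ι).2 hu.ne, hB _ hu.mem, by simpa using hB _ hu.inv_mem⟩

section loc

variable (ht : OkA L) (ht' : OkA L') (he : Ext L.φ L'.φ ι ι' v e) (hR : pr ι L.Y O ∈ L.Y)
  (hR' : pr ι' L'.Y O ∈ L'.Y)

include ht ht' he hR hR'

theorem N_ne : NN L L' ι ι' e O ≠ 0 :=
  pow_ne_zero _ (mul_ne_zero ((map_ne_zero ι).2 (ht.gU _ hR).ne)
    ((map_ne_zero ι').2 (ht'.gU' _ hR').ne))

theorem A_ne : AA L L' ι ι' v e O ≠ 0 :=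
  mul_ne_zero he.vne (pow_ne_zero _ (div_ne_zero ((map_ne_zero ι').2 (ht'.cj.ne hR'))
    ((map_ne_zero ι).2 (ht.cj.ne hR))))

theorem v_eq (m : M) (m' : M') : (ι m * ι' m') ^ (3 - e) = NN L L' ι ι' e O *
    (ι (m / gn L.U (pr ι L.Y O)) *
      ι' (m' / (gn L'.U (pr ι' L'.Y O) / L'.jj (pr ι' L'.Y O)))) ^ (3 - e) := by
  have h1 : ι (gn L.U (pr ι L.Y O)) ≠ 0 := (map_ne_zero ι).2 (ht.gU _ hR).ne
  have h2 : ι' (gn L'.U (pr ι' L'.Y O) / L'.jj (pr ι' L'.Y O)) ≠ 0 :=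
    (map_ne_zero ι').2 (ht'.gU' _ hR').ne
  rw [NN, ← mul_pow, up, up, map_div₀ ι m, map_div₀ ι' m']
  congr 1
  field_simp

theorem w_eq (m : M) (m' : M') : v * (ι m * ι' m') ^ (3 - e) =
    NN L L' ι ι' e O * AA L L' ι ι' v e O *
      (ι (m / (gn L.U (pr ι L.Y O) / L.jj (pr ι L.Y O))) *
        ι' (m' / gn L'.U (pr ι' L'.Y O))) ^ (3 - e) := by
  have h1 : ι (gn L.U (pr ι L.Y O)) ≠ 0 := (map_ne_zero ι).2 (ht.gU _ hR).ne
  have h2 : ι' (gn L'.U (pr ι' L'.Y O)) ≠ 0 := (map_ne_zero ι').2 (ht'.gU _ hR').ne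
  have h3 : ι (L.jj (pr ι L.Y O)) ≠ 0 := (map_ne_zero ι).2 (ht.cj.ne hR)
  have h4 : ι' (L'.jj (pr ι' L'.Y O)) ≠ 0 := (map_ne_zero ι').2 (ht'.cj.ne hR')
  rw [NN, AA, A0, mul_left_comm, ← mul_pow, mul_assoc, ← mul_pow, up, up]
  simp only [map_div₀]
  congr 2
  field_simp

variable (hB : ∀ a ∈ pr ι L.Y O, ι a ∈ B) (hB' : ∀ a ∈ pr ι' L'.Y O, ι' a ∈ B)

include hB hB'

theorem SI_mem : ∀ c ∈ SI L L' ι ι' v e, ∃ b ∈ B,
    c = NN L L' ι ι' e O * AA L L' ι ι' v e O * b ∨ c = NN L L' ι ι' e O * b := by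
  rintro c (⟨m, hm, m', hm', rfl⟩ | ⟨m, hm, m', hm', rfl⟩)
  · exact ⟨_, pow_mem (mul_mem (hB _ ((ht.gU _ hR).1 m hm)) (hB' _ ((ht'.gU' _ hR').1 m' hm'))) _,
      Or.inr (v_eq ht ht' he hR hR' m m')⟩
  · exact ⟨_, pow_mem (mul_mem (hB _ ((ht.gU' _ hR).1 m hm)) (hB' _ ((ht'.gU _ hR').1 m' hm'))) _,
      Or.inl (w_eq ht ht' he hR hR' m m')⟩

theorem SI_one :
    ∃ u, IsU B u ∧ NN L L' ι ι' e O * AA L L' ι ι' v e O * u ∈ SI L L' ι ι' v e := by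
  obtain ⟨m, hm, hu⟩ := (ht.gU' _ hR).2
  obtain ⟨m', hm', hu'⟩ := (ht'.gU _ hR').2
  refine ⟨_, ((isU_B hB hu).mul (isU_B hB' hu')).pow (3 - e), ?_⟩
  rw [← w_eq ht ht' he hR hR']
  exact Or.inr ⟨m, hm, m', hm', rfl⟩

theorem SI_two : ∃ u, IsU B u ∧ NN L L' ι ι' e O * u ∈ SI L L' ι ι' v e := by
  obtain ⟨m, hm, hu⟩ := (ht.gU _ hR).2
  obtain ⟨m', hm', hu'⟩ := (ht'.gU' _ hR').2
  refine ⟨_, ((isU_B hB hu).mul (isU_B hB' hu')).pow (3 - e), ?_⟩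
  rw [← v_eq ht ht' he hR hR']
  exact Or.inl ⟨m, hm, m', hm', rfl⟩

theorem gS1 (ha : AA L L' ι ι' v e O ∈ B) : Gn (SI L L' ι ι' v e) B (NN L L' ι ι' e O) := by
  have hN := N_ne ht ht' he hR hR'
  obtain ⟨u, hu, h⟩ := SI_two ht ht' he hR hR' hB hB'
  refine ⟨fun c hc => ?_, _, h, ?_⟩
  · obtain ⟨b, hb, rfl | rfl⟩ := SI_mem ht ht' he hR hR' hB hB' c hc
    · exact Set.mem_of_eq_of_mem (by field_simp) (mul_mem ha hb)
    · exact Set.mem_of_eq_of_mem (by field_simp) hb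
  · rw [mul_div_cancel_left₀ _ hN]
    exact hu

theorem gS2 (ha : (AA L L' ι ι' v e O)⁻¹ ∈ B) :
    Gn (SI L L' ι ι' v e) B (NN L L' ι ι' e O * AA L L' ι ι' v e O) := by
  have hN := N_ne ht ht' he hR hR'
  have hA := A_ne ht ht' he hR hR'
  obtain ⟨u, hu, h⟩ := SI_one ht ht' he hR hR' hB hB'
  refine ⟨fun c hc => ?_, _, h, ?_⟩
  · obtain ⟨b, hb, rfl | rfl⟩ := SI_mem ht ht' he hR hR' hB hB' c hc
    · exact Set.mem_of_eq_of_mem (by field_simp) hb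
    · exact Set.mem_of_eq_of_mem (by field_simp) (mul_mem ha hb)
  · rw [mul_div_cancel_left₀ _ (mul_ne_zero hN hA)]
    exact hu

theorem aa_of (hp : Prin (SI L L' ι ι' v e) B) :
    AA L L' ι ι' v e O ∈ B ∨ (AA L L' ι ι' v e O)⁻¹ ∈ B := by
  have hN := N_ne ht ht' he hR hR'
  have hA := A_ne ht ht' he hR hR'
  obtain ⟨c, hc, hg⟩ := hp.exists_mem
  have hc0 := hg.ne
  obtain ⟨b, hb, rfl | rfl⟩ := SI_mem ht ht' he hR hR' hB hB' c hc
  · obtain ⟨u, hu, h⟩ := SI_two ht ht' he hR hR' hB hB'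
    have h0 := hu.ne
    have hb0 := right_ne_zero_of_mul hc0
    right
    exact Set.mem_of_eq_of_mem (by field_simp) (mul_mem (mul_mem (hg.1 _ h) hb) hu.inv_mem)
  · obtain ⟨u, hu, h⟩ := SI_one ht ht' he hR hR' hB hB'
    have h0 := hu.ne
    have hb0 := right_ne_zero_of_mul hc0
    left
    exact Set.mem_of_eq_of_mem (by field_simp) (mul_mem (mul_mem (hg.1 _ h) hb) hu.inv_mem)

end loc

section glob

variable (ht : OkA L) (ht' : OkA L') (he : Ext L.φ L'.φ ι ι' v e)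

include ht ht' he

theorem fam : Fam k (famX L L' ι ι' v e) where
  fin := by
    rintro (a | a | b)
    · exact (ht.fam.fin a).image ι
    · exact (ht'.fam.fin a).image ι'
    · exact (ht.fU.image2 _ ht'.fU').union (ht.fU'.image2 _ ht'.fU)
  ne := by
    rintro (a | a | b)
    · exact (ht.fam.ne a).image ι
    · exact (ht'.fam.ne a).image ι'
    · obtain ⟨m, hm, -⟩ := (ht.gU _ (fine_mp ht.fam).top).2
      obtain ⟨m', hm', -⟩ := (ht'.gU' _ (fine_mp ht'.fam).top).2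
      exact ⟨_, Or.inl ⟨m, hm, m', hm', rfl⟩⟩
  nz := by
    rintro (o | o | b) a ha
    · obtain ⟨m, hm, rfl⟩ := ha
      exact (map_ne_zero ι).2 (ht.fam.nz o m hm)
    · obtain ⟨m, hm, rfl⟩ := ha
      exact (map_ne_zero ι').2 (ht'.fam.nz o m hm)
    · rcases ha with ⟨m, hm, m', hm', rfl⟩ | ⟨m, hm, m', hm', rfl⟩
      · exact pow_ne_zero _ (mul_ne_zero ((map_ne_zero ι).2 (ht.nU m hm))
          ((map_ne_zero ι').2 (ht'.nU' m' hm')))
      · exact mul_ne_zero he.vne (pow_ne_zero _ (mul_ne_zero ((map_ne_zero ι).2 (ht.nU' m hm))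
          ((map_ne_zero ι').2 (ht'.nU m' hm'))))
  top := by
    have h1 : (⊤ : IntermediateField k M) ≤ (IntermediateField.adjoin k
        {f | ∃ l, ∃ a ∈ famX L L' ι ι' v e l, ∃ b ∈ famX L L' ι ι' v e l, f = a / b}).comap ι := by
      rw [← ht.fam.top, IntermediateField.adjoin_le_iff]
      rintro _ ⟨o, a, ha, b, hb, rfl⟩
      exact IntermediateField.subset_adjoin _ _
        ⟨Sum.inl o, ι a, ⟨a, ha, rfl⟩, ι b, ⟨b, hb, rfl⟩, map_div₀ ι a b⟩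
    have h1' : (⊤ : IntermediateField k M') ≤ (IntermediateField.adjoin k
        {f | ∃ l, ∃ a ∈ famX L L' ι ι' v e l, ∃ b ∈ famX L L' ι ι' v e l, f = a / b}).comap ι' := by
      rw [← ht'.fam.top, IntermediateField.adjoin_le_iff]
      rintro _ ⟨o, a, ha, b, hb, rfl⟩
      exact IntermediateField.subset_adjoin _ _
        ⟨Sum.inr (Sum.inl o), ι' a, ⟨a, ha, rfl⟩, ι' b, ⟨b, hb, rfl⟩, map_div₀ ι' a b⟩
    have g1 : ∀ m, ι m ∈ IntermediateField.adjoin k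
        {f | ∃ l, ∃ a ∈ famX L L' ι ι' v e l, ∃ b ∈ famX L L' ι ι' v e l, f = a / b} :=
      fun m => h1 (IntermediateField.mem_top (x := m))
    have g2 : ∀ m, ι' m ∈ IntermediateField.adjoin k
        {f | ∃ l, ∃ a ∈ famX L L' ι ι' v e l, ∃ b ∈ famX L L' ι ι' v e l, f = a / b} :=
      fun m => h1' (IntermediateField.mem_top (x := m))
    rw [eq_top_iff, ← he.top, IntermediateField.adjoin_le_iff]
    rintro f (⟨m, h⟩ | ⟨m, h⟩ | h)
    · exact h ▸ g1 m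
    · exact h ▸ g2 m
    · obtain ⟨a, ha, -⟩ := (ht.gU _ (fine_mp ht.fam).top).2
      obtain ⟨a', ha', -⟩ := (ht'.gU' _ (fine_mp ht'.fam).top).2
      obtain ⟨b, hb, -⟩ := (ht.gU' _ (fine_mp ht.fam).top).2
      obtain ⟨b', hb', -⟩ := (ht'.gU _ (fine_mp ht'.fam).top).2
      have h2 : (ι a * ι' a') ^ (3 - e) ≠ 0 := pow_ne_zero _ (mul_ne_zero
        ((map_ne_zero ι).2 (ht.nU a ha)) ((map_ne_zero ι').2 (ht'.nU' a' ha')))
      have h3 : (ι b * ι' b') ^ (3 - e) ≠ 0 := pow_ne_zero _ (mul_ne_zero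
        ((map_ne_zero ι).2 (ht.nU' b hb)) ((map_ne_zero ι').2 (ht'.nU b' hb')))
      have e1 : f = v * (ι b * ι' b') ^ (3 - e) / (ι a * ι' a') ^ (3 - e) *
          ((ι a * ι' a') ^ (3 - e) / (ι b * ι' b') ^ (3 - e)) := by
        rw [show f = v from h, div_mul_div_cancel₀ h2, mul_div_cancel_right₀ _ h3]
      rw [e1]
      exact mul_mem (IntermediateField.subset_adjoin _ _ ⟨Sum.inr (Sum.inr ()), _,
        Or.inr ⟨b, hb, b', hb', rfl⟩, _, Or.inl ⟨a, ha, a', ha', rfl⟩, rfl⟩)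
        (div_mem (pow_mem (mul_mem (g1 a) (g2 a')) _) (pow_mem (mul_mem (g1 b) (g2 b')) _))

theorem maps : Maps ι (XX L L' ι ι' v e) L.Y := fun O hO => by
  refine exists_mp_dom (S := L.S) (isLocalRing_comap ι (mp_loc hO)) fun a => ?_
  obtain ⟨_, ⟨b, -, rfl⟩, hg⟩ := (mp_prin (fam ht ht' he) hO (Sum.inl a)).exists_mem
  exact ((gn_map ι).1 hg).prin

theorem maps' : Maps ι' (XX L L' ι ι' v e) L'.Y := fun O hO => by
  refine exists_mp_dom (S := L'.S) (isLocalRing_comap ι' (mp_loc hO)) fun a => ?_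
  obtain ⟨_, ⟨b, -, rfl⟩, hg⟩ := (mp_prin (fam ht ht' he) hO (Sum.inr (Sum.inl a))).exists_mem
  exact ((gn_map ι').1 hg).prin

variable (hO : O ∈ XX L L' ι ι' v e)

include hO

theorem aa : AA L L' ι ι' v e O ∈ O ∨ (AA L L' ι ι' v e O)⁻¹ ∈ O :=
  aa_of ht ht' he ((maps ht ht' he).mem hO) ((maps' ht ht' he).mem hO)
    (fun _ => (maps ht ht' he).mem_up hO) (fun _ => (maps' ht ht' he).mem_up hO)
    (mp_prin (fam ht ht' he) hO (Sum.inr (Sum.inr ())))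

theorem pts (a : K) (ha : a ∈ O) (h : a = AA L L' ι ι' v e O ∨ a = (AA L L' ι ι' v e O)⁻¹) :
    O ∈ Pts (Bq ι ι' (pr ι L.Y O) (pr ι' L'.Y O) {a}) := by
  have hm := maps ht ht' he
  have hm' := maps' ht ht' he
  have ha' : a ∈ Bq ι ι' (pr ι L.Y O) (pr ι' L'.Y O) {a} := Bq_g rfl
  refine mp_chart (fam ht ht' he) hO ?_ ?_
  · rw [Bq, Algebra.adjoin_le_iff]
    rintro _ (⟨b, hb, rfl⟩ | ⟨b, hb, rfl⟩ | rfl)
    · exact hm.mem_up hO hb
    · exact hm'.mem_up hO hb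
    · exact ha
  · rintro (o | o | b)
    · obtain ⟨b, hb, hg⟩ := (mp_prin ht.fam (hm.mem hO) o).exists_mem
      refine ⟨ι b, ⟨b, hb, rfl⟩, ?_⟩
      rintro _ ⟨c, hc, rfl⟩
      rw [← map_div₀]
      exact le_fr (Bq_l (hg.1 c hc))
    · obtain ⟨b, hb, hg⟩ := (mp_prin ht'.fam (hm'.mem hO) o).exists_mem
      refine ⟨ι' b, ⟨b, hb, rfl⟩, ?_⟩
      rintro _ ⟨c, hc, rfl⟩
      rw [← map_div₀]
      exact le_fr (Bq_r (hg.1 c hc))
    · have hp : Prin (SI L L' ι ι' v e) (Bq ι ι' (pr ι L.Y O) (pr ι' L'.Y O) {a}) :=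
        h.elim (fun h => (gS1 ht ht' he (hm.mem hO) (hm'.mem hO) (fun _ => Bq_l) (fun _ => Bq_r)
          (Set.mem_of_eq_of_mem h.symm ha')).prin) fun h =>
          (gS2 ht ht' he (hm.mem hO) (hm'.mem hO) (fun _ => Bq_l) (fun _ => Bq_r)
            (Set.mem_of_eq_of_mem h.symm ha')).prin
      obtain ⟨b, hb, h1⟩ := hp.exists_mem
      exact ⟨b, hb, fun c hc => le_fr (h1.1 c hc)⟩

end glob

end XlocR

open XlocR in
theorem xloc_stmt : XlocStmt :=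
  fun _ _ _ _ _ _ _ _ _ _ _ _ _ _ _ _ _ _ _ _ _ _ _ _ _ _ _ ht ht' he =>
  ⟨{ fine := fine_mp (fam ht ht' he)
     maps := maps ht ht' he
     maps' := maps' ht ht' he
     aa := fun _ => aa ht ht' he
     pts := fun _ => pts ht ht' he }, fam ht ht' he, fun _ hO =>
    ⟨gS1 ht ht' he ((maps ht ht' he).mem hO) ((maps' ht ht' he).mem hO)
        (fun _ => (maps ht ht' he).mem_up hO) (fun _ => (maps' ht ht' he).mem_up hO),
      gS2 ht ht' he ((maps ht ht' he).mem hO) ((maps' ht ht' he).mem hO)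
        (fun _ => (maps ht ht' he).mem_up hO) (fun _ => (maps' ht ht' he).mem_up hO)⟩⟩

end Pool.Agent.MP_20d318_ag.KK

end PartXloc

section PartCur

/-! The degrees of curves on the blow-up of a product and on its double cover. -/

set_option autoImplicit false
set_option linter.unusedSectionVars false

namespace Pool.Agent.MP_20d318_ag.KK

open Pool.Agent.MP_fd6584_ag.Fn Pool.Agent.CBk
open Pool.Agent.MP_fd6584_ag.AG hiding deg_inv deg_congr deg_of_unit deg_mul deg_prod deg_zpow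
  deg_eq_zero deg_nonneg deg_div deg_pow
open Pool.Agent.MP_20d318_ag.CH (Lv sX)
open Pool.Agent.MP_20d318_ag.CB.P.XCurA (ptmx mx_prod)

namespace CurR

variable {k M M' K Λ Λ' κ κ' : Type} {n n' : ℕ} [Field k] [Field M] [Field M'] [Field K]
  [Algebra k M] [Algebra k M'] [Algebra k K] [IsAlgClosed k] [Fintype κ] [Fintype κ']
  {L : Lv k M Λ κ n} {L' : Lv k M' Λ' κ' n'} {ι : M →ₐ[k] K} {ι' : M' →ₐ[k] K} {v : K} {e : ℕ}
  {Z : Set (Subalgebra k K)} (h : Geo L L' ι ι' v e Z) (ν : Curve Z)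

include h

theorem cS (i : κ) (hs : sX L ι i ν.gen ∈ mx ν.gen) (i' : κ) (hi : i' ≠ i) :
    ν.deg (sX L ι i') = 0 ∧ ∀ j, ν.deg (EE L L' ι ι' i' j) = 0 := by
  have u : ∀ P, IsU (ν.pt P) (sX L ι i' (ν.pt P)) := fun P =>
    isU_of_not_mx (h.sm (ν.pt_mem P) i') fun q => hi (h.s1 (ν.pt_mem P) i' i q
      (ptmx (h.cartS i) (fun O hO => .inl (h.sm hO i)) ν hs P))
  exact ⟨deg_zero_of h.gX (h.cartS i') ν u, fun j => deg_zero_of h.gX (h.cartE i' j) ν fun P =>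
    h.eu (ν.pt_mem P) i' j (.inl (u P))⟩

theorem cA (j : κ') (ha : AA L L' ι ι' v e ν.gen ∈ mx ν.gen) (ht : sX L' ι' j ν.gen ∈ mx ν.gen)
    (i : κ) : ν.deg (EE L L' ι ι' i j) = ν.deg (sX L ι i) :=
  degc h.gX (h.cartE i j) (h.cartS i) ν fun P =>
    h.eT (ν.pt_mem P) i j (ptmx h.cartA h.aa ν ha P).1
      (ptmx (h.symm.cartS j) (fun _ hO => .inl (h.symm.sm hO j)) ν ht P)

theorem zS {i : κ} (hs : sX L ι i ν.gen ∈ mx ν.gen) (i' : κ) (hi : i' ≠ i) :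
    L.nd.d (h.pj ν) (L.nd.c i') = 0 := by
  rw [h.pj_c, (cS h ν i hs i' hi).1, Int.cast_zero]

theorem sumC (i : κ) (ha : (AA L L' ι ι' v e ν.gen)⁻¹ ∉ mx ν.gen) :
    ∑ j, ν.deg (EE L L' ι ι' i j) ≤ ν.deg (sX L ι i) := by
  have h1 := deg_nonneg h.gX (h.cartC i) (fun O hO => (h.rC hO i).1) ν ((h.rC ν.gen_mem i).2 ha)
  rw [h.degC] at h1
  exact sub_nonneg.1 h1

open Classical in
theorem one (ha : AA L L' ι ι' v e ν.gen ∈ mx ν.gen) :
    ∃ j, (∀ j', j' ≠ j → L'.nd.d (h.symm.pj ν) (L'.nd.c j') = 0) ∧ ∀ i j',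
      (ν.deg (EE L L' ι ι' i j') : ℝ) = if j' = j then L.nd.d (h.pj ν) (L.nd.c i) else 0 := by
  have hO := ν.gen_mem
  obtain ⟨j, hj⟩ := mx_prod (h.symm.sm hO) ((h.loc hO).eqn ▸ mx_mul_right (mx_pow ha h.ext.e0)
    (prod_mem fun i _ => h.sm hO i))
  refine ⟨j, zS h.symm ν hj, fun i j' => ?_⟩
  split_ifs with q
  · rw [q, cA h ν j ha hj, h.pj_c]
  · rw [← EE_symm, (cS h.symm ν j hj j' q).2, Int.cast_zero]

theorem ty : Ty L.nd L'.nd (h.pj ν) (h.symm.pj ν) fun i j => ν.deg (EE L L' ι ι' i j) := by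
  classical
  have hO := ν.gen_mem
  by_cases ha : AA L L' ι ι' v e ν.gen ∈ mx ν.gen
  · exact .inl (one h ν ha)
  by_cases hb : (AA L L' ι ι' v e ν.gen)⁻¹ ∈ mx ν.gen
  · obtain ⟨i, h1, h2⟩ := one h.symm ν (by rwa [AA_symm])
    refine .inr (.inl ⟨i, h1, fun i' j => ?_⟩)
    rw [← h2 j i', EE_symm]
  have hu : IsU ν.gen (AA L L' ι ι' v e ν.gen) := (h.aa _ hO).elim (isU_of_not_mx · ha)
    fun q => by simpa using (isU_of_not_mx q hb).inv
  have s1 := fun i => sumC h ν i hb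
  have s2 := fun j => sumC h.symm ν j (by rwa [AA_symm, inv_inv])
  simp only [EE_symm L L' ι ι'] at s2
  by_cases ht : ∃ j, sX L' ι' j ν.gen ∈ mx ν.gen
  · obtain ⟨j, hj⟩ := ht
    obtain ⟨i, hi⟩ := mx_prod (h.sm hO) (by
      refine (mx_or_of_mul (hu.pow e).mem (prod_mem fun i _ => h.sm hO i) ?_).resolve_left
        (hu.pow e).not_mx
      rw [(h.loc hO).eqn, ← Finset.mul_prod_erase _ _ (Finset.mem_univ j)]
      exact mx_mul_right hj (prod_mem fun j _ => h.symm.sm hO j))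
    have h2 : ∀ i' j', ¬ (i' = i ∧ j' = j) → ν.deg (EE L L' ι ι' i' j') = 0 := fun i' j' q =>
      (not_and_or.1 q).elim (fun q => (cS h ν i hi i' q).2 j') fun q => by
        rw [← EE_symm, (cS h.symm ν j hj j' q).2]
    have h3 := s2 j
    have h4 := s1 i
    rw [Finset.sum_eq_single i (fun i' _ q => h2 i' j fun q' => q q'.1) (by simp)] at h3
    rw [Finset.sum_eq_single j (fun j' _ q => h2 i j' fun q' => q q'.2) (by simp)] at h4
    refine .inr (.inr (.inl ⟨i, j, zS h ν hi, zS h.symm ν hj, ?_, ?_, fun i' j' q => ?_⟩))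
    · rw [h.pj_c]
      dsimp only
      exact_mod_cast h4
    · rw [h.symm.pj_c]
      dsimp only
      exact_mod_cast h3
    · simp [h2 i' j' q]
  · push Not at ht
    refine .inr (.inr (.inr ⟨fun i j => Int.cast_nonneg (deg_nonneg h.gX (h.cartE i j)
      (fun O hO => h.em hO i j) ν (h.eu hO i j
        (.inr (isU_of_not_mx (h.symm.sm hO j) (ht j))))), fun i => ?_, fun j => ?_⟩))
    · rw [h.pj_c]
      dsimp only
      exact_mod_cast s1 i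
    · rw [h.symm.pj_c]
      dsimp only
      exact_mod_cast s2 j

end CurR

theorem cura_stmt : CuraStmt :=
  fun _ _ _ _ _ _ _ _ _ _ _ _ _ _ _ _ _ _ _ _ _ _ _ _ _ _ _ _ h => ⟨CurR.cS h, CurR.cA h⟩

theorem curb_stmt : CurbStmt :=
  fun _ _ _ _ _ _ _ _ _ _ _ _ _ _ _ _ _ _ _ _ _ _ _ _ _ _ _ _ h _ _ ν =>
    ⟨h.pj ν, h.symm.pj ν, _, CurR.ty h ν, h.phi_d ν⟩

end Pool.Agent.MP_20d318_ag.KK

end PartCur

section PartPt

/-! Row PT: points over a given pair of points. -/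

set_option autoImplicit false
set_option linter.unusedSectionVars false

namespace Pool.Agent.MP_20d318_ag.KK

open Pool.Agent.MP_fd6584_ag.Fn Pool.Agent.CBk
open Pool.Agent.MP_fd6584_ag.AG hiding deg_inv deg_congr deg_of_unit deg_mul deg_prod deg_zpow
  deg_eq_zero deg_nonneg deg_div deg_pow
open Pool.Agent.MP_20d318_ag.CH (Lv sX)
open Pool.Agent.CBk.XTst (mem_of_dom)

namespace PtA

variable {k M M' K Λ Λ' κ κ' : Type} {n n' : ℕ} [Field k] [NeZero (2 : k)] [IsAlgClosed k]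
  [Field M] [Field M'] [Field K] [Algebra k M] [Algebra k M'] [Algebra k K] [Fintype κ]
  [Fintype κ'] {L : Lv k M Λ κ n} {L' : Lv k M' Λ' κ' n'} {ι : M →ₐ[k] K} {ι' : M' →ₐ[k] K}
  {v : K} {e : ℕ} {Z : Set (Subalgebra k K)} {O V : Subalgebra k K} {R : Subalgebra k M}
  {R' : Subalgebra k M'}

theorem pow_unit {A : K} (hv : Ind V ![A]) (he : e = 1 ∨ e = 2) (c : k) :
    IsU V (A ^ e - algebraMap k K c) := by
  rcases he with rfl | rfl
  · rw [pow_one]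
    exact ind_one hv c
  · obtain ⟨r, rfl⟩ := IsAlgClosed.exists_pow_nat_eq c two_pos
    have := (ind_one hv r).mul (ind_one hv (-r))
    rwa [show (A - algebraMap k K r) * (A - algebraMap k K (-r)) =
      A ^ 2 - algebraMap k K (r ^ 2) by rw [map_neg, map_pow]; ring] at this

theorem prod_mx {I : Type} [Fintype I] {f : I → K} (hf : ∀ i, f i ∈ O) {i : I}
    (hi : f i ∈ mx O) : ∏ i, f i ∈ mx O := by
  classical
  rw [← Finset.mul_prod_erase _ _ (Finset.mem_univ i)]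
  exact mx_mul_right hi (O.prod_mem fun j _ => hf j)

variable (h : Geo L L' ι ι' v e Z)
include h

theorem res (hO : O ∈ Z) (hr : RatPt (pr ι L.Y O)) {b : M} (hb : b ∈ pr ι L.Y O) :
    ∃ d : k, ι b - algebraMap k K d ∈ mx O := by
  obtain ⟨d, hd⟩ := hr b hb
  have := (h.maps.mx_up hO hd.1).2 hd
  rw [map_sub, AlgHom.commutes] at this
  exact ⟨d, this⟩

theorem rest [DecidableEq κ] (hO : O ∈ Z) {i : κ} (hi : sX L ι i O ∈ mx O) :
    IsU O (∏ i' ∈ Finset.univ.erase i, sX L ι i' O) :=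
  isU_prod fun i' hi' => isU_of_not_mx (h.sm hO i') fun hm =>
    Finset.ne_of_mem_erase hi' (h.s1 hO i' i hm hi)

theorem eqn (hO : O ∈ Z) : AA L L' ι ι' v e O ^ e * ∏ i, sX L ι i O = ∏ j, sX L' ι' j O := by
  rw [Geo.prod_sX, Geo.prod_sX]
  exact (h.lqO hO).eq

theorem pT (hV : VqS) (hR : R ∈ L.Y) (hR' : R' ∈ L'.Y) (j : κ') (hs : L'.s j R' ∈ mx R') :
    ∃ O ∈ Z, pr ι L.Y O = R ∧ pr ι' L'.Y O = R' ∧ AA L L' ι ι' v e O ∈ mx O := by
  obtain ⟨V, hA, hm⟩ := (hV k M M' K ι ι' e R R' _ _ _ (h.lq hR hR')).zero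
    (prod_mx (fun j => h.ok'.sm _ hR' j) hs)
  obtain ⟨O, hO, hOV, rfl, rfl⟩ := h.below hR hR' hm.val hm.ov
  exact ⟨O, hO, rfl, rfl, mx_of_le hOV.1 (mem_of_dom hOV (h.aa O hO) hA.1) hA⟩

theorem rat (hV : VqS) (j : κ') : ∃ O ∈ Z, RatPt O ∧ sC L' L ι' ι j O ∈ mx O := by
  classical
  obtain ⟨i⟩ := h.ok.ne
  obtain ⟨R, hR, hr, -⟩ := h.ok.rat i
  obtain ⟨R', hR', hr', hs⟩ := h.ok'.rat j
  obtain ⟨O, hO, rfl, rfl, hA⟩ := pT h hV hR hR' j hs
  have ht : sX L' ι' j O ∈ mx O := (h.symm.s_mx hO j).2 hs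
  refine ⟨O, hO, ratPt_of (h.pts O hO _ hA.1 (.inl rfl)) rfl ?_, ?_⟩
  · rintro _ (⟨b, hb, rfl⟩ | ⟨b, hb, rfl⟩ | rfl)
    · exact res h hO hr hb
    · exact res h.symm hO hr' hb
    · exact ⟨0, by rwa [map_zero, sub_zero]⟩
  · have h1 : IsU O (∏ i, EE L L' ι ι' i j O / sX L ι i O) :=
      isU_prod fun i _ => h.eT hO i j hA.1 ht
    have h2 := rest h.symm hO ht
    have h3 := eqn h hO
    rw [← Finset.mul_prod_erase _ (sX L' ι' · O) (Finset.mem_univ j)] at h3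
    have := mx_div (mx_div (mx_pow hA h.ext.e0) h1) h2
    rw [Finset.prod_div_distrib, div_div_eq_mul_div, h3, div_right_comm,
      mul_div_cancel_right₀ _ h2.1] at this
    simpa only [sC, EE_symm L L' ι ι'] using this

theorem pE (hV : VqS) (hD : DimqStmt) (i : κ) (j : κ') : ∃ ν : Curve Z,
    RatPt (pr ι L.Y ν.gen) ∧ RatPt (pr ι' L'.Y ν.gen) ∧ sX L ι i ν.gen ∈ mx ν.gen ∧
      sX L' ι' j ν.gen ∈ mx ν.gen ∧ ν.deg (EE L L' ι ι' i j) < 0 := by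
  classical
  obtain ⟨R, hR, hr, hs⟩ := h.ok.rat i
  obtain ⟨R', hR', hr', hs'⟩ := h.ok'.rat j
  obtain ⟨V, hv, hm⟩ := (hV k M M' K ι ι' e R R' _ _ _ (h.lq hR hR')).exc
    (prod_mx (fun i => h.ok.sm _ hR i) hs) (prod_mx (fun j => h.ok'.sm _ hR' j) hs')
  obtain ⟨O, hO, hOV, rfl, rfl⟩ := h.below hR hR' hm.val hm.ov
  have hA : AA L L' ι ι' v e O ∈ O := mem_of_dom hOV (h.aa O hO) hm.mem
  have hl := h.gX.loc O hO
  have t : sX L ι i O ∈ mx O := (h.s_mx hO i).2 hs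
  have t' : sX L' ι' j O ∈ mx O := (h.symm.s_mx hO j).2 hs'
  have u := rest h hO t
  have u' := rest h.symm hO t'
  have h3 := eqn h hO
  rw [← Finset.mul_prod_erase _ (sX L ι · O) (Finset.mem_univ i),
    ← Finset.mul_prod_erase _ (sX L' ι' · O) (Finset.mem_univ j)] at h3
  obtain ⟨d, hd⟩ := res h hO hr (prod_mem (t := Finset.univ.erase i)
    fun i' _ => h.ok.sm _ hR i')
  obtain ⟨d', hd'⟩ := res h.symm hO hr' (prod_mem (t := Finset.univ.erase j)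
    fun j' _ => h.ok'.sm _ hR' j')
  rw [map_prod] at hd hd'
  change (∏ i' ∈ Finset.univ.erase i, sX L ι i' O) - _ ∈ _ at hd
  change (∏ j' ∈ Finset.univ.erase j, sX L' ι' j' O) - _ ∈ _ at hd'
  generalize (∏ i' ∈ Finset.univ.erase i, sX L ι i' O) = p at u h3 hd
  generalize (∏ j' ∈ Finset.univ.erase j, sX L' ι' j' O) = p' at u' h3 hd'
  have s0 := h.sne hO i
  have e1 : sX L' ι' j O / sX L ι i O = AA L L' ι ι' v e O ^ e * p / p' := by
    rw [div_eq_div_iff s0 u'.1, ← h3]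
    ring
  have hy : sX L' ι' j O / sX L ι i O ∈ O :=
    e1 ▸ u'.div_mem (O.mul_mem (O.pow_mem hA e) u.mem)
  have d0 : d ≠ 0 := fun q => u.not_mx (by simpa [q] using hd)
  have hu : ∀ c : k, sX L' ι' j O / sX L ι i O - algebraMap k K c ∉ mx O := fun c hh => by
    have a1 := mx_div (mx_sub' hl (mx_add hl (mx_mul_right hh u'.mem)
      (mx_mul_left (O.algebraMap_mem c) hd')) (mx_mul_left (O.pow_mem hA e) hd)) (isU_const d0)
    have a2 : algebraMap k K d ≠ 0 := by simpa using d0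
    have a3 := u'.1
    refine (pow_unit hv h.ext.he (c * d' / d)).not_mx
      (hOV.mx (Eq.subst (motive := (· ∈ mx O)) (Eq.symm ?_) a1))
    rw [e1, map_div₀, map_mul]
    change AA L L' ι ι' v e O ^ e - _ = _
    field_simp
    ring
  obtain ⟨ν, rfl⟩ := curve_stmt k K _ h.gX O hO
    (hD k M M' K ι ι' _ _ O _ 0 0 (h.ov hO) (h.pts O hO _ hA (.inl rfl)) hr.dim hr'.dim).1
    (not_dim_zero hl hy hu)
  have g0 : Gn {sX L' ι' j ν.gen, sX L ι i ν.gen} ν.gen (EE L L' ι ι' i j ν.gen) := by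
    rw [Set.pair_comm]
    exact h.gE hO i j
  have g1 : ∀ P, Gn {sX L' ι' j ν.gen, sX L ι i ν.gen} (ν.pt P) (EE L L' ι ι' i j (ν.pt P)) := by
    intro P
    have := h.gE (ν.pt_mem P) i j
    rwa [sX, sX, up, up, pr_pt h.gY h.gX h.maps ν hr P, pr_pt h.gY' h.gX h.maps' ν hr' P,
      Set.pair_comm] at this
  refine ⟨ν, hr, hr', t, t', ?_⟩
  rw [deg_gn_pair ν g0 g1 s0 hy, neg_lt_zero]
  exact pdeg_pos (ev_transcendental ν hy hu)

end PtA

theorem pt_stmt : PtStmt :=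
  fun hV hD _ _ _ _ _ _ _ _ _ _ _ _ _ _ _ _ _ _ _ _ _ _ _ _ _ _ _ _ h =>
    ⟨fun _ hR _ hR' j hs => PtA.pT h hV hR hR' j hs, PtA.pE h hV hD, PtA.rat h hV⟩

end Pool.Agent.MP_20d318_ag.KK

end PartPt

section PartTest

/-! ROW TEST: the test curves on the blow-up of a product. -/

set_option autoImplicit false
set_option linter.unusedSectionVars false

namespace Pool.Agent.MP_20d318_ag.KK

open Pool.Agent.MP_fd6584_ag.Fn Pool.Agent.CBk
open Pool.Agent.MP_fd6584_ag.AG hiding deg_inv deg_congr deg_of_unit deg_mul deg_prod deg_zpow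
  deg_eq_zero deg_nonneg deg_div deg_pow
open Pool.Agent.MP_20d318_ag.CH (Lv sX nd_d nd_c lin_rat lin_congr)

namespace Tst

variable {k M M' K Λ Λ' κ κ' : Type} {n n' : ℕ} [Field k] [Field M] [Field M'] [Field K]
  [Algebra k M] [Algebra k M'] [Algebra k K] [Fintype κ] [Fintype κ'] {L : Lv k M Λ κ n}
  {L' : Lv k M' Λ' κ' n'} {ι : M →ₐ[k] K} {ι' : M' →ₐ[k] K} {v : K} {e : ℕ}
  {Z : Set (Subalgebra k K)} {O : Subalgebra k K}

variable (h : Geo L L' ι ι' v e Z)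
include h

/-- A curve lifts to a point that is rational over the second factor. -/
theorem lift (hL : CH.LiftStmt) (ν : Curve L.Y) (hO : O ∈ Z) (he : pr ι L.Y O = ν.gen)
    (hr : RatPt (pr ι' L'.Y O)) {a : K} (ha : a ∈ mx O)
    (h1 : a = AA L L' ι ι' v e O ∨ a = (AA L L' ι ι' v e O)⁻¹) :
    ∃ ν' : Curve Z, ν'.gen = O ∧ (h.pj ν').lin = ν.lin := by
  obtain ⟨ν', e1, e2⟩ := hL k M K ι L.Y _ ν O (ι' '' pr ι' L'.Y O ∪ {a}) h.gY h.gX h.maps hO he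
    (h.pts O hO a ha.1 h1) (by
      rintro g (⟨r, hr', rfl⟩ | rfl)
      · obtain ⟨c, hc⟩ := hr r hr'
        refine ⟨c, ?_⟩
        rw [← ι'.commutes c, ← map_sub]
        exact (h.maps'.mx_up hO hc.1).2 hc
      · exact ⟨0, by simpa using ha⟩)
  exact ⟨ν', e1, lin_congr fun f hf => (h.pj_deg ν' hf).trans (e2 f hf)⟩

variable [IsAlgClosed k] (hc : XCur L L' ι ι' v e Z) (hc' : XCur L' L ι' ι v⁻¹ e Z)
include hc hc'

theorem tE (hp : XPt L L' ι ι' v e Z) (i : κ) (j : κ') : ∃ μ : Curve Z, ∃ m : ℝ, 0 < m ∧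
    ∀ D, μ.lin (h.Phi D) = m * D.2.2 i j := by
  obtain ⟨ν, hr, hr', a, b, e0⟩ := hp.pE i j
  have e1 := hc.cS ν i a
  have e2 := hc'.cS ν j b
  simp only [EE_symm L L' ι ι'] at e2
  refine ⟨ν, (-ν.deg (EE L L' ι ι' i j) : ℤ), Int.cast_pos.2 (neg_pos.2 e0), fun D => ?_⟩
  rw [h.phi_d, nd_d, nd_d, lin_rat (ν := h.pj ν) hr, lin_rat (ν := h.symm.pj ν) hr',
    Finset.sum_eq_single i (fun i' _ hi => Finset.sum_eq_zero fun j' _ => by
      rw [(e1 i' hi).2 j']; simp) (by simp),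
    Finset.sum_eq_single j (fun j' _ hj => by rw [(e2 j' hj).2 i]; simp) (by simp)]
  simp [mul_comm]

variable (hL : CH.LiftStmt)
include hL

theorem tT (hp : XPt L L' ι ι' v e Z) (ν : Curve L.Y) (j : κ') : ∃ μ : Curve Z,
    ∀ D, μ.lin (h.Phi D) = L.nd.d ν (D.1 - ∑ i, D.2.2 i j • L.nd.c i) := by
  obtain ⟨R', hR', hr, hs⟩ := h.ok'.rat j
  obtain ⟨O, hO, he, rfl, hA⟩ := hp.pT ν.gen ν.gen_mem R' hR' j hs
  obtain ⟨μ, rfl, e0⟩ := lift h hL ν hO he hr hA (Or.inl rfl)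
  have b := (h.symm.s_mx hO j).2 hs
  have e1 := hc.cA μ j hA b
  have e2 := hc'.cS μ j b
  simp only [EE_symm L L' ι ι'] at e2
  have e3 : ∀ i, ((μ.deg (sX L ι i) : ℤ) : ℝ) = L.nd.d ν (L.nd.c i) := fun i => by
    rw [← h.pj_c, nd_d, nd_d, e0]
  refine ⟨μ, fun D => ?_⟩
  rw [h.phi_d, map_sub, map_sum, nd_d (h.pj μ), e0, nd_d (h.symm.pj μ),
    lin_rat (ν := h.symm.pj μ) hr, LinearMap.zero_apply, add_zero, nd_d]
  congr 1
  refine Finset.sum_congr rfl fun i _ => ?_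
  rw [Finset.sum_eq_single j (fun j' _ hj => by rw [(e2 j' hj).2 i]; simp) (by simp), e1, e3,
    map_smul, smul_eq_mul, nd_d]

theorem tB (hp : XPt L' L ι' ι v⁻¹ e Z) (ν : Curve L.Y) (i : κ)
    (hi : L.nd.d ν (L.nd.c i) < 0) : ∃ μ : Curve Z, ∀ D, μ.lin (h.Phi D) = L.nd.d ν D.1 := by
  rw [nd_c h.ok.toOkA] at hi
  have hs : L.s i ν.gen ∈ mx ν.gen := by
    by_contra hn
    have := deg_nonneg h.gY (h.ok.cs i) (fun R hR => h.ok.sm R hR i) ν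
      (isU_of_not_mx (h.ok.sm _ ν.gen_mem i) hn)
    exact absurd (Int.cast_lt_zero.1 hi) (not_lt.2 this)
  obtain ⟨j₀⟩ := h.ok'.ne
  obtain ⟨R', hR', hr, -⟩ := h.ok'.rat j₀
  obtain ⟨O, hO, rfl, he, hA⟩ := hp.pT R' hR' ν.gen ν.gen_mem i hs
  obtain ⟨μ, rfl, e0⟩ := lift h hL ν hO he hr hA (Or.inr (AA_symm L L' ι ι' v e _))
  have a := (h.s_mx hO i).2 (he ▸ hs)
  have e1 := hc.cS μ i a
  have e2 := hc'.cA μ i hA a
  simp only [EE_symm L L' ι ι'] at e2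
  have e3 : ∀ j, μ.deg (sX L' ι' j) = 0 := fun j =>
    (h.symm.pj_deg μ (h.ok'.cs j)).symm.trans (deg_rat (h.ok'.cs j) _ hr)
  have e4 : ∀ i' j, μ.deg (EE L L' ι ι' i' j) = 0 := fun i' j => by
    rcases eq_or_ne i' i with rfl | q
    exacts [(e2 j).trans (e3 j), (e1 i' q).2 j]
  refine ⟨μ, fun D => ?_⟩
  rw [h.phi_d, nd_d (h.pj μ), e0, nd_d (h.symm.pj μ), lin_rat (ν := h.symm.pj μ) hr, nd_d]
  simp [e4]

end Tst

theorem test_stmt : TestStmt := by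
  intro hL k M M' K Λ Λ' κ κ' n n' _ _ _ _ _ _ _ _ _ _ _ L L' ι ι' v e Z h hc hc' hp hp'
  have hc2 : XCur L L' ι ι' v⁻¹⁻¹ e Z := by rwa [inv_inv]
  have hp2 : XPt L L' ι ι' v⁻¹⁻¹ e Z := by rwa [inv_inv]
  refine ⟨Tst.tE h hc hc' hp, Tst.tT h hc hc' hL hp, fun ν i => ?_, Tst.tB h hc hc' hL hp',
    fun ν j hj => ?_⟩
  · obtain ⟨μ, q⟩ := Tst.tT h.symm hc' hc2 hL hp' ν i
    exact ⟨μ, fun D => by rw [← h.phi_symm, q]⟩
  · obtain ⟨μ, q⟩ := Tst.tB h.symm hc' hc2 hL hp2 ν j hj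
    exact ⟨μ, fun D => by rw [← h.phi_symm, q]⟩

end Pool.Agent.MP_20d318_ag.KK

end PartTest

section PartPl

/-! The prime divisors of the blow-up of a product and of its double cover. -/

set_option autoImplicit false
set_option linter.unusedSectionVars false

namespace Pool.Agent.MP_20d318_ag.KK

open Pool.Agent.MP_fd6584_ag.Fn Pool.Agent.CBk Polynomial
open Pool.Agent.MP_fd6584_ag.AG hiding deg_inv deg_congr deg_of_unit deg_mul deg_prod deg_zpow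
  deg_eq_zero deg_nonneg deg_div deg_pow
open Pool.Agent.MP_20d318_ag.CH (Lv Ok sX)
open Pool.Agent.MP_20d318_ag.CH.Xdv (Loc)

namespace PL

section loc

variable {k K I J : Type} [Field k] [Field K] [Algebra k K] [Fintype I] [Fintype J] {e : ℕ}
  {O : Subalgebra k K} {s : I → K} {t : J → K} {A : K}

theorem dim_le {m N : ℕ} (h : Dim O m) (q : m ≤ N) : Dim O N := by
  induction q with
  | refl => exact h
  | step _ ih => exact ih.succ

theorem prod_mx (hs : ∀ i, s i ∈ O) {i : I} (hi : s i ∈ mx O) : ∏ i, s i ∈ mx O := by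
  classical
  rw [← Finset.mul_prod_erase _ _ (Finset.mem_univ i)]
  exact mx_mul_right hi (O.prod_mem fun i' _ => hs i')

theorem ex_mx (hs : ∀ i, s i ∈ O) (h : ∏ i, s i ∈ mx O) : ∃ i, s i ∈ mx O :=
  by_contra fun q => h.2 (isU_prod fun i _ => isU_of_not_mx (hs i) fun m => q ⟨i, m⟩)

theorem a_mx (h : Loc e O s t A) (hs : IsU O (∏ i, s i)) (ht : ∏ j, t j ∈ mx O) : A ∈ mx O := by
  rcases h.aa with hA | hA
  · rw [← h.eqn] at ht
    exact mx_of_pow hA ((mx_or_of_mul (O.pow_mem hA e) hs.mem ht).resolve_right hs.not_mx)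
  · exact absurd (h.symm.eqn ▸ mx_mul_left (O.pow_mem hA e) ht) hs.not_mx

theorem a_mem (he : e ≠ 0) (h : Loc e O s t A) (hs : IsU O (∏ i, s i)) : A ∈ O := by
  refine h.aa.elim id fun hA => ?_
  rw [← h.symm.eqn] at hs
  simpa using (IsU.of_pow hA he
    (IsU.of_mul (O.pow_mem hA e) (O.prod_mem fun j _ => h.tm j) hs)).inv_mem

theorem alg (he : e ≠ 0) (h : Loc e O s t A) {B : Subalgebra k K} (hs : ∏ i, s i ∈ B)
    (ht : ∏ j, t j ∈ B) (q : ¬ (IsU O A ∧ ∃ i j, s i ∈ mx O ∧ t j ∈ mx O)) :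
    ∃ a ∈ O, (a = A ∨ a = A⁻¹) ∧ AlgM O B a := by
  by_cases h1 : A ∈ mx O
  · exact ⟨A, h1.1, Or.inl rfl, algM_of_mx (c := 0) (by simpa using h1)⟩
  by_cases h2 : A⁻¹ ∈ mx O
  · exact ⟨A⁻¹, h2.1, Or.inr rfl, algM_of_mx (c := 0) (by simpa using h2)⟩
  have hA : IsU O A := h.aa.elim (fun a => isU_of_not_mx a h1) fun a => by
    simpa using (isU_of_not_mx a h2).inv
  have hu : IsU O (∏ i, s i) := isU_of_not_mx (O.prod_mem fun i _ => h.sm i) fun m => by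
    obtain ⟨i, hi⟩ := ex_mx h.sm m
    obtain ⟨j, hj⟩ := ex_mx h.tm (h.eqn ▸ mx_mul_left (O.pow_mem hA.mem e) m)
    exact q ⟨hA, i, j, hi, hj⟩
  refine ⟨A, hA.mem, Or.inl rfl, monomial e (∏ i, s i) - C (∏ j, t j), fun i => ?_, ⟨e, ?_⟩, ?_⟩
  · rw [coeff_sub, coeff_monomial, coeff_C]
    refine B.sub_mem ?_ ?_ <;> split_ifs
    exacts [hs, B.zero_mem, ht, B.zero_mem]
  · rwa [coeff_sub, coeff_monomial, coeff_C, if_pos rfl, if_neg he, sub_zero]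
  · rw [eval_sub, eval_monomial, eval_C, mul_comm, h.eqn, sub_self]
    exact zero_mem_mx

end loc

variable {k M M' K Λ Λ' κ κ' : Type} {n n' : ℕ} [Field k] [NeZero (2 : k)] [IsAlgClosed k]
  [Field M] [Field M'] [Field K] [Algebra k M] [Algebra k M'] [Algebra k K] [Fintype κ]
  [Fintype κ'] {L : Lv k M Λ κ n} {L' : Lv k M' Λ' κ' n'} {ι : M →ₐ[k] K} {ι' : M' →ₐ[k] K}
  {v : K} {e : ℕ} {Z : Set (Subalgebra k K)} {P P' : Place k K}

theorem dim_all (h : Ok L) (R : Subalgebra k M) : Dim R (n + 2) := by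
  rintro ⟨r, hr⟩
  have := CH.DimRw.card h.top
    (algebraicIndependent_iff.2 fun p hp => by_contra fun q => (hr.2 p q).ne hp)
  omega

theorem tri (h : Ok L) {R : Subalgebra k M} (hR : R ∈ L.Y) :
    R = ⊤ ∨ Dim R (n + 1) ∧ ((∃ Q : Place k M, R = plO Q) ∨ Dim R n) := by
  by_cases q : Dim R n
  · exact Or.inr ⟨q.succ, Or.inr q⟩
  refine (h.tri R hR q).imp_right fun ⟨Q, hQ⟩ => ⟨?_, Or.inl ⟨Q, hQ⟩⟩
  subst hQ
  exact h.dim Q hR

variable (h : Geo L L' ι ι' v e Z)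

include h

theorem not_dim (hP : plO P ∈ Z) : ¬ Dim (plO P) (n + n' + 2) := by
  obtain ⟨G, h1, h2, h3⟩ := h.fine.chart hP
  have q : n + n' + 2 + 2 = n + 2 + (n' + 2) := by omega
  exact htOne_stmt k K G _ _ P h1 h2 ((h.fld.ind _ _ L.y L'.y h.ok.ind h.ok'.ind).comp
    ((finCongr q).trans finSumFinEquiv.symm) (Equiv.injective _)) h3

theorem s_top {O : Subalgebra k K} (hO : O ∈ Z) (q : pr ι L.Y O = ⊤) (i : κ) :
    IsU O (sX L ι i O) :=
  h.maps.isU_up hO (by rw [q]; exact isU_top.2 ((h.ok.cs i).ne (q ▸ h.maps.mem hO)))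

theorem cnt (dq : DimqStmt) (hP : plO P ∈ Z) {m m' : ℕ} (a : Dim (pr ι L.Y (plO P)) m)
    (b : Dim (pr ι' L'.Y (plO P)) m') : n + n' + 2 ≤ m + m' := by
  obtain ⟨x, h1, h2⟩ : ∃ x ∈ plO P, x = AA L L' ι ι' v e (plO P) ∨
      x = (AA L L' ι ι' v e (plO P))⁻¹ :=
    (h.aa _ hP).elim (fun q => ⟨_, q, Or.inl rfl⟩) fun q => ⟨_, q, Or.inr rfl⟩
  by_contra q
  exact not_dim h hP
    (dim_le (dq k M M' K ι ι' _ _ _ x m m' (h.ov hP) (h.pts _ hP x h1 h2) a b).1 (by omega))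

theorem cnt' (dq : DimqStmt) (hP : plO P ∈ Z)
    (c : ¬ (IsU (plO P) (AA L L' ι ι' v e (plO P)) ∧
      ∃ i j, sX L ι i (plO P) ∈ mx (plO P) ∧ sX L' ι' j (plO P) ∈ mx (plO P)))
    {m m' : ℕ} (a : Dim (pr ι L.Y (plO P)) m) (b : Dim (pr ι' L'.Y (plO P)) m') :
    n + n' + 3 ≤ m + m' := by
  obtain ⟨x, h1, h2, h3⟩ := alg h.ext.e0 (h.loc hP)
    (B := Bq ι ι' (pr ι L.Y (plO P)) (pr ι' L'.Y (plO P)) ∅)
    (by rw [Geo.prod_sX]; exact Bq_l (h.lqO hP).mS)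
    (by rw [Geo.prod_sX]; exact Bq_r (h.lqO hP).mS') c
  by_contra q
  exact not_dim h hP
    (dim_le ((dq k M M' K ι ι' _ _ _ x m m' (h.ov hP) (h.pts _ hP x h1 h2) a b).2 h3) (by omega))

theorem pl (dq : DimqStmt) (hP : plO P ∈ Z) :
    (∃ i j, sX L ι i (plO P) ∈ mx (plO P) ∧ sX L' ι' j (plO P) ∈ mx (plO P)) ∨
    (pr ι L.Y (plO P) = ⊤ ∧ pr ι' L'.Y (plO P) = ⊤) ∨
    (∃ Q : Place k M, pr ι L.Y (plO P) = plO Q ∧ pr ι' L'.Y (plO P) = ⊤) ∨
    ∃ Q : Place k M', pr ι L.Y (plO P) = ⊤ ∧ pr ι' L'.Y (plO P) = plO Q := by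
  refine or_iff_not_imp_left.2 fun q => ?_
  have c := fun m m' => cnt' h dq hP (fun z => q z.2) (m := m) (m' := m')
  rcases tri h.ok (h.maps.mem hP) with a | ⟨a, a'⟩ <;>
    rcases tri h.ok' (h.maps'.mem hP) with b | ⟨b, b'⟩
  · exact Or.inl ⟨a, b⟩
  · rcases b' with ⟨Q, hQ⟩ | b'
    · exact Or.inr (Or.inr ⟨Q, a, hQ⟩)
    · have := c _ _ (dim_all h.ok _) b'
      omega
  · rcases a' with ⟨Q, hQ⟩ | a'
    · exact Or.inr (Or.inl ⟨Q, hQ, b⟩)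
    · have := c _ _ a' (dim_all h.ok' _)
      omega
  · have := c _ _ a b
    omega

/-- The exceptional divisors lie over pairs of components. -/
theorem exc (dq : DimqStmt) {i : κ} {j : κ'} (hP : plO P ∈ Z)
    (hs : sX L ι i (plO P) ∈ mx (plO P)) (ht : sX L' ι' j (plO P) ∈ mx (plO P)) :
    (∃ Q : Place k M, pr ι L.Y (plO P) = plO Q) ∧ (∃ Q : Place k M', pr ι' L'.Y (plO P) = plO Q) ∧
      IsU (plO P) (AA L L' ι ι' v e (plO P)) := by
  obtain ⟨a, a'⟩ := (tri h.ok (h.maps.mem hP)).resolve_left fun q => (s_top h hP q i).not_mx hs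
  obtain ⟨b, b'⟩ := (tri h.ok' (h.maps'.mem hP)).resolve_left fun q =>
    (s_top h.symm hP q j).not_mx ht
  refine ⟨a'.resolve_right fun q => ?_, b'.resolve_right fun q => ?_, by_contra fun q => ?_⟩
  · have := cnt h dq hP q b
    omega
  · have := cnt h dq hP a q
    omega
  · have := cnt' h dq hP (fun z => q z.1) a b
    omega

/-- Two places over the same pair of points, both special for `V`, are equal. -/
theorem same {p : Subalgebra k K → Prop} {V : Subalgebra k K} {a b : K} (hP : plO P ∈ Z)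
    (hP' : plO P' ∈ Z) (q : pr ι L.Y (plO P') = pr ι L.Y (plO P))
    (q' : pr ι' L'.Y (plO P') = pr ι' L'.Y (plO P)) (ha : a = AA L L' ι ι' v e (plO P))
    (hV : Mn ι ι' (pr ι L.Y (plO P)) (pr ι' L'.Y (plO P)) a p V) (m : a ∈ plO P)
    (m' : a ∈ plO P') (z : p (plO P)) (z' : p (plO P')) (b0 : b ≠ 0) (bm : b ∈ mx V) : P = P' := by
  have p2 := h.pts _ hP' a m' (Or.inl (by rw [ha, AA, AA, q, q']))
  have o2 := h.ov hP'
  rw [q, q'] at p2 o2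
  exact place_ext (h.pts _ hP a m (Or.inl ha)) p2 hV.ov.loc
    (hV.ov.le (Set.singleton_subset_iff.2 hV.mem)) b0 bm (hV.min _ (h.ov hP) m z)
    (hV.min _ o2 m' z')

theorem uE (vq : VqS) (dq : DimqStmt) {i : κ} {j : κ'} (hP : plO P ∈ Z) (hP' : plO P' ∈ Z)
    (hs : sX L ι i (plO P) ∈ mx (plO P)) (ht : sX L' ι' j (plO P) ∈ mx (plO P))
    (hs' : sX L ι i (plO P') ∈ mx (plO P')) (ht' : sX L' ι' j (plO P') ∈ mx (plO P')) :
    P = P' := by
  obtain ⟨⟨Q₁, a1⟩, ⟨Q₂, a2⟩, a3⟩ := exc h dq hP hs ht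
  obtain ⟨⟨Q₃, b1⟩, ⟨Q₄, b2⟩, b3⟩ := exc h dq hP' hs' ht'
  have c1 := (h.s_mx hP i).1 hs
  have c2 := (h.symm.s_mx hP j).1 ht
  obtain rfl := h.ok.uniq i Q₁ Q₃ (a1 ▸ h.maps.mem hP) (b1 ▸ h.maps.mem hP') (a1 ▸ c1)
    (b1 ▸ (h.s_mx hP' i).1 hs')
  obtain rfl := h.ok'.uniq j Q₂ Q₄ (a2 ▸ h.maps'.mem hP) (b2 ▸ h.maps'.mem hP') (a2 ▸ c2)
    (b2 ▸ (h.symm.s_mx hP' j).1 ht')
  have q := b1.trans a1.symm
  have q' := b2.trans a2.symm
  obtain ⟨V, -, hV⟩ := (vq k M M' K ι ι' e _ _ _ _ _ (h.lqO hP)).exc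
    (prod_mx (h.ok.sm _ (h.maps.mem hP)) c1) (prod_mx (h.ok'.sm _ (h.maps'.mem hP)) c2)
  rw [AA, q, q'] at b3
  exact same h hP hP' q q' rfl hV a3.mem b3.mem trivial trivial (h.sne hP i)
    ((mem_mx_comap ι).1 (hV.ov.dom.mx c1))

theorem uV (vq : VqS) {Q : Place k M} (hP : plO P ∈ Z) (hP' : plO P' ∈ Z)
    (a1 : pr ι L.Y (plO P) = plO Q) (a2 : pr ι' L'.Y (plO P) = ⊤)
    (b1 : pr ι L.Y (plO P') = plO Q) (b2 : pr ι' L'.Y (plO P') = ⊤) : P = P' := by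
  have q := b1.trans a1.symm
  have q' := b2.trans a2.symm
  have eA : AA L L' ι ι' v e (plO P') = AA L L' ι ι' v e (plO P) := by rw [AA, AA, q, q']
  have l := h.lqO hP
  rcases isU_or_mx l.mS with c | c
  · have u : ∀ O ∈ Z, pr ι L.Y O = pr ι L.Y (plO P) → AA L L' ι ι' v e O ∈ O := fun O hO r =>
      a_mem h.ext.e0 (h.loc hO) (by rw [Geo.prod_sX]; exact h.maps.isU_up hO (r ▸ c))
    obtain ⟨V, hV⟩ := (vq k M M' K ι ι' e _ _ _ _ _ l).unit c a2 fun ⟨r, hr⟩ => h.ext.ns' ⟨r /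
      L'.jj (pr ι' L'.Y (plO P)), by
        have j0 := h.ok'.cj.ne (h.maps'.mem hP)
        rw [div_mul_div_comm, ← hr, ← h.ok'.eqn _ (h.maps'.mem hP), sq,
          mul_div_cancel_right₀ _ (mul_ne_zero j0 j0)]⟩
    refine same h hP hP' q q' rfl hV (u _ hP rfl) (eA ▸ u _ hP' q) trivial trivial
      ((map_ne_zero ι).2 Q.unif_ne) ((mem_mx_comap ι).1 (hV.ov.dom.mx ?_))
    rw [a1]
    exact (mx_plO Q.unif_ne).2 (by simp)
  · have u : ∀ O ∈ Z, pr ι L.Y O = pr ι L.Y (plO P) → pr ι' L'.Y O = ⊤ →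
        (AA L L' ι ι' v e O)⁻¹ ∈ mx O := fun O hO r r' =>
      a_mx (h.loc hO).symm (isU_prod fun j _ => s_top h.symm hO r' j) (by
        rw [Geo.prod_sX]
        exact (h.maps.mx_up hO (h.lqO hO).mS).2 (r ▸ c))
    obtain ⟨V, m, hV⟩ := (vq k M' M K ι' ι e _ _ _ _ _ l.symm).zero c
    have u1 := u _ hP rfl a2
    have u2 := eA ▸ u _ hP' q b2
    exact same h.symm hP hP' q' q (AA_symm L L' ι ι' v e _).symm hV u1.1 u2.1 u1 u2
      (inv_ne_zero l.ne) m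

end PL

theorem pl_stmt : PlStmt := fun vq dq _ _ _ _ _ _ _ _ _ _ _ _ _ _ _ _ _ _ _ _ _ _ _ _ _ _ _ _ h =>
  { uE := fun _ _ _ _ => PL.uE h vq dq
    eA := fun _ _ _ hP hs ht => (PL.exc h dq hP hs ht).2.2
    pl := fun _ => PL.pl h dq
    uV := fun _ _ _ => PL.uV h vq }

end Pool.Agent.MP_20d318_ag.KK

end PartPl

section PartCls

/-! CLS: the divisor class group of the blow-up of the product. -/

set_option autoImplicit false
set_option linter.unusedSectionVars false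

namespace Pool.Agent.MP_20d318_ag.KK

open Pool.Agent.MP_fd6584_ag.Fn Pool.Agent.CBk
open Pool.Agent.MP_fd6584_ag.AG hiding deg_inv deg_congr deg_of_unit deg_mul deg_prod deg_zpow
  deg_eq_zero deg_nonneg deg_div deg_pow
open Pool.Agent.MP_20d318_ag.CH (Lv sX)
open Pool.Agent.MP_20d318_ag.CB.P.XCls (mx_of_ord ord_ne)

namespace ClsA

variable {k M M' K Λ Λ' κ κ' : Type} {n n' : ℕ} [Field k] [Field M] [Field M'] [Field K]
  [Algebra k M] [Algebra k M'] [Algebra k K] [Fintype κ] [Fintype κ'] {L : Lv k M Λ κ n}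
  {L' : Lv k M' Λ' κ' n'} {ι : M →ₐ[k] K} {ι' : M' →ₐ[k] K} {v : K} {e : ℕ}
  {Z : Set (Subalgebra k K)}

open Classical in
theorem lb_E (i : κ) (j : κ') (O : Subalgebra k K) :
    lb L L' ι ι' 1 1 (fun i' j' => if i' = i ∧ j' = j then -1 else 0) O = EE L L' ι ι' i j O := by
  have h : ∀ i' j', EE L L' ι ι' i' j' O ^ (-(if i' = i ∧ j' = j then -1 else 0 : ℤ)) =
      if j' = j then if i' = i then EE L L' ι ι' i' j' O else 1 else 1 := fun i' j' => by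
    by_cases a : i' = i <;> by_cases b : j' = j <;> simp [a, b]
  simp only [lb, h]
  simp [up]

theorem lb_add (h : Geo L L' ι ι' v e Z) {O : Subalgebra k K} (hO : O ∈ Z)
    (g₁ g₂ : Subalgebra k M → M) (g₁' g₂' : Subalgebra k M' → M') (a a' : κ → κ' → ℤ) :
    lb L L' ι ι' (g₁ * g₂) (g₁' * g₂') (a + a') O =
      lb L L' ι ι' g₁ g₁' a O * lb L L' ι ι' g₂ g₂' a' O := by
  simp only [lb, up, Pi.mul_apply, Pi.add_apply, map_mul, neg_add,
    zpow_add₀ ((h.cartE _ _).ne hO), Finset.prod_mul_distrib]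
  ring

theorem lb_zpow (O : Subalgebra k K) (g : Subalgebra k M → M) (g' : Subalgebra k M' → M')
    (a : κ → κ' → ℤ) (m : ℤ) :
    lb L L' ι ι' (g ^ m) (g' ^ m) (fun i j => a i j * m) O = lb L L' ι ι' g g' a O ^ m := by
  simp only [lb, up, Pi.pow_apply, map_zpow₀, mul_zpow, ← Finset.prod_zpow, ← zpow_mul, neg_mul]

/-- A place that dominates both factors lies in the affine chart. -/
theorem gen_pts (h : Geo L L' ι ι' v e Z) {P : Place k K} (hP : plO P ∈ Z)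
    (ht : pr ι L.Y (plO P) = ⊤) (ht' : pr ι' L'.Y (plO P) = ⊤) :
    plO P ∈ Pts (Bq ι ι' ⊤ ⊤ {v}) := by
  have hmu : ∀ m, m ≠ 0 → IsU (plO P) (ι m) := fun m h0 =>
    h.maps.isU_up hP (by rw [ht]; exact isU_top.2 h0)
  have hmu' : ∀ m, m ≠ 0 → IsU (plO P) (ι' m) := fun m h0 =>
    h.maps'.isU_up hP (by rw [ht']; exact isU_top.2 h0)
  have q := h.lqO hP
  have h2 : IsU (plO P) (AA L L' ι ι' v e (plO P) ^ e) := by
    have h3 := (hmu' _ q.nS').div (hmu _ q.nS)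
    rwa [← q.eq, mul_div_cancel_right₀ _ (hmu _ q.nS).ne] at h3
  have hA : AA L L' ι ι' v e (plO P) ∈ plO P := by
    rcases h.aa _ hP with a | a
    · exact a
    · have h3 : IsU (plO P) ((AA L L' ι ι' v e (plO P))⁻¹ ^ e) := by
        rw [inv_pow]; exact h2.inv
      simpa using (IsU.of_pow a h.ext.e0 h3).inv_mem
  have hu := ((hmu' _ (h.ok'.cj.ne (h.maps'.mem hP))).div
    (hmu _ (h.ok.cj.ne (h.maps.mem hP)))).pow (3 - e)
  have hv : v ∈ plO P := by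
    have h3 := hu.div_mem hA
    rwa [AA, A0, mul_div_cancel_right₀ _ hu.ne] at h3
  have h4 := h.pts _ hP _ hA (Or.inl rfl)
  have h5 := h.ov hP
  rw [ht, ht'] at h4 h5
  refine Pts_of_le h4 (Algebra.adjoin_le ?_) (h5.le (Set.singleton_subset_iff.2 hv))
  rintro a (⟨b, -, rfl⟩ | ⟨b, -, rfl⟩ | rfl)
  · exact Bq_l trivial
  · exact Bq_r trivial
  · rw [AA, A0, div_eq_mul_inv, ← map_inv₀]
    exact mul_mem (Bq_g rfl) (pow_mem (mul_mem (Bq_r Algebra.mem_top) (Bq_l Algebra.mem_top)) _)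

/-- A place over a place of the first factor. -/
theorem vert (h : Geo L L' ι ι' v e Z) (hP : XPl L L' ι ι' v e Z) {P : Place k K} (hm : plO P ∈ Z)
    {Q : Place k M} (ht : pr ι L.Y (plO P) = plO Q) (ht' : pr ι' L'.Y (plO P) = ⊤) :
    ∃ g, IsCart L.Y g ∧ P.ord (up ι L.Y g (plO P)) ≠ 0 ∧ ∀ P' : Place k K, plO P' ∈ Z → P' ≠ P →
      P'.ord (up ι L.Y g (plO P')) ≠ 0 →
        ∃ i j, sX L ι i (plO P') ∈ mx (plO P') ∧ sX L' ι' j (plO P') ∈ mx (plO P') := by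
  have hm0 : plO Q ∈ L.Y := ht ▸ h.maps.mem hm
  obtain ⟨g, hg, o1, o2⟩ := h.ok.fac Q hm0
  have m1 : g (plO Q) ∈ mx (plO Q) := (mx_plO (hg.ne hm0)).2 (by rw [o1]; norm_num)
  rw [← ht] at m1
  refine ⟨g, hg, ord_ne ((h.cartU hg).ne hm) ((h.maps.mx_up hm m1.1).2 m1),
    fun P' hm' hne ho => ?_⟩
  have n1 := hg.ne (h.maps.mem hm')
  have h2 : ¬ IsU (pr ι L.Y (plO P')) (g (pr ι L.Y (plO P'))) := fun q =>
    ho ((isU_plO' _).1 (h.maps.isU_up hm' q)).2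
  have h3 : pr ι L.Y (plO P') ≠ ⊤ := fun q => h2 (by rw [q] at n1 ⊢; exact isU_top.2 n1)
  rcases hP.pl P' hm' with q | q | ⟨P₁, h4, h5⟩ | ⟨_, q, -⟩
  · exact q
  · exact absurd q.1 h3
  · obtain rfl : P₁ = Q := by_contra fun q => h2 (by
      rw [h4] at n1 ⊢
      exact (isU_plO' _).2 ⟨n1, o2 P₁ (h4 ▸ h.maps.mem hm') q⟩)
    exact absurd (hP.uV P' P P₁ hm' hm h4 h5 ht ht') hne
  · exact absurd q h3

variable (L L' ι ι') in
open Classical in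
/-- The order in which the places are treated. -/
noncomputable def lev (Sp : Place k K → Prop) (P : Place k K) : ℕ :=
  if ∃ i j, sX L ι i (plO P) ∈ mx (plO P) ∧ sX L' ι' j (plO P) ∈ mx (plO P) then 0
  else if pr ι L.Y (plO P) = ⊤ ∧ pr ι' L'.Y (plO P) = ⊤ then if Sp P then 3 else 2 else 1

variable (L L' ι ι' Z) in
/-- Divisors that are linearly equivalent to a divisor of the lattice. -/
def Gw (f : Subalgebra k K → K) : Prop := IsCart Z f ∧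
  ∃ (g : Subalgebra k M → M) (g' : Subalgebra k M' → M') (a : κ → κ' → ℤ) (μ : K),
    IsCart L.Y g ∧ IsCart L'.Y g' ∧ μ ≠ 0 ∧ ∀ O ∈ Z, IsU O (f O / (μ * lb L L' ι ι' g g' a O))

theorem gw_of (h : Geo L L' ι ι' v e Z) {f : Subalgebra k K → K} {g : Subalgebra k M → M}
    {g' : Subalgebra k M' → M'} (hg : IsCart L.Y g) (hg' : IsCart L'.Y g') (a : κ → κ' → ℤ) {μ : K}
    (hμ : μ ≠ 0) (q : ∀ O, f O = μ * lb L L' ι ι' g g' a O) : Gw L L' ι ι' Z f := by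
  obtain rfl : f = (fun _ => μ) * lb L L' ι ι' g g' a := funext q
  refine ⟨(isCart_const hμ).mul (h.cartW hg hg' a), g, g', a, μ, hg, hg', hμ, fun O hO => ?_⟩
  rw [Pi.mul_apply, div_self (mul_ne_zero hμ ((h.cartW hg hg' a).ne hO))]
  exact isU_one

theorem gw_const (h : Geo L L' ι ι' v e Z) {μ : K} (hμ : μ ≠ 0) : Gw L L' ι ι' Z fun _ => μ :=
  gw_of h (g := 1) (g' := 1) (isCart_const one_ne_zero) (isCart_const one_ne_zero) 0 hμ
    fun O => by simp [lb, up]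

theorem gw_mul (h : Geo L L' ι ι' v e Z) (f f' : Subalgebra k K → K) (hf : Gw L L' ι ι' Z f)
    (hf' : Gw L L' ι ι' Z f') : Gw L L' ι ι' Z (f * f') := by
  obtain ⟨hf, g, t, a, μ, c, d, h0, hD⟩ := hf
  obtain ⟨hf', g', t', a', ν, c', d', h1, hE⟩ := hf'
  refine ⟨hf.mul hf', g * g', t * t', a + a', μ * ν, c.mul c', d.mul d', mul_ne_zero h0 h1,
    fun O hO => ?_⟩
  have := (hD O hO).mul (hE O hO)
  rwa [div_mul_div_comm, mul_mul_mul_comm, ← lb_add h hO] at this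

theorem gw_zpow (f : Subalgebra k K → K) (m : ℤ) (hf : Gw L L' ι ι' Z f) :
    Gw L L' ι ι' Z (f ^ m) := by
  obtain ⟨hf, g, t, a, μ, c, d, h0, hD⟩ := hf
  refine ⟨hf.zpow m, g ^ m, t ^ m, fun i j => a i j * m, μ ^ m, c.zpow m, d.zpow m,
    zpow_ne_zero m h0, fun O hO => ?_⟩
  have := (hD O hO).zpow m
  rwa [div_zpow, mul_zpow, ← lb_zpow] at this

theorem step (h : Geo L L' ι ι' v e Z) (hP : XPl L L' ι ι' v e Z) (hP' : XPl L' L ι' ι v⁻¹ e Z)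
    {Sp : Place k K → Prop} (hH : ∀ P : Place k K, plO P ∈ Pts (Bq ι ι' ⊤ ⊤ {v}) →
      ∃ f : K, f ≠ 0 ∧ P.ord f ≠ 0 ∧ ∀ P' : Place k K, plO P' ∈ Pts (Bq ι ι' ⊤ ⊤ {v}) → P' ≠ P →
        P'.ord f ≠ 0 → Sp P ∧ ¬ Sp P') (P : Place k K) (hm : plO P ∈ Z) :
    ∃ g, Gw L L' ι ι' Z g ∧ P.ord (g (plO P)) ≠ 0 ∧ ∀ P' : Place k K,
      plO P' ∈ Z → P' ≠ P → P'.ord (g (plO P')) ≠ 0 → lev L L' ι ι' Sp P' < lev L L' ι ι' Sp P := by
  have c1 : IsCart L.Y 1 := isCart_const one_ne_zero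
  have c2 : IsCart L'.Y 1 := isCart_const one_ne_zero
  by_cases h0 : ∃ i j, sX L ι i (plO P) ∈ mx (plO P) ∧ sX L' ι' j (plO P) ∈ mx (plO P)
  · obtain ⟨i, j, h1, h2⟩ := h0
    refine ⟨EE L L' ι ι' i j, gw_of h c1 c2 _ one_ne_zero fun O => by rw [lb_E i j, one_mul],
      ord_ne ((h.cartE i j).ne hm) (h.emx hm h1 h2), fun P' hm' hne ho => ?_⟩
    have h3 : ¬ IsU (plO P') (EE L L' ι ι' i j (plO P')) := fun h => ho ((isU_plO' _).1 h).2
    exact absurd (hP.uE P' P i j hm' hm ⟨h.sm hm' i, fun q => h3 (h.eu hm' i j (Or.inl q))⟩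
      ⟨h.symm.sm hm' j, fun q => h3 (h.eu hm' i j (Or.inr q))⟩ h1 h2) hne
  have hpos : 0 < lev L L' ι ι' Sp P := by
    rw [lev, if_neg h0]; split_ifs <;> norm_num
  rcases (hP.pl P hm).resolve_left h0 with ht | ⟨Q, ht, ht'⟩ | ⟨Q, ht, ht'⟩
  · obtain ⟨f, f0, hf, H⟩ := hH P (gen_pts h hm ht.1 ht.2)
    refine ⟨fun _ => f, gw_const h f0, hf, fun P' hm' hne ho => ?_⟩
    rw [lev.eq_1 L L' ι ι' Sp P, if_neg h0, if_pos ht, lev]
    by_cases e2 : pr ι L.Y (plO P') = ⊤ ∧ pr ι' L'.Y (plO P') = ⊤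
    · have q := H P' (gen_pts h hm' e2.1 e2.2) hne ho
      rw [if_pos q.1, if_neg q.2]
      split_ifs <;> norm_num
    · rw [if_neg e2]
      split_ifs <;> norm_num
  · obtain ⟨g, hg, o, H⟩ := vert h hP hm ht ht'
    exact ⟨_, gw_of h hg c2 0 one_ne_zero fun O => by simp [lb, up], o,
      fun P' hm' hne ho => by rwa [lev, if_pos (H P' hm' hne ho)]⟩
  · obtain ⟨g, hg, o, H⟩ := vert h.symm hP' hm ht' ht
    refine ⟨_, gw_of h c1 hg 0 one_ne_zero fun O => by simp [lb, up], o, fun P' hm' hne ho => ?_⟩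
    obtain ⟨j, i, a, b⟩ := H P' hm' hne ho
    rwa [lev, if_pos ⟨i, j, b, a⟩]

end ClsA

open ClsA in
theorem cls_stmt : ClsStmt := by
  intro k M M' K Λ Λ' κ κ' n n' _ _ _ _ _ _ _ _ _ _ _ L L' ι ι' v e Z h hP hP' ⟨Sp, hH⟩ hN f hf
  obtain ⟨N, g, h0, hg, hu⟩ := clsGen_stmt k K Z (Gw L L' ι ι' Z) (lev L L' ι ι' Sp) hN
    (fun _ h => h.1) (gw_mul h) gw_zpow (gw_const h one_ne_zero) (step h hP hP' hH) f hf
  obtain ⟨-, g', t, a, μ, c, d, h1, hD⟩ := gw_zpow g N hg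
  refine ⟨N.natAbs ^ 2, g', t, a, μ, pow_pos (Int.natAbs_pos.2 h0) 2, c, d, h1, fun O hO => ?_⟩
  have := ((hu O hO).zpow N).mul (hD O hO)
  rwa [div_zpow, Pi.pow_apply, div_mul_div_cancel₀ (zpow_ne_zero N (hg.1.ne hO)), ← zpow_mul,
    ← Int.natAbs_mul_self, zpow_natCast, ← sq] at this

end Pool.Agent.MP_20d318_ag.KK

end PartCls
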