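import Pool.Agent.MP_20d318_ag.KK.Fin
import Pool.Agent.MP_20d318_ag.KK.RowsL
import Pool.Agent.MP_20d318_ag.KK.RowsA
import Pool.Agent.MP_20d318_ag.KK.RowsB
import Pool.Agent.MP_20d318_ag.KK.RowsX
import Pool.Agent.MP_20d318_ag.KK.RowsY
import Pool.Agent.MP_20d318_ag.CH.Main

/-! The rows on the tower hold. -/

set_option autoImplicit false

namespace Pool.Agent.MP_20d318_ag.KK

theorem mods : Mods := ⟨CH.mods, ⟨pa_stmt, pb_stmt, pc_stmt, pd_stmt, pe_stmt, dks_stmt, sml_stmt,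
  CH.n3_stmt⟩, nsq_stmt, mws_stmt, fld_stmt, homa_stmt, homb_stmt, kq_stmt, vq_stmt, smo_stmt,
  dimq_stmt, ufd_stmt, ga_stmt, hz1_stmt, crq_stmt, tq_stmt, xloc_stmt, cura_stmt, curb_stmt,
  pt_stmt, test_stmt, pl_stmt, cls_stmt, sig_stmt, pol_stmt, eff_stmt, vol_stmt, lft_stmt, cln_stmt,
  dv_stmt, nxa_stmt, nxb_stmt⟩

theorem bmods : BMods := ⟨CH.bmods, trp_stmt, sml_stmt, hfc_stmt, dkb_stmt⟩

end Pool.Agent.MP_20d318_ag.KK
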