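import Pool.Agent.MP_20d318_ag.KK.ESpec

/-! Row NFL: a smooth plane sextic does not contain a line. -/

set_option autoImplicit false
set_option linter.unusedSectionVars false

namespace Pool.Agent.MP_20d318_ag.KK

open Polynomial

namespace Nfl

variable {k k₁ : Type} [Field k] [Field k₁] [Algebra k k₁]

/-- The chain rule. -/
theorem chain (d : Derivation k k₁ k₁) (f : Fin 3 → k₁) (G : MvPolynomial (Fin 3) k) :
    d (MvPolynomial.aeval f G) =
      ∑ i, MvPolynomial.aeval f (MvPolynomial.pderiv i G) * d (f i) := by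
  induction G using MvPolynomial.induction_on with
  | C a => simp
  | add p q hp hq => simp [hp, hq, add_mul, Finset.sum_add_distrib]
  | mul_X p i hp =>
    simp only [map_mul, MvPolynomial.aeval_X, Derivation.leibniz, hp, smul_eq_mul, map_add,
      add_mul, Finset.sum_add_distrib, Finset.mul_sum, MvPolynomial.pderiv_X]
    congr 1
    · rw [Finset.sum_eq_single i]
      · simp
      · intro j _ hj
        simp [Ne.symm hj]
      · simp
    · exact Finset.sum_congr rfl fun j _ => by ring

/-- A polynomial with constant coefficients that vanishes at `t` is zero. -/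
theorem cst_poly [CharZero k₁] (d : Derivation k k₁ k₁) {t : k₁} (ht : d t = 1) (n : ℕ) :
    ∀ P : k₁[X], P.natDegree ≤ n → (∀ i, d (P.coeff i) = 0) → P.eval t = 0 → P = 0 := by
  induction n with
  | zero =>
    intro P h _ e
    rw [eq_C_of_natDegree_le_zero h] at e ⊢
    rw [eval_C] at e
    rw [e, C_0]
  | succ n ih =>
    intro P h c e
    have h1 : d (P.eval t) = (derivative P).eval t := by
      rw [eval_eq_sum_range, map_sum, derivative_eval, Polynomial.sum_over_range _ (by simp)]
      refine Finset.sum_congr rfl fun i _ => ?_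
      rw [Derivation.leibniz, c, Derivation.leibniz_pow, ht]
      simp [mul_assoc]
    have h2 : derivative P = 0 := by
      refine ih _ ((natDegree_derivative_le P).trans (by omega)) (fun i => ?_) ?_
      · rw [coeff_derivative, Derivation.leibniz, c]
        have : d ((i : k₁) + 1) = 0 := by
          rw [map_add, Derivation.map_natCast, d.map_one_eq_zero, add_zero]
        simp [this]
      · rw [← h1, e, map_zero]
    have h3 := Polynomial.derivative_eq_zero.1 h2
    rw [eq_C_of_natDegree_eq_zero h3] at e ⊢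
    rw [eval_C] at e
    rw [e, C_0]

theorem inj [CharZero k₁] (d : Derivation k k₁ k₁) {t : k₁} (ht : d t = 1) (p : k[X])
    (e : aeval t p = 0) : p = 0 := by
  have := cst_poly d ht _ (p.map (algebraMap k k₁)) le_rfl
    (fun i => by rw [coeff_map, Derivation.map_algebraMap]) (by rw [eval_map_algebraMap, e])
  exact (Polynomial.map_eq_zero_iff (algebraMap k k₁).injective).1 this

/-- The constants lie in the ground field. -/
theorem cst [CharZero k₁] [IsAlgClosed k] (d : Derivation k k₁ k₁) {t : k₁} (ht : d t = 1)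
    (alg : Algebra.IsAlgebraic (Algebra.adjoin k {t}) k₁) {c : k₁} (hc : d c = 0) :
    ∃ a : k, algebraMap k k₁ a = c := by
  obtain ⟨P, P0, hP⟩ := alg.isAlgebraic c
  have hp : ∀ i, ∃ p : k[X], aeval t p = (P.coeff i : k₁) := fun i => by
    exact (Algebra.adjoin_singleton_eq_range_aeval k t).le (P.coeff i).2
  choose p hp using hp
  have hQ : (∑ i ∈ P.support, C (c ^ i) * (p i).map (algebraMap k k₁)) = 0 := by
    refine cst_poly d ht _ _ le_rfl (fun j => ?_) ?_
    · rw [finsetSum_coeff, map_sum]
      refine Finset.sum_eq_zero fun i _ => ?_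
      rw [coeff_C_mul, coeff_map, Derivation.leibniz, Derivation.map_algebraMap,
        Derivation.leibniz_pow, hc]
      simp
    · rw [eval_finsetSum, ← hP, aeval_def, eval₂_eq_sum, Polynomial.sum_def]
      refine Finset.sum_congr rfl fun i _ => ?_
      rw [eval_mul, eval_C, eval_map_algebraMap, hp, mul_comm]
      rfl
  obtain ⟨i, hi⟩ := Polynomial.support_nonempty.2 P0
  have pi : p i ≠ 0 := fun e => by
    have := hp i
    rw [e, map_zero] at this
    exact mem_support_iff.1 hi (Subtype.ext this.symm)
  obtain ⟨j, hj⟩ := Polynomial.support_nonempty.2 pi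
  have ha : IsAlgebraic k c := by
    refine ⟨∑ l ∈ P.support, monomial l ((p l).coeff j), fun e => ?_, ?_⟩
    · have := congrArg (fun q => coeff q i) e
      simp only [finsetSum_coeff, coeff_monomial, Finset.sum_ite_eq', hi, if_true,
        coeff_zero] at this
      exact mem_support_iff.1 hj this
    · have := congrArg (fun q => coeff q j) hQ
      simp only [finsetSum_coeff, coeff_C_mul, coeff_map, coeff_zero] at this
      rw [map_sum, ← this]
      exact Finset.sum_congr rfl fun l _ => by rw [aeval_monomial, mul_comm]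
  exact minpoly.mem_range_of_degree_eq_one k c
    (IsAlgClosed.degree_eq_one_of_irreducible k (minpoly.irreducible ha.isIntegral))

/-- Scaling of a form. -/
theorem scale {F : MvPolynomial (Fin 3) k} {n : ℕ} (h : F.IsHomogeneous n) (y : k)
    (p : Fin 3 → k) : MvPolynomial.aeval (fun i => y * p i) F = y ^ n * MvPolynomial.aeval p F := by
  rw [MvPolynomial.aeval_def, MvPolynomial.aeval_def, MvPolynomial.eval₂_eq,
    MvPolynomial.eval₂_eq, Finset.mul_sum]
  refine Finset.sum_congr rfl fun s hs => ?_
  simp only [mul_pow, Finset.prod_mul_distrib, Finset.prod_pow_eq_pow_sum]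
  rw [← h.degree_eq_sum_deg_support hs]
  ring

/-- The restriction to the line. -/
noncomputable def r (a b : k) : MvPolynomial (Fin 3) k →ₐ[k] k[X] :=
  MvPolynomial.aeval ![X, C a * X + C b, 1]

theorem aeval_r {L : Type} [Field L] [Algebra k L] (a b : k) (x : L) (F : MvPolynomial (Fin 3) k) :
    aeval x (r a b F) =
      MvPolynomial.aeval ![x, algebraMap k L a * x + algebraMap k L b, 1] F := by
  rw [r, ← AlgHom.comp_apply, MvPolynomial.comp_aeval]
  congr 2
  funext i
  fin_cases i <;> simp

/-- The value at the point at infinity of the line. -/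
theorem inf [Infinite k] {F : MvPolynomial (Fin 3) k} {n : ℕ} (h : F.IsHomogeneous (n + 1))
    {a b c : k} (e : r a b F = C c) : MvPolynomial.aeval ![1, a, 0] F = 0 := by
  have ev : ∀ y : k, eval y (MvPolynomial.aeval ![1, C a + C b * X, X] F : k[X]) =
      MvPolynomial.aeval ![1, a + b * y, y] F := fun y => by
    rw [← coe_aeval_eq_eval]
    change aeval y _ = _
    rw [← AlgHom.comp_apply, MvPolynomial.comp_aeval]
    congr 2
    funext i
    fin_cases i <;> simp
  have h1 : (MvPolynomial.aeval ![1, C a + C b * X, X] F : k[X]) = C c * X ^ (n + 1) := by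
    refine Polynomial.eq_of_infinite_eval_eq _ _ ?_
    refine ((Set.finite_singleton (0 : k)).infinite_compl).mono fun y hy => ?_
    have y0 : y ≠ 0 := hy
    have h2 := aeval_r a b y⁻¹ F
    rw [e, aeval_C] at h2
    have h3 := scale h y ![y⁻¹, a * y⁻¹ + b, 1]
    have h4 : (fun i => y * ![y⁻¹, a * y⁻¹ + b, 1] i) = ![1, a + b * y, y] := by
      funext i
      fin_cases i <;> simp <;> field_simp
    rw [h4] at h3
    change eval y _ = eval y _
    rw [ev, h3]
    simp only [Algebra.algebraMap_self, RingHom.id_apply] at h2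
    rw [← h2, eval_mul, eval_C, eval_pow, eval_X, mul_comm]
  have := ev 0
  rw [h1] at this
  simpa using this.symm

end Nfl

theorem nfl_stmt : NflStmt := by
  intro k k₁ _ _ _ _ _ _ G d t u h h0
  have : CharZero k₁ := charZero_of_injective_algebraMap (algebraMap k k₁).injective
  obtain ⟨a, ha⟩ := Nfl.cst d h.dt h.alg h0
  obtain ⟨b, hb⟩ := Nfl.cst d h.dt h.alg (c := u - algebraMap k k₁ a * t) (by
    rw [map_sub, Derivation.leibniz, Derivation.map_algebraMap, h.dt, ha]; simp)
  have hu : algebraMap k k₁ a * t + algebraMap k k₁ b = u := by rw [hb]; ring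
  have ev : ∀ F, aeval t (Nfl.r a b F) = MvPolynomial.aeval ![t, u, 1] F := fun F => by
    rw [Nfl.aeval_r, hu]
  have g0 : Nfl.r a b G = 0 := Nfl.inj d h.dt _ (by rw [ev, h.on])
  have g1 : Nfl.r a b (MvPolynomial.pderiv 0 G) = C (-a) * Nfl.r a b (MvPolynomial.pderiv 1 G) := by
    refine sub_eq_zero.1 (Nfl.inj d h.dt _ ?_)
    have := Nfl.chain d ![t, u, 1] G
    rw [h.on, map_zero, Fin.sum_univ_three] at this
    simp only [Matrix.cons_val_zero, Matrix.cons_val_one, Matrix.cons_val, h.dt, ← ha,
      d.map_one_eq_zero] at this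
    rw [map_sub, map_mul, aeval_C, ev, ev, map_neg]
    linear_combination -this
  have g2 : Nfl.r a b (MvPolynomial.pderiv 2 G) = C (-b) * Nfl.r a b (MvPolynomial.pderiv 1 G) := by
    have := congrArg (Nfl.r a b) h.sm.1.sum_X_mul_pderiv
    rw [Fin.sum_univ_three, map_nsmul, g0, map_add, map_add, map_mul, map_mul, map_mul, g1] at this
    have e0 : Nfl.r a b (MvPolynomial.X 0) = X := by simp [Nfl.r]
    have e1 : Nfl.r a b (MvPolynomial.X 1) = C a * X + C b := by simp [Nfl.r]
    have e2 : Nfl.r a b (MvPolynomial.X 2) = 1 := by simp [Nfl.r]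
    rw [e0, e1, e2, smul_zero, map_neg] at this
    rw [map_neg]
    linear_combination this
  by_cases hd : (Nfl.r a b (MvPolynomial.pderiv 1 G)).degree = 0
  · have e := eq_C_of_degree_eq_zero hd
    have hom : ∀ i, (MvPolynomial.pderiv i G).IsHomogeneous (4 + 1) := fun i => h.sm.1.pderiv
    obtain ⟨i, hi⟩ := h.sm.2 k ![1, a, 0] (fun e => by simpa using congrFun e 0)
      (Nfl.inf (n := 5) h.sm.1 (g0.trans C_0.symm))
    apply hi
    fin_cases i
    · exact Nfl.inf (hom 0) (g1.trans (by rw [e, ← C_mul]))
    · exact Nfl.inf (hom 1) e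
    · exact Nfl.inf (hom 2) (g2.trans (by rw [e, ← C_mul]))
  · obtain ⟨x, hx⟩ := IsAlgClosed.exists_root _ hd
    have hx' : aeval x (Nfl.r a b (MvPolynomial.pderiv 1 G)) = 0 := by
      rw [coe_aeval_eq_eval]; exact hx
    obtain ⟨i, hi⟩ := h.sm.2 k ![x, algebraMap k k a * x + algebraMap k k b, 1]
      (fun e => by simpa using congrFun e 2) (by rw [← Nfl.aeval_r, g0, map_zero])
    apply hi
    rw [← Nfl.aeval_r]
    fin_cases i
    · change aeval x (Nfl.r a b (MvPolynomial.pderiv 0 G)) = 0
      rw [g1, map_mul, hx', mul_zero]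
    · exact hx'
    · change aeval x (Nfl.r a b (MvPolynomial.pderiv 2 G)) = 0
      rw [g2, map_mul, hx', mul_zero]

end Pool.Agent.MP_20d318_ag.KK
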