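import Pool.Agent.MP_20d318_ag.KK.Spec

/-! Row NXA: the algebraic part of the induction hypothesis passes to the blow-up. -/

set_option autoImplicit false
set_option linter.unusedSectionVars false

namespace Pool.Agent.MP_20d318_ag.KK

open Pool.Agent.MP_fd6584_ag.Fn Pool.Agent.CBk
open Pool.Agent.MP_fd6584_ag.AG hiding deg_inv deg_congr deg_of_unit deg_mul deg_prod deg_zpow
  deg_eq_zero deg_nonneg deg_div deg_pow
open Pool.Agent.MP_20d318_ag.CH (Lv OkA sX)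

namespace Nxa

variable {k M M' K Λ Λ' κ κ' : Type} {n n' : ℕ} [Field k] [Field M] [Field M'] [Field K]
  [Algebra k M] [Algebra k M'] [Algebra k K] [Fintype κ] [Fintype κ'] {L : Lv k M Λ κ n}
  {L' : Lv k M' Λ' κ' n'} {ι : M →ₐ[k] K} {ι' : M' →ₐ[k] K} {v : K} {e : ℕ}
  {Z : Set (Subalgebra k K)} {O : Subalgebra k K}

theorem gn_mul {S S' : Set K} {a b : K} (g : Gn S O a) (g' : Gn S' O b) :
    Gn (Set.image2 (· * ·) S S') O (a * b) := by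
  refine ⟨?_, ?_⟩
  · rintro _ ⟨x, hx, y, hy, rfl⟩
    rw [mul_div_mul_comm]
    exact O.mul_mem (g.1 x hx) (g'.1 y hy)
  · obtain ⟨x, hx, u⟩ := g.2
    obtain ⟨y, hy, u'⟩ := g'.2
    exact ⟨x * y, ⟨x, hx, y, hy, rfl⟩, by rw [mul_div_mul_comm]; exact u.mul u'⟩

variable (h : Geo L L' ι ι' v e Z)

include h

theorem of_inl (hO : O ∈ Z) {i : κ} (hm : sC L L' ι ι' i O ∈ mx O) :
    (AA L L' ι ι' v e O)⁻¹ ∈ mx O ∧ sX L ι i O ∈ mx O := by
  refine ⟨by_contra fun hn => hm.2 ((h.rC hO i).2 hn), ?_⟩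
  have h1 := mx_mul_right hm (prod_mem fun j (_ : j ∈ Finset.univ) => h.em hO i j)
  have h2 : (∏ j, EE L L' ι ι' i j O) ≠ 0 :=
    Finset.prod_ne_zero_iff.2 fun j _ => (h.gE hO i j).ne
  exact (div_mul_cancel₀ (sX L ι i O) h2) ▸ h1

theorem not_both (hO : O ∈ Z) {i : κ} {j : κ'} (h1 : sC L L' ι ι' i O ∈ mx O)
    (h2 : sC L' L ι' ι j O ∈ mx O) : False := by
  have a := (of_inl h hO h1).1
  have b := (of_inl h.symm hO h2).1
  rw [AA_symm, inv_inv] at b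
  exact b.2 ⟨(h.lqO hO).ne, b.1, a.1⟩

theorem one (hO : O ∈ Z) (i i' : κ ⊕ κ') (h1 : sN L L' ι ι' i O ∈ mx O)
    (h2 : sN L L' ι ι' i' O ∈ mx O) : i = i' := by
  rcases i with i | j <;> rcases i' with i' | j'
  · rw [h.s1 hO i i' (of_inl h hO h1).2 (of_inl h hO h2).2]
  · exact (not_both h hO h1 h2).elim
  · exact (not_both h hO h2 h1).elim
  · rw [h.symm.s1 hO j j' (of_inl h.symm hO h1).2 (of_inl h.symm hO h2).2]

theorem pl_inl (hp : XPl L L' ι ι' v e Z) {P : Place k K} (hP : plO P ∈ Z) {i : κ}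
    (hm : sC L L' ι ι' i (plO P) ∈ mx (plO P)) :
    ∃ Q : Place k M, pr ι L.Y (plO P) = plO Q ∧ pr ι' L'.Y (plO P) = ⊤ ∧
      plO Q ∈ L.Y ∧ L.s i (plO Q) ∈ mx (plO Q) := by
  obtain ⟨h1, h2⟩ := of_inl h hP hm
  have hR := h.maps.mem hP
  have h3 := (h.s_mx hP i).1 h2
  have nt : pr ι L.Y (plO P) ≠ ⊤ := fun h4 => by
    have h5 := (h.ok.cs i).ne hR
    rw [h4] at h3 h5
    exact h5 (mem_mx_top.1 h3)
  rcases hp.pl P hP with ⟨i', j, a, b⟩ | h4 | ⟨Q, h4, h5⟩ | ⟨Q, h4, -⟩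
  · exact (h1.2 (hp.eA P i' j hP a b).inv).elim
  · exact (nt h4.1).elim
  · exact ⟨Q, h4, h5, h4 ▸ hR, h4 ▸ h3⟩
  · exact (nt h4).elim

theorem uniq (hp : XPl L L' ι ι' v e Z) (i : κ) (P P' : Place k K) (hP : plO P ∈ Z)
    (hP' : plO P' ∈ Z) (h1 : sC L L' ι ι' i (plO P) ∈ mx (plO P))
    (h2 : sC L L' ι ι' i (plO P') ∈ mx (plO P')) : P = P' := by
  obtain ⟨Q, a1, a2, a3, a4⟩ := pl_inl h hp hP h1
  obtain ⟨Q', b1, b2, b3, b4⟩ := pl_inl h hp hP' h2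
  obtain rfl := h.ok.uniq i Q Q' a3 b3 a4 b4
  exact hp.uV P P' Q hP hP' a1 a2 b1 b2

theorem prod_s (hO : O ∈ Z) : ∏ i, sX L ι i O = ι L.φ * ι (L.jj (pr ι L.Y O)) ^ 2 := by
  rw [Geo.prod_sX, ← h.ok.eqn _ (h.maps.mem hO), map_mul, map_pow]

theorem eqn (hO : O ∈ Z) : ι L.φ * ι' L'.φ *
    (up ι L.Y L.jj O * up ι' L'.Y L'.jj O / ∏ i, ∏ j, EE L L' ι ι' i j O) ^ 2 =
      ∏ i, sN L L' ι ι' i O := by
  rw [Fintype.prod_sum_type]
  simp only [sN, sC, Sum.elim_inl, Sum.elim_inr, Finset.prod_div_distrib, EE_symm L L' ι ι']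
  rw [prod_s h hO, prod_s h.symm hO, Finset.prod_comm (f := fun j i => EE L L' ι ι' i j O)]
  unfold up
  ring

theorem gen1 (hO : O ∈ Z) : Gn (Set.image2 (fun a b => ι (a * b)) L.U L.U') O
    (ι (gn L.U (pr ι L.Y O) * (gn L.U (pr ι L.Y O) / L.jj (pr ι L.Y O)))) := by
  have hR := h.maps.mem hO
  have := (gn_mul (h.ok.gU _ hR) (h.ok.gU' _ hR)).up ι (h.maps.dom hO).1
  rwa [Set.image_image2] at this

theorem nz : ∀ a ∈ Set.image2 (fun a b => ι (a * b)) L.U L.U', a ≠ 0 := by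
  rintro _ ⟨u, hu, w, hw, rfl⟩
  exact (map_ne_zero ι).2 (mul_ne_zero (h.ok.nU u hu) (h.ok.nU' w hw))

end Nxa

open Nxa in
theorem nxa_stmt : NxaStmt := by
  intro k M M' K Λ Λ' κ κ' n n' _ _ _ _ _ _ _ _ _ _ _ L L' ι ι' v e h hg hp hp' he
  subst he
  have hw : v * ι L.φ = ι' L'.φ := by simpa using h.ext.eq
  have hφ : ι L.φ ≠ 0 := (map_ne_zero ι).2 h.ext.ne
  have hφ' : ι' L'.φ ≠ 0 := (map_ne_zero ι').2 h.ext.ne'
  have fS : (SI L L' ι ι' v 1).Finite := hg.1.fin (Sum.inr (Sum.inr ()))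
  have nS : ∀ a ∈ SI L L' ι ι' v 1, a ≠ 0 := hg.1.nz (Sum.inr (Sum.inr ()))
  have gU : ∀ O ∈ XX L L' ι ι' v 1, Gn (nx L L' ι ι' v 1).U O _ := fun O hO =>
    gn_mul (gen1 h hO) (gen1 h.symm hO)
  refine ⟨h.ok.ne.map Sum.inl, hg.1, mul_ne_zero hφ hφ', h.cartN, ?_,
    fun O hO => eqn h hO, ?_, fun O hO => one h hO, ?_,
    (h.ok.fU.image2 _ h.ok.fU').image2 _ (h.ok'.fU.image2 _ h.ok'.fU'), fS.image _, ?_, ?_,
    fun O hO => gn_spec (gU O hO).prin, fun O hO => ?_⟩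
  · have h1 := ((h.cartU h.ok.cj).mul (h.symm.cartU h.ok'.cj)).div
      (isCart_prod (s := Finset.univ) fun i _ => isCart_prod (s := Finset.univ) fun j _ =>
        h.cartE i j)
    have h2 : (nx L L' ι ι' v 1).jj =
        up ι L.Y L.jj * up ι' L'.Y L'.jj / ∏ i, ∏ j, EE L L' ι ι' i j := by
      funext O
      simp only [nx, Pi.div_apply, Pi.mul_apply, Finset.prod_apply]
    exact h2 ▸ h1
  · rintro O hO (i | j)
    exacts [(h.rC hO i).1, (h.symm.rC hO j).1]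
  · rintro (i | j)
    exacts [uniq h hp i, uniq h.symm hp' j]
  · rintro _ ⟨a, ha, b, hb, rfl⟩
    exact mul_ne_zero (nz h a ha) (nz h.symm b hb)
  · rintro _ ⟨a, ha, rfl⟩
    exact mul_ne_zero hφ (nS a ha)
  · have hR := h.maps.mem hO
    have hR' := h.maps'.mem hO
    have u1 := (gn_spec (gU O hO).prin).unit (gU O hO)
    have n1 : ι (gn L.U (pr ι L.Y O)) ≠ 0 := (map_ne_zero ι).2 (h.ok.gU _ hR).ne
    have n2 : ι (L.jj (pr ι L.Y O)) ≠ 0 := (map_ne_zero ι).2 (h.ok.cj.ne hR)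
    have n1' : ι' (gn L'.U (pr ι' L'.Y O)) ≠ 0 := (map_ne_zero ι').2 (h.ok'.gU _ hR').ne
    have n2' : ι' (L'.jj (pr ι' L'.Y O)) ≠ 0 := (map_ne_zero ι').2 (h.ok'.cj.ne hR')
    have n4 : (∏ i, ∏ j, EE L L' ι ι' i j O) ≠ 0 :=
      Finset.prod_ne_zero_iff.2 fun i _ => Finset.prod_ne_zero_iff.2 fun j _ => (h.gE hO i j).ne
    have n5 := h.ext.vne
    rcases h.aa O hO with ha | ha
    · refine (((hg.2 O hO).1 ha).smul hφ).of_unit ?_
      have u2 := u1.div (h.pC hO ha)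
      rw [prod_s h hO] at u2
      refine Eq.subst (motive := IsU O) ?_ u2
      generalize gn (nx L L' ι ι' v 1).U O = γ
      simp only [nx, NN, up, map_mul, map_div₀, Nat.reduceSub]
      field_simp
    · refine (((hg.2 O hO).2 ha).smul hφ).of_unit ?_
      have u2 := u1.div (h.pT hO ha)
      rw [prod_s h.symm hO, ← hw] at u2
      refine Eq.subst (motive := IsU O) ?_ u2
      generalize gn (nx L L' ι ι' v 1).U O = γ
      simp only [nx, NN, AA, A0, up, map_mul, map_div₀, Nat.reduceSub]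
      field_simp

end Pool.Agent.MP_20d318_ag.KK
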