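import Pool.Agent.MP_20d318_ag.KK.Spec

/-! The volume form and the coordinates of the next level. -/

set_option autoImplicit false
set_option linter.unusedSectionVars false

namespace Pool.Agent.MP_20d318_ag.KK

open Pool.Agent.MP_fd6584_ag.Fn Pool.Agent.CBk
open Pool.Agent.MP_fd6584_ag.AG hiding deg_inv deg_congr deg_of_unit deg_mul deg_prod deg_zpow
  deg_eq_zero deg_nonneg deg_div deg_pow
open Pool.Agent.MP_20d318_ag.CH (Lv Vol Gens dt wt sX Der)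

namespace NxbR

variable {k M M' K Λ Λ' κ κ' : Type} {n n' : ℕ} [Field k] [Field M] [Field M'] [Field K]
  [Algebra k M] [Algebra k M'] [Algebra k K] [Fintype κ] [Fintype κ'] {L : Lv k M Λ κ n}
  {L' : Lv k M' Λ' κ' n'} {ι : M →ₐ[k] K} {ι' : M' →ₐ[k] K} {v : K} {e : ℕ}
  {Z : Set (Subalgebra k K)}

theorem yy_eq : yy L L' ι ι' =
    Sum.elim (fun i => ι (L.y i)) (fun i => ι' (L'.y i)) ∘ finSumFinEquiv.symm := by
  funext i
  change Fin.append (m := n + 2) (n := n' + 2) _ _ i = _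
  induction i using Fin.addCases (m := n + 2) (n := n' + 2) <;> simp

theorem range_yy : Set.range (yy L L' ι ι') = ι '' Set.range L.y ∪ ι' '' Set.range L'.y := by
  rw [yy_eq, (finSumFinEquiv (m := n + 2) (n := n' + 2)).symm.surjective.range_comp,
    Set.Sum.elim_range, ← Set.range_comp, ← Set.range_comp]
  rfl

theorem ind (h : Geo L L' ι ι' v e Z) : AlgebraicIndependent k (yy L L' ι ι') := by
  rw [yy_eq]
  exact (h.fld.ind _ _ _ _ h.ok.ind h.ok'.ind).comp _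
    (finSumFinEquiv (m := n + 2) (n := n' + 2)).symm.injective

theorem top (h : Geo L L' ι ι' v e Z) (q : e = 1) :
    IntermediateField.adjoin k (Set.range (yy L L' ι ι')) = ⊤ := by
  rw [range_yy]
  exact h.fld.top q _ _ h.ok.top h.ok'.top

theorem sep (h : Geo L L' ι ι' v e Z) :
    Algebra.IsSeparable (IntermediateField.adjoin k (Set.range (yy L L' ι ι'))) K := by
  rw [range_yy]
  exact h.fld.sep _ _ h.ok.top h.ok'.top

theorem prod_sN (O : Subalgebra k K) : ∏ i, sN L L' ι ι' i O =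
    (∏ i, sX L ι i O) / (∏ i, ∏ j, EE L L' ι ι' i j O) *
      ((∏ j, sX L' ι' j O) / ∏ i, ∏ j, EE L L' ι ι' i j O) := by
  rw [Fintype.prod_sum_type]
  simp only [sN, sC, Sum.elim_inl, Sum.elim_inr, Finset.prod_div_distrib, EE_symm L L' ι ι']
  rw [Finset.prod_comm (s := (Finset.univ : Finset κ'))]

theorem eqn (h : Geo L L' ι ι' v e Z) {O : Subalgebra k K} (hO : O ∈ Z) :
    AA L L' ι ι' v e O ^ e * ∏ i, sX L ι i O = ∏ j, sX L' ι' j O := by
  rw [Geo.prod_sX, Geo.prod_sX]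
  exact (h.lqO hO).eq

theorem wt_unit (h : Geo L L' ι ι' v 1 Z) {O : Subalgebra k K} (hO : O ∈ Z) :
    IsU O (wt 1 O (AA L L' ι ι' v 1 O) (∏ i, sX L ι i O) / ∏ i, ∏ j, EE L L' ι ι' i j O) := by
  unfold wt
  split_ifs with q
  · rw [Nat.sub_self, pow_zero, one_mul]
    exact h.pC hO q
  · have e := eqn h hO
    rw [pow_one] at e
    rw [e]
    exact h.pT hO ((h.aa O hO).resolve_left q)

theorem one (hD : Der) (h : Geo L L' ι ι' v 1 Z) (hv : XVol L L' ι ι' v 1 Z) :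
    (∀ O ∈ Z, Crd O (∏ i, sN L L' ι ι' i O)) ∧ ∃ j, j ≠ 0 ∧
      Vol Z (yy L L' ι ι') fun O => j / (nx L L' ι ι' v 1).jj O := by
  obtain ⟨j, j', hj, hj', hv⟩ := hv
  refine ⟨fun O hO => ?_, ι j * ι' j', mul_ne_zero ((map_ne_zero ι).2 hj) ((map_ne_zero ι').2 hj'),
    fun δ hδ O hO => ?_⟩
  · obtain ⟨δ, hδ⟩ := hD.ex k K _ (yy L L' ι ι') (ind h) (top h rfl)
    obtain ⟨c, h1, h2, h3⟩ := hv δ hδ O hO
    have h4 : ∀ t, t = AA L L' ι ι' v 1 O ∨ t = (AA L L' ι ι' v 1 O)⁻¹ → Crd O t :=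
      fun t ht hm => by
        obtain ⟨i, rfl⟩ := h3 t hm ht
        exact hD.dual k K _ O δ c h1 (right_ne_zero_of_mul h2.ne) i hm
    have e := eqn h hO
    have h0 := (h.lqO hO).ne
    rw [pow_one] at e
    rw [prod_sN]
    rcases h.aa O hO with q | q
    · have h5 := (h4 _ (.inl rfl)).of_unit (h.gX.loc O hO) q ((h.pC hO q).pow 2)
      rw [← e]
      refine Eq.subst (motive := Crd O) ?_ h5
      ring
    · have h5 := (h4 _ (.inr rfl)).of_unit (h.gX.loc O hO) q ((h.pT hO q).pow 2)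
      rw [← e] at h5 ⊢
      refine Eq.subst (motive := Crd O) ?_ h5
      field_simp
  · obtain ⟨c, h1, h2, -⟩ := hv δ hδ O hO
    have h3 := wt_unit h hO
    refine ⟨c, h1, Eq.subst (motive := IsU O) ?_ (h2.div h3)⟩
    obtain ⟨h4, h5⟩ := div_ne_zero_iff.1 h3.ne
    obtain ⟨h6, h7⟩ := mul_ne_zero_iff.1 (div_ne_zero_iff.1 (left_ne_zero_of_mul h2.ne)).2
    change _ = ι j * ι' j' / (up ι L.Y L.jj O * up ι' L'.Y L'.jj O /
      ∏ i, ∏ j, EE L L' ι ι' i j O) * dt δ c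
    field_simp

theorem two (h : Geo L L' ι ι' v 2 Z) (hv : XVol L L' ι ι' v 2 Z) :
    ∃ j, j ≠ 0 ∧ Vol Z (yy L L' ι ι') fun _ => j := by
  obtain ⟨j, j', hj, hj', hv⟩ := hv
  refine ⟨ι j * ι' j' * (v * ι L.φ), mul_ne_zero (mul_ne_zero ((map_ne_zero ι).2 hj)
    ((map_ne_zero ι').2 hj')) (mul_ne_zero h.ext.vne ((map_ne_zero ι).2 h.ext.ne)),
    fun δ hδ O hO => ?_⟩
  obtain ⟨c, h1, h2, -⟩ := hv δ hδ O hO
  refine ⟨c, h1, Eq.subst (motive := IsU O) (congrArg (· * dt δ c) ?_) h2⟩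
  have e1 : wt 2 O (AA L L' ι ι' v 2 O) (∏ i, sX L ι i O) =
      AA L L' ι ι' v 2 O * ∏ i, sX L ι i O := by
    unfold wt
    split_ifs
    · rw [pow_one]
    · rfl
  have e2 : AA L L' ι ι' v 2 O =
    v * (ι' (L'.jj (pr ι' L'.Y O)) / ι (L.jj (pr ι L.Y O))) ^ 1 := rfl
  have e3 : up ι L.Y L.jj O = ι (L.jj (pr ι L.Y O)) := rfl
  have e4 : up ι' L'.Y L'.jj O = ι' (L'.jj (pr ι' L'.Y O)) := rfl
  obtain ⟨h6, h7⟩ := mul_ne_zero_iff.1 (div_ne_zero_iff.1 (left_ne_zero_of_mul h2.ne)).2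
  rw [e3] at h6
  rw [e4] at h7
  rw [e1, Geo.prod_sX, ← h.ok.eqn _ (h.maps.mem hO), e3, e4, e2, map_mul, map_pow]
  field_simp

end NxbR

theorem nxb_stmt : NxbStmt := fun hD _ _ _ _ _ _ _ _ _ _ _ _ _ _ _ _ _ _ _ _ _ _ _ _ _ _ _ h =>
  ⟨⟨NxbR.ind h, NxbR.sep h, NxbR.top h⟩, fun hv =>
    ⟨by rintro rfl; exact NxbR.one hD h hv, by rintro rfl; exact NxbR.two h hv⟩⟩

end Pool.Agent.MP_20d318_ag.KK
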