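import Pool.Agent.MP_20d318_ag.KK.LSpec

/-! The nef cone of the blow-up of a product. -/

set_option autoImplicit false

namespace Pool.Agent.MP_20d318_ag.KK

open Pool.Agent.MP_20d318_ag.Lat hiding act actW W
open Pool.Agent.MP_20d318_ag.CH

universe u v

namespace Pa

variable {V : Type u} {𝒞 : Type v} {κ κ' : Type} [AddCommGroup V] [Module ℝ V] [Fintype κ]
  {N : Nd V 𝒞 κ}

/-- One divisor can be subtracted alone. -/
theorem one (h : Dich N) {L : V} {a : κ → ℝ} (hL : L ∈ N.Nef)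
    (ha : L - ∑ i, a i • N.c i ∈ N.Nef) (a0 : ∀ i, 0 ≤ a i) (i : κ) : L - a i • N.c i ∈ N.Nef := by
  classical
  have := h.mid hL ha (b := fun i' => if i' = i then a i else 0)
    (fun i' => by split_ifs; exacts [a0 i, le_rfl])
    fun i' => by split_ifs with e; exacts [e ▸ le_rfl, a0 i']
  simpa using this

/-- The class itself is nef. -/
theorem nef {L : V} {a : κ → ℝ} (a0 : ∀ i, 0 ≤ a i) (ha : L - ∑ i, a i • N.c i ∈ N.Nef)
    (hb : ∀ ν i, N.d ν (N.c i) < 0 → 0 ≤ N.d ν L) : L ∈ N.Nef := fun ν => by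
  by_cases hc : ∃ i, N.d ν (N.c i) < 0
  · obtain ⟨i, hi⟩ := hc
    exact hb ν i hi
  · push Not at hc
    have h1 := ha ν
    rw [d_sub] at h1
    have := Finset.sum_nonneg fun i (_ : i ∈ Finset.univ) => mul_nonneg (a0 i) (hc i)
    linarith

/-- Half of the maxima of the rows. -/
theorem half [Fintype κ'] [Nonempty κ'] (l : Lw N) {L : V} {a ε : κ → κ' → ℝ} (hL : L ∈ N.Nef)
    (a0 : ∀ i j, 0 ≤ a i j) (ha : ∀ j, L - ∑ i, a i j • N.c i ∈ N.Nef) {ν : 𝒞}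
    (e1 : ∀ i, ∑ j, ε i j ≤ N.d ν (N.c i)) :
    ∃ x : κ → ℝ, (∀ i j, a i j ≤ x i) ∧ ∑ i, ∑ j, x i * ε i j ≤ 2 * N.d ν L := by
  choose m hm using fun i => Finite.exists_max (a i)
  refine ⟨fun i => a i (m i), hm, ?_⟩
  have h1 := l.hf.cur ν L hL (fun i => a i (m i)) (fun i => a0 i _) fun i =>
    one l.dich hL (ha (m i)) (fun i' => a0 i' _) i
  rw [d_sub, map_smul, smul_eq_mul] at h1
  refine le_trans (Finset.sum_le_sum fun i _ => ?_) (sub_nonneg.1 h1)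
  rw [← Finset.mul_sum]
  exact mul_le_mul_of_nonneg_left (e1 i) (a0 i _)

end Pa

theorem pa_stmt : PaStmt.{u, v} := by
  classical
  intro V V' V'' 𝒞 𝒞' 𝒞'' κ κ' _ _ _ _ _ _ _ _ N N' N'' Φ h D
  obtain ⟨i₀⟩ := h.l.ne
  obtain ⟨j₀⟩ := h.l'.ne
  refine ⟨fun hD => ?_, fun hD μ => ?_⟩
  · have a0 : ∀ i j, 0 ≤ D.2.2 i j := fun i j => by
      obtain ⟨μ, n, hn, e⟩ := h.tE i j
      exact (mul_nonneg_iff_of_pos_left hn).1 (e D ▸ hD μ)
    have c0 : ∀ j, D.1 - ∑ i, D.2.2 i j • N.c i ∈ N.Nef := fun j ν => by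
      obtain ⟨μ, e⟩ := h.tT ν j
      exact e D ▸ hD μ
    have c1 : ∀ i, D.2.1 - ∑ j, D.2.2 i j • N'.c j ∈ N'.Nef := fun i ν => by
      obtain ⟨μ, e⟩ := h.tT' ν i
      exact e D ▸ hD μ
    refine ⟨a0, Pa.nef (a0 · j₀) (c0 j₀) fun ν i hi => ?_,
      Pa.nef (a0 i₀) (c1 i₀) fun ν j hj => ?_, c0, c1⟩
    · obtain ⟨μ, e⟩ := h.tB ν i hi
      exact e D ▸ hD μ
    · obtain ⟨μ, e⟩ := h.tB' ν j hj
      exact e D ▸ hD μ
  · obtain ⟨ν, ν', ε, ty, e⟩ := h.cur μ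
    obtain ⟨a0, l0, l0', c0, c1⟩ := hD
    have l1 := l0 ν
    have l1' := l0' ν'
    rw [e D]
    rcases ty with ⟨j, -, he⟩ | ⟨i, -, he⟩ | ⟨i, j, -, -, e0, -, he⟩ | ⟨e0, e1, e2⟩
    · have h1 := c0 j ν
      rw [d_sub] at h1
      have h2 : ∑ i, ∑ j', D.2.2 i j' * ε i j' = ∑ i, D.2.2 i j * N.d ν (N.c i) := by simp [he]
      linarith
    · have h1 := c1 i ν'
      rw [d_sub] at h1
      have h2 : ∑ i', ∑ j, D.2.2 i' j * ε i' j = ∑ j, D.2.2 i j * N'.d ν' (N'.c j) := by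
        rw [Finset.sum_comm]; simp [he]
      linarith
    · have h1 := Pa.one h.l.dich l0 (c0 j) (a0 · j) i ν
      rw [map_sub, map_smul, smul_eq_mul] at h1
      have h2 : ∑ i', ∑ j', D.2.2 i' j' * ε i' j' = D.2.2 i j * ε i j := by
        rw [Finset.sum_eq_single i (fun i' _ hi => Finset.sum_eq_zero fun j' _ => by
          rw [he i' j' fun k => hi k.1, mul_zero]) (by simp),
          Finset.sum_eq_single j (fun j' _ hj => by rw [he i j' fun k => hj k.2, mul_zero])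
            (by simp)]
      have := mul_le_mul_of_nonneg_left e0 (a0 i j)
      linarith
    · have : Nonempty κ := ⟨i₀⟩
      have : Nonempty κ' := ⟨j₀⟩
      obtain ⟨x, x1, x2⟩ := Pa.half h.l l0 a0 c0 e1
      obtain ⟨y, y1, y2⟩ := Pa.half (a := fun j i => D.2.2 i j) (ε := fun j i => ε i j) h.l' l0'
        (fun j i => a0 i j) c1 e2
      rw [Finset.sum_comm] at y2
      have h2 : ∑ i, ∑ j, 2 * (D.2.2 i j * ε i j) ≤ ∑ i, ∑ j, (x i * ε i j + y j * ε i j) :=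
        Finset.sum_le_sum fun i _ => Finset.sum_le_sum fun j _ => by
          have := mul_le_mul_of_nonneg_right (x1 i j) (e0 i j)
          have := mul_le_mul_of_nonneg_right (y1 j i) (e0 i j)
          linarith
      simp only [Finset.sum_add_distrib, ← Finset.mul_sum] at h2 x2
      linarith

end Pool.Agent.MP_20d318_ag.KK
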