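import Pool.Agent.MP_20d318_ag.KK.LSpec
import Pool.Agent.MP_20d318_ag.CH.N1b

/-! Effectivity and the span on the blow-up of a product. -/

set_option autoImplicit false
set_option linter.unusedSectionVars false

namespace Pool.Agent.MP_20d318_ag.KK

open Pool.Agent.MP_20d318_ag.Lat hiding act actW W
open Pool.Agent.MP_20d318_ag.CH

universe u v

namespace Pb

variable {V V' V'' : Type u} {𝒞 𝒞' 𝒞'' : Type v} {κ κ' : Type} [AddCommGroup V] [Module ℝ V]
  [AddCommGroup V'] [Module ℝ V'] [AddCommGroup V''] [Module ℝ V''] [Fintype κ] [Fintype κ']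
  {N : Nd V 𝒞 κ} {N' : Nd V' 𝒞' κ'} {N'' : Nd V'' 𝒞'' (κ ⊕ κ')} {Φ : WP V V' κ κ' →ₗ[ℝ] V''}

theorem ident (N : Nd V 𝒞 κ) (N' : Nd V' 𝒞' κ') (D : WP V V' κ κ') (x : κ → ℝ) (y : κ' → ℝ) :
    D = (D.1 - ∑ i, x i • N.c i, 0, 0) + (0, D.2.1 - ∑ j, y j • N'.c j, 0) +
      ∑ i, x i • stW N N' (Sum.inl i) + ∑ j, y j • stW N N' (Sum.inr j) +
      ∑ i, ∑ j, (x i + y j - D.2.2 i j) • exW i j := by
  classical
  refine Prod.ext ?_ (Prod.ext ?_ (funext₂ fun i j => ?_))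
  · simp [Prod.fst_sum, stW, exW]
  · simp [Prod.fst_sum, Prod.snd_sum, stW, exW]
  · simp [Prod.snd_sum, stW, exW, Finset.sum_apply, ite_and]

theorem eff (h : Stp N N' N'' Φ) {D : WP V V' κ κ'} {x : κ → ℝ} {y : κ' → ℝ} (x0 : ∀ i, 0 ≤ x i)
    (y0 : ∀ j, 0 ≤ y j) (xy : ∀ i j, D.2.2 i j ≤ x i + y j)
    (hx : D.1 - ∑ i, x i • N.c i ∈ N.Ef) (hy : D.2.1 - ∑ j, y j • N'.c j ∈ N'.Ef) :
    Φ D ∈ N''.Ef := by
  have c := h.b''.cone
  rw [ident N N' D x y]
  simp only [map_add, map_sum, map_smul]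
  exact c.add _ (c.add _ (c.add _ (c.add _ (h.eL _ hx) _ (h.eL' _ hy)) _
    (c.sum_mem _ _ fun i _ => c.smul _ (x0 i) _ (h.cc _ ▸ h.eC _))) _
    (c.sum_mem _ _ fun j _ => c.smul _ (y0 j) _ (h.cc _ ▸ h.eC _))) _
    (c.sum_mem _ _ fun i _ => c.sum_mem _ _ fun j _ =>
      c.smul _ (sub_nonneg.2 (xy i j)) _ (h.eE i j))

theorem one (h : Dich N) {L : V} {a : κ → ℝ} (hL : L ∈ N.Nef) (a0 : ∀ i, 0 ≤ a i)
    (ha : L - ∑ i, a i • N.c i ∈ N.Nef) (i : κ) : L - a i • N.c i ∈ N.Nef := by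
  classical
  have := h.mid hL ha (b := fun i' => if i' = i then a i else 0)
    (fun i' => by split_ifs; exacts [a0 i, le_rfl])
    (fun i' => by
      split_ifs with e
      exacts [e ▸ le_rfl, a0 i'])
  simpa only [ite_smul, zero_smul, Finset.sum_ite_eq', Finset.mem_univ, if_true] using this

/-- the maxima of the rows -/
theorem half {α : Type} [Fintype α] [Nonempty α] (l : Lw N) {L : V} {a : κ → α → ℝ}
    (hL : L ∈ N.Nef) (hΛ : L ∈ N.Λ) (a0 : ∀ i j, 0 ≤ a i j) (aZ : ∀ i j, IZ (a i j))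
    (ha : ∀ j, L - ∑ i, a i j • N.c i ∈ N.Nef) : ∃ x : κ → ℝ, (∀ i, 0 ≤ x i) ∧
      (∀ i j, a i j ≤ x i) ∧ (2 : ℝ) • L - ∑ i, x i • N.c i ∈ N.Ef := by
  choose m hm using fun i => Finite.exists_max (a i)
  exact ⟨fun i => a i (m i), fun i => a0 i _, hm, l.hf.eff L hL hΛ _ (fun i => a0 i _)
    (fun i => aZ i _) fun i => one l.dich hL (fun i' => a0 i' _) (ha (m i)) i⟩

theorem efz (h : Stp N N' N'' Φ) : EfZ N N' N'' Φ := by
  intro D hD hW
  have := h.l.ne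
  have := h.l'.ne
  obtain ⟨x, x0, xa, hx⟩ := half h.l hD.2.1 hW.1 hD.1 hW.2.2 hD.2.2.2.1
  obtain ⟨y, y0, ya, hy⟩ := half (a := fun j i => D.2.2 i j) h.l' hD.2.2.1 hW.2.1
    (fun j i => hD.1 i j) (fun j i => hW.2.2 i j) hD.2.2.2.2
  have h2 := eff h (D := (2 : ℝ) • D) x0 y0 (fun i j => by
    have e : ((2 : ℝ) • D).2.2 i j = 2 * D.2.2 i j := rfl
    rw [e]
    linarith [xa i j, ya j i]) hx hy
  have h3 := h.b''.cone.smul (1 / 2) (by norm_num) _ h2
  rwa [map_smul, smul_smul, show (1 / 2 : ℝ) * 2 = 1 by norm_num, one_smul] at h3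

theorem surj (h : Stp N N' N'' Φ) : Function.Surjective Φ := by
  rw [← LinearMap.range_eq_top, eq_top_iff, ← h.spn, Submodule.span_le]
  intro x hx
  obtain ⟨n, hn, D, -, e⟩ := h.cls x hx
  have : (n : ℝ) ≠ 0 := by exact_mod_cast hn.ne'
  exact ⟨(n : ℝ)⁻¹ • D, by rw [map_smul, ← e, smul_smul, inv_mul_cancel₀ this, one_smul]⟩

theorem spn (h : Stp N N' N'' Φ) (hn : NefEq N N' N'' Φ) : Spn N'' := by
  classical
  set S := Submodule.span ℝ (N''.Nef ∩ N''.Ef)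
  have z := N.isCone_nef.zero
  have z' := N'.isCone_nef.zero
  have s1 : ∀ L : V, Φ (L, 0, 0) ∈ S := fun L => by
    have : (⊤ : Submodule ℝ V) ≤ S.comap (Φ.comp (LinearMap.inl ℝ V _)) := by
      rw [← show _ = ⊤ from h.l.spn, Submodule.span_le]
      exact fun L hL => Submodule.subset_span ⟨(hn (L, 0, 0)).2
        ⟨fun _ _ => le_rfl, hL.1, z', by simpa using fun _ => hL.1, by simpa using fun _ => z'⟩,
        h.eL L hL.2⟩
    exact this (x := L) trivial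
  have s2 : ∀ L : V', Φ (0, L, 0) ∈ S := fun L => by
    have : (⊤ : Submodule ℝ V') ≤
        S.comap (Φ.comp ((LinearMap.inr ℝ V _).comp (LinearMap.inl ℝ V' _))) := by
      rw [← show _ = ⊤ from h.l'.spn, Submodule.span_le]
      exact fun L hL => Submodule.subset_span ⟨(hn (0, L, 0)).2
        ⟨fun _ _ => le_rfl, z, hL.1, by simpa using fun _ => z, by simpa using fun _ => hL.1⟩,
        h.eL' L hL.2⟩
    exact this (x := L) trivial
  have s3 : ∀ i j, Φ (exW i j) ∈ S := fun i j => by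
    obtain ⟨A, hA, B, hB, e⟩ := N1b.diff (N.isCone_nef.inter h.b.cone) (w := N.c i)
      (by rw [show _ = ⊤ from h.l.spn]; trivial)
    obtain ⟨A', hA', B', hB', e'⟩ := N1b.diff (N'.isCone_nef.inter h.b'.cone) (w := N'.c j)
      (by rw [show _ = ⊤ from h.l'.spn]; trivial)
    have eB : A - N.c i = B := by rw [e, sub_sub_cancel]
    have eB' : A' - N'.c j = B' := by rw [e', sub_sub_cancel]
    let D : WP V V' κ κ' := (A, A', fun i' j' => if i' = i ∧ j' = j then 1 else 0)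
    have a0 : ∀ i' j', 0 ≤ D.2.2 i' j' := fun i' j' => by
      simp only [D]
      split_ifs <;> norm_num
    have m : Φ D ∈ S := Submodule.subset_span ⟨(hn D).2 ⟨a0, hA.1, hA'.1, fun j' => ?_, fun i' => ?_⟩,
      eff h (x := fun i' => if i' = i then 1 else 0) (y := 0) (fun i' => ?_) (fun _ => le_rfl)
        (fun i' j' => ?_) (by simpa [D, ite_smul, eB] using hB.2) (by simpa [D] using hA'.2)⟩
    · have e2 : exW i j = (A, 0, 0) + (0, A', 0) - D := by
        refine Prod.ext (by simp [exW, D]) (Prod.ext (by simp [exW, D]) (funext₂ fun i' j' => ?_))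
        simp only [exW, D, Prod.snd_sub, Prod.snd_add, Pi.sub_apply, Pi.add_apply, Pi.zero_apply]
        split_ifs <;> norm_num
      rw [e2, map_sub, map_add]
      exact S.sub_mem (S.add_mem (s1 A) (s2 A')) m
    · by_cases hj : j' = j
      · simpa [D, hj, ite_smul, eB] using hB.1
      · simpa [D, hj] using hA.1
    · by_cases hi : i' = i
      · simpa [D, hi, ite_smul, eB'] using hB'.1
      · simpa [D, hi] using hA'.1
    · split_ifs <;> norm_num
    · by_cases hi : i' = i <;> by_cases hj : j' = j <;> simp [D, hi, hj]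
  refine eq_top_iff.2 fun w _ => ?_
  obtain ⟨D, rfl⟩ := surj h w
  rw [ident N N' D 0 0]
  simp only [map_add, map_sum, map_smul, Pi.zero_apply, zero_smul, Finset.sum_const_zero, add_zero]
  exact S.add_mem (S.add_mem (s1 _) (s2 _))
    (S.sum_mem fun i _ => S.sum_mem fun j _ => S.smul_mem _ (s3 i j))

end Pb

theorem pb_stmt : PbStmt.{u, v} := by
  classical
  intro V V' V'' 𝒞 𝒞' 𝒞'' κ κ' _ _ _ _ _ _ _ _ N N' N'' Φ h hn
  have := h.l.fd
  have := h.l'.fd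
  refine ⟨Pb.efz h, Pb.spn h hn, Module.Finite.of_surjective Φ (Pb.surj h), ?_⟩
  rintro (i | j)
  · rw [h.cc]
    exact h.lat _ ⟨h.l.cΛ i, N'.Λ.zero_mem, fun _ _ => IZ.ite IZ.one IZ.zero⟩
  · rw [h.cc]
    exact h.lat _ ⟨N.Λ.zero_mem, h.l'.cΛ j, fun _ _ => IZ.ite IZ.one IZ.zero⟩

end Pool.Agent.MP_20d318_ag.KK
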