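import Pool.Agent.MP_20d318_ag.KK.LSpec

/-! Row PC: the subtraction on the blow-up of a product. -/

set_option autoImplicit false
set_option linter.unusedSectionVars false

namespace Pool.Agent.MP_20d318_ag.KK

open Pool.Agent.MP_20d318_ag.Lat hiding act actW W
open Pool.Agent.MP_20d318_ag.CH

universe u v

namespace Pc

variable {V V' V'' : Type u} {𝒞 𝒞' 𝒞'' : Type v} {κ κ' : Type} [AddCommGroup V] [Module ℝ V]
  [AddCommGroup V'] [Module ℝ V'] [AddCommGroup V''] [Module ℝ V''] [Fintype κ] [Fintype κ']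
  {N : Nd V 𝒞 κ} {N' : Nd V' 𝒞' κ'} {N'' : Nd V'' 𝒞'' (κ ⊕ κ')} {Φ : WP V V' κ κ' →ₗ[ℝ] V''}

variable (N N') in
/-- The class that remains. -/
noncomputable def rem (D : WP V V' κ κ') (x : κ ⊕ κ' → ℝ) : WP V V' κ κ' :=
  (D.1 - ∑ i, x (.inl i) • N.c i, D.2.1 - ∑ j, x (.inr j) • N'.c j,
    fun i j => max (D.2.2 i j - x (.inl i) - x (.inr j)) 0)

theorem ident (D : WP V V' κ κ') (x : κ ⊕ κ' → ℝ) :
    D = rem N N' D x + ∑ k, x k • stW N N' k +
      ∑ i, ∑ j, ((rem N N' D x).2.2 i j - (D.2.2 i j - x (.inl i) - x (.inr j))) •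
        (exW i j : WP V V' κ κ') := by
  classical
  rw [Fintype.sum_sum_type]
  refine Prod.ext ?_ (Prod.ext ?_ ?_)
  · simp [Prod.fst_sum, stW, exW, rem]
  · simp [Prod.fst_sum, Prod.snd_sum, stW, exW, rem]
  · funext i j
    simp [Prod.snd_sum, Finset.sum_apply, stW, exW, ite_and]
    ring

theorem key (h : Stp N N' N'' Φ) {Q : Set V''} (hQ : IsCone Q) (h3 : ∀ i j, Φ (exW i j) ∈ Q)
    (h4 : ∀ k, N''.c k ∈ Q) {D : WP V V' κ κ'} {x : κ ⊕ κ' → ℝ} (x0 : ∀ k, 0 ≤ x k)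
    (h1 : Φ (rem N N' D x) ∈ Q) : SKc N'' Q (Φ D) x := by
  classical
  obtain ⟨i₀⟩ := h.l.ne
  refine ⟨.inl i₀, ?_⟩
  have e := congrArg Φ (ident (N := N) (N' := N') D x)
  simp only [map_add, map_sum, map_smul, ← h.cc] at e
  have e1 : ∀ (inst : DecidableEq (κ ⊕ κ')),
      Φ D - ∑ k ∈ @Finset.erase _ inst Finset.univ (.inl i₀), x k • N''.c k =
      Φ (rem N N' D x) + x (.inl i₀) • N''.c (.inl i₀) +
        ∑ i, ∑ j, ((rem N N' D x).2.2 i j - (D.2.2 i j - x (.inl i) - x (.inr j))) •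
          Φ (exW i j) := by
    intro inst
    rw [Finset.sum_erase_eq_sub (Finset.mem_univ _)]
    conv_lhs => rw [e]
    abel
  rw [e1]
  exact hQ.add _ (hQ.add _ h1 _ (hQ.smul _ (x0 _) _ (h4 _))) _
    (hQ.sum_mem _ _ fun i _ => hQ.sum_mem _ _ fun j _ =>
      hQ.smul _ (sub_nonneg.2 (le_max_left _ _)) _ (h3 i j))

theorem rem_nl (h : Stp N N' N'' Φ) (hne : NefEq N N' N'' Φ) {D : WP V V' κ κ'}
    (hD : D ∈ NL N N') {x : κ ⊕ κ' → ℝ} (x0 : ∀ k, 0 ≤ x k)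
    (hx : ∀ k, Φ D - x k • N''.c k ∈ N''.Nef) : rem N N' D x ∈ NL N N' := by
  have a1 : ∀ i j, x (.inl i) ≤ D.2.2 i j := fun i j => by
    have t := hx (.inl i)
    rw [h.cc, ← map_smul, ← map_sub, hne] at t
    simpa [stW] using t.1 i j
  have a2 : ∀ i j, x (.inr j) ≤ D.2.2 i j := fun i j => by
    have t := hx (.inr j)
    rw [h.cc, ← map_smul, ← map_sub, hne] at t
    simpa [stW] using t.1 i j
  obtain ⟨i₀⟩ := h.l.ne
  obtain ⟨j₀⟩ := h.l'.ne
  refine ⟨fun i j => le_max_right _ _,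
    h.l.dich.mid hD.2.1 (hD.2.2.2.1 j₀) (fun i => x0 _) fun i => a1 i j₀,
    h.l'.dich.mid hD.2.2.1 (hD.2.2.2.2 i₀) (fun j => x0 _) fun j => a2 i₀ j, fun j => ?_,
    fun i => ?_⟩
  · have t := h.l.dich.mid hD.2.1 (hD.2.2.2.1 j)
      (b := fun i => x (.inl i) + (rem N N' D x).2.2 i j)
      (fun i => add_nonneg (x0 _) (le_max_right _ _)) fun i => by
        have := max_le (a := D.2.2 i j - x (.inl i) - x (.inr j)) (b := 0)
          (c := D.2.2 i j - x (.inl i)) (sub_le_self _ (x0 _)) (sub_nonneg.2 (a1 i j))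
        exact le_sub_iff_add_le'.1 this
    simp only [add_smul, Finset.sum_add_distrib, ← sub_sub] at t
    exact t
  · have t := h.l'.dich.mid hD.2.2.1 (hD.2.2.2.2 i)
      (b := fun j => x (.inr j) + (rem N N' D x).2.2 i j)
      (fun j => add_nonneg (x0 _) (le_max_right _ _)) fun j => by
        have := max_le (a := D.2.2 i j - x (.inl i) - x (.inr j)) (b := 0)
          (c := D.2.2 i j - x (.inr j)) (sub_le_sub_right (sub_le_self _ (x0 _)) _)
          (sub_nonneg.2 (a2 i j))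
        exact le_sub_iff_add_le'.1 this
    simp only [add_smul, Finset.sum_add_distrib, ← sub_sub] at t
    exact t

theorem rem_lw (h : Stp N N' N'' Φ) {D : WP V V' κ κ'} (hD : D ∈ LW N N') {x : κ ⊕ κ' → ℝ}
    (xz : ∀ k, IZ (x k)) : rem N N' D x ∈ LW N N' := by
  refine ⟨N.Λ.sub_mem hD.1 (N.Λ.sum_mem fun i _ => (xz _).smul_mem (h.l.cΛ i)),
    N'.Λ.sub_mem hD.2.1 (N'.Λ.sum_mem fun j _ => (xz _).smul_mem (h.l'.cΛ j)), fun i j => ?_⟩
  rcases max_choice (D.2.2 i j - x (.inl i) - x (.inr j)) 0 with e | e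
  · exact Eq.subst (motive := IZ) e.symm (((hD.2.2 i j).sub (xz _)).sub (xz _))
  · exact Eq.subst (motive := IZ) e.symm IZ.zero

/-- The types of curves. -/
theorem types (h : Stp N N' N'' Φ) (μ : 𝒞'') :
    (∃ a b, ∀ k, k ≠ a → k ≠ b → N''.d μ (N''.c k) = 0) ∨
      (∀ k, 0 ≤ N''.d μ (N''.c k)) ∧ ∀ i j, 0 ≤ N''.d μ (Φ (exW i j)) := by
  classical
  obtain ⟨ν, ν', ε, ht, hd⟩ := h.cur μ
  have d1 : ∀ i, N''.d μ (N''.c (.inl i)) = N.d ν (N.c i) - ∑ j, ε i j := fun i => by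
    rw [h.cc, hd]
    simp [stW]
  have d2 : ∀ j, N''.d μ (N''.c (.inr j)) = N'.d ν' (N'.c j) - ∑ i, ε i j := fun j => by
    rw [h.cc, hd]
    simp [stW]
  have d3 : ∀ i j, N''.d μ (Φ (exW i j)) = ε i j := fun i j => by
    rw [hd]
    simp [exW, ite_and]
  rcases ht with ⟨j, hj, he⟩ | ⟨i, hi, he⟩ | ⟨i, j, hi, hj, -, -, he⟩ | ⟨e0, e1, e2⟩
  · refine Or.inl ⟨.inr j, .inr j, ?_⟩
    rintro (i | j') hk -
    · simp [d1, he]
    · have : j' ≠ j := fun e => hk (by rw [e])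
      simp [d2, he, hj j' this, this]
  · refine Or.inl ⟨.inl i, .inl i, ?_⟩
    rintro (i' | j) hk -
    · have : i' ≠ i := fun e => hk (by rw [e])
      simp [d1, he, hi i' this, this]
    · simp [d2, he]
  · refine Or.inl ⟨.inl i, .inr j, ?_⟩
    rintro (i' | j') ha hb
    · have : i' ≠ i := fun e => ha (by rw [e])
      rw [d1, hi i' this, Finset.sum_eq_zero fun j' _ => he i' j' fun e => this e.1, sub_zero]
    · have : j' ≠ j := fun e => hb (by rw [e])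
      rw [d2, hj j' this, Finset.sum_eq_zero fun i' _ => he i' j' fun e => this e.2, sub_zero]
  · refine Or.inr ⟨?_, fun i j => by rw [d3]; exact e0 i j⟩
    rintro (i | j)
    · rw [d1]
      exact sub_nonneg.2 (e1 i)
    · rw [d2]
      exact sub_nonneg.2 (e2 j)

theorem surj (h : Stp N N' N'' Φ) : Function.Surjective Φ := by
  rw [← LinearMap.range_eq_top, eq_top_iff, ← h.spn, Submodule.span_le]
  intro x hx
  obtain ⟨n, hn, D, -, e⟩ := h.cls x hx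
  exact ⟨(n : ℝ)⁻¹ • D, by
    rw [map_smul, ← e, smul_smul, inv_mul_cancel₀ (Nat.cast_pos.2 hn).ne', one_smul]⟩

end Pc

theorem pc_stmt : PcStmt.{u, v} := by
  intro V V' V'' 𝒞 𝒞' 𝒞'' κ κ' _ _ _ _ _ _ _ _ N N' N'' Φ h hne hef
  refine ⟨fun μ L hL x x0 hx => ?_, fun L hL hΛ x x0 xz hx => ?_⟩
  · rcases Pc.types h μ with ⟨a, b, hab⟩ | ⟨h1, h2⟩
    · exact skc_few hL hx hab
    · obtain ⟨D, rfl⟩ := Pc.surj h L
      refine Pc.key h ⟨by simp, fun a ha b hb => ?_, fun c hc a ha => ?_⟩ h2 h1 x0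
        ((hne _).2 (Pc.rem_nl h hne ((hne D).1 hL) x0 hx) μ)
      · change 0 ≤ N''.d μ _
        rw [map_add]
        exact add_nonneg ha hb
      · change 0 ≤ N''.d μ _
        rw [map_smul]
        exact mul_nonneg hc ha
  · obtain ⟨n, hn, D, hD, e⟩ := h.cls L hΛ
    have n0 : (0 : ℝ) < n := Nat.cast_pos.2 hn
    have hx' : ∀ k, Φ D - ((n : ℝ) * x k) • N''.c k ∈ N''.Nef := fun k => by
      rw [← e, mul_smul, ← smul_sub]
      exact N''.isCone_nef.smul _ n0.le _ (hx k)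
    have hD' : Φ D ∈ N''.Nef := e ▸ N''.isCone_nef.smul _ n0.le _ hL
    have y0 : ∀ k, 0 ≤ (n : ℝ) * x k := fun k => mul_nonneg n0.le (x0 k)
    obtain ⟨i₀, hi⟩ := Pc.key h (x := fun k => (n : ℝ) * x k) h.b''.cone h.eE h.eC y0
      (hef _ (Pc.rem_nl h hne ((hne D).1 hD') y0 hx')
        (Pc.rem_lw h hD fun k => (IZ.nat n).mul (xz k)))
    refine ⟨i₀, ?_⟩
    have := h.b''.cone.smul _ (inv_nonneg.2 n0.le) _ hi
    simp only [← e, mul_smul, ← Finset.smul_sum, ← smul_sub] at this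
    rwa [smul_smul, inv_mul_cancel₀ n0.ne', one_smul] at this

end Pool.Agent.MP_20d318_ag.KK
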