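import Pool.Agent.MP_20d318_ag.KK.LSpec

/-! Row PD: the dichotomy and finitely many curves on the blow-up of a product. -/

set_option autoImplicit false
set_option linter.unusedSectionVars false

namespace Pool.Agent.MP_20d318_ag.KK

open Pool.Agent.MP_20d318_ag.Lat hiding act actW W
open Pool.Agent.MP_20d318_ag.CH

universe u v

namespace Pd

variable {V V' V'' : Type u} {𝒞 𝒞' 𝒞'' : Type v} {κ κ' : Type} [AddCommGroup V] [Module ℝ V]
  [AddCommGroup V'] [Module ℝ V'] [AddCommGroup V''] [Module ℝ V''] [Fintype κ] [Fintype κ']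
  {N : Nd V 𝒞 κ} {N' : Nd V' 𝒞' κ'} {N'' : Nd V'' 𝒞'' (κ ⊕ κ')} {Φ : WP V V' κ κ' →ₗ[ℝ] V''}

theorem surj (h : Stp N N' N'' Φ) : Function.Surjective Φ := by
  rw [← LinearMap.range_eq_top, eq_top_iff, ← h.spn, Submodule.span_le]
  intro x hx
  obtain ⟨n, hn, D, -, e⟩ := h.cls x hx
  exact ⟨(n : ℝ)⁻¹ • D, by
    rw [map_smul, ← e, smul_smul, inv_mul_cancel₀ (Nat.cast_pos.2 hn).ne', one_smul]⟩

theorem ident (N : Nd V 𝒞 κ) (N' : Nd V' 𝒞' κ') (D : WP V V' κ κ') (z : κ ⊕ κ' → ℝ) :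
    D - ∑ k, z k • stW N N' k = (D.1 - ∑ i, z (.inl i) • N.c i, D.2.1 - ∑ j, z (.inr j) • N'.c j,
      fun i j => D.2.2 i j - z (.inl i) - z (.inr j)) := by
  classical
  rw [Fintype.sum_sum_type]
  refine Prod.ext ?_ (Prod.ext ?_ ?_)
  · simp [Prod.fst_sum, stW]
  · simp [Prod.fst_sum, Prod.snd_sum, stW]
  · funext i j
    simp [Prod.snd_sum, Finset.sum_apply, stW, sub_sub]

theorem dich (h : Stp N N' N'' Φ) : Dich N'' := by
  classical
  intro μ
  obtain ⟨ν, ν', ε, ht, hd⟩ := h.cur μ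
  have d1 : ∀ i, N''.d μ (N''.c (.inl i)) = N.d ν (N.c i) - ∑ j, ε i j := fun i => by
    rw [h.cc, hd]
    simp [stW]
  have d2 : ∀ j, N''.d μ (N''.c (.inr j)) = N'.d ν' (N'.c j) - ∑ i, ε i j := fun j => by
    rw [h.cc, hd]
    simp [stW]
  rcases ht with ⟨j, hτ, he⟩ | ⟨i, hi, he⟩ | ⟨i, j, hi, hj, e0, e1, he⟩ | ⟨e0, e1, e2⟩
  · refine Or.inr ⟨.inr j, ?_⟩
    rintro (i | j') hk
    · simp [d1, he]
    · have : j' ≠ j := fun e => hk (by rw [e])
      simp [d2, he, hτ j' this, this]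
  · refine Or.inr ⟨.inl i, ?_⟩
    rintro (i' | j) hk
    · have : i' ≠ i := fun e => hk (by rw [e])
      simp [d1, he, hi i' this, this]
    · simp [d2, he]
  · have r1 : ∑ j', ε i j' = ε i j :=
      Finset.sum_eq_single j (fun j' _ hj => he i j' fun e => hj e.2) (by simp)
    have r2 : ∑ i', ε i' j = ε i j :=
      Finset.sum_eq_single i (fun i' _ hi' => he i' j fun e => hi' e.1) (by simp)
    refine Or.inl ?_
    rintro (i' | j')
    · by_cases e : i' = i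
      · rw [e, d1, r1]
        exact sub_nonneg.2 e0
      · rw [d1, hi i' e, Finset.sum_eq_zero fun j' _ => he i' j' fun k => e k.1, sub_zero]
    · by_cases e : j' = j
      · rw [e, d2, r2]
        exact sub_nonneg.2 e1
      · rw [d2, hj j' e, Finset.sum_eq_zero fun i' _ => he i' j' fun k => e k.2, sub_zero]
  · refine Or.inl ?_
    rintro (i | j)
    · rw [d1]
      exact sub_nonneg.2 (e1 i)
    · rw [d2]
      exact sub_nonneg.2 (e2 j)

end Pd

theorem pd_stmt : PdStmt.{u, v} := by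
  intro V V' V'' 𝒞 𝒞' 𝒞'' κ κ' _ _ _ _ _ _ _ _ N N' N'' Φ h hne
  refine ⟨Pd.dich h, ?_⟩
  choose νE nE nE0 hE using h.tE
  refine ⟨Set.range fun p : κ × κ' => νE p.1 p.2, Set.finite_range _, fun L hL z z0 hz => ?_⟩
  obtain ⟨D, rfl⟩ := Pd.surj h L
  obtain ⟨-, a1, a2, a3, a4⟩ := (hne D).1 hL
  have e : Φ D - ∑ k, z k • N''.c k = Φ (D.1 - ∑ i, z (.inl i) • N.c i,
      D.2.1 - ∑ j, z (.inr j) • N'.c j, fun i j => D.2.2 i j - z (.inl i) - z (.inr j)) := by
    rw [← Pd.ident]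
    simp only [map_sub, map_sum, map_smul, h.cc]
  rw [e] at hz ⊢
  have h1 : ∀ i j, 0 ≤ D.2.2 i j - z (.inl i) - z (.inr j) := fun i j => by
    have := hz _ ⟨(i, j), rfl⟩
    rw [hE] at this
    exact nonneg_of_mul_nonneg_right this (nE0 i j)
  obtain ⟨i₀⟩ := h.l.ne
  obtain ⟨j₀⟩ := h.l'.ne
  refine (hne _).2 ⟨h1, ?_, ?_, fun j => ?_, fun i => ?_⟩
  · exact h.l.dich.mid a1 (a3 j₀) (fun i => z0 _) fun i => by linarith [h1 i j₀, z0 (.inr j₀)]
  · exact h.l'.dich.mid a2 (a4 i₀) (fun j => z0 _) fun j => by linarith [h1 i₀ j, z0 (.inl i₀)]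
  · have := h.l.dich.mid a1 (a3 j) (b := fun i => D.2.2 i j - z (.inr j))
      (fun i => by linarith [h1 i j, z0 (.inl i)]) fun i => by linarith [z0 (.inr j)]
    have e2 : D.1 - ∑ i, z (.inl i) • N.c i -
        ∑ i, (D.2.2 i j - z (.inl i) - z (.inr j)) • N.c i =
        D.1 - ∑ i, (D.2.2 i j - z (.inr j)) • N.c i := by
      simp only [sub_smul, Finset.sum_sub_distrib]
      abel
    exact e2 ▸ this
  · have := h.l'.dich.mid a2 (a4 i) (b := fun j => D.2.2 i j - z (.inl i))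
      (fun j => by linarith [h1 i j, z0 (.inr j)]) fun j => by linarith [z0 (.inl i)]
    have e2 : D.2.1 - ∑ j, z (.inr j) • N'.c j -
        ∑ j, (D.2.2 i j - z (.inl i) - z (.inr j)) • N'.c j =
        D.2.1 - ∑ j, (D.2.2 i j - z (.inl i)) • N'.c j := by
      simp only [sub_smul, Finset.sum_sub_distrib]
      abel
    exact e2 ▸ this

end Pool.Agent.MP_20d318_ag.KK
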