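import Pool.Agent.MP_20d318_ag.KK.LSpec

/-! Row PE: the cover on the blow-up of a product. -/

set_option autoImplicit false
set_option linter.unusedSectionVars false

namespace Pool.Agent.MP_20d318_ag.KK

open Pool.Agent.MP_20d318_ag.Lat hiding act actW W
open Pool.Agent.MP_20d318_ag.CH

universe u v

namespace Pe

variable {V V' : Type u} {𝒞 𝒞' : Type v} {κ κ' : Type} [AddCommGroup V] [Module ℝ V]
  [AddCommGroup V'] [Module ℝ V'] [Fintype κ] [Fintype κ']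

theorem ident (D : WP V V' κ κ') : D = ((D.1, 0, 0) : WP V V' κ κ') + (0, D.2.1, 0) +
    ∑ i, ∑ j, D.2.2 i j • (-exW i j : WP V V' κ κ') := by
  classical
  refine Prod.ext ?_ (Prod.ext ?_ ?_)
  · simp [Prod.fst_sum, exW]
  · simp [Prod.fst_sum, Prod.snd_sum, exW]
  · funext i j
    simp [Prod.snd_sum, Finset.sum_apply, exW, ite_and]

/-- The class of a column. -/
def colL (N : Nd V 𝒞 κ) (j : κ') : WP V V' κ κ' →ₗ[ℝ] V where
  toFun D := D.1 - ∑ i, D.2.2 i j • N.c i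
  map_add' D D' := by
    simp only [Prod.snd_add, Prod.fst_add, Pi.add_apply, add_smul, Finset.sum_add_distrib]
    abel
  map_smul' c D := by
    simp only [Prod.smul_snd, Prod.smul_fst, Pi.smul_apply, smul_eq_mul, RingHom.id_apply,
      mul_smul, ← Finset.smul_sum, smul_sub]

/-- The class of a row. -/
def rowL (N' : Nd V' 𝒞' κ') (i : κ) : WP V V' κ κ' →ₗ[ℝ] V' where
  toFun D := D.2.1 - ∑ j, D.2.2 i j • N'.c j
  map_add' D D' := by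
    simp only [Prod.snd_add, Prod.fst_add, Pi.add_apply, add_smul, Finset.sum_add_distrib]
    abel
  map_smul' c D := by
    simp only [Prod.smul_snd, Prod.smul_fst, Pi.smul_apply, smul_eq_mul, RingHom.id_apply,
      mul_smul, ← Finset.smul_sum, smul_sub]

theorem rp0 (N : Nd V 𝒞 κ) (N' : Nd V' 𝒞' κ') {R : Finset V} {R' : Finset V'}
    (hR : (R : Set V) ⊆ N.Λ) (hR' : (R' : Set V') ⊆ N'.Λ) :
    RP (LW N N') {D : WP V V' κ κ' | D.1 ∈ cone (R : Set V) ∧ D.2.1 ∈ cone (R' : Set V') ∧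
      ∀ i j, 0 ≤ D.2.2 i j} := by
  classical
  have hc := isCone_cone (R : Set V)
  have hc' := isCone_cone (R' : Set V')
  let G : Finset (WP V V' κ κ') := R.image (fun r => (r, 0, 0)) ∪ R'.image (fun r => (0, r, 0)) ∪
    Finset.univ.image fun p : κ × κ' => -exW p.1 p.2
  have hG : ∀ D : WP V V' κ κ', D ∈ (G : Set (WP V V' κ κ')) ↔
      ((∃ r ∈ R, (r, 0, 0) = D) ∨ ∃ r ∈ R', (0, r, 0) = D) ∨
      ∃ p : κ × κ', -exW p.1 p.2 = D := fun D => by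
    simp only [G, Finset.mem_coe, Finset.mem_union, Finset.mem_image, Finset.mem_univ, true_and]
  refine ⟨G, fun D hD => ?_, Set.Subset.antisymm (IsCone.cone_subset ⟨⟨hc.zero, hc'.zero,
    fun _ _ => le_rfl⟩, fun x hx y hy => ⟨hc.add _ hx.1 _ hy.1, hc'.add _ hx.2.1 _ hy.2.1,
      fun i j => add_nonneg (hx.2.2 i j) (hy.2.2 i j)⟩, fun c h0 x hx => ⟨hc.smul _ h0 _ hx.1,
        hc'.smul _ h0 _ hx.2.1, fun i j => mul_nonneg h0 (hx.2.2 i j)⟩⟩ fun D hD => ?_)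
    fun D hD => ?_⟩
  · rcases (hG D).1 hD with (⟨r, hr, rfl⟩ | ⟨r, hr, rfl⟩) | ⟨p, rfl⟩
    · exact ⟨hR hr, N'.Λ.zero_mem, fun _ _ => IZ.zero⟩
    · exact ⟨N.Λ.zero_mem, hR' hr, fun _ _ => IZ.zero⟩
    · exact (LW N N').neg_mem
        ⟨N.Λ.zero_mem, N'.Λ.zero_mem, fun _ _ => IZ.ite IZ.one.neg IZ.zero⟩
  · rcases (hG D).1 hD with (⟨r, hr, rfl⟩ | ⟨r, hr, rfl⟩) | ⟨p, rfl⟩
    · exact ⟨subset_cone _ hr, hc'.zero, fun _ _ => le_rfl⟩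
    · exact ⟨hc.zero, subset_cone _ hr, fun _ _ => le_rfl⟩
    · refine ⟨by simp only [exW, Prod.fst_neg, neg_zero]; exact hc.zero,
        by simp only [exW, Prod.snd_neg, Prod.fst_neg, neg_zero]; exact hc'.zero, fun i j => ?_⟩
      simp only [exW, Prod.snd_neg, Pi.neg_apply]
      split_ifs <;> simp
  · have hcG := isCone_cone (G : Set (WP V V' κ κ'))
    rw [ident D]
    refine hcG.add _ (hcG.add _ ?_ _ ?_) _ (hcG.sum_mem _ _ fun i _ => hcG.sum_mem _ _ fun j _ =>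
        hcG.smul _ (hD.2.2 i j) _ (subset_cone _ ((hG _).2 (Or.inr ⟨(i, j), rfl⟩))))
    · exact (hcG.preimage (LinearMap.inl ℝ V (V' × (κ → κ' → ℝ)))).cone_subset
        (fun r hr => subset_cone _ ((hG _).2 (Or.inl (Or.inl ⟨r, hr, rfl⟩)))) hD.1
    · exact (hcG.preimage ((LinearMap.inr ℝ V (V' × (κ → κ' → ℝ))).comp
        (LinearMap.inl ℝ V' (κ → κ' → ℝ)))).cone_subset
        (fun r hr => subset_cone _ ((hG _).2 (Or.inl (Or.inr ⟨r, hr, rfl⟩)))) hD.2.1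

end Pe

theorem pe_stmt : PeStmt.{u, v} := by
  classical
  intro V V' V'' 𝒞 𝒞' 𝒞'' κ κ' _ _ _ _ _ _ _ _ N N' N'' Φ h hn he ⟨R, F, r1, r2, r3, f1, f2, f3⟩
    ⟨R', F', r1', r2', r3', f1', f2', f3'⟩
  obtain ⟨P, h1, h2⟩ := (Pe.rp0 N N' r1 r1').inter_fin
    (T := (fun p : (V →ₗ[ℝ] ℝ) × κ' => p.1.comp (Pe.colL N p.2)) '' (F ×ˢ Set.univ) ∪
      (fun p : (V' →ₗ[ℝ] ℝ) × κ => p.1.comp (Pe.rowL N' p.2)) '' (F' ×ˢ Set.univ))
    (((f1.prod Set.finite_univ).image _).union ((f1'.prod Set.finite_univ).image _)) (by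
      rintro _ (⟨p, hp, rfl⟩ | ⟨p, hp, rfl⟩) D hD
      · exact (f2 _ hp.1).1 _ (N.Λ.sub_mem hD.1
          (N.Λ.sum_mem fun i _ => (hD.2.2 i _).smul_mem (h.l.cΛ i)))
      · exact (f2' _ hp.1).1 _ (N'.Λ.sub_mem hD.2.1
          (N'.Λ.sum_mem fun j _ => (hD.2.2 _ j).smul_mem (h.l'.cΛ j))))
  refine ⟨P.image Φ, ?_, ?_, fun x hx => ?_⟩
  · rw [Finset.coe_image]
    rintro _ ⟨D, hD, rfl⟩
    exact h.lat D (h1 hD)
  · refine (N''.isCone_nef.inter h.b''.cone).cone_subset ?_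
    rw [Finset.coe_image]
    rintro _ ⟨D, hD, rfl⟩
    obtain ⟨⟨d1, d2, d3⟩, d4⟩ := h2.subset (subset_cone _ hD)
    have k : D ∈ NL N N' := ⟨d3, (r2 d1).1, (r2' d2).1,
      fun j => f3 _ d1 _ (fun i => d3 i j) fun f hf => d4 _ (Or.inl ⟨(f, j), ⟨hf, trivial⟩, rfl⟩),
      fun i => f3' _ d2 _ (d3 i) fun f hf => d4 _ (Or.inr ⟨(f, i), ⟨hf, trivial⟩, rfl⟩)⟩
    exact ⟨(hn D).2 k, he D k (h1 hD)⟩
  · obtain ⟨D, rfl, e1, e2⟩ := h.dn x hx.2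
    have k := (hn D).1 hx.1
    obtain ⟨g, hg, g1⟩ := r3 _ ⟨k.2.1, e1⟩
    obtain ⟨g', hg', g2⟩ := r3' _ ⟨k.2.2.1, e2⟩
    obtain ⟨γ, hγ, e⟩ := h.lift g hg g' hg'
    have k' := (hn _).1 (e D ▸ h.b''.gN γ hγ _ hx.1)
    refine ⟨γ, hγ, ?_⟩
    rw [Finset.coe_image, cone_map, e]
    refine ⟨(g D.1, g' D.2.1, D.2.2), h2.superset ⟨⟨g1, g2, k.1⟩, ?_⟩, rfl⟩
    rintro _ (⟨p, hp, rfl⟩ | ⟨p, hp, rfl⟩)
    · exact (f2 _ hp.1).2 _ (k'.2.2.2.1 p.2)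
    · exact (f2' _ hp.1).2 _ (k'.2.2.2.2 p.2)

end Pool.Agent.MP_20d318_ag.KK
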