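import Pool.Agent.MP_20d318_ag.KK.Spec
import Pool.Agent.MP_20d318_ag.CH.Dim

/-! The prime divisors of the blow-up of a product and of its double cover. -/

set_option autoImplicit false
set_option linter.unusedSectionVars false

namespace Pool.Agent.MP_20d318_ag.KK

open Pool.Agent.MP_fd6584_ag.Fn Pool.Agent.CBk Polynomial
open Pool.Agent.MP_fd6584_ag.AG hiding deg_inv deg_congr deg_of_unit deg_mul deg_prod deg_zpow
  deg_eq_zero deg_nonneg deg_div deg_pow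
open Pool.Agent.MP_20d318_ag.CH (Lv Ok sX)
open Pool.Agent.MP_20d318_ag.CH.Xdv (Loc)

namespace PL

section loc

variable {k K I J : Type} [Field k] [Field K] [Algebra k K] [Fintype I] [Fintype J] {e : ℕ}
  {O : Subalgebra k K} {s : I → K} {t : J → K} {A : K}

theorem dim_le {m N : ℕ} (h : Dim O m) (q : m ≤ N) : Dim O N := by
  induction q with
  | refl => exact h
  | step _ ih => exact ih.succ

theorem prod_mx (hs : ∀ i, s i ∈ O) {i : I} (hi : s i ∈ mx O) : ∏ i, s i ∈ mx O := by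
  classical
  rw [← Finset.mul_prod_erase _ _ (Finset.mem_univ i)]
  exact mx_mul_right hi (O.prod_mem fun i' _ => hs i')

theorem ex_mx (hs : ∀ i, s i ∈ O) (h : ∏ i, s i ∈ mx O) : ∃ i, s i ∈ mx O :=
  by_contra fun q => h.2 (isU_prod fun i _ => isU_of_not_mx (hs i) fun m => q ⟨i, m⟩)

theorem a_mx (h : Loc e O s t A) (hs : IsU O (∏ i, s i)) (ht : ∏ j, t j ∈ mx O) : A ∈ mx O := by
  rcases h.aa with hA | hA
  · rw [← h.eqn] at ht
    exact mx_of_pow hA ((mx_or_of_mul (O.pow_mem hA e) hs.mem ht).resolve_right hs.not_mx)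
  · exact absurd (h.symm.eqn ▸ mx_mul_left (O.pow_mem hA e) ht) hs.not_mx

theorem a_mem (he : e ≠ 0) (h : Loc e O s t A) (hs : IsU O (∏ i, s i)) : A ∈ O := by
  refine h.aa.elim id fun hA => ?_
  rw [← h.symm.eqn] at hs
  simpa using (IsU.of_pow hA he
    (IsU.of_mul (O.pow_mem hA e) (O.prod_mem fun j _ => h.tm j) hs)).inv_mem

theorem alg (he : e ≠ 0) (h : Loc e O s t A) {B : Subalgebra k K} (hs : ∏ i, s i ∈ B)
    (ht : ∏ j, t j ∈ B) (q : ¬ (IsU O A ∧ ∃ i j, s i ∈ mx O ∧ t j ∈ mx O)) :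
    ∃ a ∈ O, (a = A ∨ a = A⁻¹) ∧ AlgM O B a := by
  by_cases h1 : A ∈ mx O
  · exact ⟨A, h1.1, Or.inl rfl, algM_of_mx (c := 0) (by simpa using h1)⟩
  by_cases h2 : A⁻¹ ∈ mx O
  · exact ⟨A⁻¹, h2.1, Or.inr rfl, algM_of_mx (c := 0) (by simpa using h2)⟩
  have hA : IsU O A := h.aa.elim (fun a => isU_of_not_mx a h1) fun a => by
    simpa using (isU_of_not_mx a h2).inv
  have hu : IsU O (∏ i, s i) := isU_of_not_mx (O.prod_mem fun i _ => h.sm i) fun m => by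
    obtain ⟨i, hi⟩ := ex_mx h.sm m
    obtain ⟨j, hj⟩ := ex_mx h.tm (h.eqn ▸ mx_mul_left (O.pow_mem hA.mem e) m)
    exact q ⟨hA, i, j, hi, hj⟩
  refine ⟨A, hA.mem, Or.inl rfl, monomial e (∏ i, s i) - C (∏ j, t j), fun i => ?_, ⟨e, ?_⟩, ?_⟩
  · rw [coeff_sub, coeff_monomial, coeff_C]
    refine B.sub_mem ?_ ?_ <;> split_ifs
    exacts [hs, B.zero_mem, ht, B.zero_mem]
  · rwa [coeff_sub, coeff_monomial, coeff_C, if_pos rfl, if_neg he, sub_zero]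
  · rw [eval_sub, eval_monomial, eval_C, mul_comm, h.eqn, sub_self]
    exact zero_mem_mx

end loc

variable {k M M' K Λ Λ' κ κ' : Type} {n n' : ℕ} [Field k] [NeZero (2 : k)] [IsAlgClosed k]
  [Field M] [Field M'] [Field K] [Algebra k M] [Algebra k M'] [Algebra k K] [Fintype κ]
  [Fintype κ'] {L : Lv k M Λ κ n} {L' : Lv k M' Λ' κ' n'} {ι : M →ₐ[k] K} {ι' : M' →ₐ[k] K}
  {v : K} {e : ℕ} {Z : Set (Subalgebra k K)} {P P' : Place k K}

theorem dim_all (h : Ok L) (R : Subalgebra k M) : Dim R (n + 2) := by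
  rintro ⟨r, hr⟩
  have := CH.DimRw.card h.top
    (algebraicIndependent_iff.2 fun p hp => by_contra fun q => (hr.2 p q).ne hp)
  omega

theorem tri (h : Ok L) {R : Subalgebra k M} (hR : R ∈ L.Y) :
    R = ⊤ ∨ Dim R (n + 1) ∧ ((∃ Q : Place k M, R = plO Q) ∨ Dim R n) := by
  by_cases q : Dim R n
  · exact Or.inr ⟨q.succ, Or.inr q⟩
  refine (h.tri R hR q).imp_right fun ⟨Q, hQ⟩ => ⟨?_, Or.inl ⟨Q, hQ⟩⟩
  subst hQ
  exact h.dim Q hR

variable (h : Geo L L' ι ι' v e Z)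

include h

theorem not_dim (hP : plO P ∈ Z) : ¬ Dim (plO P) (n + n' + 2) := by
  obtain ⟨G, h1, h2, h3⟩ := h.fine.chart hP
  have q : n + n' + 2 + 2 = n + 2 + (n' + 2) := by omega
  exact htOne_stmt k K G _ _ P h1 h2 ((h.fld.ind _ _ L.y L'.y h.ok.ind h.ok'.ind).comp
    ((finCongr q).trans finSumFinEquiv.symm) (Equiv.injective _)) h3

theorem s_top {O : Subalgebra k K} (hO : O ∈ Z) (q : pr ι L.Y O = ⊤) (i : κ) :
    IsU O (sX L ι i O) :=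
  h.maps.isU_up hO (by rw [q]; exact isU_top.2 ((h.ok.cs i).ne (q ▸ h.maps.mem hO)))

theorem cnt (dq : DimqStmt) (hP : plO P ∈ Z) {m m' : ℕ} (a : Dim (pr ι L.Y (plO P)) m)
    (b : Dim (pr ι' L'.Y (plO P)) m') : n + n' + 2 ≤ m + m' := by
  obtain ⟨x, h1, h2⟩ : ∃ x ∈ plO P, x = AA L L' ι ι' v e (plO P) ∨
      x = (AA L L' ι ι' v e (plO P))⁻¹ :=
    (h.aa _ hP).elim (fun q => ⟨_, q, Or.inl rfl⟩) fun q => ⟨_, q, Or.inr rfl⟩
  by_contra q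
  exact not_dim h hP
    (dim_le (dq k M M' K ι ι' _ _ _ x m m' (h.ov hP) (h.pts _ hP x h1 h2) a b).1 (by omega))

theorem cnt' (dq : DimqStmt) (hP : plO P ∈ Z)
    (c : ¬ (IsU (plO P) (AA L L' ι ι' v e (plO P)) ∧
      ∃ i j, sX L ι i (plO P) ∈ mx (plO P) ∧ sX L' ι' j (plO P) ∈ mx (plO P)))
    {m m' : ℕ} (a : Dim (pr ι L.Y (plO P)) m) (b : Dim (pr ι' L'.Y (plO P)) m') :
    n + n' + 3 ≤ m + m' := by
  obtain ⟨x, h1, h2, h3⟩ := alg h.ext.e0 (h.loc hP)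
    (B := Bq ι ι' (pr ι L.Y (plO P)) (pr ι' L'.Y (plO P)) ∅)
    (by rw [Geo.prod_sX]; exact Bq_l (h.lqO hP).mS)
    (by rw [Geo.prod_sX]; exact Bq_r (h.lqO hP).mS') c
  by_contra q
  exact not_dim h hP
    (dim_le ((dq k M M' K ι ι' _ _ _ x m m' (h.ov hP) (h.pts _ hP x h1 h2) a b).2 h3) (by omega))

theorem pl (dq : DimqStmt) (hP : plO P ∈ Z) :
    (∃ i j, sX L ι i (plO P) ∈ mx (plO P) ∧ sX L' ι' j (plO P) ∈ mx (plO P)) ∨
    (pr ι L.Y (plO P) = ⊤ ∧ pr ι' L'.Y (plO P) = ⊤) ∨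
    (∃ Q : Place k M, pr ι L.Y (plO P) = plO Q ∧ pr ι' L'.Y (plO P) = ⊤) ∨
    ∃ Q : Place k M', pr ι L.Y (plO P) = ⊤ ∧ pr ι' L'.Y (plO P) = plO Q := by
  refine or_iff_not_imp_left.2 fun q => ?_
  have c := fun m m' => cnt' h dq hP (fun z => q z.2) (m := m) (m' := m')
  rcases tri h.ok (h.maps.mem hP) with a | ⟨a, a'⟩ <;>
    rcases tri h.ok' (h.maps'.mem hP) with b | ⟨b, b'⟩
  · exact Or.inl ⟨a, b⟩
  · rcases b' with ⟨Q, hQ⟩ | b'
    · exact Or.inr (Or.inr ⟨Q, a, hQ⟩)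
    · have := c _ _ (dim_all h.ok _) b'
      omega
  · rcases a' with ⟨Q, hQ⟩ | a'
    · exact Or.inr (Or.inl ⟨Q, hQ, b⟩)
    · have := c _ _ a' (dim_all h.ok' _)
      omega
  · have := c _ _ a b
    omega

/-- The exceptional divisors lie over pairs of components. -/
theorem exc (dq : DimqStmt) {i : κ} {j : κ'} (hP : plO P ∈ Z)
    (hs : sX L ι i (plO P) ∈ mx (plO P)) (ht : sX L' ι' j (plO P) ∈ mx (plO P)) :
    (∃ Q : Place k M, pr ι L.Y (plO P) = plO Q) ∧ (∃ Q : Place k M', pr ι' L'.Y (plO P) = plO Q) ∧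
      IsU (plO P) (AA L L' ι ι' v e (plO P)) := by
  obtain ⟨a, a'⟩ := (tri h.ok (h.maps.mem hP)).resolve_left fun q => (s_top h hP q i).not_mx hs
  obtain ⟨b, b'⟩ := (tri h.ok' (h.maps'.mem hP)).resolve_left fun q =>
    (s_top h.symm hP q j).not_mx ht
  refine ⟨a'.resolve_right fun q => ?_, b'.resolve_right fun q => ?_, by_contra fun q => ?_⟩
  · have := cnt h dq hP q b
    omega
  · have := cnt h dq hP a q
    omega
  · have := cnt' h dq hP (fun z => q z.1) a b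
    omega

/-- Two places over the same pair of points, both special for `V`, are equal. -/
theorem same {p : Subalgebra k K → Prop} {V : Subalgebra k K} {a b : K} (hP : plO P ∈ Z)
    (hP' : plO P' ∈ Z) (q : pr ι L.Y (plO P') = pr ι L.Y (plO P))
    (q' : pr ι' L'.Y (plO P') = pr ι' L'.Y (plO P)) (ha : a = AA L L' ι ι' v e (plO P))
    (hV : Mn ι ι' (pr ι L.Y (plO P)) (pr ι' L'.Y (plO P)) a p V) (m : a ∈ plO P)
    (m' : a ∈ plO P') (z : p (plO P)) (z' : p (plO P')) (b0 : b ≠ 0) (bm : b ∈ mx V) : P = P' := by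
  have p2 := h.pts _ hP' a m' (Or.inl (by rw [ha, AA, AA, q, q']))
  have o2 := h.ov hP'
  rw [q, q'] at p2 o2
  exact place_ext (h.pts _ hP a m (Or.inl ha)) p2 hV.ov.loc
    (hV.ov.le (Set.singleton_subset_iff.2 hV.mem)) b0 bm (hV.min _ (h.ov hP) m z)
    (hV.min _ o2 m' z')

theorem uE (vq : VqS) (dq : DimqStmt) {i : κ} {j : κ'} (hP : plO P ∈ Z) (hP' : plO P' ∈ Z)
    (hs : sX L ι i (plO P) ∈ mx (plO P)) (ht : sX L' ι' j (plO P) ∈ mx (plO P))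
    (hs' : sX L ι i (plO P') ∈ mx (plO P')) (ht' : sX L' ι' j (plO P') ∈ mx (plO P')) :
    P = P' := by
  obtain ⟨⟨Q₁, a1⟩, ⟨Q₂, a2⟩, a3⟩ := exc h dq hP hs ht
  obtain ⟨⟨Q₃, b1⟩, ⟨Q₄, b2⟩, b3⟩ := exc h dq hP' hs' ht'
  have c1 := (h.s_mx hP i).1 hs
  have c2 := (h.symm.s_mx hP j).1 ht
  obtain rfl := h.ok.uniq i Q₁ Q₃ (a1 ▸ h.maps.mem hP) (b1 ▸ h.maps.mem hP') (a1 ▸ c1)
    (b1 ▸ (h.s_mx hP' i).1 hs')
  obtain rfl := h.ok'.uniq j Q₂ Q₄ (a2 ▸ h.maps'.mem hP) (b2 ▸ h.maps'.mem hP') (a2 ▸ c2)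
    (b2 ▸ (h.symm.s_mx hP' j).1 ht')
  have q := b1.trans a1.symm
  have q' := b2.trans a2.symm
  obtain ⟨V, -, hV⟩ := (vq k M M' K ι ι' e _ _ _ _ _ (h.lqO hP)).exc
    (prod_mx (h.ok.sm _ (h.maps.mem hP)) c1) (prod_mx (h.ok'.sm _ (h.maps'.mem hP)) c2)
  rw [AA, q, q'] at b3
  exact same h hP hP' q q' rfl hV a3.mem b3.mem trivial trivial (h.sne hP i)
    ((mem_mx_comap ι).1 (hV.ov.dom.mx c1))

theorem uV (vq : VqS) {Q : Place k M} (hP : plO P ∈ Z) (hP' : plO P' ∈ Z)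
    (a1 : pr ι L.Y (plO P) = plO Q) (a2 : pr ι' L'.Y (plO P) = ⊤)
    (b1 : pr ι L.Y (plO P') = plO Q) (b2 : pr ι' L'.Y (plO P') = ⊤) : P = P' := by
  have q := b1.trans a1.symm
  have q' := b2.trans a2.symm
  have eA : AA L L' ι ι' v e (plO P') = AA L L' ι ι' v e (plO P) := by rw [AA, AA, q, q']
  have l := h.lqO hP
  rcases isU_or_mx l.mS with c | c
  · have u : ∀ O ∈ Z, pr ι L.Y O = pr ι L.Y (plO P) → AA L L' ι ι' v e O ∈ O := fun O hO r =>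
      a_mem h.ext.e0 (h.loc hO) (by rw [Geo.prod_sX]; exact h.maps.isU_up hO (r ▸ c))
    obtain ⟨V, hV⟩ := (vq k M M' K ι ι' e _ _ _ _ _ l).unit c a2 fun ⟨r, hr⟩ => h.ext.ns' ⟨r /
      L'.jj (pr ι' L'.Y (plO P)), by
        have j0 := h.ok'.cj.ne (h.maps'.mem hP)
        rw [div_mul_div_comm, ← hr, ← h.ok'.eqn _ (h.maps'.mem hP), sq,
          mul_div_cancel_right₀ _ (mul_ne_zero j0 j0)]⟩
    refine same h hP hP' q q' rfl hV (u _ hP rfl) (eA ▸ u _ hP' q) trivial trivial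
      ((map_ne_zero ι).2 Q.unif_ne) ((mem_mx_comap ι).1 (hV.ov.dom.mx ?_))
    rw [a1]
    exact (mx_plO Q.unif_ne).2 (by simp)
  · have u : ∀ O ∈ Z, pr ι L.Y O = pr ι L.Y (plO P) → pr ι' L'.Y O = ⊤ →
        (AA L L' ι ι' v e O)⁻¹ ∈ mx O := fun O hO r r' =>
      a_mx (h.loc hO).symm (isU_prod fun j _ => s_top h.symm hO r' j) (by
        rw [Geo.prod_sX]
        exact (h.maps.mx_up hO (h.lqO hO).mS).2 (r ▸ c))
    obtain ⟨V, m, hV⟩ := (vq k M' M K ι' ι e _ _ _ _ _ l.symm).zero c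
    have u1 := u _ hP rfl a2
    have u2 := eA ▸ u _ hP' q b2
    exact same h.symm hP hP' q' q (AA_symm L L' ι ι' v e _).symm hV u1.1 u2.1 u1 u2
      (inv_ne_zero l.ne) m

end PL

theorem pl_stmt : PlStmt := fun vq dq _ _ _ _ _ _ _ _ _ _ _ _ _ _ _ _ _ _ _ _ _ _ _ _ _ _ _ _ h =>
  { uE := fun _ _ _ _ => PL.uE h vq dq
    eA := fun _ _ _ hP hs ht => (PL.exc h dq hP hs ht).2.2
    pl := fun _ => PL.pl h dq
    uV := fun _ _ _ => PL.uV h vq }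

end Pool.Agent.MP_20d318_ag.KK
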