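import Pool.Agent.MP_20d318_ag.KK.ESpec

/-! The equation of the branch curve of a double plane is a smooth sextic. -/

set_option autoImplicit false
set_option linter.unusedSectionVars false

namespace Pool.Agent.MP_20d318_ag.KK

open Pool.Agent.MP_fd6584_ag.Fn Pool.Agent.CBk Polynomial
open Pool.Agent.MP_fd6584_ag.AG hiding deg_inv deg_congr deg_of_unit deg_mul deg_prod deg_zpow
  deg_eq_zero deg_nonneg deg_div deg_pow
open Pool.Agent.MP_20d318_ag.CH (MW cb Der)

namespace PLF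

variable {k M : Type} [Field k] [Field M] [Algebra k M] {a b x y : M} {O : Subalgebra k M}

/-- A function that is regular at all points of an affine scheme is regular. -/
theorem mem_all {R : Subalgebra k M} {f : M} (h : ∀ O ∈ Pts R, f ∈ O) : f ∈ R := by
  let I : Ideal R :=
    { carrier := {r | (r : M) * f ∈ R}
      add_mem' := fun {r s} hr hs => by
        simpa [add_mul] using R.add_mem hr hs
      zero_mem' := by simp
      smul_mem' := fun c r hr => by
        simpa [mul_assoc] using R.mul_mem c.2 hr }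
  by_contra hn
  obtain ⟨m, hm, hI⟩ := Ideal.exists_le_maximal I fun e => hn (by
    have : (1 : R) ∈ I := e ▸ trivial
    simpa [I] using this)
  let _ := Ideal.Quotient.field m
  obtain ⟨O, hO, ρ, -, h2⟩ := exists_ext (Ideal.Quotient.mkₐ k m)
  obtain ⟨s, hs, t, ht, hu, e⟩ := hO.2.2 f (h O hO)
  have h3 := evO_ne ρ hu
  rw [h2 t ht, evO_of_mem _ ht] at h3
  refine h3 (Ideal.Quotient.eq_zero_iff_mem.2 (hI ?_))
  change t * f ∈ R
  rwa [e, mul_div_cancel₀ _ hu.1]

/-- The rational points of the plane. -/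
theorem ex_pt (h : GenP k a b) (q : Fin 2 → k) : ∃ O ∈ Pts (Algebra.adjoin k {a, b}),
    ∀ i, ![a, b] i - algebraMap k M (q i) ∈ mx O := by
  rw [← Pln.range_eq]
  obtain ⟨O, hO, ρ, h1, h2⟩ :=
    exists_ext ((MvPolynomial.aeval q).comp h.ind.aevalEquiv.symm.toAlgHom)
  refine ⟨O, hO, fun i => ?_⟩
  have hi : ![a, b] i ∈ Algebra.adjoin k (Set.range ![a, b]) := Algebra.subset_adjoin ⟨i, rfl⟩
  have e : h.ind.aevalEquiv.symm ⟨_, hi⟩ = MvPolynomial.X i := by
    rw [AlgEquiv.symm_apply_eq]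
    ext
    simp
  rw [← h1.eq_zero_iff (sub_mem (hO.2.1 hi) (O.algebraMap_mem _)),
    evO_sub ρ (hO.2.1 hi) (O.algebraMap_mem _), evO_const, h2 _ hi, evO_of_mem _ hi]
  simp [e]

/-- The chain rule. -/
theorem jac_mem (D₁ D₂ : Derivation k M M) (hO : O ∈ Pts (Algebra.adjoin k {a, b})) {c d : M}
    (hc : c ∈ O) (hd : d ∈ O) : ∃ u ∈ O, RS.jac D₁ D₂ c d = u * RS.jac D₁ D₂ a b := by
  let S : Submodule O M := Submodule.span O {RS.jac D₁ D₂ a b}
  have hJ : RS.jac D₁ D₂ a b ∈ S := Submodule.mem_span_singleton_self _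
  have sw : ∀ c d, RS.jac D₁ D₂ c d = -RS.jac D₁ D₂ d c := fun c d => by
    simp only [RS.jac]; ring
  have z : ∀ c, RS.jac D₁ D₂ c c ∈ S := fun c => by
    rw [show RS.jac D₁ D₂ c c = 0 by simp only [RS.jac]; ring]; exact zero_mem _
  have key : ∀ c, RS.jac D₁ D₂ c a ∈ S → RS.jac D₁ D₂ c b ∈ S → ∀ d ∈ O, RS.jac D₁ D₂ c d ∈ S :=
    fun c h1 h2 => CH.der_span hO (D₁ c • D₂ - D₂ c • D₁) S (by rintro g (rfl | rfl) <;> assumption)
  have h1 := key a (z a) hJ c hc
  have h2 := key b (by rw [sw]; exact neg_mem hJ) (z b) c hc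
  obtain ⟨u, hu⟩ := Submodule.mem_span_singleton.1
    (key c (by rw [sw]; exact neg_mem h1) (by rw [sw]; exact neg_mem h2) d hd)
  exact ⟨u, u.2, hu.symm⟩

/-- The square of the maximal ideal. -/
def mx2 (O : Subalgebra k M) : AddSubmonoid M :=
  AddSubmonoid.closure (Set.image2 (· * ·) (mx O) (mx O))

theorem of_eq {S : AddSubmonoid M} (h : a ∈ S) (e : b = a) : b ∈ S := e ▸ h

theorem mx2_mul (ha : a ∈ O) (hb : b ∈ mx2 O) : a * b ∈ mx2 O := by
  induction hb using AddSubmonoid.closure_induction with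
  | mem z hz =>
    obtain ⟨u, hu, v, hv, rfl⟩ := hz
    exact AddSubmonoid.subset_closure ⟨a * u, mx_mul_left ha hu, v, hv, mul_assoc a u v⟩
  | zero => rw [mul_zero]; exact zero_mem _
  | add u v _ _ hu hv => rw [mul_add]; exact add_mem hu hv

/-- The formula of Taylor to the first order. -/
theorem tay1 (hO : IsLocalRing O) {c : Fin 3 → M} {q : Fin 3 → k}
    (hc : ∀ i, c i - algebraMap k M (q i) ∈ mx O) (G : MvPolynomial (Fin 3) k) :
    MvPolynomial.aeval c G - algebraMap k M (MvPolynomial.aeval q G) -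
      ∑ i, algebraMap k M (MvPolynomial.aeval q (MvPolynomial.pderiv i G)) *
        (c i - algebraMap k M (q i)) ∈ mx2 O := by
  induction G using MvPolynomial.induction_on with
  | C r => simp
  | add p r hp hr =>
    refine of_eq (add_mem hp hr) ?_
    simp only [map_add, add_mul, Finset.sum_add_distrib]
    ring
  | mul_X p i hp =>
    have h1 : c i ∈ O := by simpa using O.add_mem (hc i).1 (O.algebraMap_mem (q i))
    have h2 : (∑ j, algebraMap k M (MvPolynomial.aeval q (MvPolynomial.pderiv j p)) *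
        (c j - algebraMap k M (q j))) * (c i - algebraMap k M (q i)) ∈ mx2 O :=
      AddSubmonoid.subset_closure
        ⟨_, mx_sum hO fun j _ => mx_mul_left (O.algebraMap_mem _) (hc j), _, hc i, rfl⟩
    refine of_eq (add_mem (mx2_mul h1 hp) h2) ?_
    fin_cases i <;> simp [Fin.sum_univ_three, MvPolynomial.pderiv_X] <;> ring

/-- Functions on the chart at infinity. -/
theorem at_inf (h0 : x ≠ 0) {w : M} (hw : w ∈ Algebra.adjoin k {y / x, x⁻¹}) :
    ∃ (N : ℕ) (h : MvPolynomial (Fin 2) k), h.totalDegree ≤ N ∧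
      MvPolynomial.aeval ![x, y] h = x ^ N * w := by
  have hX : ∀ n, ((MvPolynomial.X 0 : MvPolynomial (Fin 2) k) ^ n).totalDegree = n :=
    MvPolynomial.totalDegree_X_pow 0
  induction hw using Algebra.adjoin_induction with
  | mem z hz =>
    rcases hz with rfl | rfl
    · exact ⟨1, MvPolynomial.X 1, by simp, by simp [mul_div_cancel₀ _ h0]⟩
    · exact ⟨1, 1, by simp, by simp [h0]⟩
  | algebraMap r => exact ⟨0, MvPolynomial.C r, by simp, by simp⟩
  | add u v _ _ hu hv =>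
    obtain ⟨N, f, f1, f2⟩ := hu
    obtain ⟨N', g, g1, g2⟩ := hv
    refine ⟨N + N', MvPolynomial.X 0 ^ N' * f + MvPolynomial.X 0 ^ N * g,
      (MvPolynomial.totalDegree_add _ _).trans (max_le ?_ ?_), ?_⟩
    · exact (MvPolynomial.totalDegree_mul _ _).trans (by rw [hX]; omega)
    · exact (MvPolynomial.totalDegree_mul _ _).trans (by rw [hX]; omega)
    · simp only [map_add, map_mul, map_pow, MvPolynomial.aeval_X, f2, g2, Matrix.cons_val_zero]
      ring
  | mul u v _ _ hu hv =>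
    obtain ⟨N, f, f1, f2⟩ := hu
    obtain ⟨N', g, g1, g2⟩ := hv
    refine ⟨N + N', f * g, (MvPolynomial.totalDegree_mul _ _).trans (by omega), ?_⟩
    rw [map_mul, f2, g2]
    ring

theorem deg_le (h : GenP k x y) {f : MvPolynomial (Fin 2) k} {n : ℕ}
    (hf : MvPolynomial.aeval ![x, y] f / x ^ n ∈ Algebra.adjoin k {y / x, x⁻¹}) :
    f.totalDegree ≤ n := by
  have h0 : x ≠ 0 := by simpa using h.x_ne 0
  obtain ⟨N, g, g1, g2⟩ := at_inf h0 hf
  by_cases f0 : f = 0
  · simp [f0]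
  have e : MvPolynomial.X 0 ^ N * f = MvPolynomial.X 0 ^ n * g := Pln.inj h (by
    simp only [map_mul, map_pow, MvPolynomial.aeval_X, g2, Matrix.cons_val_zero]
    field_simp)
  have h1 := MvPolynomial.totalDegree_mul_of_isDomain
    (pow_ne_zero N (MvPolynomial.X_ne_zero (R := k) (0 : Fin 2))) f0
  have h2 := MvPolynomial.totalDegree_mul ((MvPolynomial.X 0 : MvPolynomial (Fin 2) k) ^ n) g
  rw [e] at h1
  rw [h1, MvPolynomial.totalDegree_X_pow, MvPolynomial.totalDegree_X_pow] at h2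
  omega

/-- Homogenization. -/
theorem homog {f : MvPolynomial (Fin 2) k} {n : ℕ} (hf : f.totalDegree ≤ n) :
    ∃ G : MvPolynomial (Fin 3) k, G.IsHomogeneous n ∧
      MvPolynomial.aeval ![x, y, 1] G = MvPolynomial.aeval ![x, y] f := by
  refine ⟨∑ j ∈ Finset.range (f.totalDegree + 1), MvPolynomial.X 2 ^ (n - j) *
    MvPolynomial.rename Fin.castSucc (MvPolynomial.homogeneousComponent j f),
    MvPolynomial.IsHomogeneous.sum _ _ _ fun j hj => ?_, ?_⟩
  · have := (MvPolynomial.isHomogeneous_X_pow (R := k) (2 : Fin 3) (n - j)).mul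
      ((MvPolynomial.homogeneousComponent_isHomogeneous j f).rename_isHomogeneous
        (f := Fin.castSucc))
    rwa [Nat.sub_add_cancel ((Nat.lt_succ_iff.1 (Finset.mem_range.1 hj)).trans hf)] at this
  · conv_rhs => rw [← MvPolynomial.sum_homogeneousComponent f]
    rw [map_sum, map_sum]
    refine Finset.sum_congr rfl fun j _ => ?_
    have e : (![x, y, 1] : Fin 3 → M) ∘ Fin.castSucc = ![x, y] := by
      ext i; fin_cases i <;> rfl
    simp [MvPolynomial.aeval_rename, e]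

/-- The local criterion in one chart. -/
theorem chart {D₁ D₂ : Derivation k M M} {φ : M} {G : MvPolynomial (Fin 3) k} (h : GenP k a b)
    (hs : ∀ O ∈ Pts (Algebra.adjoin k {a, b}), ∃ c ∈ O, ∃ d ∈ O, φ * RS.jac D₁ D₂ c d ^ 2 ∉ mx2 O)
    (hG : G.IsHomogeneous 6) {v : Fin 3 → M} (e : φ * RS.jac D₁ D₂ a b ^ 2 = MvPolynomial.aeval v G)
    {q : Fin 3 → k} {i : Fin 3} (hq : q i ≠ 0) (s : Fin 2 → Fin 3) (hv : v i = 1)
    (hs' : ∀ j, v (s j) = ![a, b] j) (hc : ∀ l, l = i ∨ ∃ j, s j = l)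
    (h0 : MvPolynomial.aeval q G = 0) :
    ∃ l, MvPolynomial.aeval q (MvPolynomial.pderiv l G) ≠ 0 := by
  by_contra hn
  push Not at hn
  obtain ⟨O, hO, hm⟩ := ex_pt h fun j => q (s j) / q i
  obtain ⟨c, c1, d, d1, h1⟩ := hs O hO
  obtain ⟨u, u1, u2⟩ := jac_mem D₁ D₂ hO c1 d1
  have t0 : algebraMap k M (q i) ≠ 0 := (isU_const (O := O) hq).1
  have h2 := tay1 hO.1 (c := algebraMap k M (q i) • v) (q := q) (fun l => by
    rcases hc l with rfl | ⟨j, rfl⟩
    · simpa [hv] using zero_mem_mx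
    · have := mx_mul_left (O.algebraMap_mem (q i)) (hm j)
      rwa [mul_sub, map_div₀, mul_div_cancel₀ _ t0, ← hs'] at this) G
  simp only [h0, hn, map_zero, zero_mul, Finset.sum_const_zero, sub_zero,
    CBk.aeval_smul hG] at h2
  have h3 := mx2_mul (O.mul_mem (O.pow_mem u1 2) (O.pow_mem (isU_const hq).inv_mem 6)) h2
  refine h1 (of_eq h3 ?_)
  rw [u2, mul_pow, mul_left_comm φ, e]
  field_simp

/-- Reduction to rational points. -/
theorem smf [IsAlgClosed k] {G : MvPolynomial (Fin 3) k} (hG : G.IsHomogeneous 6)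
    (h : ∀ (q : Fin 3 → k) (i : Fin 3), q i ≠ 0 → MvPolynomial.aeval q G = 0 →
      ∃ l, MvPolynomial.aeval q (MvPolynomial.pderiv l G) ≠ 0) : SmF G := by
  refine ⟨hG, fun L _ _ p hp h0 => ?_⟩
  obtain ⟨T, ψ, hT⟩ := exists_pt (k := k) (Set.finite_range p)
  choose h1 h2 using fun i => hT (p i) ⟨i, rfl⟩
  have key : ∀ F : MvPolynomial (Fin 3) k, MvPolynomial.aeval p F = 0 →
      MvPolynomial.aeval (fun i => ψ ⟨p i, h1 i⟩) F = 0 := fun F hF => by
    have e : MvPolynomial.aeval (fun i => (⟨p i, h1 i⟩ : T)) F = 0 := Subtype.ext (by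
      have := MvPolynomial.comp_aeval_apply (f := fun i => (⟨p i, h1 i⟩ : T)) T.val F
      exact this.trans hF)
    rw [← MvPolynomial.comp_aeval_apply, e, map_zero]
  obtain ⟨i, hi⟩ := Function.ne_iff.1 hp
  obtain ⟨l, hl⟩ := h _ i (h2 i hi) (key G h0)
  exact ⟨l, fun e => hl (key _ e)⟩

theorem top_of {x' y' : M} (h : IntermediateField.adjoin k {x, y} = ⊤)
    (hx : x ∈ IntermediateField.adjoin k {x', y'}) (hy : y ∈ IntermediateField.adjoin k {x', y'}) :
    IntermediateField.adjoin k {x', y'} = ⊤ := by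
  rw [← top_le_iff, ← h, IntermediateField.adjoin_le_iff]
  rintro g (rfl | rfl) <;> assumption

theorem gen2 [IsAlgClosed k] (h : GenP k x y) : GenP k (y / x) x⁻¹ := by
  have h0 : x ≠ 0 := by simpa using h.x_ne 0
  have h1 : y / x ∈ IntermediateField.adjoin k {y / x, x⁻¹} :=
    IntermediateField.subset_adjoin _ _ (Or.inl rfl)
  have h2 : x⁻¹ ∈ IntermediateField.adjoin k {y / x, x⁻¹} :=
    IntermediateField.subset_adjoin _ _ (Or.inr rfl)
  exact (plane_stmt k M x y h).top _ _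
    (top_of h.top (by simpa using inv_mem h2) (by simpa [h0] using div_mem h1 h2))

theorem jac2 (D₁ D₂ : Derivation k M M) (h0 : x ≠ 0) :
    RS.jac D₁ D₂ (y / x) x⁻¹ = RS.jac D₁ D₂ x y / x ^ 3 := by
  simp only [RS.jac, Derivation.leibniz_div, Derivation.leibniz_inv, smul_eq_mul]
  field_simp
  ring

end PLF

open PLF in
theorem plf_stmt : PlfStmt := by
  intro _ k M _ _ _ _ _ D₁ D₂ φ x y hg hb hs
  have h : GenP k x y := ⟨hg.1, hg.2⟩
  have x0 : x ≠ 0 := by simpa using h.x_ne 0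
  have y0 : y ≠ 0 := by simpa using h.y_ne 0
  have sub : ∀ c ∈ ({(x, y), (y / x, x⁻¹), (x / y, y⁻¹)} : Set (M × M)),
      ∀ O ∈ Pts (Algebra.adjoin k {c.1, c.2}),
        O ∈ RS.planes k {(x, y), (y / x, x⁻¹), (x / y, y⁻¹)} :=
    fun c hc O hO => Set.mem_biUnion hc hO
  have reg : ∀ c ∈ ({(x, y), (y / x, x⁻¹), (x / y, y⁻¹)} : Set (M × M)),
      φ * RS.jac D₁ D₂ c.1 c.2 ^ 2 ∈ Algebra.adjoin k {c.1, c.2} := fun c hc =>
    mem_all fun O hO => hb O (sub c hc O hO) _ (hO.2.1 (Algebra.subset_adjoin (Or.inl rfl))) _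
      (hO.2.1 (Algebra.subset_adjoin (Or.inr rfl)))
  obtain ⟨f, hf⟩ := Pln.mem_R.1 (reg (x, y) (Or.inl rfl))
  have e2 : φ * RS.jac D₁ D₂ (y / x) x⁻¹ ^ 2 = MvPolynomial.aeval ![x, y] f / x ^ 6 := by
    rw [jac2 D₁ D₂ x0, hf]; field_simp
  have e3 : φ * RS.jac D₁ D₂ (x / y) y⁻¹ ^ 2 = MvPolynomial.aeval ![x, y] f / y ^ 6 := by
    rw [jac2 D₁ D₂ y0, hf]; simp only [RS.jac]; field_simp; ring
  obtain ⟨G, g1, g2⟩ := homog (x := x) (y := y)
    (deg_le h (e2 ▸ reg (y / x, x⁻¹) (Or.inr (Or.inl rfl))))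
  refine ⟨G, RS.jac D₁ D₂ x y, smf g1 fun q i hq h0 => ?_, fun e => ?_, by rw [g2, hf]⟩
  · fin_cases i
    · refine chart (gen2 h) (fun O hO => hs O (sub (y / x, x⁻¹) (Or.inr (Or.inl rfl)) O hO)) g1
        (v := x⁻¹ • ![x, y, 1]) ?_ hq ![1, 2] (by simp [x0]) (fun j => ?_) (by decide) h0
      · rw [e2, CBk.aeval_smul g1, g2]; field_simp
      · fin_cases j <;> simp [div_eq_inv_mul]
    · refine chart (gen2 h.swap) (fun O hO => hs O (sub (x / y, y⁻¹) (Or.inr (Or.inr rfl)) O hO))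
        g1 (v := y⁻¹ • ![x, y, 1]) ?_ hq ![0, 2] (by simp [y0]) (fun j => ?_) (by decide) h0
      · rw [e3, CBk.aeval_smul g1, g2]; field_simp
      · fin_cases j <;> simp [div_eq_inv_mul]
    · refine chart h (fun O hO => hs O (sub (x, y) (Or.inl rfl) O hO)) g1 (v := ![x, y, 1])
        (by rw [g2, hf]) hq ![0, 1] rfl (fun j => ?_) (by decide) h0
      fin_cases j <;> rfl
  · obtain ⟨O, hO, -⟩ := ex_pt h 0
    obtain ⟨c, c1, d, d1, h1⟩ := hs O (sub (x, y) (Or.inl rfl) O hO)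
    obtain ⟨u, -, u2⟩ := jac_mem D₁ D₂ hO c1 d1
    rw [u2, e] at h1
    exact h1 (by simp)

end Pool.Agent.MP_20d318_ag.KK
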