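import Pool.Agent.MP_20d318_ag.KK.Spec

/-! Sections in the compositum; effective divisors have effective images. -/

set_option autoImplicit false
set_option linter.unusedSectionVars false

open scoped TensorProduct

namespace Pool.Agent.MP_20d318_ag.KK

open Pool.Agent.MP_fd6584_ag.Fn Pool.Agent.CBk Polynomial
open Pool.Agent.MP_fd6584_ag.AG hiding deg_inv deg_congr deg_of_unit deg_mul deg_prod deg_zpow
  deg_eq_zero deg_nonneg deg_div deg_pow
open Pool.Agent.MVg (Sc Fac)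
open Pool.Agent.MP_20d318_ag.CH (Lv Lf sX)

namespace PolR

variable {k M M' K Λ Λ' κ κ' : Type} {n n' : ℕ} [Field k] [Field M] [Field M'] [Field K]
  [Algebra k M] [Algebra k M'] [Algebra k K] {ι : M →ₐ[k] K} {ι' : M' →ₐ[k] K}

/-- A valuation ring over a prime element of the compositum ring. -/
theorem exists_val {π : Bq ι ι' ⊤ ⊤ ∅} (hπ : Prime π) :
    ∃ V : Subalgebra k K, IsVal V ∧ Ov ι ι' ⊤ ⊤ V ∧ ∀ b : Bq ι ι' ⊤ ⊤ ∅,
      ((b : K) ∈ mx V ↔ π ∣ b) := by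
  have : (Ideal.span {π}).IsPrime := (Ideal.span_singleton_prime hπ.ne_zero).2 hπ
  obtain ⟨V, hV, h⟩ := exists_val_of (Bq ι ι' ⊤ ⊤ ∅).val (Ideal.Quotient.mk (Ideal.span {π}))
    (fun b hb => by rw [show b = 0 from Subtype.ext hb, map_zero])
  refine ⟨V, hV, ⟨hV.isLocalRing,
    ⟨fun m _ => (h ⟨_, Bq_l (a := m) trivial⟩).1, fun _ _ q => isU_top.2 q.1⟩,
    ⟨fun m _ => (h ⟨_, Bq_r (a := m) trivial⟩).1, fun _ _ q => isU_top.2 q.1⟩⟩, fun b => ?_⟩
  rw [← Ideal.mem_span_singleton, ← Ideal.Quotient.eq_zero_iff_mem]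
  exact (h b).2

/-- The expansion in a basis of the second factor. -/
theorem expand {μ : K} (hμ : μ ∈ Bq ι ι' ⊤ ⊤ ∅) : ∃ (I : Type) (s : Finset I) (m : I → M)
    (m' : I → M'), LinearIndependent k m' ∧ μ = ∑ i ∈ s, ι (m i) * ι' (m' i) := by
  rw [← Bq_top] at hμ
  obtain ⟨z, rfl⟩ := hμ
  let ε := Module.Basis.ofVectorSpace k M'
  let β := Algebra.TensorProduct.basis M ε
  refine ⟨_, (β.repr z).support, β.repr z, ε, ε.linearIndependent, ?_⟩
  conv_lhs => rw [← β.linearCombination_repr z, Finsupp.linearCombination_apply, Finsupp.sum]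
  change pm ι ι' _ = _
  rw [map_sum]
  refine Finset.sum_congr rfl fun i _ => ?_
  rw [← pm_tmul]
  simp [β, TensorProduct.smul_tmul']

variable [Fintype κ] [Fintype κ'] {L : Lv k M Λ κ n} {L' : Lv k M' Λ' κ' n'} {v : K} {e : ℕ}
  {Z : Set (Subalgebra k K)} {g : Subalgebra k M → M} {g' : Subalgebra k M' → M'}
  {a : κ → κ' → ℤ} {O : Subalgebra k K}

/-- Removing the factors that are units over the generic point of the second factor. -/
theorem strip (h : Geo L L' ι ι' v e Z) (hg' : IsCart L'.Y g') (hO : O ∈ Z)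
    (hR : pr ι' L'.Y O = ⊤) {f : K} (hf : f * lb L L' ι ι' g g' a O ∈ O) :
    f * ι (g (pr ι L.Y O)) ∈ O := by
  have hU : ∀ m, m ≠ 0 → IsU O (ι' m) := fun m hm =>
    h.maps'.isU_up hO (by rw [hR]; exact isU_top.2 hm)
  have u : IsU O (∏ i, ∏ j, EE L L' ι ι' i j O ^ (-a i j)) :=
    isU_prod fun i _ => isU_prod fun j _ =>
      (h.eu hO i j (Or.inr (hU _ ((h.ok'.cs j).ne (h.maps'.mem hO))))).zpow _
  have u' : IsU O (up ι' L'.Y g' O) := hU _ (hg'.ne (h.maps'.mem hO))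
  have := u'.div_mem (u.div_mem hf)
  rwa [lb, ← mul_assoc, mul_div_cancel_right₀ _ u.1, ← mul_assoc,
    mul_div_cancel_right₀ _ u'.1] at this

/-- A section in the compositum has no denominator. -/
theorem poly (h : Geo L L' ι ι' v e Z) [UniqueFactorizationMonoid (Bq ι ι' ⊤ ⊤ ∅)]
    (hg : IsCart L.Y g) (hg' : IsCart L'.Y g') (A B : Bq ι ι' ⊤ ⊤ ∅) (hB : B ≠ 0)
    (hs : Sc Z (lb L L' ι ι' g g' a) ((A : K) / B)) : (A : K) / B ∈ Bq ι ι' ⊤ ⊤ ∅ := by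
  obtain ⟨A', B', c, hc, rfl, rfl⟩ := UniqueFactorizationMonoid.exists_reduced_factors' A B hB
  have hc0 : (c : K) ≠ 0 := fun e => left_ne_zero_of_mul hB (Subtype.ext e)
  have hB0 : (B' : K) ≠ 0 := fun e => right_ne_zero_of_mul hB (Subtype.ext e)
  rw [MulMemClass.coe_mul, MulMemClass.coe_mul, mul_div_mul_left _ _ hc0] at hs ⊢
  by_cases hu : IsUnit B'
  · obtain ⟨G, hG⟩ := hu.dvd (a := A')
    rw [hG, MulMemClass.coe_mul, mul_div_cancel_left₀ _ hB0]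
    exact G.2
  obtain ⟨π, hπ, hd⟩ := WfDvdMonoid.exists_irreducible_factor hu (right_ne_zero_of_mul hB)
  obtain ⟨V, hV, hT, hm⟩ := exists_val hπ.prime
  obtain ⟨O, hO, hOV, hR, hR'⟩ := h.below h.ok.nice.toFine.top h.ok'.nice.toFine.top hV hT
  have h1 := strip h hg' hO hR' (hs O hO)
  have hl : IsU O (ι (g (pr ι L.Y O))) :=
    h.maps.isU_up hO (by rw [hR]; exact isU_top.2 (hR ▸ hg.ne (h.maps.mem hO)))
  have h2 := hl.div_mem h1
  rw [mul_div_cancel_right₀ _ hl.ne] at h2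
  have hA := mx_mul_left (hOV.1 h2) ((hm B').2 hd)
  rw [div_mul_cancel₀ _ hB0] at hA
  exact absurd (hc ((hm A').1 hA) hd) hπ.not_isUnit

/-- The coefficients of a section. -/
theorem coeff_sc [NeZero (2 : k)] [IsAlgClosed k] (hG : GaStmt) (h : Geo L L' ι ι' v e Z)
    (hg : IsCart L.Y g) (hg' : IsCart L'.Y g') {I : Type} {s : Finset I} {m : I → M} {m' : I → M'}
    (hm : LinearIndependent k m')
    (hs : Sc Z (lb L L' ι ι' g g' a) (∑ i ∈ s, ι (m i) * ι' (m' i))) {i : I} (hi : i ∈ s) :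
    Sc L.Y g (m i) := by
  refine MVg.sc_of_places h.ok.nice hg fun P hP => ?_
  obtain ⟨V, hV, hd, hc⟩ := hG k M M' K ι ι' h.ext.dj P
  obtain ⟨O, hO, d, e, e'⟩ := h.below hP h.ok'.nice.toFine.top hV hd
  have b := strip h hg' hO e' (hs O hO)
  rw [e, Finset.sum_mul] at b
  refine hc I s (fun i => m i * g (plO P)) m' hm ?_ i hi
  simpa only [map_mul, mul_right_comm] using d.1 b

theorem comap_one (R : Subalgebra k M) : R.comap ((1 : M ≃ₐ[k] M) : M →ₐ[k] M) = R := by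
  ext x; simp

theorem lf_one (h : Geo L L' ι ι' v e Z) {r : M} (hr : r = 1 ∨ r = -1) : Lf L Aut.one r := by
  refine ⟨by rcases hr with rfl | rfl <;> simp, by rcases hr with rfl | rfl <;> simp [Aut.one],
    fun i R hR => ?_⟩
  have e1 : R.comap (((Aut.one : Aut L.Y).1 : M ≃ₐ[k] M) : M →ₐ[k] M) = R := comap_one R
  have e2 : (Aut.one : Aut L.Y).1 (L.s i R) = L.s i R := rfl
  rw [e1, e2, div_self ((h.ok.cs i).ne hR)]
  exact isU_one

theorem lb_sq (g : Subalgebra k M → M) (g' : Subalgebra k M' → M') (a : κ → κ' → ℤ)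
    (O : Subalgebra k K) : lb L L' ι ι' (g ^ 2) (g' ^ 2) (fun i j => a i j * 2) O =
      lb L L' ι ι' g g' a O * lb L L' ι ι' g g' a O := by
  have e1 : ∀ (x : K) (s : ℤ), x ^ (-(s * 2)) = (x ^ (-s)) ^ 2 := fun x s => by
    rw [← neg_mul, zpow_mul, zpow_ofNat]
  unfold lb up
  simp only [e1, Finset.prod_pow, Pi.pow_apply, map_pow]
  ring

theorem lb_up (h : Geo L L' ι ι' v e Z) (hg : IsCart L.Y g) (hg' : IsCart L'.Y g') {θ : Aut Z}
    (hθ : Up L L' ι ι' v e Z Aut.one 1 Aut.one (-1) θ) (a : κ → κ' → ℤ) (hO : O ∈ Z) :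
    IsU O (θ.1 (lb L L' ι ι' g g' a (O.comap (θ.1 : K →ₐ[k] K))) / lb L L' ι ι' g g' a O) := by
  have e1 : θ.1 (up ι L.Y g (O.comap (θ.1 : K →ₐ[k] K))) = up ι L.Y g O := by
    unfold up
    rw [hθ.h1, hθ.pr1 O hO]
    exact congrArg (fun R => ι (g R)) (comap_one _)
  have e2 : θ.1 (up ι' L'.Y g' (O.comap (θ.1 : K →ₐ[k] K))) = up ι' L'.Y g' O := by
    unfold up
    rw [hθ.h2, hθ.pr2 O hO]
    exact congrArg (fun R => ι' (g' R)) (comap_one _)
  have n1 : up ι L.Y g O * up ι' L'.Y g' O ≠ 0 :=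
    mul_ne_zero ((h.cartU hg).ne hO) ((h.symm.cartU hg').ne hO)
  unfold lb
  rw [map_mul, map_mul, e1, e2, mul_div_mul_left _ _ n1, map_prod, ← Finset.prod_div_distrib]
  refine isU_prod fun i _ => ?_
  rw [map_prod, ← Finset.prod_div_distrib]
  refine isU_prod fun j _ => ?_
  rw [map_zpow₀, ← div_zpow]
  exact (hθ.ee O hO i j).zpow _

end PolR

theorem pol_stmt : PolStmt := by
  intro hG k M M' K Λ Λ' κ κ' n n' _ _ _ _ _ _ _ _ _ _ _ L L' ι ι' v e Z h hU g g' a hg hg' μ h0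
    ⟨A, hA, B, hB, B0, hμ⟩ hs
  subst hμ
  obtain ⟨I, s, m, m', hm, q⟩ := PolR.expand
    (PolR.poly h hg hg' ⟨A, hA⟩ ⟨B, hB⟩ (fun e => B0 (congrArg Subtype.val e)) hs)
  replace q : A / B = _ := q
  rw [q] at hs h0
  obtain ⟨i, hi, ne⟩ := Finset.exists_ne_zero_of_sum_ne_zero h0
  exact ⟨m i, fun e => ne (by rw [e, map_zero, zero_mul]), PolR.coeff_sc hG h hg hg' hm hs hi⟩

theorem eff_stmt : EffStmt := by
  intro k M M' K Λ Λ' κ κ' n n' _ _ _ _ _ _ _ _ _ _ _ L L' ι ι' v e Z h hS hP g g' a hg hg' μ hμ s1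
  obtain ⟨θ, hθ⟩ := hS _ _ _ _ (PolR.lf_one h (Or.inl rfl)) (PolR.lf_one h.symm (Or.inr rfl))
  have s2 : Sc Z (lb L L' ι ι' g g' a) (θ.1 μ) := fun O hO => by
    have h1 : θ.1 (μ * lb L L' ι ι' g g' a (O.comap (θ.1 : K →ₐ[k] K))) ∈ O :=
      s1 _ ((θ.2 O).1 hO)
    have h2 := PolR.lb_up h hg hg' hθ a hO
    have h3 := O.mul_mem h1 h2.inv_mem
    rwa [map_mul, inv_div, mul_assoc, mul_div_cancel₀ _ (div_ne_zero_iff.1 h2.1).1] at h3
  refine hP (g ^ 2) (g' ^ 2) (fun i j => a i j * 2) (hg.pow 2) (hg'.pow 2) (μ * θ.1 μ)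
    (mul_ne_zero hμ ((map_ne_zero θ.1).2 hμ))
    (h.fld.nrm θ.1 hθ.h1 hθ.h2 (by simpa using hθ.h3) μ) fun O hO => ?_
  rw [PolR.lb_sq, mul_mul_mul_comm]
  exact O.mul_mem (s1 O hO) (s2 O hO)

end Pool.Agent.MP_20d318_ag.KK
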