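import Pool.Agent.MP_20d318_ag.KK.Spec

/-! Row PT: points over a given pair of points. -/

set_option autoImplicit false
set_option linter.unusedSectionVars false

namespace Pool.Agent.MP_20d318_ag.KK

open Pool.Agent.MP_fd6584_ag.Fn Pool.Agent.CBk
open Pool.Agent.MP_fd6584_ag.AG hiding deg_inv deg_congr deg_of_unit deg_mul deg_prod deg_zpow
  deg_eq_zero deg_nonneg deg_div deg_pow
open Pool.Agent.MP_20d318_ag.CH (Lv sX)
open Pool.Agent.CBk.XTst (mem_of_dom)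

namespace PtA

variable {k M M' K Λ Λ' κ κ' : Type} {n n' : ℕ} [Field k] [NeZero (2 : k)] [IsAlgClosed k]
  [Field M] [Field M'] [Field K] [Algebra k M] [Algebra k M'] [Algebra k K] [Fintype κ]
  [Fintype κ'] {L : Lv k M Λ κ n} {L' : Lv k M' Λ' κ' n'} {ι : M →ₐ[k] K} {ι' : M' →ₐ[k] K}
  {v : K} {e : ℕ} {Z : Set (Subalgebra k K)} {O V : Subalgebra k K} {R : Subalgebra k M}
  {R' : Subalgebra k M'}

theorem pow_unit {A : K} (hv : Ind V ![A]) (he : e = 1 ∨ e = 2) (c : k) :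
    IsU V (A ^ e - algebraMap k K c) := by
  rcases he with rfl | rfl
  · rw [pow_one]
    exact ind_one hv c
  · obtain ⟨r, rfl⟩ := IsAlgClosed.exists_pow_nat_eq c two_pos
    have := (ind_one hv r).mul (ind_one hv (-r))
    rwa [show (A - algebraMap k K r) * (A - algebraMap k K (-r)) =
      A ^ 2 - algebraMap k K (r ^ 2) by rw [map_neg, map_pow]; ring] at this

theorem prod_mx {I : Type} [Fintype I] {f : I → K} (hf : ∀ i, f i ∈ O) {i : I}
    (hi : f i ∈ mx O) : ∏ i, f i ∈ mx O := by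
  classical
  rw [← Finset.mul_prod_erase _ _ (Finset.mem_univ i)]
  exact mx_mul_right hi (O.prod_mem fun j _ => hf j)

variable (h : Geo L L' ι ι' v e Z)
include h

theorem res (hO : O ∈ Z) (hr : RatPt (pr ι L.Y O)) {b : M} (hb : b ∈ pr ι L.Y O) :
    ∃ d : k, ι b - algebraMap k K d ∈ mx O := by
  obtain ⟨d, hd⟩ := hr b hb
  have := (h.maps.mx_up hO hd.1).2 hd
  rw [map_sub, AlgHom.commutes] at this
  exact ⟨d, this⟩

theorem rest [DecidableEq κ] (hO : O ∈ Z) {i : κ} (hi : sX L ι i O ∈ mx O) :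
    IsU O (∏ i' ∈ Finset.univ.erase i, sX L ι i' O) :=
  isU_prod fun i' hi' => isU_of_not_mx (h.sm hO i') fun hm =>
    Finset.ne_of_mem_erase hi' (h.s1 hO i' i hm hi)

theorem eqn (hO : O ∈ Z) : AA L L' ι ι' v e O ^ e * ∏ i, sX L ι i O = ∏ j, sX L' ι' j O := by
  rw [Geo.prod_sX, Geo.prod_sX]
  exact (h.lqO hO).eq

theorem pT (hV : VqS) (hR : R ∈ L.Y) (hR' : R' ∈ L'.Y) (j : κ') (hs : L'.s j R' ∈ mx R') :
    ∃ O ∈ Z, pr ι L.Y O = R ∧ pr ι' L'.Y O = R' ∧ AA L L' ι ι' v e O ∈ mx O := by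
  obtain ⟨V, hA, hm⟩ := (hV k M M' K ι ι' e R R' _ _ _ (h.lq hR hR')).zero
    (prod_mx (fun j => h.ok'.sm _ hR' j) hs)
  obtain ⟨O, hO, hOV, rfl, rfl⟩ := h.below hR hR' hm.val hm.ov
  exact ⟨O, hO, rfl, rfl, mx_of_le hOV.1 (mem_of_dom hOV (h.aa O hO) hA.1) hA⟩

theorem rat (hV : VqS) (j : κ') : ∃ O ∈ Z, RatPt O ∧ sC L' L ι' ι j O ∈ mx O := by
  classical
  obtain ⟨i⟩ := h.ok.ne
  obtain ⟨R, hR, hr, -⟩ := h.ok.rat i
  obtain ⟨R', hR', hr', hs⟩ := h.ok'.rat j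
  obtain ⟨O, hO, rfl, rfl, hA⟩ := pT h hV hR hR' j hs
  have ht : sX L' ι' j O ∈ mx O := (h.symm.s_mx hO j).2 hs
  refine ⟨O, hO, ratPt_of (h.pts O hO _ hA.1 (.inl rfl)) rfl ?_, ?_⟩
  · rintro _ (⟨b, hb, rfl⟩ | ⟨b, hb, rfl⟩ | rfl)
    · exact res h hO hr hb
    · exact res h.symm hO hr' hb
    · exact ⟨0, by rwa [map_zero, sub_zero]⟩
  · have h1 : IsU O (∏ i, EE L L' ι ι' i j O / sX L ι i O) :=
      isU_prod fun i _ => h.eT hO i j hA.1 ht
    have h2 := rest h.symm hO ht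
    have h3 := eqn h hO
    rw [← Finset.mul_prod_erase _ (sX L' ι' · O) (Finset.mem_univ j)] at h3
    have := mx_div (mx_div (mx_pow hA h.ext.e0) h1) h2
    rw [Finset.prod_div_distrib, div_div_eq_mul_div, h3, div_right_comm,
      mul_div_cancel_right₀ _ h2.1] at this
    simpa only [sC, EE_symm L L' ι ι'] using this

theorem pE (hV : VqS) (hD : DimqStmt) (i : κ) (j : κ') : ∃ ν : Curve Z,
    RatPt (pr ι L.Y ν.gen) ∧ RatPt (pr ι' L'.Y ν.gen) ∧ sX L ι i ν.gen ∈ mx ν.gen ∧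
      sX L' ι' j ν.gen ∈ mx ν.gen ∧ ν.deg (EE L L' ι ι' i j) < 0 := by
  classical
  obtain ⟨R, hR, hr, hs⟩ := h.ok.rat i
  obtain ⟨R', hR', hr', hs'⟩ := h.ok'.rat j
  obtain ⟨V, hv, hm⟩ := (hV k M M' K ι ι' e R R' _ _ _ (h.lq hR hR')).exc
    (prod_mx (fun i => h.ok.sm _ hR i) hs) (prod_mx (fun j => h.ok'.sm _ hR' j) hs')
  obtain ⟨O, hO, hOV, rfl, rfl⟩ := h.below hR hR' hm.val hm.ov
  have hA : AA L L' ι ι' v e O ∈ O := mem_of_dom hOV (h.aa O hO) hm.mem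
  have hl := h.gX.loc O hO
  have t : sX L ι i O ∈ mx O := (h.s_mx hO i).2 hs
  have t' : sX L' ι' j O ∈ mx O := (h.symm.s_mx hO j).2 hs'
  have u := rest h hO t
  have u' := rest h.symm hO t'
  have h3 := eqn h hO
  rw [← Finset.mul_prod_erase _ (sX L ι · O) (Finset.mem_univ i),
    ← Finset.mul_prod_erase _ (sX L' ι' · O) (Finset.mem_univ j)] at h3
  obtain ⟨d, hd⟩ := res h hO hr (prod_mem (t := Finset.univ.erase i)
    fun i' _ => h.ok.sm _ hR i')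
  obtain ⟨d', hd'⟩ := res h.symm hO hr' (prod_mem (t := Finset.univ.erase j)
    fun j' _ => h.ok'.sm _ hR' j')
  rw [map_prod] at hd hd'
  change (∏ i' ∈ Finset.univ.erase i, sX L ι i' O) - _ ∈ _ at hd
  change (∏ j' ∈ Finset.univ.erase j, sX L' ι' j' O) - _ ∈ _ at hd'
  generalize (∏ i' ∈ Finset.univ.erase i, sX L ι i' O) = p at u h3 hd
  generalize (∏ j' ∈ Finset.univ.erase j, sX L' ι' j' O) = p' at u' h3 hd'
  have s0 := h.sne hO i
  have e1 : sX L' ι' j O / sX L ι i O = AA L L' ι ι' v e O ^ e * p / p' := by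
    rw [div_eq_div_iff s0 u'.1, ← h3]
    ring
  have hy : sX L' ι' j O / sX L ι i O ∈ O :=
    e1 ▸ u'.div_mem (O.mul_mem (O.pow_mem hA e) u.mem)
  have d0 : d ≠ 0 := fun q => u.not_mx (by simpa [q] using hd)
  have hu : ∀ c : k, sX L' ι' j O / sX L ι i O - algebraMap k K c ∉ mx O := fun c hh => by
    have a1 := mx_div (mx_sub' hl (mx_add hl (mx_mul_right hh u'.mem)
      (mx_mul_left (O.algebraMap_mem c) hd')) (mx_mul_left (O.pow_mem hA e) hd)) (isU_const d0)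
    have a2 : algebraMap k K d ≠ 0 := by simpa using d0
    have a3 := u'.1
    refine (pow_unit hv h.ext.he (c * d' / d)).not_mx
      (hOV.mx (Eq.subst (motive := (· ∈ mx O)) (Eq.symm ?_) a1))
    rw [e1, map_div₀, map_mul]
    change AA L L' ι ι' v e O ^ e - _ = _
    field_simp
    ring
  obtain ⟨ν, rfl⟩ := curve_stmt k K _ h.gX O hO
    (hD k M M' K ι ι' _ _ O _ 0 0 (h.ov hO) (h.pts O hO _ hA (.inl rfl)) hr.dim hr'.dim).1
    (not_dim_zero hl hy hu)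
  have g0 : Gn {sX L' ι' j ν.gen, sX L ι i ν.gen} ν.gen (EE L L' ι ι' i j ν.gen) := by
    rw [Set.pair_comm]
    exact h.gE hO i j
  have g1 : ∀ P, Gn {sX L' ι' j ν.gen, sX L ι i ν.gen} (ν.pt P) (EE L L' ι ι' i j (ν.pt P)) := by
    intro P
    have := h.gE (ν.pt_mem P) i j
    rwa [sX, sX, up, up, pr_pt h.gY h.gX h.maps ν hr P, pr_pt h.gY' h.gX h.maps' ν hr' P,
      Set.pair_comm] at this
  refine ⟨ν, hr, hr', t, t', ?_⟩
  rw [deg_gn_pair ν g0 g1 s0 hy, neg_lt_zero]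
  exact pdeg_pos (ev_transcendental ν hy hu)

end PtA

theorem pt_stmt : PtStmt :=
  fun hV hD _ _ _ _ _ _ _ _ _ _ _ _ _ _ _ _ _ _ _ _ _ _ _ _ _ _ _ _ h =>
    ⟨fun _ hR _ hR' j hs => PtA.pT h hV hR hR' j hs, PtA.pE h hV hD, PtA.rat h hV⟩

end Pool.Agent.MP_20d318_ag.KK
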