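import Pool.Agent.MP_20d318_ag.KK.ESpec

/-! The generic tangent line of a smooth plane sextic is a simple tangent. -/

set_option autoImplicit false
set_option linter.unusedSectionVars false

namespace Pool.Agent.MP_20d318_ag.KK

open Polynomial

namespace Qua

variable {k k₁ A : Type} [Field k] [Field k₁] [Algebra k k₁] [CommRing A] [Algebra k A]

theorem chain (D : Derivation k A A) (x : Fin 3 → A) (F : MvPolynomial (Fin 3) k) :
    D (MvPolynomial.aeval x F) =
      ∑ i, MvPolynomial.aeval x (MvPolynomial.pderiv i F) * D (x i) := by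
  induction F using MvPolynomial.induction_on with
  | C a => simp
  | add p q hp hq => simp only [map_add, hp, hq, add_mul, Finset.sum_add_distrib]
  | mul_X p j hp =>
    simp only [map_mul, MvPolynomial.aeval_X, Derivation.leibniz, smul_eq_mul, hp, map_add,
      add_mul, Finset.sum_add_distrib, Finset.mul_sum, mul_assoc, MvPolynomial.pderiv_X]
    congr 1
    rw [Finset.sum_eq_single j (fun i _ h => by simp [Pi.single_eq_of_ne' h]) (by simp)]
    simp

theorem chain' (x : Fin 3 → k₁[X]) (F : MvPolynomial (Fin 3) k) :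
    derivative (MvPolynomial.aeval x F) =
      ∑ i, MvPolynomial.aeval x (MvPolynomial.pderiv i F) * derivative (x i) :=
  chain (Polynomial.derivative'.restrictScalars k) x F

theorem ev (s : k₁) (x : Fin 3 → k₁[X]) (F : MvPolynomial (Fin 3) k) :
    (MvPolynomial.aeval x F).eval s = MvPolynomial.aeval (fun i => (x i).eval s) F := by
  induction F using MvPolynomial.induction_on with
  | C a => simp [Polynomial.algebraMap_apply]
  | add p q hp hq => simp only [map_add, eval_add, hp, hq]
  | mul_X p j hp => simp only [map_mul, eval_mul, hp, MvPolynomial.aeval_X]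

theorem euler {G : MvPolynomial (Fin 3) k} {n : ℕ} (h : G.IsHomogeneous n) (x : Fin 3 → A)
    (h0 : MvPolynomial.aeval x G = 0) :
    ∑ i, x i * MvPolynomial.aeval x (MvPolynomial.pderiv i G) = 0 := by
  have := congrArg (MvPolynomial.aeval x) h.sum_X_mul_pderiv
  simpa [h0] using this

theorem hom {G : MvPolynomial (Fin 3) k} {n : ℕ} (h : G.IsHomogeneous n) (c : A) (x : Fin 3 → A) :
    MvPolynomial.aeval (fun i => c * x i) G = c ^ n * MvPolynomial.aeval x G := by
  rw [MvPolynomial.aeval_def, MvPolynomial.aeval_def, MvPolynomial.eval₂_eq',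
    MvPolynomial.eval₂_eq', Finset.mul_sum]
  refine Finset.sum_congr rfl fun d hd => ?_
  have e : ∑ i, d i = n := by
    rw [← h (MvPolynomial.mem_support_iff.1 hd), Finsupp.weight_apply, Finsupp.sum_fintype] <;> simp
  simp only [mul_pow, Finset.prod_mul_distrib, Finset.prod_pow_eq_pow_sum, e]
  ring

variable {G : MvPolynomial (Fin 3) k} {d : Derivation k k₁ k₁} {t u : k₁}

theorem sep [IsAlgClosed k₁] (h : Tn G d t u) (h2 : d (d u) ≠ 0) : (tl G d t u).Separable := by
  refine (isCoprime_iff_aeval_ne_zero_of_isAlgClosed k₁ k₁ _ _).2 fun s => ?_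
  by_contra hc
  rw [not_or, not_not, not_not, coe_aeval_eq_eval, tl, chain', eval_finsetSum, ev] at hc
  obtain ⟨a, b⟩ := hc
  simp only [eval_mul, ev] at b
  have e : (fun i => eval s (![1 + C t * X, C (d u) + C u * X, X] i)) =
      ![1 + t * s, d u + u * s, s] := by
    funext i
    fin_cases i <;> simp
  rw [e] at a b
  have c := euler h.sm.1 _ a
  have c' := chain d ![1 + t * s, d u + u * s, s] G
  rw [a, map_zero] at c'
  obtain ⟨i, hi⟩ := h.sm.2 k₁ _ (fun q => by
    have q0 := congrFun q 0
    have q2 := congrFun q 2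
    simp at q0 q2
    simp [q2] at q0) a
  have m : ∀ i, MvPolynomial.aeval ![1 + t * s, d u + u * s, s] (MvPolynomial.pderiv i G) = 0 := by
    simp only [Fin.sum_univ_three] at b c c'
    simp [h.dt] at b c c'
    generalize hm : (fun i => MvPolynomial.aeval ![1 + t * s, d u + u * s, s]
      (MvPolynomial.pderiv i G)) = m
    have hm' := congrFun hm
    simp only [hm'] at b c c' ⊢
    have m1 : m 1 = 0 := (mul_eq_zero.1 (show m 1 * d (d u) = 0 by
      linear_combination -c' - d s * b - s * c + s ^ 2 * b)).resolve_right h2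
    have m0 : m 0 = 0 := by linear_combination c - s * b - d u * m1
    have m2 : m 2 = 0 := by linear_combination b - t * m0 - u * m1
    intro i
    fin_cases i
    exacts [m0, m1, m2]
  exact hi (m i)

variable (G d t u) in
/-- The restriction to the tangent line in the coordinate at the point of contact. -/
noncomputable def hl (F : MvPolynomial (Fin 3) k) : k₁[X] :=
  MvPolynomial.aeval ![C t + X, C u + C (d u) * X, 1] F

theorem hl0 (F : MvPolynomial (Fin 3) k) :
    (hl d t u F).eval 0 = MvPolynomial.aeval ![t, u, 1] F := by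
  rw [hl, ev]
  congr 2
  funext i
  fin_cases i <;> simp

theorem hl_der (F : MvPolynomial (Fin 3) k) : derivative (hl d t u F) =
    hl d t u (MvPolynomial.pderiv 0 F) + hl d t u (MvPolynomial.pderiv 1 F) * C (d u) := by
  rw [hl, chain', Fin.sum_univ_three]
  simp [hl]

theorem hl1 (h : d t = 1) (F : MvPolynomial (Fin 3) k) :
    (derivative (hl d t u F)).eval 0 = d (MvPolynomial.aeval ![t, u, 1] F) := by
  rw [hl_der, chain, Fin.sum_univ_three, eval_add, eval_mul, hl0, hl0]
  simp [h]

theorem hl_deg (h : G.IsHomogeneous 6) : (hl d t u G).natDegree ≤ 6 := by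
  rw [hl, ← MvPolynomial.aeval_map_algebraMap k₁]
  refine (MvPolynomial.aeval_natDegree_le (m := 6) (n := 1) _ (h.map _).totalDegree_le _
    fun i => ?_).trans le_rfl
  fin_cases i
  · simp
  · simp; compute_degree
  · simp

theorem tl_eq [IsAlgClosed k₁] (h : G.IsHomogeneous 6) : tl G d t u = reflect 6 (hl d t u G) := by
  refine eq_of_infinite_eval_eq _ _ (Set.Infinite.mono (s := {0}ᶜ) (fun s hs => ?_)
    (Set.finite_singleton (0 : k₁)).infinite_compl)
  have s0 : s ≠ 0 := hs
  let : Invertible s⁻¹ := invertibleOfNonzero (inv_ne_zero s0)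
  have e := eval₂_reflect_mul_pow (RingHom.id k₁) s⁻¹ 6 _ (hl_deg (d := d) (t := t) (u := u) h)
  rw [invOf_eq_inv, inv_inv, eval₂_id, eval₂_id, inv_pow, mul_inv_eq_iff_eq_mul₀ (pow_ne_zero _ s0),
    mul_comm] at e
  show eval s _ = eval s _
  rw [e, tl, hl, ev, ev, ← hom h]
  congr 2
  funext i
  fin_cases i <;> simp <;> field_simp <;> ring

theorem deg [CharZero k] [IsAlgClosed k₁] (h : Tn G d t u) (h2 : d (d u) ≠ 0) :
    (tl G d t u).natDegree = 4 := by
  have c0 : (hl d t u G).coeff 0 = 0 := by rw [coeff_zero_eq_eval_zero, hl0, h.on]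
  have e1 : (derivative (hl d t u G)).eval 0 = 0 := by rw [hl1 h.dt, h.on, map_zero]
  have c1 : (hl d t u G).coeff 1 = 0 := by
    rw [← coeff_zero_eq_eval_zero, coeff_derivative] at e1
    simpa using e1
  have c2 : (hl d t u G).coeff 2 ≠ 0 := fun q => by
    have e2 : (derivative (derivative (hl d t u G))).eval 0 = 0 := by
      rw [← coeff_zero_eq_eval_zero, coeff_derivative, coeff_derivative, q]
      simp
    rw [hl_der, eval_add, eval_mul, hl0, hl0, eval_C] at e1
    rw [hl_der, derivative_add, derivative_mul, derivative_C, mul_zero, add_zero, eval_add,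
      eval_mul, hl1 h.dt, hl1 h.dt, eval_C] at e2
    have e3 := congrArg d e1
    have e4 := euler h.sm.1 _ h.on
    obtain ⟨i, hi⟩ := h.sm.2 k₁ _ (fun q => by simpa using congrFun q 2) h.on
    generalize hm : (fun i => MvPolynomial.aeval ![t, u, 1] (MvPolynomial.pderiv i G)) = m
    have hm' := congrFun hm
    simp only [hm', Fin.sum_univ_three] at e1 e2 e3 e4 hi
    simp at e3 e4
    have m1 : m 1 = 0 := (mul_eq_zero.1 (show m 1 * d (d u) = 0 by
      linear_combination e3 - e2)).resolve_right h2
    have m0 : m 0 = 0 := by linear_combination e1 - d u * m1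
    have m2 : m 2 = 0 := by linear_combination e4 - t * m0 - u * m1
    fin_cases i
    exacts [hi m0, hi m1, hi m2]
  rw [tl_eq h.sm.1]
  refine natDegree_eq_of_le_of_coeff_ne_zero (natDegree_le_iff_coeff_eq_zero.2 fun N hN => ?_) ?_
  · rw [coeff_reflect]
    rcases lt_or_ge 6 N with q | q
    · rw [revAt_eq_self_of_lt q]
      exact coeff_eq_zero_of_natDegree_lt ((hl_deg h.sm.1).trans_lt q)
    · rw [revAt_le q]
      interval_cases N
      exacts [c1, c0]
  · rwa [coeff_reflect, revAt_le (by norm_num)]

end Qua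

theorem qua_stmt : QuaStmt := fun _ _ _ _ _ _ _ _ _ _ _ _ h h2 => ⟨Qua.deg h h2, Qua.sep h h2⟩

end Pool.Agent.MP_20d318_ag.KK
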