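import Pool.Agent.MP_20d318_ag.KK.Spec

/-! Row SIG: pairs of automorphisms of the factors lift. -/

set_option autoImplicit false
set_option linter.unusedSectionVars false

namespace Pool.Agent.MP_20d318_ag.KK

open Pool.Agent.MP_fd6584_ag.Fn Pool.Agent.CBk
open Pool.Agent.MP_fd6584_ag.AG hiding deg_inv deg_congr deg_of_unit deg_mul deg_prod deg_zpow
  deg_eq_zero deg_nonneg deg_div deg_pow
open Pool.Agent.MP_20d318_ag.CH (Lv OkA Ok sX)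
open Pool.Agent.MP_20d318_ag.CB.P.SigX (sq_unit cc comap_comap)

namespace Sig

variable {k M M' K Λ Λ' κ κ' : Type} {n n' : ℕ} [Field k] [Field M] [Field M'] [Field K]
  [Algebra k M] [Algebra k M'] [Algebra k K] [Fintype κ] [Fintype κ'] {L : Lv k M Λ κ n}
  {L' : Lv k M' Λ' κ' n'} {ι : M →ₐ[k] K} {ι' : M' →ₐ[k] K} {v : K} {e : ℕ}
  {Z : Set (Subalgebra k K)} {O : Subalgebra k K} {σ : M ≃ₐ[k] M} {σ' : M' ≃ₐ[k] M'}
  {Φ : K ≃ₐ[k] K} {r : M} {r' : M'}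

variable (L ι σ Φ r) in
/-- A lift of `σ` to the field. -/
structure S1 : Prop where
  h1 : ∀ m, Φ (ι m) = ι (σ m)
  ne : r ≠ 0
  sq : σ L.φ = L.φ * r ^ 2
  inv : ∀ R, R ∈ L.Y ↔ R.comap (σ : M →ₐ[k] M) ∈ L.Y
  st : ∀ i, ∀ R ∈ L.Y, IsU R (σ (L.s i (R.comap (σ : M →ₐ[k] M))) / L.s i R)

theorem S1.symm (h : S1 L ι σ Φ r) : S1 L ι σ.symm Φ.symm (σ.symm r)⁻¹ := by
  have h1 : ∀ m, Φ.symm (ι m) = ι (σ.symm m) := fun m => by
    rw [Φ.symm_apply_eq, h.h1, σ.apply_symm_apply]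
  have h0 : σ.symm r ≠ 0 := (map_ne_zero _).2 h.ne
  have hi : ∀ R, R ∈ L.Y ↔ R.comap (σ.symm : M →ₐ[k] M) ∈ L.Y := fun R => by
    rw [h.inv (R.comap _), cc]
  refine ⟨h1, inv_ne_zero h0, ?_, hi, fun i R hR => ?_⟩
  · rw [σ.symm_apply_eq, map_mul, h.sq, map_pow, map_inv₀, σ.apply_symm_apply]
    have := h.ne
    field_simp
  · have h2 := (isU_comap (σ.symm : M →ₐ[k] M)).1 (h.st i _ ((hi R).1 hR)).inv
    rw [cc, inv_div, map_div₀] at h2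
    simpa using h2

theorem v_symm (a : S1 L ι σ Φ r) (b : S1 L' ι' σ' Φ r') (c : Φ v = (ι' r' / ι r) ^ (3 - e) * v) :
    Φ.symm v = (ι' (σ'.symm r')⁻¹ / ι (σ.symm r)⁻¹) ^ (3 - e) * v := by
  have n1 : ι r ≠ 0 := (map_ne_zero ι).2 a.ne
  have n2 : ι' r' ≠ 0 := (map_ne_zero ι').2 b.ne
  rw [Φ.symm_apply_eq, map_mul, map_pow, map_div₀, a.h1, b.h1, c, map_inv₀ σ, map_inv₀ σ',
    σ.apply_symm_apply, σ'.apply_symm_apply, map_inv₀, map_inv₀, ← mul_assoc, ← mul_pow,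
    show (ι' r')⁻¹ / (ι r)⁻¹ * (ι' r' / ι r) = 1 by field_simp, one_pow, one_mul]

theorem jj_unit (h : Ok L) (hL : S1 L ι σ Φ r) {R : Subalgebra k M} (hR : R ∈ L.Y) :
    IsU R (r * σ (L.jj (R.comap (σ : M →ₐ[k] M))) / L.jj R) := by
  refine sq_unit (h.nice.nrm R hR) ?_
  have u : IsU R (∏ i, σ (L.s i (R.comap (σ : M →ₐ[k] M))) / L.s i R) :=
    isU_prod fun i _ => hL.st i R hR
  rw [Finset.prod_div_distrib, ← map_prod, ← h.eqn _ hR, ← h.eqn _ ((hL.inv R).1 hR), map_mul,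
    map_pow, hL.sq, mul_assoc, mul_div_mul_left _ _ h.φne, ← mul_pow, ← div_pow] at u
  exact u

variable (h : Geo L L' ι ι' v e Z)

include h

theorem mem0 {R : Subalgebra k M} {R' : Subalgebra k M'} (hR : R ∈ L.Y) (hR' : R' ∈ L'.Y)
    (ho : Ov ι ι' R R' O) {a : K}
    (ha : a = A0 L L' ι ι' v e R R' ∨ a = (A0 L L' ι ι' v e R R')⁻¹)
    (hp : O ∈ Pts (Bq ι ι' R R' {a})) : O ∈ Z := by
  obtain ⟨V, hV, d⟩ := exists_val ho.loc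
  obtain ⟨O₁, h1, d1, e1, e2⟩ := h.below hR hR' hV
    ⟨hV.isLocalRing, ho.dom.trans (d.comap ι), ho.dom'.trans (d.comap ι')⟩
  have eA : AA L L' ι ι' v e O₁ = A0 L L' ι ι' v e R R' := by rw [AA, e1, e2]
  have a0 : a ≠ 0 := by
    have := (h.lq hR hR').ne
    rcases ha with rfl | rfl
    exacts [this, inv_ne_zero this]
  have aV : a ∈ V := d.1 (hp.2.1 (Bq_g rfl))
  have a1 : a ∈ O₁ := by
    have q : a ∈ O₁ ∨ a⁻¹ ∈ O₁ := by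
      have := h.aa O₁ h1
      rw [eA] at this
      rcases ha with rfl | rfl
      · exact this
      · rw [inv_inv]; exact this.symm
    refine q.elim id fun q => ?_
    simpa using (d1.2 _ q ⟨inv_ne_zero a0, d1.1 q, by rwa [inv_inv]⟩).inv_mem
  have p1 := h.pts O₁ h1 a a1 (by rwa [eA])
  rw [e1, e2] at p1
  rw [Pts_eq hp p1 p1.2.1 hp.2.1 d d1]
  exact h1

theorem dom_comap (hL : S1 L ι σ Φ r) (hO : O ∈ Z) :
    Dom ((pr ι L.Y O).comap (σ : M →ₐ[k] M)) ((O.comap (Φ : K →ₐ[k] K)).comap ι) := by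
  rw [comap_comap hL.h1]
  exact (h.maps.dom hO).comap _

theorem pr_comap (hL : S1 L ι σ Φ r) (hO : O ∈ Z) :
    pr ι L.Y (O.comap (Φ : K →ₐ[k] K)) = (pr ι L.Y O).comap (σ : M →ₐ[k] M) :=
  pr_eq h.gY (isLocalRing_comap _ (h.gX.loc O hO)) ((hL.inv _).1 (h.maps.mem hO))
    (dom_comap h hL hO)

theorem s_unit (hL : S1 L ι σ Φ r) (hO : O ∈ Z) (i : κ) :
    IsU O (sX L ι i O / Φ (sX L ι i (O.comap (Φ : K →ₐ[k] K)))) := by
  have u := (h.maps.isU_up hO (hL.st i _ (h.maps.mem hO))).inv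
  rw [map_div₀, inv_div, ← hL.h1, ← pr_comap h hL hO] at u
  exact u

theorem ov (a : S1 L ι σ Φ r) (b : S1 L' ι' σ' Φ r') (hO : O ∈ Z) :
    Ov ι ι' ((pr ι L.Y O).comap (σ : M →ₐ[k] M)) ((pr ι' L'.Y O).comap (σ' : M' →ₐ[k] M'))
      (O.comap (Φ : K →ₐ[k] K)) :=
  ⟨isLocalRing_comap _ (h.gX.loc O hO), dom_comap h a hO, dom_comap h.symm b hO⟩

theorem chart (a : S1 L ι σ Φ r) (b : S1 L' ι' σ' Φ r') (hO : O ∈ Z) {x y : K} {c : M} {c' : M'}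
    (uc : IsU (pr ι L.Y O) c) (uc' : IsU (pr ι' L'.Y O) c') (q : Φ y = ι c * ι' c' * x)
    (p : O ∈ Pts (Bq ι ι' (pr ι L.Y O) (pr ι' L'.Y O) {x})) :
    O.comap (Φ : K →ₐ[k] K) ∈ Pts (Bq ι ι' ((pr ι L.Y O).comap (σ : M →ₐ[k] M))
      ((pr ι' L'.Y O).comap (σ' : M' →ₐ[k] M')) {y}) := by
  have m1 : ∀ m ∈ pr ι L.Y O, ι m ∈ (Bq ι ι' ((pr ι L.Y O).comap (σ : M →ₐ[k] M))
      ((pr ι' L'.Y O).comap (σ' : M' →ₐ[k] M')) {y}).map (Φ : K →ₐ[k] K) := fun m hm =>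
    ⟨ι (σ.symm m), Bq_l (by simpa using hm), (a.h1 _).trans (by rw [σ.apply_symm_apply])⟩
  have m2 : ∀ m ∈ pr ι' L'.Y O, ι' m ∈ (Bq ι ι' ((pr ι L.Y O).comap (σ : M →ₐ[k] M))
      ((pr ι' L'.Y O).comap (σ' : M' →ₐ[k] M')) {y}).map (Φ : K →ₐ[k] K) := fun m hm =>
    ⟨ι' (σ'.symm m), Bq_r (by simpa using hm), (b.h1 _).trans (by rw [σ'.apply_symm_apply])⟩
  refine (B1.Pts_comap Φ _).1 (Pts_of_le p (Algebra.adjoin_le ?_)
    (Subalgebra.map_le.2 ((ov h a b hO).le ?_)))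
  · rintro _ (⟨m, hm, rfl⟩ | ⟨m, hm, rfl⟩ | rfl)
    · exact m1 m hm
    · exact m2 m hm
    · have n1 : ι c ≠ 0 := (map_ne_zero ι).2 uc.ne
      have n2 : ι' c' ≠ 0 := (map_ne_zero ι').2 uc'.ne
      have := mul_mem (mul_mem (m1 _ uc.inv_mem) (m2 _ uc'.inv_mem))
        (Subalgebra.mem_map.2 ⟨y, Bq_g rfl, q⟩)
      rw [map_inv₀, map_inv₀] at this
      refine Eq.subst (motive := fun z => z ∈ _) ?_ this
      field_simp
  · rintro _ rfl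
    show Φ _ ∈ O
    rw [q]
    exact mul_mem (mul_mem (h.maps.mem_up hO uc.mem) (h.maps'.mem_up hO uc'.mem))
      (p.2.1 (Bq_g rfl))

theorem mem (a : S1 L ι σ Φ r) (b : S1 L' ι' σ' Φ r') (c : Φ v = (ι' r' / ι r) ^ (3 - e) * v)
    (hO : O ∈ Z) : O.comap (Φ : K →ₐ[k] K) ∈ Z := by
  have hR := h.maps.mem hO
  have hR' := h.maps'.mem hO
  have u := (jj_unit h.ok a hR).pow (3 - e)
  have u' := (jj_unit h.ok' b hR').pow (3 - e)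
  have n1 : ι r ≠ 0 := (map_ne_zero ι).2 a.ne
  have n2 : ι (L.jj (pr ι L.Y O)) ≠ 0 := (map_ne_zero ι).2 (h.ok.cj.ne hR)
  have n3 : ι' (L'.jj (pr ι' L'.Y O)) ≠ 0 := (map_ne_zero ι').2 (h.ok'.cj.ne hR')
  have n4 : ι (σ (L.jj ((pr ι L.Y O).comap (σ : M →ₐ[k] M)))) ≠ 0 :=
    (map_ne_zero ι).2 ((map_ne_zero σ).2 (h.ok.cj.ne ((a.inv _).1 hR)))
  have q : Φ (A0 L L' ι ι' v e ((pr ι L.Y O).comap (σ : M →ₐ[k] M))
      ((pr ι' L'.Y O).comap (σ' : M' →ₐ[k] M'))) =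
      ι ((r * σ (L.jj ((pr ι L.Y O).comap (σ : M →ₐ[k] M))) / L.jj (pr ι L.Y O)) ^ (3 - e))⁻¹ *
        ι' ((r' * σ' (L'.jj ((pr ι' L'.Y O).comap (σ' : M' →ₐ[k] M'))) /
          L'.jj (pr ι' L'.Y O)) ^ (3 - e)) * AA L L' ι ι' v e O := by
    rw [AA, A0, A0, map_mul, map_pow, map_div₀, c, a.h1, b.h1, map_inv₀, map_pow, map_pow,
      ← inv_pow, ← mul_pow, mul_left_comm, ← mul_pow, mul_right_comm, ← mul_pow, mul_comm]
    congr 2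
    simp only [map_div₀, map_mul]
    field_simp
  refine (h.aa O hO).elim (fun ha => ?_) fun ha => ?_
  · exact mem0 h ((a.inv _).1 hR) ((b.inv _).1 hR') (ov h a b hO) (Or.inl rfl)
      (chart h a b hO u.inv u' q (h.pts O hO _ ha (Or.inl rfl)))
  · refine mem0 h ((a.inv _).1 hR) ((b.inv _).1 hR') (ov h a b hO) (Or.inr rfl)
      (chart h a b hO u.inv.inv u'.inv ?_ (h.pts O hO _ ha (Or.inr rfl)))
    rw [map_inv₀, q, mul_inv, mul_inv, ← map_inv₀, ← map_inv₀]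

theorem ee_unit (a : S1 L ι σ Φ r) (b : S1 L' ι' σ' Φ r')
    (c : Φ v = (ι' r' / ι r) ^ (3 - e) * v) (hO : O ∈ Z) (i : κ) (j : κ') :
    IsU O (Φ (EE L L' ι ι' i j (O.comap (Φ : K →ₐ[k] K))) / EE L L' ι ι' i j O) := by
  have g1 := (gn_map (Φ : K →ₐ[k] K)).2 (h.gE (mem h a b c hO) i j)
  rw [Set.image_pair] at g1
  exact (g1.pair_unit (s_unit h a hO i) (s_unit h.symm b hO j)).unit (h.gE hO i j)

end Sig

open Sig in
theorem sig_stmt : SigStmt := by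
  intro hH k M M' K Λ Λ' κ κ' n n' _ _ _ _ _ _ _ _ _ _ _ L L' ι ι' v e Z h g r g' r' hg hg'
  obtain ⟨Φ, h1, h2, h3⟩ := hH k M M' K ι ι' L.φ L'.φ v e g.1 g'.1 r r' h.ext h.fld hg.ne hg'.ne
    hg.sq hg'.sq
  have a : S1 L ι g.1 Φ r := ⟨h1, hg.ne, hg.sq, g.2, hg.st⟩
  have b : S1 L' ι' g'.1 Φ r' := ⟨h2, hg'.ne, hg'.sq, g'.2, hg'.st⟩
  have hX : ∀ O, O ∈ Z ↔ O.comap (Φ : K →ₐ[k] K) ∈ Z := fun O =>
    ⟨mem h a b h3, fun hO => by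
      have := mem h a.symm b.symm (v_symm a b h3) hO
      rwa [show (O.comap (Φ : K →ₐ[k] K)).comap (Φ.symm : K →ₐ[k] K) = O from cc Φ.symm O]
        at this⟩
  exact ⟨⟨Φ, hX⟩, h1, h2, h3, fun O hO => pr_comap h a hO, fun O hO => pr_comap h.symm b hO,
    fun O hO i j => ee_unit h a b h3 hO i j⟩

end Pool.Agent.MP_20d318_ag.KK
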