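import Pool.Agent.MP_20d318_ag.KK.LSpec

/-! Rows DKS and SML. -/

set_option autoImplicit false

namespace Pool.Agent.MP_20d318_ag.KK

open Pool.Agent.MP_20d318_ag.Lat hiding act actW W
open Pool.Agent.MP_20d318_ag.CH

universe u v

theorem dks_stmt : DksStmt.{u, v} := by
  rintro V 𝒞 κ _ _ _ N ⟨R, h1, h2, h3⟩ ⟨F, k1, k2, k3⟩
  choose T t1 t2 t3 using fun τ : κ → ℝ =>
    dickson R {f ∈ F | (fun i => f (N.c i)) = τ} id fun f hf r hr => by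
      obtain ⟨z, hz⟩ := (k1 f hf.1).1 r (h1 hr)
      have := (k1 f hf.1).2 r (h2 (subset_cone _ hr)).1
      rw [hz] at this
      exact ⟨z.toNat, hz.trans
        (by exact_mod_cast (Int.toNat_of_nonneg (by exact_mod_cast this)).symm)⟩
  refine ⟨R, _, h1, h2, h3, k2.biUnion fun τ _ => t2 τ, fun f hf => ?_, fun L hL z hz h =>
    k3 L (h2 hL).1 z hz fun f hf => ?_⟩
  · obtain ⟨τ, -, hf⟩ := Set.mem_iUnion₂.1 hf
    exact k1 f (t1 τ hf).1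
  · obtain ⟨g, hg, e⟩ := t3 _ f ⟨hf, rfl⟩
    have a := h g (Set.mem_iUnion₂.2 ⟨_, ⟨f, hf, rfl⟩, hg⟩)
    have b : g L ≤ f L := e L hL
    simp only [map_sub, map_sum, map_smul, fun i => congrFun (t1 _ hg).2 i] at a ⊢
    linarith

theorem sml_stmt : SmlStmt.{u, v} := by
  classical
  intro V 𝒞 κ _ _ _ N b
  have e : ∀ (L : V) (x : κ → ℝ) i, (2 : ℝ) • L - ∑ i, x i • N.c i =
      (L - ∑ j ∈ Finset.univ.erase i, x j • N.c j) + (L - x i • N.c i) := fun L x i => by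
    rw [← Finset.add_sum_erase _ _ (Finset.mem_univ i), two_smul]
    abel
  refine ⟨fun hc h => ⟨fun ν L hL x h0 h1 => ?_, fun L hL hΛ x h0 hz h1 => ?_⟩, ?_, ?_⟩
  · obtain ⟨i, hi⟩ := h.cur ν L hL x h0 h1
    rw [e L x i, map_add]
    exact add_nonneg hi (h1 i ν)
  · obtain ⟨i, hi⟩ := h.eff L hL hΛ x h0 hz h1
    obtain ⟨j, hj⟩ := h.eff _ (h1 i) (N.Λ.sub_mem hΛ ((hz i).smul_mem (hc i))) 0 (fun _ => le_rfl)
      (fun _ => IZ.zero) fun _ => by simpa using h1 i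
    rw [e L x i]
    exact b.cone.add _ hi _ (by simpa using hj)
  · rintro ⟨F, h1, h2⟩
    refine ⟨N.d '' F, ?_, (h1.image _).image _, fun L hL z hz h =>
      h2 L hL z hz fun ν hν => h _ ⟨ν, hν, rfl⟩⟩
    rintro _ ⟨ν, -, rfl⟩
    exact ⟨b.int ν, fun x hx => hx ν⟩
  · rintro 𝓗 ⟨-, -, -, -, -, hh, ⟨R, h1, h2, h3⟩, -⟩ hf
    have lo : ∀ x ∈ N.Nef, ((x, 0, 0) : WW V κ) ∈ N.NL ∩ 𝓗 := fun x hx =>
      ⟨⟨fun _ _ => le_rfl, by simp, hx, by simpa using hx⟩,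
        hh.low _ hx (fun _ _ => le_rfl) (by simp)⟩
    refine ⟨R.image (LinearMap.fst ℝ _ _), ?_, ?_, fun x hx => ?_⟩ <;> rw [Finset.coe_image]
    · rintro _ ⟨r, hr, rfl⟩
      exact (h1 hr).1
    · refine (N.isCone_nef.inter b.cone).cone_subset ?_
      rintro _ ⟨r, hr, rfl⟩
      have k := (h2 (subset_cone _ hr)).1.2.2.1
      have := b.cone.smul (1 / 2) (by norm_num) _ (hf.eff _ k (h1 hr).1 0 (fun _ => le_rfl)
        (fun _ => IZ.zero) fun _ => by simpa using k)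
      exact ⟨k, by simpa [smul_smul] using this⟩
    · obtain ⟨g, hg, k⟩ := h3 _ (lo x hx.1) hx.2
      rw [cone_map]
      exact ⟨g, hg, _, k (lo _ (b.gN g hg x hx.1)), rfl⟩

end Pool.Agent.MP_20d318_ag.KK
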