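import Pool.Agent.MP_20d318_ag.KK.Spec
import Pool.Agent.MP_20d318_ag.CH.Smo

/-! Row SMO: smoothness of the charts. -/

set_option autoImplicit false
set_option linter.unusedSectionVars false

open scoped TensorProduct

namespace Pool.Agent.MP_20d318_ag.KK

open Pool.Agent.MP_fd6584_ag.Fn Pool.Agent.CBk Polynomial
open Pool.Agent.MP_fd6584_ag.AG hiding deg_inv deg_congr deg_of_unit deg_mul deg_prod deg_zpow
  deg_eq_zero deg_nonneg deg_div deg_pow
open Pool.Agent.MP_20d318_ag.CH.SmoR (ext_der der_X res_der ev_mem)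

namespace Smo

variable {k M M' K : Type} [Field k] [Field M] [Field M'] [Field K] [Algebra k M] [Algebra k M']
  [Algebra k K]

theorem ten_der {B B' : Type} [CommRing B] [CommRing B'] [Algebra k B] [Algebra k B']
    (d : Derivation k B' B') : ∃ D : Derivation k (B ⊗[k] B') (B ⊗[k] B'),
      ∀ a b, D (a ⊗ₜ[k] b) = a ⊗ₜ[k] d b := by
  refine ⟨Derivation.mk' (d.toLinearMap.lTensor B) fun x y => ?_, fun a b => rfl⟩
  induction x with
  | zero => simp
  | add x x' hx hx' =>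
    rw [add_mul, map_add, hx, hx', map_add, add_smul, smul_add]
    abel
  | tmul a b =>
    induction y with
    | zero => simp
    | add y y' hy hy' =>
      rw [mul_add, map_add, hy, hy', map_add, add_smul, smul_add]
      abel
    | tmul a' b' =>
      simp only [Algebra.TensorProduct.tmul_mul_tmul, LinearMap.lTensor_tmul, Derivation.coeFn_coe,
        Derivation.leibniz, smul_eq_mul, TensorProduct.tmul_add, mul_comm a' a]

theorem range_eq (ι : M →ₐ[k] K) (ι' : M' →ₐ[k] K) (R : Subalgebra k M) (R' : Subalgebra k M')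
    (A : K) : (XAlg.ev (pm (ι.comp R.val) (ι'.comp R'.val)) A).range = Bq ι ι' R R' {A} := by
  refine le_antisymm ?_ (Algebra.adjoin_le ?_)
  · rintro _ ⟨p, rfl⟩
    have h1 : ∀ z, pm (ι.comp R.val) (ι'.comp R'.val) z ∈ Bq ι ι' R R' {A} := fun z => by
      induction z with
      | zero => rw [map_zero]; exact zero_mem _
      | tmul a b => rw [pm_tmul]; exact mul_mem (Bq_l a.2) (Bq_r b.2)
      | add a b ha hb => rw [map_add]; exact add_mem ha hb
    exact ev_mem (pm (ι.comp R.val) (ι'.comp R'.val)) A (Bq ι ι' R R' {A}) h1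
      (Bq_g (Set.mem_singleton A)) p
  · rintro _ (⟨a, ha, rfl⟩ | ⟨a, ha, rfl⟩ | rfl)
    · refine ⟨C ((⟨a, ha⟩ : R) ⊗ₜ[k] (1 : R')), (XAlg.ev_C _ _ _).trans ?_⟩
      rw [pm_tmul, map_one, mul_one]
      rfl
    · refine ⟨C ((1 : R) ⊗ₜ[k] (⟨a, ha⟩ : R')), (XAlg.ev_C _ _ _).trans ?_⟩
      rw [pm_tmul, map_one, one_mul]
      rfl
    · exact ⟨X, XAlg.ev_X _ _⟩

end Smo

theorem smo_stmt : SmoStmt := by
  intro hyp kq k M M' K _ _ _ _ _ _ _ _ _ ι ι' e R R' A S S' O h ov hO hR hR' hc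
  have h1 : Algebra.FormallySmooth k (R ⊗[k] R') := Algebra.FormallySmooth.comp k R (R ⊗[k] R')
  have h2 : Algebra.FormallySmooth k (R ⊗[k] R')[X] :=
    Algebra.FormallySmooth.comp k (R ⊗[k] R') (R ⊗[k] R')[X]
  have hA : A ∈ O := hO.2.1 (Bq_g rfl)
  have mS : ι S ∈ O := ov.dom.1 h.mS
  have up : ∀ a, IsU R' a → IsU O (ι' a) := fun a ha => (isU_comap ι').1 (ha.mono ov.dom'.1)
  have e0 : e ≠ 0 := by rcases h.he with rfl | rfl <;> decide
  have eL : ∀ a : R, XAlg.ev (pm (ι.comp R.val) (ι'.comp R'.val)) A (C (a ⊗ₜ[k] (1 : R'))) = ι a :=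
    fun a => (XAlg.ev_C _ _ _).trans (by rw [pm_tmul, map_one, mul_one]; rfl)
  have eR : ∀ a : R', XAlg.ev (pm (ι.comp R.val) (ι'.comp R'.val)) A (C ((1 : R) ⊗ₜ[k] a)) = ι' a :=
    fun a => (XAlg.ev_C _ _ _).trans (by rw [pm_tmul, map_one, one_mul]; rfl)
  have hk := kq k M M' K ι ι' e R R' A S S' h
  rw [← Smo.range_eq] at hO
  have hP : XAlg.ev (pm (ι.comp R.val) (ι'.comp R'.val)) A
      (C ((⟨S, h.mS⟩ : R) ⊗ₜ[k] (1 : R')) * X ^ e - C ((1 : R) ⊗ₜ[k] (⟨S', h.mS'⟩ : R'))) = 0 := by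
    rw [map_sub, map_mul, map_pow, eL, eR, XAlg.ev_X, ← h.eq, mul_comm, sub_self]
  rcases isU_or_mx h.mS' with hu | hm
  · have hg := up _ hu
    rw [← h.eq] at hg
    have uA : IsU O A := IsU.of_pow hA e0 (IsU.of_mul (pow_mem hA e) mS hg)
    have uS : IsU O (ι S) := IsU.of_mul mS (pow_mem hA e) (by rwa [mul_comm])
    have ue : IsU O (e : K) := by
      rcases h.he with rfl | rfl
      · simpa using isU_one
      · have := isU_const (O := O) (NeZero.ne (2 : k))
        rwa [map_ofNat] at this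
    obtain ⟨D, hD⟩ := der_X (k := k) (A := R ⊗[k] R')
    refine hyp k K _ _ O _ D h2 hO hP hk ?_
    rw [hD, derivative_sub, derivative_C, sub_zero, derivative_C_mul_X_pow, map_mul, map_pow,
      XAlg.ev_X, C_mul, map_mul, eL, map_natCast, map_natCast]
    exact (uS.mul ue).mul (uA.pow _)
  · obtain ⟨D₀, h3, h4⟩ := hc hm
    obtain ⟨d, hd⟩ := res_der R' D₀ h3
    obtain ⟨D₁, hD₁⟩ := Smo.ten_der (B := R) d
    obtain ⟨D, hX, hD⟩ := ext_der D₁
    refine hyp k K _ _ O _ D h2 hO hP hk ?_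
    rw [map_sub, Derivation.leibniz, Derivation.leibniz_pow, hX, hD, hD, hD₁, hD₁,
      Derivation.map_one_eq_zero, TensorProduct.tmul_zero, map_zero, smul_zero, smul_zero,
      smul_zero, smul_zero, add_zero, zero_sub, map_neg, eR, hd]
    exact (up _ h4).neg

end Pool.Agent.MP_20d318_ag.KK
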