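import Pool.Agent.MP_20d318_ag.KK.Spec

/-! Specialization of the second factor: non-squares and rational points. -/

set_option autoImplicit false
set_option linter.unusedSectionVars false

open scoped TensorProduct

namespace Pool.Agent.MP_20d318_ag.KK

open Pool.Agent.MP_20d318_ag.CH (MW cb)

namespace Spz

variable {k M M' K : Type} [Field k] [IsAlgClosed k] [Field M] [Field M'] [Field K] [Algebra k M]
  [Algebra k M'] [Algebra k K] {ι : M →ₐ[k] K} {ι' : M' →ₐ[k] K}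

theorem left_mem {T : Subalgebra k M'} {z : T ⊗[k] M} {c : M'} (h : inc M T z = c ⊗ₜ 1) :
    c ∈ T := by
  obtain ⟨f, hf⟩ := Module.Projective.exists_dual_eq_one k (one_ne_zero (α := M))
  have key : ∀ z : T ⊗[k] M, TensorProduct.rid k M' (f.lTensor M' (inc M T z)) ∈ T := fun z => by
    induction z with
    | zero => simp
    | tmul a b => simpa [inc] using T.smul_mem a.2 _
    | add a b ha hb => simpa using add_mem ha hb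
  simpa [h, hf] using key z

theorem spec (h : Dj ι ι') {Z : Set K} (hZ : Z.Finite) (hB : ∀ z ∈ Z, z ∈ Bq ι ι' ⊤ ⊤ ∅) :
    ∃ (S : Subalgebra k K) (σ : S →ₐ[k] M), (∀ z ∈ Z, ∃ hz : z ∈ S, z ≠ 0 → σ ⟨z, hz⟩ ≠ 0) ∧
      (∀ m, ∃ hm : ι m ∈ S, σ ⟨_, hm⟩ = m) ∧
      ∀ c (hc : ι' c ∈ S), ∃ r : k, σ ⟨_, hc⟩ = algebraMap k M r := by
  obtain ⟨T, ψ, H⟩ := exists_spec (k := k) (hZ.preimage h.symm.injOn)
  have inj : Function.Injective ((pm ι' ι).comp (inc M T)) := h.symm.comp (inc_inj T)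
  let e := AlgEquiv.ofInjective _ inj
  have he : ∀ z x hx, pm ι' ι (inc M T z) = x → e.symm ⟨x, hx⟩ = z := fun z x hx q =>
    e.symm_apply_eq.2 (Subtype.ext q.symm)
  refine ⟨_, (spc M ψ).comp e.symm.toAlgHom, fun z hz => ?_, fun m => ?_, fun c hc => ?_⟩
  · have := hB z hz
    rw [← Bq_comm, ← Bq_top] at this
    obtain ⟨y, rfl⟩ := this
    obtain ⟨y, rfl, hy⟩ := H y hz
    exact ⟨⟨y, rfl⟩, fun n => (congrArg (spc M ψ) (he y _ _ rfl)).trans_ne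
      (hy fun q => n (by rw [q]; exact map_zero _))⟩
  · have q : pm ι' ι (inc M T (1 ⊗ₜ m)) = ι m := by simp [inc, pm_tmul]
    exact ⟨⟨1 ⊗ₜ m, q⟩, (congrArg (spc M ψ) (he _ _ _ q)).trans (by simp [spc])⟩
  · obtain ⟨z, hz⟩ := id hc
    have t : c ∈ T := left_mem (z := z) (h.symm (hz.trans (by simp [pm_tmul])))
    have q : pm ι' ι (inc M T ((⟨c, t⟩ : T) ⊗ₜ 1)) = ι' c := by simp [inc, pm_tmul]
    exact ⟨ψ ⟨c, t⟩, (congrArg (spc M ψ) (he _ _ _ q)).trans (by simp [spc])⟩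

end Spz

open Spz

theorem nsq_stmt : NsqStmt := by
  rintro k M M' K _ _ _ _ _ _ _ _ _ ι ι' h φ c hφ hc _ ⟨a, ha, b, hb, b0, rfl⟩ e
  obtain ⟨S, σ, h1, h2, h3⟩ := spec h (Set.toFinite {a, b, ι' c}) (by
    rintro _ (rfl | rfl | rfl)
    exacts [ha, hb, Bq_r trivial])
  obtain ⟨ma, -⟩ := h1 a (by simp)
  obtain ⟨mb, nb⟩ := h1 b (by simp)
  obtain ⟨mc, nc⟩ := h1 (ι' c) (by simp)
  obtain ⟨mφ, eφ⟩ := h2 φ
  obtain ⟨r, hr⟩ := h3 c mc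
  obtain ⟨s, rfl⟩ := IsAlgClosed.exists_eq_mul_self r
  have e1 : (⟨a, ma⟩ : S) ^ 2 = ⟨b, mb⟩ ^ 2 * ⟨_, mφ⟩ * ⟨_, mc⟩ := Subtype.ext (by
    change a ^ 2 = b ^ 2 * ι φ * ι' c
    rw [mul_assoc, ← e]
    field_simp)
  have e2 := congrArg σ e1
  have n1 := nb b0
  have n2 := nc ((map_ne_zero ι').2 hc)
  rw [hr, map_mul] at n2
  rw [map_mul, map_mul, map_pow, map_pow, eφ, hr, map_mul] at e2
  have n3 := left_ne_zero_of_mul n2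
  refine hφ ⟨σ ⟨a, ma⟩ / (σ ⟨b, mb⟩ * algebraMap k M s), ?_⟩
  field_simp
  linear_combination -e2

theorem mws_stmt : MwsStmt := by
  intro k M M' K _ _ _ _ _ _ _ _ _ ι ι' h hR φ ψ l hM ψ0 l0 l1 a b e
  obtain ⟨a₁, ha₁, a₂, ha₂, a0, rfl⟩ := hR a
  obtain ⟨b₁, hb₁, b₂, hb₂, b0, rfl⟩ := hR b
  by_contra hn
  obtain ⟨S, σ, h1, h2, h3⟩ := spec h
    (Set.toFinite {a₁, a₂, b₁, b₂, ι' ψ, ι' l, ι' (l - 1)}) (by
      rintro _ (rfl | rfl | rfl | rfl | rfl | rfl | rfl)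
      exacts [ha₁, ha₂, hb₁, hb₂, Bq_r trivial, Bq_r trivial, Bq_r trivial])
  obtain ⟨m₁, -⟩ := h1 a₁ (by simp)
  obtain ⟨m₂, n₂⟩ := h1 a₂ (by simp)
  obtain ⟨m₃, n₃⟩ := h1 b₁ (by simp)
  obtain ⟨m₄, n₄⟩ := h1 b₂ (by simp)
  obtain ⟨m₅, n₅⟩ := h1 (ι' ψ) (by simp)
  obtain ⟨m₆, n₆⟩ := h1 (ι' l) (by simp)
  obtain ⟨m₇, n₇⟩ := h1 (ι' (l - 1)) (by simp)
  obtain ⟨mφ, eφ⟩ := h2 φ
  obtain ⟨r, hr⟩ := h3 ψ m₅
  obtain ⟨c, hc⟩ := h3 l m₆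
  obtain ⟨s, rfl⟩ := IsAlgClosed.exists_eq_mul_self r
  have e1 : (⟨b₁, m₃⟩ : S) ^ 2 * ⟨a₂, m₂⟩ ^ 3 = ⟨b₂, m₄⟩ ^ 2 * (⟨_, mφ⟩ * ⟨_, m₅⟩ *
      (⟨a₁, m₁⟩ * (⟨a₁, m₁⟩ - ⟨a₂, m₂⟩) * (⟨a₁, m₁⟩ - ⟨_, m₆⟩ * ⟨a₂, m₂⟩))) := Subtype.ext (by
    change b₁ ^ 2 * a₂ ^ 3 = b₂ ^ 2 * (ι φ * ι' ψ * (a₁ * (a₁ - a₂) * (a₁ - ι' l * a₂)))
    field_simp at e
    linear_combination e)
  have e2 := congrArg σ e1
  have e3 : (⟨_, m₇⟩ : S) = ⟨_, m₆⟩ - 1 := Subtype.ext (by simp)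
  have k2 := n₂ a0
  have k3 := n₃ fun q => hn (by rw [q, zero_div])
  have k4 := n₄ b0
  have k5 := n₅ ((map_ne_zero ι').2 ψ0)
  have k6 := n₆ ((map_ne_zero ι').2 l0)
  have k7 := n₇ ((map_ne_zero ι').2 (sub_ne_zero.2 l1))
  rw [hr, map_mul] at k5
  rw [e3, map_sub, map_one, hc] at k7
  rw [hc] at k6
  simp only [map_mul, map_pow, map_sub, eφ, hr, hc] at e2
  have k8 := left_ne_zero_of_mul k5
  refine div_ne_zero k3 (mul_ne_zero k4 k8) (hM c (fun q => k6 (by simp [q]))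
    (fun q => k7 (by simp [q])) (σ ⟨a₁, m₁⟩ / σ ⟨a₂, m₂⟩) _ ?_)
  unfold cb
  field_simp
  linear_combination e2

end Pool.Agent.MP_20d318_ag.KK
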