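import Pool.Agent.MP_20d318_ag.CH.RowsX

/-! Tensor products of fields: specialization, linear disjointness, valuation rings. -/

set_option autoImplicit false
set_option linter.unusedSectionVars false

open scoped TensorProduct

namespace Pool.Agent.MP_20d318_ag.KK

open Pool.Agent.MP_fd6584_ag.Fn Pool.Agent.CBk
open Pool.Agent.MP_fd6584_ag.AG hiding deg_inv deg_congr deg_of_unit deg_mul deg_prod deg_zpow
  deg_eq_zero deg_nonneg deg_div deg_pow

section spec

variable {k L K : Type} [Field k] [Field L] [Field K] [Algebra k L] [Algebra k K]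

theorem exists_pt [IsAlgClosed k] {C : Set L} (hC : C.Finite) :
    ∃ (T : Subalgebra k L) (ψ : T →ₐ[k] k), ∀ c ∈ C, ∃ h : c ∈ T, c ≠ 0 → ψ ⟨c, h⟩ ≠ 0 := by
  let T := Algebra.adjoin k (C ∪ C⁻¹)
  have : Algebra.FiniteType k T := (Subalgebra.fg_iff_finiteType _).1
    (Subalgebra.fg_def.2 ⟨_, hC.union hC.inv, rfl⟩)
  obtain ⟨m, hm⟩ := Ideal.exists_maximal T
  let _ := Ideal.Quotient.field m
  have : Module.Finite k (T ⧸ m) := finite_of_finite_type_of_isJacobsonRing k (T ⧸ m)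
  let e : k ≃ₐ[k] (T ⧸ m) :=
    AlgEquiv.ofBijective (Algebra.ofId k _) IsAlgClosed.algebraMap_bijective_of_isIntegral
  refine ⟨T, e.symm.toAlgHom.comp (Ideal.Quotient.mkₐ k m), fun c hc =>
    ⟨Algebra.subset_adjoin (Or.inl hc), fun h0 => IsUnit.ne_zero (IsUnit.map _ ?_)⟩⟩
  exact IsUnit.of_mul_eq_one ⟨c⁻¹, Algebra.subset_adjoin (Or.inr (by simpa using hc))⟩
    (Subtype.ext (mul_inv_cancel₀ h0))

/-- The inclusion of tensor products. -/
noncomputable def inc (K : Type) [Field K] [Algebra k K] (T : Subalgebra k L) :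
    T ⊗[k] K →ₐ[k] L ⊗[k] K := Algebra.TensorProduct.map T.val (AlgHom.id k K)

/-- The specialization map. -/
noncomputable def spc (K : Type) [Field K] [Algebra k K] {T : Subalgebra k L} (ψ : T →ₐ[k] k) :
    T ⊗[k] K →ₐ[k] K := Algebra.TensorProduct.productMap ((Algebra.ofId k K).comp ψ) (AlgHom.id k K)

theorem inc_inj (T : Subalgebra k L) : Function.Injective (inc K T) :=
  Module.Flat.rTensor_preserves_injective_linearMap (M := K) T.val.toLinearMap
    Subtype.val_injective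

theorem exists_spec [IsAlgClosed k] {Z : Set (L ⊗[k] K)} (hZ : Z.Finite) :
    ∃ (T : Subalgebra k L) (ψ : T →ₐ[k] k),
      ∀ z ∈ Z, ∃ z', inc K T z' = z ∧ (z ≠ 0 → spc K ψ z' ≠ 0) := by
  let ε := Module.Basis.ofVectorSpace k K
  let β := Algebra.TensorProduct.basis L ε
  obtain ⟨T, ψ, h⟩ := exists_pt (k := k) (hZ.biUnion fun z _ => (β.repr z).finite_range)
  refine ⟨T, ψ, fun z hz => ?_⟩
  choose h1 h2 using fun i => h (β.repr z i) (Set.mem_biUnion hz ⟨i, rfl⟩)
  refine ⟨∑ i ∈ (β.repr z).support, (⟨_, h1 i⟩ : T) ⊗ₜ ε i, ?_, fun h0 e => h0 ?_⟩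
  · conv_rhs => rw [← β.linearCombination_repr z, Finsupp.linearCombination_apply, Finsupp.sum]
    rw [map_sum]
    refine Finset.sum_congr rfl fun i _ => ?_
    simp [inc, β, TensorProduct.smul_tmul']
  · rw [map_sum] at e
    have h3 := linearIndependent_iff'.1 ε.linearIndependent (β.repr z).support
      (fun i => ψ ⟨_, h1 i⟩) (by
        rw [← e]
        refine Finset.sum_congr rfl fun i _ => ?_
        simp [spc, Algebra.smul_def])
    refine β.repr.map_eq_zero_iff.1 (Finsupp.ext fun i => ?_)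
    by_contra h4
    exact h2 i h4 (h3 i (Finsupp.mem_support_iff.2 h4))

/-- The tensor product of two fields over an algebraically closed field is a domain. -/
theorem td [IsAlgClosed k] : NoZeroDivisors (L ⊗[k] K) := ⟨fun {x y} hxy => by
  by_contra h
  rw [not_or] at h
  obtain ⟨T, ψ, H⟩ := exists_spec (k := k) (Set.toFinite {x, y})
  obtain ⟨x', rfl, hx⟩ := H x (by simp)
  obtain ⟨y', rfl, hy⟩ := H y (by simp)
  have h1 : x' * y' = 0 := inc_inj T (by rw [map_mul, hxy, map_zero])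
  exact mul_ne_zero (hx h.1) (hy h.2) (by rw [← map_mul, h1, map_zero])⟩

/-- A valuation ring with a given centre. -/
theorem exists_val_of {B D : Type} [CommRing B] [CommRing D] [Nontrivial D] [NoZeroDivisors D]
    [Algebra k B] (π : B →ₐ[k] K) (χ : B →+* D) (h : ∀ b, π b = 0 → χ b = 0) :
    ∃ V : Subalgebra k K, IsVal V ∧ ∀ b, π b ∈ V ∧ (π b ∈ mx V ↔ χ b = 0) := by
  have e : ∀ b, π b ∈ π '' {c | χ c = 0} ↔ χ b = 0 := fun b => ⟨fun ⟨c, h1, h2⟩ => by
    have := h (b - c) (by rw [map_sub, h2, sub_self])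
    rwa [map_sub, show χ c = 0 from h1, sub_zero] at this, fun hb => ⟨b, hb, rfl⟩⟩
  obtain ⟨O, hO, hU⟩ := exists_loc π.range (π '' {c | χ c = 0}) ⟨0, map_zero χ, map_zero π⟩
    (by rw [← map_one π, e, map_one]; exact one_ne_zero)
    (by
      rintro _ ⟨a, rfl⟩ _ ⟨b, rfl⟩ h1 h2
      exact (map_add π a b ▸ e _).2 (by rw [map_add, (e a).1 h1, (e b).1 h2, add_zero]))
    (by
      rintro _ ⟨a, rfl⟩ _ ⟨b, rfl⟩
      exact (map_mul π a b ▸ e _).trans (by rw [map_mul, mul_eq_zero, ← e, ← e]; rfl))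
  obtain ⟨V, hV, hd⟩ := exists_val hO.1
  refine ⟨V, hV, fun b => ⟨hd.1 (hO.2.1 ⟨b, rfl⟩), ?_⟩⟩
  have h1 := hU _ ⟨b, rfl⟩
  have h2 : π b ∈ O := hO.2.1 ⟨b, rfl⟩
  exact ⟨fun hm => (e b).1 (by_contra fun hn => (mx_of_le hd.1 h2 hm).2 (h1.2 hn)),
    fun hb => hd.mx ⟨h2, fun hu => h1.1 hu ((e b).2 hb)⟩⟩

/-- The ring of a place is a maximal subring. -/
theorem plO_max {P : Place k K} {O : Subalgebra k K} (h : plO P ≤ O) (hO : O ≠ ⊤) :
    O = plO P := by
  refine le_antisymm (fun a ha => by_contra fun hn => hO (eq_top_iff.2 fun b _ => ?_)) h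
  rw [mem_plO_ord, not_le] at hn
  have a0 : a ≠ 0 := fun h0 => by simp [h0] at hn
  rcases eq_or_ne b 0 with rfl | b0
  · exact zero_mem _
  have h1 : b / a ^ (P.ord b).natAbs ∈ plO P := by
    rw [mem_plO_ord, P.ord_div b0 (pow_ne_zero _ a0), P.ord_pow]
    have := Int.le_natAbs (a := -P.ord b)
    rw [Int.natAbs_neg] at this
    nlinarith [Int.natCast_nonneg (P.ord b).natAbs]
  have := O.mul_mem (h h1) (O.pow_mem ha (P.ord b).natAbs)
  rwa [div_mul_cancel₀ _ (pow_ne_zero _ a0)] at this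

/-- Two places of a chart that lie over a common point are equal. -/
theorem place_ext {C V : Subalgebra k K} {P P' : Place k K} (hP : plO P ∈ Pts C)
    (hP' : plO P' ∈ Pts C) (hV : IsLocalRing V) (hC : C ≤ V) {b : K} (b0 : b ≠ 0)
    (bm : b ∈ mx V) (h : ∀ c ∈ C, c ∈ mx V → c ∈ mx (plO P))
    (h' : ∀ c ∈ C, c ∈ mx V → c ∈ mx (plO P')) : P = P' := by
  obtain ⟨O, hO, hd⟩ := exists_ctr hV hC
  have key : ∀ Q : Place k K, plO Q ∈ Pts C → (∀ c ∈ C, c ∈ mx V → c ∈ mx (plO Q)) →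
      O = plO Q := fun Q hQ q => by
    refine plO_max (fun f hf => ?_) fun e => ?_
    · obtain ⟨x, hx, y, hy, hu, rfl⟩ := hQ.2.2 f hf
      exact (hd.2 y (hO.2.1 hy) (isU_of_not_mx (hC hy) fun m => (q y hy m).2 hu)).div_mem
        (hO.2.1 hx)
    · exact bm.2 ((show IsU O b from e ▸ isU_top.2 b0).mono hd.1)
  exact plO_inj ((key P hP h).symm.trans (key P' hP' h')).le

end spec

section prod

variable {k B B' K : Type} [Field k] [CommRing B] [CommRing B'] [Field K] [Algebra k B]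
  [Algebra k B'] [Algebra k K]

/-- The product map. -/
noncomputable def pm (ι : B →ₐ[k] K) (ι' : B' →ₐ[k] K) : B ⊗[k] B' →ₐ[k] K :=
  Algebra.TensorProduct.productMap ι ι'

theorem pm_tmul (ι : B →ₐ[k] K) (ι' : B' →ₐ[k] K) (a : B) (b : B') :
    pm ι ι' (a ⊗ₜ[k] b) = ι a * ι' b := rfl

theorem pm_comm (ι : B →ₐ[k] K) (ι' : B' →ₐ[k] K) (z : B ⊗[k] B') :
    pm ι' ι (Algebra.TensorProduct.comm k B B' z) = pm ι ι' z := by
  induction z with
  | zero => simp
  | tmul a b => rw [Algebra.TensorProduct.comm_tmul, pm_tmul, pm_tmul, mul_comm]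
  | add a b ha hb => rw [map_add, map_add, map_add, ha, hb]

theorem pm_range (ι : B →ₐ[k] K) (ι' : B' →ₐ[k] K) :
    (pm ι ι').range = Algebra.adjoin k (Set.range ι ∪ Set.range ι') := by
  rw [pm, Algebra.TensorProduct.productMap_range, Algebra.adjoin_union, ← AlgHom.coe_range,
    ← AlgHom.coe_range, Algebra.adjoin_eq, Algebra.adjoin_eq]

/-- Linear disjointness. -/
def Dj (ι : B →ₐ[k] K) (ι' : B' →ₐ[k] K) : Prop := Function.Injective (pm ι ι')

theorem Dj.symm {ι : B →ₐ[k] K} {ι' : B' →ₐ[k] K} (h : Dj ι ι') : Dj ι' ι := fun x y e => by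
  obtain ⟨x, rfl⟩ := (Algebra.TensorProduct.comm k B B').surjective x
  obtain ⟨y, rfl⟩ := (Algebra.TensorProduct.comm k B B').surjective y
  rw [pm_comm, pm_comm] at e
  rw [h e]

theorem Dj.sub {ι : B →ₐ[k] K} {ι' : B' →ₐ[k] K} (h : Dj ι ι') (R : Subalgebra k B)
    (R' : Subalgebra k B') : Dj (ι.comp R.val) (ι'.comp R'.val) := by
  have e : ∀ z, pm (ι.comp R.val) (ι'.comp R'.val) z =
      pm ι ι' (TensorProduct.map R.val.toLinearMap R'.val.toLinearMap z) := fun z => by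
    induction z with
    | zero => simp
    | tmul a b => rfl
    | add a b ha hb => rw [map_add, map_add, map_add, ha, hb]
  exact fun x y q => TensorProduct.map_injective_of_flat_flat _ _ Subtype.val_injective
    Subtype.val_injective (h (by rw [← e, ← e, q]))

end prod

end Pool.Agent.MP_20d318_ag.KK
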