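import Pool.Agent.MP_20d318_ag.KK.Spec

/-! ROW TEST: the test curves on the blow-up of a product. -/

set_option autoImplicit false
set_option linter.unusedSectionVars false

namespace Pool.Agent.MP_20d318_ag.KK

open Pool.Agent.MP_fd6584_ag.Fn Pool.Agent.CBk
open Pool.Agent.MP_fd6584_ag.AG hiding deg_inv deg_congr deg_of_unit deg_mul deg_prod deg_zpow
  deg_eq_zero deg_nonneg deg_div deg_pow
open Pool.Agent.MP_20d318_ag.CH (Lv sX nd_d nd_c lin_rat lin_congr)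

namespace Tst

variable {k M M' K Λ Λ' κ κ' : Type} {n n' : ℕ} [Field k] [Field M] [Field M'] [Field K]
  [Algebra k M] [Algebra k M'] [Algebra k K] [Fintype κ] [Fintype κ'] {L : Lv k M Λ κ n}
  {L' : Lv k M' Λ' κ' n'} {ι : M →ₐ[k] K} {ι' : M' →ₐ[k] K} {v : K} {e : ℕ}
  {Z : Set (Subalgebra k K)} {O : Subalgebra k K}

variable (h : Geo L L' ι ι' v e Z)
include h

/-- A curve lifts to a point that is rational over the second factor. -/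
theorem lift (hL : CH.LiftStmt) (ν : Curve L.Y) (hO : O ∈ Z) (he : pr ι L.Y O = ν.gen)
    (hr : RatPt (pr ι' L'.Y O)) {a : K} (ha : a ∈ mx O)
    (h1 : a = AA L L' ι ι' v e O ∨ a = (AA L L' ι ι' v e O)⁻¹) :
    ∃ ν' : Curve Z, ν'.gen = O ∧ (h.pj ν').lin = ν.lin := by
  obtain ⟨ν', e1, e2⟩ := hL k M K ι L.Y _ ν O (ι' '' pr ι' L'.Y O ∪ {a}) h.gY h.gX h.maps hO he
    (h.pts O hO a ha.1 h1) (by
      rintro g (⟨r, hr', rfl⟩ | rfl)
      · obtain ⟨c, hc⟩ := hr r hr'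
        refine ⟨c, ?_⟩
        rw [← ι'.commutes c, ← map_sub]
        exact (h.maps'.mx_up hO hc.1).2 hc
      · exact ⟨0, by simpa using ha⟩)
  exact ⟨ν', e1, lin_congr fun f hf => (h.pj_deg ν' hf).trans (e2 f hf)⟩

variable [IsAlgClosed k] (hc : XCur L L' ι ι' v e Z) (hc' : XCur L' L ι' ι v⁻¹ e Z)
include hc hc'

theorem tE (hp : XPt L L' ι ι' v e Z) (i : κ) (j : κ') : ∃ μ : Curve Z, ∃ m : ℝ, 0 < m ∧
    ∀ D, μ.lin (h.Phi D) = m * D.2.2 i j := by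
  obtain ⟨ν, hr, hr', a, b, e0⟩ := hp.pE i j
  have e1 := hc.cS ν i a
  have e2 := hc'.cS ν j b
  simp only [EE_symm L L' ι ι'] at e2
  refine ⟨ν, (-ν.deg (EE L L' ι ι' i j) : ℤ), Int.cast_pos.2 (neg_pos.2 e0), fun D => ?_⟩
  rw [h.phi_d, nd_d, nd_d, lin_rat (ν := h.pj ν) hr, lin_rat (ν := h.symm.pj ν) hr',
    Finset.sum_eq_single i (fun i' _ hi => Finset.sum_eq_zero fun j' _ => by
      rw [(e1 i' hi).2 j']; simp) (by simp),
    Finset.sum_eq_single j (fun j' _ hj => by rw [(e2 j' hj).2 i]; simp) (by simp)]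
  simp [mul_comm]

variable (hL : CH.LiftStmt)
include hL

theorem tT (hp : XPt L L' ι ι' v e Z) (ν : Curve L.Y) (j : κ') : ∃ μ : Curve Z,
    ∀ D, μ.lin (h.Phi D) = L.nd.d ν (D.1 - ∑ i, D.2.2 i j • L.nd.c i) := by
  obtain ⟨R', hR', hr, hs⟩ := h.ok'.rat j
  obtain ⟨O, hO, he, rfl, hA⟩ := hp.pT ν.gen ν.gen_mem R' hR' j hs
  obtain ⟨μ, rfl, e0⟩ := lift h hL ν hO he hr hA (Or.inl rfl)
  have b := (h.symm.s_mx hO j).2 hs
  have e1 := hc.cA μ j hA b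
  have e2 := hc'.cS μ j b
  simp only [EE_symm L L' ι ι'] at e2
  have e3 : ∀ i, ((μ.deg (sX L ι i) : ℤ) : ℝ) = L.nd.d ν (L.nd.c i) := fun i => by
    rw [← h.pj_c, nd_d, nd_d, e0]
  refine ⟨μ, fun D => ?_⟩
  rw [h.phi_d, map_sub, map_sum, nd_d (h.pj μ), e0, nd_d (h.symm.pj μ),
    lin_rat (ν := h.symm.pj μ) hr, LinearMap.zero_apply, add_zero, nd_d]
  congr 1
  refine Finset.sum_congr rfl fun i _ => ?_
  rw [Finset.sum_eq_single j (fun j' _ hj => by rw [(e2 j' hj).2 i]; simp) (by simp), e1, e3,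
    map_smul, smul_eq_mul, nd_d]

theorem tB (hp : XPt L' L ι' ι v⁻¹ e Z) (ν : Curve L.Y) (i : κ)
    (hi : L.nd.d ν (L.nd.c i) < 0) : ∃ μ : Curve Z, ∀ D, μ.lin (h.Phi D) = L.nd.d ν D.1 := by
  rw [nd_c h.ok.toOkA] at hi
  have hs : L.s i ν.gen ∈ mx ν.gen := by
    by_contra hn
    have := deg_nonneg h.gY (h.ok.cs i) (fun R hR => h.ok.sm R hR i) ν
      (isU_of_not_mx (h.ok.sm _ ν.gen_mem i) hn)
    exact absurd (Int.cast_lt_zero.1 hi) (not_lt.2 this)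
  obtain ⟨j₀⟩ := h.ok'.ne
  obtain ⟨R', hR', hr, -⟩ := h.ok'.rat j₀
  obtain ⟨O, hO, rfl, he, hA⟩ := hp.pT R' hR' ν.gen ν.gen_mem i hs
  obtain ⟨μ, rfl, e0⟩ := lift h hL ν hO he hr hA (Or.inr (AA_symm L L' ι ι' v e _))
  have a := (h.s_mx hO i).2 (he ▸ hs)
  have e1 := hc.cS μ i a
  have e2 := hc'.cA μ i hA a
  simp only [EE_symm L L' ι ι'] at e2
  have e3 : ∀ j, μ.deg (sX L' ι' j) = 0 := fun j =>
    (h.symm.pj_deg μ (h.ok'.cs j)).symm.trans (deg_rat (h.ok'.cs j) _ hr)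
  have e4 : ∀ i' j, μ.deg (EE L L' ι ι' i' j) = 0 := fun i' j => by
    rcases eq_or_ne i' i with rfl | q
    exacts [(e2 j).trans (e3 j), (e1 i' q).2 j]
  refine ⟨μ, fun D => ?_⟩
  rw [h.phi_d, nd_d (h.pj μ), e0, nd_d (h.symm.pj μ), lin_rat (ν := h.symm.pj μ) hr, nd_d]
  simp [e4]

end Tst

theorem test_stmt : TestStmt := by
  intro hL k M M' K Λ Λ' κ κ' n n' _ _ _ _ _ _ _ _ _ _ _ L L' ι ι' v e Z h hc hc' hp hp'
  have hc2 : XCur L L' ι ι' v⁻¹⁻¹ e Z := by rwa [inv_inv]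
  have hp2 : XPt L L' ι ι' v⁻¹⁻¹ e Z := by rwa [inv_inv]
  refine ⟨Tst.tE h hc hc' hp, Tst.tT h hc hc' hL hp, fun ν i => ?_, Tst.tB h hc hc' hL hp',
    fun ν j hj => ?_⟩
  · obtain ⟨μ, q⟩ := Tst.tT h.symm hc' hc2 hL hp' ν i
    exact ⟨μ, fun D => by rw [← h.phi_symm, q]⟩
  · obtain ⟨μ, q⟩ := Tst.tB h.symm hc' hc2 hL hp2 ν j hj
    exact ⟨μ, fun D => by rw [← h.phi_symm, q]⟩

end Pool.Agent.MP_20d318_ag.KK
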