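import Pool.Agent.MP_20d318_ag.KK.Fld

/-! Row TQ: the tower of fields. -/

set_option autoImplicit false
set_option linter.unusedSectionVars false

namespace Pool.Agent.MP_20d318_ag.KK

open Pool.Agent.MP_fd6584_ag.Fn Pool.Agent.CBk
open Pool.Agent.MP_fd6584_ag.AG hiding deg_inv deg_congr deg_of_unit deg_mul deg_prod deg_zpow
  deg_eq_zero deg_nonneg deg_div deg_pow
open Pool.Agent.MP_20d318_ag.CH (Tw)
open IntermediateField (adjoin)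

namespace TqR

variable {k M₀ M K : Type} [Field k] [Field M₀] [Field M] [Field K] [Algebra k M₀] [Algebra k M]
  [Algebra k K] {a : ℕ} {T : Fin (a + 1) → Set (Subalgebra k M₀)} {φ : Fin (a + 1) → M₀}
  {Y : Set (Subalgebra k M)} {Z : Set (Subalgebra k K)} {ψ : M} {ι₀ : Fin a → M₀ →ₐ[k] M}
  {ι : M →ₐ[k] K} {ι' : M₀ →ₐ[k] K} {v : K} {e : ℕ}

/-- The embeddings of the next stage. -/
abbrev cs (ι₀ : Fin a → M₀ →ₐ[k] M) (ι : M →ₐ[k] K) (ι' : M₀ →ₐ[k] K) :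
    Fin (a + 1) → M₀ →ₐ[k] K := Fin.cons ι' fun i => ι.comp (ι₀ i)

theorem cg {I : Type} {x y : I → K} (h : AlgebraicIndependent k x) (q : ∀ i, x i = y i) :
    AlgebraicIndependent k y := funext q ▸ h

theorem ind (h : Tq (Fin.tail T) (Fin.tail φ) Y ψ ∅ ι₀) (f : Fld ι ι' v e) {y : Fin 2 → M₀}
    (hy : AlgebraicIndependent k y) : ∃ x z : Fin (a + 1) → M₀, AlgebraicIndependent k
      (Sum.elim (fun i => cs ι₀ ι ι' i (x i)) fun i => cs ι₀ ι ι' i (z i)) := by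
  obtain ⟨x, z, h1⟩ := h.ind
  refine ⟨Fin.cons (y 0) x, Fin.cons (y 1) z, ?_⟩
  have h2 := (f.ind _ _ _ _ h1 hy).comp (Sum.elim (Fin.cons (.inr 0) fun i => .inl (.inl i))
    (Fin.cons (.inr 1) fun i => .inl (.inr i)) :
      Fin (a + 1) ⊕ Fin (a + 1) → (Fin a ⊕ Fin a) ⊕ Fin 2) (by
    rintro (i | i) (j | j) <;> cases i using Fin.cases <;> cases j using Fin.cases <;> simp)
  refine cg h2 fun i => ?_
  rcases i with i | i <;> cases i using Fin.cases <;> rfl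

theorem eq (h : Tq (Fin.tail T) (Fin.tail φ) Y ψ ∅ ι₀) :
    ι ψ * ι' (φ 0) = ∏ i, cs ι₀ ι ι' i (φ i) := by
  rw [Fin.prod_univ_succ, h.eq, map_prod, mul_comm]
  rfl

theorem mem {b : ℕ} {T : Fin b → Set (Subalgebra k M₀)} {φ : Fin b → M₀}
    {ι₀ : Fin b → M₀ →ₐ[k] M} (h : Tq T φ Y ψ ∅ ι₀) {S : Set K} (hS : ∀ i m, ι (ι₀ i m) ∈ S) :
    ∀ m, ι m ∈ adjoin k S := by
  refine FLD.mems h.top ?_
  rintro _ ⟨_, q | ⟨⟨⟩⟩, rfl⟩
  obtain ⟨i, m, rfl⟩ := Set.mem_iUnion.1 q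
  exact hS i m

theorem mems (h : Tq (Fin.tail T) (Fin.tail φ) Y ψ ∅ ι₀) (G : Set K) :
    (∀ m, ι m ∈ adjoin k ((⋃ i, Set.range (cs ι₀ ι ι' i)) ∪ G)) ∧
      ∀ m, ι' m ∈ adjoin k ((⋃ i, Set.range (cs ι₀ ι ι' i)) ∪ G) :=
  ⟨mem h fun i m => Or.inl (Set.mem_iUnion.2 ⟨i.succ, m, rfl⟩),
    fun m => IntermediateField.subset_adjoin _ _ (Or.inl (Set.mem_iUnion.2 ⟨0, m, rfl⟩))⟩

theorem reg (h : Tq (Fin.tail T) (Fin.tail φ) Y ψ ∅ ι₀) (m1 : Maps ι Z Y) (m2 : Maps ι' Z (T 0)) :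
    ∀ O ∈ Z, ∀ i, ∃ R ∈ T i, ∀ c ∈ R, cs ι₀ ι ι' i c ∈ O := fun O hO i => by
  cases i using Fin.cases with
  | zero => exact (m2 O hO).imp fun R q => ⟨q.1, fun c hc => q.2.1 hc⟩
  | succ i =>
    obtain ⟨R, hR, q⟩ := m1 O hO
    exact (h.reg R hR i).imp fun R' q' => ⟨q'.1, fun c hc => q.1 (q'.2 c hc)⟩

end TqR

open TqR in
theorem tq_stmt : TqStmt := by
  refine ⟨fun k M _ _ _ T φ y hy => ⟨⟨fun _ => y 0, fun _ => y 1, ?_⟩, by simp, ?_,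
    fun O hO i => ⟨O, Fin.fin_one_eq_zero i ▸ hO, fun _ q => q⟩⟩,
    fun k M₀ M K _ _ _ _ _ _ _ a T φ Y Z ψ ι₀ ι ι' v e y h x f hy m1 m2 => ⟨?_, ?_⟩,
    fun k M₀ M K _ _ _ _ _ _ _ a m T φ l Y Z ψ ι₀ ι ζ w h t => ⟨?_, ?_, ?_, fun O hO => ?_⟩⟩
  · have h2 := hy.comp (Sum.elim (fun _ => 0) fun _ => 1 : Fin 1 ⊕ Fin 1 → Fin 2) (by decide)
    refine cg h2 fun i => ?_
    rcases i with i | i <;> rfl
  · exact eq_top_iff.2 fun a _ =>
      IntermediateField.subset_adjoin k _ (Or.inl (Set.mem_iUnion.2 ⟨0, a, rfl⟩))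
  · rintro rfl
    obtain ⟨q1, q2⟩ := mems (ι := ι) (ι' := ι') h ∅
    exact ⟨ind h f hy, eq h, FLD.eq_top x q1 q2 (pow_one v ▸ FLD.pow_mem' x q1 q2), reg h m1 m2⟩
  · rintro rfl l
    obtain ⟨q1, q2⟩ := mems (ι := ι) (ι' := ι') h (Set.range ![] ∪ {v * ι ψ})
    obtain ⟨b, c, q⟩ := ind h f hy
    refine ⟨⟨b, c, ?_⟩, ?_, FLD.eq_top x q1 q2 ?_,
      fun O hO => ⟨reg h m1 m2 O hO, fun r => r.elim0⟩⟩
    · have h2 := q.comp _ (Equiv.sumEmpty _ (Fin 0)).injective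
      refine cg h2 fun i => ?_
      rcases i with i | i
      exacts [rfl, i.elim0]
    · rw [← eq h, ← x.eq, Fin.prod_univ_zero]
      ring
    · refine (mul_div_cancel_right₀ v ((map_ne_zero ι).2 x.ne)).subst
        (motive := (· ∈ adjoin k _)) (div_mem ?_ (q1 ψ))
      exact IntermediateField.subset_adjoin _ _ (Or.inr (Or.inr rfl))
  · obtain ⟨b, c, q⟩ := h.ind
    let _ := ι.toRingHom.toAlgebra
    have : IsScalarTower k M K := .of_algebraMap_eq fun r => (ι.commutes r).symm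
    have h1 : AlgebraicIndependent M ζ := (injective_iff_map_eq_zero _).2 t.ind
    have h2 := (q.sumElim_comp h1).comp _ (Equiv.sumComm _ _).injective
    refine ⟨b, c, cg h2 fun i => ?_⟩
    rcases i with (i | i) | i <;> rfl
  · rw [t.eq, h.eq, map_prod]
    rfl
  · rw [eq_top_iff, ← t.top, IntermediateField.adjoin_le_iff]
    rintro _ (⟨b, rfl⟩ | q)
    · refine mem h (fun i m => ?_) b
      exact Or.inl (Set.mem_iUnion.2 ⟨i, m, rfl⟩)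
    · exact IntermediateField.subset_adjoin k _ (Or.inr q)
  · obtain ⟨⟨R, hR, q⟩, q'⟩ := t.reg O hO
    exact ⟨fun i => (h.reg R hR i).imp fun R' r => ⟨r.1, fun c hc => q _ (r.2 c hc)⟩, q'⟩

end Pool.Agent.MP_20d318_ag.KK
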