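import Pool.Agent.MP_20d318_ag.KK.LSpec
import Pool.Agent.MP_20d318_ag.CH.Tr

/-! Numerical classes on the blow-up of a product: transport along an isomorphism. -/

set_option autoImplicit false
set_option linter.unusedSectionVars false

namespace Pool.Agent.MP_20d318_ag.KK

open Pool.Agent.MP_20d318_ag.Lat hiding act actW W
open Pool.Agent.MP_20d318_ag.CH

universe u v u' v'

namespace Trp

variable {V : Type u} {𝒞 : Type v} {V' : Type u'} {𝒞' : Type v'} {κ : Type} [AddCommGroup V]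
  [Module ℝ V] [AddCommGroup V'] [Module ℝ V'] [Fintype κ] {N : Nd V 𝒞 κ} {N' : Nd V' 𝒞' κ}
  {ψ : V ≃ₗ[ℝ] V'}

theorem one (h : Iso N N' ψ) {L : V} {x : κ → ℝ} (k : ∀ i, ψ L - x i • N'.c i ∈ N'.Nef) (i : κ) :
    L - x i • N.c i ∈ N.Nef := by
  rw [← TrA.nef h, map_sub, map_smul, h.c]
  exact k i

theorem hf (h : Iso N N' ψ) (l : HF N) : HF N' := by
  refine ⟨fun ν' y hy x h0 k => ?_, fun y hy hL x h0 hz k => ?_⟩ <;>
    obtain ⟨L, rfl⟩ := ψ.surjective y <;> rw [← map_smul, TrA.sub h]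
  · rcases h.dn ν' with e | ⟨ν, r, hr, e⟩
    · exact (e _).ge
    · rw [e]
      exact mul_nonneg hr.le (l.cur ν L ((TrA.nef h).1 hy) x h0 (one h k))
  · exact (h.Ef _).2 (l.eff L ((TrA.nef h).1 hy) ((h.Λ L).1 hL) x h0 hz (one h k))

theorem dk (h : Iso N N' ψ) (l : DK N) : DK N' := by
  obtain ⟨F, h1, h2, h3⟩ := l
  refine ⟨(fun f : V →ₗ[ℝ] ℝ => f ∘ₗ ψ.symm.toLinearMap) '' F, ?_, h2.subset ?_,
    fun y hy z h0 k => ?_⟩
  · rintro _ ⟨f, hf, rfl⟩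
    refine ⟨fun y hy => ?_, fun y hy => ?_⟩ <;> obtain ⟨x, rfl⟩ := ψ.surjective y
    · simpa using (h1 f hf).1 x ((h.Λ x).1 hy)
    · simpa using (h1 f hf).2 x ((TrA.nef h).1 hy)
  · rintro _ ⟨_, ⟨f, hf, rfl⟩, rfl⟩
    exact ⟨f, hf, funext fun i => by simp [← h.c]⟩
  · obtain ⟨L, rfl⟩ := ψ.surjective y
    rw [TrA.sub h] at k ⊢
    refine (TrA.nef h).2 (h3 L ((TrA.nef h).1 hy) z h0 fun f hf => ?_)
    have := k _ ⟨f, hf, rfl⟩
    rwa [LinearMap.comp_apply, LinearEquiv.coe_coe, ψ.symm_apply_apply] at this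

end Trp

theorem trp_stmt : TrpStmt.{u, v, u', v'} :=
  fun _ _ _ _ _ _ _ _ _ _ _ _ _ h => ⟨Trp.hf h, Trp.dk h⟩

end Pool.Agent.MP_20d318_ag.KK
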