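import Pool.Agent.MP_20d318_ag.KK.Spec
import Mathlib.GroupTheory.MonoidLocalization.UniqueFactorization
import Mathlib.RingTheory.Polynomial.UniqueFactorization
import Mathlib.RingTheory.TensorProduct.MvPolynomial
import Mathlib.RingTheory.UniqueFactorizationDomain.Ideal

/-! Unique factorization in the ring generated by two fields, one of them rational. -/

set_option autoImplicit false
set_option linter.unusedSectionVars false

open scoped TensorProduct

namespace Pool.Agent.MP_20d318_ag.KK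

open Pool.Agent.MP_fd6584_ag.Fn Pool.Agent.CBk
open Pool.Agent.MP_fd6584_ag.AG hiding deg_inv deg_congr deg_of_unit deg_mul deg_prod deg_zpow
  deg_eq_zero deg_nonneg deg_div deg_pow

namespace Ufd

variable {k M M' K : Type} [Field k] [Field M] [Field M'] [Field K] [Algebra k M] [Algebra k M']
  [Algebra k K]

/-- A ring of fractions of a ring with unique factorization. -/
theorem of_frac {A : Type} [CommRing A] [UniqueFactorizationMonoid A] (ρ : A →+* K)
    (hρ : Function.Injective ρ) (B : Subalgebra k K) (hB : ∀ a, ρ a ∈ B)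
    (h : ∀ b ∈ B, ∃ a s, IsU B (ρ s) ∧ b * ρ s = ρ a) : UniqueFactorizationMonoid B := by
  let ρ' : A →+* B := ρ.codRestrict B hB
  let _ : Algebra A B := ρ'.toAlgebra
  have : IsLocalization ((IsUnit.submonoid B).comap ρ') B := by
    rw [isLocalization_iff]
    refine ⟨fun s => s.2, fun b => ?_, fun {x y} e => ⟨1, ?_⟩⟩
    · obtain ⟨a, s, hs, e⟩ := h b b.2
      exact ⟨(a, ⟨s, (isU_iff_isUnit (ρ' s)).1 hs⟩), Subtype.ext e⟩
    · rw [hρ (congrArg Subtype.val e)]
  exact UniqueFactorizationMonoid.of_isLocalization ((IsUnit.submonoid B).comap ρ') B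

variable (ι : M →ₐ[k] K) (ι' : M' →ₐ[k] K) {σ : Type} (y : σ → M')

/-- Evaluation of polynomials over the first field. -/
noncomputable def ev : MvPolynomial σ M →+* K :=
  MvPolynomial.eval₂Hom (ι : M →+* K) fun i => ι' (y i)

theorem ev_C (m : M) : ev ι ι' y (MvPolynomial.C m) = ι m := MvPolynomial.eval₂Hom_C _ _ m

theorem ev_map (q : MvPolynomial σ k) :
    ev ι ι' y (MvPolynomial.map (algebraMap k M) q) = ι' (MvPolynomial.aeval y q) := by
  induction q using MvPolynomial.induction_on with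
  | C c => rw [MvPolynomial.map_C, ev_C, MvPolynomial.aeval_C, ι.commutes, ι'.commutes]
  | add p q hp hq => rw [map_add, map_add, map_add, map_add, hp, hq]
  | mul_X p i hp =>
    rw [map_mul, map_mul, map_mul, map_mul, hp, MvPolynomial.map_X, MvPolynomial.aeval_X, ev,
      MvPolynomial.eval₂Hom_X']

theorem ev_inj (h : Dj ι ι') (hy : AlgebraicIndependent k y) : Function.Injective (ev ι ι' y) := by
  have e : ∀ z, ev ι ι' y (MvPolynomial.algebraTensorAlgEquiv k M z) =
      pm ι ι' ((MvPolynomial.aeval y).toLinearMap.lTensor M z) := fun z => by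
    induction z with
    | zero => simp
    | tmul a b =>
      rw [MvPolynomial.algebraTensorAlgEquiv_tmul, MvPolynomial.smul_eq_C_mul, map_mul, ev_C,
        ev_map]
      rfl
    | add a b ha hb => rw [map_add, map_add, map_add, map_add, ha, hb]
  intro a b q
  obtain ⟨a, rfl⟩ := (MvPolynomial.algebraTensorAlgEquiv k M).surjective a
  obtain ⟨b, rfl⟩ := (MvPolynomial.algebraTensorAlgEquiv k M).surjective b
  rw [e, e] at q
  rw [Module.Flat.lTensor_preserves_injective_linearMap (M := M)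
    (MvPolynomial.aeval y).toLinearMap (algebraicIndependent_iff_injective_aeval.1 hy) (h q)]

theorem ev_mem (a : MvPolynomial σ M) : ev ι ι' y a ∈ Bq ι ι' ⊤ ⊤ ∅ := by
  induction a using MvPolynomial.induction_on with
  | C c => rw [ev_C]; exact Bq_l trivial
  | add p q hp hq => rw [map_add]; exact add_mem hp hq
  | mul_X p i hp =>
    rw [map_mul]
    refine mul_mem hp ?_
    rw [ev, MvPolynomial.eval₂Hom_X']
    exact Bq_r trivial

theorem ev_frac (hy : IntermediateField.adjoin k (Set.range y) = ⊤) {b : K}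
    (hb : b ∈ Bq ι ι' ⊤ ⊤ ∅) :
    ∃ a s, IsU (Bq ι ι' ⊤ ⊤ ∅) (ev ι ι' y s) ∧ b * ev ι ι' y s = ev ι ι' y a := by
  rw [← Bq_top] at hb
  obtain ⟨z, rfl⟩ := hb
  induction z with
  | zero => exact ⟨0, 1, by rw [map_one]; exact isU_one, by simp⟩
  | tmul m m' =>
    obtain ⟨r, s, rfl⟩ := (IntermediateField.mem_adjoin_range_iff k y m').1 (hy ▸ trivial)
    rcases eq_or_ne (MvPolynomial.aeval y s) 0 with s0 | s0
    · exact ⟨0, 1, by rw [map_one]; exact isU_one, by simp [s0]⟩
    have s1 := (map_ne_zero ι').2 s0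
    refine ⟨MvPolynomial.C m * MvPolynomial.map (algebraMap k M) r,
      MvPolynomial.map (algebraMap k M) s, ?_, ?_⟩
    · rw [ev_map]
      exact ⟨s1, Bq_r trivial, map_inv₀ ι' _ ▸ Bq_r trivial⟩
    · rw [map_mul, ev_C, ev_map, ev_map]
      change ι m * ι' _ * _ = _
      rw [map_div₀, mul_assoc, div_mul_cancel₀ _ s1]
  | add x z hx hz =>
    obtain ⟨a, s, hs, e⟩ := hx
    obtain ⟨a', s', hs', e'⟩ := hz
    refine ⟨a * s' + a' * s, s * s', by rw [map_mul]; exact hs.mul hs', ?_⟩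
    rw [map_add, map_add, map_mul, map_mul, map_mul, ← e, ← e']
    ring

/-- A place of a chart with unique factorization is cut out by one function. -/
theorem cut {B : Subalgebra k K} [UniqueFactorizationMonoid B] {P : Place k K}
    (hP : plO P ∈ Pts B) : ∃ f : K, f ≠ 0 ∧ P.ord f ≠ 0 ∧ ∀ P' : Place k K, plO P' ∈ Pts B →
      P'.ord f ≠ 0 → P' = P := by
  let I : Ideal B :=
    { carrier := {b | (b : K) ∈ mx (plO P)}
      add_mem' := fun ha hb => mx_add hP.1 ha hb
      zero_mem' := zero_mem_mx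
      smul_mem' := fun c _ hb => mx_mul_left (hP.2.1 c.2) hb }
  have hI : I.IsPrime := ⟨fun e => one_not_mem_mx (show (1 : B) ∈ I from e ▸ trivial),
    fun {a b} e => mx_or_of_mul (hP.2.1 a.2) (hP.2.1 b.2) e⟩
  have I0 : I ≠ ⊥ := by
    obtain ⟨t, ht⟩ := P.surj (WithZero.exp (-1))
    have t1 : t ∈ mx (plO P) := by
      rw [mem_mx_plO, ht, ← WithZero.exp_zero, WithZero.exp_lt_exp]
      omega
    have t0 : t ≠ 0 := fun e => by
      rw [e, map_zero] at ht
      exact WithZero.exp_ne_zero ht.symm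
    obtain ⟨a, ha, b, -, hb, rfl⟩ := hP.2.2 t t1.1
    refine (Submodule.ne_bot_iff _).2 ⟨⟨a, ha⟩, ?_, fun e => t0 ?_⟩
    · have := mx_mul_right t1 hb.2.1
      rwa [div_mul_cancel₀ _ hb.1] at this
    · rw [show a = 0 from congrArg Subtype.val e, zero_div]
  obtain ⟨f, hf, pf⟩ := hI.exists_mem_prime_of_ne_bot I0
  have f0 : (f : K) ≠ 0 := fun e => pf.ne_zero (Subtype.ext e)
  have := (Ideal.span_singleton_prime pf.ne_zero).2 pf
  obtain ⟨V, hV, h⟩ := exists_val_of B.val (Ideal.Quotient.mk (Ideal.span {f}))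
    fun b e => by rw [show b = 0 from Subtype.ext e, map_zero]
  have key : ∀ Q : Place k K, plO Q ∈ Pts B → (f : K) ∈ mx (plO Q) →
      ∀ c ∈ B, c ∈ mx V → c ∈ mx (plO Q) := fun Q hQ q c hc m => by
    obtain ⟨d, hd⟩ := Ideal.mem_span_singleton'.1
      (Ideal.Quotient.eq_zero_iff_mem.1 ((h ⟨c, hc⟩).2.1 m))
    rw [← show (d : K) * f = c from congrArg Subtype.val hd]
    exact mx_mul_left (hQ.2.1 d.2) q
  refine ⟨f, f0, ((mx_plO f0).1 hf).ne', fun P' hP' o => ?_⟩
  exact place_ext hP' hP hV.isLocalRing (fun c hc => (h ⟨c, hc⟩).1) f0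
    ((h f).2.2 (Ideal.Quotient.eq_zero_iff_mem.2 (Ideal.mem_span_singleton_self f)))
    (key P' hP' ((mx_plO f0).2 (lt_of_le_of_ne (mem_plO_ord.1 (hP'.2.1 f.2)) o.symm)))
    (key P hP hf)

end Ufd

theorem ufd_stmt : UfdStmt := fun _ _ _ _ _ _ _ _ _ _ _ _ _ ι ι' h _ y hy ht =>
  Ufd.of_frac (Ufd.ev ι ι' y) (Ufd.ev_inj ι ι' y h hy) _ (Ufd.ev_mem ι ι' y)
    fun _ hb => Ufd.ev_frac ι ι' y ht hb

theorem hz1_stmt : Hz1Stmt := fun _ _ _ _ _ _ _ _ _ _ _ _ _ ι ι' φ φ' v h hU => by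
  have e : Bq ι ι' ⊤ ⊤ {v} = Bq ι ι' ⊤ ⊤ ∅ := by
    refine le_antisymm (Algebra.adjoin_le ?_) (Algebra.adjoin_mono
      (Set.union_subset_union_right _ (Set.union_subset_union_right _ (Set.empty_subset _))))
    rintro _ (⟨a, ha, rfl⟩ | ⟨a, ha, rfl⟩ | rfl)
    · exact Bq_l ha
    · exact Bq_r ha
    · have q := h.eq
      rw [pow_one, ← eq_mul_inv_iff_mul_eq₀ ((map_ne_zero ι).2 h.ne), ← map_inv₀] at q
      rw [q]
      exact mul_mem (Bq_r trivial) (Bq_l trivial)
  refine ⟨fun _ => False, fun P hP => ?_⟩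
  rw [e] at hP ⊢
  obtain ⟨f, f0, hf, H⟩ := Ufd.cut hP
  exact ⟨f, f0, hf, fun P' hP' ne o => (ne (H P' hP' o)).elim⟩

end Pool.Agent.MP_20d318_ag.KK
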