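import Pool.Agent.MP_20d318_ag.KK.Spec

/-! Row VOL: the volume form on the next level. -/

set_option autoImplicit false
set_option linter.unusedSectionVars false

open scoped TensorProduct

namespace Pool.Agent.MP_20d318_ag.KK

open Pool.Agent.MP_fd6584_ag.Fn Pool.Agent.CBk Polynomial
open Pool.Agent.MP_fd6584_ag.AG hiding deg_inv deg_congr deg_of_unit deg_mul deg_prod deg_zpow
  deg_eq_zero deg_nonneg deg_div deg_pow
open Pool.Agent.MVg (Sc Fac)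
open Pool.Agent.MP_20d318_ag.CH (Lv OkA Ok0 Ok Lf MW cb Vol Gens dt wt cl pull sX Tw Der HypStmt
  Nd cl_val pull_val n1_ext proj_deg nd_d nd_c)

namespace VolAux

variable {k M M' K : Type} [Field k] [Field M] [Field M'] [Field K] [Algebra k M] [Algebra k M']
  [Algebra k K] {N N' : ℕ} {ι : M →ₐ[k] K} {ι' : M' →ₐ[k] K} {δ₀ : Derivation k M (Fin N → M)}
  {δ₁ : Derivation k M' (Fin N' → M')} {δ : Derivation k K (Fin (N + N') → K)}

theorem lin (ch : ∀ a, δ (ι a) = Fin.append (fun i => ι (δ₀ a i)) 0) {c r : Fin N → M} {a : M}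
    (h : δ₀ a = ∑ i, r i • δ₀ (c i)) : δ (ι a) = ∑ i, ι (r i) • δ (ι (c i)) := by
  funext i
  rw [ch, h, Finset.sum_apply]
  refine Fin.addCases (fun i => ?_) (fun i => ?_) i <;> simp [ch]

theorem lin' (ch : ∀ a, δ (ι' a) = Fin.append 0 (fun i => ι' (δ₁ a i))) {c r : Fin N' → M'}
    {a : M'} (h : δ₁ a = ∑ i, r i • δ₁ (c i)) : δ (ι' a) = ∑ i, ι' (r i) • δ (ι' (c i)) := by
  funext i
  rw [ch, h, Finset.sum_apply]
  refine Fin.addCases (fun i => ?_) (fun i => ?_) i <;> simp [ch]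

theorem det (ch : ∀ a, δ (ι a) = Fin.append (fun i => ι (δ₀ a i)) 0)
    (ch' : ∀ a, δ (ι' a) = Fin.append 0 (fun i => ι' (δ₁ a i))) (c : Fin N → M)
    (c' : Fin N' → M') :
    dt δ (Fin.append (fun i => ι (c i)) fun i => ι' (c' i)) = ι (dt δ₀ c) * ι' (dt δ₁ c') := by
  unfold dt
  rw [← Matrix.det_submatrix_equiv_self finSumFinEquiv, AlgHom.map_det, AlgHom.map_det,
    ← Matrix.det_fromBlocks_zero₂₁ _ 0]
  congr 1
  ext (i | i) (j | j) <;> simp [ch, ch']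

theorem comb {O : Subalgebra k K} (c : Fin N → K) (c' : Fin N' → K) (r : Fin N → K)
    (r' : Fin N' → K) (h : ∀ i, r i ∈ O) (h' : ∀ i, r' i ∈ O) :
    (∀ i, Fin.append r r' i ∈ O) ∧ ∑ i, Fin.append r r' i • δ (Fin.append c c' i) =
      ∑ i, r i • δ (c i) + ∑ i, r' i • δ (c' i) :=
  ⟨fun i => Fin.addCases (fun i => by simpa using h i) (fun i => by simpa using h' i) i,
    by simp [Fin.sum_univ_add]⟩

theorem unit (hD : Der) {y c : Fin N → M} (top : IntermediateField.adjoin k (Set.range y) = ⊤)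
    (h0 : ∀ i, δ₀ (y i) = Pi.single i 1) {R : Subalgebra k M} (hR : IsLocalRing R)
    (g : Gens R δ₀ c) {S : M} (hc : Crd R S) (hS : S ∈ mx R) {r : Fin N → M} (r1 : ∀ i, r i ∈ R)
    (r2 : δ₀ S = ∑ i, r i • δ₀ (c i)) : ∃ i, IsU R (r i) := by
  by_contra hn
  obtain ⟨D, d1, d2⟩ := hc hS
  have e : ∀ a, D a = ∑ i, δ₀ a i * D (y i) := hD.chain k M M M _ y δ₀ (AlgHom.id k M) D top h0
  have e' : D S = ∑ i, r i * D (c i) := by
    rw [e, r2]
    simp only [e (c _), Finset.sum_apply, Pi.smul_apply, smul_eq_mul, Finset.sum_mul,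
      Finset.mul_sum, mul_assoc]
    exact Finset.sum_comm
  rw [e'] at d2
  exact (mx_sum hR fun i _ => mx_mul_right ⟨r1 i, fun hi => hn ⟨i, hi⟩⟩ (d1 _ (g.1 i))).2 d2

end VolAux

open VolAux in
theorem vol_stmt : VolStmt := by
  intro hD hC k M M' K Λ Λ' κ κ' n n' _ _ _ _ _ _ _ _ _ _ _ L L' ι ι' v e Z h
  obtain ⟨j, j0, hv⟩ := h.ok.vol
  obtain ⟨j', j0', hv'⟩ := h.ok'.vol
  obtain ⟨δ₀, h0⟩ := hD.ex k M (n + 2) L.y h.ok.ind h.ok.top
  obtain ⟨δ₁, h1⟩ := hD.ex k M' (n' + 2) L'.y h.ok'.ind h.ok'.top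
  refine ⟨j, j', j0, j0', fun (δ : Derivation k K (Fin (n + 2 + (n' + 2)) → K)) hδ O hO => ?_⟩
  have hR := h.maps.mem hO
  have hR' := h.maps'.mem hO
  obtain ⟨c, cg, cu⟩ := hv δ₀ h0 _ hR
  obtain ⟨c', cg', cu'⟩ := hv' δ₁ h1 _ hR'
  have hy : ∀ i, δ (ι (L.y i)) = Pi.single (Fin.castAdd (n' + 2) i) 1 := fun i => by
    have := hδ (Fin.castAdd (n' + 2) i)
    rwa [yy, Fin.append_left] at this
  have hy' : ∀ i, δ (ι' (L'.y i)) = Pi.single (Fin.natAdd (n + 2) i) 1 := fun i => by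
    have := hδ (Fin.natAdd (n + 2) i)
    rwa [yy, Fin.append_right] at this
  have ne : ∀ (a : Fin (n + 2)) (b : Fin (n' + 2)),
      Fin.castAdd (n' + 2) a ≠ Fin.natAdd (n + 2) b := fun a b q => by
    have := congrArg Fin.val q
    simp only [Fin.val_castAdd, Fin.val_natAdd] at this
    omega
  have ch : ∀ a, δ (ι a) = Fin.append (fun i => ι (δ₀ a i)) 0 := fun a => by
    rw [hD.chain k M K _ _ L.y δ₀ ι δ h.ok.top h0 a]
    funext i
    refine Fin.addCases (fun i => ?_) (fun i => ?_) i <;>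
      simp [hy, Pi.single_apply, fun a b => (ne a b).symm]
  have ch' : ∀ a, δ (ι' a) = Fin.append 0 (fun i => ι' (δ₁ a i)) := fun a => by
    rw [hD.chain k M' K _ _ L'.y δ₁ ι' δ h.ok'.top h1 a]
    funext i
    refine Fin.addCases (fun i => ?_) (fun i => ?_) i <;> simp [hy', Pi.single_apply, ne]
  have lq := h.lqO hO
  set A := AA L L' ι ι' v e O with hA
  set S := ∏ i, L.s i (pr ι L.Y O) with hS
  set S' := ∏ i, L'.s i (pr ι' L'.Y O) with hS'
  set cc : Fin (n + 2 + (n' + 2)) → K := Fin.append (fun i => ι (c i)) fun i => ι' (c' i) with hcc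
  have up1 : ∀ a ∈ pr ι L.Y O, ι a ∈ O := fun a ha => h.maps.mem_up hO ha
  have up2 : ∀ a ∈ pr ι' L'.Y O, ι' a ∈ O := fun a ha => h.maps'.mem_up hO ha
  have cm : ∀ i, cc i ∈ O :=
    (comb (δ := δ) 0 0 _ _ (fun i => up1 _ (cg.1 i)) fun i => up2 _ (cg'.1 i)).1
  have g1 : ∀ a ∈ pr ι L.Y O, ι a ∈ O ∧ ∃ r : Fin (n + 2 + (n' + 2)) → K, (∀ i, r i ∈ O) ∧
      δ (ι a) = ∑ i, r i • δ (cc i) := fun a ha => by
    obtain ⟨r, r1, r2⟩ := cg.2 a ha
    have := comb (δ := δ) (fun i => ι (c i)) (fun i => ι' (c' i)) (fun i => ι (r i)) 0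
      (fun i => up1 _ (r1 i)) fun _ => zero_mem O
    exact ⟨up1 a ha, _, this.1, by rw [this.2, lin ch r2]; simp⟩
  have g2 : ∀ a ∈ pr ι' L'.Y O, ι' a ∈ O ∧ ∃ r : Fin (n + 2 + (n' + 2)) → K, (∀ i, r i ∈ O) ∧
      δ (ι' a) = ∑ i, r i • δ (cc i) := fun a ha => by
    obtain ⟨r, r1, r2⟩ := cg'.2 a ha
    have := comb (δ := δ) (fun i => ι (c i)) (fun i => ι' (c' i)) 0 (fun i => ι' (r i))
      (fun _ => zero_mem O) fun i => up2 _ (r1 i)
    exact ⟨up2 a ha, _, this.1, by rw [this.2, lin' ch' r2]; simp⟩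
  have gG : ∀ g ∈ ι '' (pr ι L.Y O : Set M) ∪ ι' '' (pr ι' L'.Y O : Set M'), g ∈ O ∧
      ∃ r : Fin (n + 2 + (n' + 2)) → K, (∀ i, r i ∈ O) ∧ δ g = ∑ i, r i • δ (cc i) := by
    rintro _ (⟨a, ha, rfl⟩ | ⟨a, ha, rfl⟩)
    exacts [g1 a ha, g2 a ha]
  obtain ⟨r, r1, r2⟩ := cg.2 S lq.mS
  obtain ⟨r', r1', r2'⟩ := cg'.2 S' lq.mS'
  have hu0 := (h.maps.isU_up hO cu).mul (h.maps'.isU_up hO cu')
  have fin : ∀ d : Fin (n + 2 + (n' + 2)) → K, (∃ u, IsU O u ∧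
      wt e O A (ι S) * dt δ d = u * dt δ cc) → IsU O (ι j * ι' j' * wt e O A (∏ i, sX L ι i O) /
        (up ι L.Y L.jj O * up ι' L'.Y L'.jj O) * dt δ d) := by
    rintro d ⟨u, hu, q⟩
    rw [hcc, det ch ch'] at q
    refine Eq.subst ?_ (hu.mul hu0)
    rw [Geo.prod_sX, ← hS, map_mul, map_mul, map_div₀, map_div₀, up, up]
    linear_combination (-(ι j / ι (L.jj (pr ι L.Y O)) * (ι' j' / ι' (L'.jj (pr ι' L'.Y O))))) * q
  by_cases hm : A ∈ O
  · have hp := h.pts O hO A hm (Or.inl rfl)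
    rw [Bq, ← Set.union_assoc] at hp
    obtain ⟨d, d1, d2, d3⟩ := hC k K e _ O _ A (ι S) (ι' S') δ cc lq.he hp cm (by
      rintro _ (rfl | rfl | q)
      exacts [g1 _ lq.mS, g2 _ lq.mS', gG _ q]) lq.eq (fun hs => by
      obtain ⟨i, hi⟩ := unit hD h.ok'.top h1 lq.loc' cg' (h.ok'.crd _ hR')
        ((h.maps'.mx_up hO lq.mS').1 hs) r1' r2'
      have := comb (δ := δ) (fun i => ι (c i)) (fun i => ι' (c' i)) (fun i => -A ^ e * ι (r i))
        (fun i => ι' (r' i)) (fun i => mul_mem (neg_mem (pow_mem hm e)) (up1 _ (r1 i)))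
        fun i => up2 _ (r1' i)
      refine ⟨_, this.1, ?_, Fin.natAdd _ i, by simpa using h.maps'.isU_up hO hi⟩
      rw [this.2, lin ch r2, lin' ch' r2', Finset.smul_sum]
      simp only [mul_smul, neg_smul, Finset.sum_neg_distrib]
      abel)
    refine ⟨d, d1, fin d (by rwa [wt, if_pos hm]), ?_⟩
    rintro t ht (rfl | rfl)
    · exact d3 ht
    · exact absurd (mx_mul_left hm ht) (by rw [mul_inv_cancel₀ lq.ne]; exact one_not_mem_mx)
  · have hm' : A⁻¹ ∈ O := (h.aa O hO).resolve_left hm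
    have hp := h.pts O hO A⁻¹ hm' (Or.inr rfl)
    rw [Bq, ← Set.union_assoc] at hp
    obtain ⟨d, d1, d2, d3⟩ := hC k K e _ O _ A⁻¹ (ι' S') (ι S) δ cc lq.he hp cm (by
      rintro _ (rfl | rfl | q)
      exacts [g2 _ lq.mS', g1 _ lq.mS, gG _ q]) lq.symm.eq (fun hs => by
      obtain ⟨i, hi⟩ := unit hD h.ok.top h0 lq.loc cg (h.ok.crd _ hR)
        ((h.maps.mx_up hO lq.mS).1 hs) r1 r2
      have := comb (δ := δ) (fun i => ι (c i)) (fun i => ι' (c' i)) (fun i => ι (r i))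
        (fun i => -A⁻¹ ^ e * ι' (r' i)) (fun i => up1 _ (r1 i))
        fun i => mul_mem (neg_mem (pow_mem hm' e)) (up2 _ (r1' i))
      refine ⟨_, this.1, ?_, Fin.castAdd _ i, by simpa using h.maps.isU_up hO hi⟩
      rw [this.2, lin ch r2, lin' ch' r2', Finset.smul_sum]
      simp only [mul_smul, neg_smul, Finset.sum_neg_distrib]
      abel)
    have e1 : A⁻¹ ^ (e - 1) * ι' S' = A * ι S := by
      have := lq.ne
      rw [← lq.eq]
      rcases lq.he with q | q <;> rw [q] <;> norm_num <;> field_simp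
    refine ⟨d, d1, fin d (by rwa [wt, if_neg hm, ← e1]), ?_⟩
    rintro t ht (rfl | rfl)
    · exact absurd ht.1 hm
    · exact d3 ht

end Pool.Agent.MP_20d318_ag.KK
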