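import Pool.Agent.MP_20d318_ag.KK.Spec

/-! Generic points of the fibres over a pair of local rings. -/

set_option autoImplicit false
set_option linter.unusedSectionVars false

open scoped TensorProduct

namespace Pool.Agent.MP_20d318_ag.KK

open Pool.Agent.MP_fd6584_ag.Fn Pool.Agent.CBk Polynomial
open Pool.Agent.MP_fd6584_ag.AG hiding deg_inv deg_congr deg_of_unit deg_mul deg_prod deg_zpow
  deg_eq_zero deg_nonneg deg_div deg_pow

namespace VqP

variable {k M M' K : Type} [Field k] [Field M] [Field M'] [Field K] [Algebra k M] [Algebra k M']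
  [Algebra k K] (ι : M →ₐ[k] K) (ι' : M' →ₐ[k] K) (R : Subalgebra k M) (R' : Subalgebra k M')

/-- The product map. -/
noncomputable abbrev pp : R ⊗[k] R' →ₐ[k] K := pm (ι.comp R.val) (ι'.comp R'.val)

/-- The reduction map. -/
noncomputable abbrev red [IsLocalRing R] [IsLocalRing R'] :
    R ⊗[k] R' →ₐ[k] IsLocalRing.ResidueField R ⊗[k] IsLocalRing.ResidueField R' :=
  Algebra.TensorProduct.map (resid R) (resid R')

variable {ι ι' R R'} {O : Subalgebra k K} {A : K}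

theorem trs {B D : Type} [CommRing B] [CommRing D] [Nontrivial D] [Algebra k B] [Algebra k D]
    (f : B →ₐ[k] D) (p : MvPolynomial (Fin 1) k)
    (q : Polynomial.mapAlgHom f (MvPolynomial.aeval (fun _ => X) p) = 0) : p = 0 := by
  rw [MvPolynomial.comp_aeval_apply] at q
  refine algebraicIndependent_iff.1 (algebraicIndependent_unique_type_iff.2 ?_) p q
  simpa using (Polynomial.transcendental_X D).restrictScalars (algebraMap k D).injective

theorem res0 [IsLocalRing R] (u : R) : resid R u = 0 ↔ (u : M) ∈ mx R :=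
  (IsLocalRing.residue_eq_zero_iff u).trans (mem_mx_iff u).symm

theorem pp_mem (h : Ov ι ι' R R' O) (z : R ⊗[k] R') : pp ι ι' R R' z ∈ O :=
  h.le (Set.empty_subset _) (Bq_range ι ι' R R' ▸ ⟨z, rfl⟩)

theorem fac [IsLocalRing R] [IsLocalRing O] (h : Dom R (O.comap ι)) :
    ∃ (j : R →ₐ[k] O) (a : IsLocalRing.ResidueField R →ₐ[k] IsLocalRing.ResidueField O),
      (∀ u, (j u : K) = ι u) ∧ ∀ u, a (resid R u) = resid O (j u) := by
  let j : R →ₐ[k] O := (ι.comp R.val).codRestrict O fun r => h.1 r.2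
  obtain ⟨a, ha⟩ := LocHom.factor (O := R) (ρ := (resid O).comp j) fun u hu =>
    h.2 u u.2 ((isU_comap _).2 (resid_loc (j u) hu))
  exact ⟨j, a, fun _ => rfl, fun u => DFunLike.congr_fun ha u⟩

variable [IsLocalRing R] [IsLocalRing R']

theorem ovr (h : Ov ι ι' R R' O) {z : R ⊗[k] R'} (hz : red R R' z = 0) :
    pp ι ι' R R' z ∈ mx O := by
  have := h.loc
  obtain ⟨j, a, j1, a1⟩ := fac h.dom
  obtain ⟨j', a', j2, a2⟩ := fac h.dom'
  have e : ∀ z, ((Algebra.TensorProduct.productMap j j' z : O) : K) = pp ι ι' R R' z ∧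
      resid O (Algebra.TensorProduct.productMap j j' z) = pm a a' (red R R' z) := fun z => by
    induction z with
    | zero => simp
    | tmul x y =>
      rw [Algebra.TensorProduct.productMap_apply_tmul, Algebra.TensorProduct.map_tmul, pm_tmul,
        pm_tmul, map_mul, a1, a2, Subalgebra.coe_mul, j1, j2]
      exact ⟨rfl, rfl⟩
    | add x y hx hy => simp only [map_add, Subalgebra.coe_add, hx.1, hx.2, hy.1, hy.2, and_self]
  rw [← (e z).1, ← res0, (e z).2, hz, map_zero]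

theorem ov_of (hV : IsVal O) (h1 : ∀ z, pp ι ι' R R' z ∈ O)
    (h2 : ∀ z, red R R' z = 0 → pp ι ι' R R' z ∈ mx O) : Ov ι ι' R R' O := by
  have e1 : ∀ u : R, pp ι ι' R R' (u ⊗ₜ 1) = ι u := fun u => by simp [pm_tmul]
  have e2 : ∀ u : R', pp ι ι' R R' (1 ⊗ₜ u) = ι' u := fun u => by simp [pm_tmul]
  refine ⟨hV.isLocalRing, ⟨fun u hu => ?_, fun u hu q => isU_of_not_mx hu fun m => ?_⟩,
    ⟨fun u hu => ?_, fun u hu q => isU_of_not_mx hu fun m => ?_⟩⟩
  · exact (e1 ⟨u, hu⟩ ▸ h1 _ : ι u ∈ O)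
  · refine ((isU_comap _).1 q).not_mx (e1 ⟨u, hu⟩ ▸ h2 _ ?_)
    rw [Algebra.TensorProduct.map_tmul, (res0 ⟨u, hu⟩).2 m, TensorProduct.zero_tmul]
  · exact (e2 ⟨u, hu⟩ ▸ h1 _ : ι' u ∈ O)
  · refine ((isU_comap _).1 q).not_mx (e2 ⟨u, hu⟩ ▸ h2 _ ?_)
    rw [Algebra.TensorProduct.map_tmul, (res0 ⟨u, hu⟩).2 m, TensorProduct.tmul_zero]

theorem mem_ev {b : K} (h : b ∈ Bq ι ι' R R' {A}) : ∃ q, XAlg.ev (pp ι ι' R R') A q = b := by
  refine (Algebra.adjoin_le ?_ : _ ≤ (XAlg.ev (pp ι ι' R R') A).range) h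
  rintro _ (⟨a, ha, rfl⟩ | ⟨a, ha, rfl⟩ | rfl)
  · exact ⟨C (⟨a, ha⟩ ⊗ₜ 1), (XAlg.ev_C _ _ _).trans (by simp [pm_tmul])⟩
  · exact ⟨C (1 ⊗ₜ ⟨a, ha⟩), (XAlg.ev_C _ _ _).trans (by simp [pm_tmul])⟩
  · exact ⟨X, XAlg.ev_X _ _⟩

theorem ev_sum (q : (R ⊗[k] R')[X]) : XAlg.ev (pp ι ι' R R') A q =
    ∑ i ∈ q.support, pp ι ι' R R' (q.coeff i) * A ^ i := eval₂_eq_sum

variable [IsAlgClosed k] {e : ℕ} {S : M} {S' : M'} (h : Lq e ι ι' R R' A S S')

include h

theorem e0 : e ≠ 0 := by rcases h.he with q | q <;> omega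

theorem zero (hK : Kq h) (m : S' ∈ mx R') :
    ∃ V, A ∈ mx V ∧ Mn ι ι' R R' A (fun O => A ∈ mx O) V := by
  have := td (k := k) (L := IsLocalRing.ResidueField R) (K := IsLocalRing.ResidueField R')
  obtain ⟨V, hV, H⟩ := exists_val_of (XAlg.ev (pp ι ι' R R') A)
    (XAlg.ev (red R R') 0).toRingHom fun q hq => by
      obtain ⟨c, rfl⟩ := hK q hq
      change XAlg.ev (red R R') 0 _ = 0
      rw [map_mul, map_sub, map_mul, map_pow, XAlg.ev_X, zero_pow (e0 h), mul_zero, XAlg.ev_C,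
        Algebra.TensorProduct.map_tmul, (res0 ⟨S', h.mS'⟩).2 m]
      simp
  have a : A ∈ mx V := XAlg.ev_X (pp ι ι' R R') A ▸ (H X).2.2 (XAlg.ev_X _ _)
  refine ⟨V, a, hV, ov_of hV (fun z => XAlg.ev_C (pp ι ι' R R') A z ▸ (H _).1) fun z hz =>
    XAlg.ev_C (pp ι ι' R R') A z ▸ (H _).2.2 ((XAlg.ev_C _ _ _).trans hz), a.1,
    fun O hO _ hA b hb bm => ?_⟩
  obtain ⟨q, rfl⟩ := mem_ev hb
  have z : red R R' (q.coeff 0) = 0 := (eval₂_at_zero _).symm.trans ((H q).2.1 bm)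
  rw [ev_sum]
  refine mx_sum hO.loc fun i _ => ?_
  rcases eq_or_ne i 0 with rfl | n
  · exact mx_mul_right (ovr hO z) (O.pow_mem hA.1 0)
  · exact mx_mul_left (pp_mem hO _) (mx_pow hA n)

theorem exc (hK : Kq h) (m : S ∈ mx R) (m' : S' ∈ mx R') :
    ∃ V, Ind V ![A] ∧ Mn ι ι' R R' A (fun _ => True) V := by
  have := td (k := k) (L := IsLocalRing.ResidueField R) (K := IsLocalRing.ResidueField R')
  obtain ⟨V, hV, H⟩ := exists_val_of (XAlg.ev (pp ι ι' R R') A)
    (Polynomial.mapAlgHom (red R R')).toRingHom fun q hq => by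
      obtain ⟨c, rfl⟩ := hK q hq
      simp [(res0 ⟨S', h.mS'⟩).2 m', (res0 ⟨S, h.mS⟩).2 m]
  have a : A ∈ V := XAlg.ev_X (pp ι ι' R R') A ▸ (H X).1
  refine ⟨V, ⟨fun i => by simpa [Subsingleton.elim i 0] using a, fun p hp => ?_⟩, hV,
    ov_of hV (fun z => XAlg.ev_C (pp ι ι' R R') A z ▸ (H _).1) fun z hz =>
      XAlg.ev_C (pp ι ι' R R') A z ▸ (H _).2.2 (by simp [hz]), a, fun O hO hA _ b hb bm => ?_⟩
  · have e1 : MvPolynomial.aeval ![A] p =
        XAlg.ev (pp ι ι' R R') A (MvPolynomial.aeval (fun _ => X) p) := by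
      rw [MvPolynomial.comp_aeval_apply]
      congr 2
      funext i
      simp [Subsingleton.elim i 0, XAlg.ev_X]
    rw [e1]
    exact isU_of_not_mx (H _).1 fun q => hp (trs (red R R') p ((H _).2.1 q))
  · obtain ⟨q, rfl⟩ := mem_ev hb
    have z : q.map (red R R').toRingHom = 0 := (H q).2.1 bm
    rw [ev_sum]
    exact mx_sum hO.loc fun i _ => mx_mul_right
      (ovr hO ((coeff_map (red R R').toRingHom i).symm.trans (by rw [z, coeff_zero])))
      (O.pow_mem hA i)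

theorem unit [NeZero (2 : k)] (hN : NsqStmt) (u : IsU R S) (t : R' = ⊤) (n : ¬IsSquare S') :
    ∃ V, Mn ι ι' R R' A (fun _ => True) V := by
  have := td (k := k) (L := IsLocalRing.ResidueField R) (K := IsLocalRing.ResidueField R')
  obtain ⟨V, hV, H⟩ := exists_val_of (pp ι ι' R R') (red R R').toRingHom fun q hq => by
    rw [h.dj.sub R R' (hq.trans (map_zero _).symm), map_zero]
  let s : R ⊗[k] R' := ⟨S⁻¹, u.2.2⟩ ⊗ₜ ⟨S', h.mS'⟩
  have hs : pp ι ι' R R' s = A ^ e := by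
    have := (map_ne_zero ι).2 h.nS
    change ι S⁻¹ * ι' S' = _
    rw [← h.eq, map_inv₀]
    field_simp
  have a : A ∈ V := (hV A).elim id fun q => by
    have := V.mul_mem (hs ▸ (H s).1) (V.pow_mem q (e - 1))
    rwa [inv_pow, ← pow_sub₀ _ h.ne (Nat.sub_le _ _),
      Nat.sub_sub_self (Nat.one_le_iff_ne_zero.2 (e0 h)), pow_one] at this
  refine ⟨V, hV, ov_of hV (fun z => (H z).1) fun z => (H z).2.2, a, fun O hO hA _ b hb bm => ?_⟩
  obtain ⟨q, rfl⟩ := mem_ev hb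
  rcases h.he with rfl | rfl
  · rw [pow_one] at hs
    rw [← hs, show XAlg.ev (pp ι ι' R R') (pp ι ι' R R' s) q = pp ι ι' R R' (q.eval s) from
      eval₂_hom (pp ι ι' R R').toRingHom s] at bm ⊢
    exact ovr hO ((H _).2.1 bm)
  have p1 : ∀ i, ∃ x y, A ^ i = pp ι ι' R R' x + pp ι ι' R R' y * A := fun i => by
    induction i with
    | zero => exact ⟨1, 0, by simp⟩
    | succ i ih =>
      obtain ⟨x, y, f⟩ := ih
      exact ⟨y * s, x, by rw [pow_succ, f, map_mul, hs]; ring⟩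
  obtain ⟨x, y, f⟩ : ∃ x y, XAlg.ev (pp ι ι' R R') A q = pp ι ι' R R' x + pp ι ι' R R' y * A := by
    choose x y f using p1
    refine ⟨∑ i ∈ q.support, q.coeff i * x i, ∑ i ∈ q.support, q.coeff i * y i, ?_⟩
    simp only [ev_sum, map_sum, map_mul, f, mul_add, Finset.sum_add_distrib, Finset.sum_mul,
      mul_assoc]
  rw [f] at bm ⊢
  have z : red R R' (x ^ 2 - y ^ 2 * s) = 0 := (H _).2.1 (by
    convert mx_mul_right bm (V.sub_mem (H x).1 (V.mul_mem (H y).1 a)) using 1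
    rw [map_sub, map_mul, map_pow, map_pow, hs]
    ring)
  rw [map_sub, map_mul, map_pow, map_pow, sub_eq_zero] at z
  have y0 : red R R' y = 0 := by
    by_contra y0
    have := NoZeroDivisors.to_isDomain (IsLocalRing.ResidueField R ⊗[k] IsLocalRing.ResidueField R')
    let F := FractionRing (IsLocalRing.ResidueField R ⊗[k] IsLocalRing.ResidueField R')
    let φ := IsScalarTower.toAlgHom k (IsLocalRing.ResidueField R ⊗[k] IsLocalRing.ResidueField R') F
    have φi : Function.Injective φ := IsFractionRing.injective _ F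
    have e1 : pm (φ.comp Algebra.TensorProduct.includeLeft)
        (φ.comp Algebra.TensorProduct.includeRight) = φ := by
      refine AlgHom.ext fun z => ?_
      induction z with
      | zero => simp
      | tmul a b => simp [pm_tmul, ← map_mul]
      | add a b ha hb => rw [map_add, map_add, ha, hb]
    refine hN k _ _ F _ _ (Dj.symm (e1.symm ▸ φi : Dj _ _)) (resid R' ⟨S', h.mS'⟩)
      (resid R ⟨S⁻¹, u.2.2⟩) ?_ (fun c => u.inv.not_mx ((res0 _).1 c))
      (φ (red R R' x) / φ (red R R' y)) (Rt.symm ⟨_, ?_, _, ?_, (map_ne_zero_iff φ φi).2 y0, rfl⟩) ?_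
    · rintro ⟨c, hc⟩
      obtain ⟨c, rfl⟩ := resid_surj c
      rw [← map_mul, ← sub_eq_zero, ← map_sub, res0] at hc
      subst t
      exact n ⟨c, sub_eq_zero.1 (mem_mx_top.1 hc)⟩
    · rw [← Bq_top, e1]; exact ⟨_, rfl⟩
    · rw [← Bq_top, e1]; exact ⟨_, rfl⟩
    · rw [div_pow, ← map_pow, z, map_mul, map_pow, mul_div_cancel_left₀ _
        (pow_ne_zero 2 ((map_ne_zero_iff φ φi).2 y0))]
      simp [s, ← map_mul]
  rw [y0, zero_pow two_ne_zero, zero_mul] at z
  exact mx_add hO.loc (ovr hO (pow_eq_zero_iff two_ne_zero |>.1 z)) (mx_mul_right (ovr hO y0) hA)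

end VqP

theorem vq_stmt : VqStmt := fun hN hK k M M' K _ _ _ _ _ _ _ _ _ ι ι' e R R' A S S' h => by
  have := h.loc
  have := h.loc'
  have q := hK k M M' K ι ι' e R R' A S S' h
  exact ⟨VqP.zero h q, VqP.exc h q, VqP.unit h hN⟩

end Pool.Agent.MP_20d318_ag.KK
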