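import Pool.Agent.MP_20d318_ag.KK.Spec

/-! XLOC: the charts of the blow-up of a product and of its double cover. -/

set_option autoImplicit false
set_option linter.unusedSectionVars false

namespace Pool.Agent.MP_20d318_ag.KK

open Pool.Agent.MP_fd6584_ag.Fn Pool.Agent.CBk Polynomial
open Pool.Agent.MP_fd6584_ag.AG hiding deg_inv deg_congr deg_of_unit deg_mul deg_prod deg_zpow
  deg_eq_zero deg_nonneg deg_div deg_pow
open Pool.Agent.MP_20d318_ag.CH (Lv OkA)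

namespace XlocR

variable {k M M' K Λ Λ' κ κ' : Type} {n n' : ℕ} [Field k] [Field M] [Field M'] [Field K]
  [Algebra k M] [Algebra k M'] [Algebra k K] [Finite Λ] [Finite Λ'] [Fintype κ] [Fintype κ']
  {L : Lv k M Λ κ n} {L' : Lv k M' Λ' κ' n'} {ι : M →ₐ[k] K} {ι' : M' →ₐ[k] K} {v : K} {e : ℕ}
  {O B : Subalgebra k K}

theorem isU_B {R : Subalgebra k M} (hB : ∀ a ∈ R, ι a ∈ B) {u : M} (hu : IsU R u) :
    IsU B (ι u) :=
  ⟨(map_ne_zero ι).2 hu.ne, hB _ hu.mem, by simpa using hB _ hu.inv_mem⟩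

section loc

variable (ht : OkA L) (ht' : OkA L') (he : Ext L.φ L'.φ ι ι' v e) (hR : pr ι L.Y O ∈ L.Y)
  (hR' : pr ι' L'.Y O ∈ L'.Y)

include ht ht' he hR hR'

theorem N_ne : NN L L' ι ι' e O ≠ 0 :=
  pow_ne_zero _ (mul_ne_zero ((map_ne_zero ι).2 (ht.gU _ hR).ne)
    ((map_ne_zero ι').2 (ht'.gU' _ hR').ne))

theorem A_ne : AA L L' ι ι' v e O ≠ 0 :=
  mul_ne_zero he.vne (pow_ne_zero _ (div_ne_zero ((map_ne_zero ι').2 (ht'.cj.ne hR'))
    ((map_ne_zero ι).2 (ht.cj.ne hR))))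

theorem v_eq (m : M) (m' : M') : (ι m * ι' m') ^ (3 - e) = NN L L' ι ι' e O *
    (ι (m / gn L.U (pr ι L.Y O)) *
      ι' (m' / (gn L'.U (pr ι' L'.Y O) / L'.jj (pr ι' L'.Y O)))) ^ (3 - e) := by
  have h1 : ι (gn L.U (pr ι L.Y O)) ≠ 0 := (map_ne_zero ι).2 (ht.gU _ hR).ne
  have h2 : ι' (gn L'.U (pr ι' L'.Y O) / L'.jj (pr ι' L'.Y O)) ≠ 0 :=
    (map_ne_zero ι').2 (ht'.gU' _ hR').ne
  rw [NN, ← mul_pow, up, up, map_div₀ ι m, map_div₀ ι' m']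
  congr 1
  field_simp

theorem w_eq (m : M) (m' : M') : v * (ι m * ι' m') ^ (3 - e) =
    NN L L' ι ι' e O * AA L L' ι ι' v e O *
      (ι (m / (gn L.U (pr ι L.Y O) / L.jj (pr ι L.Y O))) *
        ι' (m' / gn L'.U (pr ι' L'.Y O))) ^ (3 - e) := by
  have h1 : ι (gn L.U (pr ι L.Y O)) ≠ 0 := (map_ne_zero ι).2 (ht.gU _ hR).ne
  have h2 : ι' (gn L'.U (pr ι' L'.Y O)) ≠ 0 := (map_ne_zero ι').2 (ht'.gU _ hR').ne
  have h3 : ι (L.jj (pr ι L.Y O)) ≠ 0 := (map_ne_zero ι).2 (ht.cj.ne hR)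
  have h4 : ι' (L'.jj (pr ι' L'.Y O)) ≠ 0 := (map_ne_zero ι').2 (ht'.cj.ne hR')
  rw [NN, AA, A0, mul_left_comm, ← mul_pow, mul_assoc, ← mul_pow, up, up]
  simp only [map_div₀]
  congr 2
  field_simp

variable (hB : ∀ a ∈ pr ι L.Y O, ι a ∈ B) (hB' : ∀ a ∈ pr ι' L'.Y O, ι' a ∈ B)

include hB hB'

theorem SI_mem : ∀ c ∈ SI L L' ι ι' v e, ∃ b ∈ B,
    c = NN L L' ι ι' e O * AA L L' ι ι' v e O * b ∨ c = NN L L' ι ι' e O * b := by
  rintro c (⟨m, hm, m', hm', rfl⟩ | ⟨m, hm, m', hm', rfl⟩)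
  · exact ⟨_, pow_mem (mul_mem (hB _ ((ht.gU _ hR).1 m hm)) (hB' _ ((ht'.gU' _ hR').1 m' hm'))) _,
      Or.inr (v_eq ht ht' he hR hR' m m')⟩
  · exact ⟨_, pow_mem (mul_mem (hB _ ((ht.gU' _ hR).1 m hm)) (hB' _ ((ht'.gU _ hR').1 m' hm'))) _,
      Or.inl (w_eq ht ht' he hR hR' m m')⟩

theorem SI_one :
    ∃ u, IsU B u ∧ NN L L' ι ι' e O * AA L L' ι ι' v e O * u ∈ SI L L' ι ι' v e := by
  obtain ⟨m, hm, hu⟩ := (ht.gU' _ hR).2
  obtain ⟨m', hm', hu'⟩ := (ht'.gU _ hR').2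
  refine ⟨_, ((isU_B hB hu).mul (isU_B hB' hu')).pow (3 - e), ?_⟩
  rw [← w_eq ht ht' he hR hR']
  exact Or.inr ⟨m, hm, m', hm', rfl⟩

theorem SI_two : ∃ u, IsU B u ∧ NN L L' ι ι' e O * u ∈ SI L L' ι ι' v e := by
  obtain ⟨m, hm, hu⟩ := (ht.gU _ hR).2
  obtain ⟨m', hm', hu'⟩ := (ht'.gU' _ hR').2
  refine ⟨_, ((isU_B hB hu).mul (isU_B hB' hu')).pow (3 - e), ?_⟩
  rw [← v_eq ht ht' he hR hR']
  exact Or.inl ⟨m, hm, m', hm', rfl⟩

theorem gS1 (ha : AA L L' ι ι' v e O ∈ B) : Gn (SI L L' ι ι' v e) B (NN L L' ι ι' e O) := by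
  have hN := N_ne ht ht' he hR hR'
  obtain ⟨u, hu, h⟩ := SI_two ht ht' he hR hR' hB hB'
  refine ⟨fun c hc => ?_, _, h, ?_⟩
  · obtain ⟨b, hb, rfl | rfl⟩ := SI_mem ht ht' he hR hR' hB hB' c hc
    · exact Set.mem_of_eq_of_mem (by field_simp) (mul_mem ha hb)
    · exact Set.mem_of_eq_of_mem (by field_simp) hb
  · rw [mul_div_cancel_left₀ _ hN]
    exact hu

theorem gS2 (ha : (AA L L' ι ι' v e O)⁻¹ ∈ B) :
    Gn (SI L L' ι ι' v e) B (NN L L' ι ι' e O * AA L L' ι ι' v e O) := by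
  have hN := N_ne ht ht' he hR hR'
  have hA := A_ne ht ht' he hR hR'
  obtain ⟨u, hu, h⟩ := SI_one ht ht' he hR hR' hB hB'
  refine ⟨fun c hc => ?_, _, h, ?_⟩
  · obtain ⟨b, hb, rfl | rfl⟩ := SI_mem ht ht' he hR hR' hB hB' c hc
    · exact Set.mem_of_eq_of_mem (by field_simp) hb
    · exact Set.mem_of_eq_of_mem (by field_simp) (mul_mem ha hb)
  · rw [mul_div_cancel_left₀ _ (mul_ne_zero hN hA)]
    exact hu

theorem aa_of (hp : Prin (SI L L' ι ι' v e) B) :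
    AA L L' ι ι' v e O ∈ B ∨ (AA L L' ι ι' v e O)⁻¹ ∈ B := by
  have hN := N_ne ht ht' he hR hR'
  have hA := A_ne ht ht' he hR hR'
  obtain ⟨c, hc, hg⟩ := hp.exists_mem
  have hc0 := hg.ne
  obtain ⟨b, hb, rfl | rfl⟩ := SI_mem ht ht' he hR hR' hB hB' c hc
  · obtain ⟨u, hu, h⟩ := SI_two ht ht' he hR hR' hB hB'
    have h0 := hu.ne
    have hb0 := right_ne_zero_of_mul hc0
    right
    exact Set.mem_of_eq_of_mem (by field_simp) (mul_mem (mul_mem (hg.1 _ h) hb) hu.inv_mem)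
  · obtain ⟨u, hu, h⟩ := SI_one ht ht' he hR hR' hB hB'
    have h0 := hu.ne
    have hb0 := right_ne_zero_of_mul hc0
    left
    exact Set.mem_of_eq_of_mem (by field_simp) (mul_mem (mul_mem (hg.1 _ h) hb) hu.inv_mem)

end loc

section glob

variable (ht : OkA L) (ht' : OkA L') (he : Ext L.φ L'.φ ι ι' v e)

include ht ht' he

theorem fam : Fam k (famX L L' ι ι' v e) where
  fin := by
    rintro (a | a | b)
    · exact (ht.fam.fin a).image ι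
    · exact (ht'.fam.fin a).image ι'
    · exact (ht.fU.image2 _ ht'.fU').union (ht.fU'.image2 _ ht'.fU)
  ne := by
    rintro (a | a | b)
    · exact (ht.fam.ne a).image ι
    · exact (ht'.fam.ne a).image ι'
    · obtain ⟨m, hm, -⟩ := (ht.gU _ (fine_mp ht.fam).top).2
      obtain ⟨m', hm', -⟩ := (ht'.gU' _ (fine_mp ht'.fam).top).2
      exact ⟨_, Or.inl ⟨m, hm, m', hm', rfl⟩⟩
  nz := by
    rintro (o | o | b) a ha
    · obtain ⟨m, hm, rfl⟩ := ha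
      exact (map_ne_zero ι).2 (ht.fam.nz o m hm)
    · obtain ⟨m, hm, rfl⟩ := ha
      exact (map_ne_zero ι').2 (ht'.fam.nz o m hm)
    · rcases ha with ⟨m, hm, m', hm', rfl⟩ | ⟨m, hm, m', hm', rfl⟩
      · exact pow_ne_zero _ (mul_ne_zero ((map_ne_zero ι).2 (ht.nU m hm))
          ((map_ne_zero ι').2 (ht'.nU' m' hm')))
      · exact mul_ne_zero he.vne (pow_ne_zero _ (mul_ne_zero ((map_ne_zero ι).2 (ht.nU' m hm))
          ((map_ne_zero ι').2 (ht'.nU m' hm'))))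
  top := by
    have h1 : (⊤ : IntermediateField k M) ≤ (IntermediateField.adjoin k
        {f | ∃ l, ∃ a ∈ famX L L' ι ι' v e l, ∃ b ∈ famX L L' ι ι' v e l, f = a / b}).comap ι := by
      rw [← ht.fam.top, IntermediateField.adjoin_le_iff]
      rintro _ ⟨o, a, ha, b, hb, rfl⟩
      exact IntermediateField.subset_adjoin _ _
        ⟨Sum.inl o, ι a, ⟨a, ha, rfl⟩, ι b, ⟨b, hb, rfl⟩, map_div₀ ι a b⟩
    have h1' : (⊤ : IntermediateField k M') ≤ (IntermediateField.adjoin k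
        {f | ∃ l, ∃ a ∈ famX L L' ι ι' v e l, ∃ b ∈ famX L L' ι ι' v e l, f = a / b}).comap ι' := by
      rw [← ht'.fam.top, IntermediateField.adjoin_le_iff]
      rintro _ ⟨o, a, ha, b, hb, rfl⟩
      exact IntermediateField.subset_adjoin _ _
        ⟨Sum.inr (Sum.inl o), ι' a, ⟨a, ha, rfl⟩, ι' b, ⟨b, hb, rfl⟩, map_div₀ ι' a b⟩
    have g1 : ∀ m, ι m ∈ IntermediateField.adjoin k
        {f | ∃ l, ∃ a ∈ famX L L' ι ι' v e l, ∃ b ∈ famX L L' ι ι' v e l, f = a / b} :=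
      fun m => h1 (IntermediateField.mem_top (x := m))
    have g2 : ∀ m, ι' m ∈ IntermediateField.adjoin k
        {f | ∃ l, ∃ a ∈ famX L L' ι ι' v e l, ∃ b ∈ famX L L' ι ι' v e l, f = a / b} :=
      fun m => h1' (IntermediateField.mem_top (x := m))
    rw [eq_top_iff, ← he.top, IntermediateField.adjoin_le_iff]
    rintro f (⟨m, h⟩ | ⟨m, h⟩ | h)
    · exact h ▸ g1 m
    · exact h ▸ g2 m
    · obtain ⟨a, ha, -⟩ := (ht.gU _ (fine_mp ht.fam).top).2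
      obtain ⟨a', ha', -⟩ := (ht'.gU' _ (fine_mp ht'.fam).top).2
      obtain ⟨b, hb, -⟩ := (ht.gU' _ (fine_mp ht.fam).top).2
      obtain ⟨b', hb', -⟩ := (ht'.gU _ (fine_mp ht'.fam).top).2
      have h2 : (ι a * ι' a') ^ (3 - e) ≠ 0 := pow_ne_zero _ (mul_ne_zero
        ((map_ne_zero ι).2 (ht.nU a ha)) ((map_ne_zero ι').2 (ht'.nU' a' ha')))
      have h3 : (ι b * ι' b') ^ (3 - e) ≠ 0 := pow_ne_zero _ (mul_ne_zero
        ((map_ne_zero ι).2 (ht.nU' b hb)) ((map_ne_zero ι').2 (ht'.nU b' hb')))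
      have e1 : f = v * (ι b * ι' b') ^ (3 - e) / (ι a * ι' a') ^ (3 - e) *
          ((ι a * ι' a') ^ (3 - e) / (ι b * ι' b') ^ (3 - e)) := by
        rw [show f = v from h, div_mul_div_cancel₀ h2, mul_div_cancel_right₀ _ h3]
      rw [e1]
      exact mul_mem (IntermediateField.subset_adjoin _ _ ⟨Sum.inr (Sum.inr ()), _,
        Or.inr ⟨b, hb, b', hb', rfl⟩, _, Or.inl ⟨a, ha, a', ha', rfl⟩, rfl⟩)
        (div_mem (pow_mem (mul_mem (g1 a) (g2 a')) _) (pow_mem (mul_mem (g1 b) (g2 b')) _))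

theorem maps : Maps ι (XX L L' ι ι' v e) L.Y := fun O hO => by
  refine exists_mp_dom (S := L.S) (isLocalRing_comap ι (mp_loc hO)) fun a => ?_
  obtain ⟨_, ⟨b, -, rfl⟩, hg⟩ := (mp_prin (fam ht ht' he) hO (Sum.inl a)).exists_mem
  exact ((gn_map ι).1 hg).prin

theorem maps' : Maps ι' (XX L L' ι ι' v e) L'.Y := fun O hO => by
  refine exists_mp_dom (S := L'.S) (isLocalRing_comap ι' (mp_loc hO)) fun a => ?_
  obtain ⟨_, ⟨b, -, rfl⟩, hg⟩ := (mp_prin (fam ht ht' he) hO (Sum.inr (Sum.inl a))).exists_mem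
  exact ((gn_map ι').1 hg).prin

variable (hO : O ∈ XX L L' ι ι' v e)

include hO

theorem aa : AA L L' ι ι' v e O ∈ O ∨ (AA L L' ι ι' v e O)⁻¹ ∈ O :=
  aa_of ht ht' he ((maps ht ht' he).mem hO) ((maps' ht ht' he).mem hO)
    (fun _ => (maps ht ht' he).mem_up hO) (fun _ => (maps' ht ht' he).mem_up hO)
    (mp_prin (fam ht ht' he) hO (Sum.inr (Sum.inr ())))

theorem pts (a : K) (ha : a ∈ O) (h : a = AA L L' ι ι' v e O ∨ a = (AA L L' ι ι' v e O)⁻¹) :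
    O ∈ Pts (Bq ι ι' (pr ι L.Y O) (pr ι' L'.Y O) {a}) := by
  have hm := maps ht ht' he
  have hm' := maps' ht ht' he
  have ha' : a ∈ Bq ι ι' (pr ι L.Y O) (pr ι' L'.Y O) {a} := Bq_g rfl
  refine mp_chart (fam ht ht' he) hO ?_ ?_
  · rw [Bq, Algebra.adjoin_le_iff]
    rintro _ (⟨b, hb, rfl⟩ | ⟨b, hb, rfl⟩ | rfl)
    · exact hm.mem_up hO hb
    · exact hm'.mem_up hO hb
    · exact ha
  · rintro (o | o | b)
    · obtain ⟨b, hb, hg⟩ := (mp_prin ht.fam (hm.mem hO) o).exists_mem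
      refine ⟨ι b, ⟨b, hb, rfl⟩, ?_⟩
      rintro _ ⟨c, hc, rfl⟩
      rw [← map_div₀]
      exact le_fr (Bq_l (hg.1 c hc))
    · obtain ⟨b, hb, hg⟩ := (mp_prin ht'.fam (hm'.mem hO) o).exists_mem
      refine ⟨ι' b, ⟨b, hb, rfl⟩, ?_⟩
      rintro _ ⟨c, hc, rfl⟩
      rw [← map_div₀]
      exact le_fr (Bq_r (hg.1 c hc))
    · have hp : Prin (SI L L' ι ι' v e) (Bq ι ι' (pr ι L.Y O) (pr ι' L'.Y O) {a}) :=
        h.elim (fun h => (gS1 ht ht' he (hm.mem hO) (hm'.mem hO) (fun _ => Bq_l) (fun _ => Bq_r)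
          (Set.mem_of_eq_of_mem h.symm ha')).prin) fun h =>
          (gS2 ht ht' he (hm.mem hO) (hm'.mem hO) (fun _ => Bq_l) (fun _ => Bq_r)
            (Set.mem_of_eq_of_mem h.symm ha')).prin
      obtain ⟨b, hb, h1⟩ := hp.exists_mem
      exact ⟨b, hb, fun c hc => le_fr (h1.1 c hc)⟩

end glob

end XlocR

open XlocR in
theorem xloc_stmt : XlocStmt :=
  fun _ _ _ _ _ _ _ _ _ _ _ _ _ _ _ _ _ _ _ _ _ _ _ _ _ _ _ ht ht' he =>
  ⟨{ fine := fine_mp (fam ht ht' he)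
     maps := maps ht ht' he
     maps' := maps' ht ht' he
     aa := fun _ => aa ht ht' he
     pts := fun _ => pts ht ht' he }, fam ht ht' he, fun _ hO =>
    ⟨gS1 ht ht' he ((maps ht ht' he).mem hO) ((maps' ht ht' he).mem hO)
        (fun _ => (maps ht ht' he).mem_up hO) (fun _ => (maps' ht ht' he).mem_up hO),
      gS2 ht ht' he ((maps ht ht' he).mem hO) ((maps' ht ht' he).mem hO)
        (fun _ => (maps ht ht' he).mem_up hO) (fun _ => (maps' ht ht' he).mem_up hO)⟩⟩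

end Pool.Agent.MP_20d318_ag.KK
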